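import Pool.Agent.Work.MP_ffcd14_ag.Uni.B2a

-- merged part: Pool.Agent.Work.MP_ffcd14_ag.Uni.B2b
section
/-! # Envelopes -/

open MvPolynomial Filter Topology

namespace Pool.Agent.Work.MP_ffcd14_ag.Uni

universe u v w

variable {k F : Type u} [Field k] [Field F] [Algebra k F]
  {K : Type v} [Field K] [CharZero K] {C : NT.{u, v, w} k K}

theorem B2b_apply (A : FD k F) (G : DD k F) (m j : ℕ) (v : Vl k F) : env A G m j v =
    j * mn A v - (m : FF)⁻¹ * mn (RS A (m • (G - j • mD A))) v := by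
  simp only [env, DD.add_apply, DD.smul_apply, DD.neg_apply, DD.nsmul_apply, mD_apply]
  push_cast
  ring

theorem B2b_cl (A : FD k F) (G : DD k F) (m j : ℕ) : cl (env A G m j) + j • hh A =
    (m : ℚ)⁻¹ • hh (RS A (m • (G - j • mD A))) := by
  rw [env, map_add, map_smul, map_neg, map_nsmul, cl_mD, cl_mD, neg_neg, smul_neg,
    neg_add_cancel_right]

theorem B2b_nef (A : FD k F) (G : DD k F) (m j : ℕ) : Nef (cl (env A G m j) + j • hh A) :=
  ⟨_, _, by positivity, B2b_cl A G m j⟩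

theorem B2b_pow {A V : FD k F} {D : DD k F} (h : V.1 ≤ RR A D) (n : ℕ) :
    (V ^ n).1 ≤ RR A (n • D) := by
  refine le_RR.2 fun c hc => ?_
  rw [mD_pow, ← smul_neg, map_nsmul, map_nsmul]
  exact nsmul_le_nsmul_right (le_RR.1 h c hc) n

theorem B2b_mul {A V W : FD k F} {D D' : DD k F} (h : V.1 ≤ RR A D) (h' : W.1 ≤ RR A D') :
    (V * W).1 ≤ RR A (D + D') :=
  (mul_le_mul' h h').trans (RR_mul D D')

theorem B2b_self (A V : FD k F) : V.1 ≤ RR A (-mD V) := le_RR.2 fun _ _ => le_rfl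

theorem B2b_intP {A : FD k F} {G : DD k F} {j : ℕ} (h : NF A (G - j • mD A)) : IntP A (-G) := by
  intro c hc
  obtain ⟨f, -, -, h1⟩ := h c hc
  refine ⟨c.z f - j * c.mz A, ?_⟩
  rw [← Rat.cast_inj (α := FF), c.vq_cast]
  rw [DD.sub_apply, DD.nsmul_apply, mD_apply] at h1
  push_cast
  rw [c.z_cast, c.mz_cast, DD.neg_apply]
  linarith

theorem B2b_alg {B : Type*} [CommRing B] [Algebra ℚ B] (P M₁ M₂ : B) (s : ℚ) :
    2 • (P + s • M₁) ^ 3 - (P + s • M₁ + s • M₂) ^ 3 =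
      P ^ 3 + (3 * s) • (P * P * (M₁ - M₂)) - (3 * s ^ 2) • (P * (M₁ + M₂) * (M₁ + M₂)) -
        s ^ 3 • (M₁ + M₂) ^ 3 + (6 * s ^ 2) • (P * M₁ * M₁) + (2 * s ^ 3) • M₁ ^ 3 := by
  simp only [Algebra.smul_def, map_mul, map_pow, map_ofNat]
  ring

variable [IsAlgClosed k] [Fg k F] (hC : C.Chow) (h3 : td k F = 3) {A : FD k F}
  (hA : IntermediateField.adjoin k (rt A) = ⊤)
include hC h3 hA

section env
variable {G : DD k F} {j₁ : ℕ} (h : NF A (G - j₁ • mD A))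
include h

theorem B2b_val (m : ℕ) {j : ℕ} (hj : j₁ ≤ j) :
    (RS A (m • (G - j • mD A))).1 = RR A (m • (G - j • mD A)) :=
  ((h.le hA hj).nsmul m).RS_val hC h3 hA

theorem env_lift {m j : ℕ} (hm : 0 < m) (hj : j₁ ≤ j) : env A G m j - G ∈ XC A := by
  intro c hc
  have h1 : (m : ℚ) ≠ 0 := by positivity
  simp only [env, map_sub, map_add, map_smul, map_neg,
    B2a_vq hC h3 hA ((h.le hA hj).nsmul m) hc, map_nsmul]
  simp only [nsmul_eq_mul, smul_eq_mul]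
  field_simp
  ring

theorem env_mono {m m' j j' : ℕ} (hm' : 0 < m') (hm : m ∣ m') (hj : j₁ ≤ j) (hj' : j ≤ j') :
    env A G m j ≤ env A G m' j' := by
  obtain ⟨t, rfl⟩ := hm
  obtain ⟨i, rfl⟩ := Nat.exists_eq_add_of_le hj'
  have h1 := B2b_mul (B2b_pow (B2b_val hC h3 hA h m hj).le t) (B2b_pow (B2b_self A A) (m * t * i))
  have e : t • m • (G - j • mD A) + (m * t * i) • -mD A = (m * t) • (G - (j + i) • mD A) := by
    module
  rw [e, ← B2b_val hC h3 hA h _ (hj.trans hj')] at h1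
  intro v
  have h2 := mn_anti h1 v
  rw [mn_mul, mn_pow, mn_pow] at h2
  have hm0 : (0 : FF) < m := by exact_mod_cast Nat.pos_of_mul_pos_right hm'
  have ht0 : (0 : FF) < t := by exact_mod_cast Nat.pos_of_mul_pos_left hm'
  change env A G m j v ≤ env A G (m * t) (j + i) v
  rw [B2b_apply, B2b_apply, ← sub_nonneg]
  refine (mul_nonneg (inv_nonneg.2 (mul_pos hm0 ht0).le) (sub_nonneg.2 h2)).trans_eq ?_
  push_cast
  field_simp
  ring

theorem env_le {j₂ : ℕ} (h' : NF A (-G - j₂ • mD A)) {m j : ℕ} (hm : 0 < m) (hj : j₁ ≤ j) :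
    env A G m j ≤ -env A (-G) 1 j₂ := by
  have h1 := B2b_mul (B2b_val hC h3 hA h m hj).le
    (B2b_pow (B2b_val hC h3 hA h' 1 le_rfl).le m)
  have e : m • (G - j • mD A) + m • 1 • (-G - j₂ • mD A) = -((m * (j + j₂)) • mD A) := by
    module
  rw [e] at h1
  intro v
  have h2 := le_mn.2 fun f hf => hartogs hA _ (h1 hf) v
  rw [mn_mul, mn_pow] at h2
  have hm0 : (0 : FF) < m := by exact_mod_cast hm
  change env A G m j v ≤ -env A (-G) 1 j₂ v
  rw [B2b_apply, B2b_apply, ← sub_nonneg]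
  refine (mul_nonneg (inv_nonneg.2 hm0.le) (sub_nonneg.2 h2)).trans_eq ?_
  push_cast
  field_simp
  ring

theorem env_gen {m j : ℕ} (hm : 0 < m) (hj : j₁ < j) :
    IntermediateField.adjoin k (rt (RS A (m • (G - j • mD A)))) = ⊤ := by
  obtain ⟨i, rfl⟩ := Nat.exists_eq_add_of_lt hj
  have h1 := B2b_mul (B2b_val hC h3 hA h m (Nat.le_add_right j₁ i)).le (B2b_pow (B2b_self A A) m)
  have e : m • (G - (j₁ + i) • mD A) + m • -mD A = m • (G - (j₁ + i + 1) • mD A) := by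
    module
  rw [e, ← B2b_val hC h3 hA h _ hj.le] at h1
  refine top_le_iff.1 (hA ▸ IntermediateField.adjoin.mono _ _ _ ?_)
  exact (rt_dvd ((dvd_pow_self A hm.ne').mul_left _)).trans (rt_mono h1)

/-- Approximation of the volume. -/
theorem env_vol {j : ℕ} (hj : j₁ ≤ j) {ε : ℝ} (hε : 0 < ε) : ∃ m₀ : ℕ, 0 < m₀ ∧ ∀ m, 0 < m →
    m₀ ∣ m → vol C A (G - j • mD A) - ε ≤
      (JJ C F ((cl (env A G m j) + j • hh A) ^ 3) : ℚ) := by
  obtain ⟨_, ⟨m₀, V, h0, hV, rfl⟩, h1⟩ := exists_lt_of_lt_csSup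
    (Set.nonempty_of_mem (by exact ⟨1, _, one_pos, (B2b_val hC h3 hA h 1 hj).le, rfl⟩))
    (sub_lt_self (vol C A (G - j • mD A)) hε)
  refine ⟨m₀, h0, ?_⟩
  rintro _ hm ⟨t, rfl⟩
  refine h1.le.trans ?_
  have h2 := B2b_pow hV t
  rw [← mul_nsmul, ← B2b_val hC h3 hA h _ hj] at h2
  have h4 := JJ_pow_mono hC (Nef.hh (V ^ t)) (Nef.hh (RS A ((m₀ * t) • (G - j • mD A))))
    (D := mD (V ^ t) - mD (RS A ((m₀ * t) • (G - j • mD A)))) (sub_nonneg.2 (mn_anti h2))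
    (by rw [map_sub, cl_mD, cl_mD]; abel) 3
  rw [hh_pow, smul_pow, map_nsmul, nsmul_eq_mul] at h4
  rw [B2b_cl, smul_pow, map_smul, smul_eq_mul]
  have hm0 : (0 : ℚ) < m₀ := by exact_mod_cast h0
  have ht0 : (0 : ℚ) < t := by exact_mod_cast Nat.pos_of_mul_pos_left hm
  have h5 : JJ C F (hh V ^ 3) / (m₀ : ℚ) ^ 3 ≤
      ((m₀ * t : ℕ) : ℚ)⁻¹ ^ 3 * JJ C F (hh (RS A ((m₀ * t) • (G - j • mD A))) ^ 3) := by
    refine le_trans (le_of_eq ?_) (mul_le_mul_of_nonneg_left h4 (by positivity))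
    push_cast
    field_simp
  exact_mod_cast h5

/-- The envelopes are almost orthogonal to the exceptional divisors. -/
theorem B2b_orth {j : ℕ} (hj : j₁ < j) {B : DD k F} (hB : ∀ m, 0 < m → env A G m j ≤ B)
    {X : DD k F} (hX : X ∈ XC A) {η : ℚ} (hη : 0 < η) : ∃ m₀ : ℕ, 0 < m₀ ∧ ∀ m, 0 < m → m₀ ∣ m →
      JJ C F ((cl (env A G m j) + j • hh A) * (cl (env A G m j) + j • hh A) * cl X) ≤ η := by
  obtain ⟨n, U₂, U₁, hn, hr⟩ := X.rep
  have nM : Nef (hh U₁ + hh U₂) := (Nef.hh U₁).add (Nef.hh U₂)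
  set K₁ := JJ C F ((cl B + j • hh A) * (hh U₁ + hh U₂) * (hh U₁ + hh U₂))
  set K₂ := JJ C F ((hh U₁ + hh U₂) ^ 3) with hK₂
  have p2 : 0 ≤ K₂ := B2a_cube_nonneg hC nM
  obtain ⟨t, ht⟩ := exists_nat_ge (max 1 ((1 + 3 * K₁ + K₂) / η))
  have t1 : (1 : ℚ) ≤ t := (le_max_left _ _).trans ht
  have t2 := (div_le_iff₀ hη).1 ((le_max_right _ _).trans ht)
  have t0 : (0 : ℚ) < t := one_pos.trans_le t1
  have t0' : 0 < t := by exact_mod_cast t0
  obtain ⟨m₀, h0, h1⟩ := env_vol hC h3 hA h hj.le (ε := (((t : ℚ)⁻¹ ^ 2 : ℚ) : ℝ))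
    (by positivity)
  refine ⟨m₀, h0, fun m hm hd => ?_⟩
  have h2 := h1 m hm hd
  have nP := B2b_nef A G m j
  have eP := B2b_cl A G m j
  have hv := fun c => B2a_vq hC h3 hA ((h.le hA hj.le).nsmul m) (c := c)
  have hg := env_gen hC h3 hA h hm hj
  have hP := B2a_mono hC (sub_nonneg.2 (hB m hm)) (x := cl (env A G m j) + j • hh A)
    (x' := cl B + j • hh A) (by rw [map_sub]; abel) nM nM
  set P := cl (env A G m j) + j • hh A
  set R := RS A (m • (G - j • mD A))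
  have m0 : (0 : ℚ) < m := by exact_mod_cast hm
  have h4 := siu hC h3 hA (W := R ^ t * U₁ ^ m) (U := U₂ ^ m)
    (top_le_iff.1 (hg ▸ IntermediateField.adjoin.mono _ _ _
      (rt_dvd ((dvd_pow_self R t0'.ne').mul_right _)))) (D := G - j • mD A) (Nat.mul_pos t0' hm)
    fun c hc => by
      have e : mD (U₂ ^ m) - mD (R ^ t * U₁ ^ m) = m • n • X - t • mD R := by
        rw [hr, mD_mul, mD_pow, mD_pow, mD_pow]
        module
      rw [e, map_sub, map_nsmul, map_nsmul, map_nsmul, hX c hc, hv c hc, mul_nsmul', map_nsmul]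
      simp
  have e1 : hh (R ^ t * U₁ ^ m) = ((t * m : ℕ) : ℚ) • (P + (t : ℚ)⁻¹ • hh U₁) := by
    rw [hh_mul, hh_pow, hh_pow, eP, smul_add, smul_smul, smul_smul,
      ← Nat.cast_smul_eq_nsmul ℚ t, ← Nat.cast_smul_eq_nsmul ℚ m]
    congr 2 <;> push_cast <;> field_simp
  have e2 : hh (U₂ ^ m) = ((t * m : ℕ) : ℚ) • (t : ℚ)⁻¹ • hh U₂ := by
    rw [hh_pow, smul_smul, ← Nat.cast_smul_eq_nsmul ℚ m]
    congr 1
    push_cast
    field_simp
  rw [e1, e2, ← smul_add, smul_pow, smul_pow, map_smul, map_smul, smul_eq_mul, smul_eq_mul] at h4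
  have h5 : ((2 * JJ C F ((P + (t : ℚ)⁻¹ • hh U₁) ^ 3) -
      JJ C F ((P + (t : ℚ)⁻¹ • hh U₁ + (t : ℚ)⁻¹ • hh U₂) ^ 3) : ℚ) : ℝ) ≤
        vol C A (G - j • mD A) := by
    refine le_of_mul_le_mul_right (le_trans (le_of_eq ?_) h4) (by positivity)
    push_cast
    ring
  have h6 : 2 * JJ C F ((P + (t : ℚ)⁻¹ • hh U₁) ^ 3) -
      JJ C F ((P + (t : ℚ)⁻¹ • hh U₁ + (t : ℚ)⁻¹ • hh U₂) ^ 3) ≤ JJ C F (P ^ 3) + (t : ℚ)⁻¹ ^ 2 := by
    have h7 := h5.trans (sub_le_iff_le_add.1 h2)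
    exact_mod_cast h7
  have h7 := congrArg (JJ C F) (B2b_alg P (hh U₁) (hh U₂) (t : ℚ)⁻¹)
  have e3 : hh U₁ - hh U₂ = n • cl X := by
    rw [← map_nsmul, hr, map_sub, cl_mD, cl_mD]
    abel
  rw [e3, mul_smul_comm] at h7
  simp only [map_add, map_sub, map_smul, map_nsmul] at h7
  simp only [nsmul_eq_mul, smul_eq_mul, ← hK₂] at h7
  have p3 := JJ_nonneg3 hC nP (Nef.hh U₁) (Nef.hh U₁)
  have p4 := B2a_cube_nonneg hC (Nef.hh U₁)
  set s := (t : ℚ)⁻¹ with hs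
  have s0 : 0 < s := by positivity
  have s1 : s ≤ 1 := inv_le_one_of_one_le₀ t1
  have s2 : s * (1 + 3 * K₁ + K₂) ≤ η := by
    rw [hs, inv_mul_le_iff₀ t0]
    exact t2
  have h8 : s * (3 * n * JJ C F (P * P * cl X)) ≤ s * (s * (1 + 3 * K₁ + K₂)) := by
    have q1 := mul_le_mul_of_nonneg_left hP (sq_nonneg s)
    have q2 := mul_nonneg (sq_nonneg s) p3
    have q3 := mul_nonneg (pow_pos s0 3).le p4
    have q4 := mul_nonneg (mul_nonneg (sq_nonneg s) (sub_nonneg.2 s1)) p2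
    push_cast at h7
    linarith
  have h9 := (le_of_mul_le_mul_left h8 s0).trans s2
  have n1 : (1 : ℚ) ≤ n := by exact_mod_cast hn
  rcases le_total (JJ C F (P * P * cl X)) 0 with q | q
  · exact q.trans hη.le
  · linarith only [h9, q, mul_le_mul_of_nonneg_right n1 q]

end env

end Pool.Agent.Work.MP_ffcd14_ag.Uni
end

-- merged part: Pool.Agent.Work.MP_ffcd14_ag.Uni.B2
section
-- merged part: Pool.Agent.Work.MP_ffcd14_ag.Uni.B2c
section
/-! # Envelopes are good -/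

open MvPolynomial Filter Topology

namespace Pool.Agent.Work.MP_ffcd14_ag.Uni

universe u v w

theorem B2c_num {θ β : ℚ} (hθ : 0 < θ) (hβ : 0 ≤ β) : ∃ ε : ℚ, 0 < ε ∧ ∀ (a₁ a₂ : ℚ) (n : ℕ),
    ∃ i : ℕ, n ≤ i ∧ ∀ b w : ℚ, i * b ≤ 1 + |w| → w ^ 2 ≤ (a₁ + β * i) * (a₂ + 2 * i * ε) →
      b ≤ θ := by
  refine ⟨θ ^ 2 / (16 * (β + 1)), by positivity, fun a₁ a₂ n => ?_⟩
  set ε := θ ^ 2 / (16 * (β + 1)) with hε
  have e0 : 0 < ε := by positivity
  have e1 : 16 * (β + 1) * ε = θ ^ 2 := by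
    rw [hε]
    field_simp
  obtain ⟨i, hi⟩ := exists_nat_ge (max (max (n : ℚ) (2 / θ)) (max |a₁| (|a₂| / (2 * ε))))
  simp only [max_le_iff] at hi
  obtain ⟨⟨h1, h2⟩, h3, h4⟩ := hi
  rw [div_le_iff₀ hθ] at h2
  rw [div_le_iff₀ (by positivity)] at h4
  have i0 : (0 : ℚ) < i := by
    by_contra h
    nlinarith [Nat.cast_nonneg (α := ℚ) i]
  refine ⟨i, by exact_mod_cast h1, fun b w h5 h6 => ?_⟩
  have h7 : |a₁ + β * i| ≤ (β + 1) * i := by
    refine (abs_add_le _ _).trans ?_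
    rw [abs_of_nonneg (by positivity : 0 ≤ β * i)]
    linarith
  have h8 : |a₂ + 2 * i * ε| ≤ 4 * i * ε := by
    refine (abs_add_le _ _).trans ?_
    rw [abs_of_nonneg (by positivity : 0 ≤ 2 * (i : ℚ) * ε)]
    linarith
  have h9 : w ^ 2 ≤ (θ * i / 2) ^ 2 := by
    refine h6.trans ((le_abs_self _).trans ?_)
    rw [abs_mul]
    refine (mul_le_mul h7 h8 (abs_nonneg _) (by positivity)).trans (le_of_eq ?_)
    rw [div_pow, mul_pow, ← e1]
    ring
  have h10 := abs_le_of_sq_le_sq' h9 (by positivity)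
  have h11 : |w| ≤ θ * i / 2 := abs_le.2 h10
  refine le_of_mul_le_mul_left ?_ i0
  linarith

section
variable {B : Type*} [CommRing B] [Algebra ℚ B] {ν : B →ₗ[ℚ] ℚ} {S : Submodule ℚ B}

theorem B2c_nrm {P z : B} {a η : ℚ} (ha : 0 < a) (h1 : a ≤ ν (P * P * P)) (h2 : 0 ≤ ν (P * P * z))
    (h4 : ν (P * P * z) ≤ η) (h5 : η ≤ 1) (h6 : 2 * η ≤ a) : nrm ν P P z ≤ 1 - ν (P * z * z) := by
  refine sub_le_sub_right ((div_le_one (ha.trans_le h1)).2 ?_) _
  nlinarith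

/-- The key estimate. -/
theorem B2c_core {h P P₀ x y : B} {i a η ε c₁ γ : ℚ} (hi : 0 ≤ i) (e : P = P₀ + y + i • h)
    (r : RCS ν S P) (r₀ : RCS ν S P₀) (mP : P ∈ S) (mP₀ : P₀ ∈ S) (mx : x ∈ S) (my : y ∈ S)
    (ha : 0 < a) (h1 : a ≤ ν (P * P * P)) (h1' : 0 < ν (P₀ * P₀ * P₀)) (h5 : η ≤ 1)
    (h6 : 2 * η ≤ a) (x0 : 0 ≤ ν (P * P * x)) (x1 : ν (P * P * x) ≤ η) (y0 : 0 ≤ ν (P * P * y))
    (y1 : ν (P * P * y) ≤ η) (z0 : 0 ≤ ν (P₀ * P₀ * y)) (z1 : ν (P₀ * P₀ * y) ≤ c₁)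
    (e1 : ν (h * P * y) ≤ ε) (e2 : ν (h * P₀ * y) ≤ ε) (x2 : -ν (P * x * x) ≤ γ)
    (x3 : 0 ≤ ν (P * P₀ * x)) : i * ν (h * P * x) ≤ 1 + |ν (P * x * y)| ∧
      ν (P * x * y) ^ 2 ≤ (1 + γ) * (1 + c₁ + c₁ ^ 2 / ν (P₀ * P₀ * P₀) + 2 * i * ε) := by
  have q : ∀ z w : B, ν (P * z * w) = ν (P₀ * z * w) + ν (y * z * w) + i * ν (h * z * w) := by
    intro z w
    rw [e, add_mul, add_mul, add_mul, add_mul, smul_mul_assoc, smul_mul_assoc, map_add, map_add,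
      map_smul, smul_eq_mul]
  have q1 := q P x
  have q2 := q P y
  have q3 := q P₀ y
  rw [mul_comm P₀ P, mul_rotate y P x] at q1
  rw [mul_comm P₀ P, mul_comm y P] at q2
  rw [mul_comm y P₀] at q3
  have q4 : ν (P₀ * y * y) ≤ c₁ ^ 2 / ν (P₀ * P₀ * P₀) := by
    rw [le_div_iff₀' h1']
    exact (r₀ P₀ mP₀ y my h1').trans (pow_le_pow_left₀ z0 z1 2)
  refine ⟨by linarith [neg_le_abs (ν (P * x * y))], ?_⟩
  have p := ha.trans_le h1
  refine (nrm_cs r mP p mx my).trans (mul_le_mul ?_ ?_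
    ((abs_nonneg _).trans (nrm_nonneg r mP p my)) ?_)
  · linarith [B2c_nrm ha h1 x0 x1 h5 h6]
  · linarith [B2c_nrm ha h1 y0 y1 h5 h6, mul_le_mul_of_nonneg_left e1 hi,
      mul_le_mul_of_nonneg_left e2 hi]
  · linarith [B2c_nrm ha h1 x0 x1 h5 h6, (abs_nonneg _).trans (nrm_nonneg r mP p mx)]

end

variable {k F : Type u} [Field k] [Field F] [Algebra k F]
  {K : Type v} [Field K] [CharZero K] {C : NT.{u, v, w} k K}
  [IsAlgClosed k] [Fg k F] (hC : C.Chow) (h3 : td k F = 3)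
include hC h3

theorem B2c_rcs {P : N k F} (hP : Nef P) : RCS (JJ C F) (N1 k F) P := by
  simpa using JJ_rcs hC [P] (by simpa using hP) (by simp [h3])

omit h3 in
/-- A bound for the self-intersection of a fixed class against a nef class. -/
theorem B2c_sq (X : DD k F) : ∃ M₁ M₂ : N k F, Nef M₁ ∧ Nef M₂ ∧ ∀ P : N k F, Nef P →
    -JJ C F (P * cl X * cl X) ≤ JJ C F (P * M₁ * M₂) := by
  obtain ⟨M₁, M₂, h1, h2, e⟩ := exists_nef_sub (cl_mem X)
  refine ⟨M₁, M₂ + M₂, h1, h2.add h2, fun P hP => ?_⟩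
  have e1 : P * cl X * cl X = P * M₁ * M₁ + P * M₂ * M₂ - P * M₁ * (M₂ + M₂) := by
    rw [e]
    ring
  rw [e1, map_sub, map_add]
  linarith [JJ_nonneg3 hC hP h1 h1, JJ_nonneg3 hC hP h2 h2]

variable {A : FD k F} (hA : IntermediateField.adjoin k (rt A) = ⊤)
include hA

theorem B2c_pos : 0 < JJ C F (hh A * hh A * hh A) := by
  have h := JJ_pos1 hC (rn_gen hA)
  rwa [h3, pow_three'] at h

theorem B2c_step {D D' : DD k F} (hD : PN A D) (hD' : PN A D') (hle : D ≤ D')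
    (hx : D' - D ∈ XC A) : 0 ≤ JJ C F (hh A * cl D * cl (D' - D)) ∧
      0 ≤ JJ C F (hh A * cl D' * cl (D' - D)) ∧
      JJ C F (hh A * cl D' * cl D') - JJ C F (hh A * cl D * cl D) =
        JJ C F (hh A * cl D * cl (D' - D)) + JJ C F (hh A * cl D' * cl (D' - D)) ∧
      nx C A (D' - D) ≤ JJ C F (hh A * cl D' * cl D') - JJ C F (hh A * cl D * cl D) := by
  have h1 := hD.exc_nonneg hC h3 hA hx (sub_nonneg.2 hle) (hh_dat dvd_rfl) (Nef.hh A)
  have h2 := hD'.exc_nonneg hC h3 hA hx (sub_nonneg.2 hle) (hh_dat dvd_rfl) (Nef.hh A)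
  have h4 : JJ C F (hh A * cl D' * cl D') - JJ C F (hh A * cl D * cl D) =
      JJ C F (hh A * cl D * cl (D' - D)) + JJ C F (hh A * cl D' * cl (D' - D)) := by
    rw [← map_sub, ← map_add, map_sub cl]
    congr 1
    ring
  have h5 : nx C A (D' - D) =
      JJ C F (hh A * cl D * cl (D' - D)) - JJ C F (hh A * cl D' * cl (D' - D)) := by
    rw [nx, ← map_sub, ← map_neg, map_sub cl]
    congr 1
    ring
  exact ⟨h1, h2, h4, by linarith⟩

theorem B2c_bdd (G : DD k F) : ∃ L : ℚ, ∀ D : DD k F, D - G ∈ XC A →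
    JJ C F (hh A * cl D * cl D) ≤ L := by
  have p := B2c_pos hC h3 hA
  refine ⟨JJ C F (hh A * hh A * cl G) ^ 2 / JJ C F (hh A * hh A * hh A), fun D hD => ?_⟩
  have h1 := JJ_fix_exc hC h3 (hh_dat dvd_rfl) (hh_dat dvd_rfl) hD
  rw [map_sub, mul_sub, map_sub, sub_eq_zero] at h1
  rw [le_div_iff₀' p, ← h1]
  exact B2c_rcs hC h3 (Nef.hh A) _ (hh_mem A) _ (cl_mem D) p

section env
variable {G : DD k F} {j₁ : ℕ} (h : NF A (G - j₁ • mD A))
include h

theorem B2c_exc {m j m' j' : ℕ} (hm : 0 < m) (hj : j₁ ≤ j) (hm' : 0 < m') (hj' : j₁ ≤ j') :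
    env A G m j - env A G m' j' ∈ XC A := by
  have h1 := sub_mem (env_lift hC h3 hA h hm hj) (env_lift hC h3 hA h hm' hj')
  rwa [sub_sub_sub_cancel_right] at h1

theorem B2c_monotone : Monotone fun n : ℕ => env A G n.factorial (j₁ + n) := fun _ _ hn =>
  env_mono hC h3 hA h (Nat.factorial_pos _) (Nat.factorial_dvd_factorial hn)
    (Nat.le_add_right _ _) (Nat.add_le_add_left hn _)

theorem B2c_cauchy : ∃ δ : ℕ → ℝ, Tendsto δ atTop (𝓝 0) ∧ ∀ n m j : ℕ, 0 < m → j₁ ≤ j →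
    ((JJ C F (hh A * cl (env A G m j) * cl (env A G m j)) - JJ C F (hh A *
      cl (env A G n.factorial (j₁ + n)) * cl (env A G n.factorial (j₁ + n))) : ℚ) : ℝ) ≤ δ n := by
  obtain ⟨L, hL⟩ := B2c_bdd hC h3 hA G
  let a : ℕ → ℝ := fun n => (JJ C F (hh A * cl (env A G n.factorial (j₁ + n)) *
    cl (env A G n.factorial (j₁ + n))) : ℚ)
  have key : ∀ {m j m' j' : ℕ}, 0 < m' → m ∣ m' → j₁ ≤ j → j ≤ j' →
      JJ C F (hh A * cl (env A G m j) * cl (env A G m j)) ≤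
        JJ C F (hh A * cl (env A G m' j') * cl (env A G m' j')) := by
    intro m j m' j' h1 h2 h4 h5
    obtain ⟨q1, q2, q3, -⟩ := B2c_step hC h3 hA (env_PN A G m j) (env_PN A G m' j')
      (env_mono hC h3 hA h h1 h2 h4 h5)
      (B2c_exc hC h3 hA h h1 (h4.trans h5) (Nat.pos_of_dvd_of_pos h2 h1) h4)
    linarith
  have hmono : Monotone a := fun _ _ hn => Rat.cast_le.2 (key (Nat.factorial_pos _)
    (Nat.factorial_dvd_factorial hn) (Nat.le_add_right _ _) (Nat.add_le_add_left hn _))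
  have hb : BddAbove (Set.range a) := by
    refine ⟨L, ?_⟩
    rintro _ ⟨n, rfl⟩
    exact Rat.cast_le.2 (hL _ (env_lift hC h3 hA h (Nat.factorial_pos _) (Nat.le_add_right _ _)))
  refine ⟨fun n => (⨆ n, a n) - a n, ?_, fun n m j hm hj => ?_⟩
  · simpa using (tendsto_atTop_ciSup hmono hb).const_sub (⨆ n, a n)
  · rw [Rat.cast_sub]
    refine sub_le_sub_right (le_trans ?_ (le_ciSup hb (m + j))) _
    exact Rat.cast_le.2 (key (Nat.factorial_pos _) (Nat.dvd_factorial hm (Nat.le_add_right _ _))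
      hj (by omega))

theorem B2c_cube {m j : ℕ} (hm : 0 < m) (hj : j₁ < j) : JJ C F (hh A * hh A * hh A) ≤
    JJ C F ((cl (env A G m j) + j • hh A) * (cl (env A G m j) + j • hh A) *
      (cl (env A G m j) + j • hh A)) := by
  obtain ⟨i, rfl⟩ := Nat.exists_eq_add_of_lt hj
  have nA := Nef.hh A
  have nP := (B2b_nef A G 1 j₁).add (nA.nsmul i)
  have h1 := JJ_pow_mono hC (nA.add nP) (B2b_nef A G m (j₁ + i + 1))
    (sub_nonneg.2 (env_mono hC h3 hA h hm (one_dvd m) le_rfl hj.le))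
    (by rw [map_sub]; module) 3
  rw [← pow_three', ← pow_three']
  refine le_trans ?_ h1
  set P := cl (env A G 1 j₁) + j₁ • hh A + i • hh A
  have e : (hh A + P) ^ 3 = hh A ^ 3 + (hh A + P) * (hh A + P) * P + (hh A + P) * hh A * P +
      hh A * hh A * P := by ring
  rw [e, map_add, map_add, map_add]
  linarith [JJ_nonneg3 hC (nA.add nP) (nA.add nP) nP, JJ_nonneg3 hC (nA.add nP) nA nP,
    JJ_nonneg3 hC nA nA nP]

theorem B2c_small {X : DD k F} (hX : X ∈ XC A) (h0 : 0 ≤ X) {θ : ℚ} (hθ : 0 < θ) (n : ℕ) :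
    ∃ m j : ℕ, 0 < m ∧ n.factorial ∣ m ∧ j₁ + n ≤ j ∧
      JJ C F (hh A * cl (env A G m j) * cl X) ≤ θ := by
  have nA := Nef.hh A
  have dA : hh A ∈ Dat A := hh_dat dvd_rfl
  obtain ⟨j₂, h'⟩ := exists_NF hA (B2b_intP h)
  have hB := fun m j => env_le hC h3 hA h h' (m := m) (j := j)
  have hΞ : -env A (-G) 1 j₂ - env A G 1 j₁ ∈ XC A := by
    have h1 := neg_mem (add_mem (env_lift hC h3 hA h' one_pos le_rfl)
      (env_lift hC h3 hA h one_pos le_rfl))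
    convert h1 using 1
    abel
  set B := -env A (-G) 1 j₂
  set Ξ := B - env A G 1 j₁ with hΞ'
  obtain ⟨M₁, M₂, n1, n2, hM⟩ := B2c_sq hC X
  obtain ⟨ε, e0, hε⟩ := B2c_num hθ (JJ_nonneg3 hC nA n1 n2)
  obtain ⟨δ, hδ, hd⟩ := B2c_cauchy hC h3 hA h
  obtain ⟨n₀, hn, hn0⟩ := ((hδ.eventually (gt_mem_nhds (show (0 : ℝ) < (ε : ℝ) by
    exact_mod_cast e0))).and (eventually_gt_atTop 0)).exists
  have hj0 : j₁ < j₁ + n₀ := by omega
  have f0 := Nat.factorial_pos n₀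
  have nP₀ := B2b_nef A G n₀.factorial (j₁ + n₀)
  have a0 := B2c_pos hC h3 hA
  have c0 := a0.trans_le (B2c_cube hC h3 hA h f0 hj0)
  set D₀ := env A G n₀.factorial (j₁ + n₀) with hD₀
  set P₀ := cl D₀ + (j₁ + n₀) • hh A with hP₀
  obtain ⟨i, hi, hn1⟩ := hε
    (1 + JJ C F (cl B * M₁ * M₂) + (j₁ + n₀) * JJ C F (hh A * M₁ * M₂))
    (1 + JJ C F (P₀ * P₀ * cl Ξ) + JJ C F (P₀ * P₀ * cl Ξ) ^ 2 / JJ C F (P₀ * P₀ * P₀)) n
  have hj : j₁ < j₁ + n₀ + i := by omega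
  have η0 : 0 < min 1 (JJ C F (hh A * hh A * hh A) / 2) := lt_min one_pos (half_pos a0)
  obtain ⟨m₁, p1, k1⟩ := B2b_orth hC h3 hA h hj (fun m hm => hB m _ hm hj.le) hX η0
  obtain ⟨m₂, p2, k2⟩ := B2b_orth hC h3 hA h hj (fun m hm => hB m _ hm hj.le) hΞ η0
  have hm : 0 < n.factorial * n₀.factorial * (m₁ * m₂) := by positivity
  have x1 := k1 _ hm ((dvd_mul_right _ _).mul_left _)
  have y2 := k2 _ hm ((dvd_mul_left _ _).mul_left _)
  refine ⟨_, j₁ + n₀ + i, hm, (dvd_mul_right _ _).mul_right _, by omega, ?_⟩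
  have nP := B2b_nef A G (n.factorial * n₀.factorial * (m₁ * m₂)) (j₁ + n₀ + i)
  have c1 := B2c_cube hC h3 hA h hm hj
  have l1 : D₀ ≤ _ := env_mono hC h3 hA h hm ((dvd_mul_left _ _).mul_right _) hj0.le
    (Nat.le_add_right _ i)
  have l2 := hB _ _ hm hj.le
  have l3 : _ ≤ D₀ := env_mono hC h3 hA h f0 (one_dvd _) le_rfl hj0.le
  have hY := B2c_exc hC h3 hA h hm hj.le f0 hj0.le
  obtain ⟨s1, s2, s3, -⟩ := B2c_step hC h3 hA (env_PN _ _ _ _) (env_PN _ _ _ _) l1 hY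
  have s4 := (hd n₀ _ _ hm hj.le).trans hn.le
  rw [Rat.cast_le, ← hD₀] at s4
  rw [← hD₀] at hY s1 s2 s3
  set D := env A G (n.factorial * n₀.factorial * (m₁ * m₂)) (j₁ + n₀ + i)
  set P := cl D + (j₁ + n₀ + i) • hh A with hP
  have y0 : 0 ≤ D - D₀ := sub_nonneg.2 l1
  have up : ∀ {Q : N k F}, Nef Q → JJ C F (Q * Q * cl (D - D₀)) ≤ JJ C F (Q * Q * cl Ξ) := by
    intro Q hQ
    have h1 := JJ_eff2 hC (sub_nonneg.2 (sub_le_sub l2 l3)) hQ hQ
    rw [map_sub cl Ξ, sub_mul, map_sub, mul_comm (cl Ξ), mul_comm (cl (D - D₀))] at h1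
    linarith
  have nn : ∀ {Q Q' : N k F} {Z : DD k F}, Nef Q → Nef Q' → 0 ≤ Z →
      0 ≤ JJ C F (Q * Q' * cl Z) := fun hQ hQ' hZ => by
    rw [mul_comm]
    exact JJ_eff2 hC hZ hQ hQ'
  have fx : ∀ (E : DD k F) (l : ℕ) {Z : DD k F}, Z ∈ XC A →
      JJ C F (hh A * (cl E + l • hh A) * cl Z) = JJ C F (hh A * cl E * cl Z) := by
    intro E l Z hZ
    rw [mul_add, add_mul, map_add, mul_smul_comm, smul_mul_assoc, map_nsmul,
      JJ_fix_exc hC h3 dA dA hZ, smul_zero, add_zero]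
  have x2 : -JJ C F (P * cl X * cl X) ≤
      JJ C F (cl B * M₁ * M₂) + (j₁ + n₀ + i) * JJ C F (hh A * M₁ * M₂) := by
    refine (hM P nP).trans ((B2a_mono hC (sub_nonneg.2 l2)
      (x' := cl B + (j₁ + n₀ + i) • hh A) (by rw [map_sub, hP]; abel) n1 n2).trans_eq ?_)
    rw [add_mul, add_mul, map_add, smul_mul_assoc, smul_mul_assoc, map_nsmul, nsmul_eq_mul]
    push_cast
    rfl
  obtain ⟨r1, r2⟩ := B2c_core (h := hh A) (y := cl (D - D₀)) (i := i) (ε := ε)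
    (Nat.cast_nonneg i) (by rw [map_sub, Nat.cast_smul_eq_nsmul, hP, hP₀]; module)
    (B2c_rcs hC h3 nP) (B2c_rcs hC h3 nP₀) nP.mem nP₀.mem (cl_mem X) (cl_mem _) a0 c1 c0
    (min_le_left _ _) (by linarith [min_le_right 1 (JJ C F (hh A * hh A * hh A) / 2)])
    (nn nP nP h0) x1 (nn nP nP y0) ((up nP).trans y2) (nn nP₀ nP₀ y0) (up nP₀)
    (by rw [hP, fx _ _ hY]; linarith) (by rw [hP₀, fx _ _ hY]; linarith) x2 (nn nP nP₀ h0)
  rw [hP, fx _ _ hX, ← hP] at r1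
  refine hn1 _ _ r1 (r2.trans_eq ?_)
  ring

/-- The envelopes form a good sequence. -/
theorem env_good : Good C A fun n => env A G n.factorial (j₁ + n) := by
  refine good_of_mono hC h3 hA (fun n => B2c_exc hC h3 hA h (Nat.factorial_pos _)
    (Nat.le_add_right _ _) (Nat.factorial_pos _) (Nat.le_add_right _ _))
    (B2c_monotone hC h3 hA h) (fun n => env_PN _ _ _ _) fun X hX h0 => ?_
  have dA : hh A ∈ Dat A := hh_dat dvd_rfl
  obtain ⟨δ, hδ, hd⟩ := B2c_cauchy hC h3 hA h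
  obtain ⟨c, c0, hc⟩ := exc_cs hC h3 hA dA
  have t : Tendsto (fun n => √(c * δ n * nx C A X)) atTop (𝓝 0) := by
    simpa using ((hδ.const_mul (c : ℝ)).mul_const (nx C A X : ℝ)).sqrt
  refine squeeze_zero (fun n => Rat.cast_nonneg.2
    ((env_PN _ _ _ _).exc_nonneg hC h3 hA hX h0 dA (Nef.hh A))) (fun n => ?_) t
  refine le_of_forall_pos_le_add fun θ hθ => ?_
  obtain ⟨θ', h1, h2⟩ := exists_rat_btwn hθ
  obtain ⟨m, j, hm, h4, h5, h6⟩ := B2c_small hC h3 hA h hX h0 (θ := θ') (by exact_mod_cast h1) n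
  have hj := (Nat.le_add_right j₁ n).trans h5
  have hY := B2c_exc hC h3 hA h hm hj n.factorial_pos (Nat.le_add_right j₁ n)
  obtain ⟨-, -, -, s⟩ := B2c_step hC h3 hA (env_PN _ _ _ _) (env_PN _ _ _ _)
    (env_mono hC h3 hA h hm h4 (Nat.le_add_right _ _) h5) hY
  have s1 := (Rat.cast_le.2 s).trans (hd n m j hm hj)
  have s2 := (Rat.cast_le (K := ℝ)).2 (hc _ hY X hX)
  rw [Rat.cast_pow, Rat.cast_mul, Rat.cast_mul] at s2
  have s3 := Real.abs_le_sqrt (s2.trans (mul_le_mul_of_nonneg_right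
    (mul_le_mul_of_nonneg_left s1 (Rat.cast_nonneg.2 c0))
    (Rat.cast_nonneg.2 (nx_nonneg hC h3 hA hX))))
  rw [map_sub, mul_sub, sub_mul, map_sub, Rat.cast_sub] at s3
  have s4 := (Rat.cast_le (K := ℝ)).2 h6
  linarith [(abs_le.1 s3).1]

/-- Every sequence of envelopes which dominates the standard one is good. -/
theorem env_good' {m j : ℕ → ℕ} (hm : ∀ n, 0 < m n ∧ n.factorial ∣ m n)
    (hj : ∀ n, j₁ + n ≤ j n) : Good C A fun n => env A G (m n) (j n) := by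
  obtain ⟨δ, hδ, hd⟩ := B2c_cauchy hC h3 hA h
  have hj' := fun n => (Nat.le_add_right j₁ n).trans (hj n)
  have hY := fun n => B2c_exc hC h3 hA h (hm n).1 (hj' n) n.factorial_pos (Nat.le_add_right j₁ n)
  have h1 := (env_good hC h3 hA h).add hC h3 hA (good_null hC h3 hA hY
    (squeeze_zero (fun n => Rat.cast_nonneg.2 (nx_nonneg hC h3 hA (hY n))) (fun n => ?_) hδ))
  · simpa only [add_sub_cancel] using h1
  · obtain ⟨-, -, -, s⟩ := B2c_step hC h3 hA (env_PN _ _ _ _) (env_PN _ _ _ _)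
      (env_mono hC h3 hA h (hm n).1 (hm n).2 (Nat.le_add_right _ _) (hj n)) (hY n)
    exact (Rat.cast_le.2 s).trans (hd n _ _ (hm n).1 (hj' n))

end env

end Pool.Agent.Work.MP_ffcd14_ag.Uni
end

-- merged part: Pool.Agent.Work.MP_ffcd14_ag.Uni.B2
section
/-! # The limit intersection numbers

The volume, the inequality of Siu and the envelopes are in `B2a`, `B2b`, `B2c`. -/

open MvPolynomial Filter Topology

namespace Pool.Agent.Work.MP_ffcd14_ag.Uni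

universe u v w

variable {k F : Type u} [Field k] [Field F] [Algebra k F]
  {K : Type v} [Field K] [CharZero K] {C : NT.{u, v, w} k K}
  [IsAlgClosed k] [Fg k F] (hC : C.Chow) (h3 : td k F = 3) {A : FD k F}
  (hA : IntermediateField.adjoin k (rt A) = ⊤)
include hC h3 hA

theorem exists_good (G : DD k F) : ∃ (D : ℕ → DD k F) (Ξ : DD k F), Good C A D ∧
    D 0 - G ∈ XC A ∧ Ξ ∈ XC A ∧ ∀ n v, Ξ v = 0 → D n v = D 0 v := by
  obtain ⟨n, hn, h1⟩ := exists_intP A G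
  obtain ⟨j₁, h⟩ := exists_NF hA h1
  obtain ⟨j₂, h'⟩ := exists_NF hA (B2b_intP h)
  have l := env_lift hC h3 hA h (Nat.factorial_pos 0) (Nat.le_add_right j₁ 0)
  refine ⟨_, -env A (-(n • G)) 1 j₂ - env A (n • G) (Nat.factorial 0) (j₁ + 0),
    (env_good hC h3 hA h).smul hC h3 hA (n : ℚ)⁻¹, ?_, ?_, fun i v hv => ?_⟩
  · have h2 := Submodule.smul_mem _ (n : ℚ)⁻¹ l
    rwa [smul_sub, ← Nat.cast_smul_eq_nsmul ℚ n G, inv_smul_smul₀ (by positivity),
      Nat.cast_smul_eq_nsmul] at h2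
  · have h2 := neg_mem (add_mem (env_lift hC h3 hA h' one_pos le_rfl) l)
    convert h2 using 1
    abel
  · have h2 := B2c_monotone hC h3 hA h (Nat.zero_le i) v
    have h4 := env_le hC h3 hA h h' (Nat.factorial_pos i) (Nat.le_add_right j₁ i) v
    rw [DD.sub_apply, sub_eq_zero] at hv
    have h5 : env A (n • G) i.factorial (j₁ + i) v = env A (n • G) (Nat.factorial 0) (j₁ + 0) v :=
      le_antisymm (hv ▸ h4) h2
    rw [DD.smul_apply, DD.smul_apply, h5]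

theorem exists_good_clamp {G δ : DD k F} (hδ : cl δ ∈ Dat A) (h0 : 0 ≤ δ)
    (h1 : ∀ c, Pr A c → 0 ≤ c.vq G) (h2 : ∀ c, Pr A c → c.vq G ≤ c.vq δ) :
    ∃ (D : ℕ → DD k F) (Ξ : DD k F), Good C A D ∧ D 0 - G ∈ XC A ∧ Ξ ∈ XC A ∧
      (∀ n v, Ξ v = 0 → D n v = D 0 v) ∧ ∀ n, 0 ≤ D n ∧ D n ≤ δ := by
  obtain ⟨D, Ξ, hD, h4, h5, h6⟩ := exists_good hC h3 hA G
  have e : ∀ c, Pr A c → c.vq (D 0) = c.vq G := fun c hc => by
    have h7 := h4 c hc
    rwa [map_sub, sub_eq_zero] at h7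
  obtain ⟨h7, h8⟩ := hD.clamp hC h3 hA hδ (fun c hc => e c hc ▸ h1 c hc)
    fun c hc => e c hc ▸ h2 c hc
  refine ⟨_, Ξ, h7, ?_, h5, fun n v hv => ?_, fun n => ⟨le_inf le_sup_right h0, inf_le_right⟩⟩
  · have h9 := add_mem h8 h4
    rwa [sub_add_sub_cancel] at h9
  · simp only [DD.inf_apply, DD.sup_apply, h6 n v hv]

theorem QQ_spec : QSpec C A (QQ C A) := by
  have h : ∃ Q, QSpec C A Q := exists_QQ hC h3 hA fun G => by
    obtain ⟨D, -, h1, h2, -⟩ := exists_good hC h3 hA G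
    exact ⟨D, h1, h2⟩
  rw [QQ, dif_pos h]
  exact h.choose_spec

theorem QQ_symm {Λ : N k F} (hΛ : Λ ∈ Dat A) (G G' : DD k F) :
    QQ C A Λ G G' = QQ C A Λ G' G := by
  obtain ⟨D, -, h1, h2, -⟩ := exists_good hC h3 hA G
  obtain ⟨D', -, h1', h2', -⟩ := exists_good hC h3 hA G'
  refine tendsto_nhds_unique (QQ_spec hC h3 hA Λ hΛ D D' G G' h1 h1' h2 h2') ?_
  simpa only [mul_right_comm Λ] using QQ_spec hC h3 hA Λ hΛ D' D G' G h1' h1 h2' h2

theorem QQ_exc {Λ : N k F} (hΛ : Λ ∈ Dat A) (G : DD k F) {X : DD k F} (hX : X ∈ XC A) :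
    QQ C A Λ G X = 0 := by
  obtain ⟨D, -, h1, h2, -⟩ := exists_good hC h3 hA G
  have h4 := QQ_spec hC h3 hA Λ hΛ D (fun _ => 0) G X h1
    (good_dat hC h3 hA (by rw [map_zero]; exact zero_mem _)) h2 (sub_mem (zero_mem _) hX)
  simp only [map_zero, mul_zero, Rat.cast_zero] at h4
  exact tendsto_nhds_unique h4 tendsto_const_nhds

theorem B2_nx_add {X Y : DD k F} (hX : X ∈ XC A) (hY : Y ∈ XC A) :
    nx C A (X + Y) ≤ 2 * nx C A X + 2 * nx C A Y := by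
  have h1 := nx_nonneg hC h3 hA (sub_mem hX hY)
  have e : hh A * cl (X + Y) * cl (X + Y) + hh A * cl (X - Y) * cl (X - Y) =
      2 • (hh A * cl X * cl X) + 2 • (hh A * cl Y * cl Y) := by
    rw [map_add, map_sub]
    ring
  have h2 := congrArg (JJ C F) e
  rw [map_add, map_add (JJ C F), map_nsmul, map_nsmul, two_nsmul, two_nsmul] at h2
  unfold nx at h1 ⊢
  linarith

theorem B2_left {Λ : N k F} (hΛ : Λ ∈ Dat A) {D : ℕ → DD k F} (hD : Good C A D)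
    {G : DD k F} (hG : D 0 - G ∈ XC A) (G' : DD k F) :
    Tendsto (fun n => ((JJ C F (Λ * cl (D n) * cl G') : ℚ) : ℝ)) atTop (𝓝 (QQ C A Λ G G')) := by
  obtain ⟨D', -, h1, h2, -⟩ := exists_good hC h3 hA G'
  obtain ⟨ε, hε, h4⟩ := hD.orth Λ hΛ
  obtain ⟨δ, -, h5⟩ := h1.cauchy hC h3 hA
  have hX : ∀ n, D' n - G' ∈ XC A := fun n => by
    have h6 := add_mem (h1.exc n) h2
    rwa [sub_add_sub_cancel] at h6
  have t : Tendsto (fun n => ((JJ C F (Λ * cl (D n) * cl (D' n - G')) : ℚ) : ℝ)) atTop (𝓝 0) := by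
    have t1 : Tendsto (fun n => √(|ε n| * (2 * δ 0 + 2 * nx C A (D' 0 - G')))) atTop (𝓝 0) := by
      simpa using (hε.abs.mul_const (2 * δ 0 + 2 * nx C A (D' 0 - G') : ℝ)).sqrt
    refine squeeze_zero_norm (fun n => Real.abs_le_sqrt ((h4 n _ (hX n)).trans ?_)) t1
    refine mul_le_mul (le_abs_self _) ?_ (Rat.cast_nonneg.2 (nx_nonneg hC h3 hA (hX n)))
      (abs_nonneg _)
    have h6 := (Rat.cast_le (K := ℝ)).2 (B2_nx_add hC h3 hA (h1.exc n) h2)
    rw [sub_add_sub_cancel] at h6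
    push_cast at h6
    linarith [h5 0 n (Nat.zero_le n)]
  have t2 := (QQ_spec hC h3 hA Λ hΛ D D' G G' hD h1 hG h2).sub t
  rw [sub_zero] at t2
  refine t2.congr fun n => ?_
  rw [map_sub, mul_sub, map_sub, Rat.cast_sub, sub_sub_cancel]

theorem QQ_const {Λ : N k F} (hΛ : Λ ∈ Dat A) {G : DD k F} (hG : Good C A fun _ => G)
    (G' : DD k F) : QQ C A Λ G G' = (JJ C F (Λ * cl G * cl G') : ℚ) := by
  exact tendsto_nhds_unique (B2_left hC h3 hA hΛ hG (by rw [sub_self]; exact zero_mem _) G')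
    tendsto_const_nhds

/-- A good sequence against an arbitrary fixed lift. -/
theorem Good.tendsto_left {Λ : N k F} (hΛ : Λ ∈ Dat A) {D : ℕ → DD k F} (hD : Good C A D)
    {G : DD k F} (hG : D 0 - G ∈ XC A) (G' : DD k F) :
    Tendsto (fun n => ((JJ C F (Λ * cl (D n) * cl G') : ℚ) : ℝ)) atTop (𝓝 (QQ C A Λ G G')) := by
  exact B2_left hC h3 hA hΛ hD hG G'

theorem QQ_null {Λ : N k F} (hΛ : Λ ∈ Dat A) : ∃ c : ℝ, 0 ≤ c ∧ ∀ G G' : DD k F,
    QQ C A Λ G G' ^ 2 ≤ c *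
      (2 * QQ C A (hh A) (-mD A) G ^ 2 / (JJ C F (hh A ^ 3) : ℚ) - QQ C A (hh A) G G) *
      (2 * QQ C A (hh A) (-mD A) G' ^ 2 / (JJ C F (hh A ^ 3) : ℚ) - QQ C A (hh A) G' G') := by
  obtain ⟨c, c0, hc⟩ := null0 hC h3 ((rn_gen hA).trans h3) hΛ
  refine ⟨c, Rat.cast_nonneg.2 c0, fun G G' => ?_⟩
  have dA : hh A ∈ Dat A := hh_dat dvd_rfl
  have e : cl (-mD A) = hh A := by rw [map_neg, cl_mD, neg_neg]
  have key : ∀ {D : ℕ → DD k F} {G : DD k F}, Good C A D → D 0 - G ∈ XC A →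
      Tendsto (fun n => ((nrm (JJ C F) (hh A) (hh A) (cl (D n)) : ℚ) : ℝ)) atTop
        (𝓝 (2 * QQ C A (hh A) (-mD A) G ^ 2 / (JJ C F (hh A ^ 3) : ℚ) - QQ C A (hh A) G G)) := by
    intro D G h1 h2
    have t1 := QQ_spec hC h3 hA _ dA (fun _ => -mD A) D (-mD A) G
      (good_dat hC h3 hA (e ▸ dA)) h1 (by rw [sub_self]; exact zero_mem _) h2
    have t2 := QQ_spec hC h3 hA _ dA D D G G h1 h1 h2 h2
    refine ((((t1.pow 2).const_mul 2).div_const _).sub t2).congr fun n => ?_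
    rw [nrm, e, pow_three']
    push_cast
    rfl
  obtain ⟨D, -, h1, h2, -⟩ := exists_good hC h3 hA G
  obtain ⟨D', -, h1', h2', -⟩ := exists_good hC h3 hA G'
  refine le_of_tendsto_of_tendsto' ((QQ_spec hC h3 hA Λ hΛ D D' G G' h1 h1' h2 h2').pow 2)
    (((key h1 h2).const_mul (c : ℝ)).mul (key h1' h2')) fun n => ?_
  exact_mod_cast hc _ (cl_mem (D n)) _ (cl_mem (D' n))

/-- The restriction of a relatively nef lift to a prime divisor. -/
theorem PN.res_le {D : DD k F} (hD : PN A D) {Λ : N k F} (hΛ : Λ ∈ Dat A) (hΛ' : Nef Λ)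
    {c : Dv k F} (hc : Pr A c) {G : DD k F} (h1 : c.vq G = 1)
    (h2 : ∀ c', Pr A c' → c' ≠ c → c'.vq G = 0) :
    ((JJ C c.κ (c.rs (Λ * cl D)) : ℚ) : ℝ) ≤ QQ C A Λ D G := by
  classical
  have g0 : ∀ c', Pr A c' → 0 ≤ c'.vq G ∧ ∃ z : ℤ, c'.vq (-G) = z := by
    intro c' hc'
    rw [map_neg]
    by_cases e : c' = c
    · subst e
      exact ⟨by rw [h1]; exact zero_le_one, -1, by simp [h1]⟩
    · exact ⟨(h2 c' hc' e).ge, 0, by simp [h2 c' hc' e]⟩
  obtain ⟨j, hj⟩ := exists_NF hA (G := -G) fun c' hc' => (g0 c' hc').2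
  obtain ⟨f, hf, f0, -⟩ := hj c hc
  have hf' : f ∈ RR A (-(j • mD A)) := RR_mono (fun c' hc' => by
    rw [map_sub, map_neg, map_neg]
    linarith [(g0 c' hc').1]) hf
  obtain ⟨E, -, e1, e2, -, -, e3⟩ := exists_good_clamp hC h3 hA (G := G)
    (δ := vD k f - j • mD A)
    (by
      rw [map_sub, cl_vD, map_nsmul, cl_mD, smul_neg, sub_neg_eq_add, zero_add]
      exact nsmul_mem (hh_dat dvd_rfl) j)
    (fun v => by
      have h4 := (hartogs hA j hf' v).resolve_left f0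
      change (0 : FF) ≤ (vD k f - j • mD A) v
      rw [DD.sub_apply, vD_apply, DD.nsmul_apply, mD_apply, sub_nonneg]
      exact h4)
    (fun c' hc' => (g0 c' hc').1)
    fun c' hc' => by
      have h4 := (mem_RR.1 hf).resolve_left f0 c' hc'
      rw [← Rat.cast_le (K := FF), c'.vq_cast, c'.vq_cast]
      simp only [DD.sub_apply, DD.neg_apply, vD_apply] at h4 ⊢
      linarith
  rw [QQ_symm hC h3 hA hΛ]
  refine ge_of_tendsto' (e1.tendsto_left hC h3 hA hΛ e2 D) fun n => Rat.cast_le.2 ?_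
  have e4 : ∀ c', Pr A c' → c'.vq (E n) = c'.vq G := fun c' hc' => by
    have h4 := add_mem (e1.exc n) e2 c' hc'
    rwa [sub_add_sub_cancel, map_sub, sub_eq_zero] at h4
  obtain ⟨s, -, hs⟩ := JJ_cyc_ex hC (E n) (Λ * cl D)
  rw [mul_comm Λ (cl (E n)), mul_assoc, JJ_cyc hC (E n) (Λ * cl D) (insert c s)
    fun ν hν => hs ν fun h => hν (Finset.mem_insert_of_mem h),
    ← Finset.add_sum_erase _ _ (Finset.mem_insert_self c s), e4 c hc, h1, one_mul]
  refine le_add_of_nonneg_right (Finset.sum_nonneg fun ν hν => ?_)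
  by_cases hp : Pr A ν
  · rw [e4 ν hp, h2 ν hp (Finset.ne_of_mem_erase hν), zero_mul]
  · refine mul_nonneg (map_zero ν.vq ▸ ν.vq_mono (e3 n).1) ?_
    obtain ⟨M, hM⟩ := hD
    have h4 := JJ_nonneg2 hC (hΛ'.rs ν) (hM.rs ν)
    have h5 := JJ_van2 hC (s := rt (ν.Res A)) (j := 2) (by have := rn_of_not_pr hp; omega)
      (g := ν.rs Λ * ν.rs (hh A)) (pow_two (NS k (rt (ν.Res A))) ▸ Submodule.mul_mem_mul
        (Dat_le_NS le_rfl (dat_rs ν hΛ)) (Dat_le_NS le_rfl (dat_rs ν (hh_dat dvd_rfl)))) 1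
    rw [mul_one] at h5
    rwa [map_add, map_nsmul, mul_add, mul_smul_comm, map_add, map_nsmul, h5, smul_zero, add_zero,
      ← map_mul] at h4

end Pool.Agent.Work.MP_ffcd14_ag.Uni
end
end

-- merged part: Pool.Agent.Work.MP_ffcd14_ag.Uni.B3a
section
/-! # The main inequality on the base: counting sections layer by layer -/

open MvPolynomial Filter Topology

namespace Pool.Agent.Work.MP_ffcd14_ag.Uni

universe u v w

variable {k F : Type u} [Field k] [Field F] [Algebra k F]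

theorem B3a_sum {α M : Type*} [DecidableEq α] [AddCommMonoid M] {P : Finset α} {c : α} (hc : c ∈ P)
    (l : α → ℕ) (φ : α → M) :
    ∑ x ∈ P, (l + Pi.single c 1 : α → ℕ) x • φ x = ∑ x ∈ P, l x • φ x + φ c := by
  simp only [Pi.add_apply, add_smul, Finset.sum_add_distrib]
  rw [Finset.sum_eq_single c (f := fun x => (Pi.single c 1 : α → ℕ) x • φ x)
    (fun x _ hx => by rw [Pi.single_eq_of_ne hx, zero_smul]) (fun h => absurd hc h),
    Pi.single_eq_same, one_smul]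

theorem B3a_mem {A : FD k F} {D : DD k F} {f : F} :
    f ∈ RR A D ↔ f = 0 ∨ ∀ c, Pr A c → 0 ≤ (c.z f : ℚ) + c.vq D := by
  rw [mem_RR]
  refine or_congr_right (forall₂_congr fun c _ => ?_)
  rw [← c.z_cast, ← c.vq_cast]
  exact_mod_cast Iff.rfl

theorem B3a_z_mul (c : Dv k F) {f g : F} (hf : f ≠ 0) (hg : g ≠ 0) :
    c.z (f * g) = c.z f + c.z g := by
  have h := c.mul f g hf hg
  rw [← c.z_cast, ← c.z_cast, ← c.z_cast] at h
  exact_mod_cast h

theorem B3a_NF_zero (A : FD k F) : NF A (0 : DD k F) := by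
  simpa using (NF_neg_mD A A).nsmul 0

theorem B3a_NF_sum {A : FD k F} {α : Type*} (s : Finset α) {D : α → DD k F}
    (h : ∀ a ∈ s, NF A (D a)) : NF A (∑ a ∈ s, D a) :=
  Finset.sum_induction D (NF A) (fun _ _ => NF.add) (B3a_NF_zero A) h

theorem B3a_vq_sum {A : FD k F} {P : Finset (Dv k F)} {Cc : Dv k F → DD k F} {q : Dv k F → ℚ}
    (hCc : ∀ c ∈ P, c.vq (Cc c) = q c ∧ ∀ c', Pr A c' → c' ≠ c → c'.vq (Cc c) = 0)
    (l : Dv k F → ℕ) {c : Dv k F} (hc : Pr A c) [Decidable (c ∈ P)] :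
    c.vq (∑ x ∈ P, l x • Cc x) = if c ∈ P then l c * q c else 0 := by
  rw [map_sum]
  split_ifs with h
  · rw [Finset.sum_eq_single c (fun x hx hxc => by
      rw [map_nsmul, (hCc x hx).2 c hc (Ne.symm hxc), smul_zero]) (fun h' => absurd h h'),
      map_nsmul, (hCc c h).1, nsmul_eq_mul]
  · exact Finset.sum_eq_zero fun x hx => by
      rw [map_nsmul, (hCc x hx).2 c hc (fun e => h (e ▸ hx)), smul_zero]

variable {K : Type v} [Field K] [CharZero K] {C : NT.{u, v, w} k K}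
  [IsAlgClosed k] [Fg k F] (hC : C.Chow) (h3 : td k F = 3) {A : FD k F}
  (hA : IntermediateField.adjoin k (rt A) = ⊤)
include hC h3 hA

theorem B3a_fin (D : DD k F) : FiniteDimensional k (RR A D) :=
  Module.Finite.iff_fg.2 (RR_fg hC h3 hA D)

/-- One layer. -/
theorem B3a_one {D D' H : DD k F} (hH : NF A H) (hV : NF A (D' + H)) {c : Dv k F} (hc : Pr A c)
    {z : ℤ} (hz : c.vq D' = z) (h1 : c.vq D + 1 = c.vq D')
    (h2 : ∀ c', Pr A c' → c' ≠ c → c'.vq D = c'.vq D') :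
    Module.finrank k (RR A D') ≤
      Module.finrank k (RR A D) + Module.finrank k (c.Res (RS A (D' + H))).1 := by
  obtain ⟨g, hg, hg0, hg1⟩ := hH c hc
  have := B3a_fin hC h3 hA D
  have := B3a_fin hC h3 hA D'
  set V := RS A (D' + H)
  have hi : Function.Injective (LinearMap.mulRight k g) := mul_left_injective₀ hg0
  have hS : (RR A D').map (LinearMap.mulRight k g) ≤ V.1 := by
    rintro _ ⟨f, hf, rfl⟩
    rw [hV.RS_val hC h3 hA]
    exact RR_mul D' H (Submodule.mul_mem_mul hf hg)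
  have hm : (c.mz V : ℚ) = -(c.vq D' + c.vq H) := by
    have := hV.lift hC h3 hA c hc
    rw [map_sub, map_neg, c.vq_mD, map_add] at this
    linarith
  have hg2 : (c.z g : ℚ) + c.vq H = 0 := by
    rw [← c.z_cast, ← c.vq_cast] at hg1
    exact_mod_cast hg1
  have hK : (RR A D').map (LinearMap.mulRight k g) ⊓ (V.1 ⊓ c.gt (mn V c.toVl)) ≤
      (RR A D).map (LinearMap.mulRight k g) := by
    rintro _ ⟨⟨f, hf, rfl⟩, -, h4⟩
    refine ⟨f, ?_, rfl⟩
    rcases eq_or_ne f 0 with rfl | hf0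
    · exact zero_mem _
    have h5 := (B3a_mem.1 hf).resolve_left hf0
    refine B3a_mem.2 (.inr fun c' hc' => ?_)
    rcases eq_or_ne c' c with rfl | hne
    · have h6 : mn V c'.toVl < c' (f * g) := h4.resolve_left (mul_ne_zero hf0 hg0)
      rw [← c'.mz_cast, ← c'.z_cast, B3a_z_mul c' hf0 hg0] at h6
      have h7 : c'.mz V < c'.z f + c'.z g := by exact_mod_cast h6
      have h8 : c'.mz V = -z + c'.z g := by
        have : (c'.mz V : ℚ) = -z + c'.z g := by linarith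
        exact_mod_cast this
      have h9 : (0 : ℚ) ≤ (c'.z f + z - 1 : ℤ) := by exact_mod_cast (by omega)
      push_cast at h9
      linarith
    · rw [h2 c' hc' hne]
      exact h5 c' hc'
  have e1 := Submodule.finrank_sup_add_finrank_inf_eq ((RR A D').map (LinearMap.mulRight k g))
    (V.1 ⊓ c.gt (mn V c.toVl))
  have e2 := Submodule.finrank_mono (sup_le hS inf_le_left :
    (RR A D').map (LinearMap.mulRight k g) ⊔ (V.1 ⊓ c.gt (mn V c.toVl)) ≤ V.1)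
  have e3 := Submodule.finrank_mono hK
  have e4 := c.finrank_Res V
  have e5 := (Submodule.equivMapOfInjective _ hi (RR A D)).finrank_eq
  have e6 := (Submodule.equivMapOfInjective _ hi (RR A D')).finrank_eq
  omega

/-- All layers. -/
theorem B3a_layers {P : Finset (Dv k F)} (hP : ∀ c ∈ P, Pr A c) {Cc : Dv k F → DD k F}
    (hCc : ∀ c ∈ P, c.vq (Cc c) = 1 ∧ ∀ c', Pr A c' → c' ≠ c → c'.vq (Cc c) = 0) {j₁ : ℕ}
    (hN : ∀ c ∈ P, NF A (-Cc c - j₁ • mD A)) {D₀ : DD k F} (hD : IntP A D₀) {L : ℕ}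
    (hV : NF A (D₀ - (j₁ * L) • mD A)) (n : ℕ) : ∀ l : Dv k F → ℕ, ∑ c ∈ P, l c = n → n ≤ L →
      Module.finrank k (RR A (D₀ + ∑ c ∈ P, l c • Cc c)) ≤ Module.finrank k (RR A D₀) +
        ∑ c ∈ P, l c * Module.finrank k (c.Res (RS A (D₀ - (j₁ * L) • mD A))).1 := by
  classical
  induction n with
  | zero =>
    intro l hl _
    rw [Finset.sum_eq_zero fun c hc => by rw [Finset.sum_eq_zero_iff.1 hl c hc, zero_smul],
      add_zero]
    exact Nat.le_add_right _ _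
  | succ n ih =>
    intro l' hl hn
    obtain ⟨c, hc, h0⟩ := Finset.exists_ne_zero_of_sum_ne_zero (hl.trans_ne n.succ_ne_zero)
    obtain ⟨l, rfl⟩ : ∃ l : Dv k F → ℕ, l' = l + Pi.single c 1 :=
      ⟨l' - Pi.single c 1, funext fun x => by
        rcases eq_or_ne x c with rfl | hx
        · simp only [Pi.add_apply, Pi.sub_apply, Pi.single_eq_same]
          omega
        · simp [Pi.single_eq_of_ne hx]⟩
    have e1 := B3a_sum hc l fun _ => 1
    simp only [smul_eq_mul, mul_one] at e1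
    have e2 := B3a_sum hc l
      fun c => Module.finrank k (c.Res (RS A (D₀ - (j₁ * L) • mD A))).1
    simp only [smul_eq_mul] at e2
    obtain ⟨t, rfl⟩ := Nat.exists_eq_add_of_le hn
    have hH : NF A (∑ x ∈ P, (l + Pi.single c 1 : Dv k F → ℕ) x • (-Cc x - j₁ • mD A) +
        (j₁ * t) • -mD A) :=
      (B3a_NF_sum P fun x hx => (hN x hx).nsmul _).add ((NF_neg_mD A A).nsmul _)
    have e3 : D₀ + ∑ x ∈ P, (l + Pi.single c 1 : Dv k F → ℕ) x • Cc x +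
        (∑ x ∈ P, (l + Pi.single c 1 : Dv k F → ℕ) x • (-Cc x - j₁ • mD A) + (j₁ * t) • -mD A) =
        D₀ - (j₁ * (n + 1 + t)) • mD A := by
      simp only [smul_sub, smul_neg, Finset.sum_sub_distrib, Finset.sum_neg_distrib,
        ← Finset.sum_smul, hl]
      module
    obtain ⟨z, hz⟩ := hD c (hP c hc)
    have h4 := B3a_one hC h3 hA (D := D₀ + ∑ x ∈ P, l x • Cc x) hH (e3 ▸ hV) (hP c hc)
      (z := z + (l c + 1 : ℕ))
      (by rw [map_add, hz, B3a_vq_sum hCc _ (hP c hc), if_pos hc]; simp)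
      (by rw [B3a_sum hc, ← add_assoc, map_add _ _ (Cc c), (hCc c hc).1])
      (fun c' hc' hne => by
        rw [B3a_sum hc, ← add_assoc, map_add _ _ (Cc c), (hCc c hc).2 c' hc' hne, add_zero])
    rw [e3] at h4
    have h5 := ih l (by omega) (by omega)
    omega

end Pool.Agent.Work.MP_ffcd14_ag.Uni
end
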