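import Pool.Agent.Work.MP_ffcd14_ag.Uni.V1
import Pool.Agent.Work.MP_ffcd14_ag.Cyc.ChowCyc
import Pool.Agent.Work.MP_ffcd14_ag.Cyc.KR
import Pool.Agent.Work.MP_ffcd14_ag.Cyc.GC
import Pool.Agent.Work.MP_ffcd14_ag.Cyc.FDefs
import Pool.Agent.Work.MP_ffcd14_ag.Cyc.Fib
import Mathlib.RingTheory.Nullstellensatz
import Mathlib.Algebra.Module.Submodule.Union

-- merged part: Pool.Agent.Work.MP_ffcd14_ag.Cyc.EtaA
section
-- merged part: Pool.Agent.Work.MP_ffcd14_ag.Uni.V2a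
section
/-! # Normal forms in simple extensions, residues, construction of discrete valuations -/

open Polynomial

namespace Pool.Agent.Work.MP_ffcd14_ag.Uni

universe u

variable {k F L : Type u} [Field k] [Field F] [Field L] [Algebra k F] [Algebra k L]

theorem V2a_eval_mem {R S : Type*} [CommRing R] [SetLike S L] [SubringClass S L] (φ : R →+* L)
    {A : S} (h : ∀ c, φ c ∈ A) {t : L} (ht : t ∈ A) (p : R[X]) : p.eval₂ φ t ∈ A := by
  rw [eval₂_eq_sum_range]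
  exact sum_mem fun i _ => mul_mem (h _) (pow_mem ht i)

theorem V2a_mem (ι : F →ₐ[k] L) (t x : L) :
    x ∈ IntermediateField.adjoin k (insert t (Set.range ι)) ↔
      ∃ p q : F[X], x = p.eval₂ (ι : F →+* L) t / q.eval₂ (ι : F →+* L) t := by
  constructor
  · intro hx
    let _ : Algebra F L := (ι : F →+* L).toAlgebra
    have : IsScalarTower k F L := IsScalarTower.of_algebraMap_eq fun c => (ι.commutes c).symm
    have h1 : IntermediateField.adjoin k (insert t (Set.range ι)) ≤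
        (IntermediateField.adjoin F {t}).restrictScalars k := by
      rw [IntermediateField.adjoin_le_iff]
      rintro _ (rfl | ⟨c, rfl⟩)
      · exact IntermediateField.mem_adjoin_simple_self F _
      · exact (IntermediateField.adjoin F {t}).algebraMap_mem c
    exact (IntermediateField.mem_adjoin_simple_iff F x).1 (h1 hx)
  · rintro ⟨p, q, rfl⟩
    have h1 : ∀ p : F[X], p.eval₂ (ι : F →+* L) t ∈
        IntermediateField.adjoin k (insert t (Set.range ι)) :=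
      V2a_eval_mem _ (fun c => IntermediateField.subset_adjoin k _
        (Set.mem_insert_of_mem _ (Set.mem_range_self (f := ι) c)))
        (IntermediateField.subset_adjoin k _ (Set.mem_insert _ _))
    exact div_mem (h1 p) (h1 q)

theorem V2a_range (E : IntermediateField k L) : Set.range E.val = E :=
  Subtype.range_coe

theorem V2a_mem' (s : Set L) (t x : L) : x ∈ IntermediateField.adjoin k (insert t s) ↔
    ∃ p q : (IntermediateField.adjoin k s)[X],
      x = p.eval₂ ((IntermediateField.adjoin k s).val : _ →+* L) t /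
        q.eval₂ ((IntermediateField.adjoin k s).val : _ →+* L) t := by
  rw [← V2a_mem, V2a_range, IntermediateField.adjoin_insert_adjoin]

theorem V2a_alg (ι : F →ₐ[k] L) (t : L) : IsAlgebraic (Algebra.adjoin k (Set.range ι)) t ↔
    ∃ p : F[X], p ≠ 0 ∧ p.eval₂ (ι : F →+* L) t = 0 := by
  let ψ : F →+* Algebra.adjoin k (Set.range ι) :=
    (ι : F →+* L).codRestrict _ fun c => Algebra.subset_adjoin ⟨c, rfl⟩
  have h1 : Function.Surjective ψ := by
    rintro ⟨x, hx⟩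
    have h2 : Algebra.adjoin k (Set.range ι) ≤ ι.range := Algebra.adjoin_le fun _ h => h
    obtain ⟨c, rfl⟩ := h2 hx
    exact ⟨c, rfl⟩
  have h3 : ∀ p : F[X], aeval t (p.map ψ) = p.eval₂ (ι : F →+* L) t := fun p => by
    rw [aeval_def, eval₂_map]
    rfl
  constructor
  · rintro ⟨q, hq, h⟩
    obtain ⟨p, rfl⟩ := map_surjective ψ h1 q
    exact ⟨p, fun e => hq (by rw [e, Polynomial.map_zero]), (h3 p).symm.trans h⟩
  · rintro ⟨p, hp, h⟩
    have : Nontrivial (Algebra.adjoin k (Set.range ι)) := inferInstance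
    exact ⟨p.map ψ, (Polynomial.map_ne_zero_iff ψ.injective).2 hp, (h3 p).trans h⟩

theorem V2a_alg' (s : Set L) (t : L) : IsAlgebraic (Algebra.adjoin k s) t ↔
    ∃ p : (IntermediateField.adjoin k s)[X], p ≠ 0 ∧
      p.eval₂ ((IntermediateField.adjoin k s).val : _ →+* L) t = 0 :=
  IntermediateField.isAlgebraic_adjoin_iff.symm

theorem V2a_nf0 (φ : F →+* L) (t : L) {p : F[X]} (hp : p ≠ 0) : ∃ (m : ℕ) (c : F) (a : F[X]),
    c ≠ 0 ∧ p.eval₂ φ t = φ c * t ^ m * (1 + t * a.eval₂ φ t) := by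
  obtain ⟨q, h1, h2⟩ := exists_eq_pow_rootMultiplicity_mul_and_not_dvd p hp 0
  rw [C_0, sub_zero] at h1 h2
  rw [X_dvd_iff] at h2
  refine ⟨p.rootMultiplicity 0, q.coeff 0, C (q.coeff 0)⁻¹ * q.divX, h2, ?_⟩
  have h3 : φ (q.coeff 0) ≠ 0 := (_root_.map_ne_zero φ).2 h2
  conv_lhs => rw [h1, ← q.X_mul_divX_add]
  simp only [eval₂_mul, eval₂_add, eval₂_X_pow, eval₂_X, eval₂_C, map_inv₀]
  field_simp
  ring

theorem V2a_nf (φ : F →+* L) {t : L} (ht : t ≠ 0) {p q : F[X]} (hp : p ≠ 0) (hq : q ≠ 0) :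
    ∃ (n : ℤ) (c : F) (a b : F[X]), c ≠ 0 ∧ p.eval₂ φ t / q.eval₂ φ t =
      φ c * t ^ n * ((1 + t * a.eval₂ φ t) / (1 + t * b.eval₂ φ t)) := by
  obtain ⟨m, c, a, hc, e1⟩ := V2a_nf0 φ t hp
  obtain ⟨n, d, b, hd, e2⟩ := V2a_nf0 φ t hq
  refine ⟨(m : ℤ) - n, c / d, a, b, div_ne_zero hc hd, ?_⟩
  rw [e1, e2, zpow_sub₀ ht, map_div₀, zpow_natCast, zpow_natCast, div_mul_div_comm,
    div_mul_div_comm]

theorem V2a_ne {φ : F →+* L} {t : L} {p q : F[X]} (h : p.eval₂ φ t / q.eval₂ φ t ≠ 0) :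
    p ≠ 0 ∧ q ≠ 0 :=
  ⟨fun e => h (by rw [e, eval₂_zero, zero_div]), fun e => h (by rw [e, eval₂_zero, div_zero])⟩

theorem V2a_one (O : ValuationSubring L) {x : L} (hx : x ≠ 0) (h1 : x ∈ O) (h2 : x⁻¹ ∈ O) :
    O.valuation x = 1 := by
  refine le_antisymm ((O.valuation_le_one_iff x).2 h1) (not_lt.1 fun h => ?_)
  exact (O.mem_nonunits_iff_or.1 (O.mem_nonunits_iff.2 h)).elim hx fun h => h h2

theorem V2a_unit (O : ValuationSubring L) {φ : F →+* L} (h : ∀ c, φ c ∈ O) {t : L}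
    (ht : O.valuation t < 1) (a : F[X]) : O.valuation (1 + t * a.eval₂ φ t) = 1 := by
  refine O.valuation.map_one_add_of_lt ?_
  rw [map_mul]
  exact mul_lt_one_of_lt_of_le ht ((O.valuation_le_one_iff _).2
    (V2a_eval_mem φ h ((O.valuation_le_one_iff _).1 ht.le) a))

theorem V2a_cst (O : ValuationSubring L) {φ : F →+* L} (h : ∀ c, φ c ∈ O) {c : F} (hc : c ≠ 0) :
    O.valuation (φ c) = 1 :=
  V2a_one O ((_root_.map_ne_zero φ).2 hc) (h c) (map_inv₀ φ c ▸ h c⁻¹)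

theorem V2a_tr (O : ValuationSubring L) {φ : F →+* L} (h : ∀ c, φ c ∈ O) {t : L} (h0 : t ≠ 0)
    (ht : O.valuation t < 1) {p : F[X]} (hp : p ≠ 0) : p.eval₂ φ t ≠ 0 := by
  obtain ⟨m, c, a, hc, e⟩ := V2a_nf0 φ t hp
  rw [e]
  refine mul_ne_zero (mul_ne_zero ((_root_.map_ne_zero φ).2 hc) (pow_ne_zero _ h0)) fun h1 => ?_
  have h2 := V2a_unit O h ht a
  rw [h1, map_zero] at h2
  exact zero_ne_one h2

theorem V2a_val (O : ValuationSubring L) {φ : F →+* L} (h : ∀ c, φ c ∈ O) {t : L} (h0 : t ≠ 0)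
    (ht : O.valuation t < 1) {p q : F[X]} (hx : p.eval₂ φ t / q.eval₂ φ t ≠ 0) :
    ∃ n : ℤ, O.valuation (p.eval₂ φ t / q.eval₂ φ t) = O.valuation t ^ n := by
  obtain ⟨n, c, a, b, hc, e⟩ := V2a_nf φ h0 (V2a_ne hx).1 (V2a_ne hx).2
  exact ⟨n, by rw [e, map_mul, map_mul, map_div₀, V2a_unit O h ht, V2a_unit O h ht,
    V2a_cst O h hc, map_zpow₀, one_mul, div_one, mul_one]⟩

theorem V2a_lt_one (v : Vl k L) (x : L) : v.O.valuation x < 1 ↔ x = 0 ∨ 0 < v x := by
  rw [← ValuationSubring.mem_nonunits_iff, ValuationSubring.mem_nonunits_iff_or, Vl.mem_O, v.inv,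
    not_le, neg_lt_zero]

theorem V2a_res_zero (v : Vl k L) {x : L} (hx : 0 ≤ v x) :
    v.res x = 0 ↔ v.O.valuation x < 1 := by
  rw [V2a_lt_one, v.res_eq_zero, hx.lt_iff_ne']

theorem V2a_unit' {v : Vl k L} {ι : F →ₐ[k] L} (h : Tv ι v) {t : L} (ht : 0 < v t) (a : F[X]) :
    1 + t * a.eval₂ (ι : F →+* L) t ≠ 0 ∧ v (1 + t * a.eval₂ (ι : F →+* L) t) = 0 ∧
      v.res (1 + t * a.eval₂ (ι : F →+* L) t) = 1 := by
  have h1 : 0 ≤ v (a.eval₂ (ι : F →+* L) t) :=
    V2a_eval_mem (A := v.O) _ (fun c => (h c).ge) ht.le a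
  have h2 : 0 ≤ v (t * a.eval₂ (ι : F →+* L) t) := mul_mem (s := v.O) ht.le h1
  have h3 : v.res (1 + t * a.eval₂ (ι : F →+* L) t) = 1 := by
    rw [v.res_add v.one.ge h2, v.res_mul ht.le h1, v.res_eq_zero.2 (Or.inr ht.ne'), v.res_one,
      zero_mul, add_zero]
  have h4 := mt v.res_eq_zero.2 (h3.trans_ne one_ne_zero)
  push Not at h4
  exact ⟨h4.1, h4.2, h3⟩

theorem V2a_res_mul (v : Vl k L) (x : L) {y : L} (hy : v y = 0) :
    v.res (x * y) = v.res x * v.res y := by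
  rw [← div_inv_eq_mul, v.res_div x (by rw [v.inv, hy, neg_zero]), v.res_inv, div_inv_eq_mul]

theorem V2a_nfv {v : Vl k L} {ι : F →ₐ[k] L} (h : Tv ι v) {t : L} (ht : 0 < v t) (n : ℤ)
    {c : F} (hc : c ≠ 0) (a b : F[X]) {x : L} (hx : x = ι c * t ^ n *
      ((1 + t * a.eval₂ (ι : F →+* L) t) / (1 + t * b.eval₂ (ι : F →+* L) t))) :
    v x = n * v t ∧ ∃ d, v.res x = v.res (ι d) := by
  obtain ⟨a1, a2, a3⟩ := V2a_unit' h ht a
  obtain ⟨b1, b2, b3⟩ := V2a_unit' h ht b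
  have h0 : t ≠ 0 := fun e => ht.ne' (e ▸ v.zero)
  have h1 : ι c ≠ 0 := (_root_.map_ne_zero ι).2 hc
  have h2 := v.div a1 b1
  rw [a2, b2, sub_zero] at h2
  have h3 : v x = n * v t := by
    rw [hx, v.mul _ _ (mul_ne_zero h1 (zpow_ne_zero _ h0)) (div_ne_zero a1 b1), h2,
      v.mul _ _ h1 (zpow_ne_zero _ h0), h c, v.zpow, zero_add, add_zero]
  refine ⟨h3, ?_⟩
  rcases eq_or_ne n 0 with rfl | hn
  · exact ⟨c, by rw [hx, zpow_zero, mul_one, V2a_res_mul v _ h2, v.res_div _ b2, a3, b3, div_one,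
      mul_one]⟩
  · refine ⟨0, ?_⟩
    rw [map_zero, v.res_zero, v.res_eq_zero, h3]
    exact Or.inr (mul_ne_zero (Int.cast_ne_zero.2 hn) ht.ne')

theorem V2a_res_triv {v : Vl k L} {ι : F →ₐ[k] L} (h : Tv ι v) {t : L} (ht : 0 < v t)
    (p q : F[X]) : ∃ d, v.res (p.eval₂ (ι : F →+* L) t / q.eval₂ (ι : F →+* L) t) = v.res (ι d) := by
  by_cases hx : p.eval₂ (ι : F →+* L) t / q.eval₂ (ι : F →+* L) t = 0
  · exact ⟨0, by rw [hx, map_zero]⟩
  obtain ⟨n, c, a, b, hc, e⟩ := V2a_nf (ι : F →+* L) (t := t)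
    (fun e => ht.ne' (by rw [e, v.zero])) (V2a_ne hx).1 (V2a_ne hx).2
  exact (V2a_nfv h ht n hc a b e).2

theorem V2a_place {R : Type*} [CommRing R] (φ : R →+* L) (p : Ideal R) [p.IsPrime]
    (hp : ∀ f, φ f = 0 → f ∈ p) :
    ∃ O : ValuationSubring L, (∀ f, φ f ∈ O) ∧ ∀ f, O.valuation (φ f) < 1 ↔ f ∈ p := by
  let ψ : Localization.AtPrime p →+* L := IsLocalization.lift (M := p.primeCompl)
    (g := φ) fun y => isUnit_iff_ne_zero.2 fun h => y.2 (hp _ h)
  have hψ : ∀ f, ψ (algebraMap R _ f) = φ f := fun f => IsLocalization.lift_eq _ f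
  obtain ⟨O, hO, hl⟩ := IsLocalRing.exists_factor_valuationRing ψ
  have hm : ∀ f, φ f ∈ O := fun f => hψ f ▸ hO _
  refine ⟨O, hm, fun f => ?_⟩
  have h1 : (⟨φ f, hm f⟩ : O) = ψ.codRestrict O.toSubring hO (algebraMap R _ f) :=
    Subtype.ext (hψ f).symm
  rw [← O.valuation_lt_one_iff ⟨φ f, hm f⟩, IsLocalRing.mem_maximalIdeal, mem_nonunits_iff,
    ← not_iff_not, not_not, h1]
  exact (isUnit_map_iff (ψ.codRestrict O.toSubring hO) _).trans
    (IsLocalization.AtPrime.isUnit_to_map_iff _ p f)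

theorem V2a_mk (O : ValuationSubring L) (hk : ∀ c : k, algebraMap k L c ∈ O) {π : L} (h0 : π ≠ 0)
    (h1 : O.valuation π < 1) (h : ∀ y, y ≠ 0 → ∃ n : ℤ, O.valuation y = O.valuation π ^ n) :
    ∃ v : Vl k L, v.O = O ∧ (∀ x, ∃ z : ℤ, v x = z) ∧ v π = 1 := by
  classical
  choose! n hn using h
  have hp : 0 < O.valuation π := zero_lt_iff.2 ((_root_.map_ne_zero _).2 h0)
  have le : ∀ a b : ℤ, O.valuation π ^ a ≤ O.valuation π ^ b ↔ b ≤ a := fun a b =>
    zpow_le_zpow_iff_right_of_lt_one₀ hp h1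
  have eq : ∀ y, y ≠ 0 → ∀ a : ℤ, O.valuation y = O.valuation π ^ a → n y = a := fun y hy a e =>
    le_antisymm ((le _ _).1 (by rw [← e, hn y hy])) ((le _ _).1 (by rw [← e, hn y hy]))
  let v : Vl k L :=
    { v := fun y => if y = 0 then 0 else n y
      zero := if_pos rfl
      mul := fun x y hx hy => by
        rw [if_neg hx, if_neg hy, if_neg (mul_ne_zero hx hy), eq _ (mul_ne_zero hx hy) (n x + n y)
          (by rw [map_mul, hn x hx, hn y hy, zpow_add₀ hp.ne']), Int.cast_add]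
      add := fun x y hx hy hxy => by
        rw [if_neg hx, if_neg hy, if_neg hxy]
        have h2 := O.valuation.map_add x y
        rw [hn x hx, hn y hy, hn _ hxy, le_max_iff, le, le] at h2
        exact_mod_cast min_le_iff.2 h2
      triv := fun c => by
        split_ifs with hc
        · rfl
        · rw [eq _ hc 0 (by
            rw [zpow_zero]
            exact V2a_one O hc (hk c) (map_inv₀ (algebraMap k L) c ▸ hk c⁻¹)), Int.cast_zero]
      fin := fun x => ⟨(n x).natAbs, by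
        split_ifs
        · simp
        · rw [← Int.cast_abs, Nat.cast_natAbs]⟩ }
  have hv : ∀ y, v y = if y = 0 then (0 : FF) else (n y : FF) := fun _ => rfl
  refine ⟨v, ValuationSubring.ext _ _ fun x => ?_, fun x => ?_, ?_⟩
  · rw [Vl.mem_O, hv]
    split_ifs with hx
    · simp [hx]
    · rw [← O.valuation_le_one_iff, hn x hx, ← zpow_zero (O.valuation π), le, Int.cast_nonneg_iff]
  · rw [hv]
    split_ifs
    · exact ⟨0, Int.cast_zero.symm⟩
    · exact ⟨_, rfl⟩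
  · rw [hv, if_neg h0, eq π h0 1 (zpow_one _).symm, Int.cast_one]

theorem V2a_disc {Γ : Type*} [LinearOrderedCommGroupWithZero Γ] (w : Valuation L Γ) {f : L}
    (h0 : f ≠ 0) (h1 : w f < 1) {M : ℕ} (hM : M ≠ 0)
    (h : ∀ y, y ≠ 0 → ∃ n : ℤ, w y ^ M = w f ^ n) :
    ∃ π, π ≠ 0 ∧ w π < 1 ∧ ∀ y, y ≠ 0 → ∃ n : ℤ, w y = w π ^ n := by
  have hp : 0 < w f := zero_lt_iff.2 ((_root_.map_ne_zero _).2 h0)
  obtain ⟨g, ⟨hg, π, hπ, e⟩, hmin⟩ := Int.exists_least_of_bdd
    (P := fun g : ℤ => 0 < g ∧ ∃ π, π ≠ 0 ∧ w π ^ M = w f ^ g) ⟨0, fun z hz => hz.1.le⟩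
    ⟨M, by omega, f, h0, (zpow_natCast _ _).symm⟩
  have hπ' : w π ≠ 0 := (_root_.map_ne_zero _).2 hπ
  refine ⟨π, hπ, ?_, fun y hy => ?_⟩
  · rw [← pow_lt_one_iff_of_nonneg zero_le hM, e]
    exact zpow_lt_one₀ hp h1 hg
  obtain ⟨n, hn⟩ := h y hy
  have h2 : w (y / π ^ (n / g)) ^ M = w f ^ (n % g) := by
    rw [map_div₀, map_zpow₀, div_pow, hn, ← zpow_natCast, ← zpow_mul, mul_comm, zpow_mul,
      zpow_natCast, e, ← zpow_mul, ← zpow_sub₀ hp.ne', Int.emod_def]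
  have h3 : n % g = 0 := by
    by_contra h3
    have h4 := Int.emod_nonneg n hg.ne'
    have h5 := Int.emod_lt_of_pos n hg
    have h6 := hmin (n % g) ⟨by omega, _, div_ne_zero hy (zpow_ne_zero _ hπ), h2⟩
    omega
  rw [h3, zpow_zero, pow_eq_one_iff_of_nonneg zero_le hM, map_div₀, map_zpow₀,
    div_eq_one_iff_eq (zpow_ne_zero _ hπ')] at h2
  exact ⟨_, h2⟩

end Pool.Agent.Work.MP_ffcd14_ag.Uni
end

-- merged part: Pool.Agent.Work.MP_ffcd14_ag.Uni.V2b
section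
/-! # Residues of polynomial expressions, the inequality of Abhyankar -/

open Polynomial

namespace Pool.Agent.Work.MP_ffcd14_ag.Uni

universe u

variable {k F L : Type u} [Field k] [Field F] [Field L] [Algebra k F] [Algebra k L]

theorem V2b_sum (v : Vl k L) {J : Type*} (S : Finset J) {x : J → L} (h : ∀ j ∈ S, 0 ≤ v (x j)) :
    0 ≤ v (∑ j ∈ S, x j) ∧ v.res (∑ j ∈ S, x j) = ∑ j ∈ S, v.res (x j) := by
  classical
  induction S using Finset.induction_on with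
  | empty => exact ⟨by simp [v.zero], by simp [v.res_zero]⟩
  | insert a S ha ih =>
    obtain ⟨h1, h2⟩ := ih fun j hj => h j (Finset.mem_insert_of_mem hj)
    have h3 := h a (Finset.mem_insert_self _ _)
    rw [Finset.sum_insert ha, Finset.sum_insert ha, v.res_add h3 h1, h2]
    exact ⟨add_mem (s := v.O) h3 h1, rfl⟩

omit [Algebra k F] in
theorem V2b_lin (v : Vl k L) (φ : F →+* L) {J : Type*} (S : Finset J) (c : J → F) {y : J → L}
    (hy : ∀ j, 0 ≤ v (y j)) (h : ∃ j ∈ S, c j ≠ 0) :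
    ∃ i ∈ S, c i ≠ 0 ∧ (∀ j ∈ S, c j ≠ 0 → v (φ (c i)) ≤ v (φ (c j))) ∧
      0 ≤ v ((∑ j ∈ S, φ (c j) * y j) / φ (c i)) ∧
      v.res ((∑ j ∈ S, φ (c j) * y j) / φ (c i)) =
        ∑ j ∈ S, v.res (φ (c j / c i)) * v.res (y j) := by
  classical
  obtain ⟨i, hi, hmin⟩ := (S.filter fun j => c j ≠ 0).exists_min_image (fun j => v (φ (c j)))
    (by obtain ⟨j, h1, h2⟩ := h; exact ⟨j, Finset.mem_filter.2 ⟨h1, h2⟩⟩)
  obtain ⟨h1, h2⟩ := Finset.mem_filter.1 hi
  have h3 : ∀ j ∈ S, c j ≠ 0 → v (φ (c i)) ≤ v (φ (c j)) := fun j a b =>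
    hmin j (Finset.mem_filter.2 ⟨a, b⟩)
  have h4 : ∀ j ∈ S, 0 ≤ v (φ (c j / c i)) := fun j hj => by
    rcases eq_or_ne (c j) 0 with e | e
    · rw [e, zero_div, map_zero, v.zero]
    · rw [map_div₀, v.div ((_root_.map_ne_zero φ).2 e) ((_root_.map_ne_zero φ).2 h2), sub_nonneg]
      exact h3 j hj e
  have h5 : (∑ j ∈ S, φ (c j) * y j) / φ (c i) = ∑ j ∈ S, φ (c j / c i) * y j := by
    rw [Finset.sum_div]
    exact Finset.sum_congr rfl fun j _ => by rw [map_div₀, mul_div_right_comm]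
  obtain ⟨h6, h7⟩ := V2b_sum v S (x := fun j => φ (c j / c i) * y j) fun j hj =>
    mul_mem (s := v.O) (h4 j hj) (hy j)
  refine ⟨i, h1, h2, h3, h5 ▸ h6, ?_⟩
  rw [h5, h7]
  exact Finset.sum_congr rfl fun j hj => v.res_mul (h4 j hj) (hy j)

section gauss

variable (v : Vl k L) (φ : F →+* L) {K : Type*} [CommRing K] (ψ : K →+* v.κ)
  (hψ : ∀ f, ∃ a, ψ a = v.res (φ f)) {u : L} (hu : 0 ≤ v u)
include hψ hu

theorem V2b_gauss {p : F[X]} (hp : p ≠ 0) : ∃ (i : ℕ) (q : K[X]), p.coeff i ≠ 0 ∧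
    (∀ j, p.coeff j ≠ 0 → v (φ (p.coeff i)) ≤ v (φ (p.coeff j))) ∧ q ≠ 0 ∧
    0 ≤ v (p.eval₂ φ u / φ (p.coeff i)) ∧
    v.res (p.eval₂ φ u / φ (p.coeff i)) = q.eval₂ ψ (v.res u) := by
  choose g hg using hψ
  obtain ⟨i, hi, h1, h2, h3, h4⟩ := V2b_lin v φ p.support p.coeff (y := fun j => u ^ j)
    (fun j => pow_mem (v.mem_O.2 hu) j)
    ⟨p.natDegree, natDegree_mem_support_of_nonzero hp, leadingCoeff_ne_zero.2 hp⟩
  rw [← show p.eval₂ φ u = ∑ j ∈ p.support, φ (p.coeff j) * u ^ j from eval₂_eq_sum] at h3 h4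
  refine ⟨i, ∑ j ∈ p.support, monomial j (g (p.coeff j / p.coeff i)), h1,
    fun j hj => h2 j (mem_support_iff.2 hj) hj, fun e => ?_, h3, h4.trans ?_⟩
  · have h5 := congrArg (fun q => ψ (q.coeff i)) e
    simp only [finsetSum_coeff, coeff_monomial, Finset.sum_ite_eq', if_pos hi, div_self h1, hg,
      map_one, v.res_one, coeff_zero, map_zero] at h5
    exact one_ne_zero h5
  · rw [eval₂_finsetSum]
    exact Finset.sum_congr rfl fun j _ => by rw [eval₂_monomial, hg, v.res_pow hu]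

variable (ht : ∀ q : K[X], q ≠ 0 → q.eval₂ ψ (v.res u) ≠ 0)
include ht

theorem V2b_poly {p : F[X]} (hp : p ≠ 0) : ∃ (i : ℕ) (q : K[X]), p.coeff i ≠ 0 ∧
    (∀ j, p.coeff j ≠ 0 → v (φ (p.coeff i)) ≤ v (φ (p.coeff j))) ∧ q ≠ 0 ∧ p.eval₂ φ u ≠ 0 ∧
    v (p.eval₂ φ u / φ (p.coeff i)) = 0 ∧
    v.res (p.eval₂ φ u / φ (p.coeff i)) = q.eval₂ ψ (v.res u) := by
  obtain ⟨i, q, h1, h2, h3, -, h5⟩ := V2b_gauss v φ ψ hψ hu hp
  have h6 := mt v.res_eq_zero.2 (h5.trans_ne (ht q h3))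
  push Not at h6
  exact ⟨i, q, h1, h2, h3, fun e => h6.1 (by rw [e, zero_div]), h6.2, h5⟩

theorem V2b_val {p : F[X]} (hp : p ≠ 0) : ∃ i, p.coeff i ≠ 0 ∧ p.eval₂ φ u ≠ 0 ∧
    v (p.eval₂ φ u) = v (φ (p.coeff i)) ∧
    ∀ j, p.coeff j ≠ 0 → v (φ (p.coeff i)) ≤ v (φ (p.coeff j)) := by
  obtain ⟨i, q, h1, h2, -, h4, h5, -⟩ := V2b_poly v φ ψ hψ hu ht hp
  rw [v.div h4 ((_root_.map_ne_zero φ).2 h1), sub_eq_zero] at h5
  exact ⟨i, h1, h4, h5, h2⟩

theorem V2b_res (p q : F[X]) : ∃ P Q : K[X], Q ≠ 0 ∧ v.res (p.eval₂ φ u / q.eval₂ φ u) =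
    P.eval₂ ψ (v.res u) / Q.eval₂ ψ (v.res u) := by
  by_cases hx : p.eval₂ φ u / q.eval₂ φ u = 0
  · refine ⟨0, 1, fun e => ?_, by rw [hx, v.res_zero, eval₂_zero, zero_div]⟩
    exact one_ne_zero ((eval₂_one ψ (v.res u)).symm.trans (by rw [e, eval₂_zero]))
  obtain ⟨i, P, a1, -, -, a4, a5, a6⟩ := V2b_poly v φ ψ hψ hu ht (V2a_ne hx).1
  obtain ⟨j, Q, b1, -, b3, b4, b5, b6⟩ := V2b_poly v φ ψ hψ hu ht (V2a_ne hx).2
  obtain ⟨a, ha⟩ := hψ (p.coeff i / q.coeff j)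
  have a2 := (_root_.map_ne_zero φ).2 a1
  have b2 := (_root_.map_ne_zero φ).2 b1
  refine ⟨C a * P, Q, b3, ?_⟩
  rw [eval₂_mul, eval₂_C, ha, ← a6, ← b6, ← V2a_res_mul v _ a5, ← v.res_div _ b5, map_div₀]
  congr 1
  field_simp

end gauss

theorem V2b_hψ (v : Vl k L) (E : IntermediateField k L) (f : E) :
    ∃ a : Algebra.adjoin k (v.res '' (E : Set L)), algebraMap _ v.κ a =
      v.res ((E.val : E →+* L) f) :=
  ⟨⟨_, Algebra.subset_adjoin ⟨f, f.2, rfl⟩⟩, rfl⟩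

theorem V2b_alg (v : Vl k L) {s : Set L} {y : L} (hy : IsAlgebraic (Algebra.adjoin k s) y) :
    IsAlgebraic (Algebra.adjoin k (v.res '' (IntermediateField.adjoin k s : Set L))) (v.res y) := by
  rcases lt_or_ge (v y) 0 with h | h
  · rw [v.res_of_neg h]
    exact isAlgebraic_zero
  obtain ⟨p, hp, e⟩ := (V2a_alg' s y).1 hy
  obtain ⟨i, q, -, -, h3, -, h5⟩ := V2b_gauss v _ _ (V2b_hψ v _) h hp
  rw [e, zero_div, v.res_zero] at h5
  exact ⟨q, h3, h5.symm⟩

theorem V2b_mem_alg {s : Set L} {y : L} (hy : y ∈ IntermediateField.adjoin k s) :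
    IsAlgebraic (Algebra.adjoin k s) y :=
  IntermediateField.isAlgebraic_adjoin_iff.1
    (isAlgebraic_algebraMap (⟨y, hy⟩ : IntermediateField.adjoin k s))

theorem V2b_closure {s t : Set L} (h : ∀ y ∈ t, IsAlgebraic (Algebra.adjoin k s) y) {y : L}
    (hy : y ∈ IntermediateField.adjoin k t) : IsAlgebraic (Algebra.adjoin k s) y :=
  Rk_mem_closure.1 (Matroid.closure_subset_closure_of_subset_closure
    (fun x hx => Rk_mem_closure.2 (h x hx)) (Rk_mem_closure.2 (V2b_mem_alg hy)))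

theorem V2b_le (v : Vl k L) {s t : Set L} (h : ∀ y ∈ t, IsAlgebraic (Algebra.adjoin k s) y) :
    rk k (v.res '' (IntermediateField.adjoin k t : Set L)) ≤
      rk k (v.res '' (IntermediateField.adjoin k s : Set L)) := by
  refine rk_le_of_alg ?_
  rintro _ ⟨y, hy, rfl⟩
  exact V2b_alg v (V2b_closure h hy)

theorem V2b_insert (v : Vl k L) (s : Set L) (x : L) :
    rk k (v.res '' (IntermediateField.adjoin k (insert x s) : Set L)) ≤
      rk k (v.res '' (IntermediateField.adjoin k s : Set L)) + 1 := by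
  by_cases h : ∀ y ∈ v.res '' (IntermediateField.adjoin k (insert x s) : Set L),
      IsAlgebraic (Algebra.adjoin k (v.res '' (IntermediateField.adjoin k s : Set L))) y
  · exact (rk_le_of_alg h).trans le_self_add
  push Not at h
  obtain ⟨_, ⟨a, ha, rfl⟩, h⟩ := h
  have h1 : 0 ≤ v a := not_lt.1 fun e => h (v.res_of_neg e ▸ isAlgebraic_zero)
  have h2 := (Matroid.closure_exchange ⟨Rk_mem_closure.2 (V2b_mem_alg ha),
    fun e => h (V2b_alg v (Rk_mem_closure.1 e))⟩).1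
  refine (V2b_le v (s := insert a s) ?_).trans ((rk_le_of_mem
    (s := insert (v.res a) (v.res '' (IntermediateField.adjoin k s : Set L))) ?_).trans
    (Matroid.eRk_insert_le_add_one _ _ _))
  · rintro y (rfl | hy)
    · exact Rk_mem_closure.1 h2
    · exact V2b_mem_alg (IntermediateField.subset_adjoin _ _ (Or.inr hy))
  · rintro _ ⟨y, hy, rfl⟩
    obtain ⟨p, q, rfl⟩ := (V2a_mem' s a y).1 hy
    obtain ⟨P, Q, -, e⟩ := V2b_res v _ _ (V2b_hψ v _) h1 (fun q hq e => h ⟨q, hq, e⟩) p q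
    rw [e]
    have h3 : ∀ P : (Algebra.adjoin k (v.res '' (IntermediateField.adjoin k s : Set L)))[X],
        P.eval₂ (algebraMap _ v.κ) (v.res a) ∈ IntermediateField.adjoin k
          (insert (v.res a) (v.res '' (IntermediateField.adjoin k s : Set L))) :=
      V2a_eval_mem _ (fun c => IntermediateField.algebra_adjoin_le_adjoin k _
        (Algebra.adjoin_mono (Set.subset_insert _ _) c.2))
        (IntermediateField.subset_adjoin k _ (Set.mem_insert _ _))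
    exact div_mem (h3 P) (h3 Q)

theorem V2b_self {s : Set L} {y : L} (hy : y ∈ s) : IsAlgebraic (Algebra.adjoin k s) y :=
  V2b_mem_alg (IntermediateField.subset_adjoin _ _ hy)

theorem V2b_rel (v : Vl k L) (n : ℕ) (t : Set L) : ∀ s : Set L, rk k s ≠ ⊤ →
    rk k (s ∪ t) ≤ rk k s + n →
    rk k (v.res '' (IntermediateField.adjoin k (s ∪ t) : Set L)) ≤
      rk k (v.res '' (IntermediateField.adjoin k s : Set L)) + n := by
  have key : ∀ (s : Set L) (n : ℕ), ((∀ y ∈ t, IsAlgebraic (Algebra.adjoin k s) y) →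
      rk k (v.res '' (IntermediateField.adjoin k (s ∪ t) : Set L)) ≤
        rk k (v.res '' (IntermediateField.adjoin k s : Set L)) + n) := fun s n h =>
    (V2b_le v fun y hy => hy.elim V2b_self (h y)).trans le_self_add
  induction n with
  | zero =>
    intro s hs h
    refine key s 0 fun y hy => by_contra fun e => ?_
    have h1 := (rk_insert e).symm.trans_le ((rk_mono (t := s ∪ t)
      (Set.insert_subset (Or.inr hy) Set.subset_union_left)).trans h)
    rw [Nat.cast_zero, add_zero] at h1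
    exact (ENat.lt_add_one_iff hs).2 le_rfl |>.not_ge h1
  | succ n ih =>
    intro s hs h
    by_cases h0 : ∀ y ∈ t, IsAlgebraic (Algebra.adjoin k s) y
    · exact key s _ h0
    push Not at h0
    obtain ⟨x, hx, e⟩ := h0
    have h1 : insert x s ∪ t = s ∪ t := by
      rw [Set.insert_union, Set.insert_eq_of_mem (Set.mem_union_right s hx)]
    have h2 := ih (insert x s) (by rw [rk_insert e]; simpa using hs) (by
      rw [h1, rk_insert e, add_assoc, add_comm 1]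
      exact h)
    rw [h1] at h2
    refine h2.trans ((add_le_add_left (V2b_insert v s x) _).trans ?_)
    rw [add_assoc, add_comm 1]
    rfl

theorem V2b_empty : rk k (∅ : Set L) = 0 := Matroid.eRk_empty _

theorem V2b_bot {x : L} (hx : x ∈ IntermediateField.adjoin k (∅ : Set L)) :
    ∃ c, algebraMap k L c = x := by
  rwa [IntermediateField.adjoin_empty, IntermediateField.mem_bot] at hx

theorem V2b_zero (v : Vl k L) :
    rk k (v.res '' (IntermediateField.adjoin k (∅ : Set L) : Set L)) = 0 := by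
  refine le_antisymm ((rk_le_of_mem (s := ∅) ?_).trans V2b_empty.le) zero_le
  rintro _ ⟨x, hx, rfl⟩
  obtain ⟨c, rfl⟩ := V2b_bot hx
  rw [v.res_algebraMap]
  exact IntermediateField.algebraMap_mem _ c

theorem V2b_res_le (v : Vl k L) (s : Set L) :
    rk k (v.res '' (IntermediateField.adjoin k s : Set L)) ≤ rk k s := by
  rcases eq_or_ne (rk k s) ⊤ with h | h
  · exact h ▸ le_top
  obtain ⟨n, hn⟩ := ENat.ne_top_iff_exists.1 h
  have h1 := V2b_rel v n s ∅ (by simp [V2b_empty]) (by simp [V2b_empty, hn])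
  rwa [V2b_zero, Set.empty_union, zero_add, hn] at h1

theorem V2b_triv (v : Vl k L) {s : Set L} (h : ∀ x ∈ IntermediateField.adjoin k s, v x = 0) {f : L}
    (hf : 0 < v f) : v.res '' (IntermediateField.adjoin k (insert f s) : Set L) ⊆
      v.res '' (IntermediateField.adjoin k s : Set L) := by
  rintro _ ⟨x, hx, rfl⟩
  obtain ⟨p, q, rfl⟩ := (V2a_mem' s f x).1 hx
  obtain ⟨d, hd⟩ := V2a_res_triv (ι := (IntermediateField.adjoin k s).val) (fun c => h c c.2) hf p q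
  exact ⟨d, d.2, hd.symm⟩

theorem V2b_res_lt (v : Vl k L) {s : Set L} (hs : rk k s ≠ ⊤) {f : L}
    (hf : f ∈ IntermediateField.adjoin k s) (h : v f ≠ 0) :
    rk k (v.res '' (IntermediateField.adjoin k s : Set L)) + 1 ≤ rk k s := by
  wlog h0 : 0 < v f generalizing f
  · exact this (inv_mem hf) (by rwa [v.inv, neg_ne_zero])
      (by rw [v.inv, neg_pos]; exact lt_of_le_of_ne (not_lt.1 h0) h)
  have h1 : ∀ x ∈ IntermediateField.adjoin k (∅ : Set L), v x = 0 := fun x hx => by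
    obtain ⟨c, rfl⟩ := V2b_bot hx
    exact v.triv c
  have h2 : rk k (insert f (∅ : Set L)) = 1 := by
    rw [rk_insert fun e => h (v.triv_of_alg h1 e), V2b_empty, zero_add]
  have h3 : rk k (insert f ∅ ∪ s) ≤ rk k s := rk_le_of_mem fun y hy => by
    rcases hy with (rfl | hy) | hy
    · exact hf
    · exact hy.elim
    · exact IntermediateField.subset_adjoin _ _ hy
  have h4 := h2.ge.trans ((rk_mono Set.subset_union_left).trans h3)
  obtain ⟨n, hn⟩ := ENat.ne_top_iff_exists.1 hs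
  rw [← hn] at h3 h4 ⊢
  obtain ⟨m, rfl⟩ : ∃ m, n = 1 + m := Nat.exists_eq_add_of_le (by exact_mod_cast h4)
  have h5 := V2b_rel v m s (insert f ∅) (by rw [h2]; exact ENat.one_ne_top)
    (by rw [h2]; exact h3)
  rw [le_antisymm ((rk_mono (V2b_triv v h1 h0)).trans (V2b_zero v).le) zero_le, zero_add] at h5
  rw [add_comm 1 m]
  exact add_le_add_left ((rk_mono (Set.image_mono
    (IntermediateField.adjoin.mono _ _ _ Set.subset_union_right))).trans h5) 1

theorem V2b_univ (v : Vl k L) :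
    v.res '' (IntermediateField.adjoin k (Set.univ : Set L) : Set L) = Set.univ := by
  refine Set.eq_univ_of_forall fun y => ?_
  obtain ⟨x, -, rfl⟩ := v.res_surj y
  exact ⟨x, IntermediateField.subset_adjoin _ _ trivial, rfl⟩

theorem V2b_indep {s : Set L} (h : rk k s ≠ ⊤) :
    ∃ z : Fin (rn k s) → L, (∀ i, z i ∈ s) ∧ AlgebraicIndependent k z := by
  obtain ⟨I, hI⟩ := (AlgebraicIndependent.matroid k L).exists_isBasis s
  have h1 : I.encard = rk k s := hI.encard_eq_eRk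
  have h2 : I.Finite := Set.encard_ne_top_iff.1 (h1 ▸ h)
  have := h2.to_subtype
  have h3 : Nat.card I = rn k s := by rw [rn, ← h1, Nat.card_coe_set_eq, Set.ncard_def]
  let e := (Finite.equivFinOfCardEq h3).symm
  exact ⟨fun i => e i, fun i => hI.subset (e i).2,
    (AlgebraicIndependent.matroid_indep_iff.1 hI.indep).comp e e.injective⟩

theorem V2b_le_rk {s : Set L} {m : ℕ} {z : Fin m → L} (hz : ∀ i, z i ∈ s)
    (h : AlgebraicIndependent k z) : (m : ℕ∞) ≤ rk k s := by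
  have h1 : (AlgebraicIndependent.matroid k L).Indep (Set.range z) :=
    (algebraicIndependent_subtype_range h.injective).2 h
  have h2 := h1.encard_le_eRk_of_subset (Set.range_subset_iff.2 hz)
  rwa [← Set.image_univ, h.injective.encard_image, Set.encard_univ, ENat.card_eq_coe_fintype_card,
    Fintype.card_fin] at h2

theorem V2b_lift (v : Vl k L) {σ : Type*} {z : σ → L}
    (h : AlgebraicIndependent k fun i => v.res (z i)) {p : MvPolynomial σ k} (hp : p ≠ 0) :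
    MvPolynomial.aeval z p ≠ 0 ∧ v (MvPolynomial.aeval z p) = 0 ∧
      v.res (MvPolynomial.aeval z p) = MvPolynomial.aeval (fun i => v.res (z i)) p := by
  have h1 : ∀ i, 0 ≤ v (z i) := fun i => not_lt.1 fun e => h.ne_zero i (v.res_of_neg e)
  have h2 := (v.res_aeval h1 p).2
  have h3 := mt v.res_eq_zero.2 (h2.trans_ne fun e => hp (h.eq_zero_of_aeval_eq_zero p e))
  push Not at h3
  exact ⟨h3.1, h3.2, h2⟩

theorem V2b_lift' (v : Vl k L) {σ : Type*} {z : σ → L}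
    (h : AlgebraicIndependent k fun i => v.res (z i)) {x : L}
    (hx : x ∈ IntermediateField.adjoin k (Set.range z)) :
    v x = 0 ∧ v.res x ∈ IntermediateField.adjoin k (Set.range fun i => v.res (z i)) := by
  obtain ⟨p, q, rfl⟩ := (IntermediateField.mem_adjoin_range_iff _ _ _).1 hx
  rcases eq_or_ne p 0 with rfl | hp
  · rw [map_zero, zero_div, v.zero, v.res_zero]
    exact ⟨rfl, zero_mem _⟩
  rcases eq_or_ne q 0 with rfl | hq
  · rw [map_zero, div_zero, v.zero, v.res_zero]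
    exact ⟨rfl, zero_mem _⟩
  obtain ⟨a1, a2, a3⟩ := V2b_lift v h hp
  obtain ⟨b1, b2, b3⟩ := V2b_lift v h hq
  rw [v.div a1 b1, v.res_div _ b2, a2, b2, a3, b3, sub_zero]
  exact ⟨rfl, (IntermediateField.mem_adjoin_range_iff _ _ _).2 ⟨p, q, rfl⟩⟩

theorem V2b_finite (v : Vl k L) (E : IntermediateField k L) [FiniteDimensional E L]
    (K : IntermediateField k v.κ) (h : ∀ x ∈ E, v.res x ∈ K) : FiniteDimensional K v.κ := by
  refine Module.rank_lt_aleph0_iff.1 ((rank_le (n := Module.finrank E L) fun S hS => ?_).trans_lt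
    (Cardinal.natCast_lt_aleph0))
  choose y hy hy' using fun j : S => v.res_surj j
  have h1 : LinearIndependent E y := by
    rw [Fintype.linearIndependent_iff]
    intro c hc
    by_contra! h2
    obtain ⟨i, -, a1, -, -, a4⟩ := V2b_lin v (E.val : E →+* L) Finset.univ c hy
      (h2.imp fun j hj => ⟨Finset.mem_univ j, hj⟩)
    have h3 : ∑ j, (E.val : E →+* L) (c j) * y j = 0 := hc
    rw [h3, zero_div, v.res_zero] at a4
    have h4 := Fintype.linearIndependent_iff.1 hS (fun j => ⟨_, h _ (c j / c i).2⟩)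
      ((Finset.sum_congr rfl fun j _ => by rw [hy']; rfl).trans a4.symm) i
    rw [div_self a1] at h4
    exact one_ne_zero (v.res_one.symm.trans (congrArg Subtype.val h4))
  simpa using h1.fintype_card_le_finrank

end Pool.Agent.Work.MP_ffcd14_ag.Uni
end

-- merged part: Pool.Agent.Work.MP_ffcd14_ag.Uni.V2
section
/-! # Transcendence degrees of residue fields, existence of divisorial valuations -/

open MvPolynomial

namespace Pool.Agent.Work.MP_ffcd14_ag.Uni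

universe u

variable {k F L L' : Type u} [Field k] [Field F] [Field L] [Field L'] [Algebra k F] [Algebra k L]
  [Algebra k L']

theorem rk_ne_top [Fg k L] (s : Set L) : rk k s ≠ ⊤ := by
  obtain ⟨g, hg⟩ := Fg.out (k := k) (L := L)
  exact ne_top_of_le_ne_top g.finite_toSet.encard_lt_top.ne
    ((rk_le_of_mem fun y _ => hg ▸ IntermediateField.mem_top).trans (rk_le_encard _))

theorem rn_cast [Fg k L] (s : Set L) : (rn k s : ℕ∞) = rk k s := ENat.coe_toNat (rk_ne_top s)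

theorem rn_mono [Fg k L] {s t : Set L} (h : s ⊆ t) : rn k s ≤ rn k t := by
  exact ENat.toNat_le_toNat (rk_mono h) (rk_ne_top t)

theorem rn_le_td [Fg k L] (s : Set L) : rn k s ≤ td k L := rn_mono (Set.subset_univ s)

theorem rn_empty : rn k (∅ : Set L) = 0 := by
  rw [rn, V2b_empty, ENat.toNat_zero]

theorem rn_le_of_mem [Fg k L] {s t : Set L} (h : t ⊆ IntermediateField.adjoin k s) :
    rn k t ≤ rn k s := by
  exact ENat.toNat_le_toNat (rk_le_of_mem h) (rk_ne_top s)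

theorem rn_le_of_alg [Fg k L] {s t : Set L} (h : ∀ y ∈ t, IsAlgebraic (Algebra.adjoin k s) y) :
    rn k t ≤ rn k s := by
  exact ENat.toNat_le_toNat (rk_le_of_alg h) (rk_ne_top s)

theorem alg_of_rn [Fg k L] {s t : Set L} (h : rn k (s ∪ t) ≤ rn k s) {y : L} (hy : y ∈ t) :
    IsAlgebraic (Algebra.adjoin k s) y := by
  by_contra e
  have h1 := (rk_insert e).symm.trans_le (rk_mono (t := s ∪ t)
    (Set.insert_subset (Or.inr hy) Set.subset_union_left))
  rw [← rn_cast, ← rn_cast] at h1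
  have h2 : rn k s + 1 ≤ rn k (s ∪ t) := by exact_mod_cast h1
  omega

theorem rn_adjoin [Fg k L] (s : Set L) : rn k (IntermediateField.adjoin k s : Set L) = rn k s := by
  exact le_antisymm (rn_le_of_mem le_rfl) (rn_mono (IntermediateField.subset_adjoin k s))

theorem rn_gen [Fg k L] {s : Set L} (h : IntermediateField.adjoin k s = ⊤) : rn k s = td k L := by
  rw [← rn_adjoin, h]
  rfl

theorem rn_union_le [Fg k L] (s t : Set L) : rn k (s ∪ t) ≤ rn k s + rn k t := by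
  have h1 := rk_union_le (k := k) s t
  rw [← rn_cast, ← rn_cast, ← rn_cast] at h1
  exact_mod_cast h1

theorem rn_insert_le [Fg k L] (s : Set L) (y : L) : rn k (insert y s) ≤ rn k s + 1 := by
  have h1 : rk k (insert y s) ≤ rk k s + 1 := Matroid.eRk_insert_le_add_one _ y s
  rw [← rn_cast, ← rn_cast] at h1
  exact_mod_cast h1

/-- Submodularity. -/
theorem rn_submod [Fg k L] (s t r : Set L) :
    rn k (s ∪ t ∪ r) + rn k s ≤ rn k (s ∪ t) + rn k (s ∪ r) := by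
  have h1 : rk k ((s ∪ t) ∩ (s ∪ r)) + rk k (s ∪ t ∪ (s ∪ r)) ≤ rk k (s ∪ t) + rk k (s ∪ r) :=
    Matroid.eRk_submod _ _ _
  rw [← rn_cast, ← rn_cast, ← rn_cast, ← rn_cast] at h1
  have h2 : rn k ((s ∪ t) ∩ (s ∪ r)) + rn k (s ∪ t ∪ (s ∪ r)) ≤ rn k (s ∪ t) + rn k (s ∪ r) := by
    exact_mod_cast h1
  have h3 : rn k s ≤ rn k ((s ∪ t) ∩ (s ∪ r)) :=
    rn_mono (Set.subset_inter Set.subset_union_left Set.subset_union_left)
  have h4 : rn k (s ∪ t ∪ r) ≤ rn k (s ∪ t ∪ (s ∪ r)) :=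
    rn_mono (Set.union_subset_union_right _ Set.subset_union_right)
  omega

theorem rn_image (ι : F →ₐ[k] L) (s : Set F) : rn k (ι '' s) = rn k s := by
  rw [rn, rk_image, rn]

theorem rn_range (ι : F →ₐ[k] L) : rn k (Set.range ι) = td k F := by
  rw [← Set.image_univ, rn_image, td]

theorem td_le [Fg k L] (ι : F →ₐ[k] L) : td k F ≤ td k L := by
  exact (rn_range ι).symm.trans_le (rn_le_td _)

/-- A basis of the algebraic matroid inside `s`. -/
theorem exists_indep [Fg k L] (s : Set L) :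
    ∃ z : Fin (rn k s) → L, (∀ i, z i ∈ s) ∧ AlgebraicIndependent k z := by
  exact V2b_indep (rk_ne_top s)

theorem le_rn_of_indep [Fg k L] {s : Set L} {m : ℕ} {z : Fin m → L} (hz : ∀ i, z i ∈ s)
    (h : AlgebraicIndependent k z) : m ≤ rn k s := by
  have h1 := V2b_le_rk hz h
  rw [← rn_cast] at h1
  exact_mod_cast h1

theorem td_eq_trdeg [Fg k L] : (td k L : Cardinal) = Algebra.trdeg k L := by
  obtain ⟨g, hg⟩ := Fg.out (k := k) (L := L)
  rw [← rn_gen hg]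
  exact Rk_spanning g.finite_toSet ⟨fun y => V2b_mem_alg (hg ▸ IntermediateField.mem_top)⟩

theorem V2_fd [Fg k L] {s : Set L} (h : td k L ≤ rn k s) :
    FiniteDimensional (IntermediateField.adjoin k s) L := by
  obtain ⟨g, hg⟩ := Fg.out (k := k) (L := L)
  have h1 := IntermediateField.finiteDimensional_adjoin (K := IntermediateField.adjoin k s)
    (S := (g : Set L)) fun y _ => (IntermediateField.isAlgebraic_adjoin_iff.2
      (alg_of_rn ((rn_le_td _).trans h) (Set.mem_univ y))).isIntegral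
  have h2 : IntermediateField.adjoin (IntermediateField.adjoin k s) (g : Set L) = ⊤ := by
    refine eq_top_iff.2 fun y _ => ?_
    have h3 : IntermediateField.adjoin k (g : Set L) ≤
        (IntermediateField.adjoin (IntermediateField.adjoin k s) (g : Set L)).restrictScalars k :=
      IntermediateField.adjoin_le_iff.2 (IntermediateField.subset_adjoin _ _)
    exact h3 (hg ▸ IntermediateField.mem_top)
  rw [h2] at h1
  exact IntermediateField.topEquiv.toLinearEquiv.finiteDimensional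

theorem V2_fg {s : Set L} (hs : s.Finite) [h : FiniteDimensional (IntermediateField.adjoin k s) L] :
    Fg k L := by
  obtain ⟨T, hT⟩ := h.fg_top
  refine ⟨(hs.union T.finite_toSet).toFinset, ?_⟩
  rw [Set.Finite.coe_toFinset, eq_top_iff]
  intro y _
  have hy : y ∈ Submodule.span (IntermediateField.adjoin k s) (T : Set L) := hT ▸ Submodule.mem_top
  induction hy using Submodule.span_induction with
  | mem x hx => exact IntermediateField.subset_adjoin _ _ (Or.inr hx)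
  | zero => exact zero_mem _
  | add x y _ _ hx hy => exact add_mem (hx trivial) (hy trivial)
  | smul a x _ hx =>
    exact mul_mem (IntermediateField.adjoin.mono _ _ _ Set.subset_union_left a.2) (hx trivial)

/-- The residue field of a divisorial valuation is finitely generated. -/
instance Dv.fg [Fg k L] (ν : Dv k L) : Fg k ν.κ := by
  have h0 : rk k (Set.univ : Set ν.κ) ≠ ⊤ :=
    ne_top_of_le_ne_top (rk_ne_top _) (V2b_univ ν.toVl ▸ V2b_res_le ν.toVl Set.univ)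
  obtain ⟨y, -, hy⟩ := V2b_indep h0
  choose z _ hz using fun i => ν.res_surj (y i)
  obtain rfl : (fun i => ν.res (z i)) = y := funext hz
  have hπ : 0 < ν ν.π := by
    rw [ν.v_π]
    exact one_pos
  have h1 := V2b_res_lt ν.toVl (rk_ne_top (insert ν.π (Set.range z)))
    (IntermediateField.subset_adjoin _ _ (Set.mem_insert _ _)) hπ.ne'
  have h2 := (add_le_add_left (V2b_le_rk (fun i => Set.mem_image_of_mem _
    (IntermediateField.subset_adjoin k _
      (Set.mem_insert_of_mem _ (Set.mem_range_self (f := z) i)))) hy) 1).trans h1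
  rw [← rn_cast] at h2
  have h3 := V2_fd (k := k) (s := insert ν.π (Set.range z)) (ν.dim ▸ by exact_mod_cast h2)
  have h4 := V2b_finite ν.toVl (IntermediateField.adjoin k (insert ν.π (Set.range z)))
    (IntermediateField.adjoin k (Set.range fun i => ν.res (z i))) fun x hx => by
      obtain ⟨a, ha, e⟩ := V2b_triv ν.toVl (fun x hx => (V2b_lift' ν.toVl hy hx).1) hπ ⟨x, hx, rfl⟩
      exact e ▸ (V2b_lift' ν.toVl hy ha).2
  exact V2_fg (Set.finite_range _) (h := h4)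

variable [Fg k L] (ν : Dv k L)

theorem rn_res_le (s : Set L) :
    rn k (ν.res '' (IntermediateField.adjoin k s : Set L)) ≤ rn k s := by
  exact ENat.toNat_le_toNat (V2b_res_le ν.toVl s) (rk_ne_top s)

theorem rn_res_lt {s : Set L} {f : L} (hf : f ∈ IntermediateField.adjoin k s) (h : ν f ≠ 0) :
    rn k (ν.res '' (IntermediateField.adjoin k s : Set L)) + 1 ≤ rn k s := by
  have h1 := V2b_res_lt ν.toVl (rk_ne_top s) hf h
  rw [← rn_cast, ← rn_cast] at h1
  exact_mod_cast h1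

/-- The relative inequality of Abhyankar. -/
theorem rn_res_rel (s t : Set L) :
    rn k (ν.res '' (IntermediateField.adjoin k (s ∪ t) : Set L)) + rn k s ≤
      rn k (ν.res '' (IntermediateField.adjoin k s : Set L)) + rn k (s ∪ t) := by
  obtain ⟨n, hn⟩ := Nat.exists_eq_add_of_le (rn_mono (k := k) (Set.subset_union_left : s ⊆ s ∪ t))
  have h1 := V2b_rel ν.toVl n t s (rk_ne_top s) (by
    rw [← rn_cast, ← rn_cast, hn, Nat.cast_add])
  rw [← rn_cast, ← rn_cast] at h1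
  have h2 : rn k (ν.res '' (IntermediateField.adjoin k (s ∪ t) : Set L)) ≤
      rn k (ν.res '' (IntermediateField.adjoin k s : Set L)) + n := by exact_mod_cast h1
  omega

theorem rn_res_range {ι : F →ₐ[k] L} (h : ¬ Tv ι ν.toVl) :
    rn k (ν.res '' Set.range ι) + 1 ≤ td k F := by
  obtain ⟨f, hf⟩ := not_forall.1 h
  have h1 := rn_res_lt ν (IntermediateField.subset_adjoin k _ (Set.mem_range_self (f := ι) f)) hf
  rw [rn_range] at h1
  exact (Nat.add_le_add_right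
    (rn_mono (Set.image_mono (IntermediateField.subset_adjoin k _))) 1).trans h1

/-- A valuation ring with a large residue field is divisorial. -/
theorem exists_dv (O : ValuationSubring L) (hk : ∀ c : k, algebraMap k L c ∈ O) (hO : O ≠ ⊤)
    {m : ℕ} (hm : m + 1 = td k L) (z : Fin m → L)
    (hz : ∀ p : MvPolynomial (Fin m) k, p ≠ 0 → O.valuation (aeval z p) = 1) :
    ∃ μ : Dv k L, μ.O = O := by
  obtain ⟨f, h0, h1⟩ : ∃ f, f ≠ 0 ∧ O.valuation f < 1 := by
    obtain ⟨x, hx⟩ : ∃ x, x ∉ O := not_forall.1 fun h => hO (eq_top_iff.2 fun x _ => h x)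
    exact ⟨x⁻¹, inv_ne_zero fun e => hx (e ▸ O.zero_mem), O.mem_nonunits_iff.1
      (O.mem_nonunits_iff_or.2 (Or.inr (by rwa [inv_inv])))⟩
  have hE : ∀ c : IntermediateField.adjoin k (Set.range z),
      ((IntermediateField.adjoin k (Set.range z)).val : _ →+* L) c ∈ O := by
    rintro ⟨x, hx⟩
    obtain ⟨p, q, rfl⟩ := (IntermediateField.mem_adjoin_range_iff _ _ _).1 hx
    change aeval z p / aeval z q ∈ O
    rcases eq_or_ne p 0 with rfl | hp
    · simp
    rcases eq_or_ne q 0 with rfl | hq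
    · simp
    rw [← O.valuation_le_one_iff, map_div₀, hz p hp, hz q hq, div_one]
  have h2 : AlgebraicIndependent k z := algebraicIndependent_iff.2 fun p hp => by_contra fun e => by
    have h3 := hz p e
    rw [hp, map_zero] at h3
    exact zero_ne_one h3
  have h3 : rk k (insert f (Set.range z)) = rk k (Set.range z) + 1 := rk_insert fun e => by
    obtain ⟨p, hp, e⟩ := (V2a_alg' _ _).1 e
    exact V2a_tr O hE h0 h1 hp e
  have h4 := (add_le_add_left (V2b_le_rk Set.mem_range_self h2) 1).trans h3.ge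
  rw [← rn_cast] at h4
  have h5 := V2_fd (k := k) (s := insert f (Set.range z)) (hm ▸ by exact_mod_cast h4)
  obtain ⟨π, p0, p1, p2⟩ := V2a_disc O.valuation h0 h1 (Nat.factorial_ne_zero
    (Module.finrank (IntermediateField.adjoin k (insert f (Set.range z))) L)) fun y hy => by
      obtain ⟨⟨x, hx⟩, x0, e⟩ := VAL.pow_mem
        (F := IntermediateField.adjoin k (insert f (Set.range z))) O.valuation y hy
      obtain ⟨p, q, rfl⟩ := (V2a_mem' _ _ _).1 hx
      obtain ⟨n, hn⟩ := V2a_val O hE h0 h1 fun e => x0 (Subtype.ext e)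
      exact ⟨n, e.symm.trans hn⟩
  obtain ⟨v, rfl, v1, v2⟩ := V2a_mk O hk p0 p1 p2
  refine ⟨⟨v, v1, ⟨π, p0, v2⟩, ?_⟩, rfl⟩
  have h6 := V2b_res_lt v (rk_ne_top Set.univ)
    (IntermediateField.subset_adjoin _ _ (Set.mem_univ π)) (v2.trans_ne one_ne_zero)
  have h7 : ∀ i, 0 ≤ v (z i) := fun i =>
    hE ⟨z i, IntermediateField.subset_adjoin _ _ (Set.mem_range_self i)⟩
  have h8 := V2b_le_rk (s := Set.univ) (fun _ => trivial)
    (algebraicIndependent_iff.2 fun p hp => by_contra fun e => by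
      obtain ⟨a1, a2⟩ := v.res_aeval h7 p
      exact ((V2a_res_zero v a1).1 (a2.trans hp)).ne (hz p e))
  rw [V2b_univ, ← rn_cast (Set.univ : Set L), ← td, ← hm, Nat.cast_add, Nat.cast_one,
    ENat.add_le_add_iff_right ENat.one_ne_top] at h6
  rw [← hm, td, rn, le_antisymm h6 h8, ENat.toNat_natCast]

theorem exists_over [Fg k F] {ι : F →ₐ[k] L} (h : ¬ Tv ι ν.toVl)
    (hr : td k F ≤ rn k (ν.res '' Set.range ι) + 1) : ∃ c : Dv k F, Ov ι c.toVl ν.toVl := by
  obtain ⟨y, hy, hi⟩ := exists_indep (k := k) (ν.res '' Set.range ι)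
  have hy' : ∀ i, ∃ f, ν.res (ι f) = y i := fun i => by
    obtain ⟨_, ⟨f, rfl⟩, e⟩ := hy i
    exact ⟨f, e⟩
  choose z hz using hy'
  obtain rfl : (fun i => ν.res (ι (z i))) = y := funext hz
  obtain ⟨c, hc⟩ := exists_dv (k := k) (ν.O.comap (ι : F →+* L))
    (fun c => ((congrArg ν (ι.commutes c)).trans (ν.triv c)).ge)
    (fun e => h fun f => by
      have h1 : ∀ f, 0 ≤ ν (ι f) := fun f =>
        show f ∈ ν.O.comap (ι : F →+* L) from e ▸ ValuationSubring.mem_top f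
      have h2 := h1 f⁻¹
      rw [map_inv₀, ν.inv, neg_nonneg] at h2
      exact le_antisymm h2 (h1 f))
    (le_antisymm (rn_res_range ν h) hr) z fun p hp => by
      obtain ⟨a1, a2, -⟩ := V2b_lift ν.toVl hi hp
      rw [← comp_aeval_apply] at a1 a2
      refine V2a_one _ (fun e => a1 (by rw [e, map_zero])) a2.ge ?_
      change 0 ≤ ν (ι _)
      rw [map_inv₀, ν.inv, a2, neg_zero]
  exact ⟨c, fun f => by rw [← c.mem_O, hc]; rfl⟩

/-- A divisorial valuation centred on a given prime ideal of height one. -/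
theorem exists_dv_prime {σ : Type} [Finite σ] (z : σ → L)
    (p : Ideal (MvPolynomial σ k)) [p.IsPrime] (hp : ∀ f, aeval z f = 0 → f ∈ p)
    (hz : rn k (Set.range z) = td k L)
    (h : Algebra.trdeg k (MvPolynomial σ k ⧸ p) + 1 = td k L) :
    ∃ μ : Dv k L, (∀ s, 0 ≤ μ (z s)) ∧ ∀ f, μ.res (aeval z f) = 0 ↔ f ∈ p := by
  obtain ⟨O, h1, h2⟩ := V2a_place ((aeval z : MvPolynomial σ k →ₐ[k] L) : MvPolynomial σ k →+* L)
    p hp
  obtain ⟨J, x, hx⟩ := exists_isTranscendenceBasis' k (MvPolynomial σ k ⧸ p)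
  have h3 := hx.cardinalMk_eq_trdeg.symm ▸ h
  have : Finite J := Cardinal.lt_aleph0_iff_finite.1
    ((le_self_add.trans h3.le).trans_lt Cardinal.natCast_lt_aleph0)
  rw [← Nat.cast_card] at h3
  choose g hg using fun j => Ideal.Quotient.mkₐ_surjective k p (x j)
  let e := (Finite.equivFin J).symm
  obtain ⟨μ, rfl⟩ := exists_dv (k := k) O (fun c => (aeval z).commutes c ▸ h1 _)
    (fun e => by
      obtain rfl : p = RingHom.ker (aeval z : MvPolynomial σ k →ₐ[k] L) := by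
        refine le_antisymm (fun f hf => ?_) hp
        exact (O.mem_nonunits_iff_or.1 (O.mem_nonunits_iff.2 ((h2 f).2 hf))).resolve_right
          fun h => h (e ▸ ValuationSubring.mem_top _)
      rw [← rk_range_eq_trdeg, ← rn, hz] at h
      have h4 : td k L + 1 = td k L := by exact_mod_cast h
      omega)
    (m := Nat.card J) (by exact_mod_cast h3) (fun i => aeval z (g (e i))) fun q hq => by
      rw [← comp_aeval_apply]
      refine le_antisymm ((O.valuation_le_one_iff _).2 (h1 _)) (not_lt.1 fun h4 => hq ?_)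
      refine (hx.1.comp e e.injective).eq_zero_of_aeval_eq_zero q ?_
      have h5 := Ideal.Quotient.eq_zero_iff_mem.2 ((h2 _).1 h4)
      rw [← Ideal.Quotient.mkₐ_eq_mk k, comp_aeval_apply] at h5
      simpa only [hg, Function.comp_def] using h5
  refine ⟨μ, fun s => ?_, fun f => (V2a_res_zero μ.toVl (h1 f)).trans (h2 f)⟩
  simpa [← Vl.mem_O] using h1 (X s)

end Pool.Agent.Work.MP_ffcd14_ag.Uni
end

-- merged part: Pool.Agent.Work.MP_ffcd14_ag.Uni.V3
section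
/-! # Simple transcendental extensions, places, Gauss valuations -/

open MvPolynomial

namespace Pool.Agent.Work.MP_ffcd14_ag.Uni

universe u

variable {k F L L' L₁ L₂ W : Type u} [Field k] [Field F] [Field L] [Field L'] [Field L₁]
  [Field L₂] [Field W] [Algebra k F] [Algebra k L] [Algebra k L'] [Algebra k L₁] [Algebra k L₂]
  [Algebra k W]

/-- `L` is the field of rational functions in `t` over `F`. -/
structure Simp (ι : F →ₐ[k] L) (t : L) : Prop where
  tr : ∀ p : Polynomial F, p ≠ 0 → p.eval₂ (ι : F →+* L) t ≠ 0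
  gen : ∀ f : L, ∃ p q : Polynomial F, q ≠ 0 ∧
    f = p.eval₂ (ι : F →+* L) t / q.eval₂ (ι : F →+* L) t

theorem simp_ratFunc : Simp (IsScalarTower.toAlgHom k F (RatFunc F)) RatFunc.X := by
  have h : ∀ p : Polynomial F, p.eval₂ ((IsScalarTower.toAlgHom k F (RatFunc F) :
      F →ₐ[k] RatFunc F) : F →+* RatFunc F) RatFunc.X = algebraMap _ _ p :=
    RatFunc.aeval_X_left_eq_algebraMap
  refine ⟨fun p hp => ?_, fun f => ⟨f.num, f.denom, f.denom_ne_zero, ?_⟩⟩
  · rw [h]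
    exact RatFunc.algebraMap_ne_zero hp
  · rw [h, h, f.num_div_denom]

theorem V3_hom (σ : L →ₐ[k] L') (ι : F →ₐ[k] L) (t : L) (p : Polynomial F) :
    σ (p.eval₂ (ι : F →+* L) t) = p.eval₂ ((σ.comp ι : F →ₐ[k] L') : F →+* L') (σ t) :=
  Polynomial.hom_eval₂ p (ι : F →+* L) (σ : L →+* L') t

theorem V3_tr {ι : F →ₐ[k] L} {t : L} (h : ¬ IsAlgebraic (Algebra.adjoin k (Set.range ι)) t)
    (p : Polynomial F) (hp : p ≠ 0) : p.eval₂ (ι : F →+* L) t ≠ 0 :=
  fun e => h ((V2a_alg ι t).2 ⟨p, hp, e⟩)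

theorem V3_simp {ι : F →ₐ[k] L} {t : L} (h1 : ¬ IsAlgebraic (Algebra.adjoin k (Set.range ι)) t)
    (h2 : IntermediateField.adjoin k (insert t (Set.range ι)) = ⊤) : Simp ι t := by
  refine ⟨V3_tr h1, fun f => ?_⟩
  obtain ⟨p, q, e⟩ := (V2a_mem ι t f).1 (h2 ▸ IntermediateField.mem_top)
  rcases eq_or_ne q 0 with rfl | hq
  · exact ⟨0, 1, one_ne_zero, by simp [e]⟩
  · exact ⟨p, q, hq, e⟩

theorem V3_tr_of_rn [Fg k L] {ι : F →ₐ[k] L} {t : L}
    (h : td k F + 1 ≤ rn k (insert t (Set.range ι))) :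
    ¬ IsAlgebraic (Algebra.adjoin k (Set.range ι)) t := fun e => by
  have h1 : rn k (insert t (Set.range ι)) ≤ rn k (Set.range ι) := rn_le_of_alg fun y hy =>
    hy.elim (fun a => a ▸ e) V2b_self
  rw [rn_range] at h1
  omega

theorem simp_of_rn [Fg k L] {ι : F →ₐ[k] L} {t : L}
    (h : IntermediateField.adjoin k (insert t (Set.range ι)) = ⊤) (hd : td k L = td k F + 1) :
    Simp ι t := by
  exact V3_simp (V3_tr_of_rn (by rw [rn_gen h, hd])) h

namespace Simp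

variable {ι : F →ₐ[k] L} {t : L} (h : Simp ι t)
include h

theorem sub_ne (s : F) : t - ι s ≠ 0 := by
  simpa using h.tr _ (Polynomial.X_sub_C_ne_zero s)

theorem adjoin_eq : IntermediateField.adjoin k (insert t (Set.range ι)) = ⊤ := by
  refine eq_top_iff.2 fun f _ => ?_
  obtain ⟨p, q, -, e⟩ := h.gen f
  exact (V2a_mem ι t f).2 ⟨p, q, e⟩

theorem fg [Fg k F] : Fg k L := by
  classical
  obtain ⟨g, hg⟩ := Fg.out (k := k) (L := F)
  refine ⟨insert t (g.image ι), eq_top_iff.2 (h.adjoin_eq.ge.trans ?_)⟩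
  rw [Finset.coe_insert, Finset.coe_image, IntermediateField.adjoin_le_iff]
  refine Set.insert_subset (IntermediateField.subset_adjoin k _ (Set.mem_insert _ _)) ?_
  rintro _ ⟨f, rfl⟩
  refine IntermediateField.adjoin.mono _ _ _ (Set.subset_insert _ _) ?_
  rw [← IntermediateField.adjoin_map, hg]
  exact ⟨f, trivial, rfl⟩

theorem V3_not_alg : ¬ IsAlgebraic (Algebra.adjoin k (Set.range ι)) t := fun e => by
  obtain ⟨p, hp, e⟩ := (V2a_alg ι t).1 e
  exact h.tr p hp e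

theorem V3_ne : t ≠ 0 := by
  simpa using h.sub_ne 0

theorem V3_of_mem {t' : L} (ht : t ∈ IntermediateField.adjoin k (insert t' (Set.range ι))) :
    Simp ι t' := by
  refine V3_simp (fun e => h.V3_not_alg (V2b_closure (fun y hy => ?_) ht))
    (eq_top_iff.2 (h.adjoin_eq.ge.trans (IntermediateField.adjoin_le_iff.2 ?_)))
  · exact hy.elim (fun a => a ▸ e) V2b_self
  · exact Set.insert_subset ht
      ((Set.subset_insert _ _).trans (IntermediateField.subset_adjoin k _))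

theorem td_eq [Fg k F] : td k L = td k F + 1 := by
  have := h.fg
  have h1 := rk_insert h.V3_not_alg
  rw [← rn_cast, ← rn_cast, rn_gen h.adjoin_eq, rn_range] at h1
  exact_mod_cast h1

theorem affine (s : F) {a : F} (ha : a ≠ 0) : Simp ι ((t - ι s) / ι a) := by
  refine h.V3_of_mem ((V2a_mem _ _ _).2 ⟨Polynomial.X * Polynomial.C a + Polynomial.C s, 1, ?_⟩)
  simp [mul_div_cancel₀ _ ((map_ne_zero ι).2 ha)]

theorem inv : Simp ι t⁻¹ := by
  exact h.V3_of_mem ((V2a_mem _ _ _).2 ⟨1, Polynomial.X, by simp⟩)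

theorem neg : Simp ι (-t) := by
  exact h.V3_of_mem ((V2a_mem _ _ _).2 ⟨-Polynomial.X, 1, by simp⟩)

theorem hom_ext {φ ψ : L →ₐ[k] L'} (h1 : ∀ f, φ (ι f) = ψ (ι f)) (h2 : φ t = ψ t) : φ = ψ := by
  refine AlgHom.ext fun f => ?_
  obtain ⟨p, q, -, rfl⟩ := h.gen f
  have h3 : φ.comp ι = ψ.comp ι := AlgHom.ext h1
  rw [map_div₀, map_div₀, V3_hom, V3_hom, V3_hom, V3_hom, h2, h3]

theorem V3_lift (ι' : F →ₐ[k] L') {t' : L'}
    (h' : ∀ p : Polynomial F, p ≠ 0 → p.eval₂ (ι' : F →+* L') t' ≠ 0) :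
    ∃ σ : L →ₐ[k] L', σ.comp ι = ι' ∧ σ t = t' := by
  let _ : Algebra (Polynomial F) L := (Polynomial.eval₂RingHom (ι : F →+* L) t).toAlgebra
  have : FaithfulSMul (Polynomial F) L := (faithfulSMul_iff_algebraMap_injective _ _).2
    ((injective_iff_map_eq_zero _).2 fun p hp => by_contra fun e => h.tr p e hp)
  have : IsFractionRing (Polynomial F) L := IsFractionRing.of_field _ _ fun f => by
    obtain ⟨p, q, -, e⟩ := h.gen f
    exact ⟨p, q, e⟩
  have hg : Function.Injective (Polynomial.eval₂RingHom (ι' : F →+* L') t') :=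
    (injective_iff_map_eq_zero _).2 fun p hp => by_contra fun e => h' p e hp
  have h1 : ∀ p : Polynomial F, (IsFractionRing.lift hg : L →+* L') (p.eval₂ (ι : F →+* L) t) =
      p.eval₂ (ι' : F →+* L') t' := IsFractionRing.lift_algebraMap hg
  have h2 : ∀ f, (IsFractionRing.lift hg : L →+* L') (ι f) = ι' f := fun f => by
    have h3 := h1 (Polynomial.C f)
    rwa [Polynomial.eval₂_C, Polynomial.eval₂_C] at h3
  have h3 : ∀ c : k, (IsFractionRing.lift hg : L →+* L') (algebraMap k L c) = algebraMap k L' c :=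
    fun c => by rw [← ι.commutes c, h2, ι'.commutes c]
  have h4 : (IsFractionRing.lift hg : L →+* L') t = t' := by
    have h4 := h1 Polynomial.X
    rwa [Polynomial.eval₂_X, Polynomial.eval₂_X] at h4
  exact ⟨⟨IsFractionRing.lift hg, h3⟩, AlgHom.ext h2, h4⟩

theorem iso {ι' : F →ₐ[k] L'} {t' : L'} (h' : Simp ι' t') :
    ∃ σ : L →ₐ[k] L', Function.Bijective σ ∧ σ.comp ι = ι' ∧ σ t = t' := by
  obtain ⟨σ, h1, h2⟩ := h.V3_lift ι' h'.tr
  refine ⟨σ, ⟨σ.toRingHom.injective, fun f => ?_⟩, h1, h2⟩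
  obtain ⟨p, q, -, rfl⟩ := h'.gen f
  exact ⟨p.eval₂ (ι : F →+* L) t / q.eval₂ (ι : F →+* L) t,
    by rw [map_div₀, V3_hom, V3_hom, h1, h2]⟩

/-- The place `t = 0`. -/
theorem place [Fg k F] : ∃ (ν : Dv k L) (h0 : Tv ι ν.toVl), ν t = 1 ∧
    Function.Bijective h0.tmap ∧ ∀ μ : Dv k L, Tv ι μ.toVl → 0 < μ t → μ = ν := by
  have := RingHom.ker_isPrime (Polynomial.constantCoeff (R := F))
  obtain ⟨O, h1, h2⟩ := V2a_place (Polynomial.eval₂RingHom (ι : F →+* L) t)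
    (RingHom.ker (Polynomial.constantCoeff (R := F))) fun p hp => by
      rw [show p = 0 from by_contra fun e => h.tr p e hp]
      exact zero_mem _
  have h3 : ∀ c, (ι : F →+* L) c ∈ O := fun c => by simpa using h1 (Polynomial.C c)
  have h4 : O.valuation t < 1 := by simpa using h2 Polynomial.X
  obtain ⟨v, rfl, v1, v2⟩ := V2a_mk (k := k) O (fun c => ι.commutes c ▸ h3 _) h.V3_ne h4
    fun y hy => by
      obtain ⟨p, q, -, rfl⟩ := h.gen y
      exact V2a_val O h3 h.V3_ne h4 hy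
  have h5 : Tv ι v := fun f => le_antisymm (by
    have h6 : 0 ≤ v (ι f⁻¹) := h3 _
    rwa [map_inv₀, v.inv, neg_nonneg] at h6) (h3 f)
  have h6 : 0 < v t := v2 ▸ one_pos
  have h7 : Function.Surjective h5.tmap := fun y => by
    obtain ⟨x, -, rfl⟩ := v.res_surj y
    obtain ⟨p, q, -, rfl⟩ := h.gen x
    obtain ⟨d, hd⟩ := V2a_res_triv h5 h6 p q
    exact ⟨d, (h5.tmap_apply d).trans hd.symm⟩
  refine ⟨⟨v, v1, ⟨t, h.V3_ne, v2⟩, ?_⟩, h5, v2, ⟨h5.tmap.toRingHom.injective, h7⟩,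
    fun μ m1 m2 => Dv.ext_le fun x hx => ?_⟩
  · rw [h.td_eq, ← rn_range h5.tmap, h7.range_eq, td]
  · rcases eq_or_ne x 0 with rfl | x0
    · exact v.zero.ge
    obtain ⟨p, q, -, rfl⟩ := h.gen x
    obtain ⟨n, c, a, b, hc, e⟩ := V2a_nf (ι : F →+* L) h.V3_ne (V2a_ne x0).1 (V2a_ne x0).2
    rw [(V2a_nfv m1 m2 n hc a b e).1] at hx
    exact (mul_nonneg ((mul_nonneg_iff_of_pos_right m2).1 hx) h6.le).trans_eq
      (V2a_nfv h5 h6 n hc a b e).1.symm

end Simp

/-- `W` is the compositum `F(u₁, u₂)` of `L₁ = F(u₁)` and `L₂ = F(u₂)`. -/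
structure Dbl (ι₁ : F →ₐ[k] L₁) (u₁ : L₁) (ι₂ : F →ₐ[k] L₂) (u₂ : L₂) (j₁ : L₁ →ₐ[k] W)
    (j₂ : L₂ →ₐ[k] W) : Prop where
  one : Simp ι₁ u₁
  two : Simp ι₂ u₂
  comm : j₁.comp ι₁ = j₂.comp ι₂
  s₁ : Simp j₁ (j₂ u₂)
  s₂ : Simp j₂ (j₁ u₁)

theorem Dbl.symm {ι₁ : F →ₐ[k] L₁} {u₁ : L₁} {ι₂ : F →ₐ[k] L₂} {u₂ : L₂} {j₁ : L₁ →ₐ[k] W}
    {j₂ : L₂ →ₐ[k] W} (h : Dbl ι₁ u₁ ι₂ u₂ j₁ j₂) : Dbl ι₂ u₂ ι₁ u₁ j₂ j₁ :=
  ⟨h.two, h.one, h.comm.symm, h.s₂, h.s₁⟩

theorem Dbl.of_simp [Fg k F] {ι₁ : F →ₐ[k] L₁} {u₁ : L₁} {ι₂ : F →ₐ[k] L₂} {u₂ : L₂}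
    {j₁ : L₁ →ₐ[k] W} {j₂ : L₂ →ₐ[k] W} (h₁ : Simp ι₁ u₁) (h₂ : Simp ι₂ u₂) (hc : j₁.comp ι₁ = j₂.comp ι₂)
    (h : Simp j₁ (j₂ u₂)) : Dbl ι₁ u₁ ι₂ u₂ j₁ j₂ := by
  have := h₁.fg
  have := h.fg
  refine ⟨h₁, h₂, hc, h, simp_of_rn (eq_top_iff.2 (h.adjoin_eq.ge.trans
    (IntermediateField.adjoin_le_iff.2 (Set.insert_subset (IntermediateField.subset_adjoin k _
      (Set.mem_insert_of_mem _ (Set.mem_range_self u₂))) ?_))))
    (by rw [h.td_eq, h₁.td_eq, h₂.td_eq])⟩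
  rintro _ ⟨x, rfl⟩
  have h1 : j₁ x ∈ (IntermediateField.adjoin k (insert u₁ (Set.range ι₁))).map j₁ :=
    ⟨x, h₁.adjoin_eq ▸ IntermediateField.mem_top, rfl⟩
  rw [IntermediateField.adjoin_map, Set.image_insert_eq] at h1
  refine IntermediateField.adjoin.mono _ _ _ (Set.insert_subset_insert ?_) h1
  rintro _ ⟨_, ⟨f, rfl⟩, rfl⟩
  exact ⟨ι₂ f, (DFunLike.congr_fun hc f).symm⟩

theorem exists_dbl [Fg k F] {ι₁ : F →ₐ[k] L₁} {u₁ : L₁} {ι₂ : F →ₐ[k] L₂} {u₂ : L₂}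
    (h₁ : Simp ι₁ u₁) (h₂ : Simp ι₂ u₂) : ∃ (W : Type u) (_ : Field W) (_ : Algebra k W) (j₁ : L₁ →ₐ[k] W)
      (j₂ : L₂ →ₐ[k] W), Dbl ι₁ u₁ ι₂ u₂ j₁ j₂ := by
  obtain ⟨j, h1, h2⟩ := h₂.V3_lift ((IsScalarTower.toAlgHom k L₁ (RatFunc L₁)).comp ι₁)
    (t' := RatFunc.X) fun p hp => by
      have h3 := (simp_ratFunc (k := k) (F := L₁)).tr (p.map (ι₁ : F →+* L₁))
        (Polynomial.map_ne_zero hp)
      rwa [Polynomial.eval₂_map] at h3
  exact ⟨RatFunc L₁, inferInstance, inferInstance, _, j,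
    Dbl.of_simp h₁ h₂ h1.symm (h2 ▸ simp_ratFunc)⟩

theorem Dbl.swap {ι : F →ₐ[k] L} {u : L} {j₁ j₂ : L →ₐ[k] W} (h : Dbl ι u ι u j₁ j₂) :
    ∃ σ : W →ₐ[k] W, Function.Bijective σ ∧ σ.comp j₁ = j₂ ∧ σ.comp j₂ = j₁ := by
  obtain ⟨σ, h1, h2, h3⟩ := h.s₁.iso h.s₂
  refine ⟨σ, h1, h2, h.one.hom_ext (fun f => ?_) h3⟩
  have h4 : j₁ (ι f) = j₂ (ι f) := DFunLike.congr_fun h.comm f
  rw [AlgHom.comp_apply, ← h4, ← AlgHom.comp_apply, h2, h4]

/-- `ν` is the Gauss extension of `c` for the variable `u`. -/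
structure Gs (ι : F →ₐ[k] L) (u : L) (c : Dv k F) (ν : Dv k L) : Prop where
  ov : Ov ι c.toVl ν.toVl
  val : ∀ f, ν (ι f) = c f
  zero : ν u = 0
  simp : Simp ov.kmap (ν.res u)

theorem V3_hψ {ι : F →ₐ[k] L} {c : Vl k F} {v : Vl k L} (ho : Ov ι c v) (f : F) :
    ∃ a, (ho.kmap : c.κ →+* v.κ) a = v.res ((ι : F →+* L) f) :=
  ⟨c.res f, ho.kmap_res f⟩

theorem V3_zero {K : Type u} [Field K] {v : Vl k L} {ψ : K →+* v.κ} {u : L}
    (ht : ∀ q : Polynomial K, q ≠ 0 → q.eval₂ ψ (v.res u) ≠ 0) : v u = 0 := by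
  have h1 := ht _ Polynomial.X_ne_zero
  rw [Polynomial.eval₂_X, Ne, v.res_eq_zero, not_or, not_not] at h1
  exact h1.2

theorem V3_res {ι : F →ₐ[k] L} {u : L} (h : Simp ι u) {c : Vl k F} {v : Vl k L} (ho : Ov ι c v)
    (ht : ∀ q : Polynomial c.κ, q ≠ 0 → q.eval₂ (ho.kmap : c.κ →+* v.κ) (v.res u) ≠ 0) :
    Simp ho.kmap (v.res u) := by
  refine ⟨ht, fun y => ?_⟩
  obtain ⟨x, -, rfl⟩ := v.res_surj y
  obtain ⟨p, q, -, rfl⟩ := h.gen x
  exact V2b_res v _ _ (V3_hψ ho) (V3_zero ht).ge ht p q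

theorem V3_gs {ι : F →ₐ[k] L} {u : L} (h : Simp ι u) {c : Dv k F} {ν : Dv k L}
    (ho : Ov ι c.toVl ν.toVl)
    (ht : ∀ q : Polynomial c.κ, q ≠ 0 → q.eval₂ (ho.kmap : c.κ →+* ν.κ) (ν.res u) ≠ 0) :
    Gs ι u c ν := by
  refine ⟨ho, ?_, V3_zero ht, V3_res h ho ht⟩
  obtain ⟨e, he, hv⟩ := Dv.ov_e ho
  obtain ⟨p, q, -, e1⟩ := h.gen ν.π
  obtain ⟨hp, hq⟩ := V2a_ne (e1 ▸ ν.π_ne)
  obtain ⟨i, -, a1, a2, -⟩ := V2b_val ν.toVl _ _ (V3_hψ ho) (V3_zero ht).ge ht hp
  obtain ⟨j, -, b1, b2, -⟩ := V2b_val ν.toVl _ _ (V3_hψ ho) (V3_zero ht).ge ht hq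
  have h1 := ν.v_π
  rw [e1, ν.div a1 b1, a2.trans (hv _), b2.trans (hv _), ← c.z_cast, ← c.z_cast, ← mul_sub] at h1
  have h2 : (e : ℤ) * (c.z (p.coeff i) - c.z (q.coeff j)) = 1 := by exact_mod_cast h1
  have h3 : e = 1 := by exact_mod_cast Int.eq_one_of_mul_eq_one_right (Int.natCast_nonneg e) h2
  intro f
  rw [hv, h3, Nat.cast_one, one_mul]

theorem V3_eval (v : Vl k L) {R : Type*} [CommRing R] {φ : R →+* L} {ψ : R →+* v.κ}
    (h1 : ∀ a, 0 ≤ v (φ a)) (h2 : ∀ a, v.res (φ a) = ψ a) {u : L} (hu : 0 ≤ v u)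
    (p : Polynomial R) : v.res (p.eval₂ φ u) = p.eval₂ ψ (v.res u) := by
  have h3 : ∀ i : ℕ, 0 ≤ v (u ^ i) := fun i => pow_mem (v.mem_O.2 hu) i
  rw [Polynomial.eval₂_eq_sum_range, Polynomial.eval₂_eq_sum_range,
    (V2b_sum v _ fun i _ => mul_mem (s := v.O) (h1 _) (h3 i)).2]
  exact Finset.sum_congr rfl fun i _ => by rw [v.res_mul (h1 _) (h3 i), h2, v.res_pow hu]

theorem V3_prim (c : Vl k F) {p : Polynomial F} (hp : p ≠ 0) : ∃ (a : F) (i : ℕ)
    (q : Polynomial c.O), a ≠ 0 ∧ q.coeff i = 1 ∧ p = Polynomial.C a * q.map c.O.subtype := by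
  obtain ⟨i, hi, hmin⟩ := p.support.exists_min_image (fun j => c (p.coeff j))
    (Polynomial.support_nonempty.2 hp)
  rw [Polynomial.mem_support_iff] at hi
  obtain ⟨q, hq⟩ := (Polynomial.mem_lifts (f := c.O.subtype) (Polynomial.C (p.coeff i)⁻¹ * p)).1
    ((Polynomial.lifts_iff_coeff_lifts _).2 fun j => ⟨⟨(p.coeff i)⁻¹ * p.coeff j, by
      rw [Vl.mem_O]
      rcases eq_or_ne (p.coeff j) 0 with e | e
      · rw [e, mul_zero, c.zero]
      · rw [c.mul _ _ (inv_ne_zero hi) e, c.inv, neg_add_eq_sub, sub_nonneg]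
        exact hmin j (Polynomial.mem_support_iff.2 e)⟩, (Polynomial.coeff_C_mul p).symm⟩)
  refine ⟨p.coeff i, i, q, hi, Subtype.ext ?_, ?_⟩
  · have h1 := congrArg (fun r => r.coeff i) hq
    simpa [hi] using h1
  · rw [hq, ← mul_assoc, ← map_mul, mul_inv_cancel₀ hi, map_one, one_mul]

theorem Simp.gauss [Fg k F] {ι : F →ₐ[k] L} {u : L} (h : Simp ι u) (c : Dv k F) :
    ∃ ν, Gs ι u c ν := by
  let ρ : c.O →+* c.κ := IsLocalRing.residue c.O
  have hρ : ∀ a : c.O, c.res a = ρ a := fun a => dif_pos a.2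
  have := RingHom.ker_isPrime (Polynomial.mapRingHom ρ)
  obtain ⟨O, h1, h2⟩ := V2a_place (Polynomial.eval₂RingHom ((ι : F →+* L).comp c.O.subtype) u)
    (RingHom.ker (Polynomial.mapRingHom ρ)) fun p hp => by
      rw [Polynomial.coe_eval₂RingHom, ← Polynomial.eval₂_map] at hp
      rw [(Polynomial.map_eq_zero_iff Subtype.val_injective).1 (by_contra fun e => h.tr _ e hp)]
      exact zero_mem _
  simp only [Polynomial.coe_eval₂RingHom, RingHom.mem_ker, Polynomial.coe_mapRingHom] at h1 h2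
  have h3 : ∀ f, 0 ≤ c f → ι f ∈ O := fun f hf => by simpa using h1 (Polynomial.C ⟨f, hf⟩)
  have h4 : ∀ f, 0 < c f → O.valuation (ι f) < 1 := fun f hf => by
    have h5 := (h2 (Polynomial.C ⟨f, hf.le⟩)).2 (by
      rw [Polynomial.map_C, ← hρ, c.res_eq_zero.2 (Or.inr hf.ne'), map_zero])
    simpa using h5
  have h5 : ∀ q : Polynomial c.O, q.map ρ ≠ 0 →
      O.valuation (q.eval₂ ((ι : F →+* L).comp c.O.subtype) u) = 1 := fun q hq =>
    le_antisymm ((O.valuation_le_one_iff _).2 (h1 q)) (not_lt.1 (mt (h2 q).1 hq))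
  have p0 : ι c.π ≠ 0 := (map_ne_zero ι).2 c.π_ne
  have h6 : ∀ p : Polynomial F, p ≠ 0 → ∃ n : ℤ,
      O.valuation (p.eval₂ (ι : F →+* L) u) = O.valuation (ι c.π) ^ n := fun p hp => by
    obtain ⟨a, i, q, ha, hi, rfl⟩ := V3_prim c.toVl hp
    have a1 := zpow_ne_zero (c.z a) c.π_ne
    have a2 : c (a / c.π ^ c.z a) = 0 := by
      rw [c.div ha a1, c.zpow, c.v_π, mul_one, c.z_cast, sub_self]
    have a3 := V2a_one O ((map_ne_zero ι).2 (div_ne_zero ha a1)) (h3 _ a2.ge)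
      (map_inv₀ ι _ ▸ h3 _ (by rw [c.inv, a2, neg_zero]))
    rw [map_div₀, map_div₀, map_zpow₀, map_zpow₀,
      div_eq_one_iff_eq (zpow_ne_zero _ ((map_ne_zero _).2 p0))] at a3
    refine ⟨c.z a, ?_⟩
    rw [Polynomial.eval₂_mul, Polynomial.eval₂_C, Polynomial.eval₂_map, map_mul, h5 q fun e => by
      simpa [hi] using congrArg (fun r => r.coeff i) e, mul_one]
    exact a3
  obtain ⟨v, rfl, v1, v2⟩ := V2a_mk (k := k) O (fun a => ι.commutes a ▸ h3 _ (c.triv a).ge) p0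
    (h4 _ (c.v_π ▸ one_pos)) fun y hy => by
      obtain ⟨p, q, -, rfl⟩ := h.gen y
      obtain ⟨m, hm⟩ := h6 p (V2a_ne hy).1
      obtain ⟨n, hn⟩ := h6 q (V2a_ne hy).2
      exact ⟨m - n, by rw [map_div₀, hm, hn, zpow_sub₀ ((map_ne_zero _).2 p0)]⟩
  have ho : Ov ι c.toVl v := fun f => ⟨fun hf => not_lt.1 fun e => by
    rcases (V2a_lt_one v _).1 (h4 f⁻¹ (by rwa [c.inv, neg_pos])) with t | t
    · rw [map_eq_zero, inv_eq_zero] at t
      exact e.ne (t ▸ c.zero)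
    · rw [map_inv₀, v.inv, neg_pos] at t
      exact t.not_ge hf, h3 f⟩
  have ht : ∀ q : Polynomial c.κ, q ≠ 0 → q.eval₂ (ho.kmap : c.κ →+* v.κ) (v.res u) ≠ 0 := by
    intro q hq e
    obtain ⟨q, rfl⟩ := Polynomial.map_surjective ρ IsLocalRing.residue_surjective q
    rw [Polynomial.eval₂_map, ← V3_eval v (φ := (ι : F →+* L).comp c.O.subtype)
      (fun a => h3 a a.2) (fun a => (ho.kmap_res a).symm.trans (congrArg ho.kmap (hρ a)))
      (by simpa [← Vl.mem_O] using h1 Polynomial.X)] at e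
    exact ((V2a_res_zero v (h1 q)).1 e).ne (h5 q hq)
  exact ⟨⟨v, v1, ⟨_, p0, v2⟩, by rw [(V3_res h ho ht).td_eq, c.dim, h.td_eq]⟩, V3_gs h ho ht⟩

/-- An extension in which the residue of `u` is transcendental is the Gauss extension. -/
theorem Simp.gs_of_tr [Fg k F] {ι : F →ₐ[k] L} {u : L} (h : Simp ι u) {c : Dv k F} {ν : Dv k L}
    (ho : Ov ι c.toVl ν.toVl)
    (ht : rn k (insert (ν.res u) (Set.range ho.kmap)) = td k F) : Gs ι u c ν := by
  have := h.fg
  exact V3_gs h ho (V3_tr (V3_tr_of_rn (c.dim.trans ht.symm).le))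

theorem Gs.poly {ι : F →ₐ[k] L} {u : L} {c : Dv k F} {ν : Dv k L} (h : Gs ι u c ν)
    {p : Polynomial F} (hp : p ≠ 0) : ∃ i, p.coeff i ≠ 0 ∧
      ν (p.eval₂ (ι : F →+* L) u) = c (p.coeff i) ∧
      ∀ j, p.coeff j ≠ 0 → c (p.coeff i) ≤ c (p.coeff j) := by
  obtain ⟨i, h1, -, h2, h3⟩ := V2b_val ν.toVl _ _ (V3_hψ h.ov) h.zero.ge h.simp.tr hp
  exact ⟨i, h1, h2.trans (h.val _), fun j hj => (h.val _).ge.trans ((h3 j hj).trans (h.val _).le)⟩

theorem Gs.lin {ι : F →ₐ[k] L} {u : L} {c : Dv k F} {ν : Dv k L} (h : Gs ι u c ν) {a b : F}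
    (ha : a ≠ 0) (hb : b ≠ 0) : ν (ι a * u + ι b) = min (c a) (c b) := by
  have e0 : (Polynomial.C a * Polynomial.X + Polynomial.C b).coeff 0 = b := by simp
  have e1 : (Polynomial.C a * Polynomial.X + Polynomial.C b).coeff 1 = a := by simp
  obtain ⟨i, h1, h2, h3⟩ := h.poly (p := Polynomial.C a * Polynomial.X + Polynomial.C b)
    fun e => ha (by rw [← e1, e, Polynomial.coeff_zero])
  have h4 := h3 0 (e0.trans_ne hb)
  have h5 := h3 1 (e1.trans_ne ha)
  rw [e0] at h4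
  rw [e1] at h5
  rw [Polynomial.eval₂_add, Polynomial.eval₂_mul, Polynomial.eval₂_C, Polynomial.eval₂_C,
    Polynomial.eval₂_X] at h2
  refine h2.trans (le_antisymm (le_min h5 h4) ?_)
  rcases i with _ | _ | i
  · rw [e0]
    exact min_le_right _ _
  · rw [zero_add, e1]
    exact min_le_left _ _
  · simp at h1

theorem Gs.unique {ι : F →ₐ[k] L} {u : L} (hu : Simp ι u) {c : Dv k F} {ν ν' : Dv k L}
    (h : Gs ι u c ν) (h' : Gs ι u c ν') : ν = ν' := by
  have key : ∀ p : Polynomial F, p ≠ 0 →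
      ν (p.eval₂ (ι : F →+* L) u) = ν' (p.eval₂ (ι : F →+* L) u) := fun p hp => by
    obtain ⟨i, a1, a2, a3⟩ := h.poly hp
    obtain ⟨j, b1, b2, b3⟩ := h'.poly hp
    rw [a2, b2]
    exact le_antisymm (a3 j b1) (b3 i a1)
  refine Dv.ext' fun x => ?_
  rcases eq_or_ne x 0 with rfl | x0
  · exact ν.zero.trans ν'.zero.symm
  obtain ⟨p, q, hq, rfl⟩ := hu.gen x
  have hp := (V2a_ne x0).1
  rw [ν.div (hu.tr p hp) (hu.tr q hq), ν'.div (hu.tr p hp) (hu.tr q hq), key p hp, key q hq]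

/-- The Gauss extension depends only on the disc. -/
theorem Gs.unit {ι : F →ₐ[k] L} {u : L} {c : Dv k F} {ν : Dv k L} (h : Gs ι u c ν) {a : F}
    (ha : a ≠ 0) (h0 : c a = 0) : Gs ι (u / ι a) c ν := by
  have h1 : ν (ι a) = 0 := (h.val a).trans h0
  have h2 : u ≠ 0 := fun e => h.simp.V3_ne (by rw [e, ν.res_zero])
  refine ⟨h.ov, h.val, ?_, ?_⟩
  · rw [ν.div h2 ((map_ne_zero ι).2 ha), h.zero, h1, sub_zero]
  · have h3 := h.simp.affine 0 (a := c.res a) fun e => (c.res_eq_zero.1 e).elim ha fun t => t h0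
    rwa [map_zero, sub_zero, h.ov.kmap_res, ← ν.res_div u h1] at h3

/-- The double Gauss valuation: it is a Gauss extension on both sides. -/
theorem Dbl.gauss [Fg k F] {ι₁ : F →ₐ[k] L₁} {u₁ : L₁} {ι₂ : F →ₐ[k] L₂} {u₂ : L₂}
    {j₁ : L₁ →ₐ[k] W} {j₂ : L₂ →ₐ[k] W} (h : Dbl ι₁ u₁ ι₂ u₂ j₁ j₂) {c : Dv k F} {ν₁ : Dv k L₁}
    {ν₂ : Dv k L₂} (h₁ : Gs ι₁ u₁ c ν₁) (h₂ : Gs ι₂ u₂ c ν₂) :
    ∃ (ν : Dv k W) (g₁ : Gs j₁ (j₂ u₂) ν₁ ν) (g₂ : Gs j₂ (j₁ u₁) ν₂ ν),
      Dbl h₁.ov.kmap (ν₁.res u₁) h₂.ov.kmap (ν₂.res u₂) g₁.ov.kmap g₂.ov.kmap := by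
  have := h.one.fg
  obtain ⟨ν, g₁⟩ := h.s₁.gauss ν₁
  have key : ∀ p : Polynomial F, p ≠ 0 →
      ν (j₂ (p.eval₂ (ι₂ : F →+* L₂) u₂)) = ν₂ (p.eval₂ (ι₂ : F →+* L₂) u₂) := fun p hp => by
    obtain ⟨i, a1, a2, a3⟩ := g₁.poly (p := p.map (ι₁ : F →+* L₁)) (Polynomial.map_ne_zero hp)
    obtain ⟨j, b1, b2, b3⟩ := h₂.poly hp
    simp only [Polynomial.coeff_map, Polynomial.eval₂_map, RingHom.coe_coe, map_ne_zero,
      h₁.val] at a1 a2 a3
    rw [V3_hom, ← h.comm, b2]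
    exact a2.trans (le_antisymm (a3 j b1) (b3 i a1))
  have hv : ∀ x, ν (j₂ x) = ν₂ x := fun x => by
    rcases eq_or_ne x 0 with rfl | x0
    · rw [map_zero]
      exact ν.zero.trans ν₂.zero.symm
    obtain ⟨p, q, hq, rfl⟩ := h.two.gen x
    have hp := (V2a_ne x0).1
    rw [map_div₀, ν.div ((map_ne_zero j₂).2 (h.two.tr p hp)) ((map_ne_zero j₂).2 (h.two.tr q hq)),
      ν₂.div (h.two.tr p hp) (h.two.tr q hq), key p hp, key q hq]
  have ho : Ov j₂ ν₂.toVl ν.toVl := fun x => by rw [hv]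
  have hd : Dbl h₁.ov.kmap (ν₁.res u₁) h₂.ov.kmap (ν₂.res u₂) g₁.ov.kmap ho.kmap := by
    refine Dbl.of_simp h₁.simp h₂.simp (AlgHom.ext fun y => ?_) (ho.kmap_res u₂ ▸ g₁.simp)
    obtain ⟨f, -, rfl⟩ := c.res_surj y
    rw [AlgHom.comp_apply, AlgHom.comp_apply, h₁.ov.kmap_res, h₂.ov.kmap_res, g₁.ov.kmap_res,
      ho.kmap_res]
    exact congrArg ν.res (DFunLike.congr_fun h.comm f)
  exact ⟨ν, g₁, ⟨ho, hv, (g₁.val u₁).trans h₁.zero, g₁.ov.kmap_res u₁ ▸ hd.s₂⟩, hd⟩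

end Pool.Agent.Work.MP_ffcd14_ag.Uni
end

-- merged part: Pool.Agent.Work.MP_ffcd14_ag.Uni.V4b
section
/-! # Points with coordinates in a function field and their reductions -/

open MvPolynomial

namespace Pool.Agent.Work.MP_ffcd14_ag.Uni

universe u

variable {k F L : Type u} [Field k] [Field F] [Field L] [Algebra k F] [Algebra k L] {P P' Q : Amb}

/-- No block of coordinates is zero. -/
def NZ (w : P.V → L) : Prop := ∀ i, ∃ s, w ⟨i, s⟩ ≠ 0

/-- The linear system spanned by a block of coordinates. -/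
noncomputable def blk (k : Type u) [Field k] [Algebra k L] (w : P.V → L) (i : P.ι) : FD k L :=
  FD.sp fun s => w ⟨i, s⟩

/-- The linear system of the monomials of degree `a`. -/
noncomputable def sys (k : Type u) [Field k] [Algebra k L] (w : P.V → L) (a : P.ι →₀ ℕ) :
    FD k L := a.prod fun i n => blk k w i ^ n

/-- The reduction of a point. -/
noncomputable def rpt (ν : Dv k L) (w : P.V → L) : P.V → ν.κ :=
  fun s => ν.res (w s / ν.π ^ ν.mz (blk k w s.1))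

/-- `w` is a point of the closure of `T`. -/
structure OnS (T : Set (P.Pt k)) (w : P.V → L) : Prop where
  nz : NZ w
  van : ∀ f a, IsForm f a → Van T f → aeval w f = 0

theorem NZ.elim {w : P.V → L} {u : Q.V → L} (hw : NZ w) (hu : NZ u) : NZ (Amb.elim w u) := by
  rintro (i | j)
  · exact hw i
  · exact hu j

theorem V4b_onto {w : P'.V → L} (hw : NZ w) (β : Crd k P P') (i : P.ι) (t : P'.σ (β.ψ i)) :
    ∃ s, β.ε ⟨i, s⟩ = ⟨β.ψ i, t⟩ := by
  classical
  obtain ⟨x, μ, -, hx⟩ := exists_pt (k := k) (P := P')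
    (fun s => if s.1 = β.ψ i ∧ s ≠ ⟨β.ψ i, t⟩ then 0 else 1) fun j => by
      by_cases h : j = β.ψ i
      · subst h
        exact ⟨t, by simp⟩
      · exact ⟨(hw j).choose, by simp [h]⟩
  obtain ⟨s, hs⟩ := Function.ne_iff.1 (β.pr x i).rep_nonzero
  refine ⟨s, by_contra fun h => hs ?_⟩
  have h1 := β.rp_pr x ⟨i, s⟩
  rw [hx] at h1
  exact h1.trans (by simp [h, β.fst])

theorem V4b_mem {w : P.V → L} (hw : NZ w) (s : P.V) : w s ∈ (blk k w s.1).1 := by
  rw [blk, FD.sp_val (hw s.1)]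
  exact Submodule.subset_span ⟨s.2, rfl⟩

theorem V4b_nonneg (ν : Dv k L) {V : FD k L} {f : L} (hf : f ∈ V.1) :
    0 ≤ ν (f / ν.π ^ ν.mz V) := by
  rcases eq_or_ne f 0 with rfl | h
  · rw [zero_div, ν.zero]
  · rw [ν.V0_div h, ν.mz_cast, sub_nonneg]
    exact mn_le V _ hf h

theorem V4b_least {w : P.V → L} (hw : NZ w) (ν : Dv k L) (i : P.ι) :
    ∃ s, w ⟨i, s⟩ ≠ 0 ∧ ν (w ⟨i, s⟩ / ν.π ^ ν.mz (blk k w i)) = 0 := by
  obtain ⟨s, h1, h2⟩ := mn_sp (k := k) (hw i) ν.toVl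
  refine ⟨s, h1, ?_⟩
  rw [ν.V0_div h1, ν.mz_cast, blk, h2, sub_self]

theorem NZ.comp {w : P'.V → L} (hw : NZ w) (β : Crd k P P') : NZ (w ∘ β.ε) := by
  intro i
  obtain ⟨t, ht⟩ := hw (β.ψ i)
  obtain ⟨s, hs⟩ := V4b_onto hw β i t
  exact ⟨s, by rwa [Function.comp_apply, hs]⟩

theorem NZ.map {w : P.V → F} (hw : NZ w) (ι : F →ₐ[k] L) : NZ (ι ∘ w) := by
  intro i
  obtain ⟨s, hs⟩ := hw i
  exact ⟨s, (map_ne_zero ι).2 hs⟩

theorem NZ.rpt {w : P.V → L} (hw : NZ w) (ν : Dv k L) : NZ (rpt ν w) := by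
  intro i
  obtain ⟨s, h1, h2⟩ := V4b_least hw ν i
  exact ⟨s, ν.res_eq_zero.not.2
    (not_or.2 ⟨div_ne_zero h1 (zpow_ne_zero _ ν.π_ne), not_not.2 h2⟩)⟩

theorem blk_comp {w : P'.V → L} (hw : NZ w) (β : Crd k P P') (i : P.ι) :
    blk k (w ∘ β.ε) i = blk k w (β.ψ i) := by
  refine congrArg (fun s => FD.of (Submodule.span k s)) (Set.Subset.antisymm ?_ ?_)
  · rintro _ ⟨s, rfl⟩
    have h := β.fst ⟨i, s⟩
    simp only [Function.comp_apply] at h ⊢
    generalize β.ε ⟨i, s⟩ = z at h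
    obtain ⟨j, t⟩ := z
    obtain rfl : j = β.ψ i := h
    exact ⟨t, rfl⟩
  · rintro _ ⟨t, rfl⟩
    obtain ⟨s, hs⟩ := V4b_onto hw β i t
    exact ⟨s, congrArg w hs⟩

theorem blk_inl (w : P.V → L) (u : Q.V → L) (i : P.ι) :
    blk k (Amb.elim w u) (Sum.inl i) = blk k w i := rfl

theorem blk_inr (w : P.V → L) (u : Q.V → L) (j : Q.ι) :
    blk k (Amb.elim w u) (Sum.inr j) = blk k u j := rfl

theorem blk_map (ι : F →ₐ[k] L) (w : P.V → F) (i : P.ι) :
    blk k (ι ∘ w) i = FD.map ι (blk k w i) := by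
  exact (FD.map_sp ι _).symm

theorem blk_rpt {w : P.V → L} (hw : NZ w) (ν : Dv k L) (i : P.ι) :
    blk k (rpt ν w) i = ν.Res (blk k w i) := by
  refine FD.ext (le_antisymm ?_ fun y hy => ?_)
  · rw [blk, FD.sp_val (hw.rpt ν i), Submodule.span_le]
    rintro _ ⟨s, rfl⟩
    exact ν.mem_Res.2 ⟨_, V4b_mem hw ⟨i, s⟩, rfl⟩
  · obtain ⟨f, hf, rfl⟩ := ν.mem_Res.1 hy
    have e : (blk k w i).1 = _ := FD.sp_val (hw i)
    rw [e] at hf
    clear hy
    induction hf using Submodule.span_induction with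
    | mem x hx =>
      obtain ⟨s, rfl⟩ := hx
      exact V4b_mem (hw.rpt ν) ⟨i, s⟩
    | zero =>
      rw [zero_div, ν.res_zero]
      exact zero_mem _
    | add x y hx hy h1 h2 =>
      rw [← e] at hx hy
      rw [add_div, ν.res_add (V4b_nonneg ν hx) (V4b_nonneg ν hy)]
      exact add_mem h1 h2
    | smul c x hx h1 =>
      rw [smul_div_assoc, ν.res_smul]
      exact Submodule.smul_mem _ _ h1

theorem blk_dvd_sys (w : P.V → L) {a : P.ι →₀ ℕ} {i : P.ι} (h : 0 < a i) :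
    blk k w i ∣ sys k w a := by
  exact (dvd_pow_self _ h.ne').trans
    (Finset.dvd_prod_of_mem (fun i => blk k w i ^ a i) (Finsupp.mem_support_iff.2 h.ne'))

theorem sys_map (ι : F →ₐ[k] L) (w : P.V → F) (a : P.ι →₀ ℕ) :
    sys k (ι ∘ w) a = FD.map ι (sys k w a) := by
  simp only [sys, map_finsuppProd, map_pow, blk_map]

theorem sys_rpt {w : P.V → L} (hw : NZ w) (ν : Dv k L) (a : P.ι →₀ ℕ) :
    sys k (rpt ν w) a = ν.Res (sys k w a) := by
  simp only [sys, map_finsuppProd, map_pow, blk_rpt hw]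

theorem V4b_sys_zero (w : P.V → L) : sys k w 0 = 1 := Finsupp.prod_zero_index

theorem V4b_sys_add (w : P.V → L) (a b : P.ι →₀ ℕ) : sys k w (a + b) = sys k w a * sys k w b :=
  Finsupp.prod_add_index' (fun _ => pow_zero _) fun _ _ _ => pow_add _ _ _

theorem V4b_sys_single (w : P.V → L) (i : P.ι) (n : ℕ) :
    sys k w (Finsupp.single i n) = blk k w i ^ n :=
  Finsupp.prod_single_index (pow_zero _)

theorem V4b_mono {w : P.V → L} (hw : NZ w) (d : P.V →₀ ℕ) : (d.prod fun s n => w s ^ n) ∈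
    (sys k w (Finsupp.weight (fun s : P.V => Finsupp.single s.1 1) d)).1 := by
  induction d using Finsupp.induction_linear with
  | zero =>
    rw [map_zero, V4b_sys_zero, Finsupp.prod_zero_index, FD.one_val]
    exact Submodule.one_le.1 le_rfl
  | add f g hf hg =>
    rw [map_add, V4b_sys_add, Finsupp.prod_add_index' (by simp) (by simp [pow_add])]
    exact Submodule.mul_mem_mul hf hg
  | single s n =>
    rw [Finsupp.weight_single, Finsupp.smul_single, smul_eq_mul, mul_one, V4b_sys_single,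
      Finsupp.prod_single_index (h := fun s n => w s ^ n) (pow_zero _)]
    exact Submodule.pow_mem_pow _ (V4b_mem hw s) n

/-- The values of the forms of degree `a`. -/
noncomputable def V4b_val (k : Type u) [Field k] [Algebra k L] (w : P.V → L) (a : P.ι →₀ ℕ) :
    Submodule k L :=
  (weightedHomogeneousSubmodule k (fun s : P.V => Finsupp.single s.1 1) a).map
    (aeval w).toLinearMap

theorem V4b_val_zero (w : P.V → L) : 1 ≤ V4b_val k w 0 :=
  Submodule.one_le.2 ⟨1, IsForm.one, map_one (aeval w)⟩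

theorem V4b_val_add (w : P.V → L) (a b : P.ι →₀ ℕ) :
    V4b_val k w a * V4b_val k w b ≤ V4b_val k w (a + b) := by
  refine Submodule.mul_le.2 ?_
  rintro _ ⟨f, hf, rfl⟩ _ ⟨g, hg, rfl⟩
  exact ⟨f * g, IsForm.mul hf hg, map_mul (aeval w) f g⟩

theorem V4b_le_val {w : P.V → L} (hw : NZ w) (a : P.ι →₀ ℕ) : (sys k w a).1 ≤ V4b_val k w a := by
  induction a using Finsupp.induction_linear with
  | zero =>
    rw [V4b_sys_zero]
    exact V4b_val_zero w
  | add a b ha hb =>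
    rw [V4b_sys_add]
    exact (mul_le_mul' ha hb).trans (V4b_val_add w a b)
  | single i n =>
    rw [V4b_sys_single, FD.pow_val]
    induction n with
    | zero =>
      rw [pow_zero, Finsupp.single_zero]
      exact V4b_val_zero w
    | succ n ih =>
      rw [pow_succ, Finsupp.single_add]
      refine (mul_le_mul' ih ?_).trans (V4b_val_add w _ _)
      rw [blk, FD.sp_val (hw i), Submodule.span_le]
      rintro _ ⟨s, rfl⟩
      exact ⟨X ⟨i, s⟩, IsForm.X _, aeval_X _ _⟩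

theorem mem_sys {w : P.V → L} (hw : NZ w) {a : P.ι →₀ ℕ} {y : L} :
    y ∈ (sys k w a).1 ↔ ∃ f : MvPolynomial P.V k, IsForm f a ∧ aeval w f = y := by
  refine ⟨fun h => V4b_le_val hw a h, ?_⟩
  rintro ⟨f, hf, rfl⟩
  induction hf using IsWeightedHomogeneous.induction_on with
  | zero =>
    rw [map_zero]
    exact zero_mem _
  | add p q _ _ hp hq =>
    rw [map_add]
    exact add_mem hp hq
  | monomial d r hr =>
    rw [aeval_monomial, ← hr, ← Algebra.smul_def]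
    exact Submodule.smul_mem _ _ (V4b_mono hw d)

theorem hh_sys (w : P.V → L) (a : P.ι →₀ ℕ) : hh (sys k w a) = lin (fun i => hh (blk k w i)) a := by
  simp only [sys, lin, Finsupp.prod, Finsupp.sum, hh_prod, hh_pow]

theorem rat_subset {w : P.V → L} (hw : NZ w) {V : FD k L} (h : ∀ i, blk k w i ∣ V) :
    rat w ⊆ rt V := by
  rintro _ ⟨i, s, t, rfl⟩
  exact rt_dvd (h i) ⟨_, V4b_mem hw ⟨i, s⟩, _, V4b_mem hw ⟨i, t⟩, rfl⟩

theorem V4b_rt {V : FD k L} {K : IntermediateField k L} {c : L} (hc : c ≠ 0)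
    (h : ∀ f ∈ V.1, f / c ∈ K) : rt V ⊆ K := by
  rintro _ ⟨f, hf, g, hg, rfl⟩
  rw [← div_div_div_cancel_right₀ hc]
  exact div_mem (h f hf) (h g hg)

theorem V4b_rt_one (K : IntermediateField k L) : rt (1 : FD k L) ⊆ K := by
  refine V4b_rt one_ne_zero fun f hf => ?_
  obtain ⟨c, rfl⟩ := Submodule.mem_one.1 hf
  rw [div_one]
  exact K.algebraMap_mem c

theorem V4b_rt_mul {K : IntermediateField k L} {U V : FD k L} (hU : rt U ⊆ K) (hV : rt V ⊆ K) :
    rt (U * V) ⊆ K :=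
  (rt_mul U V).trans (IntermediateField.adjoin_le_iff.2 (Set.union_subset hU hV))

theorem rt_blk (w : P.V → L) (i : P.ι) :
    rt (blk k w i) ⊆ IntermediateField.adjoin k (rat w) := by
  by_cases h : ∃ s, w ⟨i, s⟩ ≠ 0
  · obtain ⟨t, ht⟩ := id h
    refine V4b_rt ht fun f hf => ?_
    rw [blk, FD.sp_val h] at hf
    induction hf using Submodule.span_induction with
    | mem x hx =>
      obtain ⟨s, rfl⟩ := hx
      exact IntermediateField.subset_adjoin _ _ ⟨i, s, t, rfl⟩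
    | zero =>
      rw [zero_div]
      exact zero_mem _
    | add x y _ _ h1 h2 =>
      rw [add_div]
      exact add_mem h1 h2
    | smul c x _ h1 =>
      rw [smul_div_assoc]
      exact IntermediateField.smul_mem _ h1
  · have e : blk k w i = 1 := by
      refine dif_neg fun h' => h'.1 ?_
      rw [Submodule.span_eq_bot]
      rintro _ ⟨s, rfl⟩
      exact not_not.1 fun h1 => h ⟨s, h1⟩
    rw [e]
    exact V4b_rt_one _

theorem rt_sys (w : P.V → L) (a : P.ι →₀ ℕ) :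
    rt (sys k w a) ⊆ IntermediateField.adjoin k (rat w) := by
  refine Finset.prod_induction _
    (fun V : FD k L => rt V ⊆ (IntermediateField.adjoin k (rat w) : Set L))
    (fun _ _ => V4b_rt_mul) (V4b_rt_one _) fun i _ => ?_
  generalize a i = n
  beta_reduce
  induction n with
  | zero =>
    rw [pow_zero]
    exact V4b_rt_one _
  | succ n ih =>
    rw [pow_succ]
    exact V4b_rt_mul ih (rt_blk w i)

theorem rat_elim (w : P.V → L) (u : Q.V → L) : rat (Amb.elim w u) = rat w ∪ rat u := by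
  ext y
  constructor
  · rintro ⟨i | j, s, t, rfl⟩
    · exact Or.inl ⟨i, s, t, rfl⟩
    · exact Or.inr ⟨j, s, t, rfl⟩
  · rintro (⟨i, s, t, rfl⟩ | ⟨j, s, t, rfl⟩)
    · exact ⟨Sum.inl i, s, t, rfl⟩
    · exact ⟨Sum.inr j, s, t, rfl⟩

theorem rat_map (ι : F →ₐ[k] L) (w : P.V → F) : rat (ι ∘ w) = ι '' rat w := by
  ext y
  constructor
  · rintro ⟨i, s, t, rfl⟩
    exact ⟨_, ⟨i, s, t, rfl⟩, map_div₀ ι _ _⟩
  · rintro ⟨_, ⟨i, s, t, rfl⟩, rfl⟩
    exact ⟨i, s, t, map_div₀ ι _ _⟩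

theorem rat_rpt {w : P.V → L} (hw : NZ w) (ν : Dv k L) : rat (rpt ν w) ⊆ ν.res '' rat w := by
  rintro _ ⟨i, s, t, rfl⟩
  have hc := zpow_ne_zero (ν.mz (blk k w i)) ν.π_ne
  by_cases h : ν (w ⟨i, t⟩ / ν.π ^ ν.mz (blk k w i)) = 0
  · refine ⟨_, ⟨i, s, t, rfl⟩, ?_⟩
    rw [← div_div_div_cancel_right₀ hc, ν.res_div _ h]
    rfl
  · obtain ⟨r, -, h2⟩ := V4b_least hw ν i
    refine ⟨_, ⟨i, t, r, rfl⟩, ?_⟩
    have h3 : rpt ν w ⟨i, t⟩ = 0 := ν.res_eq_zero.2 (Or.inr h)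
    rw [← div_div_div_cancel_right₀ hc, ν.res_div _ h2, h3, div_zero,
      ν.res_eq_zero.2 (Or.inr h), zero_div]

theorem rpt_comp {w : P'.V → L} (hw : NZ w) (β : Crd k P P') (ν : Dv k L) :
    rpt ν (w ∘ β.ε) = rpt ν w ∘ β.ε := by
  funext s
  simp only [rpt, Function.comp_apply, β.fst, ← blk_comp hw β]

theorem rpt_elim (w : P.V → L) (u : Q.V → L) (ν : Dv k L) :
    rpt ν (Amb.elim w u) = Amb.elim (rpt ν w) (rpt ν u) := by
  funext s
  obtain ⟨i | j, s⟩ := s <;> rfl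

theorem rpt_tv {ι : F →ₐ[k] L} {ν : Dv k L} (h : Tv ι ν.toVl) (w : P.V → F) :
    rpt ν (ι ∘ w) = h.tmap ∘ w := by
  funext s
  have h1 : ν.mz (blk k (ι ∘ w) s.1) = 0 := by
    refine Int.cast_injective (α := FF) ?_
    rw [ν.mz_cast, blk_map, mn_map, Int.cast_zero]
    exact h _
  rw [rpt, h1, zpow_zero, div_one, Function.comp_apply, Function.comp_apply, h.tmap_apply]

theorem V4b_ov {ι : F →ₐ[k] L} {c : Dv k F} {ν : Dv k L} (h : Ov ι c.toVl ν.toVl) (V : FD k F) :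
    ν (ι (c.π ^ c.mz V) / ν.π ^ ν.mz (FD.map ι V)) = 0 := by
  obtain ⟨e, -, he⟩ := Dv.ov_e h
  rw [ν.V0_div ((map_ne_zero ι).2 (zpow_ne_zero _ c.π_ne)), he, c.zpow, c.v_π, mul_one,
    c.mz_cast, ν.mz_cast, mn_map, sub_eq_zero]
  refine le_antisymm ?_ ((mn_le V _ (V.pick_mem c.toVl) (V.pick_ne _)).trans_eq (he _))
  exact (mul_le_mul_of_nonneg_left (mn_le V _ (V.pick_mem _) (V.pick_ne _))
    e.cast_nonneg).trans_eq (he _).symm

theorem rpt_ov {ι : F →ₐ[k] L} {c : Dv k F} {ν : Dv k L} (h : Ov ι c.toVl ν.toVl) {w : P.V → F}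
    (hw : NZ w) : ∃ μ : P.ι → ν.κ, (∀ i, μ i ≠ 0) ∧
      rpt ν (ι ∘ w) = fun s => μ s.1 * h.kmap (rpt c w s) := by
  refine ⟨fun i => ν.res (ι (c.π ^ c.mz (blk k w i)) / ν.π ^ ν.mz (FD.map ι (blk k w i))),
    fun i => ν.res_eq_zero.not.2 (not_or.2 ⟨div_ne_zero ((map_ne_zero ι).2
      (zpow_ne_zero _ c.π_ne)) (zpow_ne_zero _ ν.π_ne), not_not.2 (V4b_ov h _)⟩),
    funext fun s => ?_⟩
  rw [rpt, rpt, h.kmap_res, blk_map,
    ← ν.res_mul (V4b_ov h _).ge ((h _).2 (V4b_nonneg c (V4b_mem hw s))), map_div₀,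
    mul_comm, div_mul_div_cancel₀ ((map_ne_zero ι).2 (zpow_ne_zero _ c.π_ne))]
  rfl

/-- The inverse of the normalising factor. -/
noncomputable def V4b_fac (ν : Dv k L) : FD k L →* L where
  toFun V := (ν.π ^ ν.mz V)⁻¹
  map_one' := by
    have h : ν.mz 1 = 0 := Int.cast_injective (α := FF) (by rw [ν.mz_cast, mn_one, Int.cast_zero])
    rw [h, zpow_zero, inv_one]
  map_mul' U V := by
    have h : ν.mz (U * V) = ν.mz U + ν.mz V := Int.cast_injective (α := FF)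
      (by rw [Int.cast_add, ν.mz_cast, ν.mz_cast, ν.mz_cast, mn_mul])
    rw [h, zpow_add₀ ν.π_ne, mul_inv]

theorem aeval_rpt {w : P.V → L} (hw : NZ w) (ν : Dv k L) {f : MvPolynomial P.V k} {a : P.ι →₀ ℕ}
    (hf : IsForm f a) :
    aeval (rpt ν w) f = ν.res (aeval w f / ν.π ^ ν.mz (sys k w a)) := by
  have h1 := (ν.res_aeval (fun s => V4b_nonneg ν (V4b_mem hw s)) f).2
  have h2 := hf.aeval_scale (fun i => V4b_fac ν (blk k w i)) w
  have h3 : V4b_fac ν (sys k w a) = a.prod fun i n => V4b_fac ν (blk k w i) ^ n := by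
    simp only [sys, map_finsuppProd, map_pow]
  rw [← h3] at h2
  refine h1.symm.trans (congrArg ν.res ?_)
  simp only [div_eq_inv_mul]
  exact h2

/-- A form vanishes at the reduction if its value is greater than the least value. -/
theorem aeval_rpt_eq_zero {w : P.V → L} (hw : NZ w) (ν : Dv k L) {f : MvPolynomial P.V k}
    {a : P.ι →₀ ℕ} (hf : IsForm f a) :
    aeval (rpt ν w) f = 0 ↔ aeval w f ∈ ν.gt (mn (sys k w a) ν.toVl) := by
  rw [aeval_rpt hw ν hf, ν.res_eq_zero, Vl.mem_gt, div_eq_zero_iff,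
    or_iff_left (zpow_ne_zero _ ν.π_ne)]
  refine or_congr_right' fun h => ?_
  rw [ν.V0_div h, ν.mz_cast, sub_ne_zero,
    (mn_le _ ν.toVl ((mem_sys hw).2 ⟨f, hf, rfl⟩) h).lt_iff_ne']

theorem _root_.Pool.Agent.Work.MP_ffcd14_ag.IsGen.onS {T : Set (P.Pt k)} {w : P.V → L}
    (h : IsGen T w) : OnS T w := ⟨h.ne, fun f a hf hT => (h.iff f a hf).2 hT⟩

theorem OnS.mono {T T' : Set (P.Pt k)} {w : P.V → L} (h : OnS T w) (h' : T ⊆ T') : OnS T' w :=
  ⟨h.nz, fun f a hf hT => h.van f a hf fun x hx => hT x (h' hx)⟩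

theorem OnS.rpt {T : Set (P.Pt k)} {w : P.V → L} (h : OnS T w) (ν : Dv k L) :
    OnS T (rpt ν w) := by
  refine ⟨h.nz.rpt ν, fun f a hf hT => ?_⟩
  rw [aeval_rpt h.nz ν hf, h.van f a hf hT, zero_div, ν.res_zero]

theorem OnS.map {T : Set (P.Pt k)} {w : P.V → F} (h : OnS T w) (ι : F →ₐ[k] L) :
    OnS T (ι ∘ w) := by
  refine ⟨h.nz.map ι, fun f a hf hT => ?_⟩
  rw [Function.comp_def, ← comp_aeval_apply, h.van f a hf hT, map_zero]

theorem OnS.scale {T : Set (P.Pt k)} {w : P.V → L} (h : OnS T w) {μ : P.ι → L}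
    (hμ : ∀ i, μ i ≠ 0) : OnS T fun s => μ s.1 * w s := by
  refine ⟨fun i => ?_, fun f a hf hT => ?_⟩
  · obtain ⟨s, hs⟩ := h.nz i
    exact ⟨s, mul_ne_zero (hμ i) hs⟩
  · rw [hf.aeval_scale, h.van f a hf hT, mul_zero]

theorem exists_coord (V : FD k L) :
    ∃ (m : ℕ) (u : (Amb.one (Fin m)).V → L), NZ u ∧ blk k u () = V := by
  obtain ⟨m, u, h1, h2⟩ := V.exists_sp
  exact ⟨m + 1, fun s => u s.2, fun _ => ⟨(0 : Fin (m + 1)), h1 _⟩, h2⟩

theorem exists_coords {ι : Type} [Finite ι] (V : ι → FD k L) :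
    ∃ (σ : ι → Type) (_ : ∀ i, Finite (σ i)) (u : (⟨ι, σ⟩ : Amb).V → L), NZ u ∧
      ∀ i, blk k u i = V i := by
  choose m u h1 h2 using fun i => (V i).exists_sp
  exact ⟨fun i => Fin (m i + 1), inferInstance, fun s => u s.1 s.2,
    fun i => ⟨(0 : Fin (m i + 1)), h1 _ _⟩, h2⟩

variable [IsAlgClosed k]

theorem exists_isGen {w : P.V → L} (hw : NZ w) : ∃ Z : Sub k P, IsGen (Z : Set (P.Pt k)) w := by
  exact exists_loc w hw

theorem onS_iff {Z : Sub k P} {w : P.V → L} (h : IsGen (Z : Set (P.Pt k)) w) {T : Set (P.Pt k)}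
    (hT : IsClosed T) : OnS T w ↔ (Z : Set (P.Pt k)) ⊆ T := by
  exact ⟨fun hS => subset_of_van hT fun f a hf hV => (h.iff f a hf).1 (hS.van f a hf hV),
    h.onS.mono⟩

theorem rn_rat {Z : Sub k P} {w : P.V → L} (h : IsGen (Z : Set (P.Pt k)) w) :
    rn k (rat w) = sdim Z := by
  rw [rn, h.rk_rat, ENat.toNat_natCast]

theorem OnS.rn_le {Z : Sub k P} {w : P.V → L} (h : OnS (Z : Set (P.Pt k)) w) :
    rn k (rat w) ≤ sdim Z := by
  obtain ⟨T, hT⟩ := exists_isGen (k := k) h.nz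
  rw [rn_rat hT]
  exact sdim_mono ((onS_iff hT Z.isClosed).1 h)

theorem OnS.isGen {Z : Sub k P} {w : P.V → L} (h : OnS (Z : Set (P.Pt k)) w)
    (h' : sdim Z ≤ rn k (rat w)) : IsGen (Z : Set (P.Pt k)) w := by
  obtain ⟨T, hT⟩ := exists_isGen (k := k) h.nz
  rw [rn_rat hT] at h'
  rwa [← eq_of_sdim_le ((onS_iff hT Z.isClosed).1 h) h']

theorem OnS.prj {Ω : Var k P'} {X : Var k P} (π : Prj Ω X) {w : P'.V → L} (h : OnS Ω.pts w) :
    OnS X.pts (w ∘ π.ε) := by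
  refine ⟨h.nz.comp π.toCrd, fun f a hf hT => ?_⟩
  rw [← aeval_rename]
  exact h.van _ _ (π.toCrd.form hf) fun x hx => (π.ev_rename x f).trans (hT _ (π.maps x hx))

theorem OnS.img (β : Crd k P P') {Z : Sub k P'} {w : P'.V → L} (h : OnS (Z : Set (P'.Pt k)) w) :
    OnS (β.img Z : Set (P.Pt k)) (w ∘ β.ε) := by
  refine ⟨h.nz.comp β, fun f a hf hT => ?_⟩
  rw [← aeval_rename]
  exact h.van _ _ (β.form hf) ((β.van_img hf).1 hT)

theorem OnS.prod {X : Var k P} {Y : Var k Q} {w : P.V → L} {u : Q.V → L} (hw : OnS X.pts w)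
    (hu : OnS Y.pts u) : OnS (X.prod Y).pts (Amb.elim w u) := by
  obtain ⟨T, hT⟩ := exists_isGen (k := k) (hw.nz.elim hu.nz)
  refine hT.onS.mono fun x hx => ⟨?_, ?_⟩
  · exact (onS_iff ((Crd.inl k P Q).isGen_img hT) X.closed).1 hw ((Crd.inl k P Q).mem_img hx)
  · exact (onS_iff ((Crd.inr k P Q).isGen_img hT) Y.closed).1 hu ((Crd.inr k P Q).mem_img hx)

theorem OnS.ext {X : Var k P} {w : P.V → L} {u : Q.V → L} (hw : OnS X.pts w) (hu : NZ u) :
    OnS (X.ext Q).pts (Amb.elim w u) := by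
  obtain ⟨T, hT⟩ := exists_isGen (k := k) hu
  exact hw.prod (Y := Var.full k Q) (hT.onS.mono (Set.subset_univ _))

end Pool.Agent.Work.MP_ffcd14_ag.Uni
end

-- merged part: Pool.Agent.Work.MP_ffcd14_ag.Cyc.LDefs
section
/-! # Families of lines: definitions -/

open MvPolynomial Topology TopologicalSpace Filter

namespace Pool.Agent.Work.MP_ffcd14_ag

universe u v w

variable {k : Type u} [Field k] {P P' P₀ P₁ P₂ Q : Amb} {M : ℕ}

/-- The space of Plücker matrices. -/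
def Amb.pl (M : ℕ) : Amb := Amb.one (Fin (M + 1) × Fin (M + 1))

/-- The vector `y` lies in the plane with Plücker matrix `w`. -/
def Inc {R V : Type*} [CommRing R] (w : V × V → R) (y : V → R) : Prop :=
  ∀ i j l, w (i, j) * y l + w (j, l) * y i + w (l, i) * y j = 0

/-- The matrix `w` is skew. -/
def Anti {R V : Type*} [CommRing R] (w : V × V → R) : Prop := ∀ i j, w (i, j) = -w (j, i)

/-- The vector of a point of projective space. -/
noncomputable def vec (y : (Amb.proj M).Pt k) : Fin (M + 1) → k := (y ()).rep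

/-- The matrix of a point of the Plücker space. -/
noncomputable def plm (w : (Amb.pl M).Pt k) : Fin (M + 1) × Fin (M + 1) → k := (w ()).rep

/-- The fibres of `β` on `E` are embedded by `yc` in the lines given by `pc`. -/
structure LFam (β : Crd k P₀ P₁) (yc : Crd k (Amb.proj M) P₁) (pc : Crd k (Amb.pl M) P₀)
    (E : Sub k P₁) : Prop where
  anti : ∀ x ∈ E, Anti (plm (pc.pr (β.pr x)))
  inc : ∀ x ∈ E, Inc (plm (pc.pr (β.pr x))) (vec (yc.pr x))
  inj : ∀ x ∈ E, ∀ x' ∈ E, yc.pr x = yc.pr x' → β.pr x = β.pr x' → x = x'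

/-- On `E` the coordinates `xc` are rational functions of the coordinates `yc`. -/
def RatOn (E : Sub k P₁) (xc : Crd k P P₁) (yc : Crd k Q P₁) : Prop :=
  ∀ j, ∃ (a : Q.ι →₀ ℕ) (F : P.σ j → MvPolynomial Q.V k), (∀ s, IsForm (F s) a) ∧
    (∃ s, ¬ Van (E : Set (P₁.Pt k)) (rename yc.ε (F s))) ∧ ∀ s t, Van (E : Set (P₁.Pt k))
      (X (xc.ε ⟨j, s⟩) * rename yc.ε (F t) - X (xc.ε ⟨j, t⟩) * rename yc.ε (F s))

/-- `O(a)` and `O(b)` are isomorphic on `E`. -/
def LEq (E : Sub k P) (a b : P.ι →₀ ℕ) : Prop :=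
  ∃ (κ : Type) (f e : κ → MvPolynomial P.V k), (∀ s, IsForm (f s) a) ∧ (∀ s, IsForm (e s) b) ∧
    (∀ s t, Van (E : Set (P.Pt k)) (f s * e t - f t * e s)) ∧
    ∀ x ∈ E, (∃ s, ev x (f s) ≠ 0) ∧ ∃ s, ev x (e s) ≠ 0

/-- `δ` is the diagonal of the square with projections `r1`, `r2`. -/
structure Dg (r1 r2 : Crd k P₁ P₂) (δ : Crd k P₂ P₁) : Prop where
  one : ∀ x, r1.pr (δ.pr x) = x
  two : ∀ x, r2.pr (δ.pr x) = x
  inj : ∀ x y, r1.pr x = r1.pr y → r2.pr x = r2.pr y → x = y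

theorem Dg.prod (k : Type u) [Field k] (P : Amb) :
    Dg (Crd.inl k P P) (Crd.inr k P P) (Crd.diag k P) :=
  ⟨fun _ => rfl, fun _ => rfl, fun _ _ => sum_ext⟩

theorem Dg.map {r1 r2 : Crd k P₁ P₂} {δ : Crd k P₂ P₁} (h : Dg r1 r2 δ) (Q : Amb) :
    Dg (r1.map Q) (r2.map Q) (δ.map Q) :=
  ⟨fun x => sum_ext (h.one ((Crd.inl k P₁ Q).pr x)) rfl,
    fun x => sum_ext (h.two ((Crd.inl k P₁ Q).pr x)) rfl,
    fun _ _ h1 h2 => sum_ext (h.inj _ _ (congrArg (Crd.inl k P₁ Q).pr h1)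
      (congrArg (Crd.inl k P₁ Q).pr h2)) (congrArg (Crd.inr k P₁ Q).pr h1)⟩

/-- A binary form. -/
def binF {R : Type*} [CommRing R] (d : ℕ) (c : Fin (d + 1) → R) (s t : R) : R :=
  ∑ i, c i * s ^ (i : ℕ) * t ^ (d - i)

variable {K : Type v} [Field K] [CharZero K] (C : NT.{u, v, w} k K)

/-- The classes `x` and `x'` agree on every subvariety lying over `E`. -/
def Eqv (X : Var k P) (E : Sub k P) (x x' : EE C X) : Prop :=
  ∀ {P' : Amb} (Ω : Var k P') (π : Prj Ω X) (Z : Sub k P'), (Z : Set (P'.Pt k)) ⊆ Ω.pts →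
    π.img Z ≤ E → cy C Ω Z * pl C π x = cy C Ω Z * pl C π x'

/-- On `E` every hyperplane class is a multiple of `ξ` modulo the classes of the base. -/
def Cov (X : Var k P₁) (β : Crd k P₀ P₁) (E : Sub k P₁) (ξ : EE C X) : Prop :=
  ∀ D ∈ HS C X, ∃ s : ℚ, ∃ u ∈ BS C X β, Eqv C X E D (s • ξ + u)

end Pool.Agent.Work.MP_ffcd14_ag
end

-- merged part: Pool.Agent.Work.MP_ffcd14_ag.Cyc.Line
section
/-! # Lines in projective space -/

open MvPolynomial Topology TopologicalSpace Filter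

namespace Pool.Agent.Work.MP_ffcd14_ag

universe u v w

variable {k : Type u} [Field k] [IsAlgClosed k] {P P' P₀ P₁ P₂ Q : Amb} {M : ℕ}

theorem Inc.row {L V : Type*} [Field L] {w : V × V → L} (hw : Anti w) {y : V → L} (hy : y ≠ 0)
    (h : Inc w y) (a : V) : Inc w fun l => w (a, l) := by
  obtain ⟨c, hc⟩ := Function.ne_iff.1 hy
  have hc' : y c ≠ 0 := hc
  have key : ∀ i j, w (i, j) * y c = w (c, j) * y i - w (c, i) * y j := fun i j => by
    linear_combination h i j c - y i * hw j c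
  intro i j l
  refine mul_right_cancel₀ (mul_ne_zero hc' hc') ?_
  have : (w (i, j) * w (a, l) + w (j, l) * w (a, i) + w (l, i) * w (a, j)) * (y c * y c) =
      (w (i, j) * y c) * (w (a, l) * y c) + (w (j, l) * y c) * (w (a, i) * y c) +
        (w (l, i) * y c) * (w (a, j) * y c) := by ring
  rw [this, key i j, key a l, key j l, key a i, key l i, key a j]
  ring

theorem Inc.wedge {R V : Type*} [CommRing R] {w : V × V → R} (hw : Anti w) {y y' : V → R}
    (h : Inc w y) (h' : Inc w y') (i j l m : V) :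
    (y i * y' j - y j * y' i) * w (l, m) = (y l * y' m - y m * y' l) * w (i, j) := by
  linear_combination y' j * h l m i - y' i * h l m j - y l * h' i j m + y m * h' i j l -
    y' j * y m * hw i l + y' i * y l * hw m j

theorem Inc.span {R V : Type*} [CommRing R] {w : V × V → R} (hw : Anti w) {y : V → R}
    (h : Inc w y) (a b l : V) : w (a, b) * y l = y b * w (a, l) + -y a * w (b, l) := by
  linear_combination h a b l - y b * hw l a

omit [IsAlgClosed k] in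
theorem Line_vec_ne (z : (Amb.proj M).Pt k) : vec z ≠ 0 := (z ()).rep_nonzero

omit [IsAlgClosed k] in
theorem Line_pt_eq {z z' : (Amb.proj M).Pt k} {c : k} (h : ∀ l, vec z l = c * vec z' l) :
    z = z' := by
  funext i
  obtain rfl : i = () := rfl
  rw [← (z ()).mk_rep, ← (z' ()).mk_rep, Projectivization.mk_eq_mk_iff']
  exact ⟨c, funext fun l => (h l).symm⟩

omit [IsAlgClosed k] in
theorem Line_ev {z : (Amb.proj M).Pt k} {f : MvPolynomial (Amb.proj M).V k}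
    {a : (Amb.proj M).ι →₀ ℕ} (hf : IsForm f a) {μ : k} {v : Fin (M + 1) → k}
    (h : ∀ l, vec z l = μ * v l) :
    ev z f = chi (fun _ => μ) a * eval (fun s : (Amb.proj M).V => v s.2) f := by
  rw [← hf.eval_scale, ev_eq]
  exact congrArg (fun v => eval v f) (funext fun s => h s.2)

omit [IsAlgClosed k] in
theorem Line_chart {W : Fin (M + 1) × Fin (M + 1) → k} (hw : Anti W) {a b : Fin (M + 1)}
    (hab : W (a, b) ≠ 0) {y : Fin (M + 1) → k} (hy : Inc W y) (hb : y b ≠ 0) (l : Fin (M + 1)) :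
    y l = y b / W (a, b) * (W (a, l) + -y a / y b * W (b, l)) := by
  have := hy.span hw a b l
  field_simp
  linear_combination this

omit [IsAlgClosed k] in
theorem Line_van {W : Fin (M + 1) × Fin (M + 1) → k} (hw : Anti W) {a b : Fin (M + 1)}
    (hab : W (a, b) ≠ 0) {U : Set ((Amb.proj M).Pt k)} (hU : ∀ z ∈ U, Inc W (vec z))
    (hi : U.Infinite) {f : MvPolynomial (Amb.proj M).V k} {d : (Amb.proj M).ι →₀ ℕ}
    (hf : IsForm f d) (hv : Van U f) {z : (Amb.proj M).Pt k} (hz : Inc W (vec z))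
    (hb : vec z b ≠ 0) : ev z f = 0 := by
  let g : Polynomial k := aeval (fun s : (Amb.proj M).V =>
    Polynomial.C (W (a, s.2)) + Polynomial.X * Polynomial.C (W (b, s.2))) f
  have hg : ∀ t : k, g.eval t =
      eval (fun s : (Amb.proj M).V => W (a, s.2) + t * W (b, s.2)) f := by
    intro t
    rw [← Polynomial.coe_aeval_eq_eval, ← AlgHom.comp_apply, MvPolynomial.comp_aeval,
      ← MvPolynomial.coe_aeval_eq_eval]
    simp [mul_comm t]
  have hev : ∀ y : (Amb.proj M).Pt k, Inc W (vec y) → vec y b ≠ 0 →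
      ev y f = chi (fun _ => vec y b / W (a, b)) d * g.eval (-vec y a / vec y b) := by
    intro y hy hyb
    rw [hg, Line_ev hf (Line_chart hw hab hy hyb)]
  have hsub : {y | y ∈ U ∧ vec y b = 0}.Subsingleton := by
    intro y hy y' hy'
    have ha : vec y' a ≠ 0 := by
      intro ha
      apply Line_vec_ne y'
      funext l
      have := (hU y' hy'.1).span hw a b l
      rw [hy'.2, ha] at this
      simpa [hab] using this
    refine Line_pt_eq (c := vec y a / vec y' a) fun l => ?_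
    have h1 := (hU y hy.1).span hw a b l
    have h2 := (hU y' hy'.1).span hw a b l
    rw [hy.2] at h1
    rw [hy'.2] at h2
    field_simp
    refine mul_left_cancel₀ hab ?_
    linear_combination vec y' a * h1 - vec y a * h2
  have hinf : (U \ {y | y ∈ U ∧ vec y b = 0}).Infinite := hi.sdiff hsub.finite
  have hne : ∀ y ∈ U \ {y | y ∈ U ∧ vec y b = 0}, vec y b ≠ 0 :=
    fun y hy h0 => hy.2 ⟨hy.1, h0⟩
  have hinj : Set.InjOn (fun y : (Amb.proj M).Pt k => -vec y a / vec y b)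
      (U \ {y | y ∈ U ∧ vec y b = 0}) := by
    intro y hy y' hy' h
    have h' : -vec y a / vec y b = -vec y' a / vec y' b := h
    refine Line_pt_eq (c := vec y b / vec y' b) fun l => ?_
    have hb' := hne y' hy'
    rw [Line_chart hw hab (hU y hy.1) (hne y hy) l, h',
      Line_chart hw hab (hU y' hy'.1) hb' l]
    field_simp
  have hg0 : g = 0 := by
    apply Polynomial.eq_zero_of_infinite_isRoot
    refine (hinf.image hinj).mono ?_
    rintro _ ⟨y, hy, rfl⟩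
    have h1 := hev y (hU y hy.1) (hne y hy)
    rw [hv y hy.1] at h1
    exact (mul_eq_zero.1 h1.symm).resolve_left
      (chi_ne_zero (fun _ => div_ne_zero (hne y hy) hab) d)
  rw [hev z hz hb, hg0, Polynomial.eval_zero, mul_zero]

omit [IsAlgClosed k] in
theorem Line_plm_ne (w : (Amb.pl M).Pt k) : ∃ a b, plm w (a, b) ≠ 0 := by
  obtain ⟨⟨a, b⟩, h⟩ := Function.ne_iff.1 (w ()).rep_nonzero
  exact ⟨a, b, h⟩

theorem line_eq {w : (Amb.pl M).Pt k} (hw : Anti (plm w)) {U : Set ((Amb.proj M).Pt k)}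
    (hc : IsClosed U) (hU : ∀ z ∈ U, Inc (plm w) (vec z)) (hi : U.Infinite)
    {z : (Amb.proj M).Pt k} (hz : Inc (plm w) (vec z)) : z ∈ U := by
  obtain ⟨a, b, hab⟩ := Line_plm_ne w
  have hba : plm w (b, a) ≠ 0 := by rw [hw b a]; exact neg_ne_zero.2 hab
  refine subset_of_van (B := {z}) hc (fun f d hf hv => ?_) rfl
  intro z' hz'
  rw [Set.mem_singleton_iff.1 hz']
  by_cases hb : vec z b = 0
  · refine Line_van hw hba hU hi hf hv hz fun ha => ?_
    apply Line_vec_ne z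
    funext l
    have := hz.span hw a b l
    rw [hb, ha] at this
    simpa [hab] using this
  · exact Line_van hw hab hU hi hf hv hz hb

theorem Line_sdim_le {w : (Amb.pl M).Pt k} (hw : Anti (plm w)) {U : Sub k (Amb.proj M)}
    (hU : ∀ z ∈ U, Inc (plm w) (vec z)) : sdim U ≤ 1 := by
  by_contra hlt
  obtain ⟨x, hx⟩ := U.isIrreducible.nonempty
  have h1 : ({x} : Sub k (Amb.proj M)) < U := by
    refine lt_of_le_of_ne (FibA_pt_le hx) fun h => hlt ?_
    rw [← h, sdim_pt]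
    exact zero_le_one
  obtain ⟨T, -, hTU, hd⟩ := exists_cover_up h1
  rw [sdim_pt] at hd
  have hle : U ≤ T := fun z hz => line_eq hw T.isClosed (fun y hy => hU y (hTU hy))
    (infinite_of_sdim (by omega)) (hU z hz)
  have := sdim_mono hle
  omega

omit [IsAlgClosed k] in
theorem Line_closed (W : Fin (M + 1) × Fin (M + 1) → k) :
    IsClosed {z : (Amb.proj M).Pt k | Inc W (vec z)} := by
  simp only [Inc, Set.ofPred_forall]
  refine isClosed_iInter fun i => isClosed_iInter fun j => isClosed_iInter fun l => ?_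
  have hX : ∀ (c : k) (m : Fin (M + 1)), IsForm (C c * X (⟨(), m⟩ : (Amb.proj M).V))
      (Finsupp.single () 1) := fun c m =>
    IsWeightedHomogeneous.C_mul (IsForm.X (k := k) (⟨(), m⟩ : (Amb.proj M).V)) c
  have hf : IsForm (C (W (i, j)) * X (⟨(), l⟩ : (Amb.proj M).V) + C (W (j, l)) * X ⟨(), i⟩ +
      C (W (l, i)) * X ⟨(), j⟩) (Finsupp.single () 1) :=
    ((hX _ _).add (hX _ _)).add (hX _ _)
  convert isClosed_zero hf using 3 with z
  simp [ev, vec]

theorem exists_line {w : (Amb.pl M).Pt k} (hw : Anti (plm w)) {y : (Amb.proj M).Pt k}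
    (hy : Inc (plm w) (vec y)) : ∃ U : Sub k (Amb.proj M), sdim U = 1 ∧
      ∀ z, z ∈ U ↔ Inc (plm w) (vec z) := by
  obtain ⟨a, b, hab⟩ := Line_plm_ne w
  have hdiag : ∀ i, plm w (i, i) = 0 := by
    intro i
    obtain ⟨c, hc⟩ := Function.ne_iff.1 (Line_vec_ne y)
    have hc' : vec y c ≠ 0 := hc
    refine mul_right_cancel₀ hc' ?_
    linear_combination hy i i c - vec y i * hw i c
  have hne : ∀ t : k, (fun l => plm w (a, l) + t * plm w (b, l)) ≠ 0 := by
    intro t h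
    have := congrFun h b
    simp only [hdiag, mul_zero, add_zero, Pi.zero_apply] at this
    exact hab this
  let z : k → (Amb.proj M).Pt k := fun t _ => Projectivization.mk k _ (hne t)
  have hz : ∀ t, ∃ c : k, c ≠ 0 ∧ ∀ l, vec (z t) l = c * (plm w (a, l) + t * plm w (b, l)) :=
    fun t => exists_rep_eq (h := hne t) rfl
  have hinj : Function.Injective z := by
    intro t t' h
    obtain ⟨c, hc, h1⟩ := hz t
    obtain ⟨c', -, h2⟩ := hz t'
    rw [h] at h1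
    have e1 := (h1 b).symm.trans (h2 b)
    have e2 := (h1 a).symm.trans (h2 a)
    rw [hdiag, mul_zero, mul_zero, add_zero] at e1
    rw [hdiag, hw b a, ← mul_right_cancel₀ hab e1] at e2
    refine mul_left_cancel₀ (mul_ne_zero hc hab) ?_
    linear_combination -e2
  have hinf : {z : (Amb.proj M).Pt k | Inc (plm w) (vec z)}.Infinite := by
    refine (Set.infinite_range_of_injective hinj).mono ?_
    rintro _ ⟨t, rfl⟩ i j l
    obtain ⟨c, -, h1⟩ := hz t
    rw [h1, h1, h1]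
    linear_combination c * hy.row hw (Line_vec_ne y) a i j l +
      c * t * hy.row hw (Line_vec_ne y) b i j l
  obtain ⟨s, hs, h1, h2⟩ := exists_comps (Line_closed (plm w))
  have : ∃ Z ∈ s, (Z : Set ((Amb.proj M).Pt k)).Infinite := by
    by_contra hcon
    push Not at hcon
    refine hinf ((hs.biUnion hcon).subset fun x hx => ?_)
    obtain ⟨Z, hZ, hle⟩ := h2 {x} (by rintro _ rfl; exact hx)
    exact Set.mem_biUnion hZ (hle (by rfl))
  obtain ⟨Z, hZ, hZi⟩ := this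
  refine ⟨Z, le_antisymm (Line_sdim_le hw (h1 Z hZ)) ?_,
    fun x => ⟨fun hx => h1 Z hZ hx, line_eq hw Z.isClosed (h1 Z hZ) hZi⟩⟩
  by_contra h0
  obtain ⟨x, hx⟩ := Z.isIrreducible.nonempty
  rw [eq_pt_of_sdim (by omega) hx] at hZi
  exact hZi (Set.finite_singleton x)

theorem exists_pl {Λ : Submodule k (Fin (M + 1) → k)} (h : Module.finrank k Λ = 2) :
    ∃ w : (Amb.pl M).Pt k, Anti (plm w) ∧ ∀ y, Inc (plm w) y ↔ y ∈ Λ := by
  let e := Module.finBasisOfFinrankEq k Λ h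
  let u : Fin (M + 1) → k := (e 0).1
  let u' : Fin (M + 1) → k := (e 1).1
  let W : Fin (M + 1) × Fin (M + 1) → k := fun p => u p.1 * u' p.2 - u p.2 * u' p.1
  have hW : W ≠ 0 := by
    intro h0
    have hu : u ≠ 0 := fun hu => e.ne_zero 0 (Subtype.ext hu)
    obtain ⟨i, hi⟩ := Function.ne_iff.1 hu
    apply hi
    have := Fintype.linearIndependent_iff.1 e.linearIndependent ![-u' i, u i] (by
      rw [Fin.sum_univ_two]
      refine Subtype.ext (funext fun l => ?_)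
      have h1 : u i * u' l - u l * u' i = 0 := congrFun h0 (i, l)
      change -u' i * u l + u i * u' l = 0
      linear_combination h1) 1
    exact this
  let w : (Amb.pl M).Pt k := fun _ => Projectivization.mk k W hW
  obtain ⟨c, hc, hw⟩ : ∃ c : k, c ≠ 0 ∧ ∀ p, plm w p = c * W p := exists_rep_eq (h := hW) rfl
  have hA : Anti (plm w) := by
    intro i j
    rw [hw, hw]
    simp only [W]
    ring
  refine ⟨w, hA, fun y => ⟨fun hy => ?_, fun hy => ?_⟩⟩
  · obtain ⟨a, b, hab⟩ := Line_plm_ne w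
    have : y = ((plm w (a, b))⁻¹ * c * (y a * u' b - y b * u' a)) • u +
        ((plm w (a, b))⁻¹ * c * (y b * u a - y a * u b)) • u' := by
      funext l
      have h1 := hy.span hA a b l
      rw [hw (a, l), hw (b, l)] at h1
      simp only [Pi.add_apply, Pi.smul_apply, smul_eq_mul]
      simp only [W] at h1
      field_simp
      linear_combination h1
    rw [this]
    exact Λ.add_mem (Λ.smul_mem _ (e 0).2) (Λ.smul_mem _ (e 1).2)
  · have h1 := congrArg Subtype.val (e.sum_repr ⟨y, hy⟩)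
    rw [Fin.sum_univ_two] at h1
    have h2 : ∀ l, y l = e.repr ⟨y, hy⟩ 0 * u l + e.repr ⟨y, hy⟩ 1 * u' l :=
      fun l => (congrFun h1 l).symm
    intro i j l
    rw [hw, hw, hw, h2 l, h2 i, h2 j]
    simp only [W]
    ring

variable {β : Crd k P₀ P₁} {yc : Crd k (Amb.proj M) P₁} {pc : Crd k (Amb.pl M) P₀} {E : Sub k P₁}

theorem LFam.fib1 (L : LFam β yc pc E) : Fib1 β E := by
  intro T hT hc
  obtain ⟨x, hx⟩ := T.isIrreducible.nonempty
  rw [← sdim_img_of_inj yc fun y hy y' hy' h => L.inj y (hT hy) y' (hT hy') h (hc y hy y' hy')]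
  refine Line_sdim_le (L.anti x (hT hx)) fun z hz => ?_
  obtain ⟨y, hy, rfl⟩ := yc.mem_img_iff.1 hz
  rw [hc x hx y hy]
  exact L.inc y (hT hy)

theorem Line_uq_le (L : LFam β yc pc E) {T T' : Sub k P₁} (hT : T ≤ E) (hT' : T' ≤ E)
    (he : β.img T = β.img T') (hd : sdim T' = sdim (β.img T') + 1) : T ≤ T' := by
  intro x hx
  obtain ⟨x', hx', hxx⟩ := β.mem_img_iff.1 (he ▸ β.mem_img hx)
  obtain ⟨S, hS, hxS, hc, hdS⟩ := fib_low β hx'
  have hSE : S ≤ E := hS.trans hT'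
  have hpos : 0 < sdim (yc.img S) := by
    rw [sdim_img_of_inj yc fun y hy y' hy' h =>
      L.inj y (hSE hy) y' (hSE hy') h (hc y hy y' hy')]
    omega
  have hmem : yc.pr x ∈ yc.img S := by
    refine line_eq (L.anti x (hT hx)) (yc.img S).isClosed (fun z hz => ?_)
      (infinite_of_sdim hpos) (L.inc x (hT hx))
    obtain ⟨y, hy, rfl⟩ := yc.mem_img_iff.1 hz
    rw [← hxx, hc x' hxS y hy]
    exact L.inc y (hSE hy)
  obtain ⟨y, hy, hyx⟩ := yc.mem_img_iff.1 hmem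
  rw [← L.inj y (hSE hy) x (hT hx) hyx ((hc y hy x' hxS).trans hxx)]
  exact hS hy

theorem LFam.uq (L : LFam β yc pc E) : UQ β E := by
  refine ⟨1, 0, IsForm.one, fun h => ?_, fun T hT T' hT' he _ hd hd' =>
    le_antisymm (Line_uq_le L hT hT' he hd') (Line_uq_le L hT' hT he.symm hd)⟩
  obtain ⟨x, hx⟩ := (β.img E).isIrreducible.nonempty
  simpa [ev] using h x hx

theorem LFam.ext (L : LFam β yc pc E) {E' : Sub k (P₁.sum Q)}
    (h : (Crd.inl k P₁ Q).img E' ≤ E) :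
    LFam (β.map Q) (yc.comp (Crd.inl k P₁ Q)) (pc.comp (Crd.inl k P₀ Q)) E' := by
  refine ⟨fun x hx => L.anti _ (h ((Crd.inl k P₁ Q).mem_img hx)),
    fun x hx => L.inc _ (h ((Crd.inl k P₁ Q).mem_img hx)), fun x hx x' hx' h1 h2 => ?_⟩
  exact sum_ext (L.inj _ (h ((Crd.inl k P₁ Q).mem_img hx)) _ (h ((Crd.inl k P₁ Q).mem_img hx')) h1
    (congrArg (Crd.inl k P₀ Q).pr h2)) (congrArg (Crd.inr k P₀ Q).pr h2)

theorem Line_sdim_cst (β : Crd k P P') {U : Sub k P'} (h : β.Cst U) : sdim (β.img U) = 0 := by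
  obtain ⟨x, hx⟩ := U.isIrreducible.nonempty
  have hle : β.img U ≤ {β.pr x} :=
    (β.img_sub isClosed_singleton).2 fun y hy => h y hy x hx
  have := sdim_mono hle
  rw [sdim_pt] at this
  omega

theorem sat_cover (β : Crd k P P') (Z : Sub k P') (hF : Fib1 β Z) :
    ∃ 𝒮 : Set (Sub k P'), 𝒮.Finite ∧ (∀ T ∈ 𝒮, T ≤ Z ∧ sdim T = sdim (β.img T) + 1) ∧
      ∀ U ≤ Z, β.Cst U → 0 < sdim U → ∃ T ∈ 𝒮, U ≤ T := by
  induction hn : sdim Z using Nat.strong_induction_on generalizing Z with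
  | _ n ih =>
    by_cases hsat : sdim Z = sdim (β.img Z) + 1
    · exact ⟨{Z}, Set.finite_singleton Z, by rintro _ rfl; exact ⟨le_rfl, hsat⟩,
        fun U hU _ _ => ⟨Z, rfl, hU⟩⟩
    have hle := hF.le le_rfl
    obtain ⟨g, a, hg, hZ, H⟩ := β.fibre Z
    have hfin := finite_div Z hg hZ
    have key : ∀ T ∈ {T : Sub k P' | T ≤ Z ∧ sdim T + 1 = sdim Z ∧ Van (T : Set (P'.Pt k)) g},
        ∃ 𝒮 : Set (Sub k P'), 𝒮.Finite ∧ (∀ S ∈ 𝒮, S ≤ T ∧ sdim S = sdim (β.img S) + 1) ∧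
          ∀ U ≤ T, β.Cst U → 0 < sdim U → ∃ S ∈ 𝒮, U ≤ S :=
      fun T hT => ih (sdim T) (by have := hT.2.1; omega) T (hF.mono hT.1) rfl
    choose! 𝒮 h1 h2 h3 using key
    refine ⟨⋃ T ∈ {T : Sub k P' | T ≤ Z ∧ sdim T + 1 = sdim Z ∧ Van (T : Set (P'.Pt k)) g}, 𝒮 T,
      hfin.biUnion h1, fun S hS => ?_, fun U hU hc hpos => ?_⟩
    · obtain ⟨T, hT, hST⟩ := Set.mem_iUnion₂.1 hS
      exact ⟨(h2 T hT S hST).1.trans hT.1, (h2 T hT S hST).2⟩
    · have hv : Van (U : Set (P'.Pt k)) g := by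
        by_contra hv
        have := H U hU hv
        rw [Line_sdim_cst β hc] at this
        omega
      obtain ⟨T, hUT, hTZ, hTv, hTd⟩ := krg hU hg hZ hv
      obtain ⟨S, hS, hUS⟩ := h3 T ⟨hTZ, hTd, hTv⟩ U hUT hc hpos
      exact ⟨S, Set.mem_biUnion (show T ∈ _ from ⟨hTZ, hTd, hTv⟩) hS, hUS⟩

end Pool.Agent.Work.MP_ffcd14_ag
end

-- merged part: Pool.Agent.Work.MP_ffcd14_ag.Cyc.EtaA
section
/-! # Removing the common factor of binary forms -/

open MvPolynomial Topology TopologicalSpace Filter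

namespace Pool.Agent.Work.MP_ffcd14_ag

universe u v w

theorem EtaA_eval {R S : Type*} [CommRing R] [CommRing S] (f : R →+* S) (p : Polynomial R)
    (n : ℕ) (a b : S) :
    eval₂ f ![a, b] (p.homogenize n) = binF n (fun i => f (p.coeff i)) a b := by
  unfold Polynomial.homogenize binF
  rw [eval₂_sum, Finset.Nat.sum_antidiagonal_eq_sum_range_succ_mk, Finset.sum_range]
  refine Finset.sum_congr rfl fun i _ => ?_
  rw [eval₂_monomial, Finsupp.prod_fintype _ _ (by simp)]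
  simp [Fin.prod_univ_two, mul_assoc]

theorem EtaA_smul {S : Type*} [CommRing S] (n : ℕ) (c : Fin (n + 1) → S) (r a b : S) :
    binF n c (r * a) (r * b) = r ^ n * binF n c a b := by
  unfold binF
  rw [Finset.mul_sum]
  refine Finset.sum_congr rfl fun i _ => ?_
  have hi : (i : ℕ) ≤ n := Nat.lt_succ_iff.1 i.2
  have : r ^ n = r ^ (i : ℕ) * r ^ (n - i) := by rw [← pow_add, Nat.add_sub_cancel' hi]
  rw [this, mul_pow, mul_pow]
  ring

theorem EtaA_top {S : Type*} [CommRing S] (n : ℕ) (c : Fin (n + 1) → S) (a : S) :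
    binF n c a 0 = c (Fin.last n) * a ^ n := by
  unfold binF
  rw [Fin.sum_univ_castSucc, Finset.sum_eq_zero]
  · simp
  · intro i _
    have : n - (i : ℕ) ≠ 0 := by have := i.2; omega
    simp [this]

theorem EtaA_hom {R : Type*} [CommRing R] {n : ℕ} {G : MvPolynomial (Fin 2) R}
    (hG : G.IsHomogeneous n) :
    ∃ p : Polynomial R, p.natDegree ≤ n ∧ G = p.homogenize n := by
  refine ⟨aeval ![Polynomial.X, 1] G, ?_,
    (Polynomial.homogenize_eq_of_isHomogeneous hG rfl).symm⟩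
  have h := (Polynomial.homogenize_eq_of_isHomogeneous hG rfl).symm
  have h2 : aeval ![Polynomial.X, 1] G = binF n
      (fun i => Polynomial.C ((aeval ![Polynomial.X, (1 : Polynomial R)] G).coeff i))
      Polynomial.X 1 := by
    rw [← EtaA_eval, ← h]
    rfl
  rw [h2]
  unfold binF
  refine Polynomial.natDegree_sum_le_of_forall_le _ _ fun i _ => ?_
  rw [one_pow, mul_one]
  exact (Polynomial.natDegree_C_mul_X_pow_le _ _).trans (Nat.lt_succ_iff.1 i.2)

theorem EtaA_bezout {L : Type*} [Field L] {σ : Type*} [Fintype σ] (p : σ → Polynomial L)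
    (h : ∃ s, p s ≠ 0) : ∃ (g : Polynomial L) (q u : σ → Polynomial L),
      (∀ s, p s = g * q s) ∧ ∑ s, u s * q s = 1 := by
  obtain ⟨g, hg⟩ := (IsPrincipalIdealRing.principal (Ideal.span (Set.range p))).principal
  have h1 : ∀ s, ∃ q, p s = g * q := fun s => by
    have : p s ∈ Ideal.span (Set.range p) := Ideal.subset_span ⟨s, rfl⟩
    rw [hg] at this
    obtain ⟨q, hq⟩ := Ideal.mem_span_singleton'.1 this
    exact ⟨q, by rw [← hq, mul_comm]⟩
  choose q hq using h1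
  have h2 : g ∈ Ideal.span (Set.range p) := by
    rw [hg]
    exact Ideal.mem_span_singleton_self g
  obtain ⟨u, hu⟩ := Ideal.mem_span_range_iff_exists_fun.1 h2
  have hg0 : g ≠ 0 := by
    obtain ⟨s, hs⟩ := h
    rintro rfl
    exact hs (by rw [hq s, zero_mul])
  refine ⟨g, q, u, hq, mul_left_cancel₀ hg0 ?_⟩
  rw [mul_one, Finset.mul_sum]
  conv_rhs => rw [← hu]
  exact Finset.sum_congr rfl fun s _ => by rw [hq s]; ring

/-- Binary forms without a common factor. -/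
theorem EtaA_red {L : Type u} [Field L] {σ : Type*} [Finite σ] {e : ℕ}
    (G : σ → MvPolynomial (Fin 2) L) (hG : ∀ s, (G s).IsHomogeneous e) (h : ∃ s, G s ≠ 0) :
    ∃ (d : ℕ) (H : σ → MvPolynomial (Fin 2) L), (∀ s, (H s).IsHomogeneous d) ∧
      (∀ s t, H s * G t = H t * G s) ∧
      ∀ (L' : Type u) [Field L'] (ψ : L →+* L') (a b : L'), (a ≠ 0 ∨ b ≠ 0) →
        ∃ s, eval₂ ψ ![a, b] (H s) ≠ 0 := by
  classical
  have := Fintype.ofFinite σ
  choose p hp hGp using fun s => EtaA_hom (hG s)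
  have hp0 : ∃ s, p s ≠ 0 := by
    obtain ⟨s, hs⟩ := h
    exact ⟨s, fun h0 => hs (by rw [hGp s, h0, Polynomial.homogenize_zero])⟩
  obtain ⟨g, q, u, hq, hu⟩ := EtaA_bezout p hp0
  obtain ⟨s1, hs1⟩ := hp0
  have : Nonempty σ := ⟨s1⟩
  obtain ⟨s0, hs0⟩ := Finite.exists_max fun s => (q s).degree
  have hq0 : q s0 ≠ 0 := by
    intro h0
    have h1 := hs0 s1
    rw [h0, Polynomial.degree_zero, le_bot_iff, Polynomial.degree_eq_bot] at h1
    exact hs1 (by rw [hq s1, h1, mul_zero])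
  have hd : ∀ s, (q s).natDegree ≤ (q s0).natDegree := fun s =>
    Polynomial.natDegree_le_natDegree (hs0 s)
  refine ⟨(q s0).natDegree, fun s => (q s).homogenize (q s0).natDegree,
    fun s => Polynomial.isHomogeneous_homogenize _, fun s t => ?_, fun L' _ ψ a b hab => ?_⟩
  · rw [hGp s, hGp t, ← Polynomial.homogenize_mul _ _ (hd s) (hp t),
      ← Polynomial.homogenize_mul _ _ (hd t) (hp s), hq s, hq t]
    congr 1
    ring
  · by_cases hb : b = 0
    · refine ⟨s0, ?_⟩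
      have ha : a ≠ 0 := hab.resolve_right (not_not.2 hb)
      rw [EtaA_eval, hb, EtaA_top]
      refine mul_ne_zero ((map_ne_zero ψ).2 ?_) (pow_ne_zero _ ha)
      exact Polynomial.leadingCoeff_ne_zero.2 hq0
    · by_contra hall
      push Not at hall
      have h1 : ∀ s, (q s).eval₂ ψ (a / b) = 0 := fun s => by
        have h2 := hall s
        have h3 := Polynomial.eval₂_homogenize_of_eq_one (hd s) ψ ![a / b, 1] rfl
        rw [EtaA_eval] at h2 h3
        have h4 := EtaA_smul (q s0).natDegree (fun i => ψ ((q s).coeff i)) b (a / b) 1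
        rw [mul_div_cancel₀ _ hb, mul_one, h2, h3] at h4
        exact (mul_eq_zero.1 h4.symm).resolve_left (pow_ne_zero _ hb)
      have h5 := congrArg (Polynomial.eval₂RingHom ψ (a / b)) hu
      rw [map_sum, map_one, Finset.sum_eq_zero] at h5
      · exact zero_ne_one h5
      · intro s _
        rw [map_mul, Polynomial.coe_eval₂RingHom, h1 s, mul_zero]

theorem EtaA_scale {R S : Type*} [CommRing R] [CommRing S] (f : R →+* S) {n : ℕ}
    {G : MvPolynomial (Fin 2) R} (hG : G.IsHomogeneous n) (r a b : S) :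
    eval₂ f ![r * a, r * b] G = r ^ n * eval₂ f ![a, b] G := by
  obtain ⟨p, -, rfl⟩ := EtaA_hom hG
  rw [EtaA_eval, EtaA_eval, EtaA_smul]

/-- A linear substitution in a binary form is a binary form. -/
theorem EtaA_subst {L : Type u} [Field L] {d : ℕ} {H : MvPolynomial (Fin 2) L}
    (hH : H.IsHomogeneous d) (α β γ δ : L) : ∃ η : Fin (d + 1) → L,
      ∀ (L' : Type u) [Field L'] (ψ : L →+* L') (a b : L'), binF d (fun i => ψ (η i)) a b =
        eval₂ ψ ![a * ψ α + b * ψ β, a * ψ γ + b * ψ δ] H := by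
  let T : Fin 2 → MvPolynomial (Fin 2) L := ![X 0 * C α + X 1 * C β, X 0 * C γ + X 1 * C δ]
  have hX : ∀ (i : Fin 2) (c : L), (X i * C c : MvPolynomial (Fin 2) L).IsHomogeneous 1 :=
    fun i c => (isHomogeneous_X L i).mul (isHomogeneous_C _ c)
  have hT : ∀ i, (T i).IsHomogeneous 1 := by
    intro i
    fin_cases i
    · exact (hX 0 α).add (hX 1 β)
    · exact (hX 0 γ).add (hX 1 δ)
  have hK := hH.aeval T hT
  rw [one_mul] at hK
  obtain ⟨p, -, hp⟩ := EtaA_hom hK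
  refine ⟨fun i => p.coeff i, fun L' _ ψ a b => ?_⟩
  rw [← EtaA_eval, ← hp]
  have := eval₂Hom_bind₁ ψ ![a, b] T H
  rw [coe_eval₂Hom, coe_eval₂Hom] at this
  refine this.trans ?_
  congr 1
  funext i
  fin_cases i <;> simp [T]

variable {k L : Type u} [Field k] [Field L] [Algebra k L] {V σ : Type} [Finite σ]

theorem eta_alg (w : V × V → L) (hw : Anti w) (hr : ∀ a, Inc w fun l => w (a, l))
    (h0 : w ≠ 0) (F : σ → MvPolynomial V k) (e : ℕ) (hF : ∀ s, (F s).IsHomogeneous e)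
    (L₁ : Type u) [Field L₁] [Algebra k L₁] (ψ₁ : L →ₐ[k] L₁) (y₁ : V → L₁)
    (h1 : Inc (fun p => ψ₁ (w p)) y₁) (h2 : ∃ s, aeval y₁ (F s) ≠ 0) :
    ∃ (d : ℕ) (η : σ → V × V → Fin (d + 1) → L),
      (∀ s p q (a b : L), w p ^ d * binF d (η s q) a b = binF d (η s p)
        (a * w (q.1, p.2) + b * w (q.2, p.2)) (-(a * w (q.1, p.1) + b * w (q.2, p.1)))) ∧
      ∀ (L' : Type u) [Field L'] [Algebra k L'] (ψ : L →ₐ[k] L') (y : V → L'),
        Inc (fun p => ψ (w p)) y →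
        (∀ s t p q, binF d (fun i => ψ (η s p i)) (y p.2) (-y p.1) * (aeval y (F t) * ψ (w q) ^ d) =
          binF d (fun i => ψ (η t q i)) (y q.2) (-y q.1) * (aeval y (F s) * ψ (w p) ^ d)) ∧
        (y ≠ 0 → ∃ s p, binF d (fun i => ψ (η s p i)) (y p.2) (-y p.1) ≠ 0) := by
  obtain ⟨⟨a0, b0⟩, hW⟩ := Function.ne_iff.1 h0
  have hW : w (a0, b0) ≠ 0 := hW
  let ℓ : V → MvPolynomial (Fin 2) L := fun l => X 0 * C (w (a0, l)) + X 1 * C (w (b0, l))
  have hX : ∀ (i : Fin 2) (c : L), (X i * C c : MvPolynomial (Fin 2) L).IsHomogeneous 1 :=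
    fun i c => (isHomogeneous_X L i).mul (isHomogeneous_C _ c)
  have hG : ∀ s, (aeval ℓ (F s)).IsHomogeneous e := fun s => by
    have := (hF s).aeval ℓ fun l => (hX 0 _).add (hX 1 _)
    rwa [one_mul] at this
  have hanti : ∀ (L' : Type u) [Field L'] (ψ : L →+* L'), Anti fun p => ψ (w p) :=
    fun L' _ ψ i j => by
      change ψ (w (i, j)) = -ψ (w (j, i))
      rw [hw i j, map_neg]
  have hGe : ∀ (L' : Type u) [Field L'] [Algebra k L'] (ψ : L →ₐ[k] L') (y : V → L'),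
      Inc (fun p => ψ (w p)) y → ∀ s, aeval y (F s) = eval₂ (ψ : L →+* L')
        ![y b0 * (ψ (w (a0, b0)))⁻¹, -y a0 * (ψ (w (a0, b0)))⁻¹] (aeval ℓ (F s)) := by
    intro L' _ _ ψ y hy s
    have hψ : ψ (w (a0, b0)) ≠ 0 := (map_ne_zero ψ).2 hW
    have h3 := congrArg (fun φ : MvPolynomial V k →ₐ[k] L' => φ (F s)) (comp_aeval ℓ
      (aevalTower ψ ![y b0 * (ψ (w (a0, b0)))⁻¹, -y a0 * (ψ (w (a0, b0)))⁻¹]))
    refine Eq.trans ?_ h3.symm
    congr 2
    funext l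
    have h4 := Inc.span (hanti L' ψ) hy a0 b0 l
    simp only [RingHom.coe_coe] at h4
    simp only [ℓ, map_add, map_mul, aevalTower_X, aevalTower_C, Matrix.cons_val_zero,
      Matrix.cons_val_one]
    field_simp
    linear_combination h4
  obtain ⟨d, H, hH, hc, hn⟩ := EtaA_red (fun s => aeval ℓ (F s)) hG (by
    obtain ⟨s, hs⟩ := h2
    refine ⟨s, fun h => hs ?_⟩
    rw [hGe L₁ ψ₁ y₁ h1 s, h, eval₂_zero])
  choose η hη using fun (s : σ) (q : V × V) => EtaA_subst (hH s)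
    (w (q.1, b0) * (w (a0, b0))⁻¹) (w (q.2, b0) * (w (a0, b0))⁻¹)
    (-w (q.1, a0) * (w (a0, b0))⁻¹) (-w (q.2, a0) * (w (a0, b0))⁻¹)
  have key : ∀ (L' : Type u) [Field L'] (ψ : L →+* L') (y : V → L'),
      Inc (fun p => ψ (w p)) y → ∀ s p, binF d (fun i => ψ (η s p i)) (y p.2) (-y p.1) =
        ψ (w p) ^ d * eval₂ ψ
          ![y b0 * (ψ (w (a0, b0)))⁻¹, -y a0 * (ψ (w (a0, b0)))⁻¹] (H s) := by
    rintro L' _ ψ y hy s ⟨i, j⟩
    rw [hη, ← EtaA_scale ψ (hH s)]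
    have h4 := Inc.span (hanti L' ψ) hy i j b0
    have h5 := Inc.span (hanti L' ψ) hy i j a0
    simp only [map_mul, map_neg, map_inv₀] at h4 h5 ⊢
    congr 3
    · linear_combination (-(ψ (w (a0, b0)))⁻¹) * h4
    · linear_combination (ψ (w (a0, b0)))⁻¹ * h5
  refine ⟨d, η, fun s p q a b => ?_, fun L' _ _ ψ y hy => ⟨fun s t p q => ?_, fun hy0 => ?_⟩⟩
  · have hz : Inc (fun p => RingHom.id L (w p)) fun l => a * w (q.1, l) + b * w (q.2, l) := by
      intro i j l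
      have h3 := hr q.1 i j l
      have h4 := hr q.2 i j l
      simp only [RingHom.id_apply] at h3 h4 ⊢
      linear_combination a * h3 + b * h4
    have h3 := key L (RingHom.id L) _ hz s p
    have h4 := hη s q L (RingHom.id L) a b
    simp only [RingHom.id_apply] at h3 h4
    rw [h3, h4]
    congr 4
    · ring
    · ring
  · have h3 := key L' ψ y hy s p
    have h4 := key L' ψ y hy t q
    have h5 := congrArg (eval₂ (ψ : L →+* L')
      ![y b0 * (ψ (w (a0, b0)))⁻¹, -y a0 * (ψ (w (a0, b0)))⁻¹]) (hc s t)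
    rw [eval₂_mul, eval₂_mul, ← hGe L' ψ y hy, ← hGe L' ψ y hy] at h5
    simp only [RingHom.coe_coe] at h3 h4
    rw [h3, h4]
    linear_combination ψ (w p) ^ d * ψ (w q) ^ d * h5
  · have hψ : ψ (w (a0, b0)) ≠ 0 := (map_ne_zero ψ).2 hW
    have hab : y b0 * (ψ (w (a0, b0)))⁻¹ ≠ 0 ∨ -y a0 * (ψ (w (a0, b0)))⁻¹ ≠ 0 := by
      by_contra h
      push Not at h
      refine hy0 (funext fun l => ?_)
      have h4 := Inc.span (hanti L' ψ) hy a0 b0 l
      have h5 := (mul_eq_zero.1 h.1).resolve_right (inv_ne_zero hψ)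
      have h6 := (mul_eq_zero.1 h.2).resolve_right (inv_ne_zero hψ)
      simp only [RingHom.coe_coe] at h4
      rw [h5, h6, zero_mul, zero_mul, add_zero] at h4
      exact (mul_eq_zero.1 h4).resolve_left hψ
    obtain ⟨s, hs⟩ := hn L' ψ _ _ hab
    refine ⟨s, (a0, b0), ?_⟩
    have h3 := key L' ψ y hy s (a0, b0)
    simp only [RingHom.coe_coe] at h3
    rw [h3]
    exact mul_ne_zero (pow_ne_zero _ hψ) hs

end Pool.Agent.Work.MP_ffcd14_ag
end
end

-- merged part: Pool.Agent.Work.MP_ffcd14_ag.Uni.B0a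
section
-- merged part: Pool.Agent.Work.MP_ffcd14_ag.Uni.V4a
section
/-! # Restriction of pulled-back systems, generating and big systems -/

open MvPolynomial

namespace Pool.Agent.Work.MP_ffcd14_ag.Uni

universe u

variable {k F L : Type u} [Field k] [Field F] [Field L] [Algebra k F] [Algebra k L]

theorem V4a_mn_scale {v w : Vl k F} {e : ℕ} (h : ∀ f, v f = e * w f) (V : FD k F) :
    mn V v = e * mn V w := by
  apply le_antisymm
  · exact (mn_le V v (V.pick_mem w) (V.pick_ne w)).trans (h _).le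
  · rw [mn, mn, h]
    exact mul_le_mul_of_nonneg_left (mn_le V w (V.pick_mem v) (V.pick_ne v)) (Nat.cast_nonneg e)

theorem V4a_scale {v w : Vl k F} {e : ℕ} (h : ∀ f, v f = e * w f) (D : DD k F) :
    D v = e * D w := by
  obtain ⟨n, U, U', hn, hD⟩ := D.rep
  have h1 : (n • D) v = (mD U - mD U') v := by rw [hD]
  have h2 : (n • D) w = (mD U - mD U') w := by rw [hD]
  simp only [DD.nsmul_apply, DD.sub_apply, mD_apply] at h1 h2
  rw [V4a_mn_scale h, V4a_mn_scale h U'] at h1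
  have h0 : (n : FF) ≠ 0 := Nat.cast_ne_zero.2 hn.ne'
  apply mul_left_cancel₀ h0
  linear_combination h1 - e * h2

theorem V4a_v_pi (ν : Dv k L) (m : ℤ) : ν (ν.π ^ m) = m := by
  rw [ν.toVl.zpow, ν.v_π, mul_one]

theorem V4a_ge (ν : Dv k L) {V : FD k L} {f : L} (hf : f ∈ V.1) :
    0 ≤ ν (f / ν.π ^ ν.mz V) := by
  rcases eq_or_ne f 0 with rfl | h0
  · rw [zero_div, ν.zero]
  · rw [ν.toVl.div h0 (zpow_ne_zero _ ν.π_ne), V4a_v_pi, ν.mz_cast, sub_nonneg]
    exact mn_le V _ hf h0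

theorem V4a_rt_pr {a : L} (ha : a ≠ 0) (V : FD k L) : rt (FD.pr a * V) = rt V := by
  refine Set.Subset.antisymm ?_ (rt_dvd (dvd_mul_left _ _))
  rintro _ ⟨f, hf, g, hg, rfl⟩
  rw [FD.mul_val, FD.pr_val ha, Submodule.mem_span_singleton_mul] at hf hg
  obtain ⟨f, hf, rfl⟩ := hf
  obtain ⟨g, hg, rfl⟩ := hg
  exact ⟨f, hf, g, hg, mul_div_mul_left _ _ ha⟩

theorem vq_pD_tv {ι : F →ₐ[k] L} {ν : Dv k L} (h : Tv ι ν.toVl) (D : DD k F) :
    ν.vq (pD ι D) = 0 := by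
  have := V4a_scale (v := ν.comap ι) (w := ν.comap ι) (e := 0) (fun f => by simpa using h f) D
  rw [Nat.cast_zero, zero_mul, ← pD_apply, ← ν.vq_cast] at this
  exact_mod_cast this

theorem vq_pD_ov {ι : F →ₐ[k] L} {c : Dv k F} {ν : Dv k L} {e : ℕ} (h : ∀ f, ν (ι f) = e * c f)
    (D : DD k F) : ν.vq (pD ι D) = e * c.vq D := by
  have := V4a_scale (v := ν.comap ι) (w := c.toVl) h D
  rw [← pD_apply, ← ν.vq_cast, ← c.vq_cast] at this
  exact_mod_cast this

theorem Res_map_tv {ι : F →ₐ[k] L} {ν : Dv k L} (h : Tv ι ν.toVl) (V : FD k F) :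
    ν.Res (FD.map ι V) = FD.map h.tmap V := by
  have h0 : ν.mz (FD.map ι V) = 0 := by
    have := ν.mz_cast (FD.map ι V)
    rw [mn_map, mn, Vl.comap_apply, h] at this
    exact_mod_cast this
  refine FD.ext (Submodule.ext fun y => ?_)
  rw [ν.mem_Res, h0, FD.map_val, FD.map_val]
  simp only [zpow_zero, div_one, Submodule.mem_map, AlgHom.toLinearMap_apply, h.tmap_apply]
  constructor
  · rintro ⟨_, ⟨f, hf, rfl⟩, rfl⟩
    exact ⟨f, hf, rfl⟩
  · rintro ⟨f, hf, rfl⟩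
    exact ⟨_, ⟨f, hf, rfl⟩, rfl⟩

theorem Res_map_ov {ι : F →ₐ[k] L} {c : Dv k F} {ν : Dv k L} (h : Ov ι c.toVl ν.toVl)
    (V : FD k F) : ∃ a, a ≠ 0 ∧ ν.Res (FD.map ι V) = FD.pr a * FD.map h.kmap (c.Res V) := by
  obtain ⟨e, -, he⟩ := Dv.ov_e h
  have h1 : ι (c.π ^ c.mz V) ≠ 0 := (map_ne_zero ι).2 (zpow_ne_zero _ c.π_ne)
  have h2 : ν.π ^ ν.mz (FD.map ι V) ≠ 0 := zpow_ne_zero _ ν.π_ne
  have h3 : ν (ι (c.π ^ c.mz V) / ν.π ^ ν.mz (FD.map ι V)) = 0 := by
    rw [ν.toVl.div h1 h2, he, V4a_v_pi, V4a_v_pi, ν.mz_cast, c.mz_cast, mn_map,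
      V4a_mn_scale (v := ν.comap ι) (w := c.toVl) he, sub_self]
  have h4 : ν.res (ι (c.π ^ c.mz V) / ν.π ^ ν.mz (FD.map ι V)) ≠ 0 := by
    rw [Ne, Vl.res_eq_zero, not_or, not_not]
    exact ⟨div_ne_zero h1 h2, h3⟩
  have key : ∀ f ∈ V.1, ν.res (ι f / ν.π ^ ν.mz (FD.map ι V)) =
      ν.res (ι (c.π ^ c.mz V) / ν.π ^ ν.mz (FD.map ι V)) * h.kmap (c.res (f / c.π ^ c.mz V)) := by
    intro f hf
    rw [h.kmap_res, ← ν.res_mul h3.ge ((h _).2 (V4a_ge c hf)), map_div₀, mul_comm,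
      div_mul_div_cancel₀ h1]
  refine ⟨_, h4, FD.ext (Submodule.ext fun y => ?_)⟩
  rw [ν.mem_Res, FD.mul_val, FD.pr_val h4, Submodule.mem_span_singleton_mul, FD.map_val,
    FD.map_val]
  simp only [Submodule.mem_map, AlgHom.toLinearMap_apply, c.mem_Res]
  constructor
  · rintro ⟨_, ⟨f, hf, rfl⟩, rfl⟩
    exact ⟨_, ⟨_, ⟨f, hf, rfl⟩, rfl⟩, (key f hf).symm⟩
  · rintro ⟨_, ⟨_, ⟨f, hf, rfl⟩, rfl⟩, rfl⟩
    exact ⟨_, ⟨f, hf, rfl⟩, key f hf⟩

theorem rt_Res_map_ov {ι : F →ₐ[k] L} {c : Dv k F} {ν : Dv k L} (h : Ov ι c.toVl ν.toVl)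
    (V : FD k F) : rt (ν.Res (FD.map ι V)) = h.kmap '' rt (c.Res V) := by
  obtain ⟨a, ha, e⟩ := Res_map_ov h V
  rw [e, V4a_rt_pr ha, rt_map]

theorem rs_pb_tv {ι : F →ₐ[k] L} {ν : Dv k L} (h : Tv ι ν.toVl) (x : N k F) :
    ν.rs (pb ι x) = pb h.tmap x := by
  refine AlgHom.congr_fun (N.hom_ext (φ := ν.rs.comp (pb ι)) (ψ := pb h.tmap) fun V => ?_) x
  rw [AlgHom.comp_apply, pb_hh, ν.rs_hh, pb_hh, Res_map_tv h]

theorem rs_pb_ov {ι : F →ₐ[k] L} {c : Dv k F} {ν : Dv k L} (h : Ov ι c.toVl ν.toVl) (x : N k F) :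
    ν.rs (pb ι x) = pb h.kmap (c.rs x) := by
  refine AlgHom.congr_fun
    (N.hom_ext (φ := ν.rs.comp (pb ι)) (ψ := (pb h.kmap).comp c.rs) fun V => ?_) x
  obtain ⟨a, -, e⟩ := Res_map_ov h V
  rw [AlgHom.comp_apply, AlgHom.comp_apply, pb_hh, ν.rs_hh, c.rs_hh, pb_hh, e, hh_mul, hh_pr,
    zero_add]

theorem V4a_frac (V : FD k L) {a : L} (ha : a ∈ Algebra.adjoin k (rt V)) :
    ∃ (j : ℕ) (g : L), g ∈ (V ^ j).1 ∧ g ≠ 0 ∧ a * g ∈ (V ^ j).1 := by
  induction ha using Algebra.adjoin_induction with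
  | mem x hx =>
    obtain ⟨f, hf, g, hg, rfl⟩ := hx
    rcases eq_or_ne g 0 with rfl | h0
    · exact ⟨0, 1, by simp [FD.one_val], one_ne_zero, by simp⟩
    · exact ⟨1, g, by rwa [pow_one], h0, by rwa [pow_one, div_mul_cancel₀ _ h0]⟩
  | algebraMap c => exact ⟨0, 1, by simp [FD.one_val], one_ne_zero, by simp [FD.one_val]⟩
  | add x y _ _ hx hy =>
    obtain ⟨j, g, h1, h2, h3⟩ := hx
    obtain ⟨j', g', h1', h2', h3'⟩ := hy
    refine ⟨j + j', g * g', ?_, mul_ne_zero h2 h2', ?_⟩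
    · rw [pow_add]
      exact Submodule.mul_mem_mul h1 h1'
    · rw [pow_add, show (x + y) * (g * g') = x * g * g' + g * (y * g') by ring]
      exact add_mem (Submodule.mul_mem_mul h3 h1') (Submodule.mul_mem_mul h1 h3')
  | mul x y _ _ hx hy =>
    obtain ⟨j, g, h1, h2, h3⟩ := hx
    obtain ⟨j', g', h1', h2', h3'⟩ := hy
    refine ⟨j + j', g * g', ?_, mul_ne_zero h2 h2', ?_⟩
    · rw [pow_add]
      exact Submodule.mul_mem_mul h1 h1'
    · rw [pow_add, show (x * y) * (g * g') = x * g * (y * g') by ring]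
      exact Submodule.mul_mem_mul h3 h3'

theorem V4a_fracs (V : FD k L) {ι : Type*} (s : Finset ι) (a : ι → L)
    (ha : ∀ i, a i ∈ Algebra.adjoin k (rt V)) :
    ∃ (j : ℕ) (g : L), g ∈ (V ^ j).1 ∧ g ≠ 0 ∧ ∀ i ∈ s, a i * g ∈ (V ^ j).1 := by
  classical
  induction s using Finset.induction_on with
  | empty => exact ⟨0, 1, by simp [FD.one_val], one_ne_zero, by simp⟩
  | insert i s _ ih =>
    obtain ⟨j, g, h1, h2, h3⟩ := V4a_frac V (ha i)
    obtain ⟨j', g', h1', h2', h3'⟩ := ih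
    refine ⟨j + j', g * g', ?_, mul_ne_zero h2 h2', fun l hl => ?_⟩
    · rw [pow_add]
      exact Submodule.mul_mem_mul h1 h1'
    · rw [pow_add]
      rcases Finset.mem_insert.1 hl with rfl | hl
      · rw [← mul_assoc]
        exact Submodule.mul_mem_mul h3 h1'
      · rw [mul_left_comm]
        exact Submodule.mul_mem_mul h1 (h3' l hl)

theorem V4a_mul_ge {v : Vl k L} {x y : L} {m n : FF} (hx : x ∈ v.ge m) (hy : y ∈ v.ge n) :
    x * y ∈ v.ge (m + n) := by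
  rcases eq_or_ne x 0 with rfl | hx0
  · exact Or.inl (zero_mul _)
  rcases eq_or_ne y 0 with rfl | hy0
  · exact Or.inl (mul_zero _)
  exact Or.inr (by rw [v.mul _ _ hx0 hy0]; exact add_le_add (hx.resolve_left hx0) (hy.resolve_left hy0))

theorem V4a_pow_ge {V : FD k L} {j : ℕ} {c : L} (hc : c ∈ (V ^ j).1) (v : Vl k L) :
    c ∈ v.ge (j * mn V v) := le_mn.1 (mn_pow V j v).ge hc

theorem V4a_one [Fg k L] {V : FD k L} (h : rn k (rt V) = td k L) (y : L) :
    ∃ (j : ℕ) (c : L), c ∈ (V ^ j).1 ∧ c ≠ 0 ∧ ∀ v : Vl k L, c * y ∈ v.ge (j * mn V v) := by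
  obtain ⟨p, hp, hy⟩ := alg_of_rn (k := k) (s := rt V) (t := Set.univ)
    (by rw [h]; exact rn_le_td _) (Set.mem_univ y)
  obtain ⟨j, g, h1, h2, h3⟩ := V4a_fracs V (Finset.range (p.natDegree + 1))
    (fun i => (p.coeff i : L)) fun i => (p.coeff i).2
  have hl : (p.coeff p.natDegree : L) ≠ 0 := fun h0 =>
    hp (Polynomial.leadingCoeff_eq_zero.1 (Subtype.ext h0))
  have hd := h3 _ (Finset.self_mem_range_succ _)
  refine ⟨j, _, hd, mul_ne_zero hl h2, fun v => ?_⟩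
  rcases eq_or_ne y 0 with rfl | hy0
  · exact Or.inl (mul_zero _)
  rcases le_or_gt 0 (v y) with hv | hv
  · simpa using V4a_mul_ge (V4a_pow_ge hd v) (show y ∈ v.ge 0 from Or.inr hv)
  rw [Polynomial.aeval_eq_sum_range, Finset.sum_range_succ] at hy
  have e : (p.coeff p.natDegree : L) * g * y ^ p.natDegree =
      -∑ i ∈ Finset.range p.natDegree, (p.coeff i : L) * g * y ^ i := by
    have := congrArg (· * g) hy
    simp only [add_mul, Finset.sum_mul, zero_mul, Subalgebra.smul_def, smul_eq_mul] at this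
    rw [eq_neg_iff_add_eq_zero, add_comm, ← this]
    congr 1
    · exact Finset.sum_congr rfl fun i _ => by ring
    · ring
  have e2 : (p.coeff p.natDegree : L) * g * y ^ p.natDegree ∈
      v.ge (j * mn V v + (p.natDegree - 1) * v y) := by
    rw [e]
    refine neg_mem (Submodule.sum_mem _ fun i hi => V4a_mul_ge (V4a_pow_ge
      (h3 i (Finset.mem_range.2 (Nat.lt_succ_of_lt (Finset.mem_range.1 hi)))) v) (Or.inr ?_))
    rw [v.pow]
    refine mul_le_mul_of_nonpos_right ?_ hv.le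
    have : (i : FF) + 1 ≤ p.natDegree := by exact_mod_cast Finset.mem_range.1 hi
    linarith
  have h4 := mul_ne_zero hl h2
  have e3 := e2.resolve_left (mul_ne_zero h4 (pow_ne_zero _ hy0))
  rw [v.mul _ _ h4 (pow_ne_zero _ hy0), v.pow] at e3
  refine Or.inr ?_
  rw [v.mul _ _ h4 hy0]
  linarith

theorem V4a_many [Fg k L] {V : FD k L} (h : rn k (rt V) = td k L) (s : Finset L) :
    ∃ (j : ℕ) (c : L), 0 < j ∧ c ∈ (V ^ j).1 ∧ c ≠ 0 ∧
      ∀ y ∈ s, ∀ v : Vl k L, c * y ∈ v.ge (j * mn V v) := by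
  classical
  induction s using Finset.induction_on with
  | empty =>
    obtain ⟨c, hc, h0⟩ := (Submodule.ne_bot_iff _).1 V.ne
    exact ⟨1, c, one_pos, by rwa [pow_one], h0, by simp⟩
  | insert y s _ ih =>
    obtain ⟨j, c, h1, h2, h3⟩ := V4a_one h y
    obtain ⟨j', c', h0, h1', h2', h3'⟩ := ih
    refine ⟨j + j', c * c', by omega, ?_, mul_ne_zero h2 h2', fun l hl v => ?_⟩
    · rw [pow_add]
      exact Submodule.mul_mem_mul h1 h1'
    · rw [Nat.cast_add, add_mul]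
      rcases Finset.mem_insert.1 hl with rfl | hl
      · rw [mul_right_comm]
        exact V4a_mul_ge (h3 v) (V4a_pow_ge h1' v)
      · rw [mul_assoc]
        exact V4a_mul_ge (V4a_pow_ge h1 v) (h3' l hl v)

/-- A full rank system is dominated by a generating system with the same class. -/
theorem exists_gen_int [Fg k L] {V : FD k L} (h : rn k (rt V) = td k L) :
    ∃ (j : ℕ) (V' : FD k L), 0 < j ∧ (V ^ j).1 ≤ V'.1 ∧ mD V' = j • mD V ∧
      IntermediateField.adjoin k (rt V') = ⊤ := by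
  classical
  obtain ⟨s, hs⟩ := Fg.out (k := k) (L := L)
  obtain ⟨j, c, hj, h1, h2, h3⟩ := V4a_many h (insert 1 s)
  have h4 : (FD.sp fun y : (insert 1 s : Finset L) => c * y.1 : FD k L).1 = _ :=
    FD.sp_val ⟨⟨1, Finset.mem_insert_self _ _⟩, by simpa using h2⟩
  refine ⟨j, (V ^ j).sup (FD.sp fun y : (insert 1 s : Finset L) => c * y.1), hj, le_sup_left, ?_, ?_⟩
  · rw [mD_sup, mD_pow, inf_eq_left]
    intro v
    rw [DD.nsmul_apply, mD_apply, mD_apply, le_mn, h4, Submodule.span_le]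
    rintro _ ⟨y, rfl⟩
    exact h3 y.1 y.2 v
  · rw [eq_top_iff, ← hs]
    refine IntermediateField.adjoin.mono _ _ _ fun y hy => ⟨c * y, ?_, c, ?_, ?_⟩
    · refine Submodule.mem_sup_right ?_
      rw [h4]
      exact Submodule.subset_span ⟨⟨y, Finset.mem_insert_of_mem hy⟩, rfl⟩
    · exact Submodule.mem_sup_left h1
    · rw [mul_div_cancel_left₀ _ h2]

/-- A full rank system is big. -/
theorem exists_big [Fg k L] {V : FD k L} (h : rn k (rt V) = td k L) (U : FD k L) :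
    ∃ (m : ℕ) (D : DD k L), 0 < m ∧ 0 ≤ D ∧ m • hh V = hh U + cl D := by
  classical
  obtain ⟨n, u, hu, rfl⟩ := U.exists_sp
  obtain ⟨j, c, hj, -, h2, h3⟩ := V4a_many h (Finset.univ.image u)
  refine ⟨j, mD (FD.sp u) + vD k c - j • mD V, hj, fun v => ?_, ?_⟩
  · obtain ⟨s, h4, h5⟩ := mn_sp (k := k) ⟨0, hu 0⟩ v
    have := (h3 (u s) (by simp) v).resolve_left (mul_ne_zero h2 h4)
    rw [v.mul _ _ h2 h4] at this
    simp only [DD.zero_apply, DD.sub_apply, DD.add_apply, DD.nsmul_apply, mD_apply, vD_apply, h5]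
    linarith
  · rw [map_sub, map_add, map_nsmul, cl_mD, cl_mD, cl_vD, smul_neg]
    abel

end Pool.Agent.Work.MP_ffcd14_ag.Uni
end

-- merged part: Pool.Agent.Work.MP_ffcd14_ag.Uni.V4c
section
/-! # Finitely many divisorial valuations with a large residue system see a given function -/

open MvPolynomial

namespace Pool.Agent.Work.MP_ffcd14_ag.Uni

universe u

variable {k L : Type u} [Field k] [Field L] [Algebra k L]

theorem V4c_of_nonempty {α : Type*} {s : Set α} (h : s.Nonempty → s.Finite) : s.Finite :=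
  s.eq_empty_or_nonempty.elim (fun h => h ▸ Set.finite_empty) h

theorem V4c_ne {v : Vl k L} {f : L} (h : v f ≠ 0) : f ≠ 0 := fun h0 => h (h0 ▸ v.zero)

theorem V4c_mul_nonneg {v : Vl k L} {x y : L} (hx : 0 ≤ v x) (hy : 0 ≤ v y) : 0 ≤ v (x * y) :=
  v.O.mul_mem _ _ hx hy

theorem V4c_poly0 {E : IntermediateField k L} {f : L} {v : Vl k L} (hE : ∀ x ∈ E, v x = 0)
    (hf : 0 < v f) (p : Polynomial E) : 0 ≤ v (Polynomial.aeval f p) := by
  induction p using Polynomial.induction_on' with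
  | add p q hp hq => rw [map_add]; exact v.O.add_mem _ _ hp hq
  | monomial n a =>
    rw [Polynomial.aeval_monomial]
    refine V4c_mul_nonneg (hE _ a.2).ge ?_
    rw [v.pow]
    exact mul_nonneg (Nat.cast_nonneg n) hf.le

theorem V4c_poly {E : IntermediateField k L} (f : L) {p : Polynomial E} (hp : p ≠ 0) :
    ∃ n : ℕ, ∀ v : Vl k L, (∀ x ∈ E, v x = 0) → 0 < v f →
      Polynomial.aeval f p ≠ 0 ∧ v (Polynomial.aeval f p) = n * v f := by
  obtain ⟨q, h1, h2⟩ := Polynomial.exists_eq_pow_rootMultiplicity_mul_and_not_dvd p hp 0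
  rw [map_zero, sub_zero] at h1 h2
  rw [Polynomial.X_dvd_iff] at h2
  refine ⟨p.rootMultiplicity 0, fun v hE hf => ?_⟩
  have hf0 := V4c_ne hf.ne'
  have h3 : (q.coeff 0 : L) ≠ 0 := fun h => h2 (Subtype.ext h)
  have h4 : Polynomial.aeval f q = q.coeff 0 + Polynomial.aeval f q.divX * f := by
    conv_lhs => rw [← q.divX_mul_X_add]
    rw [map_add, map_mul, Polynomial.aeval_X, Polynomial.aeval_C, add_comm]
    rfl
  obtain ⟨h5, h6⟩ := v.add_eq (y := Polynomial.aeval f q.divX * f) h3 (by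
    rcases eq_or_ne (Polynomial.aeval f q.divX) 0 with h | h
    · exact Or.inl (by rw [h, zero_mul])
    · refine Or.inr ?_
      rw [hE _ (q.coeff 0).2, v.mul _ _ h hf0]
      exact add_pos_of_nonneg_of_pos (V4c_poly0 hE hf _) hf)
  rw [← h4] at h5 h6
  generalize p.rootMultiplicity 0 = n at h1
  rw [h1, map_mul, map_pow, Polynomial.aeval_X]
  refine ⟨mul_ne_zero (pow_ne_zero _ hf0) h5, ?_⟩
  rw [v.mul _ _ (pow_ne_zero _ hf0) h5, h6, hE _ (q.coeff 0).2, v.pow, add_zero]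

theorem V4c_ord {E : IntermediateField k L} (f : L) {a : L}
    (ha : a ∈ IntermediateField.adjoin E {f}) :
    ∃ n : ℤ, a ≠ 0 → ∀ v : Vl k L, (∀ x ∈ E, v x = 0) → 0 < v f → v a = n * v f := by
  obtain ⟨p, q, rfl⟩ := (IntermediateField.mem_adjoin_simple_iff _ _).1 ha
  rcases eq_or_ne p 0 with rfl | hp
  · exact ⟨0, fun h => absurd (by simp) h⟩
  rcases eq_or_ne q 0 with rfl | hq
  · exact ⟨0, fun h => absurd (by simp) h⟩
  obtain ⟨n, hn⟩ := V4c_poly f hp
  obtain ⟨m, hm⟩ := V4c_poly f hq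
  refine ⟨n - m, fun _ v hE hf => ?_⟩
  rw [v.div (hn v hE hf).1 (hm v hE hf).1, (hn v hE hf).2, (hm v hE hf).2]
  push_cast
  ring

theorem V4c_fin (E K : IntermediateField k L) (f : L)
    (hK : ∀ a ∈ K, a ∈ IntermediateField.adjoin E {f}) [FiniteDimensional K L] :
    {ν : Dv k L | (∀ x ∈ E, ν x = 0) ∧ 0 < ν f}.Finite := by
  classical
  by_contra h
  obtain ⟨T, hT, hc⟩ := Set.Infinite.exists_subset_card_eq h (Module.finrank K L + 1)
  choose g hg0 hg using fun ν : T => Dv.approx T fun μ => if μ = ν.1 then 0 else 1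
  choose n hn using fun a : K => V4c_ord f (hK a.1 a.2)
  have hli : LinearIndependent K g := by
    rw [Fintype.linearIndependent_iff]
    intro c hc
    by_contra h0
    push Not at h0
    obtain ⟨i, hi, hm⟩ := Finset.exists_min_image (Finset.univ.filter fun i => c i ≠ 0)
      (fun i => n (c i)) (by obtain ⟨i, hi⟩ := h0; exact ⟨i, by simpa using hi⟩)
    have hi0 : (c i : L) ≠ 0 := fun h => (Finset.mem_filter.1 hi).2 (Subtype.ext h)
    obtain ⟨hE, hf⟩ := hT i.2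
    have e1 : i.1 (c i * g i) = n (c i) * i.1 f := by
      rw [i.1.mul _ _ hi0 (hg0 i), hn _ hi0 _ hE hf, hg i _ i.2]
      simp
    have e2 : ∑ j ∈ Finset.univ.erase i, c j • g j ∈ i.1.gt (n (c i) * i.1 f) := by
      refine Submodule.sum_mem _ fun j hj => ?_
      rcases eq_or_ne (c j) 0 with h | h
      · exact Or.inl (by rw [h, zero_smul])
      have hj0 : (c j : L) ≠ 0 := fun h' => h (Subtype.ext h')
      refine Or.inr ?_
      change _ < i.1 (c j * g j)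
      rw [i.1.mul _ _ hj0 (hg0 j), hn _ hj0 _ hE hf, hg j _ i.2,
        if_neg fun h' => (Finset.mem_erase.1 hj).1 (Subtype.ext h').symm]
      have : (n (c i) : FF) ≤ n (c j) := by exact_mod_cast hm j (by simpa using h)
      have := mul_le_mul_of_nonneg_right this hf.le
      push_cast
      linarith
    rw [← Finset.add_sum_erase _ _ (Finset.mem_univ i)] at hc
    exact (i.1.add_eq (mul_ne_zero hi0 (hg0 i)) (by rw [e1]; exact e2)).1 hc
  have := hli.fintype_card_le_finrank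
  rw [Fintype.card_coe, hc] at this
  omega

theorem V4c_triv {v : Vl k L} {σ : Type} {x : σ → L} (h0 : ∀ i, 0 ≤ v (x i))
    (h : AlgebraicIndependent k fun i => v.res (x i)) :
    AlgebraicIndependent k x ∧ ∀ a ∈ IntermediateField.adjoin k (Set.range x), v a = 0 := by
  have key : ∀ p : MvPolynomial σ k, p ≠ 0 → aeval x p ≠ 0 ∧ v (aeval x p) = 0 := by
    intro p hp
    have := mt (algebraicIndependent_iff.1 h p) hp
    rw [← (v.res_aeval h0 p).2, Vl.res_eq_zero, not_or, not_not] at this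
    exact this
  refine ⟨algebraicIndependent_iff.2 fun p hp => ?_, fun a ha => ?_⟩
  · by_contra h1
    exact (key p h1).1 hp
  · obtain ⟨p, q, rfl⟩ := (IntermediateField.mem_adjoin_range_iff _ _ _).1 ha
    rcases eq_or_ne p 0 with rfl | hp
    · rw [map_zero, zero_div, v.zero]
    rcases eq_or_ne q 0 with rfl | hq
    · rw [map_zero, div_zero, v.zero]
    rw [v.div (key p hp).1 (key q hq).1, (key p hp).2, (key q hq).2, sub_zero]

theorem V4c_mn {σ : Type*} [Finite σ] {u : σ → L} {j : σ} (hj : u j ≠ 0) (v : Vl k L) :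
    mn (FD.sp u) v = v (u j) ↔ ∀ i, 0 ≤ v (u i / u j) := by
  have hv := FD.sp_val (k := k) ⟨j, hj⟩
  have hm : ∀ i, u i ∈ (FD.sp u : FD k L).1 := fun i => hv ▸ Submodule.subset_span ⟨i, rfl⟩
  constructor
  · intro h i
    rcases eq_or_ne (u i) 0 with h0 | h0
    · rw [h0, zero_div, v.zero]
    · rw [v.div h0 hj, ← h, sub_nonneg]
      exact mn_le _ _ (hm i) h0
  · intro h
    refine le_antisymm (mn_le _ _ (hm j) hj) ?_
    obtain ⟨i, h0, hi⟩ := mn_sp (k := k) ⟨j, hj⟩ v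
    have := h i
    rwa [v.div h0 hj, sub_nonneg, ← hi] at this

variable [Fg k L]

theorem V4c_fin2 {r : ℕ} (hr : r + 1 = td k L) (x : Fin r → L) (f : L) :
    {ν : Dv k L | (∀ i, 0 ≤ ν (x i)) ∧ (AlgebraicIndependent k fun i => ν.res (x i)) ∧
      0 < ν f}.Finite := by
  refine V4c_of_nonempty ?_
  rintro ⟨ν, h1, h2, h3⟩
  obtain ⟨h4, h5⟩ := V4c_triv h1 h2
  have h6 : Transcendental (Algebra.adjoin k (Set.range x)) f :=
    fun h => h3.ne' (ν.triv_of_alg h5 h)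
  have h7 : td k L ≤ rn k (insert f (Set.range x)) := by
    have e := rk_insert h6
    rw [← rn_cast, ← rn_cast] at e
    have e' : rn k (insert f (Set.range x)) = rn k (Set.range x) + 1 := by exact_mod_cast e
    have := le_rn_of_indep (s := Set.range x) (fun i => ⟨i, rfl⟩) h4
    omega
  let K := IntermediateField.adjoin k (insert f (Set.range x))
  obtain ⟨s, hs⟩ := Fg.out (k := k) (L := L)
  have h8 : FiniteDimensional K (IntermediateField.adjoin K (s : Set L)) :=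
    IntermediateField.finiteDimensional_adjoin fun y _ => by
      have := (alg_of_rn (k := k) (s := insert f (Set.range x)) (t := Set.univ)
        ((rn_le_td _).trans h7) (Set.mem_univ y)).tower_top_of_subalgebra_le
        (IntermediateField.algebra_adjoin_le_adjoin k _)
      exact IsAlgebraic.isIntegral (K := K) this
  rw [IntermediateField.adjoin_eq_top_of_adjoin_eq_top k hs] at h8
  have h9 : FiniteDimensional K L := IntermediateField.topEquiv.toLinearEquiv.finiteDimensional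
  refine (V4c_fin (IntermediateField.adjoin k (Set.range x)) K f fun a ha => ?_).subset
    fun μ hμ => ⟨(V4c_triv hμ.1 hμ.2.1).2, hμ.2.2⟩
  rw [← IntermediateField.mem_restrictScalars k, IntermediateField.adjoin_adjoin_left,
    Set.union_singleton]
  exact ha

omit [Fg k L] in
theorem V4c_rt (ν : Dv k L) {σ : Type*} [Finite σ] {u : σ → L} {j : σ} (hj : u j ≠ 0)
    (h : mn (FD.sp u) ν.toVl = ν (u j)) : rt (ν.Res (FD.sp u)) ⊆
      IntermediateField.adjoin k (Set.range fun i => ν.res (u i / u j)) := by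
  have h1 := (V4c_mn hj _).1 h
  have h2 := V4a_ge ν (V := FD.sp u) (f := u j)
    (FD.sp_val (k := k) ⟨j, hj⟩ ▸ Submodule.subset_span ⟨j, rfl⟩)
  have key : ∀ f ∈ (FD.sp u : FD k L).1, 0 ≤ ν (f / u j) ∧
      ν.res (f / u j) ∈ IntermediateField.adjoin k (Set.range fun i => ν.res (u i / u j)) := by
    intro f hf
    rw [FD.sp_val ⟨j, hj⟩] at hf
    induction hf using Submodule.span_induction with
    | mem x hx =>
      obtain ⟨i, rfl⟩ := hx
      exact ⟨h1 i, IntermediateField.subset_adjoin _ _ ⟨i, rfl⟩⟩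
    | zero => rw [zero_div, ν.zero, Vl.res_zero]; exact ⟨le_rfl, zero_mem _⟩
    | add x y _ _ hx hy =>
      rw [add_div, ν.res_add hx.1 hy.1]
      exact ⟨ν.O.add_mem _ _ hx.1 hy.1, add_mem hx.2 hy.2⟩
    | smul c x _ hx =>
      rw [smul_div_assoc, ν.res_smul]
      refine ⟨?_, IntermediateField.smul_mem _ hx.2⟩
      rw [Algebra.smul_def]
      exact V4c_mul_nonneg (ν.triv c).ge hx.1
  have key2 : ∀ y ∈ (ν.Res (FD.sp u)).1, ∃ z ∈ IntermediateField.adjoin k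
      (Set.range fun i => ν.res (u i / u j)), y = z * ν.res (u j / ν.π ^ ν.mz (FD.sp u)) := by
    intro y hy
    obtain ⟨f, hf, rfl⟩ := ν.mem_Res.1 hy
    exact ⟨_, (key f hf).2, by rw [← ν.res_mul (key f hf).1 h2, div_mul_div_cancel₀ hj]⟩
  rintro _ ⟨y, hy, y', hy', rfl⟩
  obtain ⟨z, hz, rfl⟩ := key2 y hy
  obtain ⟨z', hz', rfl⟩ := key2 y' hy'
  rcases eq_or_ne (ν.res (u j / ν.π ^ ν.mz (FD.sp u))) 0 with h0 | h0
  · rw [h0, mul_zero, zero_div]
    exact zero_mem _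
  · rw [mul_div_mul_right _ _ h0]
    exact div_mem hz hz'

theorem V4c_fin3 (V : FD k L) (f : L) :
    {ν : Dv k L | 0 < ν f ∧ rn k (rt (ν.Res V)) + 1 = td k L}.Finite := by
  refine V4c_of_nonempty ?_
  rintro ⟨ν₀, -, hr⟩
  generalize rn k (rt (ν₀.Res V)) = r at hr
  obtain ⟨m, u, hu, rfl⟩ := V.exists_sp
  refine (Set.finite_iUnion fun p : Fin (m + 1) × (Fin r → Fin (m + 1)) =>
    V4c_fin2 hr (fun i => u (p.2 i) / u p.1) f).subset ?_
  rintro ν ⟨h1, h2⟩
  obtain ⟨j, hj, h3⟩ := mn_sp (k := k) ⟨0, hu 0⟩ ν.toVl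
  have h4 := rn_le_of_mem (V4c_rt ν hj h3)
  have h5 := rn_le_td (k := k) (Set.range fun i => ν.res (u i / u j))
  have h6 := ν.dim
  obtain rfl : r = rn k (Set.range fun i => ν.res (u i / u j)) := by omega
  obtain ⟨z, hz, hi⟩ := exists_indep (k := k) (Set.range fun i => ν.res (u i / u j))
  choose a ha using hz
  refine Set.mem_iUnion.2 ⟨(j, a), fun i => (V4c_mn hj _).1 h3 _, ?_, h1⟩
  simpa only [ha] using hi

theorem V4c_fin4 (V : FD k L) (f : L) :
    {ν : Dv k L | ν f ≠ 0 ∧ rn k (rt (ν.Res V)) + 1 = td k L}.Finite := by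
  refine ((V4c_fin3 V f).union (V4c_fin3 V f⁻¹)).subset ?_
  rintro ν ⟨h1, h2⟩
  rcases h1.lt_or_gt with h | h
  · exact Or.inr ⟨by rw [ν.toVl.inv]; exact neg_pos.2 h, h2⟩
  · exact Or.inl ⟨h, h2⟩

end Pool.Agent.Work.MP_ffcd14_ag.Uni
end

-- merged part: Pool.Agent.Work.MP_ffcd14_ag.Uni.V4
section
/-! # Finiteness and lifting of divisorial valuations -/

open MvPolynomial

namespace Pool.Agent.Work.MP_ffcd14_ag.Uni

universe u

variable {k F L : Type u} [Field k] [Field F] [Field L] [Algebra k F] [Algebra k L] {P P' Q : Amb}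

theorem V4_vq {D : DD k L} {n : ℕ} {U U' : FD k L} (hn : 0 < n) (h : n • D = mD U - mD U')
    (ν : Dv k L) : ν.vq D = 0 ↔ mn U ν.toVl = mn U' ν.toVl := by
  have h1 : (n • D) ν.toVl = (mD U - mD U') ν.toVl := by rw [h]
  simp only [DD.nsmul_apply, DD.sub_apply, mD_apply] at h1
  rw [← sub_eq_zero (a := mn U ν.toVl), ← h1, ← ν.vq_cast, mul_eq_zero,
    or_iff_right (Nat.cast_ne_zero.2 hn.ne'), Rat.cast_eq_zero]

theorem V4_rpt (ν : Dv k L) {w : P.V → L} {ς : ∀ i, P.σ i} (h0 : ∀ i, w ⟨i, ς i⟩ ≠ 0)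
    (h : ∀ s, 0 ≤ ν (w s / w ⟨s.1, ς s.1⟩)) : ∃ μ : P.ι → ν.κ, (∀ i, μ i ≠ 0) ∧
      rpt ν w = fun s => μ s.1 * ν.res (w s / w ⟨s.1, ς s.1⟩) := by
  have h1 : ∀ i, ν (w ⟨i, ς i⟩ / ν.π ^ ν.mz (blk k w i)) = 0 := fun i => by
    rw [ν.toVl.div (h0 i) (zpow_ne_zero _ ν.π_ne), V4a_v_pi, ν.mz_cast, blk,
      (V4c_mn (u := fun s => w ⟨i, s⟩) (h0 i) _).2 fun s => h ⟨i, s⟩, sub_self]
  refine ⟨fun i => ν.res (w ⟨i, ς i⟩ / ν.π ^ ν.mz (blk k w i)), fun i => ?_, funext fun s => ?_⟩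
  · rw [Ne, Vl.res_eq_zero, not_or, not_not]
    exact ⟨div_ne_zero (h0 i) (zpow_ne_zero _ ν.π_ne), h1 i⟩
  · rw [rpt, ← ν.res_mul (h1 _).ge (h s), mul_comm, div_mul_div_cancel₀ (h0 _)]

theorem V4_line (μ : Dv k L) {a z : L} (hz : z = a ∨ a ≠ 0 ∧ z = a⁻¹) (h : 0 ≤ μ z) :
    μ.res z ∈ rt (μ.Res (FD.sp ![1, a])) := by
  have hv := FD.sp_val (k := k) (u := ![1, a]) ⟨0, by simp⟩
  have h0 : (1 : L) ∈ (FD.sp ![1, a] : FD k L).1 := hv ▸ Submodule.subset_span ⟨0, rfl⟩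
  have h1 : a ∈ (FD.sp ![1, a] : FD k L).1 := hv ▸ Submodule.subset_span ⟨1, rfl⟩
  rcases hz with rfl | ⟨ha, rfl⟩
  · have := μ.res_mem_rt h1 h0 one_ne_zero
      ((V4c_mn (u := ![1, z]) (j := 0) (by simp) _).2 (by simp [Fin.forall_fin_two, μ.one, h])).symm
    rwa [div_one] at this
  · have := μ.res_mem_rt h0 h1 ha ((V4c_mn (u := ![1, a]) (j := 1) (by simpa) _).2
      (by simp [Fin.forall_fin_two, μ.one, h, ha])).symm
    rwa [one_div] at this

theorem V4_spec [Fg k L] {τ : Type} [Finite τ] (a : τ → L)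
    (ha : IntermediateField.adjoin k (Set.range a) = ⊤) :
    ∃ V : FD k L, ∀ (ν : Dv k L) (t₀ : τ), 0 < ν (a t₀) → ∃ μ : Dv k L,
      (∀ t, 0 ≤ ν (a t) → 0 ≤ μ (a t)) ∧ 0 < μ (a t₀) ∧ rn k (rt (μ.Res V)) + 1 = td k L ∧
      ∀ (σ : Type) (e : σ → τ), (∀ s, 0 ≤ ν (a (e s))) → ∀ f : MvPolynomial σ k,
        aeval (fun s => μ.res (a (e s))) f = 0 → aeval (fun s => ν.res (a (e s))) f = 0 := by
  classical
  have := Fintype.ofFinite τ
  refine ⟨∏ t, FD.sp ![1, a t], fun ν t₀ h₀ => ?_⟩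
  let z : τ → L := fun t => if 0 ≤ ν (a t) then a t else (a t)⁻¹
  have z1 : ∀ t, 0 ≤ ν (a t) → z t = a t := fun t h => if_pos h
  have z2 : ∀ t, z t = a t ∨ a t ≠ 0 ∧ z t = (a t)⁻¹ := fun t => by
    by_cases h : 0 ≤ ν (a t)
    · exact Or.inl (z1 t h)
    · exact Or.inr ⟨V4c_ne (not_le.1 h).ne, if_neg h⟩
  have z3 : ∀ t, 0 ≤ ν (z t) := fun t => by
    by_cases h : 0 ≤ ν (a t)
    · rwa [z1 t h]
    · rw [show z t = (a t)⁻¹ from if_neg h, ν.toVl.inv]
      exact neg_nonneg.2 (not_le.1 h).le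
  have z4 : rn k (Set.range z) = td k L := by
    refine rn_gen (eq_top_iff.2 ?_)
    rw [← ha, IntermediateField.adjoin_le_iff]
    rintro _ ⟨t, rfl⟩
    have := IntermediateField.subset_adjoin k (Set.range z) ⟨t, rfl⟩
    rcases z2 t with h | ⟨-, h⟩
    · rwa [h] at this
    · rw [← inv_inv (a t), ← h]
      exact inv_mem this
  let p := RingHom.ker (aeval z : MvPolynomial τ k →ₐ[k] L)
  let q := RingHom.ker (aeval (fun t => ν.res (z t)) : MvPolynomial τ k →ₐ[k] ν.κ)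
  have : p.IsPrime := RingHom.ker_isPrime _
  have : q.IsPrime := RingHom.ker_isPrime _
  have h1 : a t₀ ≠ 0 := V4c_ne h₀.ne'
  obtain ⟨r, hr, r1, r2, r3, r4⟩ := kr p q (g := X t₀)
    (fun f hf => by
      rw [RingHom.mem_ker] at hf ⊢
      rw [← (ν.res_aeval z3 f).2, hf, Vl.res_zero])
    (by rwa [RingHom.mem_ker, aeval_X, z1 _ h₀.le])
    (by rw [RingHom.mem_ker, aeval_X, z1 _ h₀.le, Vl.res_eq_zero]; exact Or.inr h₀.ne')
  rw [← rk_range_eq_trdeg, ← rn, z4] at r4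
  obtain ⟨μ, m1, m2⟩ := exists_dv_prime z r (fun f hf => r1 hf) z4 r4
  have m3 : r = RingHom.ker (aeval (fun t => μ.res (z t)) : MvPolynomial τ k →ₐ[k] μ.κ) :=
    Ideal.ext fun f => by rw [RingHom.mem_ker, ← m2, (μ.res_aeval m1 f).2]
  refine ⟨μ, fun t h => z1 t h ▸ m1 t, ?_, ?_, fun σ e he f hf => ?_⟩
  · have := (m2 _).2 r3
    rw [aeval_X, z1 _ h₀.le, Vl.res_eq_zero, or_iff_right h1] at this
    exact lt_of_le_of_ne (z1 _ h₀.le ▸ m1 t₀) this.symm
  · have e1 : rn k (Set.range fun t => μ.res (z t)) + 1 = td k L := by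
      subst m3
      rw [← rk_range_eq_trdeg, ← rn] at r4
      exact_mod_cast r4
    have e2 : rn k (Set.range fun t => μ.res (z t)) ≤ rn k (rt (μ.Res (∏ t, FD.sp ![1, a t]))) := by
      refine rn_mono ?_
      rintro _ ⟨t, rfl⟩
      exact rt_dvd (map_dvd μ.Res (Finset.dvd_prod_of_mem _ (Finset.mem_univ t)))
        (V4_line μ (z2 t) (m1 t))
    have e3 := rn_le_td (k := k) (rt (μ.Res (∏ t, FD.sp ![1, a t])))
    have e4 := μ.dim
    omega
  · have e1 : rename e f ∈ r := by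
      rw [m3, RingHom.mem_ker, aeval_rename, ← hf]
      simp only [Function.comp_def, z1 _ (he _)]
    have e2 := r2 e1
    rw [RingHom.mem_ker, aeval_rename] at e2
    simpa only [Function.comp_def, z1 _ (he _)] using e2

variable [IsAlgClosed k]

variable [Fg k L]

/-- Only finitely many components of a b-divisor are divisors on a given model. -/
theorem fin_dv (D : DD k L) (V : FD k L) :
    {ν : Dv k L | ν.vq D ≠ 0 ∧ rn k (rt (ν.Res V)) + 1 = td k L}.Finite := by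
  obtain ⟨n, U, U', hn, hD⟩ := D.rep
  obtain ⟨m, u, hu, rfl⟩ := U.exists_sp
  obtain ⟨m', u', hu', rfl⟩ := U'.exists_sp
  refine ((Set.finite_iUnion fun i => V4c_fin4 V (u i)).union
    (Set.finite_iUnion fun i => V4c_fin4 V (u' i))).subset ?_
  rintro ν ⟨h1, h2⟩
  obtain ⟨i, -, hi⟩ := mn_sp (k := k) ⟨0, hu 0⟩ ν.toVl
  obtain ⟨j, -, hj⟩ := mn_sp (k := k) ⟨0, hu' 0⟩ ν.toVl
  rw [Ne, V4_vq hn hD, hi, hj] at h1
  by_cases h : ν (u i) = 0
  · exact Or.inr (Set.mem_iUnion.2 ⟨j, fun h' => h1 (h.trans h'.symm), h2⟩)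
  · exact Or.inl (Set.mem_iUnion.2 ⟨i, h, h2⟩)

/-- A b-divisor whose trace on a given model is a given prime divisor. -/
theorem exists_lift (V : FD k L) (c₀ : Dv k L) : ∃ D : DD k L, 0 ≤ D ∧ c₀.vq D = 1 ∧
    (∀ c : Dv k L, ∃ z : ℤ, c.vq D = z) ∧
    ∀ c : Dv k L, c ≠ c₀ → rn k (rt (c.Res V)) + 1 = td k L → c.vq D = 0 := by
  classical
  have hT := fin_dv (vD k c₀.π) V
  obtain ⟨g, -, hg⟩ := Dv.approx (insert c₀ hT.toFinset) fun c => if c = c₀ then 1 else 0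
  have hz : ∀ c ∈ insert c₀ hT.toFinset, c.z g = if c = c₀ then 1 else 0 := fun c hc => by
    have := hg c hc
    rw [← c.z_cast] at this
    exact_mod_cast this
  have key : ∀ c : Dv k L, c.vq ((vD k c₀.π ⊓ vD k g) ⊔ 0) =
      (max (min (c.z c₀.π) (c.z g)) 0 : ℤ) := fun c => by
    rw [c.vq_sup, c.vq_inf, c.vq_vD, c.vq_vD, map_zero]
    push_cast
    rfl
  refine ⟨(vD k c₀.π ⊓ vD k g) ⊔ 0, le_sup_right, ?_, fun c => ⟨_, key c⟩, fun c h1 h2 => ?_⟩
  · have : c₀.z c₀.π = 1 := by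
      have := c₀.v_π
      rw [← c₀.z_cast] at this
      exact_mod_cast this
    rw [key, this, hz _ (Finset.mem_insert_self _ _), if_pos rfl]
    simp
  · rw [key, Int.cast_eq_zero]
    by_cases h : c.vq (vD k c₀.π) = 0
    · rw [c.vq_vD, Int.cast_eq_zero] at h
      omega
    · have := hz c (Finset.mem_insert_of_mem (hT.mem_toFinset.2 ⟨h, h2⟩))
      rw [if_neg h1] at this
      omega

/-- Every prime divisor of a model is the centre of a divisorial valuation. -/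
theorem lift_dv {Z T : Sub k P} {w : P.V → L} (h : IsGen (Z : Set (P.Pt k)) w) (hT : T ≤ Z)
    (hZ : sdim Z = td k L) (hd : sdim T + 1 = td k L) :
    ∃ ν : Dv k L, IsGen (T : Set (P.Pt k)) (rpt ν w) := by
  obtain ⟨ς, hς⟩ := Dim_chart T
  have h0 : ∀ i, w ⟨i, ς i⟩ ≠ 0 := fun i hi =>
    exists_inCh_iff.1 hς i fun x hx => (h.iff _ _ (IsForm.X _)).1 (by rwa [aeval_X]) x (hT hx)
  have h1 := h.scale (fun i => (w ⟨i, ς i⟩)⁻¹) fun i => inv_ne_zero (h0 i)
  simp only [← div_eq_inv_mul] at h1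
  have h2 : ∀ i, w ⟨i, ς i⟩ / w ⟨i, ς i⟩ = 1 := fun i => div_self (h0 i)
  have := chI_prime hς
  obtain ⟨μ, m1, m2⟩ := exists_dv_prime (fun s : P.V => w s / w ⟨s.1, ς s.1⟩)
    (chI (T : Set (P.Pt k)) ς)
    (fun f hf => chI_anti hT ς (by rwa [← h1.ker h2, RingHom.mem_ker]))
    (by rw [rn, ← rk_rat_norm _ ς h2, h1.rk_rat, ENat.toNat_natCast, hZ])
    (by rw [← sdim_eq_trdeg hς]; exact_mod_cast hd)
  obtain ⟨c, hc, e⟩ := V4_rpt μ h0 m1
  refine ⟨μ, ?_⟩
  rw [e]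
  refine IsGen.scale (v := fun s => μ.res (w s / w ⟨s.1, ς s.1⟩))
    ⟨fun i => ⟨ς i, by rw [h2, Vl.res_one]; exact one_ne_zero⟩, fun f a hf => ?_⟩ c hc
  rw [← (μ.res_aeval m1 f).2, m2, mem_chI_form hς hf]

/-- The centres of the components of an exceptional b-divisor lie in a closed set of
codimension two. -/
theorem supp_dv {Z : Sub k P} {w : P.V → L} (h : IsGen (Z : Set (P.Pt k)) w) (D : DD k L)
    (hD : ∀ ν : Dv k L, ν.vq D ≠ 0 → rn k (rat (rpt ν w)) + 2 ≤ td k L) :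
    ∃ 𝒴 : Set (Sub k P), 𝒴.Finite ∧ (∀ Y ∈ 𝒴, Y ≤ Z ∧ sdim Y + 2 ≤ td k L) ∧
      ∀ ν : Dv k L, ν.vq D ≠ 0 → ∃ Y ∈ 𝒴, OnS (Y : Set (P.Pt k)) (rpt ν w) := by
  classical
  obtain ⟨n, U, U', hn, hrep⟩ := D.rep
  obtain ⟨m, u, hu, rfl⟩ := U.exists_sp
  obtain ⟨m', u', hu', rfl⟩ := U'.exists_sp
  obtain ⟨G, hG⟩ := Fg.out (k := k) (L := L)
  let b : P.V ⊕ (Fin (m + 1) ⊕ Fin (m' + 1)) ⊕ Option (Fin G.card) → L :=
    Sum.elim w (Sum.elim (Sum.elim u u') fun o => o.elim 1 fun l => G.equivFin.symm l)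
  obtain ⟨V, hV⟩ := V4_spec (k := k) (fun t : _ × _ => b t.1 / b t.2) (by
    rw [eq_top_iff, ← hG]
    exact IntermediateField.adjoin.mono _ _ _ fun y hy =>
      ⟨(.inr (.inr (some (G.equivFin ⟨y, hy⟩))), .inr (.inr none)), by simp [b]⟩)
  choose Y hY using fun μ : Dv k L => exists_isGen (k := k) (h.onS.nz.rpt μ)
  refine ⟨Y '' _, (fin_dv D V).image Y, ?_, fun ν hν => ?_⟩
  · rintro _ ⟨μ, hμ, rfl⟩
    exact ⟨(onS_iff (hY μ) Z.isClosed).1 (h.onS.rpt μ), rn_rat (hY μ) ▸ hD μ hμ.1⟩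
  obtain ⟨i, -, hi⟩ := mn_sp (k := k) ⟨0, hu 0⟩ ν.toVl
  obtain ⟨j, -, hj⟩ := mn_sp (k := k) ⟨0, hu' 0⟩ ν.toVl
  choose ς h0 hς using fun i => mn_sp (k := k) (h.ne i) ν.toVl
  have h1 : ∀ s : P.V, 0 ≤ ν (w s / w ⟨s.1, ς s.1⟩) := fun s =>
    (V4c_mn (u := fun t => w ⟨s.1, t⟩) (h0 _) _).1 (hς _) s.2
  have h2 : ∃ t₀ : _ × _, 0 < ν (b t₀.1 / b t₀.2) ∧
      ∀ μ : Dv k L, 0 < μ (b t₀.1 / b t₀.2) → μ (u i) ≠ μ (u' j) := by
    rw [Ne, V4_vq hn hrep, hi, hj] at hν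
    rcases lt_or_gt_of_ne hν with h' | h'
    · refine ⟨(.inr (.inl (.inr j)), .inr (.inl (.inl i))), ?_, fun μ hμ => ?_⟩
      · exact (ν.toVl.div (hu' j) (hu i)).symm ▸ sub_pos.2 h'
      · exact (sub_pos.1 (μ.toVl.div (hu' j) (hu i) ▸ hμ)).ne
    · refine ⟨(.inr (.inl (.inl i)), .inr (.inl (.inr j))), ?_, fun μ hμ => ?_⟩
      · exact (ν.toVl.div (hu i) (hu' j)).symm ▸ sub_pos.2 h'
      · exact (sub_pos.1 (μ.toVl.div (hu i) (hu' j) ▸ hμ)).ne'
  obtain ⟨t₀, t1, t2⟩ := h2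
  obtain ⟨μ, m1, m2, m3, m4⟩ := hV ν t₀ t1
  have m5 : μ.vq D ≠ 0 := by
    rw [Ne, V4_vq hn hrep,
      (V4c_mn (hu i) _).2 fun l => m1 (.inr (.inl (.inl l)), .inr (.inl (.inl i)))
        ((V4c_mn (hu i) _).1 hi l),
      (V4c_mn (hu' j) _).2 fun l => m1 (.inr (.inl (.inr l)), .inr (.inl (.inr j)))
        ((V4c_mn (hu' j) _).1 hj l)]
    exact t2 μ m2
  refine ⟨Y μ, ⟨μ, ⟨m5, m3⟩, rfl⟩, h.onS.nz.rpt ν, fun f a hf hv => ?_⟩
  obtain ⟨c, -, e⟩ := V4_rpt ν h0 h1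
  obtain ⟨c', hc', e'⟩ := V4_rpt μ h0 fun s => m1 (.inl s, .inl ⟨s.1, ς s.1⟩) (h1 s)
  have e1 := ((hY μ).iff f a hf).2 hv
  rw [e', hf.aeval_scale, mul_eq_zero] at e1
  replace e1 := e1.resolve_left (chi_ne_zero hc' a)
  rw [e, hf.aeval_scale]
  exact mul_eq_zero_of_right _ (m4 _ (fun s => (.inl s, .inl ⟨s.1, ς s.1⟩)) h1 f e1)

end Pool.Agent.Work.MP_ffcd14_ag.Uni
end

-- merged part: Pool.Agent.Work.MP_ffcd14_ag.Uni.Fc
section
/-! # Over a general prime divisor only the Gauss valuation sees a given system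

Write `V = sp v`, `v s = μ * p s (t)` with `μ ≠ 0` and polynomials `p s` over `F` with
`∑ q s * p s = 1` (common denominator, `EtaA_bezout`). `Φ` = all non-zero coefficients of the `p s`
and `q s`. If `rn (insert (res t) (range kmap)) = td F` use `Simp.gs_of_tr`. Otherwise let `K₀` be the
field generated by `res t` and `range kmap`; its rank is at most `td F - 1` (`rn_range`, `Dv.dim`),
and it is enough to show `rt (Res V) ⊆ K₀`. Put `h = μ` if `0 ≤ ν t` and `h = μ * t ^ d`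
(`d` = largest degree of a non-zero `p s`) if `ν t < 0`. For `f ∈ V`, `0 ≤ ν (f / h)` and
`res (f / h) ∈ K₀` (span induction), and `ν (v s / h) = 0` for some `s` with `v s ≠ 0` (Bezout, or the
leading coefficient). An element of `rt (Res V)` is `res (f / π ^ m) / res (g / π ^ m)` (`mem_Res`);
if the denominator is not zero then `ν g = mn V ≤ ν h`, so `ν (g / h) = 0` and the element is
`res (f / h) / res (g / h)`. -/

open MvPolynomial

namespace Pool.Agent.Work.MP_ffcd14_ag.Uni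

universe u

variable {k F L : Type u} [Field k] [Field F] [Field L] [Algebra k F] [Algebra k L]

/-- The elements of the valuation ring with residue in `K`. -/
def Fc_ring (v : Vl k L) (K : IntermediateField k v.κ) : Subring L where
  carrier := {x | 0 ≤ v x ∧ v.res x ∈ K}
  one_mem' := ⟨v.one.ge, by rw [v.res_one]; exact one_mem _⟩
  zero_mem' := ⟨v.zero.ge, by rw [v.res_zero]; exact zero_mem _⟩
  mul_mem' ha hb := ⟨v.O.mul_mem _ _ ha.1 hb.1, by rw [v.res_mul ha.1 hb.1]; exact mul_mem ha.2 hb.2⟩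
  add_mem' ha hb := ⟨v.O.add_mem _ _ ha.1 hb.1, by rw [v.res_add ha.1 hb.1]; exact add_mem ha.2 hb.2⟩
  neg_mem' ha := ⟨by rw [v.neg]; exact ha.1, by rw [v.res_neg]; exact neg_mem ha.2⟩

theorem Fc_eval {R S : Type*} [CommRing R] [CommRing S] {A : Subring S} {φ : R →+* S} {x : S}
    (hx : x ∈ A) {p : Polynomial R} (hp : ∀ i, φ (p.coeff i) ∈ A) : p.eval₂ φ x ∈ A := by
  rw [Polynomial.eval₂_eq_sum_range]
  exact sum_mem fun i _ => mul_mem (hp i) (pow_mem hx i)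

theorem Fc_rt (ν : Dv k L) {K : IntermediateField k ν.κ} {σ : Type} [Finite σ] {u w : σ → L}
    (hu : ∀ s, u s ≠ 0) {h : L} (e : ∀ s, u s = h * w s) (hw : ∀ s, w s ∈ Fc_ring ν.toVl K)
    (h0 : ∃ s, ν.res (w s) ≠ 0) : rt (ν.Res (FD.sp u)) ⊆ K := by
  obtain ⟨j, hj⟩ := h0
  rw [Ne, ν.res_eq_zero, not_or, not_not] at hj
  have hh : h ≠ 0 := fun h1 => hu j (by rw [e, h1, zero_mul])
  have h1 : ∀ i, u i / u j = w i / w j := fun i => by rw [e, e, mul_div_mul_left _ _ hh]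
  refine (V4c_rt ν (hu j) ((V4c_mn (hu j) _).2 fun i => ?_)).trans
    (IntermediateField.adjoin_le_iff.2 ?_)
  · rw [h1, ν.div (fun h2 => hu i (by rw [e, h2, mul_zero])) hj.1, hj.2, sub_zero]
    exact (hw i).1
  · rintro _ ⟨i, rfl⟩
    change ν.res _ ∈ K
    rw [h1, ν.res_div _ hj.2]
    exact div_mem (hw i).2 (hw j).2

theorem Fc_form {ι : F →ₐ[k] L} {t : L} (ht : Simp ι t) {m : ℕ} (u : Fin (m + 1) → L) :
    ∃ (μ : L) (p q : Fin (m + 1) → Polynomial F),
      (∀ s, u s = μ * (p s).eval₂ (ι : F →+* L) t) ∧ ∑ s, q s * p s = 1 := by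
  choose a b hb e using fun s => ht.gen (u s)
  have hD := ht.tr (∏ s, b s) (Finset.prod_ne_zero_iff.2 fun s _ => hb s)
  choose r hr using fun s => Finset.dvd_prod_of_mem b (Finset.mem_univ s)
  have h1 : ∀ s, u s * (∏ s, b s).eval₂ (ι : F →+* L) t = (a s * r s).eval₂ (ι : F →+* L) t :=
    fun s => by
      rw [hr s, e s, Polynomial.eval₂_mul, Polynomial.eval₂_mul, ← mul_assoc,
        div_mul_cancel₀ _ (ht.tr _ (hb s))]
  by_cases h0 : ∃ s, a s * r s ≠ 0
  · obtain ⟨g, p, q, h2, h3⟩ := EtaA_bezout _ h0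
    refine ⟨g.eval₂ (ι : F →+* L) t / (∏ s, b s).eval₂ (ι : F →+* L) t, p, q, fun s => ?_, h3⟩
    rw [div_mul_eq_mul_div, eq_div_iff hD, h1, h2, Polynomial.eval₂_mul]
  · push Not at h0
    refine ⟨0, 1, Pi.single 0 1, fun s => ?_, by simp [Finset.sum_pi_single']⟩
    have h2 := h1 s
    rw [h0, Polynomial.eval₂_zero] at h2
    rw [zero_mul, (mul_eq_zero.1 h2).resolve_right hD]

theorem Fc_gauss [Fg k F] {ι : F →ₐ[k] L} {t : L} (ht : Simp ι t) (V : FD k L) :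
    ∃ Φ : Finset F, (∀ f ∈ Φ, f ≠ 0) ∧ ∀ (c : Dv k F) (ν : Dv k L) (ho : Ov ι c.toVl ν.toVl),
      (∀ f ∈ Φ, c f = 0) → rn k (Set.range ho.kmap ∪ rt (ν.Res V)) = td k F → Gs ι t c ν := by
  classical
  have := ht.fg
  obtain ⟨m, u, hu, rfl⟩ := V.exists_sp
  obtain ⟨μ, p, q, e1, e2⟩ := Fc_form ht u
  have hp : ∀ s, p s ≠ 0 := fun s h => hu s (by rw [e1, h, Polynomial.eval₂_zero, mul_zero])
  refine ⟨Finset.univ.biUnion fun s => (p s).coeffs ∪ (q s).coeffs, fun f hf => ?_,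
    fun c ν ho hΦ hr => ht.gs_of_tr ho (le_antisymm ?_ ?_)⟩
  · obtain ⟨s, -, h⟩ := Finset.mem_biUnion.1 hf
    rcases Finset.mem_union.1 h with h | h <;>
    · obtain ⟨n, hn, rfl⟩ := Polynomial.mem_coeffs_iff.1 h
      exact Polynomial.mem_support_iff.1 hn
  · rw [← c.dim, ← rn_range ho.kmap]
    exact rn_insert_le _ _
  rw [← hr]
  set K := IntermediateField.adjoin k (insert (ν.res t) (Set.range ho.kmap)) with hK
  have h1 : Set.range ho.kmap ⊆ K :=
    (Set.subset_insert _ _).trans (IntermediateField.subset_adjoin _ _)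
  have h2 : ν.res t ∈ K := IntermediateField.subset_adjoin _ _ (Set.mem_insert _ _)
  refine rn_le_of_mem (Set.union_subset h1 ?_)
  obtain ⟨e, -, he⟩ := Dv.ov_e ho
  have h3 : ∀ (r : Polynomial F), (∃ s, r = p s ∨ r = q s) → ∀ i, ν (ι (r.coeff i)) = 0 := by
    rintro r ⟨s, hs⟩ i
    by_cases h0 : r.coeff i = 0
    · rw [h0, map_zero, ν.zero]
    rw [he, hΦ _ (Finset.mem_biUnion.2 ⟨s, Finset.mem_univ _, ?_⟩), mul_zero]
    rcases hs with rfl | rfl
    · exact Finset.mem_union_left _ (Polynomial.coeff_mem_coeffs h0)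
    · exact Finset.mem_union_right _ (Polynomial.coeff_mem_coeffs h0)
  have h4 : ∀ (r : Polynomial F), (∃ s, r = p s ∨ r = q s) → ∀ i,
      (ι : F →+* L) (r.coeff i) ∈ Fc_ring ν.toVl K := fun r hr i =>
    ⟨(h3 r hr i).ge, h1 ⟨_, ho.kmap_res _⟩⟩
  rcases le_or_gt 0 (ν t) with h0 | h0
  · have h5 := fun r hr => Fc_eval (A := Fc_ring ν.toVl K) (x := t) ⟨h0, h2⟩ (h4 r hr)
    refine Fc_rt ν hu e1 (fun s => h5 _ ⟨s, Or.inl rfl⟩) (by_contra fun h => ?_)
    push Not at h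
    have h6 : (∑ s, (q s).eval₂ (ι : F →+* L) t * (p s).eval₂ (ι : F →+* L) t) ∈
        Fc_ring ν.toVl K ∧ ν.res (∑ s, (q s).eval₂ (ι : F →+* L) t *
          (p s).eval₂ (ι : F →+* L) t) = 0 :=
      Finset.sum_induction _ (fun x => x ∈ Fc_ring ν.toVl K ∧ ν.res x = 0)
        (fun a b ha hb => ⟨add_mem ha.1 hb.1, by rw [ν.res_add ha.1.1 hb.1.1, ha.2, hb.2, add_zero]⟩)
        ⟨zero_mem _, ν.res_zero⟩ fun s _ =>
          ⟨mul_mem (h5 _ ⟨s, Or.inr rfl⟩) (h5 _ ⟨s, Or.inl rfl⟩), by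
            rw [ν.res_mul (h5 _ ⟨s, Or.inr rfl⟩).1 (h5 _ ⟨s, Or.inl rfl⟩).1, h s, mul_zero]⟩
    simp only [← Polynomial.eval₂_mul, ← Polynomial.eval₂_finsetSum, e2, Polynomial.eval₂_one,
      ν.res_one] at h6
    exact one_ne_zero h6.2
  · obtain ⟨s0, hs0⟩ := Finite.exists_max fun s => (p s).natDegree
    let _ : Invertible t := invertibleOfNonzero ht.V3_ne
    have h5 : t⁻¹ ∈ Fc_ring ν.toVl K :=
      ⟨by rw [ν.inv]; exact (neg_pos.2 h0).le, by rw [ν.res_inv]; exact inv_mem h2⟩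
    have h6 : ∀ s i, (ι : F →+* L) (((p s).reflect (p s0).natDegree).coeff i) ∈
        Fc_ring ν.toVl K := fun s i => by
      rw [Polynomial.coeff_reflect]
      exact h4 _ ⟨s, Or.inl rfl⟩ _
    refine Fc_rt ν hu (h := μ * t ^ (p s0).natDegree)
      (w := fun s => ((p s).reflect (p s0).natDegree).eval₂ (ι : F →+* L) t⁻¹) (fun s => ?_)
      (fun s => Fc_eval h5 (h6 s)) ⟨s0, ?_⟩
    · rw [e1, ← Polynomial.eval₂_reflect_mul_pow _ t _ _ (hs0 s), invOf_eq_inv]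
      ring
    · have h7 := Fc_eval (p := ((p s0).reflect (p s0).natDegree).divX) h5 fun i => by
        rw [Polynomial.coeff_divX]
        exact h6 _ _
      rw [← ((p s0).reflect (p s0).natDegree).X_mul_divX_add, Polynomial.eval₂_add,
        Polynomial.eval₂_mul, Polynomial.eval₂_X, Polynomial.eval₂_C,
        ν.res_add (mul_mem h5 h7).1 (h6 _ _).1, ν.res_mul h5.1 h7.1, ν.res_inv, ν.res_of_neg h0,
        inv_zero, zero_mul, zero_add, Polynomial.coeff_reflect, Polynomial.revAt_zero, Ne,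
        ν.res_eq_zero, not_or, not_not]
      exact ⟨(map_ne_zero _).2 (Polynomial.leadingCoeff_ne_zero.2 (hp s0)),
        h3 _ ⟨s0, Or.inl rfl⟩ _⟩

end Pool.Agent.Work.MP_ffcd14_ag.Uni
end

-- merged part: Pool.Agent.Work.MP_ffcd14_ag.Uni.B0a
section
/-! # Charts of the model of a linear system, prime divisors seen by a function -/

open MvPolynomial

namespace Pool.Agent.Work.MP_ffcd14_ag.Uni

universe u

variable {k F : Type u} [Field k] [Field F] [Algebra k F]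

/-- The family `u` generates the linear system `A`. -/
structure B0aCo (A : FD k F) {σ : Type} (u : σ → F) : Prop where
  mem : ∀ s, u s ∈ A.1
  lin : ∀ u₀ : F, ∀ f ∈ A.1, ∃ P : MvPolynomial σ k, aeval (fun s => u s / u₀) P = f / u₀

theorem B0a_co (A : FD k F) : ∃ (m : ℕ) (u : Fin m → F), B0aCo A u := by
  obtain ⟨m, u, hu, rfl⟩ := A.exists_sp
  have e : (FD.sp u : FD k F).1 = Submodule.span k (Set.range u) := FD.sp_val ⟨0, hu 0⟩
  refine ⟨m + 1, u, fun s => e ▸ Submodule.subset_span ⟨s, rfl⟩, fun u₀ f hf => ?_⟩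
  rw [e] at hf
  induction hf using Submodule.span_induction with
  | mem x hx =>
    obtain ⟨s, rfl⟩ := hx
    exact ⟨X s, aeval_X _ _⟩
  | zero => exact ⟨0, by simp⟩
  | add x y _ _ hx hy =>
    obtain ⟨P, hP⟩ := hx
    obtain ⟨Q, hQ⟩ := hy
    exact ⟨P + Q, by rw [map_add, hP, hQ, add_div]⟩
  | smul a x _ hx =>
    obtain ⟨P, hP⟩ := hx
    exact ⟨a • P, by rw [map_smul, hP, smul_div_assoc]⟩

theorem B0a_aeval_mem {σ : Type} (z : σ → F) (P : MvPolynomial σ k) :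
    aeval z P ∈ IntermediateField.adjoin k (Set.range z) := by
  refine IntermediateField.algebra_adjoin_le_adjoin k _ ?_
  rw [Algebra.adjoin_range_eq_range_aeval]
  exact ⟨P, rfl⟩

theorem B0a_div_nonneg {A : FD k F} {v : Vl k F} {u₀ f : F} (h0 : u₀ ≠ 0) (h : v u₀ = mn A v)
    (hf : f ∈ A.1) : 0 ≤ v (f / u₀) := by
  rcases eq_or_ne f 0 with rfl | h1
  · rw [zero_div, v.zero]
  · rw [v.div h1 h0, h, sub_nonneg]
    exact mn_le A v hf h1

theorem B0a_mn {A : FD k F} {σ : Type} {u : σ → F} (hu : B0aCo A u) {v : Vl k F} {u₀ : F}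
    (h0 : u₀ ≠ 0) (h1 : u₀ ∈ A.1) (h : ∀ s, 0 ≤ v (u s / u₀)) : v u₀ = mn A v := by
  refine le_antisymm ?_ (mn_le A v h1 h0)
  obtain ⟨P, hP⟩ := hu.lin u₀ _ (A.pick_mem v)
  have h2 := (v.res_aeval h P).1
  rw [hP, v.div (A.pick_ne v) h0, sub_nonneg] at h2
  exact h2

theorem B0a_succ_le (c : Dv k F) {x y : F} (h : c x < c y) : c x + 1 ≤ c y := by
  rw [← c.z_cast, ← c.z_cast] at h ⊢
  exact_mod_cast h

/-- Homogenisation. -/
theorem B0a_hom {A : FD k F} {σ : Type} {u : σ → F} (hu : B0aCo A u) {u₀ : F} (h0 : u₀ ≠ 0)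
    (h1 : u₀ ∈ A.1) (P : MvPolynomial σ k) :
    ∃ a : ℕ, u₀ ^ a * aeval (fun s => u s / u₀) P ∈ (A ^ a).1 := by
  have up : ∀ (a b : ℕ) (y : F), u₀ ^ a * y ∈ (A ^ a).1 → u₀ ^ (b + a) * y ∈ (A ^ (b + a)).1 := by
    intro a b y hy
    rw [pow_add, pow_add, mul_assoc, FD.mul_val]
    exact Submodule.mul_mem_mul (Submodule.pow_mem_pow _ h1 b) hy
  induction P using MvPolynomial.induction_on with
  | C a =>
    refine ⟨0, ?_⟩
    rw [pow_zero, pow_zero, one_mul, aeval_C, FD.one_val]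
    exact Submodule.algebraMap_mem a
  | add P Q hP hQ =>
    obtain ⟨a, ha⟩ := hP
    obtain ⟨b, hb⟩ := hQ
    refine ⟨b + a, ?_⟩
    rw [map_add, mul_add]
    refine add_mem (up a b _ ha) ?_
    rw [add_comm b a]
    exact up b a _ hb
  | mul_X P s hP =>
    obtain ⟨a, ha⟩ := hP
    refine ⟨a + 1, ?_⟩
    have e : u₀ ^ (a + 1) * aeval (fun s => u s / u₀) (P * X s) =
        u₀ ^ a * aeval (fun s => u s / u₀) P * u s := by
      rw [map_mul, aeval_X]
      field_simp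
      ring
    rw [e, pow_succ A, FD.mul_val]
    exact Submodule.mul_mem_mul ha (hu.mem s)

theorem B0a_trdeg {σ : Type} [Finite σ] (z : σ → F) : (rn k (Set.range z) : Cardinal) =
    Algebra.trdeg k (MvPolynomial σ k ⧸ RingHom.ker (aeval z : MvPolynomial σ k →ₐ[k] F)) :=
  rk_range_eq_trdeg z

theorem B0a_mem_ker {v : Vl k F} {σ : Type} {z : σ → F} (hz : ∀ s, 0 ≤ v (z s))
    (P : MvPolynomial σ k) :
    P ∈ RingHom.ker (aeval (fun s => v.res (z s)) : MvPolynomial σ k →ₐ[k] v.κ) ↔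
      v.res (aeval z P) = 0 := by
  rw [RingHom.mem_ker, (v.res_aeval hz P).2]

theorem B0a_ker_le {v : Vl k F} {σ : Type} {z : σ → F} (hz : ∀ s, 0 ≤ v (z s)) :
    RingHom.ker (aeval z : MvPolynomial σ k →ₐ[k] F) ≤
      RingHom.ker (aeval (fun s => v.res (z s)) : MvPolynomial σ k →ₐ[k] v.κ) := by
  intro P hP
  rw [B0a_mem_ker hz, RingHom.mem_ker.1 hP, v.res_zero]

variable [Fg k F]

theorem B0a_rank {A : FD k F} {σ : Type} {u : σ → F} (hu : B0aCo A u) {u₀ : F} (h0 : u₀ ≠ 0)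
    (h1 : u₀ ∈ A.1) : rn k (Set.range fun s => u s / u₀) = rn k (rt A) := by
  refine le_antisymm (rn_mono ?_) (rn_le_of_mem ?_)
  · rintro _ ⟨s, rfl⟩
    exact ⟨_, hu.mem s, _, h1, rfl⟩
  · rintro _ ⟨f, hf, g, hg, rfl⟩
    obtain ⟨P, hP⟩ := hu.lin u₀ f hf
    obtain ⟨Q, hQ⟩ := hu.lin u₀ g hg
    rw [← div_div_div_cancel_right₀ h0 f g, ← hP, ← hQ]
    exact div_mem (B0a_aeval_mem _ P) (B0a_aeval_mem _ Q)

theorem B0a_rank_res {A : FD k F} {σ : Type} {u : σ → F} (hu : B0aCo A u) {u₀ : F} (h0 : u₀ ≠ 0)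
    (h1 : u₀ ∈ A.1) {c : Dv k F} (h : c u₀ = mn A c.toVl) :
    rn k (Set.range fun s => c.res (u s / u₀)) = rn k (rt (c.Res A)) := by
  refine le_antisymm (rn_mono ?_) (rn_le_of_mem ?_)
  · rintro _ ⟨s, rfl⟩
    exact c.res_mem_rt (hu.mem s) h1 h0 h
  · have hπ : c.π ^ c.mz A ≠ 0 := zpow_ne_zero _ c.π_ne
    have hv : c (u₀ / c.π ^ c.mz A) = 0 := by
      rw [c.toVl.div h0 hπ, c.toVl.zpow, c.v_π, mul_one, c.mz_cast, h, sub_self]
    have he : c.res (u₀ / c.π ^ c.mz A) ≠ 0 := by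
      rw [Ne, c.toVl.res_eq_zero, not_or, not_not]
      exact ⟨div_ne_zero h0 hπ, hv⟩
    have key : ∀ f ∈ A.1, ∃ P : MvPolynomial σ k, c.res (f / c.π ^ c.mz A) =
        aeval (fun s => c.res (u s / u₀)) P * c.res (u₀ / c.π ^ c.mz A) := by
      intro f hf
      obtain ⟨P, hP⟩ := hu.lin u₀ f hf
      refine ⟨P, ?_⟩
      rw [← (c.toVl.res_aeval (fun s => B0a_div_nonneg h0 h (hu.mem s)) P).2, hP,
        ← c.toVl.res_mul (B0a_div_nonneg h0 h hf) hv.ge, div_mul_div_cancel₀ h0]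
    rintro _ ⟨y, hy, y', hy', rfl⟩
    obtain ⟨f, hf, rfl⟩ := c.mem_Res.1 hy
    obtain ⟨g, hg, rfl⟩ := c.mem_Res.1 hy'
    obtain ⟨P, hP⟩ := key f hf
    obtain ⟨Q, hQ⟩ := key g hg
    rw [hP, hQ, mul_div_mul_right _ _ he]
    exact div_mem (B0a_aeval_mem _ P) (B0a_aeval_mem _ Q)

/-- A prime divisor of an affine model along which a given function vanishes. -/
theorem B0a_prime {σ : Type} [Finite σ] {z : σ → F} (hz : rn k (Set.range z) = td k F)
    (q : Ideal (MvPolynomial σ k)) [q.IsPrime]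
    (hq : RingHom.ker (aeval z : MvPolynomial σ k →ₐ[k] F) ≤ q) {g : MvPolynomial σ k}
    (hg : g ∈ q) (h0 : aeval z g ≠ 0) : ∃ μ : Dv k F, (∀ s, 0 ≤ μ (z s)) ∧ 0 < μ (aeval z g) ∧
      rn k (Set.range fun s => μ.res (z s)) + 1 = td k F := by
  have := RingHom.ker_isPrime (aeval z : MvPolynomial σ k →ₐ[k] F)
  obtain ⟨r, hr, h1, -, h3, h4⟩ := kr _ q hq (g := g) h0 hg
  rw [← B0a_trdeg, hz] at h4
  obtain ⟨μ, h5, h6⟩ := exists_dv_prime z r (fun f hf => h1 hf) hz h4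
  refine ⟨μ, h5, ?_, ?_⟩
  · refine lt_of_le_of_ne (μ.toVl.res_aeval h5 g).1 ?_
    exact ((μ.toVl.res_eq_zero.1 ((h6 g).2 h3)).resolve_left h0).symm
  · have e : RingHom.ker (aeval (fun s => μ.res (z s)) : MvPolynomial σ k →ₐ[k] μ.κ) = r := by
      ext P
      rw [B0a_mem_ker h5, h6]
    have h7 := B0a_trdeg (k := k) fun s => μ.res (z s)
    rw [e] at h7
    rw [← h7] at h4
    exact_mod_cast h4

/-- A function vanishing at the centre of a valuation vanishes along a prime divisor. -/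
theorem B0a_see {A : FD k F} (hA : rn k (rt A) = td k F) (v : Vl k F) {φ : F} (hφ : 0 < v φ) :
    ∃ μ : Dv k F, rn k (rt (μ.Res A)) + 1 = td k F ∧ μ (A.pick v) = mn A μ.toVl ∧ 0 < μ φ := by
  obtain ⟨m, u, hu⟩ := B0a_co A
  have h0 := A.pick_ne v
  have h1 := A.pick_mem v
  let z : Option (Fin m) → F := fun o => o.elim φ fun s => u s / A.pick v
  have hv : ∀ s, 0 ≤ v (z s) := by
    rintro (_ | s)
    · exact hφ.le
    · exact B0a_div_nonneg h0 rfl (hu.mem s)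
  have hz : rn k (Set.range z) = td k F := by
    refine le_antisymm (rn_le_td _) ?_
    rw [← hA, ← B0a_rank hu h0 h1]
    refine rn_mono ?_
    rintro _ ⟨s, rfl⟩
    exact ⟨some s, rfl⟩
  have hφ0 : φ ≠ 0 := by
    rintro rfl
    rw [v.zero] at hφ
    exact hφ.false
  have := RingHom.ker_isPrime (aeval (fun s => v.res (z s)) : MvPolynomial _ k →ₐ[k] v.κ)
  obtain ⟨μ, h2, h3, h4⟩ := B0a_prime hz _ (B0a_ker_le hv) (g := X none)
    (by rw [B0a_mem_ker hv, aeval_X, v.res_eq_zero]; exact Or.inr hφ.ne')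
    (by rw [aeval_X]; exact hφ0)
  rw [aeval_X] at h3
  have h5 : μ (A.pick v) = mn A μ.toVl := B0a_mn hu h0 h1 fun s => h2 (some s)
  refine ⟨μ, le_antisymm ?_ ?_, h5, h3⟩
  · rw [← μ.dim]
    exact Nat.succ_le_succ (rn_le_td _)
  · rw [← h4, ← B0a_rank_res hu h0 h1 h5]
    refine Nat.succ_le_succ (rn_le_of_mem ?_)
    rintro _ ⟨_ | s, rfl⟩
    · have e : μ.res (z none) = 0 := μ.toVl.res_eq_zero.2 (Or.inr h3.ne')
      simp only [e]
      exact zero_mem _
    · exact IntermediateField.subset_adjoin _ _ ⟨s, rfl⟩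

variable [IsAlgClosed k]

theorem B0a_exists_pr {A : FD k F} (hA : rn k (rt A) = td k F) (h : 0 < td k F) :
    ∃ c : Dv k F, rn k (rt (c.Res A)) + 1 = td k F := by
  obtain ⟨m, u, hu⟩ := B0a_co A
  obtain ⟨u₀, h1, h0⟩ := Submodule.exists_mem_ne_zero_of_ne_bot A.ne
  have hz := (B0a_rank hu h0 h1).trans hA
  obtain ⟨q, hq, hle⟩ := Ideal.exists_le_maximal _
    (RingHom.ker_ne_top (aeval (fun s => u s / u₀) : MvPolynomial (Fin m) k →ₐ[k] F))
  have := hq.isPrime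
  by_cases hg : ∃ g ∈ q, aeval (fun s => u s / u₀) g ≠ 0
  · obtain ⟨g, hg, hg0⟩ := hg
    obtain ⟨μ, h2, -, h4⟩ := B0a_prime hz q hle hg hg0
    exact ⟨μ, by rwa [← B0a_rank_res hu h0 h1 (B0a_mn hu h0 h1 h2)]⟩
  · exfalso
    push Not at hg
    obtain ⟨x, rfl⟩ := isMaximal_iff_eq_vanishingIdeal_singleton.1 hq
    have h3 : rn k (Set.range fun s => u s / u₀) ≤ rn k (∅ : Set F) := by
      refine rn_le_of_mem ?_
      rintro _ ⟨s, rfl⟩
      have h4 := hg (X s - C (x s)) ((mem_vanishingIdeal_singleton_iff _ _).2 (by simp))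
      rw [map_sub, aeval_X, aeval_C, sub_eq_zero] at h4
      simp only [h4]
      exact IntermediateField.algebraMap_mem _ _
    rw [hz, rn_empty] at h3
    omega

/-- Forms which separate the centre of `c₀` from almost all prime divisors. -/
theorem B0a_sep {A : FD k F} (hA : rn k (rt A) = td k F) {c₀ : Dv k F}
    (hc : rn k (rt (c₀.Res A)) + 1 = td k F) : ∃ S : Finset (Dv k F), ∀ c : Dv k F,
      rn k (rt (c.Res A)) + 1 = td k F → c ∉ S → ∃ a : ℕ, ∃ h ∈ (A ^ a).1, h ≠ 0 ∧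
        c₀ h = a * mn A c₀.toVl ∧ a * mn A c.toVl + 1 ≤ c h := by
  obtain ⟨m, u, hu⟩ := B0a_co A
  have h0 := A.pick_ne c₀.toVl
  have h1 := A.pick_mem c₀.toVl
  set u₀ := A.pick c₀.toVl
  have h2 : c₀ u₀ = mn A c₀.toVl := rfl
  let z : Fin m → F := fun s => u s / u₀
  have hv : ∀ s, 0 ≤ c₀ (z s) := fun s => B0a_div_nonneg h0 h2 (hu.mem s)
  have t0 := B0a_trdeg (k := k) fun s => c₀.res (z s)
  rw [B0a_rank_res hu h0 h1 h2] at t0
  have t1 := B0a_trdeg (k := k) z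
  rw [B0a_rank hu h0 h1, hA] at t1
  obtain ⟨H, hH, hH0⟩ : ∃ H : MvPolynomial (Fin m) k, c₀.res (aeval z H) = 0 ∧ aeval z H ≠ 0 := by
    by_contra h3
    push Not at h3
    have e : RingHom.ker (aeval z : MvPolynomial _ k →ₐ[k] F) =
        RingHom.ker (aeval (fun s => c₀.res (z s)) : MvPolynomial _ k →ₐ[k] c₀.κ) :=
      le_antisymm (B0a_ker_le hv) fun P hP => h3 P ((B0a_mem_ker hv P).1 hP)
    rw [e, ← t0] at t1
    have h4 : td k F = rn k (rt (c₀.Res A)) := by exact_mod_cast t1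
    omega
  refine ⟨(fin_dv (vD k (aeval z H)) A).toFinset, fun c hp hS => ?_⟩
  have h3 : c (aeval z H) = 0 := by
    by_contra h3
    refine hS ((Set.Finite.mem_toFinset _).2 ⟨fun h4 => h3 ?_, hp⟩)
    rw [← vD_apply, ← c.vq_cast, h4, Rat.cast_zero]
  by_cases h4 : c u₀ = mn A c.toVl
  · have hw : ∀ s, 0 ≤ c (z s) := fun s => B0a_div_nonneg h0 h4 (hu.mem s)
    obtain ⟨P, hP, hP0⟩ : ∃ P : MvPolynomial (Fin m) k,
        c.res (aeval z P) = 0 ∧ c₀.res (aeval z P) ≠ 0 := by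
      by_contra h5
      push Not at h5
      have := RingHom.ker_isPrime (aeval (fun s => c.res (z s)) : MvPolynomial _ k →ₐ[k] c.κ)
      have := RingHom.ker_isPrime (aeval (fun s => c₀.res (z s)) : MvPolynomial _ k →ₐ[k] c₀.κ)
      have h6 := trdeg_drop
        (RingHom.ker (aeval (fun s => c.res (z s)) : MvPolynomial _ k →ₐ[k] c.κ))
        (RingHom.ker (aeval (fun s => c₀.res (z s)) : MvPolynomial _ k →ₐ[k] c₀.κ))
        (lt_of_le_of_ne (fun P hP => (B0a_mem_ker hv P).2 (h5 P ((B0a_mem_ker hw P).1 hP)))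
          fun e => by
            have h7 := (B0a_mem_ker hv H).2 hH
            rw [← e, B0a_mem_ker hw, c.toVl.res_eq_zero] at h7
            exact h7.elim hH0 fun h => h h3)
      rw [← t0, ← B0a_trdeg, B0a_rank_res hu h0 h1 h4] at h6
      have h8 : rn k (rt (c₀.Res A)) + 1 ≤ rn k (rt (c.Res A)) := by exact_mod_cast h6
      omega
    rw [Ne, c₀.toVl.res_eq_zero, not_or, not_not] at hP0
    obtain ⟨a, ha⟩ := B0a_hom hu h0 h1 P
    refine ⟨a, _, ha, mul_ne_zero (pow_ne_zero _ h0) hP0.1, ?_, ?_⟩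
    · rw [c₀.toVl.mul _ _ (pow_ne_zero _ h0) hP0.1, c₀.toVl.pow, hP0.2, add_zero, h2]
    · have h5 : c 1 < c (aeval z P) := by
        rw [c.toVl.one]
        exact lt_of_le_of_ne (c.toVl.res_aeval hw P).1
          ((c.toVl.res_eq_zero.1 hP).resolve_left hP0.1).symm
      have h6 := B0a_succ_le c h5
      rw [c.toVl.one, zero_add] at h6
      rw [c.toVl.mul _ _ (pow_ne_zero _ h0) hP0.1, c.toVl.pow, h4]
      exact add_le_add_right h6 _
  · refine ⟨1, u₀, by rwa [pow_one], h0, by rw [h2, Nat.cast_one, one_mul], ?_⟩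
    rw [Nat.cast_one, one_mul]
    exact B0a_succ_le c (lt_of_le_of_ne (mn_le A c.toVl h1 h0) (Ne.symm h4))

theorem B0a_sep2 {A : FD k F} (hA : rn k (rt A) = td k F) {c₀ : Dv k F}
    (hc : rn k (rt (c₀.Res A)) + 1 = td k F) : ∃ S : Finset (Dv k F), ∀ (n : Dv k F → ℕ)
      (T : Finset (Dv k F)), (∀ c ∈ T, rn k (rt (c.Res A)) + 1 = td k F ∧ c ∉ S) →
      ∃ a : ℕ, ∃ h ∈ (A ^ a).1, h ≠ 0 ∧ c₀ h = a * mn A c₀.toVl ∧
        ∀ c ∈ T, a * mn A c.toVl + n c ≤ c h := by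
  classical
  obtain ⟨S, hS⟩ := B0a_sep hA hc
  refine ⟨S, fun n T => ?_⟩
  induction T using Finset.induction_on with
  | empty =>
    intro _
    refine ⟨0, 1, ?_, one_ne_zero, by simp [c₀.toVl.one], by simp⟩
    rw [pow_zero, FD.one_val]
    exact Submodule.one_le.1 le_rfl
  | insert c T _ ih =>
    intro hT
    obtain ⟨a, h, h1, h2, h3, h4⟩ := ih fun c' hc' => hT c' (Finset.mem_insert_of_mem hc')
    obtain ⟨b, g, g1, g2, g3, g4⟩ := hS c (hT c (Finset.mem_insert_self _ _)).1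
      (hT c (Finset.mem_insert_self _ _)).2
    have g5 := pow_ne_zero (n c) g2
    refine ⟨a + b * n c, h * g ^ n c, ?_, mul_ne_zero h2 g5, ?_, fun c' hc' => ?_⟩
    · rw [pow_add, pow_mul, FD.mul_val, FD.pow_val (A ^ b)]
      exact Submodule.mul_mem_mul h1 (Submodule.pow_mem_pow _ g1 _)
    · rw [c₀.toVl.mul _ _ h2 g5, c₀.toVl.pow, h3, g3]
      push_cast
      ring
    · rw [c'.toVl.mul _ _ h2 g5, c'.toVl.pow]
      push_cast
      have hn : (0 : FF) ≤ n c := Nat.cast_nonneg _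
      rcases Finset.mem_insert.1 hc' with rfl | hc'
      · have h5 := mn_le _ c'.toVl h1 h2
        rw [mn_pow] at h5
        nlinarith [mul_le_mul_of_nonneg_left g4 hn]
      · have h5 := mn_le _ c'.toVl g1 g2
        rw [mn_pow] at h5
        nlinarith [mul_le_mul_of_nonneg_left h5 hn, h4 c' hc']

end Pool.Agent.Work.MP_ffcd14_ag.Uni
end
end

-- merged part: Pool.Agent.Work.MP_ffcd14_ag.Uni.B0
section
/-! # Weil divisors on the model of a linear system, their sections and envelopes -/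

open MvPolynomial

namespace Pool.Agent.Work.MP_ffcd14_ag.Uni

universe u

variable {k F L : Type u} [Field k] [Field F] [Field L] [Algebra k F] [Algebra k L]

/-- `c` is a prime divisor on the (normalised) model of `A`. -/
def Pr (A : FD k F) (c : Dv k F) : Prop := rn k (rt (c.Res A)) + 1 = td k F

/-- The exceptional b-divisors. -/
def XC (A : FD k F) : Submodule ℚ (DD k F) where
  carrier := {X | ∀ c, Pr A c → c.vq X = 0}
  zero_mem' _ _ := map_zero _
  add_mem' hX hY c hc := by rw [map_add, hX c hc, hY c hc, add_zero]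
  smul_mem' q _ hX c hc := by rw [map_smul, hX c hc, smul_zero]

theorem mem_XC {A : FD k F} {X : DD k F} : X ∈ XC A ↔ ∀ c, Pr A c → c.vq X = 0 := Iff.rfl

open Classical in
/-- The prime components of `D`. -/
noncomputable def prs (A : FD k F) (D : DD k F) : Finset (Dv k F) :=
  if h : {c | Pr A c ∧ c.vq D ≠ 0}.Finite then h.toFinset else ∅

/-- The sections of the Weil divisor defined by `D`. -/
noncomputable def RR (A : FD k F) (D : DD k F) : Submodule k F :=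
  ⨅ (c : Dv k F) (_ : Pr A c), c.ge (-D c.toVl)

theorem mem_RR {A : FD k F} {D : DD k F} {f : F} :
    f ∈ RR A D ↔ f = 0 ∨ ∀ c, Pr A c → 0 ≤ c f + D c.toVl := by
  simp only [RR, Submodule.mem_iInf, Vl.mem_ge]
  constructor
  · intro h
    rcases eq_or_ne f 0 with h0 | h0
    · exact Or.inl h0
    · exact Or.inr fun c hc => neg_le_iff_add_nonneg.1 ((h c hc).resolve_left h0)
  · rintro (h | h) c hc
    · exact Or.inl h
    · exact Or.inr (neg_le_iff_add_nonneg.2 (h c hc))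

/-- `D` is nef over the model of `A`. -/
def PN (A : FD k F) (D : DD k F) : Prop := ∃ M : ℕ, Nef (cl D + M • hh A)

/-- `D` has integral coefficients on the model of `A`. -/
def IntP (A : FD k F) (D : DD k F) : Prop := ∀ c, Pr A c → ∃ z : ℤ, c.vq D = z

/-- The Weil divisor defined by `D` has no fixed component. -/
def NF (A : FD k F) (D : DD k F) : Prop :=
  ∀ c, Pr A c → ∃ f ∈ RR A D, f ≠ 0 ∧ c f + D c.toVl = 0

/-- The complete linear system. -/
noncomputable def RS (A : FD k F) (D : DD k F) : FD k F := FD.of (RR A D)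

/-- The approximate nef envelopes of `G`; `-mD A` is the polarisation. -/
noncomputable def env (A : FD k F) (G : DD k F) (m j : ℕ) : DD k F :=
  (m : ℚ)⁻¹ • -mD (RS A (m • (G - j • mD A))) + j • mD A

theorem PN.add {A : FD k F} {D D' : DD k F} (h : PN A D) (h' : PN A D') : PN A (D + D') := by
  obtain ⟨M, hM⟩ := h
  obtain ⟨M', hM'⟩ := h'
  refine ⟨M + M', ?_⟩
  have e : cl (D + D') + (M + M') • hh A = cl D + M • hh A + (cl D' + M' • hh A) := by
    rw [map_add, add_nsmul]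
    abel
  rw [e]
  exact hM.add hM'

theorem PN.smul {A : FD k F} {D : DD k F} (h : PN A D) {q : ℚ} (hq : 0 ≤ q) : PN A (q • D) := by
  obtain ⟨M, hM⟩ := h
  obtain ⟨n, hn⟩ := exists_nat_ge (q * M)
  refine ⟨n, ?_⟩
  have e : cl (q • D) + n • hh A = q • (cl D + M • hh A) + ((n : ℚ) - q * M) • hh A := by
    rw [map_smul, ← Nat.cast_smul_eq_nsmul ℚ n, ← Nat.cast_smul_eq_nsmul ℚ M]
    module
  rw [e]
  exact (hM.smul hq).add ((Nef.hh A).smul (sub_nonneg.2 hn))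

theorem RR_mono {A : FD k F} {D D' : DD k F} (h : ∀ c, Pr A c → c.vq D ≤ c.vq D') :
    RR A D ≤ RR A D' := by
  intro f hf
  refine mem_RR.2 ((mem_RR.1 hf).imp_right fun h1 c hc => (h1 c hc).trans ?_)
  rw [← c.vq_cast, ← c.vq_cast]
  exact add_le_add_right (Rat.cast_le.2 (h c hc)) _

theorem RR_mul {A : FD k F} (D D' : DD k F) : RR A D * RR A D' ≤ RR A (D + D') := by
  refine Submodule.mul_le.2 fun f hf g hg => mem_RR.2 ?_
  rcases eq_or_ne f 0 with rfl | hf0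
  · exact Or.inl (zero_mul _)
  rcases eq_or_ne g 0 with rfl | hg0
  · exact Or.inl (mul_zero _)
  refine Or.inr fun c hc => ?_
  have h1 := (mem_RR.1 hf).resolve_left hf0 c hc
  have h2 := (mem_RR.1 hg).resolve_left hg0 c hc
  rw [c.toVl.mul _ _ hf0 hg0, DD.add_apply]
  linarith

theorem le_RR {A V : FD k F} {D : DD k F} :
    V.1 ≤ RR A D ↔ ∀ c, Pr A c → c.vq (-mD V) ≤ c.vq D := by
  simp only [RR, le_iInf_iff, ← le_mn]
  refine forall₂_congr fun c _ => ?_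
  rw [← Rat.cast_le (K := FF), c.vq_cast, c.vq_cast, DD.neg_apply, mD_apply, neg_le]

theorem exists_intP (A : FD k F) (G : DD k F) : ∃ n : ℕ, 0 < n ∧ IntP A (n • G) := by
  obtain ⟨n, U, U', hn, h⟩ := G.rep
  refine ⟨n, hn, fun c _ => ⟨c.mz U - c.mz U', ?_⟩⟩
  rw [h, map_sub, c.vq_mD, c.vq_mD, Int.cast_sub]

theorem B0_add {A : FD k F} {D D' : DD k F} {c : Dv k F}
    (h : ∃ f ∈ RR A D, f ≠ 0 ∧ c f + D c.toVl = 0)
    (h' : ∃ f ∈ RR A D', f ≠ 0 ∧ c f + D' c.toVl = 0) :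
    ∃ f ∈ RR A (D + D'), f ≠ 0 ∧ c f + (D + D') c.toVl = 0 := by
  obtain ⟨f, h1, h2, h3⟩ := h
  obtain ⟨g, g1, g2, g3⟩ := h'
  refine ⟨f * g, RR_mul _ _ (Submodule.mul_mem_mul h1 g1), mul_ne_zero h2 g2, ?_⟩
  rw [c.toVl.mul _ _ h2 g2, DD.add_apply]
  linarith

theorem B0_pow {A : FD k F} {D : DD k F} {f : F} (h : f ∈ RR A D) (n : ℕ) :
    f ^ n ∈ RR A (n • D) := by
  induction n with
  | zero => exact mem_RR.2 (Or.inr fun c _ => by simp [c.toVl.one])
  | succ n ih =>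
    rw [pow_succ, succ_nsmul]
    exact RR_mul _ _ (Submodule.mul_mem_mul ih h)

theorem NF.add {A : FD k F} {D D' : DD k F} (h : NF A D) (h' : NF A D') : NF A (D + D') := by
  exact fun c hc => B0_add (h c hc) (h' c hc)

theorem NF.nsmul {A : FD k F} {D : DD k F} (h : NF A D) (n : ℕ) : NF A (n • D) := by
  induction n with
  | zero =>
    intro c _
    refine ⟨1, mem_RR.2 (Or.inr fun c' _ => ?_), one_ne_zero, ?_⟩
    · simp [c'.toVl.one]
    · simp [c.toVl.one]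
  | succ n ih =>
    rw [succ_nsmul]
    exact ih.add h

theorem NF_neg_mD (A V : FD k F) : NF A (-mD V) := by
  intro c _
  refine ⟨V.pick c.toVl, le_RR.2 (fun _ _ => le_rfl) (V.pick_mem _), V.pick_ne _, ?_⟩
  exact add_neg_cancel _

theorem B0_raise {A : FD k F} {G : DD k F} {c : Dv k F} (hc : Pr A c) {j j' : ℕ}
    (h : ∃ f ∈ RR A (G - j • mD A), f ≠ 0 ∧ c f + (G - j • mD A) c.toVl = 0) (h' : j ≤ j') :
    ∃ f ∈ RR A (G - j' • mD A), f ≠ 0 ∧ c f + (G - j' • mD A) c.toVl = 0 := by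
  obtain ⟨i, rfl⟩ := Nat.exists_eq_add_of_le h'
  have e : G - (j + i) • mD A = G - j • mD A + i • -mD A := by
    rw [add_nsmul, smul_neg]
    abel
  rw [e]
  exact B0_add h ((NF_neg_mD A A).nsmul i c hc)

theorem env_PN (A : FD k F) (G : DD k F) (m j : ℕ) : PN A (env A G m j) := by
  refine ⟨j, (m : ℚ)⁻¹, RS A (m • (G - j • mD A)), by positivity, ?_⟩
  rw [env, map_add, map_smul, map_neg, map_nsmul, cl_mD, cl_mD, neg_neg, smul_neg,
    neg_add_cancel_right]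

variable [IsAlgClosed k] [Fg k F]

theorem mem_prs {A : FD k F} {D : DD k F} {c : Dv k F} : c ∈ prs A D ↔ Pr A c ∧ c.vq D ≠ 0 := by
  have h : {c | Pr A c ∧ c.vq D ≠ 0}.Finite :=
    (fin_dv D A).subset fun c hc => ⟨hc.2, hc.1⟩
  rw [prs, dif_pos h, Set.Finite.mem_toFinset]
  rfl

theorem exists_pr {A : FD k F} (hA : rn k (rt A) = td k F) (h : 0 < td k F) : ∃ c, Pr A c := by
  exact B0a_exists_pr hA h

/-- A valuation which sees `F` and has a large centre lies over a prime divisor. -/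
theorem exists_over_pr [Fg k L] {A : FD k F} {ι : F →ₐ[k] L} {ν : Dv k L} (h : ¬ Tv ι ν.toVl)
    (hr : td k F ≤ rn k (rt (ν.Res (FD.map ι A))) + 1) :
    ∃ c : Dv k F, Pr A c ∧ Ov ι c.toVl ν.toVl := by
  have h1 : rt (ν.Res (FD.map ι A)) ⊆ ν.res '' Set.range ι := by
    refine (ν.rt_Res _).trans (Set.image_mono ?_)
    rw [rt_map]
    exact Set.image_subset_range _ _
  obtain ⟨c, hc⟩ := exists_over ν h (hr.trans (Nat.succ_le_succ (rn_mono h1)))
  refine ⟨c, le_antisymm ?_ ?_, hc⟩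
  · rw [← c.dim]
    exact Nat.succ_le_succ (rn_le_td _)
  · rwa [rt_Res_map_ov hc, rn_image] at hr

theorem rn_exc [Fg k L] {A : FD k F} {ι : F →ₐ[k] L} {ν : Dv k L} {X : DD k F} (hX : X ∈ XC A)
    (h : ν.vq (pD ι X) ≠ 0) : rn k (rt (ν.Res (FD.map ι A))) + 2 ≤ td k F := by
  by_contra h1
  obtain ⟨c, hc, ho⟩ := exists_over_pr (A := A) (fun ht => h (vq_pD_tv ht X)) (by omega)
  obtain ⟨e, -, he⟩ := Dv.ov_e ho
  exact h (by rw [vq_pD_ov he, hX c hc, mul_zero])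

theorem Pr.rn_eq {A : FD k F} {c : Dv k F} (h : Pr A c) : rn k (rt (c.Res A)) = td k c.κ := by
  have h1 := c.dim
  unfold Pr at h
  omega

theorem rn_of_not_pr {A : FD k F} {c : Dv k F} (h : ¬ Pr A c) :
    rn k (rt (c.Res A)) + 2 ≤ td k F := by
  have h1 := c.dim
  have h2 := rn_le_td (k := k) (rt (c.Res A))
  unfold Pr at h
  omega

/-- A lift of the part of `D` along one prime divisor. -/
theorem exists_part (A : FD k F) (c₀ : Dv k F) (q : ℚ) :
    ∃ G : DD k F, c₀.vq G = q ∧ ∀ c, Pr A c → c ≠ c₀ → c.vq G = 0 := by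
  obtain ⟨D, -, h1, -, h2⟩ := exists_lift A c₀
  refine ⟨q • D, by rw [map_smul, h1, smul_eq_mul, mul_one], fun c hc h => ?_⟩
  rw [map_smul, h2 c h hc, smul_zero]

/-- Two sections without common prime component. -/
theorem exists_pair (A U : FD k F) : ∃ u ∈ U.1, ∃ u' ∈ U.1, u ≠ 0 ∧ u' ≠ 0 ∧
    ∀ c, Pr A c → min (c u) (c u') = mn U c.toVl := by
  obtain ⟨u, hu, h0⟩ := Submodule.exists_mem_ne_zero_of_ne_bot U.ne
  let p : Option (prs A (vD k u - mD U)) → Submodule k U.1 := fun o =>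
    o.elim ⊥ fun c => (c.1.gt (mn U c.1.toVl)).comap U.1.subtype
  obtain ⟨x, hx⟩ := Submodule.exists_forall_notMem_of_forall_ne_top p (by
    rintro (_ | c) e
    · have h1 : (⟨u, hu⟩ : U.1) ∈ p none := e ▸ Submodule.mem_top
      exact h0 (congrArg Subtype.val ((Submodule.mem_bot k).1 h1))
    · have h1 : (⟨_, U.pick_mem c.1.toVl⟩ : U.1) ∈ p (some c) := e ▸ Submodule.mem_top
      exact h1.elim (U.pick_ne _) (lt_irrefl _))
  have h1 : x.1 ≠ 0 := fun e => hx none ((Submodule.mem_bot k).2 (Subtype.ext e))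
  refine ⟨u, hu, x.1, x.2, h0, h1, fun c hc => ?_⟩
  have h2 := mn_le U c.toVl hu h0
  have h3 := mn_le U c.toVl x.2 h1
  refine le_antisymm ?_ (le_min h2 h3)
  by_cases h4 : c ∈ prs A (vD k u - mD U)
  · exact (min_le_right _ _).trans (not_lt.1 fun h5 => hx (some ⟨c, h4⟩) (Or.inr h5))
  · have h5 : c.vq (vD k u - mD U) = 0 := by
      by_contra h5
      exact h4 (mem_prs.2 ⟨hc, h5⟩)
    have h6 := c.vq_cast (vD k u - mD U)
    rw [h5, Rat.cast_zero, DD.sub_apply, vD_apply, mD_apply] at h6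
    exact (min_le_left _ _).trans (sub_eq_zero.1 h6.symm).le

/-- A section which is exact along a given prime divisor. -/
theorem B0_ex {A : FD k F} (hA : rn k (rt A) = td k F) {G : DD k F} (hG : IntP A G) {c₀ : Dv k F}
    (hc : Pr A c₀) : ∃ j : ℕ, ∃ f ∈ RR A (G - j • mD A), f ≠ 0 ∧
      c₀ f + (G - j • mD A) c₀.toVl = 0 := by
  classical
  obtain ⟨S, hS⟩ := B0a_sep2 hA hc
  choose! z hz using hG
  obtain ⟨g, g0, hg⟩ := Dv.approx (insert c₀ S) fun c => -z c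
  have h1 : ∀ c, Pr A c → c ∈ insert c₀ S → c g + G c.toVl = 0 := by
    intro c hp h
    rw [hg c h, ← c.vq_cast, hz c hp]
    push_cast
    ring
  choose n hn using fun c : Dv k F => (vD k g + G).fin c.toVl
  obtain ⟨a, h, h2, h3, h4, h5⟩ := hS n (prs A (vD k g + G)) fun c h => by
    obtain ⟨hp, h⟩ := mem_prs.1 h
    refine ⟨hp, fun h6 => h ?_⟩
    rw [← Rat.cast_inj (α := FF), c.vq_cast, DD.add_apply, vD_apply, Rat.cast_zero]
    exact h1 c hp (Finset.mem_insert_of_mem h6)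
  refine ⟨a, g * h, mem_RR.2 (Or.inr fun c hp => ?_), mul_ne_zero g0 h3, ?_⟩
  · rw [c.toVl.mul _ _ g0 h3, DD.sub_apply, DD.nsmul_apply, mD_apply]
    by_cases h6 : c ∈ prs A (vD k g + G)
    · have h7 := (abs_le.1 (hn c)).1
      rw [DD.add_apply, vD_apply] at h7
      linarith [h5 c h6]
    · have h7 : c.vq (vD k g + G) = 0 := by
        by_contra h7
        exact h6 (mem_prs.2 ⟨hp, h7⟩)
      have h8 := c.vq_cast (vD k g + G)
      rw [h7, DD.add_apply, vD_apply, Rat.cast_zero] at h8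
      have h9 := mn_le _ c.toVl h2 h3
      rw [mn_pow] at h9
      linarith
  · rw [c₀.toVl.mul _ _ g0 h3, DD.sub_apply, DD.nsmul_apply, mD_apply, h4]
    linarith [h1 c₀ hc (Finset.mem_insert_self _ _)]

variable {A : FD k F} (hA : IntermediateField.adjoin k (rt A) = ⊤)
include hA

/-- Hartogs. -/
theorem hartogs (j : ℕ) {f : F} (hf : f ∈ RR A (-(j • mD A))) (v : Vl k F) :
    f ∈ v.ge (j * mn A v) := by
  rcases eq_or_ne f 0 with h0 | h0
  · exact Or.inl h0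
  refine Or.inr (not_lt.1 fun h1 => ?_)
  have h2 := pow_ne_zero j (A.pick_ne v)
  obtain ⟨μ, h3, h4, h5⟩ := B0a_see (rn_gen hA) v (φ := A.pick v ^ j / f) (by
    rw [v.div h2 h0, v.pow, sub_pos]
    exact h1)
  have h6 := (mem_RR.1 hf).resolve_left h0 μ h3
  rw [DD.neg_apply, DD.nsmul_apply, mD_apply] at h6
  rw [μ.toVl.div h2 h0, μ.toVl.pow, h4] at h5
  linarith

theorem exists_NF {G : DD k F} (hG : IntP A G) : ∃ j : ℕ, NF A (G - j • mD A) := by
  classical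
  by_cases h0 : ∃ c, Pr A c
  swap
  · exact ⟨0, fun c hc => (h0 ⟨c, hc⟩).elim⟩
  obtain ⟨c₁, hc₁⟩ := h0
  choose! j hj using fun c (hc : Pr A c) => B0_ex (rn_gen hA) hG hc
  obtain ⟨f, h1, h2, -⟩ := hj c₁ hc₁
  refine ⟨j c₁ ⊔ (prs A (vD k f + (G - j c₁ • mD A))).sup j, fun c hc => ?_⟩
  by_cases h3 : c ∈ prs A (vD k f + (G - j c₁ • mD A))
  · exact B0_raise hc (hj c hc) ((Finset.le_sup h3).trans le_sup_right)
  · refine B0_raise hc ⟨f, h1, h2, ?_⟩ le_sup_left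
    have h4 : c.vq (vD k f + (G - j c₁ • mD A)) = 0 := by
      by_contra h4
      exact h3 (mem_prs.2 ⟨hc, h4⟩)
    rw [← vD_apply, ← DD.add_apply, ← c.vq_cast, h4, Rat.cast_zero]

theorem NF.le {G : DD k F} {j j' : ℕ} (h : NF A (G - j • mD A)) (h' : j ≤ j') :
    NF A (G - j' • mD A) := by
  exact fun c hc => B0_raise hc (h c hc) h'

variable (h0 : 0 < td k F)
include h0

theorem NF.ne_bot {D : DD k F} (h : NF A D) : RR A D ≠ ⊥ := by
  obtain ⟨c, hc⟩ := exists_pr (rn_gen hA) h0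
  obtain ⟨f, h1, h2, -⟩ := h c hc
  exact (Submodule.ne_bot_iff _).2 ⟨f, h1, h2⟩

/-- The sections of `D` are bounded by those of a multiple of the polarisation. -/
theorem RR_bound (D : DD k F) : ∃ (j : ℕ) (f₀ : F), f₀ ≠ 0 ∧ ∀ (m : ℕ) (V : FD k F),
    V.1 ≤ RR A (m • D) → m • (j • mD A - vD k f₀) ≤ mD V := by
  obtain ⟨n, hn, h1⟩ := exists_intP A D
  have h2 : IntP A (-(n • D ⊔ 0)) := by
    intro c hc
    obtain ⟨z, hz⟩ := h1 c hc
    exact ⟨-max z 0, by rw [map_neg, c.vq_sup, hz, map_zero]; push_cast; rfl⟩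
  obtain ⟨j, hj⟩ := exists_NF hA h2
  obtain ⟨f, hf, hf0⟩ := Submodule.exists_mem_ne_zero_of_ne_bot (hj.ne_bot hA h0)
  refine ⟨j, f, hf0, fun m V hV v => ?_⟩
  have h3 : V.pick v * f ^ m ∈ RR A (-((m * j) • mD A)) := by
    refine RR_mono (fun c _ => ?_)
      (RR_mul _ _ (Submodule.mul_mem_mul (hV (V.pick_mem v)) (B0_pow hf m)))
    have h4 : c.vq D ≤ max (n * c.vq D) 0 := by
      rcases le_total 0 (c.vq D) with h | h
      · exact le_max_of_le_left (le_mul_of_one_le_left h (by exact_mod_cast hn))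
      · exact le_max_of_le_right h
    simp only [map_add, map_sub, map_neg, map_nsmul, c.vq_sup, map_zero, nsmul_eq_mul]
    push_cast
    nlinarith [mul_le_mul_of_nonneg_left h4 (Nat.cast_nonneg (α := ℚ) m)]
  have h4 := (hartogs hA _ h3 v).resolve_left (mul_ne_zero (V.pick_ne v) (pow_ne_zero _ hf0))
  rw [v.mul _ _ (V.pick_ne v) (pow_ne_zero _ hf0), v.pow] at h4
  simp only [DD.nsmul_apply, DD.sub_apply, mD_apply, vD_apply]
  push_cast at h4
  have h5 : mn V v = v (V.pick v) := rfl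
  linarith

end Pool.Agent.Work.MP_ffcd14_ag.Uni
end
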