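import Mathlib
import Pool.Agent.Work.MP_ffcd14_ag.Uni.B0
import Pool.Agent.Work.MP_ffcd14_ag.Cyc.VarDim
import Pool.Agent.Work.MP_ffcd14_ag.Uni.DefsU

-- merged part: Pool.Agent.Work.MP_ffcd14_ag.Uni.T0a
section
/-! # The layer cake formula on a finite set -/

namespace Pool.Agent.Work.MP_ffcd14_ag.Uni

variable {I R : Type*} [Fintype I] [DecidableEq I] [Field R] [LinearOrder R]
  [IsStrictOrderedRing R] (f : I → R)

omit [Field R] [IsStrictOrderedRing R] in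
theorem T0a_mem {S : Finset I} (h1 : S.Nonempty) (h2 : Sᶜ.Nonempty)
    (h : Sᶜ.sup' h2 f < S.inf' h1 f) {i : I} (hi : S.inf' h1 f ≤ f i) : i ∈ S := by
  by_contra hc
  exact (Finset.le_sup' f (Finset.mem_compl.2 hc)).not_gt (h.trans_le hi)

theorem T0a_disj {S S' : Finset I} (h1 : S.Nonempty) (h2 : Sᶜ.Nonempty) (h1' : S'.Nonempty)
    (h2' : S'ᶜ.Nonempty) (h : ¬ S ⊆ S') (h' : ¬ S' ⊆ S) :
    min (max (S.inf' h1 f - Sᶜ.sup' h2 f) 0) (max (S'.inf' h1' f - S'ᶜ.sup' h2' f) 0) = 0 := by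
  rcases le_or_gt (S.inf' h1 f) (Sᶜ.sup' h2 f) with a | a
  · rw [max_eq_right (sub_nonpos.2 a), min_eq_left (le_max_right _ _)]
  rcases le_or_gt (S'.inf' h1' f) (S'ᶜ.sup' h2' f) with b | b
  · rw [max_eq_right (sub_nonpos.2 b), min_eq_right (le_max_right _ _)]
  exfalso
  rcases le_total (S.inf' h1 f) (S'.inf' h1' f) with c | c
  · exact h' fun i hi => T0a_mem f h1 h2 a (c.trans (Finset.inf'_le f hi))
  · exact h fun i hi => T0a_mem f h1' h2' b (c.trans (Finset.inf'_le f hi))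

theorem T0a_cake [Nonempty I] (A : Finset I) (hA : A.Nonempty) :
    A.inf' hA f = Finset.univ.inf' Finset.univ_nonempty f +
      ∑ S : {S : Finset I // S.Nonempty ∧ Sᶜ.Nonempty} with A ⊆ S.1,
        max (S.1.inf' S.2.1 f - S.1ᶜ.sup' S.2.2 f) 0 := by
  classical
  induction hn : Aᶜ.card using Nat.strong_induction_on generalizing A with
  | _ n ih =>
  have hmono : ∀ S : Finset I, ∀ hS : S.Nonempty, A ⊆ S → S.inf' hS f ≤ A.inf' hA f :=
    fun S hS h => (Finset.le_inf'_iff _ _).2 fun i hi => Finset.inf'_le f (h hi)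
  set S0 : Finset I := Finset.univ.filter fun i => A.inf' hA f ≤ f i with hS0
  have mem0 : ∀ i, i ∈ S0 ↔ A.inf' hA f ≤ f i := fun i => by simp only [hS0, Finset.mem_filter, Finset.mem_univ, true_and]
  have sub0 : A ⊆ S0 := fun i hi => (mem0 i).2 (Finset.inf'_le f hi)
  have ne0 : S0.Nonempty := hA.mono sub0
  have inf0 : S0.inf' ne0 f = A.inf' hA f :=
    le_antisymm (hmono _ _ sub0) ((Finset.le_inf'_iff _ _).2 fun i hi => (mem0 i).1 hi)
  rcases S0ᶜ.eq_empty_or_nonempty with h0 | h0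
  · have all : ∀ i, A.inf' hA f ≤ f i := fun i => (mem0 i).1 (by
      by_contra hc
      exact Finset.notMem_empty i (h0 ▸ Finset.mem_compl.2 hc))
    rw [Finset.sum_eq_zero, add_zero]
    · exact le_antisymm ((Finset.le_inf'_iff _ _).2 fun i _ => all i)
        (hmono _ _ (Finset.subset_univ _))
    · intro S hS
      obtain ⟨i, hi⟩ := S.2.2
      exact max_eq_right (sub_nonpos.2 (((hmono _ _ (Finset.mem_filter.1 hS).2).trans (all i)).trans
        (Finset.le_sup' f hi)))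
  · obtain ⟨j, hj, hj'⟩ := Finset.exists_mem_eq_sup' h0 f
    have hj0 : j ∉ S0 := Finset.mem_compl.1 hj
    have hjl : f j < A.inf' hA f := not_le.1 (mt (mem0 j).2 hj0)
    have hjA : j ∉ A := fun h => hj0 (sub0 h)
    have h1 := ih (insert j A)ᶜ.card (by
      rw [← hn]
      refine Finset.card_lt_card ⟨Finset.compl_subset_compl.2 (Finset.subset_insert _ _), fun h => ?_⟩
      exact Finset.mem_compl.1 (h (Finset.mem_compl.2 hjA)) (Finset.mem_insert_self _ _))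
      (insert j A) (Finset.insert_nonempty _ _) rfl
    rw [Finset.inf'_insert hA, min_eq_left hjl.le] at h1
    have h2 : ∑ S : {S : Finset I // S.Nonempty ∧ Sᶜ.Nonempty} with A ⊆ S.1,
        max (S.1.inf' S.2.1 f - S.1ᶜ.sup' S.2.2 f) 0 =
        ∑ S : {S : Finset I // S.Nonempty ∧ Sᶜ.Nonempty} with insert j A ⊆ S.1,
        max (S.1.inf' S.2.1 f - S.1ᶜ.sup' S.2.2 f) 0 + (A.inf' hA f - f j) := by
      rw [← Finset.sum_filter_add_sum_filter_not _ (fun S => j ∈ S.1), Finset.filter_filter,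
        Finset.filter_filter]
      congr 1
      · refine Finset.sum_congr (Finset.filter_congr fun S _ => ?_) fun _ _ => rfl
        rw [Finset.insert_subset_iff, and_comm]
      · rw [Finset.sum_eq_single ⟨S0, ne0, h0⟩]
        · change max (S0.inf' ne0 f - S0ᶜ.sup' h0 f) 0 = _
          rw [inf0, hj', max_eq_left (sub_nonneg.2 hjl.le)]
        · intro S hS hne
          obtain ⟨hS1, hS2⟩ := (Finset.mem_filter.1 hS).2
          refine max_eq_right (sub_nonpos.2 (not_lt.1 fun hlt => hne (Subtype.ext ?_)))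
          refine Finset.Subset.antisymm (fun i hi => ?_) fun i hi =>
            T0a_mem f S.2.1 S.2.2 hlt ((hmono _ _ hS1).trans ((mem0 i).1 hi))
          by_contra hc
          have h3 := Finset.le_sup' f (Finset.mem_compl.2 hc)
          have h4 := Finset.le_sup' f (Finset.mem_compl.2 hS2)
          have h5 := Finset.inf'_le f hi
          exact (h3.trans_eq hj').not_gt ((h4.trans_lt hlt).trans_le h5)
        · intro h
          exact absurd (Finset.mem_filter.2 ⟨Finset.mem_univ _, sub0, hj0⟩) h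
    rw [h2, ← add_assoc, ← h1]
    ring

end Pool.Agent.Work.MP_ffcd14_ag.Uni
end

-- merged part: Pool.Agent.Work.MP_ffcd14_ag.Uni.T0
section
/-! # Trees of rational curves over the space of valuations -/

open MvPolynomial

namespace Pool.Agent.Work.MP_ffcd14_ag.Uni

universe u

variable {k F L W : Type u} [Field k] [Field F] [Field L] [Field W] [Algebra k F] [Algebra k L]
  [Algebra k W]

/-- The b-divisor of `V` is a combination of the functions `min (v (t - s)) (g v)`. -/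
structure Tree (ι : F →ₐ[k] L) (t : L) (V : FD k L) where
  I : Type
  [fin : Fintype I]
  [dec : DecidableEq I]
  [ne : Nonempty I]
  s : I → F
  g : I → DD k F
  n : I → ℤ
  g0 : DD k F
  rep : mD V = pD ι g0 + ∑ α, n α • (vD k (t - ι (s α)) ⊓ pD ι (g α))
  int : ∀ α (c : Dv k F), ∃ z : ℤ, c.vq (g α) = z

attribute [instance] Tree.fin Tree.dec Tree.ne

namespace Tree

variable {ι : F →ₐ[k] L} {t : L} {V : FD k L} (τ : Tree ι t V)

/-- The height of the projection to the branch `α`. -/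
noncomputable def lam (α : τ.I) : DD k L := vD k (t - ι (τ.s α)) ⊓ pD ι (τ.g α)

open Classical in
/-- The height at which two branches separate. -/
noncomputable def bb (α β : τ.I) : DD k F :=
  if τ.s α = τ.s β then τ.g α ⊓ τ.g β else vD k (τ.s α - τ.s β) ⊓ (τ.g α ⊓ τ.g β)

/-- Proper non-empty sets of branches. -/
def Cl : Type := {S : Finset τ.I // S.Nonempty ∧ Sᶜ.Nonempty}

instance : Fintype τ.Cl := inferInstanceAs (Fintype {S : Finset τ.I // S.Nonempty ∧ Sᶜ.Nonempty})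

instance : DecidableEq τ.Cl :=
  inferInstanceAs (DecidableEq {S : Finset τ.I // S.Nonempty ∧ Sᶜ.Nonempty})

/-- The height up to which the branches in `S` stay together. -/
noncomputable def mm (S : τ.Cl) : DD k F := S.1.inf' S.2.1 fun α => S.1.inf' S.2.1 fun β => τ.bb α β

/-- The height at which `S` leaves the other branches. -/
noncomputable def oo (S : τ.Cl) : DD k F :=
  S.1.sup' S.2.1 fun α => S.1ᶜ.sup' S.2.2 fun β => τ.bb α β

/-- The length of the edge `S`. -/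
noncomputable def dl (S : τ.Cl) : DD k F := (τ.mm S - τ.oo S) ⊔ 0

/-- The tail beyond the edge `S`. -/
noncomputable def TT (S : τ.Cl) : DD k L := (S.1.inf' S.2.1 τ.lam - S.1ᶜ.sup' S.2.2 τ.lam) ⊔ 0

/-- The truncated tail. -/
noncomputable def TG (S : τ.Cl) (G : DD k F) : DD k L := τ.TT S ⊓ pD ι G

/-- The section at infinity. -/
noncomputable def l0 : DD k L := Finset.univ.inf' Finset.univ_nonempty τ.lam

/-- The height of the root. -/
noncomputable def h0 : DD k F := Finset.univ.inf' Finset.univ_nonempty fun α =>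
  Finset.univ.inf' Finset.univ_nonempty fun β => τ.bb α β

/-- The class of the section at infinity. -/
noncomputable def xi : N k L := -cl τ.l0

/-- Its normal bundle. -/
noncomputable def ka : N k F := -cl τ.h0

/-- The degree on the fibres. -/
def d : ℚ := ∑ α, (τ.n α : ℚ)

/-- The degree on a tail. -/
def nS (S : τ.Cl) : ℚ := ∑ α ∈ S.1, (τ.n α : ℚ)

/-- `ν` is the vertex at the end of the branch `β` over `c`. -/
def Vx (c : Dv k F) (ν : Dv k L) (β : τ.I) : Prop :=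
  ∃ ϖ : F, ϖ ≠ 0 ∧ c ϖ = τ.g β c.toVl ∧ Gs ι ((t - ι (τ.s β)) / ι ϖ) c ν

/-- The b-divisor of the diagonal. -/
noncomputable def Dh (j₁ j₂ : L →ₐ[k] W) : DD k W :=
  vD k (j₁ t - j₂ t) - pD j₁ τ.l0 - pD j₂ τ.l0 + pD (j₁.comp ι) τ.h0 -
    ∑ S, pD j₁ (τ.TT S) ⊓ pD j₂ (τ.TT S)

/-- Models on which the tree is defined. -/
structure Mod (A : FD k F) (Vη : FD k L) (Λ : τ.Cl → N k F) (m : τ.Cl → τ.Cl → ℚ) : Prop where
  gen : IntermediateField.adjoin k (rt A) = ⊤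
  g0 : cl τ.g0 ∈ Dat A
  ka : τ.ka ∈ Dat A
  dl : ∀ S, cl (τ.dl S) ∈ Dat A
  lam : ∀ S, Λ S ∈ Dat A
  dvd : V ∣ Vη
  xi : τ.xi ∈ Dat Vη
  tt : ∀ S, cl (τ.TT S) ∈ Dat Vη
  eqd : EQD (FD.map ι A) Vη
  ell : ∀ S G, 0 ≤ G → G ≤ τ.dl S → hh V * cl (τ.TG S G) = pb ι (Λ S) * cl (τ.TG S G) +
    pb ι (cl G) * (τ.nS S • τ.xi + ∑ S', m S S' • cl (τ.TT S'))

theorem dl_nonneg (S : τ.Cl) : 0 ≤ τ.dl S := le_sup_right

theorem TT_nonneg (S : τ.Cl) : 0 ≤ τ.TT S := le_sup_right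

theorem TG_nonneg (S : τ.Cl) {G : DD k F} (hG : 0 ≤ G) : 0 ≤ τ.TG S G :=
  le_inf (τ.TT_nonneg S) fun v => hG (v.comap ι)

theorem TG_le (S : τ.Cl) (G : DD k F) : τ.TG S G ≤ pD ι G := inf_le_right

theorem T0_le_bb {α β : τ.I} {c : Vl k F} {m : FF} :
    m ≤ τ.bb α β c ↔ τ.s α - τ.s β ∈ c.ge m ∧ m ≤ τ.g α c ∧ m ≤ τ.g β c := by
  unfold bb
  split_ifs with h
  · rw [DD.inf_apply, le_min_iff, h, sub_self]
    exact ⟨fun h => ⟨zero_mem _, h⟩, fun h => h.2⟩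
  · rw [DD.inf_apply, DD.inf_apply, le_min_iff, le_min_iff, vD_apply, Vl.mem_ge, sub_eq_zero,
      or_iff_right h]

theorem T0_ge_comap {v : Vl k L} {m : FF} {x : F} : x ∈ (v.comap ι).ge m ↔ ι x ∈ v.ge m := by
  rw [Vl.mem_ge, Vl.mem_ge, Vl.comap_apply, map_eq_zero]

theorem T0_mm_le (S : τ.Cl) {α β : τ.I} (hα : α ∈ S.1) (hβ : β ∈ S.1) : τ.mm S ≤ τ.bb α β :=
  (Finset.inf'_le _ hα).trans (Finset.inf'_le _ hβ)

theorem T0_le_oo (S : τ.Cl) {α β : τ.I} (hα : α ∈ S.1) (hβ : β ∉ S.1) : τ.bb α β ≤ τ.oo S :=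
  (Finset.le_sup' (fun β => τ.bb α β) (Finset.mem_compl.2 hβ)).trans
    (Finset.le_sup' (fun α => S.1ᶜ.sup' S.2.2 fun β => τ.bb α β) hα)

theorem T0_h0_le (α β : τ.I) : τ.h0 ≤ τ.bb α β :=
  (Finset.inf'_le _ (Finset.mem_univ α)).trans (Finset.inf'_le _ (Finset.mem_univ β))

theorem T0_oo_eq (S : τ.Cl) (c : Vl k F) : ∃ α ∈ S.1, ∃ β ∉ S.1, τ.oo S c = τ.bb α β c := by
  rw [oo, DD.sup'_apply]
  obtain ⟨α, hα, h⟩ := Finset.exists_mem_eq_sup' S.2.1
    fun α => (S.1ᶜ.sup' S.2.2 fun β => τ.bb α β) c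
  rw [h, DD.sup'_apply]
  obtain ⟨β, hβ, h'⟩ := Finset.exists_mem_eq_sup' S.2.2 fun β => τ.bb α β c
  exact ⟨α, hα, β, Finset.mem_compl.1 hβ, h'⟩

theorem T0_TT_apply (S : τ.Cl) (v : Vl k L) : τ.TT S v =
    max (S.1.inf' S.2.1 (fun α => τ.lam α v) - S.1ᶜ.sup' S.2.2 fun α => τ.lam α v) 0 := by
  rw [TT, DD.sup_apply, DD.sub_apply, DD.inf'_apply, DD.sup'_apply, DD.zero_apply]

theorem T0_cake (A : Finset τ.I) (hA : A.Nonempty) :
    A.inf' hA τ.lam = τ.l0 + ∑ S : τ.Cl with A ⊆ S.1, τ.TT S := by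
  ext v
  rw [DD.inf'_apply, DD.add_apply, DD.sum_apply, l0, DD.inf'_apply]
  simp only [T0_TT_apply]
  exact T0a_cake (fun α => τ.lam α v) A hA

theorem T0_TG_ne {S : τ.Cl} {G : DD k F} (hG : 0 ≤ G) {v : Vl k L} (h : τ.TG S G v ≠ 0) :
    τ.TT S v ≠ 0 := fun e => h (by
  rw [TG, DD.inf_apply, e]
  exact min_eq_left (hG (v.comap ι)))

theorem bb_comm (α β : τ.I) : τ.bb α β = τ.bb β α := by
  have key : ∀ α β : τ.I, τ.bb α β ≤ τ.bb β α := fun α β c => by
    obtain ⟨h1, h2, h3⟩ := τ.T0_le_bb.1 (le_refl (τ.bb α β c))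
    exact τ.T0_le_bb.2 ⟨by simpa using neg_mem h1, h3, h2⟩
  exact le_antisymm (key α β) (key β α)

theorem bb_self (α : τ.I) : τ.bb α α = τ.g α := by
  rw [bb, if_pos rfl, inf_idem]

theorem bb_ultra (α β γ : τ.I) : τ.bb α β ⊓ τ.bb β γ ≤ τ.bb α γ := by
  intro c
  obtain ⟨h1, h2, -⟩ := τ.T0_le_bb.1 (min_le_left (τ.bb α β c) (τ.bb β γ c))
  obtain ⟨h3, -, h4⟩ := τ.T0_le_bb.1 (min_le_right (τ.bb α β c) (τ.bb β γ c))
  exact τ.T0_le_bb.2 ⟨by simpa using add_mem h1 h3, h2, h4⟩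

/-- The layer cake formula. -/
theorem lam_eq (α : τ.I) : τ.lam α = τ.l0 + ∑ S : τ.Cl with α ∈ S.1, τ.TT S := by
  simpa using τ.T0_cake {α} (Finset.singleton_nonempty α)

theorem inf_lam_eq (S : τ.Cl) :
    S.1.inf' S.2.1 τ.lam = τ.l0 + ∑ S' : τ.Cl with S.1 ⊆ S'.1, τ.TT S' := by
  exact τ.T0_cake S.1 S.2.1

theorem hh_eq : hh V = -pb ι (cl τ.g0) + τ.d • τ.xi - ∑ S, τ.nS S • cl (τ.TT S) := by
  have h1 : hh V = -cl (mD V) := by rw [cl_mD, neg_neg]
  have h2 : ∀ α, cl (τ.n α • (vD k (t - ι (τ.s α)) ⊓ pD ι (τ.g α))) =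
      (τ.n α : ℚ) • cl τ.l0 + ∑ S : τ.Cl, if α ∈ S.1 then (τ.n α : ℚ) • cl (τ.TT S) else 0 :=
    fun α => by
    change cl (τ.n α • τ.lam α) = _
    rw [map_zsmul, lam_eq, map_add, map_sum, Finset.sum_filter, ← Int.cast_smul_eq_zsmul ℚ,
      smul_add, Finset.smul_sum]
    simp only [smul_ite, smul_zero]
  have h3 : ∀ S : τ.Cl, (∑ α, if α ∈ S.1 then (τ.n α : ℚ) • cl (τ.TT S) else 0) =
      τ.nS S • cl (τ.TT S) := fun S => by
    rw [Finset.sum_ite_mem, Finset.univ_inter, nS, Finset.sum_smul]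
  rw [h1, τ.rep, map_add, map_sum, ← pb_cl]
  simp only [h2]
  rw [Finset.sum_add_distrib, Finset.sum_comm, ← Finset.sum_smul]
  simp only [h3]
  rw [xi, d, smul_neg]
  abel

theorem TT_disj {S S' : τ.Cl} (h : ¬ S.1 ⊆ S'.1) (h' : ¬ S'.1 ⊆ S.1) : τ.TT S ⊓ τ.TT S' = 0 := by
  ext v
  rw [DD.inf_apply, T0_TT_apply, T0_TT_apply]
  exact T0a_disj _ _ _ _ _ h h'

variable (ht : Simp ι t)
include ht

theorem T0_le_lam {α : τ.I} {v : Vl k L} {m : FF} :
    m ≤ τ.lam α v ↔ t - ι (τ.s α) ∈ v.ge m ∧ m ≤ τ.g α (v.comap ι) := by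
  rw [lam, DD.inf_apply, le_min_iff, vD_apply, pD_apply, Vl.mem_ge, or_iff_right (ht.sub_ne _)]

theorem T0_ll {α β : τ.I} {v : Vl k L} {m : FF} (h : m ≤ τ.lam α v) (h' : m ≤ τ.lam β v) :
    m ≤ τ.bb α β (v.comap ι) := by
  rw [τ.T0_le_lam ht] at h h'
  refine τ.T0_le_bb.2 ⟨T0_ge_comap.2 ?_, h.2, h'.2⟩
  simpa using sub_mem h'.1 h.1

theorem T0_lb {α β : τ.I} {v : Vl k L} {m : FF} (h : m ≤ v (t - ι (τ.s α)))
    (h' : m ≤ τ.bb α β (v.comap ι)) : m ≤ τ.lam β v := by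
  obtain ⟨h1, -, h2⟩ := τ.T0_le_bb.1 h'
  refine (τ.T0_le_lam ht).2 ⟨?_, h2⟩
  simpa using add_mem (show t - ι (τ.s α) ∈ v.ge m from Or.inr h) (T0_ge_comap.1 h1)

omit ht in
theorem T0_lam_le (α : τ.I) (v : Vl k L) : τ.lam α v ≤ v (t - ι (τ.s α)) :=
  (min_le_left _ _).trans_eq (vD_apply _ _)

theorem T0_inf (A : Finset τ.I) (hA : A.Nonempty) {α : τ.I} (hα : α ∈ A) :
    A.inf' hA τ.lam = vD k (t - ι (τ.s α)) ⊓ pD ι (A.inf' hA fun α => A.inf' hA (τ.bb α)) := by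
  ext v
  refine eq_of_forall_le_iff fun m => ?_
  simp only [DD.inf_apply, DD.inf'_apply, pD_apply, vD_apply, le_min_iff, Finset.le_inf'_iff]
  exact ⟨fun h => ⟨(h α hα).trans (τ.T0_lam_le α v), fun β hβ γ hγ => τ.T0_ll ht (h β hβ) (h γ hγ)⟩,
    fun h β hβ => τ.T0_lb ht h.1 (h.2 α hα β hβ)⟩

theorem lam_inf_lam (α β : τ.I) : τ.lam α ⊓ τ.lam β ≤ pD ι (τ.bb α β) := by
  exact fun v => τ.T0_ll ht (min_le_left _ _) (min_le_right _ _)

theorem lam_inf_bb (α β : τ.I) : τ.lam α ⊓ pD ι (τ.bb α β) ≤ τ.lam β := by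
  exact fun v => τ.T0_lb ht ((min_le_left _ _).trans (τ.T0_lam_le α v)) (min_le_right _ _)

theorem l0_eq (α : τ.I) : τ.l0 = vD k (t - ι (τ.s α)) ⊓ pD ι τ.h0 := by
  exact τ.T0_inf ht _ _ (Finset.mem_univ α)

theorem inf_lam (S : τ.Cl) {α : τ.I} (hα : α ∈ S.1) :
    S.1.inf' S.2.1 τ.lam = vD k (t - ι (τ.s α)) ⊓ pD ι (τ.mm S) := by
  exact τ.T0_inf ht _ _ hα

theorem TT_eq (S : τ.Cl) : τ.TT S = (S.1.inf' S.2.1 τ.lam - pD ι (τ.oo S)) ⊔ 0 := by
  ext v
  rw [TT, DD.sup_apply, DD.sup_apply, DD.sub_apply, DD.sub_apply, DD.zero_apply, pD_apply]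
  have hx : ∀ α ∈ S.1, (S.1.inf' S.2.1 τ.lam) v ≤ τ.lam α v := fun α hα =>
    Finset.inf'_le τ.lam hα v
  have h1 : min ((S.1.inf' S.2.1 τ.lam) v) ((S.1ᶜ.sup' S.2.2 τ.lam) v) =
      min ((S.1.inf' S.2.1 τ.lam) v) (τ.oo S (v.comap ι)) := by
    refine le_antisymm (le_min (min_le_left _ _) ?_) (le_min (min_le_left _ _) ?_)
    · obtain ⟨α, hα⟩ := S.2.1
      obtain ⟨β, hβ, h⟩ := Finset.exists_mem_eq_sup' S.2.2 fun β => τ.lam β v
      rw [DD.sup'_apply, h]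
      exact (τ.T0_ll ht ((min_le_left _ _).trans (hx α hα)) (min_le_right _ _)).trans
        (τ.T0_le_oo S hα (Finset.mem_compl.1 hβ) _)
    · obtain ⟨α, hα, β, hβ, h⟩ := τ.T0_oo_eq S (v.comap ι)
      rw [h]
      exact (τ.T0_lb ht (((min_le_left _ _).trans (hx α hα)).trans (τ.T0_lam_le α v))
        (min_le_right _ _)).trans (Finset.le_sup' τ.lam (Finset.mem_compl.2 hβ) v)
  have h2 : ∀ x y : FF, max (x - y) 0 = x - min x y := fun x y => by
    rw [← max_sub_sub_left, sub_self, max_comm]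
  rw [h2, h2, h1]

theorem T0_TT (S : τ.Cl) {α : τ.I} (hα : α ∈ S.1) (v : Vl k L) : τ.TT S v =
    max (min (v (t - ι (τ.s α))) (τ.mm S (v.comap ι)) - τ.oo S (v.comap ι)) 0 := by
  rw [τ.TT_eq ht, τ.inf_lam ht S hα, DD.sup_apply, DD.sub_apply, DD.inf_apply, vD_apply, pD_apply,
    pD_apply, DD.zero_apply]

theorem T0_oo_lt {S : τ.Cl} {α : τ.I} (hα : α ∈ S.1) {v : Vl k L} (hv : τ.TT S v ≠ 0) :
    τ.oo S (v.comap ι) < min (v (t - ι (τ.s α))) (τ.mm S (v.comap ι)) := by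
  rw [τ.T0_TT ht S hα] at hv
  exact not_le.1 fun h => hv (max_eq_right (sub_nonpos.2 h))

omit ht in
theorem T0_dl (S : τ.Cl) (c : Vl k F) : τ.dl S c = max (τ.mm S c - τ.oo S c) 0 := rfl

theorem TT_le (S : τ.Cl) : τ.TT S ≤ pD ι (τ.dl S) := by
  intro v
  obtain ⟨α, hα⟩ := S.2.1
  change τ.TT S v ≤ τ.dl S (v.comap ι)
  rw [τ.T0_TT ht S hα, T0_dl]
  exact max_le_max (sub_le_sub_right (min_le_right _ _) _) le_rfl

theorem TG_dl (S : τ.Cl) : τ.TG S (τ.dl S) = τ.TT S := inf_eq_left.2 (τ.TT_le ht S)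

theorem TT_full {S S' : τ.Cl} (h : S.1 ⊂ S'.1) {v : Vl k L} (hv : τ.TT S v ≠ 0) :
    τ.TT S' v = pD ι (τ.dl S') v := by
  obtain ⟨α, hα⟩ := S.2.1
  obtain ⟨β, hβ, hβ'⟩ := Finset.exists_of_ssubset h
  rw [τ.T0_TT ht S' (h.1 hα), pD_apply, T0_dl, min_eq_right]
  exact ((τ.T0_mm_le S' (h.1 hα) hβ _).trans (τ.T0_le_oo S hα hβ' _)).trans
    ((τ.T0_oo_lt ht hα hv).le.trans (min_le_left _ _))

theorem xi_xi : τ.xi * τ.xi = pb ι τ.ka * τ.xi := by
  obtain ⟨α⟩ := τ.ne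
  have h := cl_supp (D := vD k (t - ι (τ.s α)) - τ.l0) (D' := pD ι τ.h0 - τ.l0) fun v => by
    rw [τ.l0_eq ht α, DD.sub_apply, DD.sub_apply, DD.inf_apply, sub_eq_zero, sub_eq_zero]
    exact (min_choice _ _).imp Eq.symm Eq.symm
  rw [map_sub, map_sub, cl_vD, ← pb_cl] at h
  rw [xi, ka, map_neg]
  linear_combination h

theorem xi_TG (S : τ.Cl) {G : DD k F} (hG : 0 ≤ G) :
    τ.xi * cl (τ.TG S G) = pb ι τ.ka * cl (τ.TG S G) := by
  obtain ⟨α, hα⟩ := S.2.1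
  obtain ⟨β, hβ⟩ := S.2.2
  have h := cl_congr (E := τ.TG S G) (D := τ.l0) (D' := pD ι τ.h0) fun v hv => by
    rw [τ.l0_eq ht α, DD.inf_apply, vD_apply, pD_apply, min_eq_right]
    exact ((τ.T0_h0_le α β _).trans (τ.T0_le_oo S hα (Finset.mem_compl.1 hβ) _)).trans
      ((τ.T0_oo_lt ht hα (τ.T0_TG_ne hG hv)).le.trans (min_le_left _ _))
  rw [← pb_cl] at h
  rw [xi, ka, map_neg]
  linear_combination -h

theorem TG_TG_disj {S S' : τ.Cl} (h : ¬ S.1 ⊆ S'.1) (h' : ¬ S'.1 ⊆ S.1) {G G' : DD k F}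
    (hG : 0 ≤ G) (hG' : 0 ≤ G') : cl (τ.TG S G) * cl (τ.TG S' G') = 0 := by
  refine cl_disj (le_antisymm ?_ (le_inf (τ.TG_nonneg S hG) (τ.TG_nonneg S' hG')))
  rw [← τ.TT_disj h h']
  exact inf_le_inf inf_le_left inf_le_left

theorem TG_TG_lt {S S' : τ.Cl} (h : S'.1 ⊂ S.1) {G G' : DD k F} (hG : G ≤ τ.dl S) (hG' : 0 ≤ G') :
    cl (τ.TG S G) * cl (τ.TG S' G') = pb ι (cl G) * cl (τ.TG S' G') := by
  rw [pb_cl, mul_comm, mul_comm (cl (pD ι G))]
  refine cl_congr fun v hv => ?_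
  rw [TG, DD.inf_apply, τ.TT_full ht h (τ.T0_TG_ne hG' hv)]
  exact min_eq_right (hG (v.comap ι))

theorem TT_TG (S : τ.Cl) {G : DD k F} (hG : 0 ≤ G) (hG' : G ≤ τ.dl S) :
    cl (τ.TT S) * cl (τ.TG S G) = -pb ι (cl (τ.oo S)) * cl (τ.TG S G) +
      pb ι (cl G) * (-τ.xi + ∑ S' : τ.Cl with S.1 ⊆ S'.1, cl (τ.TT S')) := by
  obtain ⟨α, hα⟩ := S.2.1
  have h1 := cl_congr (E := τ.TG S G) (D := τ.TT S)
    (D' := S.1.inf' S.2.1 τ.lam - pD ι (τ.oo S)) fun v hv => by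
    have h := τ.T0_oo_lt ht hα (τ.T0_TG_ne hG hv)
    rw [τ.T0_TT ht S hα, max_eq_left (sub_nonneg.2 h.le), τ.inf_lam ht S hα, DD.sub_apply,
      DD.inf_apply, vD_apply, pD_apply, pD_apply]
  have h2 := cl_supp (D := τ.TG S G - pD ι G)
    (D' := S.1.inf' S.2.1 τ.lam - vD k (t - ι (τ.s α))) fun v => by
    rw [τ.inf_lam ht S hα, DD.sub_apply, DD.sub_apply, DD.inf_apply, sub_eq_zero, sub_eq_zero,
      vD_apply, TG, DD.inf_apply, τ.T0_TT ht S hα, pD_apply, pD_apply]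
    rcases le_total (v (t - ι (τ.s α))) (τ.mm S (v.comap ι)) with h | h
    · exact Or.inr (min_eq_left h)
    · rw [min_eq_right h]
      exact Or.inl (min_eq_right (hG' (v.comap ι)))
  rw [map_sub, map_sub, cl_vD, ← pb_cl] at h2
  rw [map_sub, ← pb_cl] at h1
  rw [inf_lam_eq, map_add, map_sum] at h1 h2
  rw [xi]
  linear_combination h1 + h2

omit ht in
theorem T0_sys (y : L) (h : DD k F) : ∃ (W : FD k L) (U : FD k F) (n : ℕ), 0 < n ∧
    hh W = hh (FD.map ι U) - (n : ℚ) • cl (vD k y ⊓ pD ι h) := by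
  obtain ⟨n, U, U', hn, e⟩ := h.rep
  refine ⟨(FD.pr y ^ n * FD.map ι U').sup (FD.map ι U), U', n, hn, ?_⟩
  have h1 : mD ((FD.pr y ^ n * FD.map ι U').sup (FD.map ι U)) =
      (n : ℚ) • (vD k y ⊓ pD ι h) + mD (FD.map ι U') := by
    ext v
    have h2 : (n • h) (v.comap ι) = (mD U - mD U') (v.comap ι) := by rw [e]
    rw [DD.nsmul_apply, DD.sub_apply] at h2
    rw [mD_sup, mD_mul, mD_pow, ← pD_mD, ← pD_mD]
    simp only [DD.inf_apply, DD.add_apply, DD.nsmul_apply, DD.smul_apply, pD_apply, vD,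
      Rat.cast_natCast]
    rw [mul_min_of_nonneg _ _ (Nat.cast_nonneg n), ← min_add_add_right, h2, sub_add_cancel]
  have h3 := congrArg cl h1
  rw [map_add, map_smul, cl_mD, cl_mD] at h3
  linear_combination -h3

/-- The products of the classes of the sections and of the tails. -/
theorem T0_prod {A : FD k F} (h1 : τ.ka ∈ Dat A) (h2 : ∀ S, cl (τ.dl S) ∈ Dat A)
    (h3 : ∀ S, cl (τ.oo S) ∈ Dat A) {x y : N k L}
    (hx : x ∈ Submodule.span ℚ (insert τ.xi (Set.range fun S => cl (τ.TT S))))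
    (hy : y ∈ Submodule.span ℚ (insert τ.xi (Set.range fun S => cl (τ.TT S)))) :
    x * y ∈ Ideal.span (Dat (FD.map ι A) : Set (N k L)) := by
  have b : ∀ {g : N k F}, g ∈ Dat A → ∀ z, pb ι g * z ∈
      Ideal.span (Dat (FD.map ι A) : Set (N k L)) := fun hg z =>
    Ideal.mul_mem_right _ _ (Ideal.subset_span (dat_pb ι hg))
  have c1 : ∀ S, τ.xi * cl (τ.TT S) ∈ Ideal.span (Dat (FD.map ι A) : Set (N k L)) := fun S => by
    rw [← τ.TG_dl ht, τ.xi_TG ht S (τ.dl_nonneg S)]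
    exact b h1 _
  have c2 : ∀ S S' : τ.Cl, S'.1 ⊂ S.1 →
      cl (τ.TT S) * cl (τ.TT S') ∈ Ideal.span (Dat (FD.map ι A) : Set (N k L)) := fun S S' h => by
    rw [← τ.TG_dl ht S, ← τ.TG_dl ht S', τ.TG_TG_lt ht h le_rfl (τ.dl_nonneg S')]
    exact b (h2 S) _
  have c3 : ∀ S S' : τ.Cl,
      cl (τ.TT S) * cl (τ.TT S') ∈ Ideal.span (Dat (FD.map ι A) : Set (N k L)) := fun S S' => by
    by_cases e : S = S'
    · subst e
      have h := τ.TT_TG ht S (τ.dl_nonneg S) le_rfl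
      rw [τ.TG_dl ht] at h
      rw [h, neg_mul]
      exact add_mem (neg_mem (b (h3 S) _)) (b (h2 S) _)
    have e' : S.1 ≠ S'.1 := fun h => e (Subtype.ext h)
    by_cases a : S.1 ⊆ S'.1
    · rw [mul_comm]
      exact c2 _ _ (Finset.ssubset_iff_subset_ne.2 ⟨a, e'⟩)
    by_cases a' : S'.1 ⊆ S.1
    · exact c2 _ _ (Finset.ssubset_iff_subset_ne.2 ⟨a', e'.symm⟩)
    rw [← τ.TG_dl ht S, ← τ.TG_dl ht S', τ.TG_TG_disj ht a a' (τ.dl_nonneg S) (τ.dl_nonneg S')]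
    exact zero_mem _
  have sm : ∀ (q : ℚ) (z : N k L), z ∈ Ideal.span (Dat (FD.map ι A) : Set (N k L)) →
      q • z ∈ Ideal.span (Dat (FD.map ι A) : Set (N k L)) := fun q z hz => by
    rw [Algebra.smul_def]
    exact Ideal.mul_mem_left _ _ hz
  induction hx, hy using Submodule.span_induction₂ with
  | mem_mem x y hx hy =>
    rcases hx with rfl | ⟨S, rfl⟩ <;> rcases hy with rfl | ⟨S', rfl⟩
    · rw [τ.xi_xi ht]
      exact b h1 _
    · exact c1 _
    · rw [mul_comm]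
      exact c1 _
    · exact c3 _ _
  | zero_left => rw [zero_mul]; exact zero_mem _
  | zero_right => rw [mul_zero]; exact zero_mem _
  | add_left _ _ _ _ _ _ h h' => rw [add_mul]; exact add_mem h h'
  | add_right _ _ _ _ _ _ h h' => rw [mul_add]; exact add_mem h h'
  | smul_left q _ _ _ _ h => rw [smul_mul_assoc]; exact sm _ _ h
  | smul_right q _ _ _ _ h => rw [mul_smul_comm]; exact sm _ _ h

/-- The coefficient of the polarisation along a tail. -/
noncomputable def T0_La (S : τ.Cl) : DD k F := -τ.g0 - τ.d • τ.h0 + τ.nS S • τ.oo S -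
  ∑ S' : τ.Cl, if S.1 ⊂ S'.1 then τ.nS S' • τ.dl S' else 0

/-- The coefficients of the other tails. -/
def T0_m (S S' : τ.Cl) : ℚ :=
  -((if S'.1 ⊂ S.1 then τ.nS S' else 0) + if S.1 ⊆ S'.1 then τ.nS S else 0)

theorem T0_ell (S : τ.Cl) (G : DD k F) (hG : 0 ≤ G) (hG' : G ≤ τ.dl S) :
    hh V * cl (τ.TG S G) = pb ι (cl (τ.T0_La S)) * cl (τ.TG S G) +
      pb ι (cl G) * (τ.nS S • τ.xi + ∑ S', τ.T0_m S S' • cl (τ.TT S')) := by
  have h1 : ∀ S' : τ.Cl, τ.nS S' • cl (τ.TT S') * cl (τ.TG S G) =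
      pb ι (cl (if S.1 ⊂ S'.1 then τ.nS S' • τ.dl S' else 0)) * cl (τ.TG S G) +
      pb ι (cl G) * ((if S'.1 ⊂ S.1 then τ.nS S' else 0) • cl (τ.TT S')) +
      if S' = S then τ.nS S • (cl (τ.TT S) * cl (τ.TG S G)) else 0 := fun S' => by
    by_cases e : S' = S
    · subst e
      simp
    rw [if_neg e, add_zero]
    have e' : S.1 ≠ S'.1 := fun h => e (Subtype.ext h).symm
    by_cases a : S.1 ⊆ S'.1
    · have a1 : S.1 ⊂ S'.1 := Finset.ssubset_iff_subset_ne.2 ⟨a, e'⟩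
      rw [if_pos a1, if_neg (fun h => a1.2 h.1), zero_smul, mul_zero, add_zero, map_smul, map_smul,
        smul_mul_assoc, smul_mul_assoc, ← τ.TG_TG_lt ht a1 le_rfl hG, τ.TG_dl ht]
    rw [if_neg (fun h => a h.1), map_zero, map_zero, zero_mul, zero_add]
    by_cases a' : S'.1 ⊆ S.1
    · have a1 : S'.1 ⊂ S.1 := Finset.ssubset_iff_subset_ne.2 ⟨a', e'.symm⟩
      rw [if_pos a1, smul_mul_assoc, mul_smul_comm, ← τ.TG_dl ht S',
        ← τ.TG_TG_lt ht a1 hG' (τ.dl_nonneg S'), mul_comm]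
    rw [if_neg (fun h => a' h.1), zero_smul, mul_zero, smul_mul_assoc, ← τ.TG_dl ht S',
      τ.TG_TG_disj ht a' a (τ.dl_nonneg S') hG, smul_zero]
  have h2 : ∑ S', τ.T0_m S S' • cl (τ.TT S') =
      -(∑ S' : τ.Cl, (if S'.1 ⊂ S.1 then τ.nS S' else 0) • cl (τ.TT S')) -
        τ.nS S • ∑ S' : τ.Cl with S.1 ⊆ S'.1, cl (τ.TT S') := by
    rw [Finset.sum_filter, Finset.smul_sum, ← Finset.sum_neg_distrib, ← Finset.sum_sub_distrib]
    refine Finset.sum_congr rfl fun S' _ => ?_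
    rw [T0_m, neg_smul, add_smul, neg_add']
    congr 1
    split_ifs <;> simp
  rw [τ.hh_eq, sub_mul, add_mul, Finset.sum_mul, smul_mul_assoc, τ.xi_TG ht S hG, h2]
  simp only [h1]
  rw [Finset.sum_add_distrib, Finset.sum_add_distrib, ← Finset.sum_mul, ← Finset.mul_sum,
    Finset.sum_ite_eq', if_pos (Finset.mem_univ _), τ.TT_TG ht S hG hG', ← map_sum, ← map_sum,
    T0_La, ka]
  simp only [map_sub, map_add, map_neg, map_smul]
  simp only [Algebra.smul_def]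
  ring

theorem exists_mod [Fg k F] : ∃ A Vη Λ m, τ.Mod A Vη Λ m := by
  classical
  obtain ⟨α₀⟩ := τ.ne
  have hα : ∀ S : τ.Cl, S.2.1.choose ∈ S.1 := fun S => S.2.1.choose_spec
  let y : Option (τ.Cl ⊕ τ.Cl) → L := fun j =>
    t - ι (τ.s (j.elim α₀ (Sum.elim (fun S => S.2.1.choose) fun S => S.2.1.choose)))
  let h : Option (τ.Cl ⊕ τ.Cl) → DD k F := fun j =>
    j.elim τ.h0 (Sum.elim τ.mm fun S => τ.mm S ⊓ τ.oo S)
  let D : Option (τ.Cl ⊕ τ.Cl) → DD k L := fun j => vD k (y j) ⊓ pD ι (h j)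
  have D0 : D none = τ.l0 := (τ.l0_eq ht α₀).symm
  have D1 : ∀ S, D (some (Sum.inl S)) = S.1.inf' S.2.1 τ.lam := fun S =>
    (τ.inf_lam ht S (hα S)).symm
  have D2 : ∀ S, D (some (Sum.inr S)) = D (some (Sum.inl S)) - τ.TT S := fun S => by
    ext v
    rw [DD.sub_apply, τ.T0_TT ht S (hα S)]
    simp only [D, y, h, Option.elim, Sum.elim_inl, Sum.elim_inr, DD.inf_apply, vD_apply, pD_apply]
    rw [← min_assoc, eq_sub_iff_add_eq, ← sub_self (min _ (τ.mm S _)), max_sub_sub_left,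
      min_comm (τ.oo S _), add_sub_cancel]
  choose W U n hn hW using fun j => T0_sys (ι := ι) (y j) (h j)
  obtain ⟨G, hG⟩ := exists_gen_fd (k := k) (L := F)
  obtain ⟨A₀, hA⟩ := exists_dat_fin (k := k) (L := F)
    (x := fun j : (Bool ⊕ Option (τ.Cl ⊕ τ.Cl)) ⊕ (τ.Cl ⊕ τ.Cl ⊕ τ.Cl) =>
      cl (j.elim (Sum.elim (fun b => bif b then τ.g0 else τ.h0) fun j => mD (U j))
        (Sum.elim τ.dl (Sum.elim τ.oo τ.T0_La)))) fun j => cl_mem _
  replace hA := fun j => Dat_mono (dvd_mul_right A₀ G) (hA j)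
  set A := A₀ * G with hAdef
  have a1 : cl τ.g0 ∈ Dat A := hA (.inl (.inl true))
  have a2 : τ.ka ∈ Dat A := neg_mem (hA (.inl (.inl false)))
  have a3 : ∀ j, hh (FD.map ι (U j)) ∈ Dat (FD.map ι A) := fun j => by
    have := neg_mem (hA (.inl (.inr j)))
    simp only [Sum.elim_inl, Sum.elim_inr, cl_mD, neg_neg] at this
    exact pb_hh ι (U j) ▸ dat_pb ι this
  have a4 : ∀ S, cl (τ.dl S) ∈ Dat A := fun S => hA (.inr (.inl S))
  have a5 : ∀ S, cl (τ.oo S) ∈ Dat A := fun S => hA (.inr (.inr (.inl S)))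
  have a6 : ∀ S, cl (τ.T0_La S) ∈ Dat A := fun S => hA (.inr (.inr (.inr S)))
  have b1 : ∀ j, cl (D j) ∈ Dat (V * (∏ j, W j) * FD.map ι A) := fun j => by
    have h1 : hh (W j) ∈ Dat (V * (∏ j, W j) * FD.map ι A) := hh_dat
      (((Finset.dvd_prod_of_mem W (Finset.mem_univ j)).mul_left V).mul_right _)
    have h2 := sub_mem (Dat_mono (dvd_mul_left _ (V * ∏ j, W j)) (a3 j)) h1
    rw [hW, sub_sub_cancel] at h2
    exact (Submodule.smul_mem_iff _ (Nat.cast_ne_zero.2 (hn j).ne')).1 h2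
  set M := Submodule.span ℚ (insert τ.xi (Set.range fun S => cl (τ.TT S))) with hM
  have m1 : τ.xi ∈ M := Submodule.subset_span (Set.mem_insert _ _)
  have m2 : ∀ S, cl (τ.TT S) ∈ M := fun S =>
    Submodule.subset_span (Set.mem_insert_of_mem _ ⟨S, rfl⟩)
  have m3 : cl τ.l0 ∈ M := by simpa [xi] using neg_mem m1
  have m4 : ∀ S, cl (D (some (Sum.inl S))) ∈ M := fun S => by
    rw [D1, inf_lam_eq, map_add, map_sum]
    exact add_mem m3 (sum_mem fun S _ => m2 S)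
  have m5 : ∀ j, cl (D j) ∈ M := by
    rintro (_ | S | S)
    · exact D0 ▸ m3
    · exact m4 S
    · rw [D2, map_sub]
      exact sub_mem (m4 S) (m2 S)
  refine ⟨A, V * (∏ j, W j) * FD.map ι A, fun S => cl (τ.T0_La S), τ.T0_m, ?_, a1, a2, a4, a6,
    (dvd_mul_right _ _).mul_right _, neg_mem (D0 ▸ b1 none), fun S => ?_, ?_, τ.T0_ell ht⟩
  · exact top_le_iff.1 (hG ▸ IntermediateField.adjoin.mono _ _ _ (rt_dvd (dvd_mul_left G A₀)))
  · have := sub_mem (b1 (some (.inl S))) (b1 (some (.inr S)))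
    rwa [D2, map_sub, sub_sub_cancel] at this
  · have h1 : hh (V * (∏ j, W j) * FD.map ι A) ∈ Dat (FD.map ι A) ⊔ M := by
      rw [hh_mul, hh_mul, hh_prod, τ.hh_eq]
      refine add_mem (add_mem (sub_mem (add_mem (neg_mem ?_) ?_) ?_) (sum_mem fun j _ => ?_)) ?_
      · exact Submodule.mem_sup_left (dat_pb ι a1)
      · exact Submodule.mem_sup_right (M.smul_mem _ m1)
      · exact Submodule.mem_sup_right (sum_mem fun S _ => M.smul_mem _ (m2 S))
      · rw [hW]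
        exact sub_mem (Submodule.mem_sup_left (a3 j))
          (Submodule.mem_sup_right (M.smul_mem _ (m5 j)))
      · exact Submodule.mem_sup_left (hh_dat dvd_rfl)
    obtain ⟨b, hb, x, hx, e⟩ := Submodule.mem_sup.1 h1
    rw [EQD, ← e, show (b + x) * (b + x) = b * (b + 2 * x) + x * x by ring]
    exact add_mem (Ideal.mul_mem_right _ _ (Ideal.subset_span hb)) (τ.T0_prod ht a2 a4 a5 hx hx)

omit ht in
theorem T0_unif (c : Dv k F) (β : τ.I) : ∃ ϖ : F, ϖ ≠ 0 ∧ c ϖ = τ.g β c.toVl := by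
  obtain ⟨z, hz⟩ := τ.int β c
  refine ⟨c.π ^ z, zpow_ne_zero _ c.π_ne, ?_⟩
  rw [V4a_v_pi, ← c.vq_cast, hz, Rat.cast_intCast]

theorem exists_vx [Fg k F] (c : Dv k F) (β : τ.I) : ∃ ν, τ.Vx c ν β := by
  obtain ⟨ϖ, h0, h1⟩ := τ.T0_unif c β
  obtain ⟨ν, hν⟩ := (ht.affine (τ.s β) h0).gauss c
  exact ⟨ν, ϖ, h0, h1, hν⟩

theorem Vx.unique {c : Dv k F} {ν ν' : Dv k L} {β : τ.I} (h : τ.Vx c ν β) (h' : τ.Vx c ν' β) :
    ν = ν' := by
  obtain ⟨ϖ, h0, h1, h2⟩ := h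
  obtain ⟨ϖ', h0', h1', h2'⟩ := h'
  have h3 := h2.unit (div_ne_zero h0' h0) (by rw [c.toVl.div h0' h0, h1, h1', sub_self])
  have h4 : ι ϖ ≠ 0 := (map_ne_zero ι).2 h0
  rw [map_div₀, div_div_div_cancel_right₀ h4] at h3
  exact Gs.unique (ht.affine _ h0') h3 h2'

omit ht in
theorem T0_comap {c : Dv k F} {ν : Dv k L} {β : τ.I} (h : τ.Vx c ν β) :
    ν.toVl.comap ι = c.toVl := by
  obtain ⟨ϖ, -, -, h2⟩ := h
  exact Vl.ext' h2.val

theorem T0_vx_a {c : Dv k F} {ν : Dv k L} {β : τ.I} (h : τ.Vx c ν β) :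
    ν (t - ι (τ.s β)) = τ.g β c.toVl := by
  obtain ⟨ϖ, h0, h1, h2⟩ := h
  have h3 := h2.zero
  rw [ν.toVl.div (ht.sub_ne _) ((map_ne_zero ι).2 h0), h2.val, h1] at h3
  exact sub_eq_zero.1 h3

theorem T0_vx_lam {c : Dv k F} {ν : Dv k L} {β : τ.I} (h : τ.Vx c ν β) (α : τ.I) :
    τ.lam α ν.toVl = τ.bb α β c.toVl := by
  rw [lam, DD.inf_apply, vD_apply, pD_apply, τ.T0_comap h, bb]
  split_ifs with e
  · rw [e, τ.T0_vx_a ht h, DD.inf_apply, min_comm]
  · obtain ⟨ϖ, h0, h1, h2⟩ := h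
    have h3 := h2.lin h0 (sub_ne_zero.2 (Ne.symm e))
    rw [mul_div_cancel₀ _ ((map_ne_zero ι).2 h0), map_sub, sub_add_sub_cancel, h1,
      ← c.toVl.neg, neg_sub] at h3
    rw [h3, DD.inf_apply, DD.inf_apply, vD_apply, min_comm (τ.g β _), min_assoc, min_comm (τ.g β _)]

theorem T0_vx_TT {c : Dv k F} {ν : Dv k L} {β : τ.I} (h : τ.Vx c ν β) (S : τ.Cl) :
    τ.TT S ν.toVl = if β ∈ S.1 then τ.dl S c.toVl else 0 := by
  split_ifs with e
  · rw [τ.T0_TT ht S e, τ.T0_comap h, τ.T0_vx_a ht h, T0_dl, min_eq_right]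
    exact τ.bb_self β ▸ τ.T0_mm_le S e e _
  · obtain ⟨α, hα⟩ := S.2.1
    rw [τ.TT_eq ht, DD.sup_apply, DD.sub_apply, pD_apply, τ.T0_comap h]
    refine max_eq_right (sub_nonpos.2 ?_)
    exact ((Finset.inf'_le τ.lam hα _).trans_eq (τ.T0_vx_lam ht h α)).trans (τ.T0_le_oo S hα e _)

theorem Vx.vq_lam {c : Dv k F} {ν : Dv k L} {β : τ.I} (h : τ.Vx c ν β) (α : τ.I) :
    ν.vq (τ.lam α) = c.vq (τ.bb α β) := by
  have h1 := τ.T0_vx_lam ht h α
  rw [← ν.vq_cast, ← c.vq_cast] at h1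
  exact_mod_cast h1

theorem Vx.vq_TT {c : Dv k F} {ν : Dv k L} {β : τ.I} (h : τ.Vx c ν β) (S : τ.Cl) :
    ν.vq (τ.TT S) = if β ∈ S.1 then c.vq (τ.dl S) else 0 := by
  have h1 := τ.T0_vx_TT ht h S
  rw [← ν.vq_cast, ← c.vq_cast] at h1
  split_ifs at h1 ⊢ <;> exact_mod_cast h1

omit ht in
/-- The diagonal has no component at a pair of vertices. -/
theorem Dh_vx {j₁ j₂ : L →ₐ[k] W} (h : Dbl ι t ι t j₁ j₂) {c : Dv k F} {ν₁ ν₂ : Dv k L}
    {β₁ β₂ : τ.I} (h₁ : τ.Vx c ν₁ β₁) (h₂ : τ.Vx c ν₂ β₂) {ϖ : F} (h0 : ϖ ≠ 0)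
    (hϖ : c ϖ = τ.g β₂ c.toVl) {ν : Dv k W} (g₁ : Gs j₁ (j₂ ((t - ι (τ.s β₂)) / ι ϖ)) ν₁ ν)
    (g₂ : ∀ f, ν (j₂ f) = ν₂ f) : ν.vq (τ.Dh j₁ j₂) = 0 := by
  have ht := h.one
  have c1 : ν.toVl.comap j₁ = ν₁.toVl := Vl.ext' g₁.val
  have c2 : ν.toVl.comap j₂ = ν₂.toVl := Vl.ext' g₂
  have hc : ∀ f, j₂ (ι f) = j₁ (ι f) := fun f => (DFunLike.congr_fun h.comm f).symm
  have hι : ι ϖ ≠ 0 := (map_ne_zero ι).2 h0
  have e1 := g₁.lin (neg_ne_zero.2 hι) (ht.sub_ne (τ.s β₂))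
  rw [map_neg, map_div₀, map_sub, map_sub, hc, hc, neg_mul,
    mul_div_cancel₀ _ ((map_ne_zero j₁).2 hι), ν₁.toVl.neg, neg_add_eq_sub,
    sub_sub_sub_cancel_right] at e1
  have e2 : ν₁ (ι ϖ) = τ.g β₂ c.toVl := by
    rw [← hϖ, ← τ.T0_comap h₁, Vl.comap_apply]
  have e3 : τ.lam β₂ ν₁.toVl = ν (j₁ t - j₂ t) := by
    rw [e1, e2, lam, DD.inf_apply, vD_apply, pD_apply, τ.T0_comap h₁, min_comm]
  have e4 : τ.l0 ν₂.toVl = τ.h0 c.toVl := by
    rw [τ.l0_eq ht β₂, DD.inf_apply, vD_apply, pD_apply, τ.T0_comap h₂, τ.T0_vx_a ht h₂,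
      min_eq_right]
    exact τ.bb_self β₂ ▸ τ.T0_h0_le β₂ β₂ _
  have e5 : ∀ S, min (τ.TT S ν₁.toVl) (τ.TT S ν₂.toVl) =
      if β₂ ∈ S.1 then τ.TT S ν₁.toVl else 0 := fun S => by
    rw [τ.T0_vx_TT ht h₂]
    split_ifs
    · exact min_eq_left ((τ.TT_le ht S _).trans_eq (by rw [pD_apply, τ.T0_comap h₁]))
    · exact min_eq_right (τ.TT_nonneg S _)
  have e6 : τ.Dh j₁ j₂ ν.toVl = 0 := by
    simp only [Dh, DD.sub_apply, DD.add_apply, DD.sum_apply, DD.inf_apply, vD_apply, pD_apply,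
      Vl.comap_comp, c1, c2, τ.T0_comap h₁, e4, e5]
    rw [← e3, lam_eq, DD.add_apply, DD.sum_apply, Finset.sum_filter]
    ring
  rw [← ν.vq_cast] at e6
  exact_mod_cast e6

omit ht in
theorem T0_ult (v : Vl k W) {x y : W} (hx : x ≠ 0) (hy : y ≠ 0) (h : x - y ≠ 0) (h0 : v x = 0) :
    v (x - y) - min (v y) 0 = max (v (x - y)) 0 := by
  rw [sub_eq_add_neg x] at h ⊢
  rcases lt_or_ge (v y) 0 with a | a
  · rw [add_comm, (v.add_eq (neg_ne_zero.2 hy) (Or.inr (by rwa [v.neg, h0]))).2, v.neg,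
      min_eq_left a.le, max_eq_right a.le, sub_self]
  · have := v.add x (-y) hx (neg_ne_zero.2 hy) h
    rw [v.neg, h0, min_eq_left a] at this
    rw [min_eq_right a, max_eq_left this, sub_zero]

omit ht in
theorem T0_triv {v : Vl k L} (h : ∀ f, v f = 0) (D : DD k L) : D v = 0 := by
  simpa using V4a_scale (v := v) (w := v) (e := 0) (fun f => by simpa using h f) D

omit ht in
/-- The horizontal part of the diagonal. -/
theorem Dh_tv {j₁ j₂ : L →ₐ[k] W} (h : Dbl ι t ι t j₁ j₂) {ν : Dv k W}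
    (hν : Tv j₁ ν.toVl ∨ Tv j₂ ν.toVl) :
    ν.vq (τ.Dh j₁ j₂) = max (ν.z (j₁ t - j₂ t)) 0 := by
  have ht := h.one
  obtain ⟨α⟩ := τ.ne
  have hc : ∀ f, j₂ (ι f) = j₁ (ι f) := fun f => (DFunLike.congr_fun h.comm f).symm
  have n1 : j₁ t - j₁ (ι (τ.s α)) ≠ 0 := by
    rw [← map_sub]; exact (map_ne_zero j₁).2 (ht.sub_ne _)
  have n2 : j₂ t - j₁ (ι (τ.s α)) ≠ 0 := by
    rw [← hc, ← map_sub]; exact (map_ne_zero j₂).2 (ht.sub_ne _)
  have n3 : j₁ t - j₂ t ≠ 0 := h.s₂.sub_ne t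
  have z : ∀ f, ν (j₁ (ι f)) = 0 := fun f => hν.elim (fun e => e _) fun e => hc f ▸ e _
  have z1 : ∀ D : DD k F, D ((ν.toVl.comap j₁).comap ι) = 0 := T0_triv z
  have z2 : ∀ D : DD k F, D ((ν.toVl.comap j₂).comap ι) = 0 := T0_triv fun f => by
    rw [Vl.comap_apply, Vl.comap_apply, hc, z]
  have key : τ.Dh j₁ j₂ ν.toVl = max (ν (j₁ t - j₂ t)) 0 := by
    simp only [Dh, DD.sub_apply, DD.add_apply, DD.sum_apply, DD.inf_apply, vD_apply, pD_apply,
      Vl.comap_comp, z1]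
    rcases hν with e | e
    · have e1 : ∀ D : DD k L, D (ν.toVl.comap j₁) = 0 := T0_triv e
      have e2 := T0_ult ν.toVl n1 n2 (by rwa [sub_sub_sub_cancel_right]) (by rw [← map_sub, e])
      rw [sub_sub_sub_cancel_right] at e2
      rw [Finset.sum_eq_zero fun S _ => by rw [e1]; exact min_eq_left (τ.TT_nonneg S _), e1,
        τ.l0_eq ht α, DD.inf_apply, vD_apply, pD_apply, z2, Vl.comap_apply, map_sub, hc, ← e2]
      ring
    · have e1 : ∀ D : DD k L, D (ν.toVl.comap j₂) = 0 := T0_triv e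
      have e2 := T0_ult ν.toVl n2 n1 (by rw [sub_sub_sub_cancel_right]; exact h.s₁.sub_ne t)
        (by rw [← hc, ← map_sub, e])
      rw [sub_sub_sub_cancel_right, ← ν.toVl.neg, neg_sub] at e2
      rw [Finset.sum_eq_zero fun S _ => by rw [e1]; exact min_eq_right (τ.TT_nonneg S _), e1,
        τ.l0_eq ht α, DD.inf_apply, vD_apply, pD_apply, z1, Vl.comap_apply, map_sub, ← e2]
      ring
  rw [← ν.vq_cast, ← ν.z_cast] at key
  exact_mod_cast key

end Tree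

end Pool.Agent.Work.MP_ffcd14_ag.Uni
end

-- merged part: Pool.Agent.Work.MP_ffcd14_ag.Uni.T2a
section
/-! # Lower envelopes of piecewise linear functions and trees -/

namespace Pool.Agent.Work.MP_ffcd14_ag.Uni

universe u

variable {k F L : Type u} [Field k] [Field F] [Field L] [Algebra k F] [Algebra k L]

/-- The values at the divisorial valuations are multiples of `q`. -/
def T2I (q : ℕ) (D : DD k F) : Prop := ∀ c : Dv k F, ∃ z : ℤ, D c.toVl = q * z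

namespace T2I

variable {q : ℕ} {D D' : DD k F}

theorem zero : T2I q (0 : DD k F) := fun _ => ⟨0, by simp⟩

theorem add (h : T2I q D) (h' : T2I q D') : T2I q (D + D') := fun c => by
  obtain ⟨z, hz⟩ := h c
  obtain ⟨z', hz'⟩ := h' c
  exact ⟨z + z', by rw [DD.add_apply, hz, hz', Int.cast_add, mul_add]⟩

theorem sub (h : T2I q D) (h' : T2I q D') : T2I q (D - D') := fun c => by
  obtain ⟨z, hz⟩ := h c
  obtain ⟨z', hz'⟩ := h' c
  exact ⟨z - z', by rw [DD.sub_apply, hz, hz', Int.cast_sub, mul_sub]⟩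

theorem inf (h : T2I q D) (h' : T2I q D') : T2I q (D ⊓ D') := fun c => by
  rw [DD.inf_apply]
  rcases min_choice (D c.toVl) (D' c.toVl) with e | e <;> rw [e]
  exacts [h c, h' c]

theorem sup (h : T2I q D) (h' : T2I q D') : T2I q (D ⊔ D') := fun c => by
  rw [DD.sup_apply]
  rcases max_choice (D c.toVl) (D' c.toVl) with e | e <;> rw [e]
  exacts [h c, h' c]

theorem div (h : T2I q D) {n : ℕ} (hn : 0 < n) (hq : n ∣ q) : T2I 1 ((n : ℚ)⁻¹ • D) := fun c => by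
  obtain ⟨z, hz⟩ := h c
  obtain ⟨m, rfl⟩ := hq
  have : (n : FF) ≠ 0 := Nat.cast_ne_zero.2 hn.ne'
  refine ⟨m * z, ?_⟩
  rw [DD.smul_apply, hz]
  push_cast
  field_simp

theorem pow {x : F} (h : ∃ e, x = e ^ q) : T2I q (vD k x) := fun c => by
  obtain ⟨e, rfl⟩ := h
  obtain ⟨z, hz⟩ := c.int e
  exact ⟨z, by rw [vD_apply, c.toVl.pow, hz]⟩

end T2I

variable (k F) in
/-- Functions of a valuation and a height which are combinations of truncations. -/
noncomputable def T2G : AddSubgroup (Vl k F → FF → FF) :=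
  AddSubgroup.closure ({f | ∃ g : DD k F, f = fun v _ => g v} ∪
    {f | ∃ e : DD k F, T2I 1 e ∧ f = fun v ρ => min ρ (e v)})

theorem T2G_const (g : DD k F) : (fun v _ => g v) ∈ T2G k F :=
  AddSubgroup.subset_closure (Or.inl ⟨g, rfl⟩)

theorem T2G_tr {e : DD k F} (he : T2I 1 e) : (fun v ρ => min ρ (e v)) ∈ T2G k F :=
  AddSubgroup.subset_closure (Or.inr ⟨e, he, rfl⟩)

theorem T2G_min {f : Vl k F → FF → FF} (hf : f ∈ T2G k F) {b : DD k F} (hb : T2I 1 b) :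
    (fun v ρ => f v (min ρ (b v))) ∈ T2G k F := by
  induction hf using AddSubgroup.closure_induction with
  | mem f hf =>
    rcases hf with ⟨g, rfl⟩ | ⟨e, he, rfl⟩
    · exact T2G_const g
    · simpa only [min_assoc, DD.inf_apply] using T2G_tr (hb.inf he)
  | zero => exact zero_mem _
  | add f g _ _ hf hg => exact add_mem hf hg
  | neg f _ hf => exact neg_mem hf

theorem T2G_max {f : Vl k F → FF → FF} (hf : f ∈ T2G k F) {b : DD k F} (hb : T2I 1 b) :
    (fun v ρ => f v (max ρ (b v))) ∈ T2G k F := by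
  induction hf using AddSubgroup.closure_induction with
  | mem f hf =>
    rcases hf with ⟨g, rfl⟩ | ⟨e, he, rfl⟩
    · exact T2G_const g
    · convert sub_mem (add_mem (T2G_tr he) (T2G_const (b ⊓ e))) (T2G_tr (hb.inf he)) using 3 with v ρ
      simp only [Pi.sub_apply, Pi.add_apply, DD.inf_apply, min_max_distrib_right]
      rw [eq_sub_iff_add_eq, ← max_add_min (min ρ (e v)), min_min_min_comm, min_self, min_assoc]
  | zero => exact zero_mem _
  | add f g _ _ hf hg => exact add_mem hf hg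
  | neg f _ hf => exact neg_mem hf

theorem T2_cross {X : Type*} {s : Finset X} (hs : s.Nonempty) (g : X → FF) {m : X → ℕ} {d : ℕ}
    (hm : ∀ x ∈ s, m x ≤ d) (G ρ : FF) {e : FF}
    (he : e = s.inf' hs fun y => ((d + 1 - m y : ℕ) : FF)⁻¹ * (g y - G)) :
    min (s.inf' hs fun y => g y + m y * ρ) (G + (d + 1 : ℕ) * ρ) =
      (s.inf' hs fun y => g y + m y * max ρ e) + (d + 1 : ℕ) * (min ρ e - e) := by
  have h0 : ∀ y ∈ s, ((d + 1 - m y : ℕ) : FF) = (d + 1 : ℕ) - m y ∧ (0 : FF) < (d + 1 - m y : ℕ) :=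
    fun y hy => ⟨Nat.cast_sub (by have := hm y hy; omega), Nat.cast_pos.2 (by have := hm y hy; omega)⟩
  have h1 : ∀ x, x ≤ e → G + (d + 1 : ℕ) * x ≤ s.inf' hs fun y => g y + m y * x := fun x hx =>
    Finset.le_inf' _ _ fun y hy => by
      have h := hx.trans (he ▸ Finset.inf'_le _ hy)
      rw [le_inv_mul_iff₀ (h0 y hy).2, (h0 y hy).1] at h
      linarith
  have h2 : ∀ x, e ≤ x → (s.inf' hs fun y => g y + m y * x) ≤ G + (d + 1 : ℕ) * x := fun x hx => by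
    obtain ⟨y, hy, e'⟩ := s.exists_mem_eq_inf' hs fun y => ((d + 1 - m y : ℕ) : FF)⁻¹ * (g y - G)
    rw [he, e', inv_mul_le_iff₀ (h0 y hy).2, (h0 y hy).1] at hx
    refine (Finset.inf'_le _ hy).trans ?_
    linarith
  rcases le_total ρ e with h | h
  · rw [min_eq_right (h1 ρ h), max_eq_right h, min_eq_left h, le_antisymm (h2 e le_rfl) (h1 e le_rfl)]
    ring
  · rw [min_eq_left (h2 ρ h), max_eq_left h, min_eq_right h, sub_self, mul_zero, add_zero]

/-- Lower envelopes of affine functions. -/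
theorem T2G_env {X : Type*} (γ : X → DD k F) (m : X → ℕ) {q : ℕ} (d : ℕ)
    (hq : ∀ n, 0 < n → n ≤ d → n ∣ q) (s : Finset X) (hs : s.Nonempty)
    (hγ : ∀ x ∈ s, T2I q (γ x)) (hm : ∀ x ∈ s, m x ≤ d) (h0 : ∃ x ∈ s, m x = 0) :
    (fun v ρ => s.inf' hs fun x => γ x v + m x * ρ) ∈ T2G k F := by
  induction d generalizing s with
  | zero =>
    convert T2G_const (s.inf' hs γ) using 3 with v ρ
    rw [DD.inf'_apply]
    exact Finset.inf'_congr _ rfl fun x hx => by simp [Nat.le_zero.1 (hm x hx)]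
  | succ d ih =>
    by_cases h : ∀ x ∈ s, m x ≤ d
    · exact ih (fun n h1 h2 => hq n h1 (by omega)) s hs hγ h h0
    push Not at h
    obtain ⟨x₀, hx₀, e₀⟩ := h0
    have hs' : (s.filter fun x => m x ≤ d).Nonempty := ⟨x₀, Finset.mem_filter.2 ⟨hx₀, by omega⟩⟩
    have hs'' : (s.filter fun x => d < m x).Nonempty := by
      obtain ⟨x, hx, e⟩ := h
      exact ⟨x, Finset.mem_filter.2 ⟨hx, e⟩⟩
    have h1 := ih (fun n h1 h2 => hq n h1 (by omega)) _ hs'
      (fun x hx => hγ x (Finset.mem_filter.1 hx).1) (fun x hx => (Finset.mem_filter.1 hx).2)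
      ⟨x₀, Finset.mem_filter.2 ⟨hx₀, by omega⟩, e₀⟩
    obtain ⟨G, hG⟩ : ∃ G, G = Finset.inf' _ hs'' γ := ⟨_, rfl⟩
    obtain ⟨e, he⟩ : ∃ e, e = Finset.inf' _ hs' fun y => ((d + 1 - m y : ℕ) : ℚ)⁻¹ • (γ y - G) :=
      ⟨_, rfl⟩
    have hGi : T2I q G := hG ▸ Finset.inf'_induction _ _ (fun _ h _ h' => h.inf h')
      fun x hx => hγ x (Finset.mem_filter.1 hx).1
    have hei : T2I 1 e := he ▸ Finset.inf'_induction _ _ (fun _ h _ h' => h.inf h') fun x hx => by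
      have := (Finset.mem_filter.1 hx).2
      exact ((hγ x (Finset.mem_filter.1 hx).1).sub hGi).div (by omega) (hq _ (by omega) (by omega))
    convert add_mem (T2G_max h1 hei) (nsmul_mem (sub_mem (T2G_tr hei) (T2G_const e)) (d + 1))
      using 3 with v ρ
    simp only [Pi.add_apply, Pi.smul_apply, Pi.sub_apply]
    rw [nsmul_eq_mul, ← T2_cross hs' (fun y => γ y v) (fun x hx => (Finset.mem_filter.1 hx).2) (G v) ρ
      (e := e v) (by rw [he, DD.inf'_apply]; simp), hG, DD.inf'_apply]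
    apply le_antisymm
    · refine le_min (Finset.le_inf' _ _ fun y hy => Finset.inf'_le _ (Finset.mem_filter.1 hy).1) ?_
      obtain ⟨y, hy, e'⟩ := Finset.exists_mem_eq_inf' hs'' fun x => γ x v
      obtain ⟨h2, h3⟩ := Finset.mem_filter.1 hy
      rw [e', show d + 1 = m y from le_antisymm h3 (hm y h2)]
      exact Finset.inf'_le _ h2
    · refine Finset.le_inf' _ _ fun y hy => ?_
      rcases le_or_gt (m y) d with h2 | h2
      · exact (min_le_left _ _).trans (Finset.inf'_le _ (Finset.mem_filter.2 ⟨hy, h2⟩))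
      · refine (min_le_right _ _).trans ?_
        rw [show m y = d + 1 from le_antisymm (hm y hy) h2]
        exact add_le_add_left (Finset.inf'_le _ (Finset.mem_filter.2 ⟨hy, h2⟩)) _

/-- The functions which are given by a tree. -/
noncomputable def T2T (ι : F →ₐ[k] L) (t : L) : AddSubgroup (Vl k L → FF) where
  carrier := {Φ | ∃ (I : Type) (_ : Fintype I) (_ : Nonempty I) (s : I → F) (g : I → DD k F)
    (n : I → ℤ) (g0 : DD k F), (∀ α, T2I 1 (g α)) ∧ ∀ w, Φ w = g0 (w.comap ι) +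
      ∑ α, n α * min (w (t - ι (s α))) (g α (w.comap ι))}
  zero_mem' := ⟨Unit, inferInstance, inferInstance, 0, 0, 0, 0, fun _ => T2I.zero, by simp⟩
  add_mem' := by
    rintro Φ Φ' ⟨I, _, _, s, g, n, g0, h1, h2⟩ ⟨I', _, _, s', g', n', g0', h1', h2'⟩
    refine ⟨I ⊕ I', inferInstance, inferInstance, Sum.elim s s', Sum.elim g g', Sum.elim n n',
      g0 + g0', Sum.rec h1 h1', fun w => ?_⟩
    simp only [Pi.add_apply, h2, h2', Fintype.sum_sum_type, Sum.elim_inl, Sum.elim_inr, DD.add_apply]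
    ring
  neg_mem' := by
    rintro Φ ⟨I, _, _, s, g, n, g0, h1, h2⟩
    refine ⟨I, inferInstance, inferInstance, s, g, -n, -g0, h1, fun w => ?_⟩
    simp [h2, add_comm]

theorem T2T_of {ι : F →ₐ[k] L} {t : L} {f : Vl k F → FF → FF} (hf : f ∈ T2G k F) (s : F) :
    (fun w : Vl k L => f (w.comap ι) (w (t - ι s))) ∈ T2T ι t := by
  induction hf using AddSubgroup.closure_induction with
  | mem f hf =>
    rcases hf with ⟨g, rfl⟩ | ⟨e, he, rfl⟩
    · exact ⟨Unit, inferInstance, inferInstance, 0, 0, 0, g, fun _ => T2I.zero, by simp⟩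
    · exact ⟨Unit, inferInstance, inferInstance, fun _ => s, fun _ => e, 1, 0, fun _ => he, by simp⟩
  | zero => exact zero_mem _
  | add f g _ _ hf hg => exact add_mem hf hg
  | neg f _ hf => exact neg_mem hf

theorem T2T_tree {ι : F →ₐ[k] L} {t : L} {V : FD k L} (h : mn V ∈ T2T ι t) :
    Nonempty (Tree ι t V) := by
  classical
  obtain ⟨I, _, _, s, g, n, g0, h1, h2⟩ := h
  refine ⟨{ I := I, s := s, g := g, n := n, g0 := g0, rep := DD.ext fun w => ?_
            int := fun α c => ?_ }⟩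
  · simp [h2]
  · obtain ⟨z, hz⟩ := h1 α c
    rw [← c.vq_cast, Nat.cast_one, one_mul] at hz
    exact ⟨z, by exact_mod_cast hz⟩

open Classical in
/-- The height at which the branch `r` leaves the branch `r₀`, truncated at `ρ`. -/
noncomputable def T2b (v : Vl k F) (r₀ : F) (ρ : FF) (r : F) : FF :=
  if r₀ = r then ρ else min ρ (v (r₀ - r))

theorem T2b_le (v : Vl k F) (r₀ : F) (ρ : FF) (r : F) : T2b v r₀ ρ r ≤ ρ := by
  unfold T2b
  split_ifs
  exacts [le_rfl, min_le_left _ _]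

theorem T2b_mono (v : Vl k F) {r₀ r₁ : F} {ρ : FF} (h : r₀ ≠ r₁) (h' : ρ ≤ v (r₀ - r₁)) (r : F) :
    T2b v r₁ ρ r ≤ T2b v r₀ ρ r := by
  rw [T2b.eq_1 v r₀]
  split_ifs with e
  · exact T2b_le _ _ _ _
  refine le_min (T2b_le _ _ _ _) ?_
  unfold T2b
  split_ifs with e'
  · exact e' ▸ h'
  · have h1 := v.add _ _ (sub_ne_zero.2 h) (sub_ne_zero.2 e') (by simpa [sub_eq_zero] using e)
    rw [sub_add_sub_cancel] at h1
    exact (min_le_min_right _ h').trans h1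

theorem T2b_eq (v : Vl k F) {r₀ r₁ : F} {ρ : FF} (h : r₀ ≠ r₁) (h' : ρ ≤ v (r₀ - r₁)) :
    T2b v r₀ ρ = T2b v r₁ ρ :=
  funext fun r => le_antisymm (T2b_mono v h.symm (by rwa [← neg_sub, v.neg]) r) (T2b_mono v h h' r)

theorem T2b_val {ι : F →ₐ[k] L} {t : L} (ht : Simp ι t) (w : Vl k L) {r₀ r : F}
    (h : w (t - ι r) ≤ w (t - ι r₀)) : w (t - ι r) = T2b (w.comap ι) r₀ (w (t - ι r₀)) r := by
  unfold T2b
  split_ifs with e
  · rw [e]
  have h0 : ι (r₀ - r) ≠ 0 := (map_ne_zero ι).2 (sub_ne_zero.2 e)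
  have e1 : t - ι r₀ + ι (r₀ - r) = t - ι r := by rw [map_sub, sub_add_sub_cancel]
  have e2 : t - ι r + -(t - ι r₀) = ι (r₀ - r) := by rw [← e1]; ring
  have h1 := w.add _ _ (ht.sub_ne r₀) h0 (e1 ▸ ht.sub_ne r)
  have h2 := w.add _ _ (ht.sub_ne r) (neg_ne_zero.2 (ht.sub_ne r₀)) (e2 ▸ h0)
  rw [e1] at h1
  rw [e2, w.neg, min_eq_left h] at h2
  exact le_antisymm (le_min h h2) h1

/-- Telescoping along the branches. -/
theorem T2T_glue {ι : F →ₐ[k] L} {t : L} (ht : Simp ι t) (f : F → Vl k F → FF → FF)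
    (hf : ∀ r₀ r₁ v ρ, r₀ ≠ r₁ → ρ ≤ v (r₀ - r₁) → f r₀ v ρ = f r₁ v ρ) {S : Finset F}
    (hS : S.Nonempty) (hG : ∀ r ∈ S, f r ∈ T2G k F) : ∃ Φ ∈ T2T ι t, ∀ (w : Vl k L), ∀ i ∈ S,
      (∀ l ∈ S, w (t - ι l) ≤ w (t - ι i)) → Φ w = f i (w.comap ι) (w (t - ι i)) := by
  induction hS using Finset.Nonempty.cons_induction with
  | singleton r =>
    refine ⟨_, T2T_of (hG r (Finset.mem_singleton_self r)) r, fun w i hi _ => ?_⟩
    rw [Finset.mem_singleton.1 hi]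
  | cons r S hr hS ih =>
    obtain ⟨Φ, hΦ, h⟩ := ih fun l hl => hG l (Finset.mem_cons_of_mem hl)
    have hGr := hG r (Finset.mem_cons_self _ _)
    have hβ : T2I 1 (S.sup' hS fun l => vD k (r - l)) :=
      Finset.sup'_induction _ _ (fun _ h _ h' => h.sup h') fun l _ => T2I.pow ⟨_, (pow_one _).symm⟩
    have hne : ∀ l ∈ S, r ≠ l := fun l hl e => hr (e ▸ hl)
    refine ⟨_, add_mem hΦ (sub_mem (T2T_of hGr r) (T2T_of (T2G_min hGr hβ) r)), fun w i hi hm => ?_⟩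
    simp only [Pi.add_apply, Pi.sub_apply, DD.sup'_apply, vD_apply]
    rcases Finset.mem_cons.1 hi with rfl | hi
    · obtain ⟨j, hj, hj'⟩ := S.exists_max_image (fun l => w (t - ι l)) hS
      have h1 : ∀ l ∈ S, w (t - ι l) = min (w (t - ι i)) (w.comap ι (i - l)) := fun l hl => by
        rw [T2b_val ht w (hm l (Finset.mem_cons_of_mem hl)), T2b, if_neg (hne l hl)]
      have h2 : min (w (t - ι i)) (S.sup' hS fun l => w.comap ι (i - l)) = w (t - ι j) := by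
        apply le_antisymm
        · obtain ⟨l, hl, e⟩ := S.exists_mem_eq_sup' hS fun l => w.comap ι (i - l)
          rw [e, ← h1 l hl]
          exact hj' l hl
        · rw [h1 j hj]
          exact min_le_min_left _ (Finset.le_sup' (fun l => w.comap ι (i - l)) hj)
      rw [h2, h w j hj hj', hf i j _ (w (t - ι j)) (hne j hj) ((h1 j hj).trans_le (min_le_right _ _)),
        add_sub_cancel]
    · have h1 := T2b_val ht w (hm r (Finset.mem_cons_self _ _))
      rw [T2b, if_neg (hne i hi).symm] at h1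
      have h2 : w (t - ι r) ≤ w.comap ι (r - i) := by
        rw [h1, ← neg_sub i r, Vl.neg]
        exact min_le_right _ _
      rw [min_eq_left (h2.trans (Finset.le_sup' (fun l => w.comap ι (r - l)) hi)), sub_self, add_zero]
      exact h w i hi fun l hl => hm l (Finset.mem_cons_of_mem hl)

theorem T2_sum (M : Multiset F) (g : F → DD k F) (v : Vl k F) :
    (M.map g).sum v = (M.map fun r => g r v).sum := by
  induction M using Multiset.induction_on with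
  | empty => simp
  | cons a M ih => simp [ih]

theorem T2_branch {J : Type} [Fintype J] [Nonempty J] (c : J → F) (R : J → Multiset F) {d : ℕ}
    (hd : ∀ j, (R j).card ≤ d) {r₀ : F} (hco : ∃ j, r₀ ∉ R j)
    (h1 : ∀ j, ∃ e, c j = e ^ d.factorial) (h2 : ∀ j, ∀ r ∈ R j, ∃ e, r₀ - r = e ^ d.factorial) :
    (fun (v : Vl k F) ρ => Finset.univ.inf' Finset.univ_nonempty fun j =>
      v (c j) + ((R j).map (T2b v r₀ ρ)).sum) ∈ T2G k F := by
  classical
  obtain ⟨s, hs⟩ : ∃ s : Finset (Σ _ : J, Multiset F × Multiset F),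
      ∀ x, x ∈ s ↔ x.2.1 + x.2.2 = R x.1 ∧ r₀ ∉ x.2.2 :=
    ⟨Finset.univ.sigma fun j => (R j).antidiagonal.toFinset.filter (r₀ ∉ ·.2), fun x => by simp⟩
  obtain ⟨j₀, hj₀⟩ := hco
  have h0 : (⟨j₀, 0, R j₀⟩ : Σ _ : J, Multiset F × Multiset F) ∈ s := (hs _).2 ⟨zero_add _, hj₀⟩
  convert T2G_env (fun x => vD k (c x.1) + (x.2.2.map fun r => vD k (r₀ - r)).sum)
    (fun x => x.2.1.card) d (fun n => Nat.dvd_factorial) s ⟨_, h0⟩ (fun x hx => ?_)
    (fun x hx => ?_) ⟨_, h0, rfl⟩ using 3 with v ρ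
  · simp only [DD.add_apply, vD_apply, T2_sum]
    apply le_antisymm
    · refine Finset.le_inf' _ _ fun x hx => (Finset.inf'_le _ (Finset.mem_univ x.1)).trans ?_
      obtain ⟨e, hx⟩ := (hs x).1 hx
      rw [← e, Multiset.map_add, Multiset.sum_add, add_assoc, add_comm (Multiset.sum _)]
      refine add_le_add_right (add_le_add (Multiset.sum_map_le_sum_map _ _ fun r hr => ?_) ?_) _
      · rw [T2b, if_neg fun e : r₀ = r => hx (e ▸ hr)]
        exact min_le_right _ _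
      · simpa using Multiset.sum_map_le_sum_map (s := x.2.1) _ (fun _ => ρ) fun r _ => T2b_le v r₀ ρ r
    · refine Finset.le_inf' _ _ fun j _ => ?_
      have e := Multiset.filter_add_not (fun r => T2b v r₀ ρ r = ρ) (R j)
      have e₀ : r₀ ∉ (R j).filter fun r => ¬ T2b v r₀ ρ r = ρ := by simp [T2b]
      refine (Finset.inf'_le _ ((hs ⟨j, (R j).filter fun r => T2b v r₀ ρ r = ρ,
        (R j).filter fun r => ¬ T2b v r₀ ρ r = ρ⟩).2 ⟨e, e₀⟩)).trans (le_of_eq ?_)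
      conv_rhs => rw [← e, Multiset.map_add, Multiset.sum_add, add_comm (Multiset.sum _)]
      rw [add_assoc]
      congr 2
      · refine congrArg _ (Multiset.map_congr rfl fun r hr => ?_)
        have h3 := (Multiset.mem_filter.1 hr).2
        unfold T2b at h3 ⊢
        split_ifs at h3 ⊢ with e'
        · exact absurd rfl h3
        · exact ((min_choice _ _).resolve_left h3).symm
      · rw [Multiset.map_congr rfl fun r hr => (Multiset.mem_filter.1 hr).2]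
        simp
  · refine (T2I.pow (h1 x.1)).add (Multiset.sum_induction _ _ (fun _ _ => T2I.add) T2I.zero ?_)
    intro D hD
    obtain ⟨r, hr, rfl⟩ := Multiset.mem_map.1 hD
    exact T2I.pow (h2 x.1 r (((hs x).1 hx).1 ▸ Multiset.mem_add.2 (Or.inr hr)))
  · refine le_trans ?_ (hd x.1)
    rw [← ((hs x).1 hx).1, Multiset.card_add]
    exact Nat.le_add_right _ _

theorem T2_prod (w : Vl k L) {X : Type*} (M : Multiset X) {g : X → L} (hg : ∀ r, g r ≠ 0) :
    (M.map g).prod ≠ 0 ∧ w (M.map g).prod = (M.map fun r => w (g r)).sum := by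
  induction M using Multiset.induction_on with
  | empty => simp [w.one]
  | cons a M ih =>
    simp only [Multiset.map_cons, Multiset.prod_cons, Multiset.sum_cons]
    exact ⟨mul_ne_zero (hg a) ih.1, by rw [w.mul _ _ (hg a) ih.1, ih.2]⟩

theorem T2_tree {ι : F →ₐ[k] L} {t : L} (ht : Simp ι t) {J : Type} [Finite J] (c : J → F)
    (hc : ∀ j, c j ≠ 0) (R : J → Multiset F) {d : ℕ} (hd : ∀ j, (R j).card ≤ d) {S : Finset F}
    (hS : S.Nonempty) (hR : ∀ j, ∀ r ∈ R j, r ∈ S) (hco : ∀ r, ∃ j, r ∉ R j)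
    (h1 : ∀ j, ∃ e, c j = e ^ d.factorial)
    (h2 : ∀ r ∈ S, ∀ j, ∀ r' ∈ R j, ∃ e, r - r' = e ^ d.factorial) :
    Nonempty (Tree ι t (FD.sp fun j => ι (c j) * ((R j).map fun r => t - ι r).prod)) := by
  have := Fintype.ofFinite J
  have : Nonempty J := (hco 0).nonempty
  obtain ⟨Φ, hΦ, h⟩ := T2T_glue ht (fun r₀ v ρ => Finset.univ.inf' Finset.univ_nonempty fun j =>
    v (c j) + ((R j).map (T2b v r₀ ρ)).sum) (fun r₀ r₁ v ρ h h' => by simp only [T2b_eq v h h']) hS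
    fun r hr => T2_branch c R hd (hco r) h1 (h2 r hr)
  refine T2T_tree ?_
  convert hΦ
  funext w
  obtain ⟨i, hi, hi'⟩ := S.exists_max_image (fun l => w (t - ι l)) hS
  have h3 : ∀ j, ι (c j) * ((R j).map fun r => t - ι r).prod ≠ 0 := fun j =>
    mul_ne_zero ((map_ne_zero ι).2 (hc j)) (T2_prod w _ ht.sub_ne).1
  have h4 : ∀ j, w (ι (c j) * ((R j).map fun r => t - ι r).prod) =
      w.comap ι (c j) + ((R j).map (T2b (w.comap ι) i (w (t - ι i)))).sum := fun j => by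
    rw [w.mul _ _ ((map_ne_zero ι).2 (hc j)) (T2_prod w _ ht.sub_ne).1, (T2_prod w _ ht.sub_ne).2,
      Multiset.map_congr rfl fun r hr => T2b_val ht w (hi' r (hR j r hr))]
    rfl
  have h5 : ∃ j, ι (c j) * ((R j).map fun r => t - ι r).prod ≠ 0 := ⟨this.some, h3 _⟩
  rw [h w i hi hi']
  apply le_antisymm
  · refine Finset.le_inf' _ _ fun j _ => (mn_le _ w ?_ (h3 j)).trans_eq (h4 j)
    rw [FD.sp_val h5]
    exact Submodule.subset_span ⟨j, rfl⟩
  · obtain ⟨j, -, e⟩ := mn_sp h5 w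
    rw [e, h4]
    exact Finset.inf'_le _ (Finset.mem_univ j)

end Pool.Agent.Work.MP_ffcd14_ag.Uni
end

-- merged part: Pool.Agent.Work.MP_ffcd14_ag.Uni.T2
section
/-! # Existence of the tree -/

open MvPolynomial

namespace Pool.Agent.Work.MP_ffcd14_ag.Uni

universe u

variable {k F L : Type u} [Field k] [Field F] [Field L] [Algebra k F] [Algebra k L] {P Q : Amb}

/-- A system of split coprime polynomials defines a tree. -/
theorem exists_tree {ι : F →ₐ[k] L} {t : L} (ht : Simp ι t) {J : Type} [Finite J] (c : J → F)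
    (hc : ∀ j, c j ≠ 0) (R : J → Multiset F) {d : ℕ} (hd : ∀ j, (R j).card ≤ d)
    (hR : ∃ j, R j ≠ 0) (hco : ∀ r, ∃ j, r ∉ R j) (h1 : ∀ j, ∃ e, c j = e ^ d.factorial)
    (h2 : ∀ j j', ∀ r ∈ R j, ∀ r' ∈ R j', ∃ e, r - r' = e ^ d.factorial) :
    Nonempty (Tree ι t (FD.sp fun j => ι (c j) * ((R j).map fun r => t - ι r).prod)) := by
  classical
  have := Fintype.ofFinite J
  obtain ⟨j₀, hj₀⟩ := hR
  obtain ⟨r₀, hr₀⟩ := Multiset.exists_mem_of_ne_zero hj₀
  refine T2_tree ht c hc R hd (S := Finset.univ.biUnion fun j => (R j).toFinset)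
    ⟨r₀, by simpa using ⟨j₀, hr₀⟩⟩ (fun j r hr => by simpa using ⟨j, hr⟩) hco h1 fun r hr j r' hr' => ?_
  obtain ⟨j', hj'⟩ : ∃ j', r ∈ R j' := by simpa using hr
  exact h2 j' j r hj' r' hr'

/-- Generic points with coordinates in a ring. -/
def T2P {A : Type u} [CommRing A] [Algebra k A] (Z : Set (P.Pt k)) (v : P.V → A) : Prop :=
  (∀ i, ∃ s, v ⟨i, s⟩ ≠ 0) ∧ ∀ f a, IsForm f a → (aeval v f = 0 ↔ Van Z f)

theorem T2P_map {A B : Type u} [CommRing A] [Algebra k A] [CommRing B] [Algebra k B]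
    (ψ : A →ₐ[k] B) (hψ : Function.Injective ψ) {Z : Set (P.Pt k)} {v : P.V → A} :
    T2P Z (fun s => ψ (v s)) ↔ T2P Z v := by
  simp only [T2P, ← comp_aeval_apply, map_eq_zero_iff ψ hψ, ne_eq]

theorem T2P_scale {A : Type u} [CommRing A] [IsDomain A] [Algebra k A] {μ : P.ι → A}
    (hμ : ∀ i, μ i ≠ 0) {Z : Set (P.Pt k)} {v : P.V → A} :
    T2P Z (fun s => μ s.1 * v s) ↔ T2P Z v := by
  refine and_congr (by simp [hμ]) (forall₃_congr fun f a hf => ?_)
  have h : (a.prod fun i n => μ i ^ n) ≠ 0 :=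
    Finset.prod_ne_zero_iff.2 fun i _ => pow_ne_zero _ (hμ i)
  rw [hf.aeval_scale, mul_eq_zero, or_iff_right h]

/-- A generic point given by coprime polynomials over an algebraically closed field. -/
theorem T2_poly {X : Var k P} (h : Uniruled X) : ∃ (E : Type u) (_ : Field E) (_ : Algebra k E)
    (_ : IsAlgClosed E) (p : P.V → Polynomial E), Algebra.trdeg k E + 1 = X.dim ∧ T2P X.pts p ∧
      ∀ r i, ∃ s, (p ⟨i, s⟩).eval r ≠ 0 := by
  classical
  obtain ⟨F, _, _, v, hd, hv⟩ := h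
  obtain ⟨b, hb⟩ := IsLocalization.exist_integer_multiples_of_finite
    (nonZeroDivisors (Polynomial F)) v
  choose p hp using hb
  have h1 : T2P X.pts p := by
    rw [← T2P_map (IsScalarTower.toAlgHom k _ (RatFunc F)) (IsFractionRing.injective _ _)]
    simp only [IsScalarTower.toAlgHom_apply, hp, Algebra.smul_def]
    exact (T2P_scale (μ := fun _ => algebraMap _ (RatFunc F) b.1) fun _ =>
      RatFunc.algebraMap_ne_zero (nonZeroDivisors.ne_zero b.2)).2 hv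
  rw [← T2P_map (Polynomial.mapAlgHom (IsScalarTower.toAlgHom k F (AlgebraicClosure F)))
    (Polynomial.map_injective _ (RingHom.injective _))] at h1
  generalize (fun s => Polynomial.mapAlgHom (IsScalarTower.toAlgHom k F (AlgebraicClosure F))
    (p s)) = q at h1
  have := fun i => Fintype.ofFinite (P.σ i)
  have h2 : ∀ i, (Finset.univ : Finset (P.σ i)).Nonempty := fun i =>
    (h1.1 i).imp fun s _ => Finset.mem_univ s
  choose g hg hg' using fun i => Finset.extract_gcd (fun s => q ⟨i, s⟩) (h2 i)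
  refine ⟨AlgebraicClosure F, inferInstance, inferInstance, inferInstance, fun s => g s.1 s.2,
    ?_, ?_, fun r i => ?_⟩
  · rw [← trdeg_add_eq k F, trdeg_eq_zero (R := F), add_zero, hd]
  · rw [← T2P_scale (μ := fun i => Finset.univ.gcd fun s => q ⟨i, s⟩) fun i e => ?_]
    · convert h1 using 2 with s
      exact (hg s.1 s.2 (Finset.mem_univ _)).symm
    · obtain ⟨s, hs⟩ := h1.1 i
      exact hs (Finset.gcd_eq_zero_iff.1 e s (Finset.mem_univ _))
  · by_contra hc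
    push Not at hc
    have h3 := Finset.dvd_gcd (s := Finset.univ) fun s _ => Polynomial.dvd_iff_isRoot.2 (hc s)
    rw [hg'] at h3
    exact Polynomial.not_isUnit_X_sub_C r (isUnit_of_dvd_one h3)

/-- A finitely generated subfield containing a finite set and roots of it and of differences. -/
theorem T2_field {E : Type u} [Field E] [Algebra k E] [IsAlgClosed E] {A : Set E} (hA : A.Finite)
    {N : ℕ} (hN : 0 < N) : ∃ (F : IntermediateField k E) (S : Finset F), Fg k F ∧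
      (∀ x ∈ A, x ∈ F) ∧ (∀ x : F, x ∈ S ↔ x.1 ∈ A) ∧ ∀ x ∈ S, ∀ y ∈ S, ∃ e, x - y = e ^ N := by
  choose ρ hρ using fun x : E => IsAlgClosed.exists_pow_nat_eq x hN
  have hB := hA.union ((hA.image2 (· - ·) hA).image ρ)
  refine ⟨IntermediateField.adjoin k (A ∪ ρ '' Set.image2 (· - ·) A A),
    (hA.preimage Subtype.val_injective.injOn).toFinset,
    ⟨(hB.preimage Subtype.val_injective.injOn).toFinset, IntermediateField.lift_injective _ ?_⟩,
    fun x hx => IntermediateField.subset_adjoin _ _ (Or.inl hx), by simp, fun x hx y hy => ?_⟩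
  · rw [IntermediateField.lift_adjoin, IntermediateField.lift_top, Set.Finite.coe_toFinset,
      Set.image_preimage_eq_of_subset]
    rw [Subtype.range_coe]
    exact IntermediateField.subset_adjoin _ _
  · rw [Set.Finite.mem_toFinset] at hx hy
    exact ⟨⟨ρ (x.1 - y.1), IntermediateField.subset_adjoin _ _ (Or.inr ⟨_, ⟨_, hx, _, hy, rfl⟩, rfl⟩)⟩,
      Subtype.ext (hρ _).symm⟩

theorem T2_fin (a : P.ι →₀ ℕ) :
    {d : P.V →₀ ℕ | Finsupp.weight (fun s : P.V => Finsupp.single s.1 1) d = a}.Finite := by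
  refine (Finsupp.finite_of_nat_weight_le (fun _ : P.V => 1) (fun _ => one_ne_zero) a.degree).subset
    fun d hd => ?_
  rw [Set.mem_ofPred_eq, ← (show _ = a from hd), Finsupp.weight_apply, Finsupp.weight_apply, map_finsuppSum]
  simp

theorem T2_mono {A : Type*} [CommRing A] [IsDomain A] [Algebra k A] {v : P.V → A}
    (hv : ∀ i, ∃ s, v ⟨i, s⟩ ≠ 0) (a : P.ι →₀ ℕ) : ∃ d : P.V →₀ ℕ,
      Finsupp.weight (fun s : P.V => Finsupp.single s.1 1) d = a ∧
        aeval v (monomial d (1 : k)) ≠ 0 := by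
  choose s hs using hv
  induction a using Finsupp.induction_linear with
  | zero => exact ⟨0, map_zero _, by simp⟩
  | add a b ha hb =>
    obtain ⟨d, h1, h2⟩ := ha
    obtain ⟨e, h3, h4⟩ := hb
    refine ⟨d + e, by rw [map_add, h1, h3], ?_⟩
    rw [← mul_one (1 : k), ← monomial_mul, map_mul]
    exact mul_ne_zero h2 h4
  | single i n =>
    refine ⟨Finsupp.single ⟨i, s i⟩ n, by simp [Finsupp.weight_single], ?_⟩
    rw [← X_pow_eq_monomial, map_pow, aeval_X]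
    exact pow_ne_zero _ (hs i)

theorem T2_sys {x : P.V → L} (hx : NZ x) {a : P.ι →₀ ℕ} {J : Set (P.V →₀ ℕ)} [Finite J]
    (hJ : ∀ d, d ∈ J ↔ Finsupp.weight (fun s : P.V => Finsupp.single s.1 1) d = a ∧
      aeval x (monomial d (1 : k)) ≠ 0) :
    sys k x a = FD.sp fun j : J => aeval x (monomial j.1 (1 : k)) := by
  obtain ⟨j₀, hj₀⟩ := T2_mono (k := k) hx a
  refine FD.ext ?_
  rw [FD.sp_val ⟨⟨j₀, (hJ _).2 hj₀⟩, hj₀.2⟩]
  refine le_antisymm (fun y hy => ?_) (Submodule.span_le.2 ?_)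
  · obtain ⟨f, hf, rfl⟩ := (mem_sys hx).1 hy
    rw [f.as_sum, map_sum]
    refine sum_mem fun j hj => ?_
    rw [← mul_one (coeff j f), ← smul_eq_mul, ← smul_monomial, map_smul]
    refine Submodule.smul_mem _ _ ?_
    by_cases e : aeval x (monomial j (1 : k)) = 0
    · exact e ▸ zero_mem _
    · exact Submodule.subset_span ⟨⟨j, (hJ j).2 ⟨hf (mem_support_iff.1 hj), e⟩⟩, rfl⟩
  · rintro _ ⟨j, rfl⟩
    exact (mem_sys hx).2 ⟨monomial j.1 1, isWeightedHomogeneous_monomial _ _ _ ((hJ _).1 j.2).1, rfl⟩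

variable [IsAlgClosed k]

theorem _root_.Pool.Agent.Work.MP_ffcd14_ag.Uniruled.irr {X : Var k P} (h : Uniruled X) :
    IsIrreducible X.pts := by
  obtain ⟨F, _, _, v, -, h1, h2⟩ := h
  obtain ⟨Z, hZ⟩ := exists_loc (k := k) v h1
  have : X.pts = Z := Set.Subset.antisymm
    (subset_of_van Z.isClosed fun f a hf e => (h2 f a hf).1 ((hZ.iff f a hf).2 e))
    (subset_of_van X.closed fun f a hf e => (hZ.iff f a hf).1 ((h2 f a hf).2 e))
  exact this ▸ Z.isIrreducible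

theorem _root_.Pool.Agent.Work.MP_ffcd14_ag.Uniruled.map {X : Var k P} {Y : Var k Q}
    (h : Uniruled X) (φ : Hom X Y) (hφ : Function.Surjective φ.toFun) (hd : Y.dim = X.dim) :
    Uniruled Y := by
  have hX := h.irr
  obtain ⟨F, _, _, v, h0, h1, h2⟩ := h
  have := Subtype.preirreducibleSpace hX.2
  obtain ⟨x, hx⟩ := hX.1
  have key : ∀ C : Set X.pts, IsClosed C → C ∈ nhds (⟨x, hx⟩ : X.pts) → ∀ y, y ∈ C := fun C hC h y =>
    closure_minimal interior_subset hC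
      (isOpen_interior.dense ⟨_, mem_interior_iff_mem_nhds.2 h⟩ y)
  obtain ⟨b, G, hG, h3⟩ := φ.loc ⟨x, hx⟩
  have h4 : ∀ g a, IsForm g a → (aeval (fun s => aeval v (G s)) g = 0 ↔ ∀ y ∈ Y.pts, ev y g = 0) := by
    intro g a hg
    rw [← comp_aeval_apply, h2 _ _ (hg.aeval hG)]
    refine ⟨fun e y hy => ?_, fun e y hy => ?_⟩
    · obtain ⟨z, hz⟩ := hφ ⟨y, hy⟩
      have h5 := key {z | ev (φ.toFun z).1 g = 0}
        ((isClosed_zero hg).preimage (continuous_subtype_val.comp φ.continuous))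
        (h3.mono fun z ⟨μ, _, h6⟩ => by rw [h6 g a hg, e _ z.2, mul_zero]) z
      rwa [Set.mem_ofPred_eq, hz] at h5
    · exact key {z | ev z.1 (aeval G g) = 0}
        ((isClosed_zero (hg.aeval hG)).preimage continuous_subtype_val)
        (h3.mono fun z ⟨μ, h5, h6⟩ => (mul_eq_zero.1 ((h6 g a hg).symm.trans
          (e _ (φ.toFun z).2))).resolve_left (chi_ne_zero h5 a)) ⟨y, hy⟩
  refine ⟨F, inferInstance, inferInstance, fun s => aeval v (G s), hd ▸ h0, fun j => ?_, h4⟩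
  obtain ⟨s, hs⟩ := Function.ne_iff.1 ((φ.toFun ⟨x, hx⟩).1 j).rep_nonzero
  refine ⟨s, fun e => hs ?_⟩
  simpa using (h4 _ _ (IsForm.X ⟨j, s⟩)).1 (by simpa using e) _ (φ.toFun ⟨x, hx⟩).2

theorem _root_.Pool.Agent.Work.MP_ffcd14_ag.Uniruled.setup {X : Var k P} (h : Uniruled X)
    (hd : X.dim = 4) {a : P.ι →₀ ℕ} (ha : ∀ i, 0 < a i) :
    ∃ (F L : Type u) (_ : Field F) (_ : Field L) (_ : Algebra k F) (_ : Algebra k L) (_ : Fg k F)
      (ι : F →ₐ[k] L) (t : L) (x : P.V → L), td k F = 3 ∧ Simp ι t ∧ IsGen X.pts x ∧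
        Nonempty (Tree ι t (sys k x a)) := by
  classical
  obtain ⟨E, _, _, _, p, hE, hp, hco⟩ := T2_poly h
  obtain ⟨J, hJ⟩ : ∃ J : Set (P.V →₀ ℕ), ∀ d, d ∈ J ↔
      Finsupp.weight (fun s : P.V => Finsupp.single s.1 1) d = a ∧
        aeval p (monomial d (1 : k)) ≠ 0 := ⟨Set.ofPred _, fun _ => Iff.rfl⟩
  have hJf : J.Finite := (T2_fin a).subset fun d hd => ((hJ d).1 hd).1
  have := hJf.to_subtype
  obtain ⟨d, hdeg⟩ := (hJf.image fun j => (aeval p (monomial j (1 : k))).natDegree).bddAbove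
  obtain ⟨F, S, hF, hA, hS, hS'⟩ := T2_field (k := k) (A := {0} ∪ (⋃ s, ((p s).coeffs : Set E)) ∪
    ⋃ j : J, insert (aeval p (monomial j.1 (1 : k))).leadingCoeff
      {r | r ∈ (aeval p (monomial j.1 (1 : k))).roots})
    (((Set.finite_singleton _).union (Set.finite_iUnion fun s => Finset.finite_toSet _)).union
      (Set.finite_iUnion fun j => (Multiset.finite_toSet _).insert _)) d.factorial_pos
  have hq : ∀ s, ∃ q : Polynomial F, Polynomial.mapAlgHom F.val q = p s := fun s =>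
    (Polynomial.mem_lifts (f := (F.val : F →+* E)) _).1 <|
      (Polynomial.lifts_iff_coeffs_subset_range _).2 fun c hc =>
        ⟨⟨c, hA c (Or.inl (Or.inr (Set.mem_iUnion.2 ⟨s, hc⟩)))⟩, rfl⟩
  choose q hq using hq
  have hinj : Function.Injective (Polynomial.mapAlgHom F.val) :=
    Polynomial.map_injective _ (RingHom.injective _)
  have hQ : ∀ f : MvPolynomial P.V k, (aeval q f).map (F.val : F →+* E) = aeval p f := fun f => by
    rw [← funext hq, ← comp_aeval_apply]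
    rfl
  obtain ⟨θ, hθ⟩ : ∃ θ : Polynomial F →ₐ[k] RatFunc F, θ = IsScalarTower.toAlgHom k _ _ := ⟨_, rfl⟩
  have hθi : Function.Injective θ := hθ ▸ IsFractionRing.injective _ _
  have hx : T2P X.pts fun s => θ (q s) := by
    rw [T2P_map θ hθi, ← T2P_map _ hinj, funext hq]
    exact hp
  have hgen : IsGen X.pts fun s => θ (q s) := ⟨hx.1, hx.2⟩
  have ht := simp_ratFunc (k := k) (F := F)
  have := ht.fg
  have h0 : ∀ j : J, aeval q (monomial j.1 (1 : k)) ≠ 0 := fun j e =>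
    ((hJ _).1 j.2).2 (by rw [← hQ, e, Polynomial.map_zero])
  have hsp : ∀ j : J, (aeval q (monomial j.1 (1 : k))).Splits := fun j =>
    Polynomial.Splits.of_splits_map (F.val : F →+* E) (IsAlgClosed.splits _) fun r hr =>
      ⟨⟨r, hA r (Or.inr (Set.mem_iUnion.2 ⟨j, Or.inr (hQ _ ▸ hr)⟩))⟩, rfl⟩
  have hroot : ∀ j : J, ∀ r ∈ (aeval q (monomial j.1 (1 : k))).roots,
      r.1 ∈ (aeval p (monomial j.1 (1 : k))).roots := fun j r hr => by
    rw [← hQ, (hsp j).roots_map]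
    exact Multiset.mem_map_of_mem _ hr
  have hS0 : (0 : F) ∈ S := (hS 0).2 (Or.inl (Or.inl rfl))
  have hR : ∀ j : J, ∀ r ∈ (aeval q (monomial j.1 (1 : k))).roots, r ∈ S := fun j r hr =>
    (hS r).2 (Or.inr (Set.mem_iUnion.2 ⟨j, Or.inr (hroot j r hr)⟩))
  have hco' : ∀ r : F, ∃ j : J, r ∉ (aeval q (monomial j.1 (1 : k))).roots := fun r => by
    obtain ⟨j, h1, h2⟩ := T2_mono (k := k) (v := fun s => (p s).eval r.1) (hco r.1) a
    have h3 : (aeval p (monomial j (1 : k))).eval r.1 ≠ 0 := by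
      have := comp_aeval_apply p ((Polynomial.aeval r.1).restrictScalars k) (monomial j (1 : k))
      simp only [AlgHom.restrictScalars_apply, Polynomial.coe_aeval_eq_eval] at this
      rwa [this]
    have h4 := (hJ j).2 ⟨h1, fun e => h3 (by rw [e, Polynomial.eval_zero])⟩
    exact ⟨⟨j, h4⟩, fun hr => h3 (Polynomial.isRoot_of_mem_roots (hroot ⟨j, h4⟩ r hr))⟩
  refine ⟨F, RatFunc F, inferInstance, inferInstance, inferInstance, inferInstance, hF, _, _, _,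
    le_antisymm ?_ ?_, ht, hgen, ?_⟩
  · have h1 := trdeg_le_of_injective F.val (RingHom.injective _)
    rw [← td_eq_trdeg] at h1
    have h2 := (add_le_add_left h1 1).trans_eq hE
    rw [hd] at h2
    norm_cast at h2
    omega
  · have h1 := rn_le_td (k := k) (rat fun s => θ (q s))
    rw [rn_rat (Z := X.top h.irr) hgen, X.sdim_top, hd, ht.td_eq] at h1
    omega
  · convert T2_tree ht (fun j : J => (aeval q (monomial j.1 (1 : k))).leadingCoeff)
      (fun j => Polynomial.leadingCoeff_ne_zero.2 (h0 j))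
      (fun j => (aeval q (monomial j.1 (1 : k))).roots) (d := d) (fun j => ?_) ⟨0, hS0⟩ hR hco'
      (fun j => ?_) fun r hr j r' hr' => hS' r hr r' (hR j r' hr')
    · have h1 : ∀ j : J, IsScalarTower.toAlgHom k F (RatFunc F)
          (aeval q (monomial j.1 (1 : k))).leadingCoeff *
          ((aeval q (monomial j.1 (1 : k))).roots.map fun r =>
            RatFunc.X - IsScalarTower.toAlgHom k F (RatFunc F) r).prod =
          aeval (fun s => θ (q s)) (monomial j.1 (1 : k)) := fun j => by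
        rw [← comp_aeval_apply]
        conv_rhs => rw [(hsp j).eq_prod_roots]
        simp [hθ, map_multiset_prod, Function.comp_def]
      simp only [h1]
      refine T2_sys hgen.onS.nz fun j => ?_
      rw [hJ, ← comp_aeval_apply, map_ne_zero_iff θ hθi, ← hQ, Polynomial.map_ne_zero_iff]
      exact RingHom.injective _
    · refine (Polynomial.card_roots' _).trans (le_trans (le_of_eq ?_) (hdeg ⟨j.1, j.2, rfl⟩))
      simp only [← hQ, Polynomial.natDegree_map]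
    · simpa using hS' _ ((hS (aeval q (monomial j.1 (1 : k))).leadingCoeff).2
        (Or.inr (Set.mem_iUnion.2 ⟨j, Or.inl (by rw [← hQ, Polynomial.leadingCoeff_map]; rfl)⟩))) 0 hS0

end Pool.Agent.Work.MP_ffcd14_ag.Uni
end
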