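import Pool.Agent.Work.MP_ffcd14_ag.Uni.S0
import Pool.Agent.Work.MP_ffcd14_ag.Uni.B3a
import Mathlib
import Pool.Agent.Work.MP_ffcd14_ag.Cyc.Gp0
import Pool.Agent.Work.MP_ffcd14_ag.Uni.T2
import Pool.Agent.Work.MP_ffcd14_ag.Cyc.GlueN

-- merged part: Pool.Agent.Work.MP_ffcd14_ag.Uni.Z2
section
-- merged part: Pool.Agent.Work.MP_ffcd14_ag.Uni.Z1
section
/-! # Normal forms of classes of codimension two on a tree of rational curves -/

open MvPolynomial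

namespace Pool.Agent.Work.MP_ffcd14_ag.Uni

universe u v w

variable {k F L : Type u} [Field k] [Field F] [Field L] [Algebra k F] [Algebra k L]
  {K : Type v} [Field K] [CharZero K] {C : NT.{u, v, w} k K}
  {ι : F →ₐ[k] L} {t : L} {V : FD k L} (τ : Tree ι t V) (A : FD k F)

namespace Tree

/-- Lifts of the prime components of the edges. -/
def Lv (G : τ.Cl → Dv k F → DD k F) : Prop :=
  ∀ S, ∀ c ∈ prs A (τ.dl S), 0 ≤ G S c ∧ G S c ≤ τ.dl S ∧ c.vq (G S c) = c.vq (τ.dl S) ∧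
    ∀ c', Pr A c' → c' ≠ c → c'.vq (G S c) = 0

variable (G : τ.Cl → Dv k F → DD k F)

/-- A class supported on a tail. -/
noncomputable def tl (S : τ.Cl) (u : N k F) (w : Dv k F → N k F) : N k L :=
  pb ι u * cl (τ.TT S) + ∑ c ∈ prs A (τ.dl S), pb ι (w c) * cl (τ.TG S (G S c))

/-- The normal form. -/
noncomputable def nf (g₂ g₁ : N k F) (u : τ.Cl → N k F) (w : τ.Cl → Dv k F → N k F) : N k L :=
  pb ι g₂ + pb ι g₁ * τ.xi + ∑ S, τ.tl A G S (u S) (w S)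

/-- The divisor with given coefficients. -/
noncomputable def dv (μ : ℚ) (b : DD k F) (ν : τ.Cl → ℚ) (lam : τ.Cl → Dv k F → ℚ) : DD k L :=
  -(μ • τ.l0) + pD ι b +
    ∑ S, (ν S • τ.TT S + ∑ c ∈ prs A (τ.dl S), lam S c • τ.TG S (G S c))

/-- The divisor of the base below a tail. -/
noncomputable def ee (ν : τ.Cl → ℚ) (lam : τ.Cl → Dv k F → ℚ) (S : τ.Cl) : DD k F :=
  ν S • τ.dl S + ∑ c ∈ prs A (τ.dl S), lam S c • G S c

/-- The coefficient of the section. -/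
noncomputable def g1 (μ : ℚ) (b : DD k F) (ν : τ.Cl → ℚ) (lam : τ.Cl → Dv k F → ℚ) : DD k F :=
  μ • (-τ.g0 - τ.d • τ.h0) + τ.d • b + ∑ S, τ.nS S • τ.ee A G ν lam S

/-- The coefficient of a tail. -/
noncomputable def gS (Lt : τ.Cl → DD k F) (m : τ.Cl → τ.Cl → ℚ) (μ : ℚ) (b : DD k F)
    (ν : τ.Cl → ℚ) (lam : τ.Cl → Dv k F → ℚ) (S : τ.Cl) : DD k F :=
  (μ * τ.nS S) • τ.h0 - τ.nS S • b + ν S • Lt S + ∑ S', m S' S • τ.ee A G ν lam S'

theorem cl_dv (μ : ℚ) (b : DD k F) (ν : τ.Cl → ℚ) (lam : τ.Cl → Dv k F → ℚ) :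
    cl (τ.dv A G μ b ν lam) = μ • τ.xi + pb ι (cl b) +
      ∑ S, (ν S • cl (τ.TT S) + ∑ c ∈ prs A (τ.dl S), lam S c • cl (τ.TG S (G S c))) := by
  simp only [dv, map_add, map_neg, map_smul, map_sum, pb_cl, xi, smul_neg]

theorem pb_dv (g : N k F) (μ : ℚ) (b : DD k F) (ν : τ.Cl → ℚ) (lam : τ.Cl → Dv k F → ℚ) :
    pb ι g * cl (τ.dv A G μ b ν lam) =
      τ.nf A G (g * cl b) (μ • g) (fun S => ν S • g) fun S c => lam S c • g := by
  simp only [cl_dv, nf, tl, mul_add, Finset.mul_sum, map_mul, map_smul, mul_smul_comm,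
    smul_mul_assoc]
  abel

variable {τ A G} {Vη : FD k L} {Λ : τ.Cl → N k F} {m : τ.Cl → τ.Cl → ℚ}

theorem ell_dv (ht : Simp ι t) (M : τ.Mod A Vη Λ m) (hG : τ.Lv A G) {Lt : τ.Cl → DD k F}
    (hL : ∀ S, cl (Lt S) = Λ S) (μ : ℚ) (b : DD k F) (ν : τ.Cl → ℚ) (lam : τ.Cl → Dv k F → ℚ) :
    hh V * cl (τ.dv A G μ b ν lam) = τ.nf A G (-(cl τ.g0 * cl b)) (cl (τ.g1 A G μ b ν lam))
      (fun S => cl (τ.gS A G Lt m μ b ν lam S)) fun S c => lam S c • Λ S := by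
  have h1 : hh V * τ.xi = pb ι (cl (-τ.g0 - τ.d • τ.h0)) * τ.xi +
      ∑ S, τ.nS S • (pb ι (cl τ.h0) * cl (τ.TT S)) := by
    have e : ∀ S, cl (τ.TT S) * τ.xi = -(pb ι (cl τ.h0) * cl (τ.TT S)) := fun S => by
      rw [mul_comm, ← τ.TG_dl ht, τ.xi_TG ht S (τ.dl_nonneg S), ka, map_neg, neg_mul]
    rw [τ.hh_eq, sub_mul, add_mul, smul_mul_assoc, τ.xi_xi ht, Finset.sum_mul]
    simp only [smul_mul_assoc, e, ka, map_neg, map_sub, map_smul, smul_neg, Finset.sum_neg_distrib,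
      sub_mul, neg_mul]
    abel
  have h2 : hh V * pb ι (cl b) = pb ι (-(cl τ.g0 * cl b)) + τ.d • (pb ι (cl b) * τ.xi) -
      ∑ S, τ.nS S • (pb ι (cl b) * cl (τ.TT S)) := by
    rw [τ.hh_eq, sub_mul, add_mul, Finset.sum_mul]
    simp only [smul_mul_assoc, map_neg, map_mul, neg_mul, mul_comm τ.xi, mul_comm (cl (τ.TT _))]
  have h3 : ∀ S, hh V * (ν S • cl (τ.TT S) +
      ∑ c ∈ prs A (τ.dl S), lam S c • cl (τ.TG S (G S c))) =
      τ.tl A G S (ν S • Λ S) (fun c => lam S c • Λ S) + pb ι (cl (τ.ee A G ν lam S)) *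
        (τ.nS S • τ.xi + ∑ S', m S S' • cl (τ.TT S')) := fun S => by
    have e := M.ell S _ (τ.dl_nonneg S) le_rfl
    rw [τ.TG_dl ht] at e
    rw [mul_add, Finset.mul_sum, Finset.sum_congr rfl fun c hc => by
      rw [mul_smul_comm, M.ell S _ (hG S c hc).1 (hG S c hc).2.1], mul_smul_comm, e]
    simp only [tl, ee, map_add, map_smul, map_sum, smul_add, Finset.sum_add_distrib, add_mul,
      Finset.sum_mul, smul_mul_assoc]
    abel
  rw [cl_dv, mul_add, mul_add, mul_smul_comm, h1, h2, Finset.mul_sum]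
  simp only [h3]
  simp only [nf, tl, g1, gS, map_add, map_sub, map_smul, map_sum, hL, add_mul, sub_mul,
    Finset.sum_mul, smul_mul_assoc, Finset.sum_add_distrib, Finset.sum_sub_distrib, mul_add,
    Finset.mul_sum, mul_smul_comm, smul_add, Finset.smul_sum, smul_smul]
  rw [Finset.sum_comm (f := fun S' S => m S S' • _)]
  abel

variable [IsAlgClosed k] [Fg k F] [Fg k L] (hC : C.Chow) (ht : Simp ι t)
include hC ht

theorem jj_pb (g : N k F) : JJ C L (pb ι g) = 0 :=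
  JJ_pb_lt hC ι (by rw [ht.td_eq]; omega) g

theorem jj_xi (g : N k F) : JJ C L (pb ι g * τ.xi) = JJ C F g := by
  rw [mul_comm, (τ.fdeg_xi hC ht).jj, one_mul]

theorem jj_TG (g : N k F) (S : τ.Cl) {H : DD k F} (h : 0 ≤ H) :
    JJ C L (pb ι g * cl (τ.TG S H)) = 0 := by
  rw [mul_comm, (τ.fdeg_TG hC ht S h).jj, zero_mul]

theorem jj_tl (hG : τ.Lv A G) (g : N k F) (S : τ.Cl) (u : N k F) (w : Dv k F → N k F) :
    JJ C L (pb ι g * τ.tl A G S u w) = 0 := by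
  rw [tl, mul_add, Finset.mul_sum, map_add, map_sum, ← τ.TG_dl ht, ← mul_assoc, ← map_mul,
    jj_TG hC ht _ _ (τ.dl_nonneg S), zero_add]
  refine Finset.sum_eq_zero fun c hc => ?_
  rw [← mul_assoc, ← map_mul, jj_TG hC ht _ _ (hG S c hc).1]

omit [IsAlgClosed k] [Fg k F] [Fg k L] hC in
theorem xi_tl (hG : τ.Lv A G) (S : τ.Cl) (u : N k F) (w : Dv k F → N k F) :
    τ.xi * τ.tl A G S u w = pb ι τ.ka * τ.tl A G S u w := by
  rw [tl, mul_add, mul_add, Finset.mul_sum, Finset.mul_sum, ← τ.TG_dl ht, mul_left_comm,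
    τ.xi_TG ht S (τ.dl_nonneg S), mul_left_comm]
  refine congrArg _ (Finset.sum_congr rfl fun c hc => ?_)
  rw [mul_left_comm, τ.xi_TG ht S (hG S c hc).1, mul_left_comm]

theorem jj_pair {S S' : τ.Cl} {H H' : DD k F} (h1 : 0 ≤ H) (h2 : H ≤ τ.dl S) (h1' : 0 ≤ H')
    (h2' : H' ≤ τ.dl S') (g g' : N k F) :
    JJ C L (pb ι g * cl (τ.TG S H) * (pb ι g' * cl (τ.TG S' H'))) =
      if S = S' then -JJ C F (g * g' * cl (H ⊓ H')) else 0 := by
  rw [mul_mul_mul_comm, ← map_mul, τ.pair_TG hC ht h1 h2 h1' h2']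

theorem jj_tl_ne (hG : τ.Lv A G) {S S' : τ.Cl} (h : S ≠ S') (u u' : N k F)
    (w w' : Dv k F → N k F) : JJ C L (τ.tl A G S u w * τ.tl A G S' u' w') = 0 := by
  have d := τ.dl_nonneg
  simp only [tl, add_mul, mul_add, Finset.sum_mul, Finset.mul_sum, map_add, map_sum, ← τ.TG_dl ht]
  rw [jj_pair hC ht (d S) le_rfl (d S') le_rfl, if_neg h, Finset.sum_eq_zero, Finset.sum_eq_zero]
  · simp
  · intro c hc
    rw [jj_pair hC ht (d S) le_rfl (hG _ _ hc).1 (hG _ _ hc).2.1, if_neg h, zero_add]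
    refine Finset.sum_eq_zero fun c' hc' => ?_
    rw [jj_pair hC ht (hG _ _ hc').1 (hG _ _ hc').2.1 (hG _ _ hc).1 (hG _ _ hc).2.1, if_neg h]
  · intro c hc
    rw [jj_pair hC ht (hG _ _ hc).1 (hG _ _ hc).2.1 (d S') le_rfl, if_neg h]

omit ht [Fg k L] in
theorem jj_lv (h3 : td k F = 3) (hG : τ.Lv A G) {S : τ.Cl} {c : Dv k F} (hc : c ∈ prs A (τ.dl S))
    {w w' : N k F} (hw : w ∈ Dat A) (hw' : w' ∈ Dat A) :
    JJ C F (w * w' * cl (G S c)) = c.vq (τ.dl S) * JJ C c.κ (c.rs w * c.rs w') := by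
  rw [JJ_fix hC h3 hw hw' _ {c} (by simpa using (mem_prs.1 hc).1) fun c' h1 h2 => by
    by_contra h
    exact h2 ((hG S c hc).2.2.2 c' h1 (by simpa using h)), Finset.sum_singleton, (hG S c hc).2.2.1,
    map_mul]

theorem jj_tl_eq (h3 : td k F = 3) (hG : τ.Lv A G) (S : τ.Cl) (u u' : N k F)
    {w w' : Dv k F → N k F} (hw : ∀ c, w c ∈ Dat A) (hw' : ∀ c, w' c ∈ Dat A) :
    JJ C L (τ.tl A G S u w * τ.tl A G S u' w') = -(JJ C F (cl (τ.dl S) * u * u') +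
      ∑ c ∈ prs A (τ.dl S), (JJ C F (w' c * u * cl (G S c)) + JJ C F (w c * u' * cl (G S c)) +
        c.vq (τ.dl S) * JJ C c.κ (c.rs (w c) * c.rs (w' c)))) := by
  classical
  have d := τ.dl_nonneg S
  simp only [tl, add_mul, mul_add, Finset.sum_mul, Finset.mul_sum, map_add, map_sum, ← τ.TG_dl ht,
    Finset.sum_add_distrib]
  rw [jj_pair hC ht d le_rfl d le_rfl, if_pos rfl, inf_idem,
    Finset.sum_congr rfl fun c hc => jj_pair hC ht (hG _ _ hc).1 (hG _ _ hc).2.1 d le_rfl _ _,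
    Finset.sum_congr rfl fun c hc => jj_pair hC ht d le_rfl (hG _ _ hc).1 (hG _ _ hc).2.1 _ _,
    Finset.sum_congr rfl fun c hc => Finset.sum_congr rfl fun c' hc' =>
      jj_pair hC ht (hG _ _ hc').1 (hG _ _ hc').2.1 (hG _ _ hc).1 (hG _ _ hc).2.1 _ _]
  simp only [if_true]
  have e1 : ∀ c ∈ prs A (τ.dl S), ∑ c' ∈ prs A (τ.dl S),
      -JJ C F (w c' * w' c * cl (G S c' ⊓ G S c)) =
      -(c.vq (τ.dl S) * JJ C c.κ (c.rs (w c) * c.rs (w' c))) := fun c hc => by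
    rw [Finset.sum_eq_single_of_mem c hc, inf_idem, jj_lv hC h3 hG hc (hw c) (hw' c)]
    intro c' hc' hne
    rw [JJ_fix_exc hC h3 (hw c') (hw' c), neg_zero]
    intro c'' h''
    rw [Dv.vq_inf]
    have p1 := c''.vq_mono (hG _ _ hc).1
    have p2 := c''.vq_mono (hG _ _ hc').1
    rw [map_zero] at p1 p2
    by_cases e : c'' = c
    · rw [(hG _ _ hc').2.2.2 c'' h'' (e ▸ hne.symm), min_eq_left p1]
    · rw [(hG _ _ hc).2.2.2 c'' h'' e, min_eq_right p2]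
  rw [Finset.sum_congr rfl e1,
    Finset.sum_congr rfl fun c hc => by rw [inf_eq_left.2 (hG _ _ hc).2.1],
    Finset.sum_congr (f := fun c => -JJ C F (u * w' c * cl (τ.dl S ⊓ G S c)))
      (g := fun c => -JJ C F (w' c * u * cl (G S c))) rfl fun c hc => by
      rw [inf_eq_right.2 (hG _ _ hc).2.1, mul_comm u]]
  simp only [Finset.sum_add_distrib, Finset.sum_neg_distrib, mul_comm _ (cl (τ.dl S)), ← mul_assoc]
  ring

theorem jj_nf (h3 : td k F = 3) (hG : τ.Lv A G) (g₂ g₁ g₂' g₁' : N k F) (u u' : τ.Cl → N k F)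
    {w w' : τ.Cl → Dv k F → N k F} (hw : ∀ S c, w S c ∈ Dat A) (hw' : ∀ S c, w' S c ∈ Dat A) :
    JJ C L (τ.nf A G g₂ g₁ u w * τ.nf A G g₂' g₁' u' w') =
      JJ C F (g₂ * g₁') + JJ C F (g₂' * g₁) + JJ C F (τ.ka * g₁ * g₁') -
      ∑ S, (JJ C F (cl (τ.dl S) * u S * u' S) + ∑ c ∈ prs A (τ.dl S),
        (JJ C F (w' S c * u S * cl (G S c)) + JJ C F (w S c * u' S * cl (G S c)) +
          c.vq (τ.dl S) * JJ C c.κ (c.rs (w S c) * c.rs (w' S c)))) := by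
  have e1 : ∀ (g₂ g₁ : N k F) (u : τ.Cl → N k F) (w : τ.Cl → Dv k F → N k F),
      JJ C L ((pb ι g₂ + pb ι g₁ * τ.xi) * ∑ S, τ.tl A G S (u S) (w S)) = 0 := by
    intro g₂ g₁ u w
    rw [Finset.mul_sum, map_sum]
    refine Finset.sum_eq_zero fun S _ => ?_
    rw [add_mul, mul_assoc, xi_tl ht hG, ← mul_assoc, ← map_mul, map_add, jj_tl hC ht hG,
      jj_tl hC ht hG, add_zero]
  have e2 : JJ C L ((pb ι g₂ + pb ι g₁ * τ.xi) * (pb ι g₂' + pb ι g₁' * τ.xi)) =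
      JJ C F (g₂ * g₁') + JJ C F (g₂' * g₁) + JJ C F (τ.ka * g₁ * g₁') := by
    have : (pb ι g₂ + pb ι g₁ * τ.xi) * (pb ι g₂' + pb ι g₁' * τ.xi) = pb ι (g₂ * g₂') +
        pb ι (g₂ * g₁') * τ.xi + pb ι (g₂' * g₁) * τ.xi + pb ι (τ.ka * g₁ * g₁') * τ.xi := by
      simp only [map_mul]
      linear_combination (pb ι g₁ * pb ι g₁') * τ.xi_xi ht
    rw [this]
    simp only [map_add, jj_pb hC ht, jj_xi hC ht, zero_add]
  rw [nf, nf, add_mul, mul_add _ _ (Finset.sum _ _), mul_add _ _ (Finset.sum _ _), map_add,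
    map_add, map_add, e1, e2,
    mul_comm (∑ S, τ.tl A G S (u S) (w S)), e1, Finset.sum_mul_sum, map_sum, add_zero, zero_add,
    sub_eq_add_neg, ← Finset.sum_neg_distrib]
  refine congrArg _ (Finset.sum_congr rfl fun S _ => ?_)
  rw [map_sum, Finset.sum_eq_single S (fun S' _ h => jj_tl_ne hC ht hG h.symm _ _ _ _) (by simp),
    jj_tl_eq hC ht h3 hG S _ _ (hw S) (hw' S)]

end Tree

end Pool.Agent.Work.MP_ffcd14_ag.Uni
end

-- merged part: Pool.Agent.Work.MP_ffcd14_ag.Uni.B3b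
section
/-! # The main inequality on the base: the Hodge index inequality on the components -/

open MvPolynomial Filter Topology

namespace Pool.Agent.Work.MP_ffcd14_ag.Uni

universe u v w

theorem B3b_real {d aa xx xa xw xl bb ba lam q Q M η₁ j : ℝ} (hd : 0 < d) (ha : 0 < aa)
    (h0 : d * xa ≤ q) (h1 : q - d * xa ≤ η₁) (h2 : |d * xl - Q| ≤ M * (q - d * xa))
    (h3 : aa * (xx + 2 * (xw + lam * xl) + bb) ≤ (xa + ba) ^ 2) :
    d * (xx + 2 * j * xa + j ^ 2 * aa) ≤ (q + d * ba) ^ 2 / (d * aa) - 2 * (d * xw) -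
      2 * (lam * Q) - d * bb + 2 * j * q + j ^ 2 * (d * aa) +
      ((2 * |q + d * ba| + η₁) / (d * aa) + 2 * |lam| * M - 2 * j) * (q - d * xa) := by
  obtain ⟨η, hη⟩ : ∃ η, η = q - d * xa := ⟨_, rfl⟩
  have e : d * xa = q - η := by linarith only [hη]
  rw [← hη] at h1 h2 ⊢
  have hη0 : 0 ≤ η := by linarith
  have hp := mul_pos hd ha
  have h4 : d * (xx + 2 * (xw + lam * xl) + bb) ≤
      ((q + d * ba) ^ 2 + (2 * |q + d * ba| + η₁) * η) / (d * aa) := by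
    rw [le_div_iff₀ hp]
    have h5 := mul_le_mul_of_nonneg_left h3 (sq_nonneg d)
    have h6 : d ^ 2 * (xa + ba) ^ 2 = (q + d * ba - η) ^ 2 := by
      rw [← mul_pow, mul_add, e]
      ring
    have h7 := mul_le_mul_of_nonneg_right (neg_abs_le (q + d * ba)) hη0
    have h8 := mul_le_mul_of_nonneg_right h1 hη0
    linarith only [h5, h6, h7, h8]
  have h5 : lam * Q - lam * (d * xl) ≤ |lam| * (M * η) := by
    rw [← mul_sub]
    refine (le_abs_self _).trans ?_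
    rw [abs_mul, abs_sub_comm]
    exact mul_le_mul_of_nonneg_left h2 (abs_nonneg _)
  rw [add_div, mul_div_right_comm] at h4
  have h6 : j * (d * xa) = j * (q - η) := by rw [e]
  linarith only [h4, h5, h6]

theorem B3b_sq {B : Type*} [CommRing B] [Algebra ℚ B] (ν : B →ₗ[ℚ] ℚ) (x y : B) (j : ℚ) :
    ν ((x + j • y) ^ 2) = ν (x * x) + 2 * j * ν (y * x) + j ^ 2 * ν (y * y) := by
  have : (x + j • y) ^ 2 = x * x + (2 * j) • (y * x) + (j ^ 2) • (y * y) := by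
    simp only [Algebra.smul_def, map_mul, map_pow, map_ofNat]
    ring
  simp only [this, map_add, map_smul, smul_eq_mul]

variable {k F : Type u} [Field k] [Field F] [Algebra k F]
  {K : Type v} [Field K] [CharZero K] {C : NT.{u, v, w} k K}
  [IsAlgClosed k] [Fg k F] (hC : C.Chow) (h3 : td k F = 3) {A : FD k F}
  (hA : IntermediateField.adjoin k (rt A) = ⊤)

theorem B3b_pos {δ : DD k F} (h0 : 0 ≤ δ) {c : Dv k F} (hc : c ∈ prs A δ) : 0 < c.vq δ :=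
  lt_of_le_of_ne (by simpa using c.vq_mono h0) (mem_prs.1 hc).2.symm

omit [IsAlgClosed k] [Fg k F] in
include h3 in
theorem B3b_td (c : Dv k F) : td k c.κ = 2 := by
  have := c.dim
  omega

include hC in
/-- Monotonicity of the restrictions of lifts. -/
theorem B3b_mono {D D' : DD k F} (h : D ≤ D') {c : Dv k F} (h' : c.vq D = c.vq D') {x : N k c.κ}
    (hx : Nef x) : JJ C c.κ (x * c.rs (cl D)) ≤ JJ C c.κ (x * c.rs (cl D')) := by
  have h1 := JJ_eff1 hC (sub_nonneg.2 (c.rD_mono h h')) hx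
  rwa [map_sub, ← c.rs_cl, ← c.rs_cl, mul_comm, mul_sub, map_sub, sub_nonneg] at h1

include hC h3 hA

theorem B3b_left {Λ : N k F} (hΛ : Λ ∈ Dat A) {D G : DD k F} (h : D - G ∈ XC A) (X : DD k F) :
    QQ C A Λ D X = QQ C A Λ G X := by
  have h1 := QQ_exc hC h3 hA hΛ X h
  rw [map_sub, sub_eq_zero] at h1
  rw [QQ_symm hC h3 hA hΛ, h1, QQ_symm hC h3 hA hΛ]

theorem B3b_dh {δ : DD k F} (hδ : cl δ ∈ Dat A) {D G : DD k F} (h : D - G ∈ XC A) :
    ((JJ C F (cl δ * hh A * cl D) : ℚ) : ℝ) = QQ C A (hh A) G δ := by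
  have hh' := hh_dat (dvd_refl A)
  rw [mul_comm (cl δ), ← QQ_const hC h3 hA hh' (good_dat hC h3 hA hδ) D, QQ_symm hC h3 hA hh',
    B3b_left hC h3 hA hh' h]

theorem B3b_sum {δ : DD k F} {Gc : Dv k F → DD k F}
    (hGc : ∀ c ∈ prs A δ, c.vq (Gc c) = c.vq δ ∧ ∀ c', Pr A c' → c' ≠ c → c'.vq (Gc c) = 0)
    {Λ : N k F} (hΛ : Λ ∈ Dat A) (G : DD k F) :
    ∑ c ∈ prs A δ, QQ C A Λ G (Gc c) = QQ C A Λ G δ := by
  have h1 := QQ_exc hC h3 hA hΛ G (X := ∑ c ∈ prs A δ, Gc c - δ) fun c hc => by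
    rw [map_sub, map_sum, sub_eq_zero]
    by_cases h : c ∈ prs A δ
    · rw [Finset.sum_eq_single c (fun x hx hxc => (hGc x hx).2 c hc (Ne.symm hxc))
        (fun h' => absurd h h'), (hGc c h).1]
    · rw [Finset.sum_eq_zero fun x hx => (hGc x hx).2 c hc fun e => h (e ▸ hx)]
      exact (not_not.1 fun e => h (mem_prs.2 ⟨hc, e⟩)).symm
  rwa [map_sub, map_sum, sub_eq_zero] at h1

theorem B3b_res {D G X : DD k F} (hD : PN A D) (h : D - G ∈ XC A) {Λ : N k F} (hΛ : Λ ∈ Dat A)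
    (hΛ' : Nef Λ) {c : Dv k F} (hc : Pr A c) (h1 : 0 < c.vq X)
    (h2 : ∀ c', Pr A c' → c' ≠ c → c'.vq X = 0) :
    (c.vq X : ℝ) * (JJ C c.κ (c.rs Λ * c.rs (cl D)) : ℚ) ≤ QQ C A Λ G X := by
  have h4 := hD.res_le hC h3 hA hΛ hΛ' hc (G := (c.vq X)⁻¹ • X)
    (by rw [map_smul, smul_eq_mul, inv_mul_cancel₀ h1.ne'])
    (fun c' hc' hne => by rw [map_smul, h2 c' hc' hne, smul_zero])
  rw [map_smul, B3b_left hC h3 hA hΛ h, map_mul, Rat.smul_def, Rat.cast_inv,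
    le_inv_mul_iff₀ (by exact_mod_cast h1)] at h4
  exact h4

/-- The right hand side minus the known terms. -/
noncomputable def B3R (C : NT.{u, v, w} k K) (A : FD k F) (δ : DD k F)
    (W : ∀ c : Dv k F, N k c.κ) (θ : DD k F →ₗ[ℚ] ℚ) (Λ : N k F) (G : DD k F) (lam : Dv k F → ℚ)
    (Gc : Dv k F → DD k F) : ℝ :=
  ∑ c ∈ prs A δ, (QQ C A (hh A) G (Gc c) +
    ((c.vq δ * JJ C c.κ ((W c + lam c • c.rs Λ) * c.rs (hh A)) : ℚ) : ℝ)) ^ 2 /
      ((c.vq δ * JJ C c.κ (c.rs (hh A * hh A)) : ℚ) : ℝ) - 2 * (θ G : ℝ) -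
  2 * ∑ c ∈ prs A δ, (lam c : ℝ) * QQ C A Λ G (Gc c) -
  ∑ c ∈ prs A δ, ((c.vq δ * JJ C c.κ ((W c + lam c • c.rs Λ) * (W c + lam c • c.rs Λ)) : ℚ) : ℝ)

theorem B3b_surf {δ : DD k F} (hδ : cl δ ∈ Dat A) (h0 : 0 ≤ δ) {W : ∀ c : Dv k F, N k c.κ}
    (hW : ∀ c ∈ prs A δ, W c ∈ N1 k c.κ) {θ : DD k F →ₗ[ℚ] ℚ}
    (hθ : ∀ X ∈ XC A, θ X = 0) (hθ' : Appr C A δ W θ) {Λ : N k F} (hΛ : Λ ∈ Dat A)
    (G : DD k F) (lam : Dv k F → ℚ) {Gc : Dv k F → DD k F}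
    (hGc : ∀ c ∈ prs A δ, c.vq (Gc c) = c.vq δ ∧ ∀ c', Pr A c' → c' ≠ c → c'.vq (Gc c) = 0)
    {D₁ D₂ : DD k F} (p₁ : PN A D₁) (p₂ : PN A (-D₂)) (l₁ : D₁ - G ∈ XC A) (l₂ : D₂ - G ∈ XC A) :
    ∃ j₀ : ℕ, ∀ D : DD k F, PN A D → D₁ ≤ D → D ≤ D₂ → D - G ∈ XC A → ∀ j : ℚ, j₀ ≤ j →
      ∑ c ∈ prs A δ, ((c.vq δ * JJ C c.κ ((c.rs (cl D) + j • c.rs (hh A)) ^ 2) : ℚ) : ℝ) ≤
        B3R C A δ W θ Λ G lam Gc + 2 * j * QQ C A (hh A) G δ +
          j ^ 2 * (JJ C F (hh A * hh A * cl δ) : ℚ) := by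
  have hh' := hh_dat (dvd_refl A)
  obtain ⟨c₀, hc₀⟩ := hθ' D₁ (D₂ - D₁) p₁ (by rwa [add_sub_cancel])
    (by simpa using sub_mem l₂ l₁)
  obtain ⟨M, hM, hM'⟩ := dat_squeeze hΛ
  let Kc : Dv k F → ℝ := fun c => (2 * |QQ C A (hh A) G (Gc c) + (c.vq δ : ℝ) *
    (JJ C c.κ ((W c + lam c • c.rs Λ) * c.rs (hh A)) : ℚ)| + (QQ C A (hh A) G (Gc c) -
      (c.vq δ : ℝ) * (JJ C c.κ (c.rs (hh A) * c.rs (cl D₁)) : ℚ))) /
        ((c.vq δ : ℝ) * (JJ C c.κ (c.rs (hh A) * c.rs (hh A)) : ℚ)) + 2 * |(lam c : ℝ)| * M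
  obtain ⟨j₀, hj₀⟩ := exists_nat_ge (∑ c ∈ prs A δ, |Kc c| + |(c₀ : ℝ)|)
  refine ⟨j₀, fun D p h1 h2 l j hj => ?_⟩
  let η : Dv k F → ℝ := fun c => QQ C A (hh A) G (Gc c) -
    (c.vq δ : ℝ) * (JJ C c.κ (c.rs (hh A) * c.rs (cl D)) : ℚ)
  have res : ∀ c ∈ prs A δ, ∀ Λ' ∈ Dat A, Nef Λ' →
      (c.vq δ : ℝ) * (JJ C c.κ (c.rs Λ' * c.rs (cl D)) : ℚ) ≤ QQ C A Λ' G (Gc c) :=
    fun c hc Λ' a b => by
      rw [← (hGc c hc).1]
      exact B3b_res hC h3 hA p l a b (mem_prs.1 hc).1 ((hGc c hc).1 ▸ B3b_pos h0 hc) (hGc c hc).2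
  have hη : ∀ c ∈ prs A δ, 0 ≤ η c := fun c hc => sub_nonneg.2 (res c hc _ hh' (Nef.hh A))
  have key : ∀ c ∈ prs A δ,
      ((c.vq δ * JJ C c.κ ((c.rs (cl D) + j • c.rs (hh A)) ^ 2) : ℚ) : ℝ) ≤
      (QQ C A (hh A) G (Gc c) +
        ((c.vq δ * JJ C c.κ ((W c + lam c • c.rs Λ) * c.rs (hh A)) : ℚ) : ℝ)) ^ 2 /
          ((c.vq δ * JJ C c.κ (c.rs (hh A * hh A)) : ℚ) : ℝ) -
        2 * ((c.vq δ * JJ C c.κ (W c * c.rs (cl D)) : ℚ) : ℝ) -
        2 * ((lam c : ℝ) * QQ C A Λ G (Gc c)) -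
        ((c.vq δ * JJ C c.κ ((W c + lam c • c.rs Λ) * (W c + lam c • c.rs Λ)) : ℚ) : ℝ) +
        2 * j * QQ C A (hh A) G (Gc c) +
        j ^ 2 * ((c.vq δ * JJ C c.κ (c.rs (hh A * hh A)) : ℚ) : ℝ) -
        2 * |(c₀ : ℝ)| * η c := fun c hc => by
    have hp := (mem_prs.1 hc).1
    have hd : (0 : ℝ) < c.vq δ := by exact_mod_cast B3b_pos h0 hc
    have ha := hp.pos hC h3
    rw [map_mul] at ha
    have a1 : (JJ C c.κ (c.rs (hh A) * c.rs (cl D₁)) : ℝ) ≤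
        (JJ C c.κ (c.rs (hh A) * c.rs (cl D)) : ℚ) := by
      have e1 := l c hp
      have e2 := l₁ c hp
      rw [map_sub] at e1 e2
      exact_mod_cast B3b_mono hC h1 (by linarith only [e1, e2]) ((Nef.hh A).rs c)
    have a2 := res c hc _ (add_mem (nsmul_mem hh' M) hΛ) hM
    have a3 := res c hc _ (sub_mem (nsmul_mem hh' M) hΛ) hM'
    simp only [map_add, map_sub, map_nsmul, add_mul, sub_mul, smul_mul_assoc, LinearMap.add_apply,
      LinearMap.sub_apply, LinearMap.smul_apply] at a2 a3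
    simp only [nsmul_eq_mul] at a2 a3
    push_cast at a2 a3
    have a4 := JJ_rcs hC (L := c.κ) [] (by simp) (by simp [B3b_td h3 c]) _ (c.rs_N1 (hh_mem A))
      (c.rs (cl D) + (W c + lam c • c.rs Λ)) (add_mem (c.rs_N1 (cl_mem D)) (add_mem (hW c hc)
        (Submodule.smul_mem _ _ (c.rs_N1 (Dat_le_N1 A hΛ))))) (by simpa using ha)
    have e1 : JJ C c.κ ((c.rs (cl D) + (W c + lam c • c.rs Λ)) *
        (c.rs (cl D) + (W c + lam c • c.rs Λ))) = JJ C c.κ (c.rs (cl D) * c.rs (cl D)) +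
          2 * (JJ C c.κ (W c * c.rs (cl D)) + lam c * JJ C c.κ (c.rs Λ * c.rs (cl D))) +
          JJ C c.κ ((W c + lam c • c.rs Λ) * (W c + lam c • c.rs Λ)) := by
      have := B3b_sq (JJ C c.κ) (c.rs (cl D)) (W c + lam c • c.rs Λ) 1
      rw [one_smul, sq, add_mul (W c) _ (c.rs (cl D)), smul_mul_assoc, map_add, map_smul,
        smul_eq_mul] at this
      rw [this]
      ring
    rw [List.prod_nil, one_mul, one_mul, e1, mul_add (c.rs (hh A)), map_add,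
      mul_comm (c.rs (hh A)) (W c + _)] at a4
    have a4' := (Rat.cast_le (K := ℝ)).2 a4
    push_cast at a4'
    have a5 := B3b_real (j := (j : ℝ)) (M := M) (Q := QQ C A Λ G (Gc c))
      (xl := (JJ C c.κ (c.rs Λ * c.rs (cl D)) : ℚ)) hd (Rat.cast_pos.2 ha)
      (res c hc _ hh' (Nef.hh A)) (sub_le_sub_left (mul_le_mul_of_nonneg_left a1 hd.le) _)
      (abs_le.2 ⟨by linarith only [a3], by linarith only [a2]⟩) a4'
    have a6 : Kc c - 2 * j ≤ -(2 * |(c₀ : ℝ)|) := by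
      have b1 := Finset.single_le_sum (f := fun c => |Kc c|) (fun _ _ => abs_nonneg _) hc
      have b2 := le_abs_self (Kc c)
      have b3 : (j₀ : ℝ) ≤ j := by exact_mod_cast hj
      have b4 := abs_nonneg (Kc c)
      linarith only [hj₀, b1, b2, b3, b4]
    have a7 := mul_le_mul_of_nonneg_right a6 (hη c hc)
    rw [B3b_sq, map_mul c.rs]
    push_cast
    linarith only [a5, a7]
  have a1 := Finset.sum_le_sum key
  simp only [Finset.sum_sub_distrib, Finset.sum_add_distrib, ← Finset.mul_sum] at a1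
  rw [B3b_sum hC h3 hA hGc hh'] at a1
  have a2 := JJ_fix hC h3 hh' hh' δ (prs A δ) (fun c hc => (mem_prs.1 hc).1)
    fun c a b => mem_prs.2 ⟨a, b⟩
  have a3 := hc₀ D p h1 (by rwa [add_sub_cancel])
  have a4 : θ D = θ G := by
    have := hθ _ l
    rwa [map_sub, sub_eq_zero] at this
  have a5 : ∑ c ∈ prs A δ, η c = ((JJ C F (cl δ * hh A * cl D) -
      ∑ c ∈ prs A δ, c.vq δ * JJ C c.κ (c.rs (hh A * cl D)) : ℚ) : ℝ) := by
    simp only [η, Finset.sum_sub_distrib, map_mul]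
    rw [B3b_sum hC h3 hA hGc hh', ← B3b_dh hC h3 hA hδ l]
    push_cast
    rfl
  have a6 : ((θ G : ℚ) : ℝ) - ∑ c ∈ prs A δ, ((c.vq δ * JJ C c.κ (W c * c.rs (cl D)) : ℚ) : ℝ) ≤
      (c₀ : ℝ) * ∑ c ∈ prs A δ, η c := by
    rw [a5, ← a4]
    exact_mod_cast (le_abs_self _).trans a3
  have a7 := mul_le_mul_of_nonneg_right (le_abs_self (c₀ : ℝ)) (Finset.sum_nonneg hη)
  rw [a2, B3R, Rat.cast_sum]
  linarith only [a1, a6, a7]

end Pool.Agent.Work.MP_ffcd14_ag.Uni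
end

-- merged part: Pool.Agent.Work.MP_ffcd14_ag.Uni.B3c
section
/-! # The main inequality on the base: the upper bound for the number of sections -/

open MvPolynomial Filter Topology

namespace Pool.Agent.Work.MP_ffcd14_ag.Uni

universe u v w

variable {k F : Type u} [Field k] [Field F] [Algebra k F]

theorem B3c_le {X Y : DD k F} {m : ℕ} (hm : 0 < m) (h : m • X ≤ m • Y) : X ≤ Y := fun v => by
  have := h v
  simp only [DD.nsmul_apply] at this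
  exact le_of_mul_le_mul_left this (by exact_mod_cast hm)

theorem B3c_inv {M : Type*} [AddCommGroup M] [Module ℚ M] {m : ℕ} (hm : 0 < m) (x : M) :
    m • (m : ℚ)⁻¹ • x = x := by
  rw [← Nat.cast_smul_eq_nsmul ℚ, smul_smul, mul_inv_cancel₀ (by exact_mod_cast hm.ne'), one_smul]

theorem B3c_env (A : FD k F) (G : DD k F) {m : ℕ} (hm : 0 < m) (j : ℕ) :
    env A (m • G) 1 (m * j) = m • env A G m j := by
  rw [env, env, one_smul, Nat.cast_one, inv_one, one_smul, smul_add, B3c_inv hm, smul_sub,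
    smul_smul]

theorem B3c_cl (A : FD k F) (G : DD k F) {m : ℕ} (hm : 0 < m) (j : ℕ) :
    hh (RS A (m • (G - j • mD A))) = m • (cl (env A G m j) + j • hh A) := by
  rw [env, map_add, map_nsmul, map_smul, map_neg, cl_mD, cl_mD, neg_neg, smul_neg,
    neg_add_cancel_right, B3c_inv hm]

theorem B3c_int {A : FD k F} {G : DD k F} (hG : IntP A G) (m j : ℕ) :
    IntP A (m • (G - j • mD A)) := fun c hc => by
  obtain ⟨z, hz⟩ := hG c hc
  refine ⟨m * (z - j * c.mz A), ?_⟩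
  rw [map_nsmul, map_sub, map_nsmul, hz, c.vq_mD]
  simp

variable {K : Type v} [Field K] [CharZero K] {C : NT.{u, v, w} k K}
  [IsAlgClosed k] [Fg k F] (hC : C.Chow) (h3 : td k F = 3) {A : FD k F}
  (hA : IntermediateField.adjoin k (rt A) = ⊤) {G : DD k F} {j₁ j₂ : ℕ}
  (h1 : NF A (G - j₁ • mD A)) (h2 : NF A (-G - j₂ • mD A))
include hC h3 hA h1 h2

/-- The envelopes with a fractional multiple of the polarisation. -/
theorem B3c_mid {m J : ℕ} (hm : 0 < m) (hJ : m * j₁ ≤ J) :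
    ∃ D : DD k F, PN A D ∧ env A G 1 j₁ ≤ D ∧ D ≤ -env A (-G) 1 j₂ ∧ D - G ∈ XC A ∧
      hh (RS A (m • G - J • mD A)) = (m : ℚ) • (cl D + ((J : ℚ) / m) • hh A) := by
  have a1 := h1.nsmul m
  have a2 := h2.nsmul m
  rw [smul_sub, smul_smul] at a1 a2
  rw [smul_neg] at a2
  refine ⟨(m : ℚ)⁻¹ • env A (m • G) 1 J, (env_PN _ _ _ _).smul (by positivity),
    B3c_le hm ?_, B3c_le hm ?_, ?_, ?_⟩
  · rw [B3c_inv hm]
    refine le_trans ?_ (env_mono hC h3 hA a1 one_pos dvd_rfl le_rfl hJ)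
    rw [B3c_env A G hm]
    exact nsmul_le_nsmul_right (env_mono hC h3 hA h1 hm (one_dvd _) le_rfl le_rfl) m
  · rw [B3c_inv hm]
    refine (env_le hC h3 hA a1 a2 one_pos hJ).trans ?_
    rw [← smul_neg, B3c_env A (-G) hm, smul_neg, neg_le_neg_iff]
    exact nsmul_le_nsmul_right (env_mono hC h3 hA h2 hm (one_dvd _) le_rfl le_rfl) m
  · have := (XC A).smul_mem (m : ℚ)⁻¹ (env_lift hC h3 hA a1 one_pos hJ)
    rwa [smul_sub, smul_comm _ m G, B3c_inv hm] at this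
  · have := B3c_cl A (m • G) one_pos J
    rw [one_smul, one_smul] at this
    rw [this, smul_add, smul_smul, mul_div_cancel₀ _ (by exact_mod_cast hm.ne'), map_smul,
      Nat.cast_smul_eq_nsmul, Nat.cast_smul_eq_nsmul, B3c_inv hm]

theorem B3c_count {δ : DD k F} (hG : IntP A G) {Cc : Dv k F → DD k F}
    (hCc : ∀ c ∈ prs A δ, c.vq (Cc c) = 1 ∧ ∀ c', Pr A c' → c' ≠ c → c'.vq (Cc c) = 0)
    (hN : ∀ c ∈ prs A δ, NF A (-Cc c - j₁ • mD A)) {n : ℕ} (hn : 0 < n) {d : Dv k F → ℕ}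
    (hd : ∀ c ∈ prs A δ, (d c : ℚ) = n * c.vq δ) {j r : ℕ} (hj : j₁ ≤ j) (hr : 0 < r) {j' : ℚ}
    (hj' : j' = j + j₁ * (∑ c ∈ prs A δ, d c : ℕ) / (n * r)) {Z : ℝ}
    (hZ : ∀ D : DD k F, PN A D → env A G 1 j₁ ≤ D → D ≤ -env A (-G) 1 j₂ → D - G ∈ XC A →
      ∑ c ∈ prs A δ, ((c.vq δ * JJ C c.κ ((c.rs (cl D) + j' • c.rs (hh A)) ^ 2) : ℚ) : ℝ) ≤ Z) :
    ∃ B : ℝ, ∀ t : ℕ, 0 < t →
      6 * (Module.finrank k (RR A ((n * t) • (r • (G - j • mD A) + δ))) : ℝ) ≤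
        (vol C A (G - j • mD A) * (n * r) ^ 3 + 3 * (n * r) ^ 2 * n * Z) * t ^ 3 + B * t ^ 2 := by
  classical
  choose V₀ hV₀ using fun c : Dv k F => JJ_cube hC (L := c.κ)
  obtain ⟨b, hb⟩ := finrank_le_vol hC h3 hA (G - j • mD A)
  let K₁ : Dv k F → ℚ := fun c => JJ C c.κ (hh (V₀ c) * c.rs (cl (-env A (-G) 1 j₂))) +
    j' * JJ C c.κ (c.rs (hh A) * hh (V₀ c))
  let K₂ : Dv k F → ℚ := fun c => JJ C c.κ (hh (V₀ c) * hh (V₀ c))
  refine ⟨b * (n * r) ^ 2 + ∑ c ∈ prs A δ, ((d c * (6 * (n * r) * K₁ c + 3 * K₂ c) : ℚ) : ℝ),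
    fun t ht => ?_⟩
  have hm : 0 < n * r * t := by positivity
  have a1 := ((h1.le hA hj).nsmul (n * r * t))
  have a2 : NF A ((n * r * t) • (G - j • mD A) -
      (j₁ * ∑ c ∈ prs A δ, t * d c) • mD A) :=
    NF.le hA (j := 0) (by rwa [zero_smul, sub_zero]) (Nat.zero_le _)
  have a3 := B3a_layers hC h3 hA (fun c hc => (mem_prs.1 hc).1) hCc hN
    (B3c_int hG (n * r * t) j) a2 _ (fun c => t * d c) rfl le_rfl
  have a4 : RR A ((n * t) • (r • (G - j • mD A) + δ)) ≤ RR A ((n * r * t) • (G - j • mD A) +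
      ∑ c ∈ prs A δ, (t * d c) • Cc c) := RR_mono fun c hc => by
    rw [map_add, B3a_vq_sum hCc (fun c => t * d c) hc, map_nsmul, map_add, map_nsmul, map_nsmul]
    simp only [nsmul_eq_mul]
    split_ifs with h
    · push_cast
      rw [hd c h]
      linarith only []
    · rw [not_not.1 fun e => h (mem_prs.2 ⟨hc, e⟩)]
      push_cast
      linarith only []
  have := B3a_fin hC h3 hA ((n * r * t) • (G - j • mD A) + ∑ c ∈ prs A δ, (t * d c) • Cc c)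
  have a5 := (Submodule.finrank_mono a4).trans a3
  rw [smul_sub (n * r * t), sub_sub ((n * r * t) • G), smul_smul, ← add_smul] at a5
  obtain ⟨D, p, l₁, l₂, l, e⟩ := B3c_mid hC h3 hA h1 h2 hm
    (J := n * r * t * j + j₁ * ∑ c ∈ prs A δ, t * d c)
    ((Nat.mul_le_mul_left _ hj).trans (Nat.le_add_right _ _))
  have e' : ((n * r * t * j + j₁ * ∑ c ∈ prs A δ, t * d c : ℕ) : ℚ) / (n * r * t : ℕ) = j' := by
    rw [hj', ← Finset.mul_sum]
    push_cast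
    field_simp
  rw [e'] at e
  have key : ∀ c ∈ prs A δ, 6 * ((t * d c * Module.finrank k (c.Res (RS A ((n * r * t) • G -
      (n * r * t * j + j₁ * ∑ c ∈ prs A δ, t * d c) • mD A))).1 : ℕ) : ℝ) ≤
      3 * (n * r) ^ 2 * n * t ^ 3 *
        ((c.vq δ * JJ C c.κ ((c.rs (cl D) + j' • c.rs (hh A)) ^ 2) : ℚ) : ℝ) +
      t ^ 2 * ((d c * (6 * (n * r) * K₁ c + 3 * K₂ c) : ℚ) : ℝ) := fun c hc => by
    have b1 := hV₀ c (c.Res (RS A ((n * r * t) • G -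
      (n * r * t * j + j₁ * ∑ c ∈ prs A δ, t * d c) • mD A)))
    rw [B3b_td h3 c, ← c.rs_hh, e, map_smul, map_add, map_smul, add_comm _ (hh (V₀ c)), B3b_sq,
      ← sq (c.rs (cl D) + _), add_mul, smul_mul_assoc, map_add, map_smul, smul_eq_mul,
      mul_comm (c.rs (cl D))] at b1
    have b2 := B3b_mono hC l₂ (c := c) (by
      have e1 := l c (mem_prs.1 hc).1
      have e2 := env_lift hC h3 hA h2 one_pos le_rfl c (mem_prs.1 hc).1
      simp only [map_sub, map_neg] at e1 e2 ⊢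
      linarith only [e1, e2]) (Nef.hh (V₀ c))
    have b3 : 0 ≤ K₂ c := JJ_nonneg2 hC (Nef.hh _) (Nef.hh _)
    have b4 : (1 : ℚ) ≤ t := by exact_mod_cast ht
    have b5 : (0 : ℚ) ≤ t * d c := by positivity
    have b6 := mul_le_mul_of_nonneg_left b1 b5
    have b7 := mul_le_mul_of_nonneg_left b2 (by positivity : (0 : ℚ) ≤ t * d c * (n * r * t))
    have b8 := mul_le_mul_of_nonneg_left b4 (mul_nonneg b5 b3)
    have b9 : (n : ℚ) * (c.vq δ * JJ C c.κ ((c.rs (cl D) + j' • c.rs (hh A)) ^ 2)) =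
        d c * JJ C c.κ ((c.rs (cl D) + j' • c.rs (hh A)) ^ 2) := by rw [hd c hc, mul_assoc]
    have b10 : (6 : ℚ) * (t * d c * Module.finrank k (c.Res (RS A ((n * r * t) • G -
        (n * r * t * j + j₁ * ∑ c ∈ prs A δ, t * d c) • mD A))).1) ≤
        3 * (n * r) ^ 2 * t ^ 3 *
          (n * (c.vq δ * JJ C c.κ ((c.rs (cl D) + j' • c.rs (hh A)) ^ 2))) +
        t ^ 2 * (d c * (6 * (n * r) * K₁ c + 3 * K₂ c)) := by
      rw [b9]
      simp only [K₁, K₂, Nat.factorial_two] at b6 b8 ⊢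
      push_cast at b6
      linarith only [b7, b8, b6]
    have b11 := (Rat.cast_le (K := ℝ)).2 b10
    push_cast at b11 ⊢
    linarith only [b11]
  have a6 := Finset.sum_le_sum key
  rw [Finset.sum_add_distrib, ← Finset.mul_sum _ _ (6 : ℝ), ← Finset.mul_sum _ _ (_ * _ : ℝ),
    ← Finset.mul_sum _ _ ((t : ℝ) ^ 2), ← Nat.cast_sum] at a6
  have a7 := hb _ hm
  have a8 := mul_le_mul_of_nonneg_left (hZ D p l₁ l₂ l)
    (by positivity : (0 : ℝ) ≤ 3 * (n * r) ^ 2 * n * t ^ 3)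
  have a9 := (Nat.cast_le (α := ℝ)).2 a5
  rw [Nat.cast_add] at a9
  rw [Nat.cast_mul, Nat.cast_mul, smul_sub, smul_smul] at a7
  linarith only [a6, a7, a8, a9]

end Pool.Agent.Work.MP_ffcd14_ag.Uni
end

-- merged part: Pool.Agent.Work.MP_ffcd14_ag.Uni.B3d
section
/-! # The main inequality on the base: comparison with the inequality of Siu -/

open MvPolynomial Filter Topology

namespace Pool.Agent.Work.MP_ffcd14_ag.Uni

universe u v w

theorem B3d_lim {a b : ℝ} (h : ∀ᶠ ρ : ℕ in atTop, a * ρ ^ 3 ≤ b * ρ ^ 2) : a ≤ 0 := by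
  by_contra! ha
  obtain ⟨n, hn⟩ := exists_nat_gt (b / a)
  obtain ⟨ρ, h1, h2⟩ := (h.and (eventually_gt_atTop n)).exists
  have h3 : (n : ℝ) < ρ := by exact_mod_cast h2
  have h4 : (0 : ℝ) < ρ := lt_of_le_of_lt n.cast_nonneg h3
  have h5 := mul_lt_mul_of_pos_right ((div_lt_iff₀ ha).1 (hn.trans h3)) (pow_pos h4 2)
  linarith only [h1, h5]

theorem B3d_cube {B : Type*} [CommRing B] [Algebra ℚ B] (ν : B →ₗ[ℚ] ℚ) (P x y z : B)
    (a m n : ℕ) (h : x - y = n • z) :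
    2 * ν ((a • m • P + m • x) ^ 3) - ν ((a • m • P + m • x + m • y) ^ 3) =
      m ^ 3 * (a ^ 3 * ν (P ^ 3) + 3 * a ^ 2 * n * ν (z * (P * P)) + 6 * a * ν (P * x * x) -
        3 * a * ν (P * ((x + y) * (x + y))) + 2 * ν (x * x * x) - ν ((x + y) ^ 3)) := by
  have e : (2 : ℚ) • (a • m • P + m • x) ^ 3 - (a • m • P + m • x + m • y) ^ 3 =
      (m : ℚ) ^ 3 • ((a : ℚ) ^ 3 • P ^ 3 + (3 * a ^ 2 * n : ℚ) • (z * (P * P)) +
        (6 * a : ℚ) • (P * x * x) - (3 * a : ℚ) • (P * ((x + y) * (x + y))) +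
        (2 : ℚ) • (x * x * x) - (x + y) ^ 3) := by
    rw [sub_eq_iff_eq_add.1 h]
    simp only [Algebra.smul_def, map_mul, map_pow, map_ofNat, map_natCast, eq_natCast]
    ring
  have := congrArg ν e
  simpa only [map_sub, map_add, map_smul, smul_eq_mul] using this

theorem B3d_real {x R q α M j C₁ C₂ n r η p v : ℝ} (hn : 0 < n) (hr : 1 ≤ r) (hη : 0 < η)
    (h1 : (n * r) ^ 3 * p + 3 * (n * r) ^ 2 * n * (x + 2 * j * q + j ^ 2 * α) -
      3 * (n * r) * C₁ - C₂ ≤ v * (n * r) ^ 3 + 3 * (n * r) ^ 2 * n *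
        (R + 2 * (j + M / (n * r)) * q + (j + M / (n * r)) ^ 2 * α))
    (h2 : v - η / r ≤ p)
    (h3 : 2 * (|2 * M * n * (q + j * α) + C₁| + |M ^ 2 * α + C₂ / (3 * n)|) ≤ η * n ^ 2 * r) :
    x ≤ R + η := by
  have hr' : 0 < r := by linarith only [hr]
  have a1 := mul_le_mul_of_nonneg_left h2 (by positivity : 0 ≤ (n * r) ^ 3)
  have a2 : (n * r) ^ 3 * (v - η / r) = v * (n * r) ^ 3 - n ^ 3 * r ^ 2 * η := by field_simp
  have a3 : 3 * (n * r) ^ 2 * n * (R + 2 * (j + M / (n * r)) * q + (j + M / (n * r)) ^ 2 * α) =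
      3 * (n * r) ^ 2 * n * (R + 2 * j * q + j ^ 2 * α) + 3 * n * r * (2 * M * n * (q + j * α)) +
        3 * n * (M ^ 2 * α) := by
    field_simp
    ring
  have a4 := mul_le_mul_of_nonneg_left (le_abs_self (2 * M * n * (q + j * α) + C₁))
    (by positivity : 0 ≤ 3 * n * r)
  have a5 := mul_le_mul_of_nonneg_left (le_abs_self (M ^ 2 * α + C₂ / (3 * n)))
    (by positivity : 0 ≤ 3 * n)
  have a6 : 3 * n * (M ^ 2 * α + C₂ / (3 * n)) = 3 * n * (M ^ 2 * α) + C₂ := by field_simp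
  have a7 := mul_le_mul_of_nonneg_left hr
    (by positivity : 0 ≤ 3 * n * |M ^ 2 * α + C₂ / (3 * n)|)
  have a8 := mul_le_mul_of_nonneg_left h3 (by positivity : 0 ≤ 3 * n * r)
  have a9 : 0 < n ^ 3 * r ^ 2 := by positivity
  have a10 := mul_pos a9 hη
  refine le_of_mul_le_mul_left ?_ a9
  linarith only [h1, a1, a2, a3, a4, a5, a6, a7, a8, a10]

variable {k F : Type u} [Field k] [Field F] [Algebra k F]
  {K : Type v} [Field K] [CharZero K] {C : NT.{u, v, w} k K}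
  [IsAlgClosed k] [Fg k F] (hC : C.Chow) (h3 : td k F = 3) {A : FD k F}
  (hA : IntermediateField.adjoin k (rt A) = ⊤) {G : DD k F} {j₁ j₂ : ℕ}
  (h1 : NF A (G - j₁ • mD A)) (h2 : NF A (-G - j₂ • mD A))
include hC h3 hA h1 h2

theorem B3d_siu {δ : DD k F} {n : ℕ} (hn : 0 < n) {U₁ U₂ : FD k F} (hU : n • δ = mD U₂ - mD U₁)
    {j r m : ℕ} (hj : j₁ < j) (hr : 0 < r) (hm : 0 < m) {S B : ℝ}
    (h : ∀ t : ℕ, 0 < t →
      6 * (Module.finrank k (RR A ((n * t) • (r • (G - j • mD A) + δ))) : ℝ) ≤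
        S * t ^ 3 + B * t ^ 2) :
    (n * r) ^ 3 * ((JJ C F ((cl (env A G m j) + j • hh A) ^ 3) : ℚ) : ℝ) + 3 * (n * r) ^ 2 * n *
      ((JJ C F (cl δ * ((cl (env A G m j) + j • hh A) * (cl (env A G m j) + j • hh A))) : ℚ) : ℝ) -
      3 * (n * r) * ((JJ C F ((cl (-env A (-G) 1 j₂) + j • hh A) *
        ((hh U₁ + hh U₂) * (hh U₁ + hh U₂))) : ℚ) : ℝ) -
      ((JJ C F ((hh U₁ + hh U₂) ^ 3) : ℚ) : ℝ) ≤ S := by
  have hW : IntermediateField.adjoin k (rt (RS A (m • (G - j • mD A)) ^ (n * r) * U₁ ^ m)) = ⊤ :=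
    top_le_iff.1 ((env_gen hC h3 hA h1 hm hj).ge.trans (IntermediateField.adjoin.mono _ _ _
      (rt_dvd ((dvd_pow_self _ (by positivity)).mul_right _))))
  have a1 : ∀ c, Pr A c → c.vq (mD (U₂ ^ m) - mD (RS A (m • (G - j • mD A)) ^ (n * r) * U₁ ^ m)) ≤
      c.vq ((n * m) • (r • (G - j • mD A) + δ)) := fun c hc => by
    have b1 := ((h1.le hA hj.le).nsmul m).lift hC h3 hA c hc
    have b2 := congrArg c.vq hU
    rw [mD_mul, mD_pow, mD_pow, mD_pow]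
    generalize G - j • mD A = D at b1 ⊢
    simp only [map_sub, map_add, map_neg, map_nsmul, nsmul_eq_mul] at b1 b2 ⊢
    push_cast
    have b3 : c.vq (mD (RS A (m • D))) = -(m * c.vq D) := by linarith only [b1]
    have b4 : c.vq (mD U₂) = n * c.vq δ + c.vq (mD U₁) := by linarith only [b2]
    rw [b3, b4]
    linarith only []
  have hP : Nef (cl (env A G m j) + j • hh A) := by
    have := (Nef.hh (RS A (m • (G - j • mD A)))).smul (q := (m : ℚ)⁻¹) (by positivity)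
    rwa [B3c_cl A G hm, smul_comm, B3c_inv hm] at this
  have a2 : hh U₁ - hh U₂ = n • cl δ := by
    rw [← map_nsmul, hU, map_sub, cl_mD, cl_mD]
    ring
  have a3 : ((2 * JJ C F (hh (RS A (m • (G - j • mD A)) ^ (n * r) * U₁ ^ m) ^ 3) -
      JJ C F ((hh (RS A (m • (G - j • mD A)) ^ (n * r) * U₁ ^ m) + hh (U₂ ^ m)) ^ 3) : ℚ) : ℝ) ≤
      S * m ^ 3 := le_of_forall_pos_le_add fun ε hε => by
    have := B3d_lim (b := B * m ^ 2) (((siu_finrank hC h3 hA hW a1 hε).and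
      (eventually_gt_atTop 0)).mono fun ρ hρ => (by
        have b1 := h (m * ρ) (mul_pos hm hρ.2)
        have b2 := hρ.1
        rw [mul_assoc n m ρ] at b2
        have b3 := b2.trans b1
        rw [Nat.cast_mul, mul_pow, mul_pow, ← mul_assoc, ← mul_assoc, ← sub_le_iff_le_add',
          ← sub_mul] at b3
        exact b3))
    linarith only [this]
  rw [hh_mul, hh_pow, hh_pow, hh_pow, B3c_cl A G hm, B3d_cube _ _ _ _ _ _ _ _ a2, Rat.cast_mul,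
    Rat.cast_pow, Rat.cast_natCast, mul_comm S] at a3
  have a4 := le_of_mul_le_mul_left a3 (by positivity)
  have a5 := JJ_nonneg3 hC hP (Nef.hh U₁) (Nef.hh U₁)
  have a6 := JJ_nonneg3 hC (Nef.hh U₁) (Nef.hh U₁) (Nef.hh U₁)
  have a7 := JJ_eff2 hC (sub_nonneg.2 (env_le hC h3 hA h1 h2 hm hj.le))
    ((Nef.hh U₁).add (Nef.hh U₂)) ((Nef.hh U₁).add (Nef.hh U₂))
  rw [map_sub, ← add_sub_add_right_eq_sub _ _ (j • hh A), sub_mul, map_sub, sub_nonneg] at a7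
  have a8 := mul_le_mul_of_nonneg_left ((Rat.cast_le (K := ℝ)).2 a7)
    (by positivity : (0 : ℝ) ≤ n * r)
  have a9 := mul_nonneg (by positivity : (0 : ℝ) ≤ n * r) ((Rat.cast_nonneg (K := ℝ)).2 a5)
  have a10 := (Rat.cast_nonneg (K := ℝ)).2 a6
  push_cast at a4
  linarith only [a8, a9, a10, a4]

theorem B3d_key {δ : DD k F} (hδ : cl δ ∈ Dat A) (h0 : 0 ≤ δ) (hG : IntP A G)
    {Cc : Dv k F → DD k F}
    (hCc : ∀ c ∈ prs A δ, c.vq (Cc c) = 1 ∧ ∀ c', Pr A c' → c' ≠ c → c'.vq (Cc c) = 0)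
    (hN : ∀ c ∈ prs A δ, NF A (-Cc c - j₁ • mD A)) {j : ℕ} (hj : j₁ < j) {R : ℝ}
    (hR : ∀ D : DD k F, PN A D → env A G 1 j₁ ≤ D → D ≤ -env A (-G) 1 j₂ → D - G ∈ XC A →
      ∀ j' : ℚ, j ≤ j' →
      ∑ c ∈ prs A δ, ((c.vq δ * JJ C c.κ ((c.rs (cl D) + j' • c.rs (hh A)) ^ 2) : ℚ) : ℝ) ≤
        R + 2 * j' * QQ C A (hh A) G δ + j' ^ 2 * (JJ C F (hh A * hh A * cl δ) : ℚ))
    {η : ℝ} (hη : 0 < η) : ∃ m₀ : ℕ, 0 < m₀ ∧ ∀ m, 0 < m → m₀ ∣ m →
      ((JJ C F (cl δ * cl (env A G m j) * cl (env A G m j)) : ℚ) : ℝ) ≤ R + η := by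
  obtain ⟨n, U₂, U₁, hn, hU⟩ := δ.rep
  have hd : ∀ c : Dv k F, ∃ d : ℕ, (d : ℚ) = n * c.vq δ := fun c => by
    have b1 := congrArg c.vq hU
    rw [map_nsmul, map_sub, c.vq_mD, c.vq_mD, nsmul_eq_mul, ← Int.cast_sub] at b1
    have b2 : 0 ≤ c.vq δ := by simpa using c.vq_mono h0
    have b3 : (0 : ℚ) ≤ (c.mz U₂ - c.mz U₁ : ℤ) := b1 ▸ by positivity
    obtain ⟨d, hd⟩ := Int.eq_ofNat_of_zero_le (Int.cast_nonneg_iff.1 b3)
    exact ⟨d, by rw [b1, hd, Int.cast_natCast]⟩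
  choose d hd using hd
  obtain ⟨M, hM⟩ : ∃ M : ℕ, M = j₁ * ∑ c ∈ prs A δ, d c := ⟨_, rfl⟩
  obtain ⟨r, hr⟩ := exists_nat_gt (2 * (|2 * (M : ℝ) * n * (QQ C A (hh A) G δ +
    j * (JJ C F (hh A * hh A * cl δ) : ℚ)) + (JJ C F ((cl (-env A (-G) 1 j₂) + j • hh A) *
      ((hh U₁ + hh U₂) * (hh U₁ + hh U₂))) : ℚ)| + |(M : ℝ) ^ 2 *
        (JJ C F (hh A * hh A * cl δ) : ℚ) + (JJ C F ((hh U₁ + hh U₂) ^ 3) : ℚ) / (3 * n)|) /
          (η * n ^ 2))
  have hr0 : 0 < r := Nat.cast_pos.1 (lt_of_le_of_lt (by positivity) hr)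
  rw [div_lt_iff₀' (by positivity)] at hr
  obtain ⟨B, hB⟩ := B3c_count hC h3 hA h1 h2 hG hCc hN hn (fun c _ => hd c) hj.le hr0
    (j' := j + M / (n * r)) (by rw [hM, Nat.cast_mul]) fun D p l₁ l₂ l =>
      hR D p l₁ l₂ l _ (le_add_of_nonneg_right (by positivity))
  obtain ⟨m₀, hm₀, hv⟩ := env_vol hC h3 hA h1 hj.le (ε := η / r) (by positivity)
  refine ⟨m₀, hm₀, fun m hm hm' => ?_⟩
  have a1 := B3d_siu hC h3 hA h1 h2 hn hU hj hr0 hm hB
  have a2 := B3b_dh hC h3 hA hδ (env_lift hC h3 hA h1 hm hj.le)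
  have a3 : cl δ * ((cl (env A G m j) + j • hh A) * (cl (env A G m j) + j • hh A)) =
      cl δ * cl (env A G m j) * cl (env A G m j) + (2 * j) • (cl δ * hh A * cl (env A G m j)) +
        (j ^ 2) • (hh A * hh A * cl δ) := by
    simp only [nsmul_eq_mul]
    push_cast
    ring
  rw [a3, map_add (JJ C F), map_add (JJ C F), map_nsmul, map_nsmul, nsmul_eq_mul (2 * j),
    nsmul_eq_mul (j ^ 2)] at a1
  push_cast at a1
  rw [a2] at a1
  exact B3d_real (by positivity) (by exact_mod_cast hr0) hη a1 (hv m hm hm') hr.le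

end Pool.Agent.Work.MP_ffcd14_ag.Uni
end

-- merged part: Pool.Agent.Work.MP_ffcd14_ag.Uni.B3
section
/-! # The main inequality on the base -/

open MvPolynomial Filter Topology

namespace Pool.Agent.Work.MP_ffcd14_ag.Uni

universe u v w

variable {k F : Type u} [Field k] [Field F] [Algebra k F]
  {K : Type v} [Field K] [CharZero K] {C : NT.{u, v, w} k K}
  [IsAlgClosed k] [Fg k F] (hC : C.Chow) (h3 : td k F = 3) {A : FD k F}
  (hA : IntermediateField.adjoin k (rt A) = ⊤)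
include hC h3 hA

theorem B3_int {δ : DD k F} (hδ : cl δ ∈ Dat A) (h0 : 0 ≤ δ) {W : ∀ c : Dv k F, N k c.κ}
    (hW : ∀ c ∈ prs A δ, W c ∈ N1 k c.κ) {θ : DD k F →ₗ[ℚ] ℚ}
    (hθ : ∀ X ∈ XC A, θ X = 0) (hθ' : Appr C A δ W θ) {Λ : N k F} (hΛ : Λ ∈ Dat A)
    {G : DD k F} (hG : IntP A G) (lam : Dv k F → ℚ) {Gc : Dv k F → DD k F}
    (hGc : ∀ c ∈ prs A δ, c.vq (Gc c) = c.vq δ ∧ ∀ c', Pr A c' → c' ≠ c → c'.vq (Gc c) = 0) :
    QQ C A (cl δ) G G ≤ B3R C A δ W θ Λ G lam Gc := by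
  choose Cc hCc using fun c : Dv k F => exists_part A c 1
  have hC' : ∀ c, IntP A (-Cc c) := fun c c' hc' => by
    rcases eq_or_ne c' c with rfl | h
    · exact ⟨-1, by rw [map_neg, (hCc c').1, Int.cast_neg, Int.cast_one]⟩
    · exact ⟨0, by rw [map_neg, (hCc c).2 c' hc' h, neg_zero, Int.cast_zero]⟩
  choose jc hjc using fun c => exists_NF hA (hC' c)
  obtain ⟨j', h1'⟩ := exists_NF hA hG
  obtain ⟨j₂, h2⟩ := exists_NF hA (G := -G) fun c hc => by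
    obtain ⟨z, hz⟩ := hG c hc
    exact ⟨-z, by rw [map_neg, hz, Int.cast_neg]⟩
  obtain ⟨j₁, hj₁⟩ : ∃ j₁, j₁ = j' + ∑ c ∈ prs A δ, jc c := ⟨_, rfl⟩
  have h1 := h1'.le hA (j' := j₁) (by omega)
  have hN : ∀ c ∈ prs A δ, NF A (-Cc c - j₁ • mD A) := fun c hc => (hjc c).le hA (by
    have := Finset.single_le_sum (f := jc) (fun _ _ => Nat.zero_le _) hc
    omega)
  obtain ⟨j₀, hj₀⟩ := B3b_surf hC h3 hA hδ h0 hW hθ hθ' hΛ G lam hGc (env_PN A G 1 j₁)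
    (D₂ := -env A (-G) 1 j₂) (by rw [neg_neg]; exact env_PN A (-G) 1 j₂)
    (env_lift hC h3 hA h1 one_pos le_rfl) (by
      have := neg_mem (env_lift hC h3 hA h2 one_pos le_rfl)
      rwa [sub_neg_eq_add, neg_add, ← sub_eq_add_neg] at this)
  refine le_of_forall_pos_le_add fun η hη => ?_
  choose m₀ hm₀ hm using fun i : ℕ => B3d_key hC h3 hA h1 h2 hδ h0 hG (fun c _ => hCc c) hN
    (j := j₁ + i + (j₀ + 1)) (by omega) (fun D p l₁ l₂ l j hj => hj₀ D p l₁ l₂ l j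
      (le_trans (by exact_mod_cast (by omega)) hj)) hη
  have hp : ∀ i, 0 < m₀ i * i.factorial := fun i => mul_pos (hm₀ i) i.factorial_pos
  have hg := env_good' hC h3 hA h1 (m := fun i => m₀ i * i.factorial)
    (j := fun i => j₁ + i + (j₀ + 1)) (fun i => ⟨hp i, dvd_mul_left _ _⟩)
    fun i => Nat.le_add_right _ _
  have hl := env_lift hC h3 hA h1 (hp 0) (j := j₁ + 0 + (j₀ + 1)) (by omega)
  exact le_of_tendsto' (QQ_spec hC h3 hA _ hδ _ _ G G hg hg hl hl) fun i =>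
    hm i _ (hp i) (dvd_mul_right _ _)

theorem base_ineq {δ : DD k F} (hδ : cl δ ∈ Dat A) (h0 : 0 ≤ δ) {W : ∀ c : Dv k F, N k c.κ}
    (hW : ∀ c ∈ prs A δ, W c ∈ N1 k c.κ) {θ : DD k F →ₗ[ℚ] ℚ}
    (hθ : ∀ X ∈ XC A, θ X = 0) (hθ' : Appr C A δ W θ) {Λ : N k F} (hΛ : Λ ∈ Dat A)
    (G : DD k F) (lam : Dv k F → ℚ) {Gc : Dv k F → DD k F}
    (hGc : ∀ c ∈ prs A δ, c.vq (Gc c) = c.vq δ ∧ ∀ c', Pr A c' → c' ≠ c → c'.vq (Gc c) = 0) :
    QQ C A (cl δ) G G + 2 * (θ G : ℝ) + 2 * ∑ c ∈ prs A δ, (lam c : ℝ) * QQ C A Λ G (Gc c) +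
        ∑ c ∈ prs A δ, ((c.vq δ * JJ C c.κ ((W c + lam c • c.rs Λ) * (W c + lam c • c.rs Λ)) :
          ℚ) : ℝ) ≤
      ∑ c ∈ prs A δ, (QQ C A (hh A) G (Gc c) +
        ((c.vq δ * JJ C c.κ ((W c + lam c • c.rs Λ) * c.rs (hh A)) : ℚ) : ℝ)) ^ 2 /
          ((c.vq δ * JJ C c.κ (c.rs (hh A * hh A)) : ℚ) : ℝ) := by
  obtain ⟨n, hn, hG⟩ := exists_intP A G
  have hn' : (0 : ℚ) < n := by exact_mod_cast hn
  have h := B3_int hC h3 hA hδ h0 (W := fun c => (n : ℚ) • W c)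
    (fun c hc => Submodule.smul_mem _ _ (hW c hc)) (θ := (n : ℚ) • θ)
    (fun X hX => by rw [LinearMap.smul_apply, hθ X hX, smul_zero]) (fun D₁ Ξ a b c => by
      obtain ⟨c₀, hc₀⟩ := hθ' D₁ Ξ a b c
      refine ⟨n * c₀, fun D p l₁ l₂ => ?_⟩
      have := mul_le_mul_of_nonneg_left (hc₀ D p l₁ l₂) hn'.le
      rw [← mul_assoc, ← abs_of_pos hn', ← abs_mul, abs_of_pos hn', mul_sub, Finset.mul_sum] at this
      simpa only [LinearMap.smul_apply, smul_mul_assoc, map_smul, smul_eq_mul, mul_left_comm _ (n : ℚ)]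
        using this) hΛ hG (fun c => n * lam c) hGc
  have e : B3R C A δ (fun c => (n : ℚ) • W c) ((n : ℚ) • θ) Λ (n • G) (fun c => n * lam c) Gc =
      n ^ 2 * B3R C A δ W θ Λ G lam Gc := by
    simp only [B3R, mul_sub, Finset.mul_sum, mul_smul, ← smul_add, map_nsmul, LinearMap.smul_apply,
      smul_mul_assoc, mul_smul_comm, map_smul]
    simp only [smul_eq_mul, nsmul_eq_mul]
    push_cast
    congr 1
    · congr 1
      · congr 1
        · exact Finset.sum_congr rfl fun c _ => by ring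
        · ring
      · exact Finset.sum_congr rfl fun c _ => by ring
    · exact Finset.sum_congr rfl fun c _ => by ring
  rw [e, map_nsmul, map_nsmul, LinearMap.smul_apply, smul_smul, nsmul_eq_mul, Nat.cast_mul,
    ← sq] at h
  have h' := le_of_mul_le_mul_left h (by positivity)
  rw [B3R] at h'
  linarith only [h']

end Pool.Agent.Work.MP_ffcd14_ag.Uni
end

-- merged part: Pool.Agent.Work.MP_ffcd14_ag.Uni.Z2
section
/-! # The limit of the intersection numbers along good sequences -/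

open MvPolynomial Filter Topology

namespace Pool.Agent.Work.MP_ffcd14_ag.Uni

universe u v w

variable {k F L : Type u} [Field k] [Field F] [Field L] [Algebra k F] [Algebra k L]
  {K : Type v} [Field K] [CharZero K] {C : NT.{u, v, w} k K} {P : Amb}
  {ι : F →ₐ[k] L} {t : L} {V : FD k L} (τ : Tree ι t V) (A : FD k F)

namespace Tree

/-- The parameters of a sequence of divisors. -/
abbrev Par : Type u := ℚ × (ℕ → DD k F) × (τ.Cl → ℚ) × (τ.Cl → Dv k F → ℚ)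

variable (G : ℕ → τ.Cl → Dv k F → DD k F)

/-- The divisor as a linear function of the parameters. -/
noncomputable def dvL (n : ℕ) : τ.Par →ₗ[ℚ] DD k L where
  toFun p := τ.dv A (G n) p.1 (p.2.1 n) p.2.2.1 p.2.2.2
  map_add' p q := by
    simp only [dv, Prod.fst_add, Prod.snd_add, Pi.add_apply, add_smul, map_add,
      Finset.sum_add_distrib]
    abel
  map_smul' c p := by
    simp only [dv, Prod.smul_fst, Prod.smul_snd, Pi.smul_apply, smul_eq_mul, mul_smul, map_smul,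
      RingHom.id_apply, smul_add, smul_neg, Finset.smul_sum]

/-- The divisor below a tail. -/
noncomputable def eeL (S : τ.Cl) : τ.Par →ₗ[ℚ] ℕ → DD k F where
  toFun p n := τ.ee A (G n) p.2.2.1 p.2.2.2 S
  map_add' p q := funext fun n => by
    simp only [ee, Prod.fst_add, Prod.snd_add, Pi.add_apply, add_smul, Finset.sum_add_distrib]
    abel
  map_smul' c p := funext fun n => by
    simp only [ee, Prod.smul_fst, Prod.smul_snd, Pi.smul_apply, smul_eq_mul, mul_smul,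
      RingHom.id_apply, smul_add, Finset.smul_sum]

/-- The coefficient of the section. -/
noncomputable def g1L : τ.Par →ₗ[ℚ] ℕ → DD k F :=
  (LinearMap.fst ℚ _ _).smulRight (fun _ => -τ.g0 - τ.d • τ.h0) +
    τ.d • (LinearMap.fst ℚ _ _ ∘ₗ LinearMap.snd ℚ _ _) + ∑ S, τ.nS S • τ.eeL A G S

/-- The coefficient of a tail. -/
noncomputable def gSL (Lt : τ.Cl → DD k F) (m : τ.Cl → τ.Cl → ℚ) (S : τ.Cl) :
    τ.Par →ₗ[ℚ] ℕ → DD k F :=
  (LinearMap.fst ℚ _ _).smulRight (fun _ => τ.nS S • τ.h0) -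
    τ.nS S • (LinearMap.fst ℚ _ _ ∘ₗ LinearMap.snd ℚ _ _) +
    (LinearMap.proj S ∘ₗ LinearMap.fst ℚ _ _ ∘ₗ LinearMap.snd ℚ _ _ ∘ₗ
      LinearMap.snd ℚ _ _).smulRight (fun _ => Lt S) + ∑ S', m S' S • τ.eeL A G S'

theorem g1L_apply (p : τ.Par) (n : ℕ) :
    τ.g1L A G p n = τ.g1 A (G n) p.1 (p.2.1 n) p.2.2.1 p.2.2.2 := by
  simp [g1L, g1, eeL]

theorem gSL_apply (Lt : τ.Cl → DD k F) (m : τ.Cl → τ.Cl → ℚ) (S : τ.Cl) (p : τ.Par) (n : ℕ) :
    τ.gSL A G Lt m S p n = τ.gS A (G n) Lt m p.1 (p.2.1 n) p.2.2.1 p.2.2.2 S := by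
  simp [gSL, gS, eeL, mul_smul]

variable {τ A G}

/-- A space of sequences which contains the data of the tree. -/
structure Cn (τ : Tree ι t V) (A : FD k F) (G : ℕ → τ.Cl → Dv k F → DD k F) (Lt : τ.Cl → DD k F)
    (B : Submodule ℚ (ℕ → DD k F)) : Prop where
  g0 : (fun _ => τ.g0) ∈ B
  h0 : (fun _ => τ.h0) ∈ B
  dl : ∀ S, (fun _ => τ.dl S) ∈ B
  lt : ∀ S, (fun _ => Lt S) ∈ B
  gc : ∀ S, ∀ c ∈ prs A (τ.dl S), (fun n => G n S c) ∈ B

variable {Lt : τ.Cl → DD k F} {B : Submodule ℚ (ℕ → DD k F)}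

theorem Cn.ee (h : Cn τ A G Lt B) (S : τ.Cl) (p : τ.Par) : τ.eeL A G S p ∈ B := by
  have : τ.eeL A G S p = p.2.2.1 S • (fun _ => τ.dl S) +
      ∑ c ∈ prs A (τ.dl S), p.2.2.2 S c • fun n => G n S c := by
    funext n
    simp [eeL, Tree.ee]
  rw [this]
  exact B.add_mem (B.smul_mem _ (h.dl S)) (B.sum_mem fun c hc => B.smul_mem _ (h.gc S c hc))

theorem Cn.g1 (h : Cn τ A G Lt B) {p : τ.Par} (hp : p.2.1 ∈ B) : τ.g1L A G p ∈ B := by
  simp only [g1L, LinearMap.add_apply, LinearMap.sum_apply, LinearMap.smul_apply]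
  exact B.add_mem (B.add_mem (B.smul_mem _ (B.sub_mem (B.neg_mem h.g0) (B.smul_mem _ h.h0)))
    (B.smul_mem _ hp)) (B.sum_mem fun S _ => B.smul_mem _ (h.ee S p))

theorem Cn.gS (h : Cn τ A G Lt B) (m : τ.Cl → τ.Cl → ℚ) (S : τ.Cl) {p : τ.Par} (hp : p.2.1 ∈ B) :
    τ.gSL A G Lt m S p ∈ B := by
  simp only [gSL, LinearMap.add_apply, LinearMap.sub_apply, LinearMap.sum_apply,
    LinearMap.smul_apply]
  exact B.add_mem (B.add_mem (B.sub_mem (B.smul_mem _ (B.smul_mem _ h.h0)) (B.smul_mem _ hp))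
    (B.smul_mem _ (h.lt S))) (B.sum_mem fun S _ => B.smul_mem _ (h.ee S p))

variable [IsAlgClosed k] [Fg k F] [Fg k L] (hC : C.Chow) (h3 : td k F = 3)
include hC h3

omit [Fg k L] in
theorem tq (hA : IntermediateField.adjoin k (rt A) = ⊤) {Λ : N k F} (hΛ : Λ ∈ Dat A)
    {D D' : ℕ → DD k F} (h : Good C A D) (h' : Good C A D') :
    Tendsto (fun n => ((JJ C F (Λ * cl (D n) * cl (D' n)) : ℚ) : ℝ)) atTop
      (𝓝 (QQ C A Λ (D 0) (D' 0))) :=
  QQ_spec hC h3 hA Λ hΛ D D' _ _ h h' (by simp) (by simp)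

variable {Vη : FD k L} {Λ : τ.Cl → N k F} {m : τ.Cl → τ.Cl → ℚ} (ht : Simp ι t)
  (M : τ.Mod A Vη Λ m) (hG : ∀ n, τ.Lv A (G n)) (hL : ∀ S, cl (Lt S) = Λ S)
  (hB : Cn τ A G Lt B) (hg : ∀ D ∈ B, Good C A D)
include ht M hG hL hB hg

theorem lim_q {p p' : τ.Par} (hp : p.2.1 ∈ B) (hp' : p'.2.1 ∈ B) :
    Tendsto (fun n => ((JJ C L (hh V * pb ι (hh A) * cl (τ.dvL A G n p) * cl (τ.dvL A G n p')) :
      ℚ) : ℝ)) atTop (𝓝 (-(p'.1 * QQ C A (cl τ.g0) (p.2.1 0) (-mD A)) +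
        QQ C A (hh A) (p'.2.1 0) (τ.g1L A G p 0) +
        p'.1 * QQ C A τ.ka (τ.g1L A G p 0) (-mD A) -
      ∑ S, (p'.2.2.1 S * QQ C A (cl (τ.dl S)) (τ.gSL A G Lt m S p 0) (-mD A) +
        ∑ c ∈ prs A (τ.dl S), (p'.2.2.2 S c * QQ C A (hh A) (τ.gSL A G Lt m S p 0) (G 0 S c) +
          p.2.2.2 S c * p'.2.2.1 S * QQ C A (Λ S) (-mD A) (G 0 S c) +
          p.2.2.2 S c * p'.2.2.2 S c *
            (c.vq (τ.dl S) * JJ C c.κ (c.rs (Λ S) * c.rs (hh A)) : ℚ))))) := by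
  have hA : hh A ∈ Dat A := hh_dat dvd_rfl
  have ea : hh A = cl (-mD A) := by rw [map_neg, cl_mD, neg_neg]
  have ga : Good C A fun _ => -mD A := good_dat hC h3 M.gen (ea ▸ hA)
  have e : ∀ n, JJ C L (hh V * pb ι (hh A) * cl (τ.dvL A G n p) * cl (τ.dvL A G n p')) =
      -(p'.1 * JJ C F (cl τ.g0 * cl (p.2.1 n) * cl (-mD A))) +
        JJ C F (hh A * cl (p'.2.1 n) * cl (τ.g1L A G p n)) +
        p'.1 * JJ C F (τ.ka * cl (τ.g1L A G p n) * cl (-mD A)) -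
      ∑ S, (p'.2.2.1 S * JJ C F (cl (τ.dl S) * cl (τ.gSL A G Lt m S p n) * cl (-mD A)) +
        ∑ c ∈ prs A (τ.dl S), (p'.2.2.2 S c *
          JJ C F (hh A * cl (τ.gSL A G Lt m S p n) * cl (G n S c)) +
          p.2.2.2 S c * p'.2.2.1 S * JJ C F (Λ S * cl (-mD A) * cl (G n S c)) +
          p.2.2.2 S c * p'.2.2.2 S c *
            (c.vq (τ.dl S) * JJ C c.κ (c.rs (Λ S) * c.rs (hh A))))) := fun n => by
    rw [mul_assoc, mul_mul_mul_comm]
    simp only [dvL, LinearMap.coe_mk, AddHom.coe_mk]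
    rw [ell_dv ht M (hG n) hL, pb_dv, jj_nf hC ht h3 (hG n) _ _ _ _ _ _
      (fun S c => Submodule.smul_mem _ _ (M.lam S)) fun S c => Submodule.smul_mem _ _ hA]
    simp only [g1L_apply, gSL_apply, ← ea, mul_smul_comm, smul_mul_assoc, map_smul, smul_eq_mul,
      neg_mul, map_neg, mul_neg, mul_assoc, mul_left_comm (Dv.vq _ _),
      mul_left_comm (p'.2.2.1 _) (p.2.2.2 _ _), mul_left_comm (p'.2.2.2 _ _) (p.2.2.2 _ _)]
  simp only [e]
  push_cast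
  have t := fun {Λ'} (h : Λ' ∈ Dat A) {D D'} => tq hC h3 M.gen h (D := D) (D' := D')
  refine ((((t M.g0 (hg _ hp) ga).const_mul _).neg.add (t hA (hg _ hp') (hg _ (hB.g1 hp)))).add
    ((t M.ka (hg _ (hB.g1 hp)) ga).const_mul _)).sub (tendsto_finsetSum _ fun S _ =>
      ((t (M.dl S) (hg _ (hB.gS m S hp)) ga).const_mul _).add (tendsto_finsetSum _ fun c hc => ?_))
  exact (((t hA (hg _ (hB.gS m S hp)) (hg _ (hB.gc S c hc))).const_mul _).add
    ((t (M.lam S) ga (hg _ (hB.gc S c hc))).const_mul _)).add tendsto_const_nhds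

theorem lim_z {p : τ.Par} (hp : p.2.1 ∈ B) :
    Tendsto (fun n => ((JJ C L (hh V * hh V * cl (τ.dvL A G n p) * cl (τ.dvL A G n p)) : ℚ) : ℝ))
      atTop (𝓝 (-(2 * QQ C A (cl τ.g0) (p.2.1 0) (τ.g1L A G p 0)) +
        QQ C A τ.ka (τ.g1L A G p 0) (τ.g1L A G p 0) -
      ∑ S, (QQ C A (cl (τ.dl S)) (τ.gSL A G Lt m S p 0) (τ.gSL A G Lt m S p 0) +
        ∑ c ∈ prs A (τ.dl S), (2 * p.2.2.2 S c * QQ C A (Λ S) (τ.gSL A G Lt m S p 0) (G 0 S c) +
          p.2.2.2 S c ^ 2 * (c.vq (τ.dl S) * JJ C c.κ (c.rs (Λ S) * c.rs (Λ S)) : ℚ))))) := by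
  have e : ∀ n, JJ C L (hh V * hh V * cl (τ.dvL A G n p) * cl (τ.dvL A G n p)) =
      -(2 * JJ C F (cl τ.g0 * cl (p.2.1 n) * cl (τ.g1L A G p n))) +
        JJ C F (τ.ka * cl (τ.g1L A G p n) * cl (τ.g1L A G p n)) -
      ∑ S, (JJ C F (cl (τ.dl S) * cl (τ.gSL A G Lt m S p n) * cl (τ.gSL A G Lt m S p n)) +
        ∑ c ∈ prs A (τ.dl S), (2 * p.2.2.2 S c *
          JJ C F (Λ S * cl (τ.gSL A G Lt m S p n) * cl (G n S c)) +
          p.2.2.2 S c ^ 2 * (c.vq (τ.dl S) * JJ C c.κ (c.rs (Λ S) * c.rs (Λ S))))) := fun n => by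
    rw [mul_assoc, mul_mul_mul_comm]
    simp only [dvL, LinearMap.coe_mk, AddHom.coe_mk]
    rw [ell_dv ht M (hG n) hL, jj_nf hC ht h3 (hG n) _ _ _ _ _ _
      (fun S c => Submodule.smul_mem _ _ (M.lam S)) fun S c => Submodule.smul_mem _ _ (M.lam S)]
    simp only [g1L_apply, gSL_apply, mul_smul_comm, smul_mul_assoc, map_smul, smul_eq_mul,
      neg_mul, map_neg]
    congr 1
    · ring
    · refine Finset.sum_congr rfl fun S _ => congrArg _ (Finset.sum_congr rfl fun c _ => ?_)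
      ring
  simp only [e]
  push_cast
  have t := fun {Λ'} (h : Λ' ∈ Dat A) {D D'} => tq hC h3 M.gen h (D := D) (D' := D')
  refine (((t M.g0 (hg _ hp) (hg _ (hB.g1 hp))).const_mul _).neg.add
    (t M.ka (hg _ (hB.g1 hp)) (hg _ (hB.g1 hp)))).sub (tendsto_finsetSum _ fun S _ =>
      (t (M.dl S) (hg _ (hB.gS m S hp)) (hg _ (hB.gS m S hp))).add
        (tendsto_finsetSum _ fun c hc => ?_))
  exact ((t (M.lam S) (hg _ (hB.gS m S hp)) (hg _ (hB.gc S c hc))).const_mul _).add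
    tendsto_const_nhds

end Tree

end Pool.Agent.Work.MP_ffcd14_ag.Uni
end
end

-- merged part: Pool.Agent.Work.MP_ffcd14_ag.Uni.Z6
section
-- merged part: Pool.Agent.Work.MP_ffcd14_ag.Uni.Z3
section
/-! # The functionals defined by a primitive class and the main estimate -/

open MvPolynomial Filter Topology

namespace Pool.Agent.Work.MP_ffcd14_ag.Uni

universe u v w

variable {k F L : Type u} [Field k] [Field F] [Field L] [Algebra k F] [Algebra k L]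
  {K : Type v} [Field K] [CharZero K] {C : NT.{u, v, w} k K} {P : Amb}
  {ι : F →ₐ[k] L} {t : L} {V : FD k L} {τ : Tree ι t V} {A : FD k F}
  {X : Var k P} {x : P.V → L} {y : EE C X} {v : DD k F} {W : τ.Cl → ∀ c : Dv k F, N k c.κ}
  [IsAlgClosed k] [Fg k F]

namespace Tree

theorem y_nf (St : Star C τ A X x y v W) {G : τ.Cl → Dv k F → DD k F} (hG : τ.Lv A G)
    (g₂ g₁ : N k F) (u : τ.Cl → N k F) {w : τ.Cl → Dv k F → N k F} (hw : ∀ S c, w S c ∈ Dat A) :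
    II C X x y (τ.nf A G g₂ g₁ u w) = II C X x y (pb ι g₂) + II C X x y (τ.xi * pb ι g₁) +
      ∑ S, (II C X x y (cl (τ.TT S) * pb ι (u S)) +
        ∑ c ∈ prs A (τ.dl S), c.vq (τ.dl S) * JJ C c.κ (W S c * c.rs (w S c))) := by
  simp only [nf, tl, map_add, map_sum, mul_comm (pb ι g₁), mul_comm _ (cl (τ.TT _))]
  refine congrArg _ (Finset.sum_congr rfl fun S _ => congrArg _
    (Finset.sum_congr rfl fun c hc => ?_))
  rw [St.tail S _ (hw S c) _ (hG S c hc).1 (hG S c hc).2.1, Finset.sum_eq_single_of_mem c hc,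
    (hG S c hc).2.2.1]
  intro c' hc' h
  rw [(hG S c hc).2.2.2 c' (mem_prs.1 hc').1 h, zero_mul]

variable [Fg k L] (hC : C.Chow) (h3 : td k F = 3) {Vη : FD k L} {Λ : τ.Cl → N k F}
  {m : τ.Cl → τ.Cl → ℚ} (M : τ.Mod A Vη Λ m) (St : Star C τ A X x y v W)
include hC h3 M St

omit [Fg k L] in
theorem y_pb {Λ' : N k F} (h : Λ' ∈ Dat A) (H : DD k F) :
    (II C X x y (pb ι (Λ' * cl H)) : ℝ) = QQ C A Λ' v H := by
  rw [St.exact _ h _ (cl_mem H), QQ_const hC h3 M.gen h St.good]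

omit [Fg k L] in
theorem y_xi (H : DD k F) :
    (τ.d : ℝ) * th C ι X x y τ.xi H = QQ C A (cl τ.g0) v H + II C X x y (hh V * pb ι (cl H)) +
      ∑ S, (τ.nS S : ℝ) * th C ι X x y (cl (τ.TT S)) H := by
  obtain ⟨e, h⟩ : ∃ e, II C X x y (hh V * pb ι (cl H)) = e := ⟨_, rfl⟩
  rw [h]
  rw [τ.hh_eq, sub_mul, add_mul, Finset.sum_mul, neg_mul, ← map_mul] at h
  simp only [smul_mul_assoc, map_sub, map_add, map_neg, map_sum, map_smul, smul_eq_mul] at h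
  rw [← y_pb hC h3 M St M.g0]
  simp only [th_apply]
  norm_cast
  linarith only [h]

variable {G : ℕ → τ.Cl → Dv k F → DD k F} (hG : ∀ n, τ.Lv A (G n))
include hG

omit [Fg k L] in
theorem y_A (p : τ.Par) (n : ℕ) : (II C X x y (pb ι (hh A) * cl (τ.dvL A G n p)) : ℝ) =
    QQ C A (hh A) v (p.2.1 n) + p.1 * II C X x y (τ.xi * pb ι (hh A)) +
      ∑ S, (p.2.2.1 S * II C X x y (cl (τ.TT S) * pb ι (hh A)) + ∑ c ∈ prs A (τ.dl S),
        p.2.2.2 S c * (c.vq (τ.dl S) * JJ C c.κ (W S c * c.rs (hh A)) : ℚ) : ℝ) := by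
  have hA : hh A ∈ Dat A := hh_dat dvd_rfl
  simp only [dvL, LinearMap.coe_mk, AddHom.coe_mk]
  rw [pb_dv, y_nf St (hG n) _ _ _ fun S c => Submodule.smul_mem _ _ hA, ← y_pb hC h3 M St hA]
  simp only [map_smul, mul_smul_comm, smul_eq_mul, mul_left_comm (Dv.vq _ _)]
  norm_cast

variable (ht : Simp ι t) {Lt : τ.Cl → DD k F} (hL : ∀ S, cl (Lt S) = Λ S)
include ht hL

omit [Fg k L] in
theorem y_z (p : τ.Par) : QQ C A (cl τ.g0) v (p.2.1 0) +
    II C X x y (hh V * cl (τ.dvL A G 0 p)) = th C ι X x y τ.xi (τ.g1L A G p 0) + ∑ S, (th C ι X x y (cl (τ.TT S)) (τ.gSL A G Lt m S p 0) + ∑ c ∈ prs A (τ.dl S),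
      p.2.2.2 S c * (c.vq (τ.dl S) * JJ C c.κ (W S c * c.rs (Λ S)) : ℚ) : ℝ) := by
  obtain ⟨e, h⟩ : ∃ e, II C X x y (hh V * cl (τ.dvL A G 0 p)) = e := ⟨_, rfl⟩
  rw [h]
  simp only [dvL, LinearMap.coe_mk, AddHom.coe_mk] at h
  rw [ell_dv ht M (hG 0) hL, y_nf St (hG 0) _ _ _ fun S c => Submodule.smul_mem _ _ (M.lam S)] at h
  simp only [map_smul, mul_smul_comm, smul_eq_mul, mul_left_comm (Dv.vq _ _), map_neg] at h
  rw [← y_pb hC h3 M St M.g0]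
  simp only [th_apply, g1L_apply, gSL_apply]
  norm_cast
  linarith only [h]

/-- The main estimate. -/
theorem est (hd : τ.d ≠ 0) (p : τ.Par) (V' : DD k F) (hV : V' = v - τ.g1L A G p 0) (Z : ℝ)
    (hZ : -(2 * QQ C A (cl τ.g0) (p.2.1 0) (τ.g1L A G p 0)) +
        QQ C A τ.ka (τ.g1L A G p 0) (τ.g1L A G p 0) -
      ∑ S, (QQ C A (cl (τ.dl S)) (τ.gSL A G Lt m S p 0) (τ.gSL A G Lt m S p 0) +
        ∑ c ∈ prs A (τ.dl S), (2 * p.2.2.2 S c * QQ C A (Λ S) (τ.gSL A G Lt m S p 0) (G 0 S c) +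
          p.2.2.2 S c ^ 2 * (c.vq (τ.dl S) * JJ C c.κ (c.rs (Λ S) * c.rs (Λ S)) : ℚ))) ≤ Z) :
    2 / τ.d * (QQ C A (cl τ.g0) V' v + II C X x y (hh V * pb ι (cl V'))) +
      2 * QQ C A (cl τ.g0) V' (p.2.1 0) - QQ C A τ.ka V' v -
      QQ C A τ.ka V' (τ.g1L A G p 0) - (Z - 2 * II C X x y (hh V * cl (τ.dvL A G 0 p))) -
      ∑ S, (2 * (τ.nS S / τ.d) * QQ C A (cl (τ.dl S)) V' (τ.gSL A G Lt m S p 0) -
        (τ.nS S / τ.d) ^ 2 * (QQ C A (cl (τ.dl S)) V' v - QQ C A (cl (τ.dl S)) V' (τ.g1L A G p 0)) +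
        ∑ c ∈ prs A (τ.dl S), (2 * (τ.nS S / τ.d) * QQ C A (Λ S) V' (p.2.2.2 S c • G 0 S c) +
          (QQ C A (hh A) (τ.gSL A G Lt m S p 0) (G 0 S c) +
            p.2.2.2 S c * (c.vq (τ.dl S) * JJ C c.κ (c.rs (Λ S) * c.rs (hh A)) : ℚ) +
            (c.vq (τ.dl S) * JJ C c.κ (W S c * c.rs (hh A)) : ℚ) -
            τ.nS S / τ.d * QQ C A (hh A) V' (G 0 S c)) ^ 2 /
          ((c.vq (τ.dl S) * JJ C c.κ (c.rs (hh A * hh A)) : ℚ) : ℝ))) ≤ II C X x (y * y) 1 := by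
  have hA : hh A ∈ Dat A := hh_dat dvd_rfl
  have sy := fun {Λ'} (h : Λ' ∈ Dat A) => QQ_symm hC h3 M.gen h
  have hd' : (τ.d : ℝ) ≠ 0 := by exact_mod_cast hd
  have e1 := y_xi hC h3 M St V'
  have e2 := y_z hC h3 M St hG ht hL p
  have e3 : (II C X x (y * y) 1 : ℝ) = 2 * th C ι X x y τ.xi v - QQ C A τ.ka v v -
      ∑ S, ∑ c ∈ prs A (τ.dl S), ((c.vq (τ.dl S) * JJ C c.κ (W S c * W S c) : ℚ) : ℝ) := by
    rw [St.sq, QQ_const hC h3 M.gen M.ka St.good, th_apply]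
    norm_cast
  have e4 : ∀ S, QQ C A (cl (τ.dl S)) (τ.gSL A G Lt m S p 0) (τ.gSL A G Lt m S p 0) +
      ∑ c ∈ prs A (τ.dl S), (2 * p.2.2.2 S c * QQ C A (Λ S) (τ.gSL A G Lt m S p 0) (G 0 S c) +
        p.2.2.2 S c ^ 2 * (c.vq (τ.dl S) * JJ C c.κ (c.rs (Λ S) * c.rs (Λ S)) : ℚ)) +
      2 * (th C ι X x y (cl (τ.TT S)) (τ.gSL A G Lt m S p 0) + ∑ c ∈ prs A (τ.dl S),
        p.2.2.2 S c * (c.vq (τ.dl S) * JJ C c.κ (W S c * c.rs (Λ S)) : ℚ) : ℝ) +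
      ∑ c ∈ prs A (τ.dl S), ((c.vq (τ.dl S) * JJ C c.κ (W S c * W S c) : ℚ) : ℝ) -
      2 / τ.d * (τ.nS S * th C ι X x y (cl (τ.TT S)) V') ≤
      2 * (τ.nS S / τ.d) * QQ C A (cl (τ.dl S)) V' (τ.gSL A G Lt m S p 0) -
        (τ.nS S / τ.d) ^ 2 * (QQ C A (cl (τ.dl S)) V' v - QQ C A (cl (τ.dl S)) V' (τ.g1L A G p 0)) +
        ∑ c ∈ prs A (τ.dl S), (2 * (τ.nS S / τ.d) * QQ C A (Λ S) V' (p.2.2.2 S c • G 0 S c) +
          (QQ C A (hh A) (τ.gSL A G Lt m S p 0) (G 0 S c) +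
            p.2.2.2 S c * (c.vq (τ.dl S) * JJ C c.κ (c.rs (Λ S) * c.rs (hh A)) : ℚ) +
            (c.vq (τ.dl S) * JJ C c.κ (W S c * c.rs (hh A)) : ℚ) -
            τ.nS S / τ.d * QQ C A (hh A) V' (G 0 S c)) ^ 2 /
          ((c.vq (τ.dl S) * JJ C c.κ (c.rs (hh A * hh A)) : ℚ) : ℝ)) := fun S => by
    have b := base_ineq hC h3 M.gen (M.dl S) (τ.dl_nonneg S) (fun c _ => St.mem S c) (St.exc S)
      (St.appr S) (M.lam S) (τ.gSL A G Lt m S p 0 - (τ.nS S / τ.d) • V') (p.2.2.2 S)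
      fun c hc => (hG 0 S c hc).2.2
    have f : QQ C A (cl (τ.dl S)) V' v - QQ C A (cl (τ.dl S)) V' (τ.g1L A G p 0) =
        QQ C A (cl (τ.dl S)) V' V' := by rw [← map_sub, ← hV]
    rw [f]
    simp only [map_sub, map_smul, LinearMap.sub_apply, LinearMap.smul_apply, Rat.smul_def, add_mul,
      mul_add, smul_mul_assoc, mul_smul_comm, map_add, smul_eq_mul, mul_comm (Dv.rs _ (Λ S)) (W S _),
      sy (M.dl S) (τ.gSL A G Lt m S p 0) V'] at b ⊢
    push_cast at b ⊢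
    simp only [Finset.sum_add_distrib, Finset.mul_sum, mul_sub, Finset.sum_sub_distrib] at b ⊢
    have r : ∀ a b c d : ℝ, (a - b + (c + d)) ^ 2 = (a + d + c - b) ^ 2 := by intros; ring
    simp only [mul_assoc, ← Finset.mul_sum, mul_left_comm (p.2.2.2 S _ : ℝ) (τ.nS S / τ.d : ℝ), r,
      mul_left_comm ((Dv.vq _ _ : ℚ) : ℝ) (p.2.2.2 S _ : ℝ), sq (p.2.2.2 S _ : ℝ)] at b ⊢
    refine le_of_sub_nonneg (le_of_le_of_eq (sub_nonneg.2 b) ?_)
    ring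
  have e5 := Finset.sum_le_sum fun S (_ : S ∈ Finset.univ) => e4 S
  rw [Finset.sum_sub_distrib, Finset.sum_add_distrib, Finset.sum_add_distrib, ← Finset.mul_sum,
    ← Finset.mul_sum] at e5
  have e6 : 2 / τ.d * (QQ C A (cl τ.g0) V' v + II C X x y (hh V * pb ι (cl V'))) =
      2 * th C ι X x y τ.xi V' -
      2 / τ.d * ∑ S, (τ.nS S : ℝ) * th C ι X x y (cl (τ.TT S)) V' := by
    rw [sy M.g0 V', ← sub_eq_iff_eq_add.2 e1]
    field_simp
  have e7 : (th C ι X x y τ.xi V' : ℝ) = th C ι X x y τ.xi v -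
      th C ι X x y τ.xi (τ.g1L A G p 0) := by rw [hV, map_sub, Rat.cast_sub]
  have e8 : QQ C A (cl τ.g0) V' (p.2.1 0) = QQ C A (cl τ.g0) v (p.2.1 0) -
      QQ C A (cl τ.g0) (p.2.1 0) (τ.g1L A G p 0) := by
    rw [hV, map_sub, LinearMap.sub_apply, sy M.g0 (p.2.1 0)]
  have e9 : QQ C A τ.ka V' v + QQ C A τ.ka V' (τ.g1L A G p 0) = QQ C A τ.ka v v -
      QQ C A τ.ka (τ.g1L A G p 0) (τ.g1L A G p 0) := by
    rw [hV, map_sub, LinearMap.sub_apply, LinearMap.sub_apply, sy M.ka v (τ.g1L A G p 0)]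
    ring
  linarith only [hZ, e2, e3, e5, e6, e7, e8, e9]

end Tree

end Pool.Agent.Work.MP_ffcd14_ag.Uni
end

-- merged part: Pool.Agent.Work.MP_ffcd14_ag.Uni.Z0
section
/-! # Approximate solutions of a real symmetric system on a rational vector space -/

open Filter Topology

namespace Pool.Agent.Work.MP_ffcd14_ag.Uni

variable {M : Type*} [AddCommGroup M] [Module ℚ M]

/-- All real linear functionals converge along `x`. -/
def Cv (x : ℕ → M) : Prop := ∀ f : M →ₗ[ℚ] ℝ, ∃ r, Tendsto (fun i => f (x i)) atTop (𝓝 r)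

theorem Cv.diag [FiniteDimensional ℚ M] {x : ℕ → M} (h : Cv x) {ρ : ℕ → M →ₗ[ℚ] ℝ}
    (hρ : ∀ y, Tendsto (fun i => ρ i y) atTop (𝓝 0)) :
    Tendsto (fun i => ρ i (x i)) atTop (𝓝 0) := by
  let b := Module.finBasis ℚ M
  have e : ∀ i, ρ i (x i) = ∑ j, (Algebra.linearMap ℚ ℝ ∘ₗ b.coord j) (x i) * ρ i (b j) := by
    intro i
    conv_lhs => rw [← b.sum_repr (x i), map_sum]
    simp [Rat.smul_def]
  simp only [e]
  have : Tendsto (fun i => ∑ j, (Algebra.linearMap ℚ ℝ ∘ₗ b.coord j) (x i) * ρ i (b j)) atTop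
      (𝓝 (∑ _j : Fin (Module.finrank ℚ M), (0 : ℝ))) := by
    refine tendsto_finsetSum _ fun j _ => ?_
    obtain ⟨r, hr⟩ := h (Algebra.linearMap ℚ ℝ ∘ₗ b.coord j)
    simpa using hr.mul (hρ (b j))
  simpa using this

theorem Z0_rep {W : Type*} [AddCommGroup W] [Module ℝ W] [FiniteDimensional ℝ W]
    (P : W →ₗ[ℝ] W →ₗ[ℝ] ℝ) (hP : ∀ x y, P x y = P y x) (l : W →ₗ[ℝ] ℝ)
    (h : ∀ x, P x = 0 → l x = 0) : ∃ y, P y = l := by
  have h1 : l ∈ (LinearMap.ker P).dualAnnihilator :=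
    (Submodule.mem_dualAnnihilator l).2 fun x hx => h x hx
  rw [← LinearMap.range_dualMap_eq_dualAnnihilator_ker] at h1
  obtain ⟨z, hz⟩ := h1
  obtain ⟨y, rfl⟩ := (Module.evalEquiv ℝ W).surjective z
  refine ⟨y, ?_⟩
  rw [← hz]
  ext x
  simp [hP y x]

theorem exists_sol [FiniteDimensional ℚ M] (q : M →ₗ[ℚ] M →ₗ[ℚ] ℝ) (hq : ∀ x y, q x y = q y x)
    (φ : M →ₗ[ℚ] ℝ) (l : M) (c e : ℝ) (h : ∀ x, φ x ^ 2 ≤ c * (2 * q x l ^ 2 / e - q x x)) :
    ∃ x, Cv x ∧ ∀ y, Tendsto (fun i => q (x i) y) atTop (𝓝 (φ y)) := by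
  let b := Module.finBasis ℚ M
  let n := Module.finrank ℚ M
  let ex : (M →ₗ[ℚ] ℝ) → (Fin n → ℝ) →ₗ[ℝ] ℝ := fun f => Fintype.linearCombination ℝ fun j => f (b j)
  let cs : (Fin n → ℚ) → Fin n → ℝ := fun r j => r j
  have hex : ∀ f r, ex f (cs r) = f (∑ j, r j • b j) := fun f r => by
    simp [ex, cs, Fintype.linearCombination_apply, Rat.smul_def]
  let P : (Fin n → ℝ) →ₗ[ℝ] (Fin n → ℝ) →ₗ[ℝ] ℝ :=
    Fintype.linearCombination ℝ fun j => ex (q (b j))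
  have hP : ∀ ξ η, P ξ η = ∑ j, ∑ j', ξ j * η j' * q (b j) (b j') := fun ξ η => by
    simp [P, ex, Fintype.linearCombination_apply, Finset.mul_sum, mul_assoc]
  have hPs : ∀ ξ η, P ξ η = P η ξ := fun ξ η => by
    rw [hP, hP, Finset.sum_comm]
    refine Finset.sum_congr rfl fun j _ => Finset.sum_congr rfl fun j' _ => ?_
    rw [hq (b j'), mul_comm (ξ j')]
  have hPc : ∀ r r', P (cs r) (cs r') = q (∑ j, r j • b j) (∑ j, r' j • b j) := fun r r' => by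
    rw [hP]
    simp only [map_sum, map_smul, LinearMap.sum_apply, LinearMap.smul_apply, Rat.smul_def, cs,
      Finset.mul_sum]
    rw [Finset.sum_comm]
    refine Finset.sum_congr rfl fun j _ => Finset.sum_congr rfl fun j' _ => ?_
    ring
  have hd : DenseRange cs := DenseRange.piMap fun _ => Rat.denseRange_cast
  have hc : ∀ f : (Fin n → ℝ) →ₗ[ℝ] ℝ, Continuous f := fun f => f.continuous_of_finiteDimensional
  have hcP : Continuous fun ξ => P ξ ξ := by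
    simp only [hP]
    fun_prop
  have key : ∀ ξ, ex φ ξ ^ 2 ≤ c * (2 * P.flip (cs (b.repr l)) ξ ^ 2 / e - P ξ ξ) := by
    intro ξ
    refine hd.induction_on ξ (isClosed_le ((hc _).pow 2) (continuous_const.mul
      (((continuous_const.mul ((hc _).pow 2)).div_const e).sub hcP))) fun r => ?_
    rw [hex, LinearMap.flip_apply, hPc, hPc, b.sum_repr]
    exact h _
  obtain ⟨ξ, hξ⟩ := Z0_rep P hPs (ex φ) fun ξ h0 => by
    have := key ξ
    rw [LinearMap.flip_apply, h0] at this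
    simpa using this
  obtain ⟨u, hu, hl⟩ := mem_closure_iff_seq_limit.1 (hd ξ)
  choose r hr using hu
  refine ⟨fun i => ∑ j, r i j • b j, fun f => ⟨ex f ξ, ?_⟩, fun y => ?_⟩
  · simp only [← hex, hr]
    exact ((hc _).tendsto ξ).comp hl
  · have e1 : φ y = P.flip (cs (b.repr y)) ξ := by
      rw [LinearMap.flip_apply, hξ, hex, b.sum_repr]
    have e2 : ∀ i, q (∑ j, r i j • b j) y = P.flip (cs (b.repr y)) (u i) := fun i => by
      rw [LinearMap.flip_apply, ← hr, hPc, b.sum_repr]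
    simp only [e1, e2]
    exact ((hc _).tendsto ξ).comp hl

theorem exists_lim₂ (q : ℕ → M →ₗ[ℚ] M →ₗ[ℚ] ℚ)
    (h : ∀ x y, ∃ r : ℝ, Tendsto (fun n => (q n x y : ℝ)) atTop (𝓝 r)) :
    ∃ Q : M →ₗ[ℚ] M →ₗ[ℚ] ℝ, ∀ x y, Tendsto (fun n => (q n x y : ℝ)) atTop (𝓝 (Q x y)) := by
  choose Q hQ using h
  refine ⟨LinearMap.mk₂ ℚ Q (fun x x' y => ?_) (fun c x y => ?_) (fun x y y' => ?_)
    fun c x y => ?_, hQ⟩
  · exact tendsto_nhds_unique (hQ _ _) (by simpa using (hQ x y).add (hQ x' y))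
  · exact tendsto_nhds_unique (hQ _ _) (by simpa [Rat.smul_def] using (hQ x y).const_mul (c : ℝ))
  · exact tendsto_nhds_unique (hQ _ _) (by simpa using (hQ x y).add (hQ x y'))
  · exact tendsto_nhds_unique (hQ _ _) (by simpa [Rat.smul_def] using (hQ x y).const_mul (c : ℝ))

end Pool.Agent.Work.MP_ffcd14_ag.Uni
end

-- merged part: Pool.Agent.Work.MP_ffcd14_ag.Uni.BCa
section
/-! # Auxiliary results for the bound on a class of codimension two -/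

open MvPolynomial

namespace Pool.Agent.Work.MP_ffcd14_ag.Uni

universe u v w

section Alg
variable {B : Type*} [CommRing B] [Algebra ℚ B]

theorem BC_nrm {ν : B →ₗ[ℚ] ℚ} {S : Submodule ℚ B} {ω y z : B} (h : RCS ν S ω) (hy : y ∈ S)
    (h1 : 0 < ν (ω * y * y)) (hz : z ∈ S) : 0 ≤ nrm ν ω y z :=
  (abs_nonneg _).trans (nrm_nonneg h hy h1 hz)

theorem BC_alg {ν : B →ₗ[ℚ] ℚ} {S : Submodule ℚ B} {ω₁ ω₂ η l z : B} {M : ℚ} (hM : 0 < M)
    (h₁ : RCS ν S ω₁) (h₂ : RCS ν S ω₂) (hl : l ∈ S) (hz : z ∈ S) (h0 : 0 < ν (ω₁ * l * l))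
    (hη : ω₂ = M • ω₁ - η) (hll : ν (η * l * l) = 0) : ∃ c : ℚ, 0 ≤ c ∧ ∀ D ∈ S,
      ν (η * l * D) = 0 → ν (η * D * D) = 0 → ν (η * z * D) ^ 2 ≤ c * nrm ν ω₁ l D := by
  have key : ∀ p q, ν (ω₂ * p * q) = M * ν (ω₁ * p * q) - ν (η * p * q) := fun p q => by
    rw [hη, sub_mul, sub_mul, map_sub, smul_mul_assoc, smul_mul_assoc, map_smul, smul_eq_mul]
  have h0' : 0 < ν (ω₂ * l * l) := by
    rw [key, hll, sub_zero]
    positivity
  have n1 := BC_nrm h₁ hl h0 hz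
  have n2 := BC_nrm h₂ hl h0' hz
  refine ⟨2 * M ^ 2 * nrm ν ω₁ l z + 2 * M * nrm ν ω₂ l z, by positivity, fun D hD e1 e2 => ?_⟩
  have a := nrm_cs h₁ hl h0 hz hD
  have b := nrm_cs h₂ hl h0' hz hD
  have e : nrm ν ω₂ l D = M * nrm ν ω₁ l D := by
    simp only [nrm, key, e1, e2, hll, sub_zero]
    field_simp
  rw [e, key] at b
  linarith only [b, a, mul_le_mul_of_nonneg_left a (sq_nonneg M),
    sq_nonneg (2 * M * ν (ω₁ * z * D) - ν (η * z * D)), sq_nonneg ((2 : ℚ) * M * ν (ω₁ * z * D) - ν (η * z * D)), sq_nonneg M]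

/-- The functions whose square is bounded by a multiple of `n`. -/
def BCbd {T : Type*} (n : T → ℚ) (hn : ∀ t, 0 ≤ n t) : Submodule ℚ (T → ℚ) where
  carrier := {f | ∃ c : ℚ, 0 ≤ c ∧ ∀ t, f t ^ 2 ≤ c * n t}
  zero_mem' := ⟨0, le_rfl, fun t => by simp⟩
  add_mem' := by
    rintro f g ⟨c, hc, hf⟩ ⟨d, hd, hg⟩
    refine ⟨2 * c + 2 * d, by positivity, fun t => ?_⟩
    have := hn t
    rw [Pi.add_apply]
    nlinarith [hf t, hg t, sq_nonneg (f t - g t)]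
  smul_mem' := by
    rintro q f ⟨c, hc, hf⟩
    refine ⟨q ^ 2 * c, by positivity, fun t => ?_⟩
    rw [Pi.smul_apply, smul_eq_mul, mul_pow, mul_assoc]
    exact mul_le_mul_of_nonneg_left (hf t) (sq_nonneg q)

end Alg

variable {k L : Type u} [Field k] [Field L] [Algebra k L]
  {K : Type v} [Field K] [CharZero K] {P P' P₁ P₂ Q : Amb} {C : NT.{u, v, w} k K}

/-- The polynomials in the classes of the blocks of `w`. -/
noncomputable def BCalg (k : Type u) [Field k] [Algebra k L] (w : P.V → L) :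
    Subalgebra ℚ (N k L) := Algebra.adjoin ℚ (Set.range fun i => hh (blk k w i))

theorem BC_blk (w : P.V → L) (i : P.ι) : hh (blk k w i) ∈ BCalg k w :=
  Algebra.subset_adjoin ⟨i, rfl⟩

theorem BC_sys (w : P.V → L) (a : P.ι →₀ ℕ) : hh (sys k w a) ∈ BCalg k w := by
  rw [hh_sys]
  exact sum_mem fun i _ => nsmul_mem (BC_blk w i) _

theorem BC_aeval (w : P.V → L) (p : MvPolynomial P.ι ℚ) :
    aeval (fun i => hh (blk k w i)) p ∈ BCalg k w := by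
  rw [BCalg, Algebra.adjoin_range_eq_range_aeval]
  exact ⟨p, rfl⟩

theorem BC_poly {w : P.V → L} {r : N k L} (hr : r ∈ BCalg k w) :
    ∃ p : MvPolynomial P.ι ℚ, aeval (fun i => hh (blk k w i)) p = r := by
  rwa [BCalg, Algebra.adjoin_range_eq_range_aeval] at hr

theorem BC_le {w : P'.V → L} (hw : NZ w) (β : Crd k P P') : BCalg k (w ∘ β.ε) ≤ BCalg k w := by
  refine Algebra.adjoin_le ?_
  rintro _ ⟨i, rfl⟩
  simp only [blk_comp hw]
  exact BC_blk w _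

theorem BC_rs_aeval {w : P.V → L} (hw : NZ w) (ν : Dv k L) (p : MvPolynomial P.ι ℚ) :
    ν.rs (aeval (fun i => hh (blk k w i)) p) = aeval (fun i => hh (blk k (rpt ν w) i)) p := by
  rw [← AlgHom.comp_apply, comp_aeval]
  simp only [ν.rs_hh, blk_rpt hw]

theorem BC_rs {w : P.V → L} (hw : NZ w) (ν : Dv k L) {r : N k L} (hr : r ∈ BCalg k w) :
    ν.rs r ∈ BCalg k (rpt ν w) := by
  obtain ⟨p, rfl⟩ := BC_poly hr
  exact (BC_rs_aeval hw ν p).symm ▸ BC_aeval _ p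

theorem BC_sys_add (w : P.V → L) (a b : P.ι →₀ ℕ) :
    sys k w (a + b) = sys k w a * sys k w b :=
  Finsupp.prod_add_index' (fun _ => pow_zero _) fun _ _ _ => pow_add _ _ _

theorem BC_sys_smul (w : P.V → L) (n : ℕ) (a : P.ι →₀ ℕ) : sys k w (n • a) = sys k w a ^ n := by
  induction n with
  | zero => rw [zero_smul, pow_zero]; rfl
  | succ n ih => rw [succ_nsmul, BC_sys_add, ih, pow_succ]

theorem BC_ones (P : Amb) : ∃ b : P.ι →₀ ℕ, ∀ i, 0 < b i :=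
  ⟨Finsupp.equivFunOnFinite.symm fun _ => 1, fun _ => Nat.one_pos⟩

theorem BC_rat {w : P.V → L} (hw : NZ w) {a : P.ι →₀ ℕ} (ha : ∀ i, 0 < a i) :
    rat w ⊆ rt (sys k w a) := rat_subset hw fun i => blk_dvd_sys w (ha i)

theorem BC_data {J : Type} [Fintype J] {D : J → N k L} (hD : ∀ j, D j ∈ N1 k L) :
    ∃ (m : ℕ) (V : Fin m → FD k L) (μ : J → Fin m → ℚ), ∀ j, D j = ∑ i, μ j i • hh (V i) := by
  classical
  have h : ∀ j, ∃ s : Finset (FD k L), D j ∈ Submodule.span ℚ (hh '' (s : Set (FD k L))) := by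
    intro j
    have := hD j
    rw [N1_eq, Finsupp.mem_span_range_iff_exists_finsupp] at this
    obtain ⟨c, hc⟩ := this
    exact ⟨c.support, hc ▸ sum_mem fun V hV =>
      Submodule.smul_mem _ _ (Submodule.subset_span ⟨V, hV, rfl⟩)⟩
  choose s hs using h
  set t := Finset.univ.biUnion s
  have h2 : ∀ j, ∃ μ : Fin t.card → ℚ, ∑ i, μ i • hh (t.equivFin.symm i).1 = D j := fun j => by
    refine (Submodule.mem_span_range_iff_exists_fun ℚ).1 (Submodule.span_mono ?_ (hs j))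
    rintro _ ⟨V, hV, rfl⟩
    exact ⟨t.equivFin ⟨V, Finset.mem_biUnion.2 ⟨j, Finset.mem_univ _, hV⟩⟩, by simp⟩
  choose μ hμ using h2
  exact ⟨_, _, μ, fun j => (hμ j).symm⟩

theorem BC_model (A : FD k L) {J : Type} [Fintype J] {D : J → N k L} (hD : ∀ j, D j ∈ N1 k L) :
    ∃ (Q : Amb) (u : Q.V → L), NZ u ∧ hh A ∈ BCalg k u ∧ ∀ j, D j ∈ BCalg k u := by
  obtain ⟨m, V, μ, hV⟩ := BC_data hD
  obtain ⟨σ, _, u, nu, eu⟩ := exists_coords fun o : Option (Fin m) => o.elim A V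
  have h : ∀ o : Option (Fin m), hh (o.elim A V) ∈ BCalg k u := fun o => eu o ▸ BC_blk u o
  exact ⟨_, u, nu, h none, fun j => hV j ▸ sum_mem fun i _ => Subalgebra.smul_mem _ (h (some i)) _⟩

/-- The b-divisor defined by the forms `g` of degree `a`. -/
noncomputable def BCdiv (x : P.V → L) {κ : Type} (g : κ → MvPolynomial P.V k) (a : P.ι →₀ ℕ) :
    DD k L := mD (FD.sp fun s => aeval x (g s)) - mD (sys k x a)

section Div
variable {x : P.V → L} (hx : NZ x) {κ : Type} [Fintype κ] {g : κ → MvPolynomial P.V k}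
  {a : P.ι →₀ ℕ} {S : Sub k P} (hg : Cuts (S : Set (P.Pt k)) g a) (h0 : ∃ s, aeval x (g s) ≠ 0)
include hx hg h0

theorem BC_div_nonneg : 0 ≤ BCdiv x g a := fun v => by
  refine sub_nonneg.2 (mn_anti ?_ v)
  rw [FD.sp_val h0, Submodule.span_le]
  rintro _ ⟨s, rfl⟩
  exact (mem_sys hx).2 ⟨_, hg.form s, rfl⟩

theorem BC_div_supp [IsAlgClosed k] {ν : Dv k L} (h : ν.vq (BCdiv x g a) ≠ 0) :
    OnS (S : Set (P.Pt k)) (rpt ν x) := by
  have h1 : mn (sys k x a) ν.toVl < mn (FD.sp fun s => aeval x (g s)) ν.toVl := by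
    refine lt_of_le_of_ne (sub_nonneg.1 (BC_div_nonneg hx hg h0 ν.toVl)) fun e => h ?_
    have h2 := ν.vq_cast (BCdiv x g a)
    rw [BCdiv, DD.sub_apply, mD_apply, mD_apply, e, sub_self] at h2
    exact_mod_cast h2
  obtain ⟨T, hT⟩ := exists_isGen (k := k) (hx.rpt ν)
  refine (onS_iff hT S.isClosed).2 fun z hz => hg.mem S.isClosed fun s => ?_
  refine (hT.iff _ _ (hg.form s)).1 ((aeval_rpt_eq_zero hx ν (hg.form s)).2 ?_) z hz
  refine or_iff_not_imp_left.2 fun h3 => h1.trans_le (mn_le _ _ ?_ h3)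
  rw [FD.sp_val h0]
  exact Submodule.subset_span ⟨s, rfl⟩

end Div

variable [IsAlgClosed k]

theorem BC_gp {Ω : Var k P'} {X : Var k P} (ρ : Prj Ω X) {𝒵 : Set (Sub k P')} (h𝒵 : 𝒵.Finite)
    (h : ∀ Z ∈ 𝒵, (Z : Set (P'.Pt k)) ⊆ Ω.pts) : ∃ 𝓕 : Set (Sub k P), 𝓕.Finite ∧
      (∀ F ∈ 𝓕, (F : Set (P.Pt k)) ⊆ X.pts) ∧ ∀ (S : Sub k P) (n : ℕ), sdim S + n = X.dim →
        (∀ F ∈ 𝓕, ∀ U, U ≤ S → U ≤ F → sdim U + X.dim ≤ sdim S + sdim F) →
        ∀ Z ∈ 𝒵, ∀ V ≤ Z, ρ.img V ≤ S → sdim V + n ≤ sdim Z := by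
  choose 𝓖 g1 g2 g3 using fun Z : Sub k P' => ρ.gp Z
  have himg : ∀ Z ∈ 𝒵, (ρ.img Z : Set (P.Pt k)) ⊆ X.pts := fun Z hZ => n1_img_sub ρ (h Z hZ)
  refine ⟨⋃ Z ∈ 𝒵, insert (ρ.img Z) (𝓖 Z), h𝒵.biUnion fun Z _ => (g1 Z).insert _,
    fun F hF => ?_, fun S n d1 d2 Z hZ V hV hVS => ?_⟩
  · simp only [Set.mem_iUnion] at hF
    obtain ⟨Z, hZ, rfl | hF⟩ := hF
    · exact himg Z hZ
    · exact Set.Subset.trans (g2 Z F hF) (himg Z hZ)
  rcases g3 Z V hV with e | ⟨F, hF, e1, e2⟩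
  · have := d2 (ρ.img Z) (Set.mem_biUnion hZ (Set.mem_insert _ _)) _ hVS (Crd.img_mono _ hV)
    omega
  · have := d2 F (Set.mem_biUnion hZ (Set.mem_insert_of_mem _ hF)) _ hVS e1
    omega

theorem BC_genpos (hC : C.Cyc) {Ω₁ : Var k P₁} {Ω₂ : Var k P₂} {X : Var k P}
    (hX : IsIrreducible X.pts) (ρ₁ : Prj Ω₁ X) (ρ₂ : Prj Ω₂ X) {𝒵 : Set (Sub k P₁)}
    (h𝒵 : 𝒵.Finite) (h : ∀ Z ∈ 𝒵, (Z : Set (P₁.Pt k)) ⊆ Ω₁.pts) {Z₂ : Sub k P₂}
    (h₂ : (Z₂ : Set (P₂.Pt k)) ⊆ Ω₂.pts) {n : ℕ} {y : EE C X} (hy : y ∈ AA C X n) :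
    y ∈ CS C X fun S => sdim S + n = X.dim ∧
      (∀ Z ∈ 𝒵, ∀ V ≤ Z, ρ₁.img V ≤ S → sdim V + n ≤ sdim Z) ∧
      ∀ V ≤ Z₂, ρ₂.img V ≤ S → sdim V + n ≤ sdim Z₂ := by
  obtain ⟨𝓕₁, f1, s1, k1⟩ := BC_gp ρ₁ h𝒵 h
  obtain ⟨𝓕₂, f2, s2, k2⟩ := BC_gp ρ₂ (Set.finite_singleton Z₂) fun Z hZ => hZ ▸ h₂
  rw [AA_eq_CS C X hX] at hy
  refine Submodule.span_le.2 ?_ hy
  rintro _ ⟨S, hS, dS, rfl⟩
  refine Submodule.span_mono ?_
    (mv_move hC X hX hS (f1.union f2) fun F hF => hF.elim (s1 F) (s2 F))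
  rintro _ ⟨S', hS', ⟨d1, d2⟩, rfl⟩
  have d : sdim S' + n = X.dim := by omega
  exact ⟨S', hS', ⟨d, k1 S' n d fun F hF => d2 F (Or.inl hF),
    k2 S' n d (fun F hF => d2 F (Or.inr hF)) Z₂ rfl⟩, rfl⟩

/-- The reduction of a point lies on a subvariety of small dimension. -/
theorem BC_rank {w : P'.V → L} (hw : NZ w) (β : Crd k P P') {Z : Sub k P'} {S : Sub k P}
    (hZ : OnS (Z : Set (P'.Pt k)) w) (hS : OnS (S : Set (P.Pt k)) (w ∘ β.ε)) {m : ℕ}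
    (h : ∀ V ≤ Z, β.img V ≤ S → sdim V ≤ m) : rn k (rat w) ≤ m := by
  obtain ⟨V, hV⟩ := exists_isGen (k := k) hw
  rw [rn_rat hV]
  exact h V ((onS_iff hV Z.isClosed).1 hZ) ((onS_iff (β.isGen_img hV) S.isClosed).1 hS)

variable [Fg k L]

theorem BC_van (hC : C.Chow) {w : P.V → L} (h : rn k (rat w) < td k L) {r : N k L}
    (hr : r ∈ BCalg k w) : JJ C L r = 0 := by
  refine JJ_van1 hC (s := IntermediateField.adjoin k (rat w)) (by rwa [rn_adjoin])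
    (Algebra.adjoin_mono ?_ hr)
  rintro _ ⟨i, rfl⟩
  exact Submodule.subset_span ⟨_, rt_blk w i, rfl⟩

/-- A prime divisor of the blow-up which lies over `U`. -/
theorem BC_lift {w : P'.V → L} {Z U : Sub k P'} (hZ : IsGen (Z : Set (P'.Pt k)) w)
    (hd : sdim Z = td k L) (β : Crd k P P') {S : Sub k P} {κ : Type} [Fintype κ]
    {g : κ → MvPolynomial P.V k} {a : P.ι →₀ ℕ} (hg : Cuts (S : Set (P.Pt k)) g a)
    (h0 : ∃ s, aeval (w ∘ β.ε) (g s) ≠ 0) (hU : U ≤ Z) (hS : β.img U ≤ S)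
    (hgp : ∀ V ≤ Z, β.img V ≤ S → sdim V ≤ sdim U) :
    ∃ ν : Dv k L, IsGen (U : Set (P'.Pt k)) (rpt ν w) ∧ rn k (rat (rpt ν (Amb.elim w
      fun s : (Amb.one κ).V => aeval (w ∘ β.ε) (g s.2)))) + 1 = td k L := by
  set w₃ : (P'.sum (Amb.one κ)).V → L := Amb.elim w
    fun s : (Amb.one κ).V => aeval (w ∘ β.ε) (g s.2) with hw₃
  have n3 : NZ w₃ := NZ.elim hZ.ne fun _ => h0
  obtain ⟨Z₃, h3⟩ := exists_isGen (k := k) n3
  set π := Crd.inl k P' (Amb.one κ)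
  have e3 : π.img Z₃ = Z := (π.isGen_img h3).unique hZ
  have d3 : sdim Z₃ = td k L :=
    le_antisymm (rn_rat h3 ▸ rn_le_td _) (hd ▸ e3 ▸ π.sdim_img_le Z₃)
  obtain ⟨T', hT', eT'⟩ := MP_ffcd14_ag.exists_over (Z' := Z₃) (T := U) (e3.symm ▸ hU)
  obtain ⟨ς, hς⟩ := Dim_chart T'
  have hj := exists_inCh_iff.1 hς (Sum.inr ())
  set j : κ := ς (Sum.inr ())
  set γ := fun s => rename (β.comp π).ε (g s) with hγ
  have fγ : ∀ s, IsForm (γ s) _ := fun s => (β.comp π).form (hg.form s)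
  have fX : ∀ s : κ, IsForm (X ⟨Sum.inr (), s⟩ : MvPolynomial (P'.sum (Amb.one κ)).V k) _ :=
    fun s => IsForm.X _
  have eγ : ∀ s, aeval w₃ (γ s) = w₃ ⟨Sum.inr (), s⟩ := fun s => by
    rw [hγ, aeval_rename]
    rfl
  have v1 : ¬ Van (Z₃ : Set ((P'.sum (Amb.one κ)).Pt k)) (γ j) := fun h => hj
    (num2_van_mono hT' ((h3.iff _ _ (fX j)).1
      (by rw [aeval_X, ← eγ]; exact (h3.iff _ _ (fγ j)).2 h)))
  have v2 : Van (T' : Set ((P'.sum (Amb.one κ)).Pt k)) (γ j) := by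
    refine ((β.comp π).van_img (hg.form j)).1 ?_
    rw [Crd.img_comp, eT']
    exact num2_van_mono hS (hg.van j)
  obtain ⟨T, t1, t2, t3, t4⟩ := krg hT' (fγ j) v1 v2
  have v3 : ∀ s, Van (T : Set ((P'.sum (Amb.one κ)).Pt k)) (γ s) := fun s => by
    have h4 : Van (Z₃ : Set ((P'.sum (Amb.one κ)).Pt k))
        (γ s * X ⟨Sum.inr (), j⟩ - γ j * X ⟨Sum.inr (), s⟩) := by
      refine (h3.iff _ _ (((fγ s).mul (fX j)).sub ((fγ j).mul (fX s)))).1 ?_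
      rw [map_sub, map_mul, map_mul, aeval_X, aeval_X, eγ, eγ, mul_comm, sub_self]
    exact (Van.mul (fγ s) (fX j) (num2_van_cancel (num2_van_mono t2 h4) t3)).resolve_right
      fun h => hj (num2_van_mono t1 h)
  have s1 : β.img (π.img T) ≤ S := by
    rw [← Crd.img_comp]
    exact ((β.comp π).img_sub S.isClosed).2 fun z hz => hg.mem S.isClosed fun s => by
      rw [← Crd.ev_rename]
      exact v3 s z hz
  have s2 : U = π.img T :=
    eq_of_sdim_le (eT' ▸ π.img_mono t1) (hgp _ (e3 ▸ π.img_mono t2) s1)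
  obtain ⟨ν, hν⟩ := lift_dv h3 t2 d3 (d3 ▸ t4)
  refine ⟨ν, ?_, by rw [rn_rat hν, t4, d3]⟩
  have := π.isGen_img hν
  rwa [← rpt_comp n3, ← s2] at this

end Pool.Agent.Work.MP_ffcd14_ag.Uni
end

-- merged part: Pool.Agent.Work.MP_ffcd14_ag.Uni.BC
section
/-! # A class of codimension two defines a bounded functional -/

open MvPolynomial

namespace Pool.Agent.Work.MP_ffcd14_ag.Uni

universe u v w

variable {k L : Type u} [Field k] [Field L] [Algebra k L]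
  {K : Type v} [Field K] [CharZero K] {P : Amb} {C : NT.{u, v, w} k K}
  [IsAlgClosed k] [Fg k L] (hC : C.Chow)
include hC

/-- On a field of rank one more than `U` the numbers on `U` are computed by a divisor. -/
theorem BC_curve (Ω : Var k P) {w : P.V → L} {U : Sub k P} (hU : IsGen (U : Set (P.Pt k)) w)
    (hΩ : (U : Set (P.Pt k)) ⊆ Ω.pts) (h2 : sdim U = 2) (h3 : td k L = 3) {G : FD k L}
    (hG : ∀ W : FD k L, rat w ⊆ rt W → G ∣ W → 3 ≤ rn k (rt W)) :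
    ∃ e : ℚ, e ≠ 0 ∧ ∀ p : MvPolynomial P.ι ℚ,
      JJ C L (aeval (fun i => hh (blk k w i)) p * hh G) = e * nm C Ω U (aeval (hy C Ω) p) := by
  obtain ⟨e, he⟩ := II_curve hC Ω hU (by omega) (hh_mem G)
  have hw : OnS Ω.pts w := hU.onS.mono hΩ
  refine ⟨e, fun e0 => ?_, fun p => ?_⟩
  · obtain ⟨b, hb⟩ := BC_ones P
    have r2 : rn k (rat w) = 2 := by rw [rn_rat hU, h2]
    have a1 := he (1 * ln C Ω b * ln C Ω b)
    rw [II_ln hC Ω hU.ne, II_ln hC Ω hU.ne, II_one hC Ω hw, e0, zero_mul] at a1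
    have a2 : JJ C L (hh (sys k w b) ^ 3) = 0 :=
      BC_van hC (w := w) (by omega) (pow_mem (BC_sys w b) 3)
    have a3 := JJ_pos2 hC (U := sys k w b) (W := sys k w b * G) (i := 2) (l := 1)
      (r2 ▸ rn_mono (BC_rat hU.ne hb))
      (le_antisymm (rn_le_td _) (h3 ▸ hG _ ((BC_rat hU.ne hb).trans (rt_dvd (dvd_mul_right _ _)))
        (dvd_mul_left _ _))) h3.symm
    rw [hh_mul, show hh (sys k w b) ^ 2 * (hh (sys k w b) + hh G) ^ 1 =
      hh (sys k w b) ^ 3 + hh (sys k w b) * (hh (sys k w b) * hh G) by ring, map_add, a1, a2]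
      at a3
    simp at a3
  · rw [← II_one hC Ω hw, ← II_aeval hC Ω hU.ne, one_mul, he]

/-- The numbers on a surface `U` over `S` are computed by the divisor of the blow-up of `S`. -/
theorem BC_key {P' : Amb} (Ω : Var k P') (h4 : td k L = 4) {w : P'.V → L} {Z U : Sub k P'}
    (hZ : IsGen (Z : Set (P'.Pt k)) w) (hΩ : (Z : Set (P'.Pt k)) ⊆ Ω.pts) (hd : sdim Z = td k L)
    (β : Crd k P P') {S : Sub k P} {κ : Type} [Fintype κ] {g : κ → MvPolynomial P.V k}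
    {a : P.ι →₀ ℕ} (hg : Cuts (S : Set (P.Pt k)) g a) (h0 : ∃ s, aeval (w ∘ β.ε) (g s) ≠ 0)
    (hU : U ≤ Z) (hS : β.img U ≤ S) (h2 : sdim U = 2)
    (hgp : ∀ V ≤ Z, β.img V ≤ S → sdim V ≤ 2) :
    ∃ z ∈ N1 k L, ∃ e : ℚ, ∀ p : MvPolynomial P'.ι ℚ, nm C Ω U (aeval (hy C Ω) p) =
      e * JJ C L (z * (cl (BCdiv (w ∘ β.ε) g a) * aeval (fun i => hh (blk k w i)) p)) := by
  obtain ⟨ν, hν, hr⟩ := BC_lift hZ hd β hg h0 hU hS (h2 ▸ hgp)
  set u : (Amb.one κ).V → L := fun s => aeval (w ∘ β.ε) (g s.2) with hu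
  have nu : NZ u := fun _ => h0
  have n3 : NZ (Amb.elim w u) := NZ.elim hZ.ne nu
  have t3 : td k ν.κ = 3 := by have := ν.dim; omega
  have hE : cl (BCdiv (w ∘ β.ε) g a) = hh (sys k (w ∘ β.ε) a) - hh (blk k u ()) := by
    rw [BCdiv, map_sub, cl_mD, cl_mD, neg_sub_neg]
    rfl
  obtain ⟨b, hb⟩ := BC_ones (P'.sum (Amb.one κ))
  obtain ⟨D, -, d1, -, d2⟩ := exists_lift (sys k (Amb.elim w u) b) ν
  obtain ⟨e, e0, he⟩ := BC_curve hC Ω hν (num2_sub hU hΩ) h2 t3 (G := ν.Res (blk k u ()))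
    fun W h1 h3 => by
      have h5 : rat (rpt ν (Amb.elim w u)) ⊆ rt W := by
        rw [rpt_elim, rat_elim]
        exact Set.union_subset h1 (rat_subset (nu.rpt ν) fun _ => by rwa [blk_rpt nu])
      have := rn_mono (k := k) h5
      omega
  refine ⟨cl D, cl_mem D, -e⁻¹, fun p => ?_⟩
  have m1 : BCalg k w ≤ BCalg k (Amb.elim w u) := BC_le n3 (Crd.inl k P' (Amb.one κ))
  have m2 := BC_le hZ.ne β (BC_sys (w ∘ β.ε) a)
  rw [JJ_cyc hC D _ {ν} fun c hc => ?_, Finset.sum_singleton, d1, one_mul, hE, sub_mul, map_sub,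
    map_sub, BC_van hC (w := rpt ν w) (by rw [rn_rat hν]; omega)
      (BC_rs hZ.ne ν (mul_mem m2 (BC_aeval w p))), map_mul, ν.rs_hh, BC_rs_aeval hZ.ne,
    mul_comm (hh _), he]
  · field_simp
    ring
  by_cases h6 : c.vq D = 0
  · rw [h6, zero_mul]
  refine mul_eq_zero_of_right _ (BC_van hC (w := rpt c (Amb.elim w u)) ?_ (BC_rs n3 c ?_))
  · have h7 := mt (d2 c (by simpa using hc)) h6
    have h8 := rn_mono (k := k) (BC_rat (k := k) (n3.rpt c) hb)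
    have h9 := rn_le_td (k := k) (rt (c.Res (sys k (Amb.elim w u) b)))
    rw [sys_rpt n3] at h8
    have := c.dim
    omega
  · rw [hE]
    exact mul_mem (sub_mem (m1 m2) (BC_blk (Amb.elim w u) (Sum.inr ()))) (m1 (BC_aeval w p))

/-- Two effective divisors whose intersection is contracted by `A`. -/
theorem BC_disj {E Y : DD k L} (hE : 0 ≤ E) {A : FD k L}
    (h : ∀ ν : Dv k L, ν.vq E ≠ 0 → ν.vq Y ≠ 0 → rn k (rt (ν.Res A)) < 1) (r : N k L) :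
    JJ C L (cl E * hh A * cl Y * r) = 0 := by
  have key : ∀ Y' : DD k L, 0 ≤ Y' → (∀ ν : Dv k L, ν.vq Y = 0 → ν.vq Y' = 0) →
      JJ C L (cl E * hh A * cl Y' * r) = 0 := fun Y' h0 h1 => by
    rw [show cl E * hh A * cl Y' * r = cl E * cl Y' * (hh A * r) by ring, cl_mul_inf, mul_assoc]
    refine JJ_cyc_zero hC fun ν hν => ?_
    have a1 : 0 ≤ ν.vq E := by simpa using ν.vq_mono hE
    have a2 : 0 ≤ ν.vq Y' := by simpa using ν.vq_mono h0
    rw [ν.vq_inf] at hν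
    rw [mul_left_comm, map_mul, ν.rs_hh]
    refine JJ_van2 hC (h ν (fun e => hν ?_) fun e => hν ?_) ?_ _
    · rw [e, min_eq_left a2]
    · rw [h1 ν e, min_eq_right a1]
    · rw [pow_one]
      exact Submodule.subset_span ⟨_, subset_rfl, rfl⟩
  have e : Y = Y ⊔ 0 - (-Y) ⊔ 0 := DD.ext fun v => by
    simp only [DD.sub_apply, DD.sup_apply, DD.neg_apply, DD.zero_apply, max_zero_sub_max_neg_zero_eq_self]
  rw [e, map_sub, mul_sub, sub_mul, map_sub, key _ le_sup_right fun ν h => ?_,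
    key _ le_sup_right fun ν h => ?_, sub_zero]
  · rw [ν.vq_sup, map_neg, h, map_zero, neg_zero, max_self]
  · rw [ν.vq_sup, h, map_zero, max_self]

theorem bc_bound {X : Var k P} (hX : IsIrreducible X.pts) (hd : X.dim = 4) (h4 : td k L = 4)
    {x : P.V → L} (hx : IsGen X.pts x) {a : P.ι →₀ ℕ} (ha : ∀ i, 0 < a i) {A : FD k L}
    (hA : 1 ≤ rn k (rt A)) {Ξ : DD k L}
    (hΞ : ∀ ν : Dv k L, ν.vq Ξ ≠ 0 → rn k (rat (rpt ν x) ∪ rt (ν.Res A)) ≤ 2)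
    {J : Type} [Fintype J] {D₁ : J → N k L} (hD : ∀ j, D₁ j ∈ N1 k L) {y : EE C X}
    (hy : y ∈ AA C X 2) : ∃ c : ℚ, 0 ≤ c ∧ ∀ (lam : J → ℚ) (Y : DD k L),
      (∀ ν : Dv k L, ν.vq Ξ = 0 → ν.vq Y = 0) →
      II C X x y (hh A * (∑ j, lam j • D₁ j + cl Y)) ^ 2 ≤
        c * nrm (JJ C L) (hh (sys k x a) * hh A) (hh (sys k x a)) (∑ j, lam j • D₁ j + cl Y) := by
  have nx : NZ x := hx.ne
  have rx : rn k (rat x) = 4 := by rw [rn_rat (Z := X.top hX) hx, X.sdim_top, hd]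
  set l := hh (sys k x a) with hl
  have rl : rn k (rt (sys k x a)) = td k L :=
    le_antisymm (rn_le_td _) (h4 ▸ rx ▸ rn_mono (BC_rat nx ha))
  have pos : 0 < JJ C L (l * hh A * l * l) := by
    have := JJ_pos2 hC (i := 1) (l := 3) hA rl h4.symm
    rwa [show hh A ^ 1 * hh (sys k x a) ^ 3 = l * hh A * l * l by ring] at this
  have rcs : ∀ V : FD k L, RCS (JJ C L) (N1 k L) (hh V * hh A) := fun V => by
    simpa using JJ_rcs hC [hh V, hh A] (by simp [Nef.hh]) h4.symm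
  have mem1 : ∀ lam : J → ℚ, ∑ j, lam j • D₁ j ∈ N1 k L := fun lam =>
    sum_mem fun j _ => Submodule.smul_mem _ _ (hD j)
  -- the first model
  obtain ⟨m₁, u₁, nu₁, eu₁⟩ := exists_coord A
  have n₁ := nx.elim nu₁
  obtain ⟨Z₁, hZ₁⟩ := exists_isGen (k := k) n₁
  have ra : ∀ ν : Dv k L, rat (rpt ν u₁) ⊆ rt (ν.Res A) := fun ν =>
    rat_subset (nu₁.rpt ν) fun _ => (blk_rpt nu₁ ν _).dvd.trans (congrArg ν.Res eu₁).dvd
  obtain ⟨𝒴, y1, y2, y3⟩ := supp_dv hZ₁ Ξ fun ν hν => by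
    have h1 := rn_mono (k := k) (Set.union_subset_union_right (rat (rpt ν x)) (ra ν))
    have := hΞ ν hν
    rw [rpt_elim, rat_elim]
    omega
  have s₁ := (onS_iff hZ₁ (X.ext _).closed).1 (hx.onS.ext nu₁)
  -- the second model
  obtain ⟨Q, u₂, nu₂, mA', mD'⟩ := BC_model A hD
  have n₂ := nx.elim nu₂
  obtain ⟨Z₂, hZ₂⟩ := exists_isGen (k := k) n₂
  have o₂ := hx.onS.ext nu₂
  have s₂ := (onS_iff hZ₂ (X.ext _).closed).1 o₂
  have d₂ : sdim Z₂ = td k L := by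
    rw [← rn_rat hZ₂, rat_elim]
    exact le_antisymm (rn_le_td _) (h4 ▸ rx ▸ rn_mono Set.subset_union_left)
  obtain ⟨n, -, hn⟩ := II_model hC (X.ext Q) hZ₂ d₂
  set w := Amb.elim x u₂ with hw
  have mA : hh A ∈ BCalg k w := BC_le n₂ (Crd.inr k P Q) mA'
  have mq : ∀ lam : J → ℚ, ∑ j, lam j • D₁ j ∈ BCalg k w := fun lam =>
    sum_mem fun j _ => Subalgebra.smul_mem _ (BC_le n₂ (Crd.inr k P Q) (mD' j)) _
  choose p ep using fun lam => BC_poly (mul_mem mA (mq lam))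
  have ml : l ∈ BCalg k w := BC_le n₂ (Crd.inl k P Q) (BC_sys x a)
  -- the space of bounded functionals
  let T := {t : (J → ℚ) × DD k L // ∀ ν : Dv k L, ν.vq Ξ = 0 → ν.vq t.2 = 0}
  let DT : T → N k L := fun t => ∑ j, t.1.1 j • D₁ j + cl t.1.2
  have mT : ∀ t, DT t ∈ N1 k L := fun t => add_mem (mem1 _) (cl_mem _)
  have hn0 : ∀ t, 0 ≤ nrm (JJ C L) (l * hh A) l (DT t) := fun t =>
    BC_nrm (rcs _) (hh_mem _) pos (mT t)
  let φ : EE C X →ₗ[ℚ] T → ℚ := LinearMap.pi fun t => (II C X x).flip (hh A * DT t)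
  suffices h : φ y ∈ BCbd _ hn0 by
    obtain ⟨c, hc, h⟩ := h
    exact ⟨c, hc, fun lam Y hY => h ⟨(lam, Y), hY⟩⟩
  refine num2_CS_map X φ _ ?_ (BC_genpos hC.cyc hX (Prj.one X _) (Prj.one X Q) y1
    (fun Y hY => num2_sub (y2 Y hY).1 s₁) s₂ hy)
  rintro S hS ⟨dS, g1, g2⟩
  let ψ : EE C (X.ext Q) →ₗ[ℚ] T → ℚ := LinearMap.pi fun t =>
    (n : ℚ) • tau C _ ∘ₗ LinearMap.mulRight ℚ (aeval (MP_ffcd14_ag.hy C (X.ext Q)) (p t.1.1))
  have e1 : φ (cy C X S) = ψ (cy C _ Z₂ * pl C (Prj.one X Q) (cy C X S)) := by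
    funext t
    have a1 : II C X x (cy C X S) (cl t.1.2 * hh A) = 0 := by
      refine II_cyc_zero hC X nx _ fun ν hν => II_van1 hC X (nx.rpt ν) (s := rt (ν.Res A)) ?_ _ ?_
      · have := hΞ ν (mt (t.2 ν) hν)
        have := ν.dim
        omega
      · rw [ν.rs_hh]
        exact Algebra.subset_adjoin (Submodule.subset_span ⟨_, subset_rfl, rfl⟩)
    have a2 := II_prj hC (Prj.one X Q) o₂ (cy C X S) (hh A * ∑ j, t.1.1 j • D₁ j)
    rw [← ep, hn, ep, nm_apply, ← mul_assoc] at a2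
    change II C X x (cy C X S) (hh A * DT t) = _
    rw [mul_add, map_add, mul_comm (hh A) (cl _), a1, add_zero]
    exact a2
  rw [e1]
  have gp : ∀ V ≤ Z₂, (Crd.inl k P Q).img V ≤ S → sdim V ≤ 2 := fun V h1 h2 => by
    have := g2 V h1 h2
    omega
  refine num2_CS_map _ ψ _ ?_ (n_meet hC.cyc (Prj.one X Q) s₂ hS fun U h1 h2 => by
    have := gp U h1 h2
    omega)
  rintro U - ⟨u1, u2, u3⟩
  -- the divisor of the blow-up of `S`
  obtain ⟨κ, _, g, a', hg⟩ := exists_cuts (S : Set (P.Pt k))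
  have h0 : ∃ s, aeval x (g s) ≠ 0 := by
    by_contra h
    have h1 : X.top hX ≤ S := fun z hz => hg.mem S.isClosed fun s =>
      (hx.iff _ _ (hg.form s)).1 (not_not.1 (not_exists.1 h s)) z hz
    have := sdim_mono h1
    rw [X.sdim_top] at this
    omega
  obtain ⟨z, hz, e, he⟩ := BC_key hC (X.ext Q) h4 hZ₂ s₂ d₂ (Crd.inl k P Q) hg h0 u1 u2
    (by omega) gp
  change ∀ p, _ = e * JJ C L (z * (cl (BCdiv x g a') * _)) at he
  set E := BCdiv x g a' with hE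
  have i1 : ∀ r ∈ BCalg k w, JJ C L (cl E * r) = 0 := fun r hr =>
    JJ_cyc_zero hC fun ν hν => BC_van hC (w := rpt ν w) (by
      have := BC_rank (n₂.rpt ν) (Crd.inl k P Q) (hZ₂.onS.rpt ν)
        (by rw [← rpt_comp n₂]; exact BC_div_supp nx hg h0 hν) gp
      have := ν.dim
      omega) (BC_rs n₂ ν hr)
  have i2 : ∀ (t : T) r, JJ C L (cl E * hh A * cl t.1.2 * r) = 0 := fun t r => by
    refine BC_disj hC (BC_div_nonneg nx hg h0) (fun ν h1 h2 => ?_) r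
    obtain ⟨Y, hY, h3⟩ := y3 ν (mt (t.2 ν) h2)
    have h5 := BC_rank (n₁.rpt ν) (Crd.inl k P _) h3
      (by rw [← rpt_comp n₁]; exact BC_div_supp nx hg h0 h1) (m := 0) fun V h6 h7 => by
        have := g1 Y hY V h6 h7
        have := (y2 Y hY).2
        omega
    have h6 := rn_le_of_mem (rt_blk (k := k) (rpt ν (Amb.elim x u₁)) (Sum.inr ()))
    rw [(blk_rpt n₁ ν (Sum.inr ())).trans (congrArg ν.Res eu₁)] at h6
    omega
  obtain ⟨M, hM⟩ : ∃ M : ℕ, a' ≤ M • a := ⟨a'.sum fun _ n => n, fun i => by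
    have h1 : a' i ≤ a'.sum fun _ n => n := Finsupp.le_degree i a'
    have := ha i
    rw [Finsupp.smul_apply, smul_eq_mul]
    nlinarith only [this, h1]⟩
  obtain ⟨c, hc, hb⟩ := BC_alg (ν := JJ C L) (M := (M + 1 : ℕ)) (η := cl E * hh A)
    (by positivity) (rcs (sys k x a))
    (rcs (sys k x a * (FD.sp (fun s => aeval x (g s)) * sys k x (M • a - a')))) (hh_mem _) hz pos
    (by
      have h1 := congrArg hh (BC_sys_add (k := k) x (M • a - a') a')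
      rw [tsub_add_cancel_of_le hM, BC_sys_smul, hh_pow, hh_mul] at h1
      rw [hh_mul, hh_mul, hE, BCdiv, map_sub, cl_mD, cl_mD, Nat.cast_smul_eq_nsmul, succ_nsmul,
        ← smul_mul_assoc, h1]
      ring)
    (by rw [mul_assoc, mul_assoc]; exact i1 _ (mul_mem mA (mul_mem ml ml)))
  refine ⟨(n * e) ^ 2 * c, by positivity, fun t => ?_⟩
  have a1 : ∀ r, JJ C L (cl E * hh A * r * DT t) =
      JJ C L (cl E * (hh A * r * ∑ j, t.1.1 j • D₁ j)) := fun r => by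
    rw [show cl E * hh A * r * DT t = cl E * (hh A * r * ∑ j, t.1.1 j • D₁ j) +
      cl E * hh A * cl t.1.2 * r by simp only [DT]; ring, map_add, i2, add_zero]
  have a2 := hb (DT t) (mT t) (by rw [a1]; exact i1 _ (mul_mem (mul_mem mA ml) (mq _))) (by
    rw [a1, show cl E * (hh A * DT t * ∑ j, t.1.1 j • D₁ j) =
      cl E * hh A * (∑ j, t.1.1 j • D₁ j) * DT t by ring, a1]
    exact i1 _ (mul_mem (mul_mem mA (mq _)) (mq _)))
  have a3 : ψ (cy C _ U) t = n * e * JJ C L (cl E * hh A * z * DT t) := by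
    rw [a1, show cl E * (hh A * z * ∑ j, t.1.1 j • D₁ j) =
      z * (cl E * (hh A * ∑ j, t.1.1 j • D₁ j)) by ring, ← ep, mul_assoc, ← he]
    rfl
  rw [a3, mul_pow, mul_assoc _ c]
  exact mul_le_mul_of_nonneg_left a2 (sq_nonneg _)

end Pool.Agent.Work.MP_ffcd14_ag.Uni
end

-- merged part: Pool.Agent.Work.MP_ffcd14_ag.Uni.Z4
section
/-! # The choice of the sequences and the passage to the limit -/

open MvPolynomial Filter Topology

namespace Pool.Agent.Work.MP_ffcd14_ag.Uni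

universe u v w

variable {k F L : Type u} [Field k] [Field F] [Field L] [Algebra k F] [Algebra k L]
  {K : Type v} [Field K] [CharZero K] {C : NT.{u, v, w} k K} {P : Amb}
  [IsAlgClosed k] [Fg k F] (hC : C.Chow)
include hC

omit [Algebra k F] [Fg k F] [Field F] in
theorem bc_fd [Fg k L] {X : Var k P} (hX : IsIrreducible X.pts) (hd : X.dim = 4) (h4 : td k L = 4)
    {x : P.V → L} (hx : IsGen X.pts x) {a : P.ι →₀ ℕ} (ha : ∀ i, 0 < a i) {A : FD k L}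
    (hA : 1 ≤ rn k (rt A)) {Ξ : DD k L}
    (hΞ : ∀ ν : Dv k L, ν.vq Ξ ≠ 0 → rn k (rat (rpt ν x) ∪ rt (ν.Res A)) ≤ 2)
    {M : Type*} [AddCommGroup M] [Module ℚ M] [FiniteDimensional ℚ M] (D₁ : M →ₗ[ℚ] DD k L)
    {y : EE C X} (hy : y ∈ AA C X 2) : ∃ c : ℚ, 0 ≤ c ∧ ∀ (p : M) (D : DD k L),
      (∀ ν : Dv k L, ν.vq Ξ = 0 → ν.vq D = ν.vq (D₁ p)) → II C X x y (hh A * cl D) ^ 2 ≤
        c * nrm (JJ C L) (hh (sys k x a) * hh A) (hh (sys k x a)) (cl D) := by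
  let b := Module.finBasis ℚ M
  obtain ⟨c, c0, h⟩ := bc_bound hC hX hd h4 hx ha hA hΞ (fun j => cl_mem (D₁ (b j))) hy
  refine ⟨c, c0, fun p D hD => ?_⟩
  have := h (b.repr p) (D - D₁ p) fun ν h0 => by rw [map_sub, hD ν h0, sub_self]
  simp only [← map_smul, ← map_sum, b.sum_repr] at this
  rwa [← map_add, add_sub_cancel] at this

variable (h3 : td k F = 3) {A : FD k F} (hA : IntermediateField.adjoin k (rt A) = ⊤)
include h3 hA

/-- Good sequences which are constant outside the support of `Ξ`. -/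
def GS (Ξ : DD k F) : Submodule ℚ (ℕ → DD k F) where
  carrier := {D | Good C A D ∧ ∀ n w, Ξ w = 0 → D n w = D 0 w}
  zero_mem' := ⟨good_dat hC h3 hA (G := 0) (by simp), fun _ _ _ => rfl⟩
  add_mem' h h' := ⟨h.1.add hC h3 hA h'.1, fun n w h0 => by
    simp only [Pi.add_apply, DD.add_apply, h.2 n w h0, h'.2 n w h0]⟩
  smul_mem' q _ h := ⟨h.1.smul hC h3 hA q, fun n w h0 => by
    simp only [Pi.smul_apply, DD.smul_apply, h.2 n w h0]⟩

theorem Tree.exists_seq {ι : F →ₐ[k] L} {t : L} {V : FD k L} (τ : Tree ι t V)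
    (h : ∀ S, cl (τ.dl S) ∈ Dat A) : ∃ (G : ℕ → τ.Cl → Dv k F → DD k F) (Ξ : DD k F),
      Ξ ∈ XC A ∧ (∀ n, τ.Lv A (G n)) ∧
      ∀ S, ∀ c ∈ prs A (τ.dl S), (fun n => G n S c) ∈ GS hC h3 hA Ξ := by
  have p : ∀ S (c : Dv k F), 0 ≤ c.vq (τ.dl S) := fun S c => by
    simpa using c.vq_mono (τ.dl_nonneg S)
  choose G₀ g1 g2 using fun S c => exists_part A c (c.vq (τ.dl S))
  choose D Ξ d1 d2 d3 d4 d5 using fun S c => exists_good_clamp hC h3 hA (G := G₀ S c) (h S)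
    (τ.dl_nonneg S) (fun c' h' => by
      by_cases e : c' = c
      · rw [e, g1]; exact p S c
      · rw [g2 S c c' h' e]) fun c' h' => by
      by_cases e : c' = c
      · rw [e, g1]
      · rw [g2 S c c' h' e]; exact p S c'
  have e : ∀ n S c c', Pr A c' → c'.vq (D S c n) = c'.vq (G₀ S c) := fun n S c c' h' => by
    have a1 := (d1 S c).exc n c' h'
    have a2 := d2 S c c' h'
    rw [map_sub] at a1 a2
    linarith only [a1, a2]
  refine ⟨fun n S c => D S c n, ∑ S, ∑ c ∈ prs A (τ.dl S), Ξ S c ⊔ -Ξ S c,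
    Submodule.sum_mem _ fun S _ => Submodule.sum_mem _ fun c _ c' h' => ?_,
    fun n S c hc => ⟨(d5 S c n).1, (d5 S c n).2, by rw [e n S c c (mem_prs.1 hc).1, g1],
      fun c' h' hne => by rw [e n S c c' h', g2 S c c' h' hne]⟩,
    fun S c hc => ⟨d1 S c, fun n w h0 => d4 S c n w ?_⟩⟩
  · rw [Dv.vq_sup, map_neg, d3 S c c' h', neg_zero, max_self]
  · simp only [DD.sum_apply, DD.sup_apply, DD.neg_apply, ← abs_eq_max_neg] at h0
    have := (Finset.sum_eq_zero_iff_of_nonneg fun S _ =>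
      Finset.sum_nonneg fun c _ => abs_nonneg _).1 h0 S (Finset.mem_univ S)
    exact abs_eq_zero.1 ((Finset.sum_eq_zero_iff_of_nonneg fun c _ => abs_nonneg _).1 this c hc)

/-- A sequence which is asymptotically null for the polarisation is null for all forms. -/
theorem null_seq {V' : ℕ → DD k F} (h1 : Tendsto (fun i => QQ C A (hh A) (-mD A) (V' i)) atTop (𝓝 0))
    (h2 : Tendsto (fun i => QQ C A (hh A) (V' i) (V' i)) atTop (𝓝 0)) {Λ : N k F} (hΛ : Λ ∈ Dat A)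
    (H : DD k F) : Tendsto (fun i => QQ C A Λ (V' i) H) atTop (𝓝 0) := by
  obtain ⟨c, -, h⟩ := QQ_null hC h3 hA hΛ
  have t := ((((h1.pow 2).const_mul 2).div_const ((JJ C F (hh A ^ 3) : ℚ) : ℝ)).sub h2).const_mul c
    |>.mul_const (2 * QQ C A (hh A) (-mD A) H ^ 2 / (JJ C F (hh A ^ 3) : ℚ) - QQ C A (hh A) H H)
  have t2 := squeeze_zero (fun i => sq_nonneg _) (fun i => h (V' i) H) (by simpa using t)
  rw [tendsto_zero_iff_abs_tendsto_zero]
  simpa [Function.comp_def, Real.sqrt_sq_eq_abs] using t2.sqrt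

end Pool.Agent.Work.MP_ffcd14_ag.Uni
end

-- merged part: Pool.Agent.Work.MP_ffcd14_ag.Uni.Z5
section
/-! # Semi-positivity of primitive classes on a tree of rational curves -/

open MvPolynomial Filter Topology

namespace Pool.Agent.Work.MP_ffcd14_ag.Uni

universe u v w

variable {k F L : Type u} [Field k] [Field F] [Field L] [Algebra k F] [Algebra k L]
  {K : Type v} [Field K] [CharZero K] {C : NT.{u, v, w} k K} {P : Amb}
  [IsAlgClosed k] [Fg k F] [Fg k L] (hC : C.Chow) (h3 : td k F = 3)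
  {ι : F →ₐ[k] L} {t : L} (ht : Simp ι t) {X : Var k P} (hX : IsIrreducible X.pts)
  (hd : X.dim = 4) {x : P.V → L} (hx : IsGen X.pts x) {a : P.ι →₀ ℕ} (ha : ∀ i, 0 < a i)
  {τ : Tree ι t (sys k x a)} {A : FD k F} {Vη : FD k L} {Λ : τ.Cl → N k F}
  {m : τ.Cl → τ.Cl → ℚ} (M : τ.Mod A Vη Λ m)

namespace Tree

omit [Fg k F] in
include hX hd hx ha in
theorem rn_sys : 4 ≤ rn k (rt (sys k x a)) := by
  have h := rn_rat (Z := X.top hX) hx
  rw [X.sdim_top hX, hd] at h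
  rw [← h]
  exact rn_mono (rat_subset hx.ne fun i => blk_dvd_sys x (ha i))

include hC M in
theorem rn_exc₀ (h3 : td k F = 3) {Ξ : DD k F} (hΞ : Ξ ∈ XC A) (ν : Dv k L)
    (h : ν.vq (pD ι Ξ) ≠ 0) : rn k (rt (ν.Res (FD.map ι A)) ∪ rt (ν.Res Vη)) ≤ 2 := by
  have h1 := rn_exc hΞ h
  have h2 := (M.eqd.res ν).rn_le hC
  omega

omit [IsAlgClosed k] [Fg k F] [Fg k L] in
include hx ha M in
theorem rat_res (ν : Dv k L) : rat (rpt ν x) ⊆ rt (ν.Res Vη) :=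
  rat_subset (NZ.rpt hx.ne ν) fun i => by
    rw [blk_rpt hx.ne]
    exact map_dvd _ ((blk_dvd_sys x (ha i)).trans M.dvd)

include hC hx ha M in
theorem rn_exc' (h3 : td k F = 3) {Ξ : DD k F} (hΞ : Ξ ∈ XC A) (ν : Dv k L)
    (h : ν.vq (pD ι Ξ) ≠ 0) : rn k (rat (rpt ν x) ∪ rt (ν.Res (FD.map ι A))) ≤ 2 :=
  (rn_mono (Set.union_subset ((rat_res hx ha M ν).trans Set.subset_union_right)
    Set.subset_union_left)).trans (rn_exc₀ hC M h3 hΞ ν h)

include hC h3 ht hX hd hx ha M in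
theorem pos_ll : 0 < JJ C L (hh (sys k x a) * hh (sys k x a) * pb ι (hh A) * pb ι (hh A)) := by
  have h4 : td k L = 4 := by rw [ht.td_eq, h3]
  have := JJ_pos2 hC (U := FD.map ι A) (W := sys k x a) (i := 2) (l := 2)
    (by rw [rt_map, rn_image, rn_gen M.gen, h3]; omega)
    (le_antisymm (rn_le_td _) (h4 ▸ rn_sys hX hd hx ha)) h4.symm
  rwa [← pb_hh, mul_comm, sq, sq, ← mul_assoc] at this

include hC h3 ht in
theorem rcs_ll : RCS (JJ C L) (N1 k L) (hh (sys k x a) * hh (sys k x a)) := by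
  simpa using JJ_rcs hC [hh (sys k x a), hh (sys k x a)] (by simp [Nef.hh])
    (by rw [ht.td_eq, h3]; rfl)

include hC h3 ht hX hd hx ha M in
/-- The functional `D ↦ y l D` is bounded. -/
theorem e_bound {Ξ : DD k F} (hΞ : Ξ ∈ XC A) {R : Type*} [AddCommGroup R] [Module ℚ R]
    [FiniteDimensional ℚ R] (D₁ : R →ₗ[ℚ] DD k L) {y : EE C X} (hy : y ∈ AA C X 2) :
    ∃ c : ℚ, 0 ≤ c ∧ ∀ (p : R) (D : DD k L), (∀ ν : Dv k L, ν.vq (pD ι Ξ) = 0 →
      ν.vq D = ν.vq (D₁ p)) → II C X x y (hh (sys k x a) * cl (D₁ p)) ^ 2 ≤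
        c * nrm (JJ C L) (hh (sys k x a) * hh (sys k x a)) (pb ι (hh A)) (cl D) := by
  have h4 : td k L = 4 := by rw [ht.td_eq, h3]
  have r4 := rn_sys hX hd hx ha
  have h2 : ∀ ν : Dv k L, ν.vq (pD ι Ξ) ≠ 0 →
      rn k (rat (rpt ν x) ∪ rt (ν.Res (sys k x a))) ≤ 2 := fun ν h =>
    (rn_mono (Set.union_subset ((rat_res hx ha M ν).trans Set.subset_union_right)
      ((rt_dvd (map_dvd _ M.dvd)).trans Set.subset_union_right))).trans (rn_exc₀ hC M h3 hΞ ν h)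
  obtain ⟨c, c0, hc⟩ := bc_fd hC hX hd h4 hx ha (A := sys k x a) (by omega) h2 D₁ hy
  have rc := rcs_ll hC h3 ht (x := x) (a := a)
  have pos := pos_ll hC h3 ht hX hd hx ha M
  have p4 : 0 < JJ C L (hh (sys k x a) * hh (sys k x a) * hh (sys k x a) * hh (sys k x a)) := by
    have := JJ_pos1 hC (le_antisymm (rn_le_td _) (h4 ▸ r4))
    rwa [h4, pow_succ, pow_succ, sq] at this
  have hA := pb_N1 ι (hh_mem A)
  have n0 := fun {z} (hz : z ∈ N1 k L) => (abs_nonneg _).trans (nrm_nonneg rc hA pos hz)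
  refine ⟨c * (2 * nrm (JJ C L) (hh (sys k x a) * hh (sys k x a)) (pb ι (hh A)) (hh (sys k x a)) /
    JJ C L (hh (sys k x a) * hh (sys k x a) * hh (sys k x a) * hh (sys k x a)) + 1),
    mul_nonneg c0 (add_nonneg (div_nonneg (mul_nonneg two_pos.le (n0 (hh_mem _))) p4.le) one_pos.le),
    fun p D hD => ?_⟩
  have e : II C X x y (hh (sys k x a) * cl (D₁ p)) = II C X x y (hh (sys k x a) * cl D) := by
    rw [← sub_eq_zero, ← map_sub, ← mul_sub, ← map_sub, mul_comm]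
    refine II_cyc_zero hC X hx.ne y fun ν h => II_van1 hC X (NZ.rpt hx.ne ν)
      (s := rt (ν.Res (sys k x a))) ?_ y
      (Algebra.subset_adjoin (Dat_le_NS subset_rfl (dat_rs ν (hh_dat dvd_rfl))))
    have := h2 ν fun h0 => h (by rw [map_sub, hD ν h0, sub_self])
    have := ν.dim
    omega
  rw [e, mul_assoc]
  refine (hc p D hD).trans (mul_le_mul_of_nonneg_left ?_ c0)
  have b1 := nrm_cs rc hA pos (hh_mem (sys k x a)) (cl_mem D)
  have b2 := (neg_le_abs _).trans (nrm_nonneg rc hA pos (cl_mem D))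
  rw [nrm, add_mul, one_mul, div_mul_eq_mul_div, mul_assoc 2, sub_eq_add_neg]
  exact add_le_add (div_le_div_of_nonneg_right (by linarith only [b1]) p4.le) b2

variable {y : EE C X} (hy : y ∈ AA C X 2) {v : DD k F} {W : τ.Cl → ∀ c : Dv k F, N k c.κ}
  (St : Star C τ A X x y v W)
  {G : ℕ → τ.Cl → Dv k F → DD k F} (hG : ∀ n, τ.Lv A (G n)) {Lt : τ.Cl → DD k F}
  (hL : ∀ S, cl (Lt S) = Λ S) {B : Submodule ℚ (ℕ → DD k F)} (hB : Cn τ A G Lt B) {Ξ : DD k F}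
  (hΞ : Ξ ∈ XC A) (hg : B ≤ GS hC h3 M.gen Ξ) {MM : Submodule ℚ τ.Par} (hM : ∀ p ∈ MM, p.2.1 ∈ B)

omit [Fg k L] in
include hB hg in
theorem dv_off {p : τ.Par} (hp : p.2.1 ∈ B) (n : ℕ) (ν : Dv k L) (h0 : ν.vq (pD ι Ξ) = 0) :
    ν.vq (τ.dvL A G n p) = ν.vq (τ.dvL A G 0 p) := by
  have h0' : Ξ (ν.toVl.comap ι) = 0 := by
    rw [← pD_apply, ← Dv.vq_cast, h0, Rat.cast_zero]
  refine Rat.cast_injective (α := FF) ?_
  rw [Dv.vq_cast, Dv.vq_cast]
  simp only [dvL, dv, TG, LinearMap.coe_mk, AddHom.coe_mk, DD.add_apply, DD.sum_apply,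
    DD.smul_apply, DD.inf_apply, pD_apply, (hg hp).2 n _ h0']
  refine congrArg _ (Finset.sum_congr rfl fun S _ => congrArg _
    (Finset.sum_congr rfl fun c hc => ?_))
  rw [(hg (hB.gc S c hc)).2 n _ h0']

include hC h3 ht hX hd hx ha M hB hΞ hg hM in
/-- The upper bound for `l² D² - 2 y l D`. -/
theorem z_bound [FiniteDimensional ℚ MM] (hy : y ∈ AA C X 2) : ∃ b : ℚ, ∀ (p : MM) (n : ℕ),
    JJ C L (hh (sys k x a) * hh (sys k x a) * cl (τ.dvL A G n p) * cl (τ.dvL A G n p)) ≤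
      b + 2 * JJ C L (hh (sys k x a) * hh (sys k x a) * pb ι (hh A) * cl (τ.dvL A G n p)) ^ 2 /
        JJ C L (hh (sys k x a) * hh (sys k x a) * pb ι (hh A) * pb ι (hh A)) +
      2 * II C X x y (hh (sys k x a) * cl (τ.dvL A G 0 p)) := by
  obtain ⟨c, c0, hc⟩ := e_bound hC h3 ht hX hd hx ha M hΞ (τ.dvL A G 0 ∘ₗ MM.subtype) hy
  refine ⟨c, fun p n => ?_⟩
  have h := hc p _ (dv_off hC h3 M hB hg (hM _ p.2) n)
  have n0 := (abs_nonneg _).trans (nrm_nonneg (rcs_ll hC h3 ht) (pb_N1 ι (hh_mem A))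
    (pos_ll hC h3 ht hX hd hx ha M) (cl_mem (τ.dvL A G n p)))
  have := abs_le_of_sq_le_sq' (a := 2 * II C X x y (hh (sys k x a) * cl (τ.dvL A G 0 p)))
    (b := c + nrm (JJ C L) (hh (sys k x a) * hh (sys k x a)) (pb ι (hh A)) (cl (τ.dvL A G n p)))
    (by
      change II C X x y (hh (sys k x a) * cl (τ.dvL A G 0 p)) ^ 2 ≤ _ at h
      linarith only [h, sq_nonneg (c - nrm (JJ C L) (hh (sys k x a) * hh (sys k x a)) (pb ι (hh A))
        (cl (τ.dvL A G n p))), sq_nonneg (c - nrm (JJ C L) (hh (sys k x a) * hh (sys k x a)) ((pb ι) (hh A)) (cl ((τ.dvL A G n) ↑p)))]) (add_nonneg c0 n0)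
  rw [nrm] at this
  linarith only [this, this.1]

include hC h3 ht hX hd hx ha M hy St hG hL hB hΞ hg hM

/-- Approximate solutions of the orthogonality conditions. -/
theorem exists_app [FiniteDimensional ℚ MM] {l : MM}
    (hl : ∀ n, cl (τ.dvL A G n l) = hh (sys k x a)) :
    ∃ (q : MM →ₗ[ℚ] MM →ₗ[ℚ] ℝ) (s : ℕ → MM), (∀ p p' : MM, Tendsto (fun n => ((JJ C L
      (hh (sys k x a) * pb ι (hh A) * cl (τ.dvL A G n p) * cl (τ.dvL A G n p')) : ℚ) : ℝ)) atTop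
        (𝓝 (q p p'))) ∧ Cv s ∧ ∀ p : MM, Tendsto (fun i => q (s i) p) atTop
          (𝓝 (II C X x y (pb ι (hh A) * cl (τ.dvL A G 0 p)))) := by
  have h4 : td k L = 4 := by rw [ht.td_eq, h3]
  let D : ℕ → MM →ₗ[ℚ] N k L := fun n => cl ∘ₗ τ.dvL A G n ∘ₗ MM.subtype
  obtain ⟨q, hq⟩ := exists_lim₂ (fun n => ((LinearMap.mul ℚ (N k L)).compl₁₂ (D n) (D n)).compr₂
    (JJ C L ∘ₗ LinearMap.mulLeft ℚ (hh (sys k x a) * pb ι (hh A)))) fun p p' => ⟨_,
      (lim_q hC h3 ht M hG hL hB (fun _ h => (hg h).1) (hM _ p.2) (hM _ p'.2)).congr fun n => by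
        rw [mul_assoc]
        rfl⟩
  replace hq : ∀ p p' : MM, Tendsto (fun n => ((JJ C L (hh (sys k x a) * pb ι (hh A) *
      cl (τ.dvL A G n p) * cl (τ.dvL A G n p')) : ℚ) : ℝ)) atTop (𝓝 (q p p')) := fun p p' =>
    (hq p p').congr fun n => by
      rw [mul_assoc _ (cl _)]
      rfl
  obtain ⟨c, -, hc⟩ := bc_fd hC hX hd h4 hx ha (A := FD.map ι A)
    (by rw [rt_map, rn_image, rn_gen M.gen, h3]; omega) (rn_exc' hC hx ha M h3 hΞ)
    (τ.dvL A G 0 ∘ₗ MM.subtype) hy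
  obtain ⟨s, h1, h2⟩ := exists_sol q (fun p p' => tendsto_nhds_unique (hq p p')
    (by simpa only [mul_right_comm _ (cl (τ.dvL A G _ p'))] using hq p' p))
    (Algebra.linearMap ℚ ℝ ∘ₗ II C X x y ∘ₗ LinearMap.mulLeft ℚ (pb ι (hh A)) ∘ₗ D 0) l c
    (JJ C L (hh (sys k x a) * pb ι (hh A) * hh (sys k x a) * hh (sys k x a)) : ℚ) fun p => by
      refine ge_of_tendsto' (((((hq p l).pow 2).const_mul 2).div_const _).sub (hq p p)
        |>.const_mul _) fun n => ?_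
      have e : (II C X x y (pb ι (hh A) * cl (τ.dvL A G 0 p)) : ℝ) =
          II C X x y (pb ι (hh A) * cl (τ.dvL A G n p)) := by
        have := QQ_exc hC h3 M.gen (hh_dat dvd_rfl) v ((hg (hM _ p.2)).1.exc n)
        rw [map_sub, sub_eq_zero] at this
        rw [y_A hC h3 M St hG, y_A hC h3 M St hG, this]
      have b := hc p (τ.dvL A G n p) (dv_off hC h3 M hB hg (hM _ p.2) n)
      rw [nrm, ← pb_hh, mul_right_comm _ _ (cl _)] at b
      change (II C X x y (pb ι (hh A) * cl (τ.dvL A G 0 p)) : ℝ) ^ 2 ≤ _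
      rw [e, hl]
      exact_mod_cast b
  exact ⟨q, s, hq, h1, h2⟩

theorem core [FiniteDimensional ℚ MM] {l : MM} (hl : ∀ n, cl (τ.dvL A G n l) = hh (sys k x a))
    (hv : ∃ b ∈ B, QQ C A (hh A) v = QQ C A (hh A) (b 0)) (hA : (fun _ => -mD A) ∈ B) (hb : ∀ b ∈ B, (0, b, 0, 0) ∈ MM)
    (he : ∀ S, ∀ c ∈ prs A (τ.dl S), ∃ e, (0, 0, 0, e) ∈ MM ∧ e S c = 1 ∧
      ∀ S' c', ¬ (S' = S ∧ c' = c) → e S' c' = 0) {β : ℚ} (hβ : ∀ (p : MM) (n : ℕ),
    JJ C L (hh (sys k x a) * hh (sys k x a) * cl (τ.dvL A G n p) * cl (τ.dvL A G n p)) ≤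
      β + 2 * JJ C L (hh (sys k x a) * hh (sys k x a) * pb ι (hh A) * cl (τ.dvL A G n p)) ^ 2 /
        JJ C L (hh (sys k x a) * hh (sys k x a) * pb ι (hh A) * pb ι (hh A)) +
      2 * II C X x y (hh (sys k x a) * cl (τ.dvL A G 0 p))) :
    -(β + 2 * II C X x y (hh (sys k x a) * pb ι (hh A)) ^ 2 /
      JJ C L (hh (sys k x a) * hh (sys k x a) * pb ι (hh A) * pb ι (hh A))) ≤
      II C X x (y * y) 1 := by
  have h4 : td k L = 4 := by rw [ht.td_eq, h3]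
  have r4 : rn k (rt (sys k x a)) = td k L :=
    le_antisymm (rn_le_td _) (h4 ▸ rn_sys hX hd hx ha)
  have d0 : τ.d ≠ 0 := (((τ.fdeg_hh hC ht).pos_iff hC ht.td_eq).2
    (le_antisymm (rn_le_td _) (r4 ▸ rn_mono Set.subset_union_right))).ne'
  have hA' : hh A ∈ Dat A := hh_dat dvd_rfl
  have sy := fun {Λ'} (h : Λ' ∈ Dat A) => QQ_symm hC h3 M.gen h
  obtain ⟨q, s, hq, cv, hs⟩ := exists_app hC h3 ht hX hd hx ha M hy St hG hL hB hΞ hg hM hl
  have fq := fun p p' : MM => tendsto_nhds_unique (hq p p')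
    (lim_q hC h3 ht M hG hL hB (fun _ h => (hg h).1) (hM _ p.2) (hM _ p'.2))
  let V' : ℕ → DD k F := fun i => v - τ.g1L A G (s i) 0
  have t1 : ∀ b ∈ B, Tendsto (fun i => QQ C A (hh A) (V' i) (b 0)) atTop (𝓝 0) := fun b h => by
    have := (hs ⟨_, hb b h⟩).const_sub (QQ C A (hh A) v (b 0))
    simp only [fq, y_A hC h3 M St hG] at this
    simpa [V', sy hA' (b 0)] using this
  let ev : (τ.Par →ₗ[ℚ] ℕ → DD k F) → MM →ₗ[ℚ] DD k F := fun T =>
    LinearMap.proj 0 ∘ₗ T ∘ₗ MM.subtype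
  have n1 : ∀ {Λ'}, Λ' ∈ Dat A → ∀ H, Tendsto (fun i => QQ C A Λ' (V' i) H) atTop (𝓝 0) :=
    fun h H => null_seq hC h3 M.gen (by simpa only [sy hA' (-mD A)] using t1 _ hA) (by
      obtain ⟨b, b1, b2⟩ := hv
      have t0 := t1 _ b1
      simp only [sy hA' _ (b 0), ← b2, sy hA' v] at t0
      have := t0.sub (cv.diag (ρ := fun i => QQ C A (hh A) (V' i) ∘ₗ ev (τ.g1L A G))
        fun p => t1 _ (hB.g1 (hM _ p.2)))
      simp only [sub_zero, LinearMap.comp_apply, ← map_sub] at this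
      exact this) h H
  have n2 : ∀ {Λ'}, Λ' ∈ Dat A → ∀ T : MM →ₗ[ℚ] DD k F,
      Tendsto (fun i => QQ C A Λ' (V' i) (T (s i))) atTop (𝓝 0) := fun h T =>
    cv.diag (ρ := fun i => QQ C A _ (V' i) ∘ₗ T) fun p => n1 h _
  have t2 : Tendsto (fun i => q (s i) l) atTop
      (𝓝 (II C X x y (hh (sys k x a) * pb ι (hh A)))) := by
    simpa only [hl, mul_comm (pb ι (hh A))] using hs l
  have nn : ∀ {Λ'}, Λ' ∈ Dat A → Tendsto (fun i => QQ C A Λ' (V' i) (V' i)) atTop (𝓝 0) :=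
    fun h => by
    have := (n1 h v).sub (n2 h (ev (τ.g1L A G)))
    simp only [sub_zero, ← map_sub] at this
    exact this
  have t4 : Tendsto (fun i => (II C X x y (hh (sys k x a) * pb ι (cl (V' i))) : ℝ)) atTop
      (𝓝 0) := by
    obtain ⟨c, -, hc⟩ := e_bound hC h3 ht hX hd hx ha M hΞ (R := ℚ × MM) (pD ι ∘ₗ
      ((LinearMap.fst ℚ _ _).smulRight v - ev (τ.g1L A G) ∘ₗ LinearMap.snd ℚ _ _)) hy
    have hB' : Cn τ A G Lt (GS hC h3 M.gen Ξ) := ⟨hg hB.g0, hg hB.h0, fun S => hg (hB.dl S),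
      fun S => hg (hB.lt S), fun S c h => hg (hB.gc S c h)⟩
    have t := (((((n1 hA' (τ.g1L A G l 0)).pow 2).const_mul 2).div_const
      (JJ C L (hh (sys k x a) * hh (sys k x a) * pb ι (hh A) * pb ι (hh A)) : ℚ)).sub
      ((((nn M.g0).const_mul (2 * τ.d : ℝ)).neg.add ((nn M.ka).const_mul (τ.d ^ 2 : ℝ))).sub
        (tendsto_finsetSum Finset.univ fun S _ =>
          (nn (M.dl S)).const_mul (τ.nS S ^ 2 : ℝ)))).const_mul (c : ℝ)
    have t' := squeeze_zero (fun i => sq_nonneg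
      (II C X x y (hh (sys k x a) * pb ι (cl (V' i))) : ℝ)) (fun i => ?_) (by simpa using t)
    · rw [tendsto_zero_iff_abs_tendsto_zero]
      simpa [Function.comp_def, Real.sqrt_sq_eq_abs] using t'.sqrt
    have hb : ((fun _ => v) - τ.g1L A G (s i)) ∈ GS hC h3 M.gen Ξ :=
      sub_mem ⟨St.good, fun _ _ _ => rfl⟩ (hg (hB.g1 (hM _ (s i).2)))
    have l1 := lim_q hC h3 ht M hG hL hB' (fun _ h => h.1) (p := l)
      (p' := (0, (fun _ => v) - τ.g1L A G (s i), 0, 0)) (hg (hM _ l.2)) hb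
    have l2 := lim_z hC h3 ht M hG hL hB' (fun _ h => h.1)
      (p := (0, (fun _ => v) - τ.g1L A G (s i), 0, 0)) hb
    refine le_of_le_of_eq (ge_of_tendsto' (((((l1.pow 2).const_mul 2).div_const
      (JJ C L (hh (sys k x a) * hh (sys k x a) * pb ι (hh A) * pb ι (hh A)) : ℚ)).sub
        l2).const_mul (c : ℝ)) fun n => ?_) ?_
    · have := hc (1, s i) _ fun ν h0 => (dv_off hC h3 M hB' le_rfl
        (p := (0, (fun _ => v) - τ.g1L A G (s i), 0, 0)) hb n ν h0).trans (by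
          simp [dvL, dv, ev])
      simp only [nrm, LinearMap.comp_apply, LinearMap.sub_apply, LinearMap.smulRight_apply,
        LinearMap.fst_apply, LinearMap.snd_apply, one_smul] at this
      rw [hl, pb_cl, mul_right_comm _ (pb ι _) (hh _)]
      exact_mod_cast this
    · have e1 : τ.g1L A G (0, (fun _ => v) - τ.g1L A G (s i), 0, 0) 0 = τ.d • V' i := by
        simp [g1L_apply _ _ _ (0, _), g1, ee, V']
      have e2 : ∀ S, τ.gSL A G Lt m S (0, (fun _ => v) - τ.g1L A G (s i), 0, 0) 0 =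
          -(τ.nS S • V' i) := fun S => by simp [gSL_apply _ _ _ _ _ _ (0, _), gS, ee, V']
      have e3 : ((fun _ => v) - τ.g1L A G (s i) : ℕ → DD k F) 0 = V' i := rfl
      simp only [e1, e2, e3, Pi.zero_apply, Rat.cast_zero, zero_mul, mul_zero, neg_zero, zero_add,
        add_zero, Finset.sum_const_zero, sub_zero, map_smul, map_neg, LinearMap.smul_apply,
        LinearMap.neg_apply, neg_neg, Rat.smul_def, sq, mul_assoc, mul_neg]
  have t3 : ∀ S, ∀ c ∈ prs A (τ.dl S), Tendsto (fun i =>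
      QQ C A (hh A) (τ.gSL A G Lt m S (s i) 0) (G 0 S c) + (s i : τ.Par).2.2.2 S c *
        (c.vq (τ.dl S) * JJ C c.κ (c.rs (Λ S) * c.rs (hh A)) : ℚ) +
        (c.vq (τ.dl S) * JJ C c.κ (W S c * c.rs (hh A)) : ℚ)) atTop (𝓝 0) := fun S c hc => by
    obtain ⟨e, e0, e1, e2⟩ := he S c hc
    have sg : ∀ f : ∀ _ : τ.Cl, Dv k F → ℝ,
        ∑ S', ∑ c' ∈ prs A (τ.dl S'), (e S' c' : ℝ) * f S' c' = f S c := fun f => by
      rw [Finset.sum_eq_single S (fun S' _ h => Finset.sum_eq_zero fun c' _ => by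
        rw [e2 S' c' fun h' => h h'.1, Rat.cast_zero, zero_mul]) (by simp),
        Finset.sum_eq_single_of_mem c hc fun c' _ h => by
          rw [e2 S c' fun h' => h h'.2, Rat.cast_zero, zero_mul], e1, Rat.cast_one, one_mul]
    have := (hs ⟨_, e0⟩).const_sub ((c.vq (τ.dl S) * JJ C c.κ (W S c * c.rs (hh A)) : ℚ) : ℝ)
    simp only [fq, y_A hC h3 M St hG, Pi.zero_apply, Rat.cast_zero, zero_mul, mul_zero, map_zero,
      LinearMap.zero_apply, zero_add, add_zero, neg_zero, zero_sub, Rat.cast_sum, Rat.cast_mul _ (_ * _),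
      mul_comm _ (e _ _ : ℝ), mul_assoc, ← mul_add, sg, sub_self, sub_neg_eq_add] at this
    exact this.congr fun i => add_comm _ _
  have key := fun i => est hC h3 M St hG ht hL d0 (s i) (V' i) rfl (β + 2 * q (s i) l ^ 2 /
    (JJ C L (hh (sys k x a) * hh (sys k x a) * pb ι (hh A) * pb ι (hh A)) : ℚ) +
    2 * II C X x y (hh (sys k x a) * cl (τ.dvL A G 0 (s i))))
    (le_of_tendsto_of_tendsto' (lim_z hC h3 ht M hG hL hB (fun _ h => (hg h).1) (hM _ (s i).2))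
      ((((((hq (s i) l).pow 2).const_mul 2).div_const _).const_add _).add_const _) fun n => by
        have := hβ (s i) n
        rw [hl, mul_right_comm _ (cl _) (hh _), mul_right_comm _ (pb ι _) (hh _)]
        exact_mod_cast this)
  simp only [add_sub_cancel_right] at key
  have lim := (((((((n1 M.g0 v).add t4).const_mul (2 / τ.d : ℝ)).add ((n2 M.g0 (ev (LinearMap.fst ℚ _ _ ∘ₗ
    LinearMap.snd ℚ _ _))).const_mul 2)).sub (n1 M.ka v)).sub (n2 M.ka (ev (τ.g1L A G)))).sub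
    ((((t2.pow 2).const_mul 2).div_const (JJ C L (hh (sys k x a) * hh (sys k x a) * pb ι (hh A) *
      pb ι (hh A)) : ℚ)).const_add (β : ℝ))).sub (tendsto_finsetSum Finset.univ fun S _ =>
    (((n2 (M.dl S) (ev (τ.gSL A G Lt m S))).const_mul (2 * (τ.nS S / τ.d) : ℝ)).sub
      (((n1 (M.dl S) v).sub (n2 (M.dl S) (ev (τ.g1L A G)))).const_mul ((τ.nS S / τ.d) ^ 2 : ℝ))).add
    (tendsto_finsetSum (prs A (τ.dl S)) fun c hc =>
      ((n2 (M.lam S) ((LinearMap.proj c ∘ₗ LinearMap.proj S ∘ₗ LinearMap.snd ℚ _ _ ∘ₗ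
        LinearMap.snd ℚ _ _ ∘ₗ LinearMap.snd ℚ _ _ ∘ₗ MM.subtype).smulRight (G 0 S c))).const_mul
        (2 * (τ.nS S / τ.d) : ℝ)).add ((((t3 S c hc).sub ((n1 hA' (G 0 S c)).const_mul
          (τ.nS S / τ.d : ℝ))).pow 2).div_const
          ((c.vq (τ.dl S) * JJ C c.κ (c.rs (hh A * hh A)) : ℚ) : ℝ))))
  have := le_of_tendsto' lim key
  refine (Rat.cast_le (K := ℝ)).1 ?_
  simpa using this

end Tree

end Pool.Agent.Work.MP_ffcd14_ag.Uni
end

-- merged part: Pool.Agent.Work.MP_ffcd14_ag.Uni.Z6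
section
/-! # The standard conjecture of Hodge type for uniruled fourfolds -/

open MvPolynomial Filter Topology

namespace Pool.Agent.Work.MP_ffcd14_ag.Uni

universe u v w

variable {k F L : Type u} [Field k] [Field F] [Field L] [Algebra k F] [Algebra k L]
  {K : Type v} [Field K] [CharZero K] {C : NT.{u, v, w} k K} {P : Amb}
  [IsAlgClosed k] (hC : C.Chow)
include hC

theorem tree_sq [Fg k F] [Fg k L] (h3 : td k F = 3) {ι : F →ₐ[k] L} {t : L} (ht : Simp ι t)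
    {X : Var k P} (hX : IsIrreducible X.pts) (hd : X.dim = 4) {x : P.V → L} (hx : IsGen X.pts x)
    {a : P.ι →₀ ℕ} (ha : ∀ i, 0 < a i) (τ : Tree ι t (sys k x a)) {y z : EE C X}
    (hy : y ∈ AA C X 2) (hz : z ∈ AA C X 2) (hp : ∀ r, II C X x y (hh (sys k x a) * r) = 0) :
    ∃ b : ℚ, ∀ r : ℚ, b ≤ II C X x ((z + r • y) * (z + r • y)) 1 := by
  classical
  obtain ⟨A, Vη, Λ, m, M⟩ := τ.exists_mod ht
  obtain ⟨v, W, St⟩ := exists_star hC hX hy h3 ht hx.onS ha τ M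
  obtain ⟨v', W', St'⟩ := exists_star hC hX hz h3 ht hx.onS ha τ M
  choose Lt hL using fun S => Dat_le_N1 A (M.lam S)
  obtain ⟨G, Ξ, hΞ, hG, hs⟩ := τ.exists_seq hC h3 M.gen M.dl
  let s : Set (ℕ → DD k F) := (fun D _ => D) '' ({v, v', -mD A, τ.g0, τ.h0} ∪ Set.range τ.dl ∪
    Set.range Lt) ∪ ⋃ S, (fun c n => G n S c) '' prs A (τ.dl S)
  have fs : s.Finite := (((Set.toFinite _).union (Set.finite_range _)).union
    (Set.finite_range _)).image _ |>.union (Set.finite_iUnion fun S => (Finset.finite_toSet _).image _)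
  have cs : ∀ D ∈ ({v, v', -mD A, τ.g0, τ.h0} ∪ Set.range τ.dl ∪ Set.range Lt : Set (DD k F)),
      (fun _ => D) ∈ Submodule.span ℚ s := fun D h => Submodule.subset_span (Or.inl ⟨D, h, rfl⟩)
  have hB : Tree.Cn τ A G Lt (Submodule.span ℚ s) := ⟨cs _ (by simp), cs _ (by simp),
    fun S => cs _ (by simp), fun S => cs _ (by simp), fun S c hc =>
      Submodule.subset_span (Or.inr (Set.mem_iUnion.2 ⟨S, c, hc, rfl⟩))⟩
  have hg : Submodule.span ℚ s ≤ GS hC h3 M.gen Ξ := Submodule.span_le.2 (by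
    have gd := fun {D} h => good_dat hC h3 M.gen (G := D) h
    rintro _ (⟨D, h, rfl⟩ | h)
    · refine ⟨?_, fun _ _ _ => rfl⟩
      rcases h with ((rfl | rfl | rfl | rfl | rfl) | ⟨S, rfl⟩) | ⟨S, rfl⟩
      · exact St.good
      · exact St'.good
      · exact gd (by rw [map_neg, cl_mD, neg_neg]; exact hh_dat dvd_rfl)
      · exact gd M.g0
      · exact gd (neg_mem_iff.1 M.ka)
      · exact gd (M.dl S)
      · exact gd (hL S ▸ M.lam S)
    · obtain ⟨S, c, hc, rfl⟩ := Set.mem_iUnion.1 h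
      exact hs S c hc)
  let e : τ.Cl → Dv k F → τ.Cl → Dv k F → ℚ := fun S c S' c' => if S' = S ∧ c' = c then 1 else 0
  let s' : Set (τ.Cl → Dv k F → ℚ) := ⋃ S, e S '' prs A (τ.dl S)
  let MM : Submodule ℚ τ.Par := (⊤ : Submodule ℚ ℚ).prod ((Submodule.span ℚ s).prod
    ((⊤ : Submodule ℚ (τ.Cl → ℚ)).prod (Submodule.span ℚ s')))
  have : FiniteDimensional ℚ MM := Module.Finite.iff_fg.2 (Module.Finite.fg_top.prod
    ((Submodule.fg_span fs).prod (Module.Finite.fg_top.prod (Submodule.fg_span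
      (Set.finite_iUnion fun S => (Finset.finite_toSet _).image _)))))
  obtain ⟨β, hβ⟩ := Tree.z_bound hC h3 ht hX hd hx ha M hB hΞ hg (MM := MM) (fun p h => h.2.1) hz
  refine ⟨-(β + 2 * II C X x z (hh (sys k x a) * pb ι (hh A)) ^ 2 /
    JJ C L (hh (sys k x a) * hh (sys k x a) * pb ι (hh A) * pb ι (hh A))), fun r => ?_⟩
  have hr := add_mem hz (Submodule.smul_mem _ r hy)
  have er : ∀ g, II C X x (z + r • y) (hh (sys k x a) * g) = II C X x z (hh (sys k x a) * g) :=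
    fun g => by rw [map_add, map_smul, LinearMap.add_apply, LinearMap.smul_apply, hp, smul_zero,
      add_zero]
  obtain ⟨v'', W'', St''⟩ := exists_star hC hX hr h3 ht hx.onS ha τ M
  have := Tree.core hC h3 ht hX hd hx ha M hr St'' hG hL hB hΞ hg (MM := MM) (fun p h => h.2.1)
    (l := ⟨(τ.d, -fun _ => τ.g0, fun S => -τ.nS S, 0), trivial, neg_mem hB.g0, trivial, zero_mem _⟩)
    (fun n => by
      rw [τ.hh_eq]
      simp [Tree.dvL, Tree.cl_dv, sub_eq_add_neg, add_comm])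
    ⟨(fun _ => v') + r • fun _ => v, add_mem (cs _ (by simp))
      (Submodule.smul_mem _ _ (cs _ (by simp))), LinearMap.ext fun H => by
        have hA : hh A ∈ Dat A := hh_dat dvd_rfl
        simp only [Pi.add_apply, Pi.smul_apply, map_add, map_smul, LinearMap.add_apply,
          LinearMap.smul_apply, ← Tree.y_pb hC h3 M St hA, ← Tree.y_pb hC h3 M St' hA,
          ← Tree.y_pb hC h3 M St'' hA, Rat.smul_def, smul_eq_mul, Rat.cast_add, Rat.cast_mul]⟩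
    (cs _ (by simp))
    (fun b h => ⟨trivial, h, trivial, zero_mem _⟩) (fun S c hc => ⟨e S c, ⟨trivial, zero_mem _,
      trivial, Submodule.subset_span (Set.mem_iUnion.2 ⟨S, c, hc, rfl⟩)⟩, if_pos ⟨rfl, rfl⟩,
      fun _ _ h => if_neg h⟩) (β := β) (by simpa only [er] using hβ)
  rwa [er] at this

/-- The squares of `z + r y` are bounded below for a primitive class `y`. -/
theorem uni_bd {X : Var k P} (h : Uniruled X) (hd : X.dim = 4) {a : P.ι →₀ ℕ}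
    (ha : ∀ i, 0 < a i) {y z : EE C X} (hy : y ∈ AA C X 2) (hz : z ∈ AA C X 2)
    (hN : N0 C X (y * ln C X a)) : ∃ b : ℚ, ∀ r : ℚ,
      b ≤ 2 * r * tau C X (y * z) + r ^ 2 * tau C X (y * y) := by
  obtain ⟨F, L, _, _, _, _, _, ι, t, x, h3, ht, hx, ⟨τ⟩⟩ := h.setup hd ha
  have := ht.fg
  obtain ⟨b, h1⟩ := tree_sq hC h3 ht h.irr hd hx ha τ hy hz fun r => by
    rw [← II_ln hC X hx.ne, II_N0 hC hx.ne hN]
  obtain ⟨n, hn, e⟩ := II_top hC h.irr hx (by rw [ht.td_eq, h3, hd])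
  refine ⟨b / n - tau C X (z * z), fun r => ?_⟩
  have := h1 r
  rw [e, ← div_le_iff₀' (by exact_mod_cast hn)] at this
  simp only [add_mul, mul_add, smul_mul_assoc, mul_smul_comm, map_add, map_smul, smul_eq_mul,
    mul_comm z y] at this
  linarith only [this]

theorem uni_nonneg {X : Var k P} (h : Uniruled X) (hd : X.dim = 4) {a : P.ι →₀ ℕ}
    (ha : ∀ i, 0 < a i) {y : EE C X} (hy : y ∈ AA C X 2) (hN : N0 C X (y * ln C X a)) :
    0 ≤ tau C X (y * y) := by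
  obtain ⟨b, hb⟩ := uni_bd hC h hd ha hy (zero_mem _) hN
  by_contra h0
  have h1 := not_le.1 h0
  have := hb ((|b| + 1) / -tau C X (y * y) + 1)
  have h2 : 0 < (|b| + 1) / -tau C X (y * y) := div_pos (by positivity) (by linarith only [h0])
  have h3 := div_mul_cancel₀ (|b| + 1) (by linarith only [h0] : -tau C X (y * y) ≠ 0)
  rw [mul_zero, map_zero, mul_zero, zero_add] at this
  linarith only [h0, this, h3, h2, h1, neg_abs_le b, mul_pos (mul_pos h2 h2) (neg_pos.2 h1), mul_nonneg_of_nonpos_of_nonpos (Mathlib.Tactic.Linarith.sub_nonpos_of_le (sq_nonneg (-((1 : ℚ) * ((|b| + (1 : ℚ)) / (tau C X) (y * y))) + (1 : ℚ) * (1 : ℚ)))) (le_of_lt (Mathlib.Tactic.Linarith.sub_neg_of_lt (lt_of_not_ge h0)))]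

theorem uni_sh {X : Var k P} (h : Uniruled X) (hd : X.dim = 4) {a : P.ι →₀ ℕ}
    (ha : ∀ i, 0 < a i) : SH C X 0 (ln C X a) := by
  intro y hy h0
  have hm : y * ln C X a ∈ AA C X (2 + 1) := AA_mul C X hy (HS_le_AA C X (ln_mem_HS C X a))
  rw [pow_zero, one_mul]
  refine uni_nonneg hC h hd ha hy ((N0_iff C X (c' := 1) (by omega) hm).2 fun D hD => ?_)
  have h1 := h0 D hD
  rwa [zero_add, pow_one, mul_comm (ln C X a)] at h1

/-- The standard conjecture of Hodge type for uniruled fourfolds in a numerical theory. -/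
theorem uni_N {X : Var k P} (h : Uniruled X) (hd : X.dim = 4) {a : P.ι →₀ ℕ}
    (ha : ∀ i, 0 < a i) {n : ℕ} (hn : 2 * n ≤ 4) : HN C X (ln C X a) n (X.dim - 2 * n) := by
  obtain rfl | rfl | rfl : n = 0 ∨ n = 1 ∨ n = 2 := by omega
  · exact hn_zero hC.cyc X h.irr ha
  · exact hn_one hC.cyc X h.irr (by omega) ha
  intro y hy h1 h2
  rw [hd, Nat.sub_self] at h1 ⊢
  rw [zero_add, pow_one, mul_comm] at h1
  rw [neg_one_sq, one_mul, pow_zero, one_mul]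
  refine (uni_nonneg hC h hd ha hy h1).lt_of_ne fun h0 => h2 ?_
  refine (N0_iff C X (c' := 2) (by omega) hy).2 fun z hz => ?_
  obtain ⟨b, hb⟩ := uni_bd hC h hd ha hy hz h1
  by_contra hne
  have := hb ((b - 1) / (2 * tau C X (y * z)))
  rw [← h0, mul_zero, add_zero, mul_right_comm, mul_div_cancel₀ _ (mul_ne_zero two_ne_zero hne)]
    at this
  linarith only [this]

end Pool.Agent.Work.MP_ffcd14_ag.Uni
end
end
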