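import Pool.Agent.Work.MP_ffcd14_ag.Uni.I0c
import Pool.Agent.Work.MP_ffcd14_ag.Cyc.HI
import Pool.Agent.Work.MP_ffcd14_ag.Uni.B0

-- merged part: Pool.Agent.Work.MP_ffcd14_ag.Uni.I0e
section
/-! # Multiplicities and the divisor of a section on a normal model -/

open MvPolynomial

namespace Pool.Agent.Work.MP_ffcd14_ag.Uni

universe u v w

open Noeth

variable {k L : Type u} [Field k] [Field L] [Algebra k L]
  {K : Type v} [Field K] [CharZero K] {P : Amb} {C : NT.{u, v, w} k K}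

theorem I0e_pow {f : MvPolynomial P.V k} {a : P.ι →₀ ℕ} (hf : IsForm f a) (n : ℕ) :
    IsForm (f ^ n) (n • a) := IsWeightedHomogeneous.pow hf n

theorem I0e_ge {w : P.V → L} (hw : NZ w) (ν : Dv k L) {f : MvPolynomial P.V k} {a : P.ι →₀ ℕ}
    (hf : IsForm f a) (h : aeval w f ≠ 0) : mn (sys k w a) ν.toVl ≤ ν (aeval w f) :=
  mn_le _ _ ((mem_sys hw).2 ⟨f, hf, rfl⟩) h

theorem I0e_ne {w : P.V → L} (hw : NZ w) (ν : Dv k L) {f : MvPolynomial P.V k} {a : P.ι →₀ ℕ}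
    (hf : IsForm f a) : aeval (rpt ν w) f ≠ 0 ↔
      aeval w f ≠ 0 ∧ ν (aeval w f) = mn (sys k w a) ν.toVl := by
  rw [Ne, aeval_rpt_eq_zero hw ν hf, Vl.mem_gt, not_or, not_lt]
  exact and_congr_right fun h => ⟨fun h' => le_antisymm h' (I0e_ge hw ν hf h), fun h' => h'.le⟩

/-- Every function is a quotient of two forms. -/
theorem Gen.frac {w : P.V → L} (hg : Gen k w) (hw : NZ w) (x : L) :
    ∃ (f g : MvPolynomial P.V k) (a : P.ι →₀ ℕ), IsForm f a ∧ IsForm g a ∧ aeval w g ≠ 0 ∧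
      x * aeval w g = aeval w f := by
  choose ς hς using hw
  obtain ⟨g, a, q, hq, hf, h⟩ := Eta_den (k := k) (ς := ς)
    (v := fun s : P.V => (w ⟨s.1, ς s.1⟩)⁻¹ * w s) (fun i => inv_mul_cancel₀ (hς i)) (hg.norm hς)
    (fun b : Bool => if b then x else 1)
  have h0 := h true
  have h1 := h false
  rw [(hf _).aeval_scale (fun i => (w ⟨i, ς i⟩)⁻¹) w] at h0 h1
  simp only [if_true, Bool.false_eq_true, if_false, mul_one] at h0 h1
  have c0 : (a.prod fun i m => (w ⟨i, ς i⟩)⁻¹ ^ m) ≠ 0 := left_ne_zero_of_mul (h1 ▸ hq)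
  refine ⟨g true, g false, a, hf _, hf _, right_ne_zero_of_mul (h1 ▸ hq), ?_⟩
  apply mul_left_cancel₀ c0
  rw [h0, ← h1]
  ring

theorem Nrm.gen {w : P.V → L} (hn : Nrm k w) (hw : NZ w) {ν : Dv k L}
    (hν : rn k (rat (rpt ν w)) + 1 = td k L) : Gen k (rpt ν w) := by
  refine eq_top_iff.2 fun y _ => ?_
  obtain ⟨x, hx, rfl⟩ := ν.res_surj y
  obtain ⟨f, g, a, hf, hg, h0, e⟩ := hn ν hν x hx
  obtain ⟨h1, h2⟩ := (I0e_ne hw ν hg).1 h0
  have hp : ν.π ^ ν.mz (sys k w a) ≠ 0 := zpow_ne_zero _ ν.π_ne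
  have h3 : ν (aeval w g / ν.π ^ ν.mz (sys k w a)) = 0 := by
    rw [ν.div h1 hp, ν.zpow, ν.v_π, h2, ν.mz_cast, mul_one, sub_self]
  have e2 : x = (aeval w f / ν.π ^ ν.mz (sys k w a)) / (aeval w g / ν.π ^ ν.mz (sys k w a)) := by
    rw [← e]
    field_simp
  rw [e2, ν.res_div _ h3, ← aeval_rpt hw ν hf, ← aeval_rpt hw ν hg]
  exact ratio_mem _ (hw.rpt ν) hf hg

theorem Nrm.uniq {w : P.V → L} (hn : Nrm k w) (hw : NZ w) {ν μ : Dv k L}
    (hν : rn k (rat (rpt ν w)) + 1 = td k L) {T : Set (P.Pt k)} (h : IsGen T (rpt ν w))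
    (h' : IsGen T (rpt μ w)) : ν = μ := by
  refine Dv.ext_le fun x hx => ?_
  obtain ⟨f, g, a, hf, hg, h0, e⟩ := hn ν hν x hx
  obtain ⟨h1, h2⟩ := (I0e_ne hw μ hg).1 fun h3 => h0 ((h.iff _ _ hg).2 ((h'.iff _ _ hg).1 h3))
  rcases eq_or_ne x 0 with rfl | hx0
  · exact μ.zero.ge
  · have h3 := I0e_ge hw μ hf (e ▸ mul_ne_zero hx0 h1)
    rw [← e, μ.mul _ _ hx0 h1, h2] at h3
    linarith

variable [IsAlgClosed k]

section len

variable {w : P.V → L} {Z T : Sub k P} {ν : Dv k L} (hZ : IsGen (Z : Set (P.Pt k)) w)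
  (hT : IsGen (T : Set (P.Pt k)) (rpt ν w))
include hZ hT

theorem I0e_le : T ≤ Z := (onS_iff hT Z.isClosed).1 (hZ.onS.rpt ν)

omit [IsAlgClosed k] hZ in
theorem I0e_zero {g : MvPolynomial P.V k} {a : P.ι →₀ ℕ} (hg : IsForm g a)
    (h : aeval (rpt ν w) g ≠ 0) :
    len (idl (T : Set (P.Pt k))) (idl (Z : Set (P.Pt k)) ⊔ Ideal.span {g}) = 0 := by
  have := idl_prime T
  refine (len_eq_zero_iff _ _).2 fun h' => h ((hT.iff _ _ hg).2 ?_)
  exact ((VolT_le_iff hg).1 h').2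

/-- Division by powers of a local equation. -/
theorem I0e_div (hn : Nrm k w) (hν : rn k (rat (rpt ν w)) + 1 = td k L)
    {f₀ g₀ : MvPolynomial P.V k} {b : P.ι →₀ ℕ} (hf₀ : IsForm f₀ b) (hg₀ : IsForm g₀ b)
    (h₀ : aeval (rpt ν w) g₀ ≠ 0) (e₀ : ν.π * aeval w g₀ = aeval w f₀)
    {F : MvPolynomial P.V k} {c : P.ι →₀ ℕ} (hF : IsForm F c) (h : aeval w F ≠ 0) (e : ℕ)
    (he : mn (sys k w c) ν.toVl + e ≤ ν (aeval w F)) :
    ∃ (A s : MvPolynomial P.V k) (c' c'' : P.ι →₀ ℕ), IsForm A c' ∧ IsForm s c'' ∧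
      aeval (rpt ν w) s ≠ 0 ∧ s * F - A * f₀ ^ e ∈ idl (Z : Set (P.Pt k)) ∧
      (mn (sys k w c) ν.toVl + e = ν (aeval w F) → aeval (rpt ν w) A ≠ 0) := by
  have hw : NZ w := hZ.ne
  obtain ⟨h₁, hh₁, hv⟩ := num2_form T c
  have r₁ : aeval (rpt ν w) h₁ ≠ 0 := fun h3 => hv ((hT.iff _ _ hh₁).1 h3)
  obtain ⟨n₁, v₁⟩ := (I0e_ne hw ν hh₁).1 r₁
  have hp : ν.π ^ e ≠ 0 := pow_ne_zero _ ν.π_ne
  have hx : ν (aeval w F / (aeval w h₁ * ν.π ^ e)) =
      ν (aeval w F) - (mn (sys k w c) ν.toVl + e) := by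
    rw [ν.div h (mul_ne_zero n₁ hp), ν.mul _ _ n₁ hp, ν.pow, ν.v_π, v₁, mul_one]
  obtain ⟨A, B, c₁, hA, hB, rB, eB⟩ := hn ν hν _ (by rw [hx]; linarith)
  obtain ⟨nB, vB⟩ := (I0e_ne hw ν hB).1 rB
  refine ⟨h₁ * A, B * g₀ ^ e, _, _, hh₁.mul hA, hB.mul (I0e_pow hg₀ e), ?_, ?_, fun h' => ?_⟩
  · rw [map_mul, map_pow]
    exact mul_ne_zero rB (pow_ne_zero _ h₀)
  · have f1 := (hB.mul (I0e_pow hg₀ e)).mul hF
    have f2 := (hh₁.mul hA).mul (I0e_pow hf₀ e)
    rw [show c + c₁ + e • b = c₁ + e • b + c by abel] at f2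
    have f3 : IsForm (B * g₀ ^ e * F - h₁ * A * f₀ ^ e) (c₁ + e • b + c) :=
      IsWeightedHomogeneous.sub f1 f2
    rw [mem_idl f3, ← hZ.iff _ _ f3]
    simp only [map_sub, map_mul, map_pow, ← eB, ← e₀]
    field_simp
    ring
  · rw [map_mul]
    have hx0 : aeval w F / (aeval w h₁ * ν.π ^ e) ≠ 0 := div_ne_zero h (mul_ne_zero n₁ hp)
    refine mul_ne_zero r₁ ((I0e_ne hw ν hA).2 ⟨eB ▸ mul_ne_zero hx0 nB, ?_⟩)
    rw [← eB, ν.mul _ _ hx0 nB, hx, h', vB, sub_self, zero_add]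

/-- The multiplicity is the order of vanishing. -/
theorem I0e_len (hn : Nrm k w) (hν : rn k (rat (rpt ν w)) + 1 = td k L)
    {F : MvPolynomial P.V k} {c : P.ι →₀ ℕ} (hF : IsForm F c) (h : aeval w F ≠ 0) (e : ℕ)
    (he : mn (sys k w c) ν.toVl + e = ν (aeval w F)) :
    len (idl (T : Set (P.Pt k))) (idl (Z : Set (P.Pt k)) ⊔ Ideal.span {F}) = e := by
  classical
  have hw : NZ w := hZ.ne
  have hp := idl_prime T
  have hI := idl_prime Z
  obtain ⟨f₀, g₀, b, hf₀, hg₀, h₀, e₀⟩ := hn ν hν ν.π (by rw [ν.v_π]; exact zero_le_one)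
  obtain ⟨n₀, v₀⟩ := (I0e_ne hw ν hg₀).1 h₀
  have nf : aeval w f₀ ≠ 0 := e₀ ▸ mul_ne_zero ν.π_ne n₀
  have notI : ∀ {G : MvPolynomial P.V k} {a : P.ι →₀ ℕ}, IsForm G a → aeval w G ≠ 0 →
      G ∉ idl (Z : Set (P.Pt k)) := fun hG h1 h2 => h1 ((hZ.iff _ _ hG).2 ((mem_idl hG).1 h2))
  have notp : ∀ {G : MvPolynomial P.V k} {a : P.ι →₀ ℕ}, IsForm G a → aeval (rpt ν w) G ≠ 0 →
      G ∉ idl (T : Set (P.Pt k)) := fun hG h1 h2 => h1 ((hT.iff _ _ hG).2 ((mem_idl hG).1 h2))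
  have hJ : idl (Z : Set (P.Pt k)) ⊔ Ideal.span {f₀} ≤ idl (T : Set (P.Pt k)) := by
    refine (VolT_le_iff hf₀).2 ⟨I0e_le hZ hT, (hT.iff _ _ hf₀).1 ?_⟩
    by_contra h1
    have h2 := ((I0e_ne hw ν hf₀).1 h1).2
    rw [← e₀, ν.mul _ _ ν.π_ne n₀, ν.v_π, v₀] at h2
    linarith
  have loc : ∀ G ∈ idl (T : Set (P.Pt k)), ∃ s ∉ idl (T : Set (P.Pt k)),
      s * G ∈ idl (Z : Set (P.Pt k)) ⊔ Ideal.span {f₀} := by
    intro G hG
    induction hG using Submodule.span_induction with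
    | mem G hG =>
      obtain ⟨⟨a, ha⟩, hv⟩ := hG
      by_cases h1 : aeval w G = 0
      · exact ⟨1, (Ideal.ne_top_iff_one _).1 hp.ne_top, Ideal.mem_sup_left
          (Ideal.mul_mem_left _ _ ((mem_idl ha).2 ((hZ.iff _ _ ha).1 h1)))⟩
      · have h2 : mn (sys k w a) ν.toVl < ν (aeval w G) :=
          ((aeval_rpt_eq_zero hw ν ha).1 ((hT.iff _ _ ha).2 hv)).resolve_left h1
        obtain ⟨A, s, c', c'', -, hs, rs, hm, -⟩ := I0e_div hZ hT hn hν hf₀ hg₀ h₀ e₀ ha h1 1 (by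
          rw [← ν.mz_cast, ← ν.z_cast] at h2 ⊢
          exact_mod_cast h2)
        refine ⟨s, notp hs rs, ?_⟩
        rw [pow_one] at hm
        rw [← sub_add_cancel (s * G) (A * f₀)]
        exact add_mem (Ideal.mem_sup_left hm)
          (Ideal.mem_sup_right (Ideal.mul_mem_left _ _ (Ideal.mem_span_singleton_self _)))
    | zero => exact ⟨1, (Ideal.ne_top_iff_one _).1 hp.ne_top, by rw [mul_zero]; exact zero_mem _⟩
    | add x y _ _ hx hy =>
      obtain ⟨s, hs, hx⟩ := hx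
      obtain ⟨t, ht, hy⟩ := hy
      refine ⟨s * t, fun h1 => (hp.mem_or_mem h1).elim hs ht, ?_⟩
      rw [show s * t * (x + y) = t * (s * x) + s * (t * y) by ring]
      exact add_mem (Ideal.mul_mem_left _ _ hx) (Ideal.mul_mem_left _ _ hy)
    | smul a x _ hx =>
      obtain ⟨s, hs, hx⟩ := hx
      refine ⟨s, hs, ?_⟩
      rw [smul_eq_mul, mul_left_comm]
      exact Ideal.mul_mem_left _ _ hx
  have one : len (idl (T : Set (P.Pt k))) (idl (Z : Set (P.Pt k)) ⊔ Ideal.span {f₀}) = 1 := by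
    obtain ⟨t, ht⟩ : (idl (T : Set (P.Pt k))).FG := IsNoetherian.noetherian _
    choose! s hs hs' using loc
    have hmem : ∀ G ∈ t, G ∈ idl (T : Set (P.Pt k)) := fun G hG => ht ▸ Ideal.subset_span hG
    have hprod : ∏ G ∈ t, s G ∉ idl (T : Set (P.Pt k)) := fun h1 => by
      obtain ⟨G, hG, h2⟩ := Ideal.IsPrime.prod_mem_iff.1 h1
      exact hs G (hmem G hG) h2
    have hc : (idl (Z : Set (P.Pt k)) ⊔ Ideal.span {f₀}).colon {∏ G ∈ t, s G} =
        idl (T : Set (P.Pt k)) := by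
      refine le_antisymm (fun G hG => ?_) ?_
      · rw [Submodule.mem_colon_singleton, smul_eq_mul] at hG
        exact (hp.mem_or_mem (hJ hG)).resolve_right hprod
      · conv_lhs => rw [← ht]
        refine Ideal.span_le.2 fun G hG => ?_
        rw [SetLike.mem_coe, Submodule.mem_colon_singleton, smul_eq_mul,
          ← Finset.mul_prod_erase t s hG, ← mul_assoc, mul_comm G]
        exact Ideal.mul_mem_right _ _ (hs' G (hmem G hG))
    rw [len_add _ _ (∏ G ∈ t, s G), hc, len_self, (len_eq_zero_iff _ _).2, add_zero]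
    exact fun h1 => hprod (h1 (Ideal.mem_sup_right (Ideal.mem_span_singleton_self _)))
  obtain ⟨A, s, c', c'', hA, hs, rs, hm, rA⟩ := I0e_div hZ hT hn hν hf₀ hg₀ h₀ e₀ hF h e he.le
  have pw : ∀ n : ℕ, len (idl (T : Set (P.Pt k)))
      (idl (Z : Set (P.Pt k)) ⊔ Ideal.span {A * f₀ ^ n}) = n := by
    intro n
    induction n with
    | zero => rw [pow_zero, mul_one, I0e_zero hT hA (rA he), Nat.cast_zero]
    | succ n ih => rw [pow_succ, ← mul_assoc, len_mul _ _ _ (notI hf₀ nf), ih, one, Nat.cast_succ]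
  have h1 := len_mul (idl (T : Set (P.Pt k))) (idl (Z : Set (P.Pt k))) s (notI hF h)
  rw [VolT_sup_eq hm, pw, I0e_zero hT hs rs, zero_add] at h1
  exact h1.symm

end len

variable [Fg k L]

theorem I0e_fin {w : P.V → L} (hw : NZ w) (D : DD k L) :
    {ν : Dv k L | ν.vq D ≠ 0 ∧ rn k (rat (rpt ν w)) + 1 = td k L}.Finite := by
  refine (fin_dv D (sys k w (ones P))).subset fun ν hν => ⟨hν.1, ?_⟩
  rw [← sys_rpt hw, I0a_rn_sys (hw.rpt ν)]
  exact hν.2

/-- The divisor of a section on a normal model. -/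
theorem I0e_sec (hC : C.Chow) (Ω : Var k P) {w : P.V → L} {Z : Sub k P}
    (hZ : IsGen (Z : Set (P.Pt k)) w) (hs : (Z : Set (P.Pt k)) ⊆ Ω.pts) (hg : Gen k w)
    (hn : Nrm k w) {c : Dv k L → Sub k P} (hc : ∀ ν, IsGen (c ν : Set (P.Pt k)) (rpt ν w))
    {f : MvPolynomial P.V k} {a : P.ι →₀ ℕ} (hf : IsForm f a) (h : aeval w f ≠ 0)
    (s : Finset (Dv k L)) (hs' : ∀ ν, ν ∈ s ↔ ν.vq (vD k (aeval w f) - mD (sys k w a)) ≠ 0 ∧
      rn k (rat (rpt ν w)) + 1 = td k L) :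
    cy C Ω Z * ln C Ω a = ∑ ν ∈ s, ν.vq (vD k (aeval w f) - mD (sys k w a)) • cy C Ω (c ν) := by
  classical
  have hw : NZ w := hZ.ne
  have hd := hg.sdim hZ
  have hv : ¬ Van (Z : Set (P.Pt k)) f := fun h1 => h ((hZ.iff _ _ hf).2 h1)
  have sub : ∀ ν, (c ν : Set (P.Pt k)) ⊆ Ω.pts := fun ν => num2_sub (I0e_le hZ (hc ν)) hs
  have val : ∀ ν : Dv k L, rn k (rat (rpt ν w)) + 1 = td k L →
      ν.vq (vD k (aeval w f) - mD (sys k w a)) = (len (idl (c ν : Set (P.Pt k)))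
        (idl (Z : Set (P.Pt k)) ⊔ Ideal.span {f})).toNat := by
    intro ν hν
    have h1 := I0e_ge hw ν hf h
    rw [← ν.mz_cast, ← ν.z_cast, Int.cast_le] at h1
    obtain ⟨e, he⟩ := Int.le.dest h1
    rw [I0e_len hZ (hc ν) hn hν hf h e (by rw [← ν.mz_cast, ← ν.z_cast, ← he]; push_cast; rfl),
      map_sub, ν.vq_vD, ν.vq_mD, ← he]
    simp
  have val' : ∀ ν : Dv k L, rn k (rat (rpt ν w)) + 1 = td k L →
      ν.vq (vD k (aeval w f) - mD (sys k w a)) = mu Z (c ν) f := fun ν hν => by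
    rw [val ν hν, mu, if_pos (by rw [← rn_rat (hc ν), hν, hd])]
  have inj : Set.InjOn c s := fun ν hν μ _ e => hn.uniq hw ((hs' ν).1 hν).2 (hc ν) (e ▸ hc μ)
  refine (hC.div Ω hs f a hf hv (s.image c) fun T hT => ?_).trans ?_
  · obtain ⟨h2, h1, -⟩ := (mu_pos hf hv T).1 hT
    obtain ⟨ν, hν⟩ := lift_dv hZ h2 hd (h1.trans hd)
    have e : c ν = T := (hc ν).unique hν
    have hν' : rn k (rat (rpt ν w)) + 1 = td k L := by rw [rn_rat hν, h1, hd]
    refine Finset.mem_image.2 ⟨ν, (hs' ν).2 ⟨?_, hν'⟩, e⟩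
    rw [val' ν hν', e]
    exact_mod_cast hT.ne'
  · rw [Finset.sum_image inj]
    exact Finset.sum_congr rfl fun ν hν => by rw [val' ν ((hs' ν).1 hν).2]; rfl

/-- The cycle of a b-divisor on a normal model. -/
theorem exists_Gam (hC : C.Chow) (Ω : Var k P) {w : P.V → L} {Z : Sub k P}
    (hZ : IsGen (Z : Set (P.Pt k)) w) (hs : (Z : Set (P.Pt k)) ⊆ Ω.pts) (hg : Gen k w)
    (hn : Nrm k w) {c : Dv k L → Sub k P} (hc : ∀ ν, IsGen (c ν : Set (P.Pt k)) (rpt ν w)) :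
    ∃ Γ : DD k L →ₗ[ℚ] EE C Ω, (∀ i, Γ (mD (blk k w i)) = -(cy C Ω Z * hy C Ω i)) ∧
      (∀ f, Γ (vD k f) = 0) ∧ ∀ (D : DD k L) (s : Finset (Dv k L)),
        (∀ ν, ν ∈ s ↔ ν.vq D ≠ 0 ∧ rn k (rat (rpt ν w)) + 1 = td k L) →
          Γ D = ∑ ν ∈ s, ν.vq D • cy C Ω (c ν) := by
  classical
  have hw : NZ w := hZ.ne
  let g : DD k L → Dv k L → EE C Ω := fun D ν =>
    if rn k (rat (rpt ν w)) + 1 = td k L then ν.vq D • cy C Ω (c ν) else 0
  have sup : ∀ D, Function.support (g D) ⊆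
      {ν : Dv k L | ν.vq D ≠ 0 ∧ rn k (rat (rpt ν w)) + 1 = td k L} := fun D ν hν => by
    by_contra h
    refine hν ?_
    simp only [g]
    split_ifs with h1
    · rw [not_not.1 fun h2 => h ⟨h2, h1⟩, zero_smul]
    · rfl
  have fin : ∀ D, (Function.support (g D)).Finite := fun D => (I0e_fin hw D).subset (sup D)
  let Γ : DD k L →ₗ[ℚ] EE C Ω :=
    { toFun := fun D => ∑ᶠ ν, g D ν
      map_add' := fun D D' => by
        rw [← finsum_add_distrib (fin D) (fin D')]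
        refine finsum_congr fun ν => ?_
        simp only [g]
        split_ifs
        · rw [map_add, add_smul]
        · rw [add_zero]
      map_smul' := fun q D => by
        rw [RingHom.id_apply, smul_finsum' q (fin D)]
        refine finsum_congr fun ν => ?_
        simp only [g]
        split_ifs
        · rw [map_smul, smul_smul, smul_eq_mul]
        · rw [smul_zero] }
  have h3 : ∀ (D : DD k L) (s : Finset (Dv k L)),
      (∀ ν, ν ∈ s ↔ ν.vq D ≠ 0 ∧ rn k (rat (rpt ν w)) + 1 = td k L) →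
        Γ D = ∑ ν ∈ s, ν.vq D • cy C Ω (c ν) := fun D s h => by
    change ∑ᶠ ν, g D ν = _
    rw [finsum_eq_sum_of_support_subset (s := s) _ fun ν hν => (h ν).2 (sup D hν)]
    exact Finset.sum_congr rfl fun ν hν => if_pos ((h ν).1 hν).2
  have h0 : ∀ (f : MvPolynomial P.V k) a, IsForm f a → aeval w f ≠ 0 →
      Γ (vD k (aeval w f) - mD (sys k w a)) = cy C Ω Z * ln C Ω a := fun f a hf h => by
    have h4 := fun ν => (I0e_fin hw (vD k (aeval w f) - mD (sys k w a))).mem_toFinset (a := ν)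
    rw [h3 _ _ h4, I0e_sec hC Ω hZ hs hg hn hc hf h _ h4]
  have h2 : ∀ f, Γ (vD k f) = 0 := fun x => by
    rcases eq_or_ne x 0 with rfl | hx
    · rw [show vD k (0 : L) = 0 from DD.ext fun v => by rw [vD_apply, v.zero, DD.zero_apply],
        map_zero]
    · obtain ⟨f, g, a, hf, hg', h0', e⟩ := hg.frac hw x
      have e' : vD k x = (vD k (aeval w f) - mD (sys k w a)) -
          (vD k (aeval w g) - mD (sys k w a)) := DD.ext fun v => by
        simp only [DD.sub_apply, vD_apply, ← e, v.mul _ _ hx h0']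
        ring
      rw [e', map_sub, h0 f a hf (e ▸ mul_ne_zero hx h0'), h0 g a hg' h0', sub_self]
  refine ⟨Γ, fun i => ?_, h2, h3⟩
  obtain ⟨s, hs⟩ := hw i
  have h4 := h0 _ _ (IsForm.X ⟨i, s⟩) (by rwa [aeval_X])
  rw [map_sub, h2, zero_sub, I0a_sys_single, pow_one, ln_single] at h4
  rw [← h4, neg_neg]

end Pool.Agent.Work.MP_ffcd14_ag.Uni
end

-- merged part: Pool.Agent.Work.MP_ffcd14_ag.Uni.I0f
section
/-! # The relations of the ring of classes hold numerically on every model -/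

open MvPolynomial Finsupp

namespace Pool.Agent.Work.MP_ffcd14_ag.Uni

universe u v w

variable {k L : Type u} [Field k] [Field L] [Algebra k L]
  {K : Type v} [Field K] [CharZero K] {P P' Q : Amb} {C : NT.{u, v, w} k K}

variable (C) in
/-- The classes which are numerically trivial on `Z`. -/
noncomputable def ann (Ω : Var k P) (Z : Sub k P) : Ideal (EE C Ω) where
  carrier := {x | ∀ y, nm C Ω Z (x * y) = 0}
  add_mem' hx hy y := by rw [add_mul, map_add, hx y, hy y, add_zero]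
  zero_mem' y := by rw [zero_mul, map_zero]
  smul_mem' c x hx y := by rw [smul_eq_mul, mul_comm c, mul_assoc, hx]

theorem I0f_ann {Ω : Var k P} {Z : Sub k P} {x : EE C Ω} (h : cy C Ω Z * x = 0) :
    x ∈ ann C Ω Z := fun y => by rw [nm_apply, ← mul_assoc, h, zero_mul, map_zero]

theorem I0f_pl {Ω : Var k P'} {X : Var k P} (π : Prj Ω X) (p : MvPolynomial P.ι ℚ) :
    pl C π (aeval (hy C X) p) = aeval (hy C Ω) (rename π.ψ p) := by
  rw [aeval_rename, comp_aeval_apply]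
  exact congrArg (fun f => aeval f p) (funext fun i => pl_hy C π i)

theorem I0f_hh {w : P'.V → L} (hw : NZ w) (β : Crd k P P') (p : MvPolynomial P.ι ℚ) :
    aeval (fun i => hh (blk k (w ∘ β.ε) i)) p =
      aeval (fun j => hh (blk k w j)) (rename β.ψ p) := by
  rw [aeval_rename]
  exact congrArg (fun f => aeval f p) (funext fun i => by rw [blk_comp hw]; rfl)

theorem I0f_HA (Ω : Var k P) (p : MvPolynomial P.ι ℚ) : aeval (hy C Ω) p ∈ HA C Ω := by
  rw [HA, Algebra.adjoin_range_eq_range_aeval]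
  exact ⟨p, rfl⟩

theorem I0f_cover {S : Set (FD k L)} (hS : S.Finite) :
    ∃ (Q : Amb) (u : Q.V → L), NZ u ∧ Set.range (blk k u) = S := by
  obtain ⟨n, f, -, hf⟩ := hS.fin_param
  obtain ⟨σ, _, u, hu, e⟩ := exists_coords f
  exact ⟨_, u, hu, by rw [← hf]; exact congrArg Set.range (funext e)⟩

theorem I0f_poly {A : Set (FD k L)} {r : N k L} (hr : r ∈ Algebra.adjoin ℚ (hh '' A)) :
    ∃ (Q : Amb) (u : Q.V → L) (p : MvPolynomial Q.ι ℚ), NZ u ∧ (∀ j, blk k u j ∈ A) ∧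
      r = aeval (fun j => hh (blk k u j)) p := by
  rw [Set.image_eq_range, Algebra.adjoin_range_eq_range_aeval] at hr
  obtain ⟨x, rfl⟩ := hr
  obtain ⟨n, f, -, q, rfl⟩ := exists_fin_rename x
  obtain ⟨σ, _, u, hu, e⟩ := exists_coords fun i => (f i).1
  refine ⟨_, u, q, hu, fun j => by rw [e]; exact (f j).2, ?_⟩
  change aeval _ (rename f q) = _
  rw [aeval_rename]
  exact congrArg (fun f => aeval f q) (funext fun i => by rw [e]; rfl)

theorem I0f_model [Fg k L] (r : N k L) : ∃ (Q : Amb) (u : Q.V → L) (p : MvPolynomial Q.ι ℚ),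
    NZ u ∧ Gen k u ∧ r = aeval (fun j => hh (blk k u j)) p := by
  obtain ⟨Q, u, p, hu, -, e⟩ := I0f_poly (A := Set.univ) (r := r)
    (by rw [Set.image_univ, adjoin_hh]; trivial)
  obtain ⟨Q', u', hu', hg⟩ := I0a_gen (k := k) (L := L)
  exact ⟨_, Amb.elim u u', rename (Crd.inl k Q Q').ψ p, hu.elim hu', hg.right u,
    e.trans (I0f_hh (hu.elim hu') (Crd.inl k Q Q') p)⟩

theorem I0f_lc {Ω : Var k P} {w : P.V → L} {Z : Sub k P} {Γ : DD k L →ₗ[ℚ] EE C Ω}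
    (h : ∀ i, Γ (mD (blk k w i)) = -(cy C Ω Z * hy C Ω i)) {α : Type*} (τ : α → P.ι)
    (c : α →₀ ℚ) : Γ (linearCombination ℚ (fun a => mD (blk k w (τ a))) c) =
      -(cy C Ω Z * linearCombination ℚ (fun a => hy C Ω (τ a)) c) := by
  induction c using Finsupp.induction_linear with
  | zero => simp
  | add f g hf hg => rw [map_add, map_add, map_add, hf, hg, mul_add, neg_add]
  | single a q => rw [linearCombination_single, linearCombination_single, map_smul, h,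
      mul_smul_comm, smul_neg]

theorem I0f_aeval_lc {α : Type*} {B : Type*} [CommRing B] [Algebra ℚ B] (f : α → B)
    (c : α →₀ ℚ) : aeval f (linearCombination ℚ (X : α → MvPolynomial α ℚ) c) =
      linearCombination ℚ f c := by
  induction c using Finsupp.induction_linear with
  | zero => simp
  | add f g hf hg => rw [map_add, map_add, map_add, hf, hg]
  | single a q => rw [linearCombination_single, linearCombination_single, map_smul, aeval_X]

theorem I0f_lc_congr {α M : Type*} [AddCommGroup M] [Module ℚ M] {f g : α → M} {c : α →₀ ℚ}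
    (h : ∀ a ∈ c.support, f a = g a) : linearCombination ℚ f c = linearCombination ℚ g c := by
  rw [linearCombination_apply, linearCombination_apply]
  exact Finsupp.sum_congr fun a ha => by rw [h a ha]

variable [IsAlgClosed k]

theorem I0f_sub {Ω : Var k P} {w : P.V → L} (hw : OnS Ω.pts w) {u : Q.V → L}
    {Z : Sub k (P.sum Q)} (hZ : IsGen (Z : Set ((P.sum Q).Pt k)) (Amb.elim w u)) :
    (Z : Set ((P.sum Q).Pt k)) ⊆ (Ω.ext Q).pts :=
  (onS_iff hZ (Ω.ext Q).closed).1 (hw.ext (NZ.comp hZ.ne (Crd.inr k P Q)))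

variable [Fg k L] (hC : C.Chow)
include hC

/-- Passage to a larger model. -/
theorem I0f_up {Ω : Var k P} {w : P.V → L} {Z : Sub k P} (hZ : IsGen (Z : Set (P.Pt k)) w)
    (hs : (Z : Set (P.Pt k)) ⊆ Ω.pts) (hg : Gen k w) {u : Q.V → L} (hu : NZ u) :
    ∃ Z' : Sub k (P.sum Q), IsGen (Z' : Set ((P.sum Q).Pt k)) (Amb.elim w u) ∧
      (Z' : Set ((P.sum Q).Pt k)) ⊆ (Ω.ext Q).pts ∧
      ∀ y, nm C (Ω.ext Q) Z' (pl C (Prj.one Ω Q) y) = nm C Ω Z y := by
  obtain ⟨Z', hZ'⟩ := exists_isGen (k := k) (NZ.elim hZ.ne hu)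
  have hs' := I0f_sub (hZ.onS.mono hs) hZ'
  refine ⟨Z', hZ', hs', fun y => ?_⟩
  rw [push_one hC (Prj.one Ω Q) hs' hZ' hg y, hZ.unique ((Prj.one Ω Q).isGen_img hZ')]

/-- Linear relations between the functions `mn V` hold numerically on every model. -/
theorem I0f_lin {Ω : Var k P} {w : P.V → L} {Z : Sub k P} (hZ : IsGen (Z : Set (P.Pt k)) w)
    (hs : (Z : Set (P.Pt k)) ⊆ Ω.pts) (hg : Gen k w) {α : Type*} (τ : α → P.ι) (c : α →₀ ℚ)
    (h : linearCombination ℚ (fun a => mD (blk k w (τ a))) c = 0) :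
    linearCombination ℚ (fun a => hy C Ω (τ a)) c ∈ ann C Ω Z := by
  obtain ⟨Q, u, hu, hn⟩ := exists_nrm hZ.ne hg
  obtain ⟨Z', hZ', hs', e⟩ := I0f_up hC hZ hs hg hu
  choose cn hc using fun ν : Dv k L => exists_isGen (k := k) (NZ.rpt hZ'.ne ν)
  obtain ⟨Γ, h1, -, -⟩ := exists_Gam hC _ hZ' hs' (hg.left u) hn hc
  have h2 := I0f_lc h1 (fun a => Sum.inl (τ a)) c
  simp only [blk_inl] at h2
  rw [h, map_zero, eq_comm, neg_eq_zero] at h2
  intro y
  rw [← e, map_mul]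
  refine I0f_ann ?_ _
  rw [← h2]
  congr 1
  refine (apply_linearCombination ℚ (pl C (Prj.one Ω Q)).toLinearMap _ c).trans ?_
  exact congrArg (fun f => linearCombination ℚ f c) (funext fun a => pl_hy C (Prj.one Ω Q) (τ a))

/-- The relations hold on a normal model which contains the data. -/
theorem I0f_rel {x : MvPolynomial (FD k L) ℚ} (hx : x ∈ rel k L) :
    ∃ S : Set (FD k L), S.Finite ∧ ∀ (P : Amb) (Ω : Var k P) (w : P.V → L) (Z : Sub k P),
      IsGen (Z : Set (P.Pt k)) w → (Z : Set (P.Pt k)) ⊆ Ω.pts → Gen k w → Nrm k w →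
      ∀ τ : FD k L → P.ι, (∀ V ∈ S, blk k w (τ V) = V) →
        aeval (fun V => hy C Ω (τ V)) x ∈ ann C Ω Z := by
  induction hx using Submodule.span_induction with
  | mem x hx =>
    rcases hx with (⟨c, hc, rfl⟩ | ⟨f, rfl⟩) | ⟨c, c', hc, rfl⟩
    · refine ⟨c.support, c.support.finite_toSet, fun P Ω w Z hZ hs hg _ τ hτ => ?_⟩
      rw [I0f_aeval_lc]
      refine I0f_lin hC hZ hs hg τ c ?_
      rw [← hc]
      exact I0f_lc_congr fun V hV => by rw [hτ V hV]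
    · refine ⟨{FD.pr f}, Set.finite_singleton _, fun P Ω w Z hZ hs hg hn τ hτ => ?_⟩
      choose cn hc using fun ν : Dv k L => exists_isGen (k := k) (NZ.rpt hZ.ne ν)
      obtain ⟨Γ, h1, h2, -⟩ := exists_Gam hC _ hZ hs hg hn hc
      have h3 := h1 (τ (FD.pr f))
      rw [hτ _ rfl, ← vD, h2, eq_comm, neg_eq_zero] at h3
      rw [aeval_X]
      exact I0f_ann h3
    · refine ⟨c.support ∪ c'.support, c.support.finite_toSet.union c'.support.finite_toSet,
        fun P Ω w Z hZ hs hg hn τ hτ => ?_⟩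
      choose cn hcn using fun ν : Dv k L => exists_isGen (k := k) (NZ.rpt hZ.ne ν)
      obtain ⟨Γ, h1, -, h2⟩ := exists_Gam hC _ hZ hs hg hn hcn
      have e : linearCombination ℚ (fun V => mD (blk k w (τ V))) c = linearCombination ℚ mD c :=
        I0f_lc_congr fun V hV => by rw [hτ V (Or.inl hV)]
      have e' : linearCombination ℚ (fun V => mD (blk k w (τ V))) c' =
          linearCombination ℚ mD c' := I0f_lc_congr fun V hV => by rw [hτ V (Or.inr hV)]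
      have h3 := I0f_lc h1 τ c
      have h4 := fun ν => (I0e_fin hZ.ne (linearCombination ℚ mD c)).mem_toFinset (a := ν)
      rw [e, h2 _ _ h4, eq_comm, neg_eq_iff_eq_neg] at h3
      rw [map_mul, I0f_aeval_lc, I0f_aeval_lc]
      intro y
      rw [nm_apply, mul_assoc, ← mul_assoc, h3, neg_mul, map_neg, neg_eq_zero, Finset.sum_mul, map_sum]
      refine Finset.sum_eq_zero fun ν hν => ?_
      obtain ⟨h5, h6⟩ := (h4 ν).1 hν
      rw [smul_mul_assoc, map_smul, ← nm_apply, I0f_lin hC (hcn ν)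
        (num2_sub (I0e_le hZ (hcn ν)) hs) (hn.gen hZ.ne h6) τ c' ?_ y, smul_zero]
      have h7 := ν.vq_inf (linearCombination ℚ mD c) (linearCombination ℚ mD c')
      rw [hc, map_zero] at h7
      have h8 : ν.vq (linearCombination ℚ mD c') < ν.vq (linearCombination ℚ mD c) := by
        by_contra h9
        exact h5 (by rw [h7, min_eq_left (not_lt.1 h9)])
      have h9 := ν.rD_inf_lt h8
      rw [inf_comm, hc, map_zero, ← e', apply_linearCombination] at h9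
      rw [h9]
      exact congrArg (fun f => linearCombination ℚ f c') (funext fun V => by
        rw [Function.comp_apply, ν.rD_mD, blk_rpt hZ.ne])
  | zero => exact ⟨∅, Set.finite_empty, fun P Ω w Z _ _ _ _ τ _ => by
      rw [map_zero]; exact zero_mem _⟩
  | add x y _ _ hx hy =>
    obtain ⟨S, hS, hx⟩ := hx
    obtain ⟨S', hS', hy⟩ := hy
    refine ⟨S ∪ S', hS.union hS', fun P Ω w Z hZ hs hg hn τ hτ => ?_⟩
    rw [map_add]
    exact add_mem (hx P Ω w Z hZ hs hg hn τ fun V hV => hτ V (Or.inl hV))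
      (hy P Ω w Z hZ hs hg hn τ fun V hV => hτ V (Or.inr hV))
  | smul a x _ hx =>
    obtain ⟨S, hS, hx⟩ := hx
    refine ⟨S, hS, fun P Ω w Z hZ hs hg hn τ hτ => ?_⟩
    rw [smul_eq_mul, map_mul]
    exact Ideal.mul_mem_left _ _ (hx P Ω w Z hZ hs hg hn τ hτ)

/-- A polynomial which vanishes in the ring of classes is numerically trivial on the model. -/
theorem I0f_key {Ω : Var k P} {w : P.V → L} {Z : Sub k P} (hZ : IsGen (Z : Set (P.Pt k)) w)
    (hs : (Z : Set (P.Pt k)) ⊆ Ω.pts) (hg : Gen k w) {p : MvPolynomial P.ι ℚ}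
    (hp : aeval (fun i => hh (blk k w i)) p = 0) : aeval (hy C Ω) p ∈ ann C Ω Z := by
  have h0 : rename (blk k w) p ∈ rel k L := by
    rw [← mkN_eq_zero, mkN_eq, aeval_rename]
    exact hp
  obtain ⟨S, hS, H⟩ := I0f_rel hC h0
  obtain ⟨Q, u, hu, e⟩ := I0f_cover (hS.insert 1)
  obtain ⟨Z₁, hZ₁, hs₁, e₁⟩ := I0f_up hC hZ hs hg hu
  obtain ⟨Q', u', hu', hn⟩ := exists_nrm hZ₁.ne (hg.left u)
  obtain ⟨Z₂, hZ₂, hs₂, e₂⟩ := I0f_up hC hZ₁ hs₁ (hg.left u) hu'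
  have hg₂ := (hg.left u).left u'
  have : Nonempty ((P.sum Q).sum Q').ι := by
    obtain ⟨j, -⟩ : 1 ∈ Set.range (blk k u) := e ▸ Set.mem_insert _ _
    exact ⟨Sum.inl (Sum.inr j)⟩
  have h1 := H _ _ _ _ hZ₂ hs₂ hg₂ hn (Function.invFun (blk k (Amb.elim (Amb.elim w u) u')))
    fun V hV => by
      obtain ⟨j, hj⟩ : V ∈ Set.range (blk k u) := e ▸ Set.mem_insert_of_mem _ hV
      exact Function.invFun_eq ⟨Sum.inl (Sum.inr j), hj⟩
  intro y
  rw [← e₁, ← e₂, map_mul, map_mul, I0f_pl, I0f_pl, rename_rename, aeval_rename]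
  rw [aeval_rename] at h1
  refine (?_ : _ ∈ ann C _ Z₂) _
  rw [← Ideal.Quotient.eq_zero_iff_mem, ← Ideal.Quotient.mkₐ_eq_mk ℚ, comp_aeval_apply] at h1 ⊢
  rw [← h1]
  refine congrArg (fun f => aeval f p) (funext fun i => ?_)
  rw [Ideal.Quotient.mkₐ_eq_mk, Ideal.Quotient.eq]
  have h2 := I0f_lin hC hZ₂ hs₂ hg₂ (fun b : Bool => if b then Sum.inl (Sum.inl i) else
    Function.invFun (blk k (Amb.elim (Amb.elim w u) u')) (blk k w i))
    (single true 1 - single false 1) (by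
      rw [map_sub, linearCombination_single, linearCombination_single, sub_eq_zero]
      simp only [if_true, Bool.false_eq_true, if_false]
      rw [Function.invFun_eq (f := blk k (Amb.elim (Amb.elim w u) u')) (b := blk k w i)
        ⟨Sum.inl (Sum.inl i), rfl⟩]
      rfl)
  rw [map_sub, linearCombination_single, linearCombination_single, one_smul, one_smul] at h2
  exact h2

omit [IsAlgClosed k] [Fg k L] hC in
/-- The product of the identity of `Ω` with a coordinate map. -/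
noncomputable def I0f_prj (Ω : Var k P) (γ : Crd k Q P') : Prj (Ω.ext P') (Ω.ext Q) where
  toCrd := (Crd.inl k P P').pair (γ.comp (Crd.inr k P P'))
  maps _ hx := Var.mem_ext.2 (Var.mem_ext.1 hx)

omit [IsAlgClosed k] [Fg k L] hC [Field L] [Algebra k L] in
theorem I0f_prj_pt (Ω : Var k P) (γ : Crd k Q P') (w : P.V → L) (u : P'.V → L) :
    Amb.elim w u ∘ (I0f_prj Ω γ).ε = Amb.elim w (u ∘ γ.ε) := by
  funext s
  rcases s with ⟨i | j, s⟩ <;> rfl

theorem I0f_lift {Ω : Var k P} {w : P.V → L} (hw : OnS Ω.pts w) (γ : Crd k Q P') {u : P'.V → L}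
    {Z' : Sub k (P.sum P')} (hZ' : IsGen (Z' : Set ((P.sum P').Pt k)) (Amb.elim w u))
    {Z : Sub k (P.sum Q)} (hZ : IsGen (Z : Set ((P.sum Q).Pt k)) (Amb.elim w (u ∘ γ.ε)))
    (hg : Gen k (Amb.elim w (u ∘ γ.ε))) (ω : EE C Ω) (p : MvPolynomial Q.ι ℚ) :
    nm C (Ω.ext Q) Z (pl C (Prj.one Ω Q) ω *
      aeval (fun j => hy C (Ω.ext Q) (Sum.inr j)) p) =
    nm C (Ω.ext P') Z' (pl C (Prj.one Ω P') ω *
      aeval (fun j => hy C (Ω.ext P') (Sum.inr j)) (rename γ.ψ p)) := by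
  have h1 := (I0f_prj Ω γ).isGen_img hZ'
  rw [I0f_prj_pt] at h1
  rw [hZ.unique h1, ← push_one hC (I0f_prj Ω γ) (I0f_sub hw hZ') hZ' (by rwa [I0f_prj_pt]),
    map_mul, ← pl_comp C (I0f_prj Ω γ) (Prj.one Ω Q) (Prj.one Ω P') fun _ => rfl,
    comp_aeval_apply, aeval_rename]
  congr 2
  exact congrArg (fun f => aeval f p) (funext fun j => pl_hy C (I0f_prj Ω γ) (Sum.inr j))

omit [IsAlgClosed k] [Fg k L] hC in
variable (C) in
/-- `ψ` gives the intersection numbers with `r` on some model. -/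
def I0f_Md (Ω : Var k P) (w : P.V → L) (r : N k L) (ψ : EE C Ω →ₗ[ℚ] ℚ) : Prop :=
  ∃ (Q : Amb) (u : Q.V → L) (Z : Sub k (P.sum Q)) (p : MvPolynomial Q.ι ℚ),
    IsGen (Z : Set ((P.sum Q).Pt k)) (Amb.elim w u) ∧ Gen k (Amb.elim w u) ∧
    r = aeval (fun j => hh (blk k u j)) p ∧ ∀ ω, ψ ω = nm C (Ω.ext Q) Z
      (pl C (Prj.one Ω Q) ω * aeval (fun j => hy C (Ω.ext Q) (Sum.inr j)) p)

theorem I0f_add {Ω : Var k P} {w : P.V → L} (hw : OnS Ω.pts w) {r r' : N k L}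
    {ψ ψ' : EE C Ω →ₗ[ℚ] ℚ} (h : I0f_Md C Ω w r ψ) (h' : I0f_Md C Ω w r' ψ') :
    I0f_Md C Ω w (r + r') (ψ + ψ') := by
  obtain ⟨Q, u, Z, p, hZ, hg, rfl, e⟩ := h
  obtain ⟨Q', u', Z', p', hZ', hg', rfl, e'⟩ := h'
  have hu : NZ (Amb.elim u u') :=
    NZ.elim (NZ.comp hZ.ne (Crd.inr k P Q)) (NZ.comp hZ'.ne (Crd.inr k P Q'))
  obtain ⟨Y, hY⟩ := exists_isGen (k := k) (hw.nz.elim hu)
  refine ⟨_, Amb.elim u u', Y, rename (Crd.inl k Q Q').ψ p + rename (Crd.inr k Q Q').ψ p', hY,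
    hg.mono ?_, ?_, fun ω => ?_⟩
  · simp only [rat_elim]
    exact Set.union_subset_union_right _ Set.subset_union_left
  · rw [map_add, ← I0f_hh hu, ← I0f_hh hu]
    rfl
  · rw [LinearMap.add_apply, e, e', map_add, mul_add, map_add,
      ← I0f_lift hC hw (Crd.inl k Q Q') hY hZ hg, ← I0f_lift hC hw (Crd.inr k Q Q') hY hZ' hg']

omit [IsAlgClosed k] [Fg k L] hC in
theorem I0f_smul {Ω : Var k P} {w : P.V → L} {r : N k L} {ψ : EE C Ω →ₗ[ℚ] ℚ}
    (h : I0f_Md C Ω w r ψ) (q : ℚ) : I0f_Md C Ω w (q • r) (q • ψ) := by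
  obtain ⟨Q, u, Z, p, hZ, hg, rfl, e⟩ := h
  exact ⟨Q, u, Z, q • p, hZ, hg, by rw [map_smul], fun ω => by
    rw [LinearMap.smul_apply, e, map_smul, mul_smul_comm, map_smul]⟩

theorem I0f_uniq {Ω : Var k P} {w : P.V → L} (hw : OnS Ω.pts w) {r : N k L}
    {ψ ψ' : EE C Ω →ₗ[ℚ] ℚ} (h : I0f_Md C Ω w r ψ) (h' : I0f_Md C Ω w r ψ') : ψ = ψ' := by
  obtain ⟨Q, u, Z, p, hZ, hg, e, e'⟩ := I0f_add hC hw h (I0f_smul h' (-1))
  rw [neg_one_smul, add_neg_cancel] at e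
  have h1 := I0f_key hC hZ (I0f_sub hw hZ) hg (p := rename (Crd.inr k P Q).ψ p)
    (by rw [← I0f_hh hZ.ne]; exact e.symm)
  rw [aeval_rename] at h1
  ext ω
  have h2 := e' ω
  rw [mul_comm, neg_one_smul, LinearMap.add_apply, LinearMap.neg_apply, ← sub_eq_add_neg] at h2
  exact sub_eq_zero.1 (h2.trans (h1 _))

omit [IsAlgClosed k] [Fg k L] hC in
theorem I0f_mk {Ω : Var k P} {w : P.V → L} {u : Q.V → L} {Z : Sub k (P.sum Q)}
    (hZ : IsGen (Z : Set ((P.sum Q).Pt k)) (Amb.elim w u)) (hg : Gen k (Amb.elim w u))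
    (p : MvPolynomial Q.ι ℚ) : I0f_Md C Ω w (aeval (fun j => hh (blk k u j)) p)
      (nm C (Ω.ext Q) Z ∘ₗ LinearMap.mulRight ℚ (aeval (fun j => hy C (Ω.ext Q) (Sum.inr j)) p) ∘ₗ
        (pl C (Prj.one Ω Q)).toLinearMap) :=
  ⟨Q, u, Z, p, hZ, hg, rfl, fun _ => rfl⟩

omit [Fg k L] hC in
theorem I0f_off {Ω : Var k P} {w : P.V → L} (h : ¬ OnS Ω.pts w) {u : Q.V → L}
    {Z : Sub k (P.sum Q)} (hZ : IsGen (Z : Set ((P.sum Q).Pt k)) (Amb.elim w u))
    (y : EE C (Ω.ext Q)) : nm C (Ω.ext Q) Z y = 0 := by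
  rw [nm_apply, n1_cy_zero C _ fun hs => h ((hZ.onS.mono hs).prj (Prj.one Ω Q)), zero_mul,
    map_zero]

theorem II_spec (Ω : Var k P) {w : P.V → L} (hw : NZ w) : ISpec C Ω w (II C Ω w) := by
  have : ∃ φ, ISpec C Ω w φ := by
    by_cases h : OnS Ω.pts w
    · have tot : ∀ r, ∃ ψ, I0f_Md C Ω w r ψ := fun r => by
        obtain ⟨Q, u, p, hu, hg, rfl⟩ := I0f_model r
        obtain ⟨Z, hZ⟩ := exists_isGen (k := k) (hw.elim hu)
        exact ⟨_, I0f_mk hZ (hg.right w) p⟩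
      choose f hf using tot
      let φ : N k L →ₗ[ℚ] EE C Ω →ₗ[ℚ] ℚ :=
        { toFun := f
          map_add' := fun r r' => I0f_uniq hC h (hf _) (I0f_add hC h (hf r) (hf r'))
          map_smul' := fun q r => I0f_uniq hC h (hf _) (I0f_smul (hf r) q) }
      refine ⟨φ.flip, fun Q u Z hZ hg ω p => ?_⟩
      exact LinearMap.congr_fun (I0f_uniq hC h (hf _) (I0f_mk hZ hg p)) ω
    · exact ⟨0, fun Q u Z hZ _ ω p => (I0f_off h hZ _).symm⟩
  rw [II, dif_pos this]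
  exact this.choose_spec

end Pool.Agent.Work.MP_ffcd14_ag.Uni
end

-- merged part: Pool.Agent.Work.MP_ffcd14_ag.Uni.I0
section
/-! # Intersection numbers on function fields -/

open MvPolynomial

namespace Pool.Agent.Work.MP_ffcd14_ag.Uni

universe u v w

variable {k F L : Type u} [Field k] [Field F] [Field L] [Algebra k F] [Algebra k L]
  {K : Type v} [Field K] [CharZero K] {P P' Q : Amb} (C : NT.{u, v, w} k K)

variable {C} [IsAlgClosed k] [Fg k L] (hC : C.Chow)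
include hC

theorem II_off (Ω : Var k P) {w : P.V → L} (hw : NZ w) (h : ¬ OnS Ω.pts w) : II C Ω w = 0 := by
  ext ω r
  obtain ⟨Q, u, p, hu, hg, rfl⟩ := I0f_model r
  obtain ⟨Z, hZ⟩ := exists_isGen (k := k) (hw.elim hu)
  rw [II_spec hC Ω hw Q u Z hZ (hg.right w), I0f_off h hZ]
  rfl

/-- Evaluation on a generating model. -/
theorem II_eval {Ω : Var k P'} {X : Var k P} (π : Prj Ω X) {w : P'.V → L} {Z : Sub k P'}
    (hZ : IsGen (Z : Set (P'.Pt k)) w) (hs : (Z : Set (P'.Pt k)) ⊆ Ω.pts) (hg : Gen k w)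
    (ω : EE C X) (p : MvPolynomial P'.ι ℚ) :
    II C X (w ∘ π.ε) ω (aeval (fun i => hh (blk k w i)) p) =
      nm C Ω Z (pl C π ω * aeval (hy C Ω) p) := by
  let δ : Prj Ω (X.ext P') :=
    { toCrd := π.toCrd.pair (Crd.refl k P')
      maps := fun x hx => Var.mem_ext.2 (π.maps x hx) }
  have e : w ∘ δ.ε = Amb.elim (w ∘ π.ε) w := by
    funext s
    rcases s with ⟨i | j, s⟩ <;> rfl
  have h1 := δ.isGen_img hZ
  rw [e] at h1
  rw [II_spec hC X (NZ.comp hZ.ne π.toCrd) P' w _ h1 (hg.right _),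
    ← push_one hC δ hs hZ (e ▸ hg.right _), map_mul,
    ← pl_comp C δ (Prj.one X P') π fun _ => rfl, comp_aeval_apply]
  congr 2
  exact congrArg (fun f => aeval f p) (funext fun j => pl_hy C δ (Sum.inr j))

/-- Evaluation on any model. -/
theorem II_eval' {Ω : Var k P'} {X : Var k P} (π : Prj Ω X) {w : P'.V → L} {Z : Sub k P'}
    (hZ : IsGen (Z : Set (P'.Pt k)) w) (hs : (Z : Set (P'.Pt k)) ⊆ Ω.pts) :
    ∃ n : ℕ, (0 < n ↔ sdim Z = td k L) ∧ ∀ (ω : EE C X) (p : MvPolynomial P'.ι ℚ),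
      II C X (w ∘ π.ε) ω (aeval (fun i => hh (blk k w i)) p) =
        n * nm C Ω Z (pl C π ω * aeval (hy C Ω) p) := by
  obtain ⟨Q, u, hu, hg⟩ := I0a_gen (k := k) (L := L)
  obtain ⟨Z', hZ'⟩ := exists_isGen (k := k) (NZ.elim hZ.ne hu)
  have hs' := I0f_sub (hZ.onS.mono hs) hZ'
  obtain ⟨n, h1, h2⟩ := n_push hC.cyc (Prj.one Ω Q) hs'
  have e : (Prj.one Ω Q).img Z' = Z := ((Prj.one Ω Q).isGen_img hZ').unique hZ
  rw [e, (hg.right w).sdim hZ'] at h1
  refine ⟨n, h1.trans eq_comm, fun ω p => ?_⟩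
  have h3 := II_eval hC (π.comp (Prj.one Ω Q)) hZ' hs' (hg.right w) ω (rename (Prj.one Ω Q).ψ p)
  rw [← I0f_pl, pl_comp C (Prj.one Ω Q) π (π.comp (Prj.one Ω Q)) fun _ => rfl,
    ← map_mul, h2, e, ← I0f_hh hZ'.ne] at h3
  exact h3

omit hC in
/-- A generating model over `w` on which `r` is defined. -/
theorem II_ex (Ω : Var k P) {w : P.V → L} (hw : OnS Ω.pts w) (r : N k L) :
    ∃ (Q : Amb) (u : Q.V → L) (Z : Sub k (P.sum Q)) (p : MvPolynomial (P.sum Q).ι ℚ),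
      IsGen (Z : Set ((P.sum Q).Pt k)) (Amb.elim w u) ∧
      (Z : Set ((P.sum Q).Pt k)) ⊆ (Ω.ext Q).pts ∧ Gen k (Amb.elim w u) ∧
      r = aeval (fun j => hh (blk k (Amb.elim w u) j)) p := by
  obtain ⟨Q, u, p, hu, hg, rfl⟩ := I0f_model r
  obtain ⟨Z, hZ⟩ := exists_isGen (k := k) (hw.nz.elim hu)
  exact ⟨Q, u, Z, _, hZ, I0f_sub hw hZ, hg.right w, I0f_hh hZ.ne (Crd.inr k P Q) p⟩

theorem II_gen (Ω : Var k P) {w : P.V → L} {Z : Sub k P} (hZ : IsGen (Z : Set (P.Pt k)) w)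
    (hg : Gen k w) (ω : EE C Ω) (p : MvPolynomial P.ι ℚ) :
    II C Ω w ω (aeval (fun i => hh (blk k w i)) p) = nm C Ω Z (ω * aeval (hy C Ω) p) := by
  by_cases hs : (Z : Set (P.Pt k)) ⊆ Ω.pts
  · have := II_eval hC (Prj.refl Ω) hZ hs hg ω p
    rwa [pl_id C _ fun _ => rfl] at this
  · rw [II_off hC Ω hZ.ne (mt (onS_iff hZ Ω.closed).1 hs), nm_apply, n1_cy_zero C Ω hs, zero_mul,
      map_zero]
    rfl

theorem II_model (Ω : Var k P) {w : P.V → L} {Z : Sub k P} (hZ : IsGen (Z : Set (P.Pt k)) w)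
    (hd : sdim Z = td k L) : ∃ n : ℕ, 0 < n ∧ ∀ (ω : EE C Ω) (p : MvPolynomial P.ι ℚ),
      II C Ω w ω (aeval (fun i => hh (blk k w i)) p) = n * nm C Ω Z (ω * aeval (hy C Ω) p) := by
  by_cases hs : (Z : Set (P.Pt k)) ⊆ Ω.pts
  · obtain ⟨n, h1, h2⟩ := II_eval' hC (Prj.refl Ω) hZ hs
    refine ⟨n, h1.2 hd, fun ω p => ?_⟩
    have := h2 ω p
    rwa [pl_id C _ fun _ => rfl] at this
  · refine ⟨1, Nat.one_pos, fun ω p => ?_⟩
    rw [II_off hC Ω hZ.ne (mt (onS_iff hZ Ω.closed).1 hs), nm_apply, n1_cy_zero C Ω hs, zero_mul,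
      map_zero, mul_zero]
    rfl

theorem II_prj {Ω : Var k P'} {X : Var k P} (π : Prj Ω X) {w : P'.V → L} (hw : OnS Ω.pts w)
    (ω : EE C X) (r : N k L) : II C X (w ∘ π.ε) ω r = II C Ω w (pl C π ω) r := by
  obtain ⟨Q, u, Z, p, hZ, hs, hg, rfl⟩ := II_ex Ω hw r
  have h1 := II_eval hC (π.comp (Prj.one Ω Q)) hZ hs hg ω p
  rw [pl_comp C (Prj.one Ω Q) π (π.comp (Prj.one Ω Q)) fun _ => rfl] at h1
  exact h1.trans (II_eval hC (Prj.one Ω Q) hZ hs hg _ p).symm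

theorem II_aeval (Ω : Var k P) {w : P.V → L} (hw : NZ w) (ω : EE C Ω) (p : MvPolynomial P.ι ℚ)
    (r : N k L) : II C Ω w (ω * aeval (hy C Ω) p) r =
      II C Ω w ω (aeval (fun i => hh (blk k w i)) p * r) := by
  by_cases h : OnS Ω.pts w
  · obtain ⟨Q, u, Z, q, hZ, hs, hg, rfl⟩ := II_ex Ω h r
    have h1 := II_eval hC (Prj.one Ω Q) hZ hs hg (ω * aeval (hy C Ω) p) q
    have h2 := II_eval hC (Prj.one Ω Q) hZ hs hg ω (rename (Prj.one Ω Q).ψ p * q)
    rw [map_mul (pl C _), I0f_pl, mul_assoc, ← map_mul (aeval _)] at h1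
    rw [← h1, map_mul (aeval _), ← I0f_hh hZ.ne] at h2
    exact h2.symm
  · rw [II_off hC Ω hw h]
    rfl

theorem II_hy (Ω : Var k P) {w : P.V → L} (hw : NZ w) (ω : EE C Ω) (i : P.ι) (r : N k L) :
    II C Ω w (ω * hy C Ω i) r = II C Ω w ω (hh (blk k w i) * r) := by
  have := II_aeval hC Ω hw ω (X i) r
  rwa [aeval_X, aeval_X] at this

omit [IsAlgClosed k] [Fg k L] hC in
theorem I0_lin {B : Type*} [CommRing B] [Algebra ℚ B] {ι : Type} (f : ι → B) (a : ι →₀ ℕ) :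
    aeval f (lin (X : ι → MvPolynomial ι ℚ) a) = lin f a := by
  simp only [lin, map_finsuppSum, map_nsmul, aeval_X]

theorem II_ln (Ω : Var k P) {w : P.V → L} (hw : NZ w) (ω : EE C Ω) (a : P.ι →₀ ℕ) (r : N k L) :
    II C Ω w (ω * ln C Ω a) r = II C Ω w ω (hh (sys k w a) * r) := by
  have := II_aeval hC Ω hw ω (lin X a) r
  rwa [I0_lin, I0_lin, ← hh_sys] at this

theorem II_scale (Ω : Var k P) {w : P.V → L} (hw : NZ w) {μ : P.ι → L} (hμ : ∀ i, μ i ≠ 0) :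
    II C Ω (fun s => μ s.1 * w s) = II C Ω w := by
  ext ω r
  obtain ⟨Q, u, p, hu, hg, rfl⟩ := I0f_model r
  obtain ⟨Z, hZ⟩ := exists_isGen (k := k) (hw.elim hu)
  have h1 := hZ.scale (Sum.elim μ fun _ => 1) (by
    rintro (i | j)
    · exact hμ i
    · exact one_ne_zero)
  have e : (fun s : (P.sum Q).V => Sum.elim μ (fun _ => 1) s.1 * Amb.elim w u s) =
      Amb.elim (fun s => μ s.1 * w s) u := by
    funext s
    rcases s with ⟨i | j, s⟩
    · rfl
    · exact one_mul _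
  rw [e] at h1
  have hw' : NZ fun s : P.V => μ s.1 * w s := NZ.comp h1.ne (Crd.inl k P Q)
  rw [II_spec hC Ω hw Q u Z hZ (hg.right _), II_spec hC Ω hw' Q u Z h1 (hg.right _)]

omit [IsAlgClosed k] [Fg k L] hC in
/-- The map to the point. -/
def I0_nil (Ω : Var k P) : Prj Ω (Var.full k nil) where
  ε s := s.1.elim
  ψ i := i.elim
  fst s := s.1.elim
  pr _ i := i.elim
  rp_pr _ s := s.1.elim
  maps _ _ := trivial

theorem II_one (Ω : Var k P) {w : P.V → L} (hw : OnS Ω.pts w) (r : N k L) :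
    II C Ω w 1 r = JJ C L r := by
  have := II_prj hC (I0_nil Ω) hw 1 r
  rw [map_one (pl C _)] at this
  rw [← this, JJ]
  congr 3
  exact funext fun s => s.1.elim

omit [Fg k L] hC in
theorem I0_full {w : P.V → L} (hw : NZ w) : OnS (Var.full k P).pts w := by
  obtain ⟨Z, hZ⟩ := exists_isGen (k := k) hw
  exact hZ.onS.mono (Set.subset_univ _)

omit [IsAlgClosed k] [Fg k L] hC in
theorem I0_pb (ι : F →ₐ[k] L) (w : P.V → F) (p : MvPolynomial P.ι ℚ) :
    pb ι (aeval (fun i => hh (blk k w i)) p) = aeval (fun i => hh (blk k (ι ∘ w) i)) p := by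
  rw [comp_aeval_apply]
  exact congrArg (fun f => aeval f p) (funext fun i => by rw [pb_hh, blk_map])

theorem II_push [Fg k F] (ι : F →ₐ[k] L) (h : td k F = td k L) :
    ∃ n : ℕ, 0 < n ∧ (Function.Bijective ι → n = 1) ∧ (∀ g, JJ C L (pb ι g) = n * JJ C F g) ∧
      ∀ {P : Amb} (Ω : Var k P) (w : P.V → F), NZ w → ∀ (ω : EE C Ω) (g : N k F),
        II C Ω (ι ∘ w) ω (pb ι g) = n * II C Ω w ω g := by
  obtain ⟨Q₀, g₀, hg₀, hG⟩ := I0a_gen (k := k) (L := F)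
  obtain ⟨Z₀, hZ₀⟩ := exists_isGen (k := k) hg₀
  let p₀ : MvPolynomial Q₀.ι ℚ := lin X (ones Q₀) ^ td k F
  have pos : 0 < JJ C F (aeval (fun i => hh (blk k g₀ i)) p₀) := by
    have hp := nm_pos hC.cyc (Var.full k Q₀) (Crd.refl k Q₀) (Crd.refl k Q₀) (Z := Z₀)
      (Set.subset_univ _) (fun U _ => by rw [Crd.img_refl]) ones_pos ones_pos 0 (td k F)
      (Nat.zero_le _) (by rw [zero_add, hG.sdim hZ₀])
    have hid : (ones Q₀).mapDomain (Crd.refl k Q₀).ψ = ones Q₀ := Finsupp.mapDomain_id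
    rw [hid, pow_zero] at hp
    rwa [← II_one hC (Var.full k Q₀) (I0_full hg₀), II_gen hC _ hZ₀ hG, map_pow, I0_lin]
  have key : ∀ {P : Amb} (Ω : Var k P) (w : P.V → F), OnS Ω.pts w → ∀ g : N k F, ∃ n : ℕ, 0 < n ∧
      (∀ ω, II C Ω (ι ∘ w) ω (pb ι g) = n * II C Ω w ω g) ∧
      JJ C L (pb ι (aeval (fun i => hh (blk k g₀ i)) p₀)) =
        n * JJ C F (aeval (fun i => hh (blk k g₀ i)) p₀) := by
    intro P Ω w hw g
    obtain ⟨Q, u, Z, p, hZ, hs, hg, rfl⟩ := II_ex Ω hw g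
    obtain ⟨Y, hY⟩ := exists_isGen (k := k) (NZ.elim hZ.ne hg₀)
    have hs' := I0f_sub (hZ.onS.mono hs) hY
    obtain ⟨n, h1, h2⟩ :=
      II_eval' hC ((Prj.one Ω Q).comp (Prj.one (Ω.ext Q) Q₀)) (hY.map ι) hs'
    have h3 : ∀ ω q, II C Ω (ι ∘ w) ω (pb ι (aeval
        (fun j => hh (blk k (Amb.elim (Amb.elim w u) g₀) j)) q)) = n * II C Ω w ω (aeval
          (fun j => hh (blk k (Amb.elim (Amb.elim w u) g₀) j)) q) := fun ω q => by
      rw [I0_pb]
      exact (h2 ω q).trans (congrArg _ (II_eval hC ((Prj.one Ω Q).comp (Prj.one (Ω.ext Q) Q₀))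
        hY hs' (hG.right _) ω q).symm)
    refine ⟨n, h1.2 (((hG.right _).sdim hY).trans h), fun ω => ?_, ?_⟩
    · have h4 := h3 ω (rename (Crd.inl k _ Q₀).ψ p)
      rwa [← I0f_hh hY.ne] at h4
    · have h4 := h3 1 (rename (Crd.inr k _ Q₀).ψ p₀)
      rwa [← I0f_hh hY.ne, II_one hC Ω hw, II_one hC Ω (hw.map ι)] at h4
  obtain ⟨n, hn, -, hn'⟩ := key (Var.full k Q₀) g₀ (I0_full hg₀) 0
  have main : ∀ {P : Amb} (Ω : Var k P) (w : P.V → F), NZ w → ∀ (ω : EE C Ω) (g : N k F),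
      II C Ω (ι ∘ w) ω (pb ι g) = n * II C Ω w ω g := by
    intro P Ω w hw ω g
    by_cases h1 : OnS Ω.pts w
    · obtain ⟨n', -, h2, h3⟩ := key Ω w h1 g
      rw [h2, mul_right_cancel₀ pos.ne' (h3.symm.trans hn')]
    · obtain ⟨Z, hZ⟩ := exists_isGen (k := k) hw
      rw [II_off hC Ω hw h1, II_off hC Ω (hw.map ι) fun h2 => h1
        ((onS_iff hZ Ω.closed).2 ((onS_iff (hZ.map ι) Ω.closed).1 h2))]
      exact (mul_zero _).symm
  refine ⟨n, hn, fun hι => ?_, fun g => ?_, main⟩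
  · have hG' : Gen k (ι ∘ g₀) := by
      rw [Gen, rat_map, ← IntermediateField.adjoin_map, show IntermediateField.adjoin k (rat g₀) =
        ⊤ from hG, eq_top_iff]
      intro y _
      obtain ⟨x, rfl⟩ := hι.2 y
      exact ⟨x, trivial, rfl⟩
    rw [← II_one hC (Var.full k Q₀) (I0_full (hg₀.map ι)), I0_pb,
      II_gen hC _ (w := ι ∘ g₀) (hZ₀.map ι) hG',
      ← II_gen hC _ hZ₀ hG, II_one hC (Var.full k Q₀) (I0_full hg₀)] at hn'
    exact_mod_cast (mul_right_cancel₀ pos.ne' (hn'.symm.trans (one_mul _).symm))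
  · rw [← II_one hC (Var.full k Q₀) (I0_full (hg₀.map ι)),
      ← II_one hC (Var.full k Q₀) (I0_full hg₀), main _ _ hg₀]

omit [IsAlgClosed k] [Fg k L] hC in
theorem I0_rat {u : Q.V → L} (hu : NZ u) {s : Set L} (h : ∀ j, rt (blk k u j) ⊆ s) :
    rat u ⊆ s := by
  rintro _ ⟨j, a, b, rfl⟩
  have : ∀ a, u ⟨j, a⟩ ∈ (blk k u j).1 := fun a => by
    rw [blk, FD.sp_val (hu j)]
    exact Submodule.subset_span ⟨a, rfl⟩
  exact h j ⟨_, this a, _, this b, rfl⟩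

/-- All the data are defined over a field of smaller transcendence degree. -/
theorem II_van1 (Ω : Var k P) {w : P.V → L} (hw : NZ w) {s : Set L}
    (hs : rn k (rat w ∪ s) < td k L) (ω : EE C Ω) {r : N k L}
    (hr : r ∈ Algebra.adjoin ℚ (NS k s : Set (N k L))) : II C Ω w ω r = 0 := by
  by_cases h : OnS Ω.pts w
  · have hr' : r ∈ Algebra.adjoin ℚ (hh '' {U : FD k L | rt U ⊆ s}) := by
      refine Algebra.adjoin_le (Submodule.span_le (p := Subalgebra.toSubmodule _).2 ?_) hr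
      rintro _ ⟨U, hU, rfl⟩
      exact Algebra.subset_adjoin ⟨U, hU, rfl⟩
    obtain ⟨Q, u, p, hu, hu', rfl⟩ := I0f_poly hr'
    obtain ⟨Z, hZ⟩ := exists_isGen (k := k) (hw.elim hu)
    obtain ⟨n, h1, h2⟩ := II_eval' hC (Prj.one Ω Q) hZ (I0f_sub h hZ)
    have h3 : rn k (rat (Amb.elim w u)) ≤ rn k (rat w ∪ s) := by
      rw [rat_elim]
      exact rn_mono (Set.union_subset_union_right _ (I0_rat hu hu'))
    rw [rn_rat hZ] at h3
    have h4 := h2 ω (rename (Crd.inr k P Q).ψ p)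
    rw [← I0f_hh hZ.ne, show n = 0 by omega, Nat.cast_zero, zero_mul] at h4
    exact h4
  · rw [II_off hC Ω hw h]
    rfl

omit [IsAlgClosed k] [Fg k L] hC in
theorem I0_prod {A : Set (FD k L)} (φ : N k L →ₗ[ℚ] ℚ) {B : Set (N k L)} {j : ℕ} {g : N k L}
    (hg : g ∈ Submodule.span ℚ B ^ j) (hB : B ⊆ hh '' A)
    (h : ∀ U : Fin j → FD k L, (∀ i, U i ∈ A) → φ (∏ i, hh (U i)) = 0) : φ g = 0 := by
  rw [Submodule.span_pow] at hg
  refine (Submodule.span_le (p := LinearMap.ker φ)).2 (fun x hx => ?_) hg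
  obtain ⟨f, rfl⟩ := Set.mem_pow.1 hx
  choose U hU e using fun i => hB (f i).2
  rw [List.prod_ofFn, ← funext e]
  exact h U hU

/-- Too many divisors come from a field of small transcendence degree. -/
theorem II_van2 (Ω : Var k P) {w : P.V → L} (hw : NZ w) {s : Set L} {j : ℕ} (hs : rn k s < j)
    (ω : EE C Ω) {g : N k L} (hg : g ∈ NS k s ^ j) (r : N k L) : II C Ω w ω (g * r) = 0 := by
  by_cases h : OnS Ω.pts w
  · refine I0_prod (A := {U | rt U ⊆ s}) (II C Ω w ω ∘ₗ LinearMap.mulRight ℚ r) hg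
      (fun _ ⟨U, hU, e⟩ => ⟨U, hU, e.symm⟩) fun U hU => ?_
    obtain ⟨σ, _, u₁, hu₁, e⟩ := exists_coords U
    obtain ⟨Q, u, Z, p, hZ, hs', hg', rfl⟩ := II_ex (Ω.ext ⟨Fin j, σ⟩) (h.ext hu₁) r
    let β : Crd k ⟨Fin j, σ⟩ _ := (Crd.inr k P _).comp (Crd.inl k _ Q)
    have h1 := II_eval hC ((Prj.one Ω _).comp (Prj.one _ Q)) hZ hs' hg' ω
      ((∏ i : Fin j, X (β.ψ i)) * p)
    have h2 := cy_van hC.cyc _ β hs' (List.ofFn fun i : Fin j => Finsupp.single i 1) (by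
      rw [← rn_rat (β.isGen_img hZ), List.length_ofFn]
      exact (rn_mono (I0_rat hu₁ fun i => by rw [e]; exact hU i)).trans_lt hs)
    simp only [lp', List.map_ofFn, List.prod_ofFn, Function.comp_apply, Finsupp.mapDomain_single,
      ln_single] at h2
    simp only [map_mul, map_prod, aeval_X] at h1
    rw [nm_apply, mul_left_comm (pl C _ ω), ← mul_assoc, h2, zero_mul, map_zero] at h1
    rw [← h1, ← funext e]
    rfl
  · rw [II_off hC Ω hw h]
    rfl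

theorem II_kill {X : Var k P} (hX : IsIrreducible X.pts) {x : P.V → L} (hx : NZ x) {c : ℕ}
    {y : EE C X} (hy : y ∈ AA C X c) (h : rn k (rat x) < c) (r : N k L) : II C X x y r = 0 := by
  by_cases h1 : OnS X.pts x
  · obtain ⟨Q, u, Z, p, hZ, hs, hg, rfl⟩ := II_ex X h1 r
    exact (II_eval hC (Prj.one X Q) hZ hs hg y p).trans (nm_kill hC.cyc hX _ hs hy
      (by rwa [← rn_rat ((Prj.one X Q).isGen_img hZ)]) (I0f_HA _ p))
  · rw [II_off hC X hx h1]
    rfl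

omit [Fg k L] in
theorem I0_cut (X : Var k P) (l : List P.ι) {Z : Sub k P} (hZ : (Z : Set (P.Pt k)) ⊆ X.pts) :
    cy C X Z * (l.map (hy C X)).prod ∈ CS C X fun U => U ≤ Z ∧ sdim U + l.length = sdim Z := by
  induction l generalizing Z with
  | nil =>
    rw [List.map_nil, List.prod_nil, mul_one]
    exact num2_cy_mem X hZ ⟨le_rfl, rfl⟩
  | cons i l ih =>
    rw [List.map_cons, List.prod_cons, ← mul_assoc]
    refine num2_CS_map X (LinearMap.mulRight ℚ _) _ (fun U hU hp => ?_)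
      (cy_mul_HS hC.cyc X hZ (Submodule.subset_span ⟨i, rfl⟩))
    refine num2_CS_mono X (fun T hT => ⟨hT.1.trans hp.1, ?_⟩) (ih hU)
    have h1 := hT.2
    have h2 := hp.2
    rw [List.length_cons]
    omega

theorem II_deg {X : Var k P} (hX : IsIrreducible X.pts) {x : P.V → L} (hx : NZ x) {c j : ℕ}
    {y : EE C X} (hy : y ∈ AA C X c) {g : N k L} (hg : g ∈ N1 k L ^ j) (h : c + j ≠ td k L) :
    II C X x y g = 0 := by
  by_cases h1 : OnS X.pts x
  · rw [N1_eq] at hg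
    refine I0_prod (A := Set.univ) (II C X x y) hg (by rw [Set.image_univ]) fun U _ => ?_
    obtain ⟨σ, _, u₁, hu₁, e⟩ := exists_coords U
    obtain ⟨Q, u, Z, -, hZ, hs, hg', -⟩ := II_ex (X.ext ⟨Fin j, σ⟩) (h1.ext hu₁) 1
    let π : Prj _ X := (Prj.one X _).comp (Prj.one (X.ext ⟨Fin j, σ⟩) Q)
    have h2 := II_eval hC π hZ hs hg' y (∏ i : Fin j, MvPolynomial.X (Sum.inl (Sum.inr i)))
    have h3 := num2_CS_map _ (tau C _ ∘ₗ LinearMap.mulRight ℚ (pl C π y)) ⊥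
      (fun T hT hp => by
        obtain ⟨n, h4, h5⟩ := n_push hC.cyc π hT
        change nm C _ T (pl C π y) ∈ _
        rw [h5, Submodule.mem_bot]
        rcases n.eq_zero_or_pos with rfl | hn
        · rw [Nat.cast_zero, zero_mul]
        · have h6 := hp.2
          rw [hg'.sdim hZ, List.length_ofFn, h4.1 hn] at h6
          rw [nm_AA C X hX _ hy (by omega), mul_zero])
      (I0_cut hC _ (List.ofFn fun i : Fin j => Sum.inl (Sum.inr i)) hs)
    simp only [List.map_ofFn, List.prod_ofFn, Function.comp_apply] at h3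
    simp only [map_prod, aeval_X] at h2
    rw [nm_apply, mul_comm (pl C _ y), ← mul_assoc] at h2
    rw [← funext e]
    exact h2.trans h3
  · rw [II_off hC X hx h1]
    rfl

theorem II_N0 {X : Var k P} {x : P.V → L} (hx : NZ x) {z : EE C X} (hz : N0 C X z) (r : N k L) :
    II C X x z r = 0 := by
  by_cases h1 : OnS X.pts x
  · obtain ⟨Q, u, Z, p, hZ, hs, hg, rfl⟩ := II_ex X h1 r
    refine (II_eval hC (Prj.one X Q) hZ hs hg z p).trans ?_
    rw [nm_apply, mul_comm (pl C _ z), ← mul_assoc]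
    exact tau_N0 hC.cyc _ hz
      (num2_CS_mono _ (fun _ _ => trivial) (cy_mul_HA hC.cyc _ hs (I0f_HA _ p)))
  · rw [II_off hC X hx h1]
    rfl

theorem II_top {X : Var k P} (hX : IsIrreducible X.pts) {x : P.V → L} (hx : IsGen X.pts x)
    (h : X.dim = td k L) : ∃ n : ℕ, 0 < n ∧ ∀ ω, II C X x ω 1 = n * tau C X ω := by
  obtain ⟨n, hn, h1⟩ := II_model hC X (Z := X.top hX) hx ((X.sdim_top hX).trans h)
  refine ⟨n, hn, fun ω => ?_⟩
  have h2 := h1 ω 1
  rwa [map_one (aeval _), map_one (aeval _), mul_one, nm_apply, cy_top, one_mul] at h2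

theorem JJ_van1 {s : Set L} (hs : rn k s < td k L) {r : N k L}
    (hr : r ∈ Algebra.adjoin ℚ (NS k s : Set (N k L))) : JJ C L r = 0 := by
  refine II_van1 hC (Var.full k nil) (fun i => i.elim) (lt_of_le_of_lt (rn_mono ?_) hs) _ hr
  rintro _ (⟨i, -⟩ | h)
  · exact i.elim
  · exact h

theorem JJ_van2 {s : Set L} {j : ℕ} (hs : rn k s < j) {g : N k L} (hg : g ∈ NS k s ^ j)
    (r : N k L) : JJ C L (g * r) = 0 := by
  exact II_van2 hC (Var.full k nil) (fun i => i.elim) hs _ hg r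

theorem JJ_deg {j : ℕ} {g : N k L} (hg : g ∈ N1 k L ^ j) (h : j ≠ td k L) : JJ C L g = 0 := by
  have hX : IsIrreducible (Var.full k nil).pts := by
    have e : (Var.full k nil).pts = {fun i => i.elim} :=
      Set.eq_singleton_iff_unique_mem.2 ⟨trivial, fun x _ => funext fun i => i.elim⟩
    rw [e]
    exact isIrreducible_singleton
  refine II_deg hC hX (fun i => i.elim) (c := 0) ?_ hg (by rwa [zero_add])
  rw [AA_eq_CS C _ hX, ← cy_top C _ hX]
  exact num2_cy_mem _ subset_rfl (Var.sdim_top _ hX)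

theorem JJ_pb_lt (ι : F →ₐ[k] L) (h : td k F < td k L) (g : N k F) : JJ C L (pb ι g) = 0 := by
  exact JJ_van1 hC (by rwa [rn_range]) (pb_adjoin ι g)

end Pool.Agent.Work.MP_ffcd14_ag.Uni
end

-- merged part: Pool.Agent.Work.MP_ffcd14_ag.Uni.I1
section
/-! # The cycle formula -/

open MvPolynomial

namespace Pool.Agent.Work.MP_ffcd14_ag.Uni

universe u v w

variable {k L : Type u} [Field k] [Field L] [Algebra k L]
  {K : Type v} [Field K] [CharZero K] {P : Amb} {C : NT.{u, v, w} k K}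
  [IsAlgClosed k] [Fg k L] (hC : C.Chow)
include hC

omit [IsAlgClosed k] [Fg k L] hC in
theorem I1_rs {w : P.V → L} (hw : NZ w) (ν : Dv k L) (p : MvPolynomial P.ι ℚ) :
    ν.rs (aeval (fun i => hh (blk k w i)) p) = aeval (fun i => hh (blk k (rpt ν w) i)) p := by
  rw [comp_aeval_apply]
  exact congrArg (fun f => aeval f p) (funext fun i => by rw [ν.rs_hh, blk_rpt hw])

omit [IsAlgClosed k] [Fg k L] hC in
theorem I1_lc {ι α B : Type*} [CommRing B] [Algebra ℚ B] (f : ι → B) (τ : α → ι) (c : α →₀ ℚ) :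
    aeval f (Finsupp.linearCombination ℚ (fun a => (X (τ a) : MvPolynomial ι ℚ)) c) =
      Finsupp.linearCombination ℚ (fun a => f (τ a)) c := by
  induction c using Finsupp.induction_linear with
  | zero => simp
  | add f g hf hg => rw [map_add, map_add, map_add, hf, hg]
  | single a q => rw [Finsupp.linearCombination_single, Finsupp.linearCombination_single, map_smul,
      aeval_X]

/-- A valuation whose centre on the model is not a divisor does not contribute. -/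
theorem I1_van (Ω : Var k P) {P' : Amb} (β : Crd k P P') {w : P'.V → L} (hw : NZ w) {ν : Dv k L}
    (h : ¬ rn k (rat (rpt ν w)) + 1 = td k L) (ω : EE C Ω) (p : MvPolynomial P'.ι ℚ) :
    II C Ω (rpt ν (w ∘ β.ε)) ω (ν.rs (aeval (fun i => hh (blk k w i)) p)) = 0 := by
  refine II_van1 hC Ω ((hw.comp β).rpt ν) (s := IntermediateField.adjoin k (rat (rpt ν w))) ?_ ω ?_
  · have h1 := rn_le_td (k := k) (rat (rpt ν w))
    have h2 := ν.dim
    refine lt_of_le_of_lt (rn_le_of_mem (s := rat (rpt ν w)) (Set.union_subset ?_ subset_rfl))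
      (by omega)
    rw [rpt_comp hw]
    exact (β.Img_rat _).trans (IntermediateField.subset_adjoin _ _)
  · rw [I1_rs hw]
    refine Algebra.adjoin_mono (s := Set.range fun i => hh (blk k (rpt ν w) i)) ?_ ?_
    · rintro _ ⟨i, rfl⟩
      exact Submodule.subset_span ⟨_, rt_blk _ i, rfl⟩
    · rw [Algebra.adjoin_range_eq_range_aeval]
      exact ⟨p, rfl⟩

theorem I1_core (Ω : Var k P) {w : P.V → L} (hw : OnS Ω.pts w) (D : DD k L) (r : N k L) :
    ∃ s : Finset (Dv k L), ∀ ω, (∀ ν ∉ s, ν.vq D * II C Ω (rpt ν w) ω (ν.rs r) = 0) ∧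
      II C Ω w ω (cl D * r) = ∑ ν ∈ s, ν.vq D * II C Ω (rpt ν w) ω (ν.rs r) := by
  obtain ⟨c, rfl⟩ : D ∈ LinearMap.range (Finsupp.linearCombination ℚ mD) := by
    rw [Finsupp.range_linearCombination, span_mD]
    trivial
  obtain ⟨Q₀, u₀, hu₀, e₀⟩ := I0f_cover (c.support.finite_toSet.insert 1)
  obtain ⟨Q, u, Z₁, p, hZ₁, hs₁, hg₁, rfl⟩ := II_ex (Ω.ext Q₀) (hw.ext hu₀) r
  obtain ⟨Q', u', hu', hn⟩ := exists_nrm hZ₁.ne hg₁
  obtain ⟨Z, hZ, hs, -⟩ := I0f_up hC hZ₁ hs₁ hg₁ hu'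
  have hg := hg₁.left u'
  have : Nonempty Q₀.ι := by
    obtain ⟨j, -⟩ : 1 ∈ Set.range (blk k u₀) := e₀ ▸ Set.mem_insert _ _
    exact ⟨j⟩
  let τ : FD k L → (((P.sum Q₀).sum Q).sum Q').ι :=
    fun V => Sum.inl (Sum.inl (Sum.inr (Function.invFun (blk k u₀) V)))
  let π : Prj _ Ω := ((Prj.one Ω Q₀).comp (Prj.one _ Q)).comp (Prj.one _ Q')
  set W := Amb.elim (Amb.elim (Amb.elim w u₀) u) u' with hW
  have e : Finsupp.linearCombination ℚ (fun V => mD (blk k W (τ V))) c =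
      Finsupp.linearCombination ℚ mD c := I0f_lc_congr fun V hV =>
    congrArg mD (Function.invFun_eq (f := blk k u₀) (e₀ ▸ Set.mem_insert_of_mem _ hV :
      V ∈ Set.range (blk k u₀)))
  choose cn hc using fun ν : Dv k L => exists_isGen (k := k) (NZ.rpt hZ.ne ν)
  obtain ⟨Γ, h1, -, h2⟩ := exists_Gam hC _ hZ hs hg hn hc
  have h3 := I0f_lc h1 τ c
  have h4 := fun ν => (I0e_fin hZ.ne (Finsupp.linearCombination ℚ mD c)).mem_toFinset (a := ν)
  rw [e, h2 _ _ h4] at h3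
  have er := I0f_hh (k := k) hZ.ne (Crd.inl k _ Q') p
  have ec : cl (Finsupp.linearCombination ℚ mD c) = -aeval (fun i => hh (blk k W i))
      (Finsupp.linearCombination ℚ (fun V => (X (τ V) : MvPolynomial _ ℚ)) c) := by
    rw [I1_lc, ← e, Finsupp.apply_linearCombination, ← map_neg, ← neg_one_smul ℚ c, map_smul,
      Finsupp.linearCombination_apply, Finsupp.linearCombination_apply, Finsupp.smul_sum]
    exact Finsupp.sum_congr fun V _ => by simp [cl_mD]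
  rw [I0a_inl] at er
  rw [er]
  refine ⟨(I0e_fin hZ.ne (Finsupp.linearCombination ℚ mD c)).toFinset,
    fun ω => ⟨fun ν hν => ?_, ?_⟩⟩
  · rw [h4, Set.mem_ofPred_eq, not_and_or, not_not] at hν
    rcases hν with hν | hν
    · rw [hν, zero_mul]
    · exact mul_eq_zero_of_right _ (I1_van hC Ω π.toCrd hZ.ne hν ω _)
  · rw [ec, ← map_neg, ← map_mul]
    refine (II_eval hC π hZ hs hg ω _).trans ?_
    rw [map_mul (aeval _), map_neg (aeval _), I1_lc, nm_apply, mul_left_comm (pl C _ ω), ← mul_assoc, mul_neg, ← h3,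
      Finset.sum_mul, map_sum]
    refine Finset.sum_congr rfl fun ν hν => ?_
    rw [smul_mul_assoc, map_smul, smul_eq_mul, ← nm_apply, I1_rs hZ.ne,
      ← II_eval hC π (hc ν) (num2_sub (I0e_le hZ (hc ν)) hs) (hn.gen hZ.ne ((h4 ν).1 hν).2),
      ← rpt_comp hZ.ne]
    rfl

theorem II_cyc_fin (Ω : Var k P) {w : P.V → L} (hw : NZ w) (D : DD k L) (r : N k L) :
    {ν : Dv k L | ν.vq D ≠ 0 ∧ ∃ ω, II C Ω (rpt ν w) ω (ν.rs r) ≠ 0}.Finite := by
  obtain ⟨Q, u, p, hu, -, rfl⟩ := I0f_model r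
  refine (I0e_fin (hw.elim hu) D).subset fun ν hν => ⟨hν.1, ?_⟩
  obtain ⟨-, ω, h⟩ := hν
  by_contra h1
  have h2 := I1_van hC Ω (Crd.inl k P Q) (hw.elim hu) h1 ω (rename (Crd.inr k P Q).ψ p)
  rw [← I0f_hh (hw.elim hu)] at h2
  exact h h2

/-- The cycle formula. -/
theorem II_cyc (Ω : Var k P) {w : P.V → L} (hw : OnS Ω.pts w) (ω : EE C Ω) (D : DD k L)
    (r : N k L) (s : Finset (Dv k L)) (hs : ∀ ν ∉ s, ν.vq D * II C Ω (rpt ν w) ω (ν.rs r) = 0) :
    II C Ω w ω (cl D * r) = ∑ ν ∈ s, ν.vq D * II C Ω (rpt ν w) ω (ν.rs r) := by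
  classical
  obtain ⟨t, ht⟩ := I1_core hC Ω hw D r
  rw [(ht ω).2, Finset.sum_subset (Finset.subset_union_left (s₂ := s))
    fun ν _ hν => (ht ω).1 ν hν]
  exact (Finset.sum_subset Finset.subset_union_right fun ν _ hν => hs ν hν).symm

theorem II_cyc_ex (Ω : Var k P) {w : P.V → L} (hw : NZ w) (D : DD k L) (r : N k L) :
    ∃ s : Finset (Dv k L), (∀ ν ∈ s, ν.vq D ≠ 0) ∧
      ∀ ω, ∀ ν ∉ s, ν.vq D * II C Ω (rpt ν w) ω (ν.rs r) = 0 := by
  refine ⟨(II_cyc_fin hC Ω hw D r).toFinset, fun ν hν => ((Set.Finite.mem_toFinset _).1 hν).1,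
    fun ω ν hν => ?_⟩
  by_contra h
  exact hν ((Set.Finite.mem_toFinset _).2 ⟨left_ne_zero_of_mul h, ω, right_ne_zero_of_mul h⟩)

theorem II_cyc_zero (Ω : Var k P) {w : P.V → L} (hw : NZ w) (ω : EE C Ω) {D : DD k L} {r : N k L}
    (h : ∀ ν : Dv k L, ν.vq D ≠ 0 → II C Ω (rpt ν w) ω (ν.rs r) = 0) :
    II C Ω w ω (cl D * r) = 0 := by
  by_cases h1 : OnS Ω.pts w
  · rw [II_cyc hC Ω h1 ω D r ∅ fun ν _ => ?_, Finset.sum_empty]
    by_cases h2 : ν.vq D = 0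
    · rw [h2, zero_mul]
    · rw [h ν h2, mul_zero]
  · rw [II_off hC Ω hw h1]
    rfl

theorem I1_JJ (ν : Dv k L) (r : N k ν.κ) :
    II C (Var.full k nil) (rpt ν fun s => s.1.elim) 1 r = JJ C ν.κ r :=
  II_one hC (Var.full k nil) (I0_full fun i => i.elim) r

theorem JJ_cyc (D : DD k L) (r : N k L) (s : Finset (Dv k L))
    (hs : ∀ ν ∉ s, ν.vq D * JJ C ν.κ (ν.rs r) = 0) :
    JJ C L (cl D * r) = ∑ ν ∈ s, ν.vq D * JJ C ν.κ (ν.rs r) := by
  have h : OnS (Var.full k nil).pts (fun s => s.1.elim : nil.V → L) := I0_full fun i => i.elim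
  simp only [← I1_JJ hC] at hs ⊢
  exact II_cyc hC _ h 1 D r s hs

theorem JJ_cyc_ex (D : DD k L) (r : N k L) : ∃ s : Finset (Dv k L), (∀ ν ∈ s, ν.vq D ≠ 0) ∧
    ∀ ν ∉ s, ν.vq D * JJ C ν.κ (ν.rs r) = 0 := by
  obtain ⟨s, h1, h2⟩ := II_cyc_ex hC (Var.full k nil) (w := fun s => s.1.elim)
    (fun i => i.elim) D r
  exact ⟨s, h1, fun ν hν => by rw [← I1_JJ hC, h2 1 ν hν]⟩

theorem JJ_cyc_zero {D : DD k L} {r : N k L}
    (h : ∀ ν : Dv k L, ν.vq D ≠ 0 → JJ C ν.κ (ν.rs r) = 0) : JJ C L (cl D * r) = 0 := by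
  exact II_cyc_zero hC (Var.full k nil) (fun i => i.elim) 1 fun ν hν => by rw [I1_JJ hC, h ν hν]

theorem JJ_cyc_nonneg {D : DD k L} {r : N k L}
    (h : ∀ ν : Dv k L, 0 ≤ ν.vq D * JJ C ν.κ (ν.rs r)) : 0 ≤ JJ C L (cl D * r) := by
  obtain ⟨s, -, h1⟩ := JJ_cyc_ex hC D r
  rw [JJ_cyc hC D r s h1]
  exact Finset.sum_nonneg fun ν _ => h ν

end Pool.Agent.Work.MP_ffcd14_ag.Uni
end

-- merged part: Pool.Agent.Work.MP_ffcd14_ag.Uni.I2
section
/-! # Positivity, the Hodge index inequality, volumes -/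

open MvPolynomial Filter Topology

namespace Pool.Agent.Work.MP_ffcd14_ag.Uni

universe u v w

section
variable {B : Type*} [CommRing B] [Algebra ℚ B]

/-- The positive form attached to the form `ν (ω z z)` and the positive vector `y`. -/
def nrm (ν : B →ₗ[ℚ] ℚ) (ω y z : B) : ℚ := 2 * ν (ω * y * z) ^ 2 / ν (ω * y * y) - ν (ω * z * z)

theorem nrm_nonneg {ν : B →ₗ[ℚ] ℚ} {S : Submodule ℚ B} {ω y z : B} (h : RCS ν S ω) (hy : y ∈ S)
    (h1 : 0 < ν (ω * y * y)) (hz : z ∈ S) : |ν (ω * z * z)| ≤ nrm ν ω y z := by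
  have h2 := (le_div_iff₀' h1).2 (h y hy z hz h1)
  have h3 : 0 ≤ ν (ω * y * z) ^ 2 / ν (ω * y * y) := by positivity
  rw [nrm, mul_div_assoc, abs_le]
  constructor <;> linarith

theorem I2_polar {ν : B →ₗ[ℚ] ℚ} {S : Submodule ℚ B} {Λ ω y z z' : B} {c : ℚ}
    (h : ∀ x ∈ S, |ν (Λ * x * x)| ≤ c * nrm ν ω y x) (hz : z ∈ S) (hz' : z' ∈ S) :
    ν (Λ * z * z') ^ 2 ≤ c ^ 2 * nrm ν ω y z * nrm ν ω y z' := by
  have h1 := discrim_le_zero (a := c * nrm ν ω y z) (b := -2 * ν (Λ * z * z'))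
    (c := c * nrm ν ω y z') fun t => by
      have h2 := (abs_le.1 (h _ (S.add_mem (S.smul_mem t hz) hz'))).2
      have h3 := (abs_le.1 (h _ (S.sub_mem (S.smul_mem t hz) hz'))).1
      simp only [nrm, mul_add, add_mul, mul_sub, sub_mul, mul_smul_comm, smul_mul_assoc, map_add,
        map_sub, map_smul, smul_eq_mul, mul_right_comm _ z' z] at h2 h3 ⊢
      linear_combination (1 / 2) * h2 + (1 / 2) * h3
  rw [discrim] at h1
  linarith

theorem I2_rcs_smul {ν : B →ₗ[ℚ] ℚ} {S : Submodule ℚ B} {ω : B} (h : RCS ν S ω) {c : ℚ}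
    (hc : 0 ≤ c) : RCS ν S (c • ω) := by
  intro y hy z hz h1
  simp only [smul_mul_assoc, map_smul, smul_eq_mul] at h1 ⊢
  have := mul_le_mul_of_nonneg_left (h y hy z hz (pos_of_mul_pos_right h1 hc)) (sq_nonneg c)
  linarith

theorem I2_prod_pow {S : Submodule ℚ B} (l : List B) (h : ∀ x ∈ l, x ∈ S) :
    l.prod ∈ S ^ l.length := by
  induction l with
  | nil => exact Submodule.one_le.1 le_rfl
  | cons a l ih =>
    rw [List.prod_cons, List.length_cons, pow_succ']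
    exact Submodule.mul_mem_mul (h a (by simp)) (ih fun x hx => h x (by simp [hx]))

/-- The Cauchy-Schwarz inequality. -/
theorem nrm_cs {ν : B →ₗ[ℚ] ℚ} {S : Submodule ℚ B} {ω y z z' : B} (h : RCS ν S ω) (hy : y ∈ S)
    (h1 : 0 < ν (ω * y * y)) (hz : z ∈ S) (hz' : z' ∈ S) :
    ν (ω * z * z') ^ 2 ≤ nrm ν ω y z * nrm ν ω y z' := by
  simpa using I2_polar (c := 1) (fun x hx => by simpa using nrm_nonneg h hy h1 hx) hz hz'

end

variable {k F L : Type u} [Field k] [Field F] [Field L] [Algebra k F] [Algebra k L]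
  {K : Type v} [Field K] [CharZero K] {P : Amb} {C : NT.{u, v, w} k K}
  [IsAlgClosed k] [Fg k L] (hC : C.Chow)
include hC

omit [IsAlgClosed k] [Fg k L] hC in
theorem I2_list (l : List (N k L)) (hl : ∀ x ∈ l, Nef x) :
    ∃ (c : ℚ) (V : Fin l.length → FD k L), 0 ≤ c ∧ l.prod = c • ∏ i, hh (V i) := by
  choose q V h1 h2 using fun i : Fin l.length => hl _ (l.get_mem i)
  refine ⟨∏ i, q i, V, Finset.prod_nonneg fun i _ => h1 i, ?_⟩
  rw [← Finset.prod_smul, ← List.prod_ofFn, ← funext h2, List.ofFn_get]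

omit [IsAlgClosed k] [Fg k L] hC in
theorem I2_lp (X : Var k P) {n : ℕ} (j : Fin n → P.ι) :
    lp' C X (List.ofFn fun i => Finsupp.single (j i) 1) = ∏ i, hy C X (j i) := by
  rw [lp', List.map_ofFn, List.prod_ofFn]
  exact Finset.prod_congr rfl fun i _ => ln_single C X _

theorem I2_model {ι : Type} [Finite ι] (V : ι → FD k L) (i₀ : ι)
    (h : IntermediateField.adjoin k (rt (V i₀)) = ⊤) :
    ∃ (σ : ι → Type) (_ : ∀ i, Finite (σ i)) (w : (⟨ι, σ⟩ : Amb).V → L) (Z : Sub k ⟨ι, σ⟩),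
      IsGen (Z : Set ((⟨ι, σ⟩ : Amb).Pt k)) w ∧ (∀ i, blk k w i = V i) ∧ sdim Z = td k L ∧
      ∀ p : MvPolynomial ι ℚ, JJ C L (aeval (fun i => hh (V i)) p) =
        nm C (Var.full k ⟨ι, σ⟩) Z (aeval (hy C (Var.full k ⟨ι, σ⟩)) p) := by
  obtain ⟨σ, _, w, hw, hV⟩ := exists_coords V
  obtain ⟨Z, hZ⟩ := exists_isGen (k := k) hw
  have hg : Gen k w := eq_top_iff.2 (h ▸ IntermediateField.adjoin_le_iff.2 (hV i₀ ▸ rt_blk w i₀))
  refine ⟨σ, _, w, Z, hZ, hV, (rn_rat hZ).symm.trans (rn_gen hg), fun p => ?_⟩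
  have := II_gen hC (Var.full k _) hZ hg 1 p
  rwa [II_one hC _ (hZ.onS.mono (Set.subset_univ _)), one_mul, funext hV] at this

theorem JJ_nonneg (l : List (N k L)) (hl : ∀ x ∈ l, Nef x) : 0 ≤ JJ C L l.prod := by
  by_cases h : l.length = td k L
  · obtain ⟨c, V, hc, e⟩ := I2_list l hl
    obtain ⟨G, hG⟩ := exists_gen_fd (k := k) (L := L)
    obtain ⟨σ, _, w, Z, -, -, hd, hJ⟩ := I2_model hC (fun o => Option.elim o G V) none hG
    have h1 := nm_nonneg hC.cyc (Var.full k _) (Z := Z) (Set.subset_univ _)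
      (List.ofFn fun i => Finsupp.single (some i) 1) (by rw [List.length_ofFn, hd, h])
    have h2 := hJ (∏ i, X (some i))
    simp only [map_prod, aeval_X, Option.elim_some] at h2
    rw [I2_lp, ← h2] at h1
    rw [e, map_smul]
    exact mul_nonneg hc h1
  · exact (JJ_deg hC (I2_prod_pow l fun x hx => (hl x hx).mem) h).ge

theorem JJ_eff {D : DD k L} (hD : 0 ≤ D) (l : List (N k L)) (hl : ∀ x ∈ l, Nef x) :
    0 ≤ JJ C L (cl D * l.prod) := by
  refine JJ_cyc_nonneg hC fun ν => mul_nonneg (by simpa using ν.vq_mono hD) ?_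
  rw [map_list_prod]
  refine JJ_nonneg hC _ fun x hx => ?_
  obtain ⟨y, hy, rfl⟩ := List.mem_map.1 hx
  exact (hl y hy).rs ν

theorem JJ_nonneg2 {x y : N k L} (hx : Nef x) (hy : Nef y) : 0 ≤ JJ C L (x * y) := by
  simpa using JJ_nonneg hC [x, y] (by simp [hx, hy])

theorem JJ_nonneg3 {x y z : N k L} (hx : Nef x) (hy : Nef y) (hz : Nef z) :
    0 ≤ JJ C L (x * y * z) := by
  simpa [mul_assoc] using JJ_nonneg hC [x, y, z] (by simp [hx, hy, hz])

theorem JJ_eff1 {D : DD k L} (hD : 0 ≤ D) {x : N k L} (hx : Nef x) : 0 ≤ JJ C L (cl D * x) := by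
  simpa using JJ_eff hC hD [x] (by simp [hx])

theorem JJ_eff2 {D : DD k L} (hD : 0 ≤ D) {x y : N k L} (hx : Nef x) (hy : Nef y) :
    0 ≤ JJ C L (cl D * (x * y)) := by
  simpa using JJ_eff hC hD [x, y] (by simp [hx, hy])

theorem I2_mono {x y z : N k L} (hx : Nef x) (hy : Nef y) {D : DD k L} (hD : 0 ≤ D)
    (h : y = x + cl D) (hz : Nef z) (i n : ℕ) :
    JJ C L (z ^ i * x ^ n) ≤ JJ C L (z ^ i * y ^ n) := by
  rw [← sub_nonneg, ← map_sub, ← mul_sub, ← (Commute.all y x).mul_geom_sum₂, sub_eq_of_eq_add' h,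
    mul_left_comm, Finset.mul_sum, Finset.mul_sum, map_sum]
  refine Finset.sum_nonneg fun j _ => ?_
  have := JJ_eff hC hD (List.replicate i z ++ (List.replicate j y ++ List.replicate (n - 1 - j) x))
    (by
      simp only [List.mem_append, List.mem_replicate]
      rintro _ (⟨-, rfl⟩ | ⟨-, rfl⟩ | ⟨-, rfl⟩) <;> assumption)
  simpa using this

/-- Monotonicity of the top self-intersection of nef classes. -/
theorem JJ_pow_mono {x y : N k L} (hx : Nef x) (hy : Nef y) {D : DD k L} (hD : 0 ≤ D)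
    (h : y = x + cl D) (n : ℕ) : JJ C L (x ^ n) ≤ JJ C L (y ^ n) := by
  simpa using I2_mono hC hx hy hD h Nef.zero 0 n

theorem JJ_pos2 {U W : FD k L} {i l : ℕ} (hi : i ≤ rn k (rt U)) (hW : rn k (rt W) = td k L)
    (hn : i + l = td k L) : 0 < JJ C L (hh U ^ i * hh W ^ l) := by
  obtain ⟨G, hG⟩ := exists_gen_fd (k := k) (L := L)
  obtain ⟨σ, _, w, Z, hZ, hV, hd, hJ⟩ := I2_model hC (fun b => cond b U G) false hG
  let β : Crd k ⟨Unit, fun _ => σ true⟩ ⟨Bool, σ⟩ :=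
    ⟨fun s => ⟨true, s.2⟩, fun _ => true, fun _ => rfl, fun y _ => y true, fun _ _ => rfl⟩
  have h1 := nm_pos hC.cyc (Var.full k _) β (Crd.refl k _) (Z := Z) (Set.subset_univ _)
    (fun T _ => (congrArg sdim (TopologicalSpace.IrreducibleCloseds.ext (by
      simp [Crd.img, Crd.refl, T.isClosed.closure_eq]))).le)
    (a := Finsupp.single () 1) (fun _ => by simp)
    (b := Finsupp.single true 1 + Finsupp.single false 1) (fun b => by cases b <;> simp) i l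
    (hi.trans ((rn_le_of_mem ((congrArg rt (hV true)).symm.subset.trans
      (rt_blk (w ∘ β.ε) ()))).trans (hZ.onS.img β).rn_le))
    (hn.trans hd.symm)
  have h2 := hJ (X true ^ i * (X true + X false) ^ l)
  simp only [map_mul, map_pow, map_add, aeval_X, cond_true, cond_false, ← hh_mul] at h2
  rw [Finsupp.mapDomain_single, show (Crd.refl k _).ψ = id from rfl, Finsupp.mapDomain_id, ln_add,
    ln_single, ln_single, ← h2] at h1
  obtain ⟨m, D, hm, hD, e⟩ := exists_big hW (U * G)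
  have h3 := h1.trans_le (I2_mono hC (Nef.hh _) ((Nef.hh W).nsmul m) hD e (Nef.hh U) i l)
  rw [_root_.smul_pow, mul_smul_comm, map_nsmul, nsmul_eq_mul] at h3
  exact pos_of_mul_pos_right h3 (Nat.cast_nonneg _)

theorem JJ_pos1 {W : FD k L} (hW : rn k (rt W) = td k L) : 0 < JJ C L (hh W ^ td k L) := by
  simpa using JJ_pos2 hC (U := W) (i := 0) (Nat.zero_le _) hW (zero_add _)

/-- The Hodge index inequality. -/
theorem JJ_rcs (l : List (N k L)) (hl : ∀ x ∈ l, Nef x) (h : l.length + 2 = td k L) :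
    RCS (JJ C L) (N1 k L) l.prod := by
  obtain ⟨c, V, hc, e⟩ := I2_list l hl
  rw [e]
  refine I2_rcs_smul (fun y hy' z hz => ?_) hc
  obtain ⟨_, _, ⟨q₁, V₁, -, rfl⟩, ⟨q₂, V₂, -, rfl⟩, rfl⟩ := exists_nef_sub hy'
  obtain ⟨_, _, ⟨q₃, V₃, -, rfl⟩, ⟨q₄, V₄, -, rfl⟩, rfl⟩ := exists_nef_sub hz
  obtain ⟨G, hG⟩ := exists_gen_fd (k := k) (L := L)
  obtain ⟨σ, _, w, Z, -, -, hd, hJ⟩ :=
    I2_model hC (Sum.elim V ![G, V₁, V₂, V₃, V₄]) (Sum.inr 0) hG
  have h0 : ∀ (q q' : ℚ) i j, q • hy C (Var.full k ⟨_, σ⟩) i - q' • hy C _ j ∈ HS C _ :=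
    fun q q' i j => sub_mem (Submodule.smul_mem _ q (Submodule.subset_span ⟨i, rfl⟩))
      (Submodule.smul_mem _ q' (Submodule.subset_span ⟨j, rfl⟩))
  have h1 := rcs hC.cyc (Var.full k _) (Z := Z) (Set.subset_univ _)
    (List.ofFn fun i => Finsupp.single (Sum.inl i) 1) (by rw [List.length_ofFn, hd, h])
    _ (h0 q₁ q₂ (Sum.inr 1) (Sum.inr 2)) _ (h0 q₃ q₄ (Sum.inr 3) (Sum.inr 4))
  have h2 := fun a b => hJ ((∏ i, X (Sum.inl i)) * a * b)
  have h3 := h2 (q₁ • X (Sum.inr 1) - q₂ • X (Sum.inr 2)) (q₁ • X (Sum.inr 1) - q₂ • X (Sum.inr 2))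
  have h4 := h2 (q₁ • X (Sum.inr 1) - q₂ • X (Sum.inr 2)) (q₃ • X (Sum.inr 3) - q₄ • X (Sum.inr 4))
  have h5 := h2 (q₃ • X (Sum.inr 3) - q₄ • X (Sum.inr 4)) (q₃ • X (Sum.inr 3) - q₄ • X (Sum.inr 4))
  simp only [map_mul, map_prod, map_sub, map_smul, aeval_X, Sum.elim_inl, Sum.elim_inr] at h3 h4 h5
  rw [I2_lp, ← h3, ← h4, ← h5] at h1
  exact h1

theorem JJ_vol {V : FD k L} (hV : IntermediateField.adjoin k (rt V) = ⊤) :
    Tendsto (fun m : ℕ => ((td k L).factorial * Module.finrank k (V ^ m).1 : ℝ) / m ^ td k L)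
      atTop (𝓝 (JJ C L (hh V ^ td k L) : ℝ)) := by
  obtain ⟨σ, _, w, Z, hZ, hw, hd, hJ⟩ := I2_model hC (fun _ : Unit => V) () hV
  have h1 := n_vol hC.cyc (Var.full k _) (Z := Z) (Set.subset_univ _) (a := Finsupp.single () 1)
    (fun _ => by simp)
  have h2 := hJ (X () ^ td k L)
  simp only [map_pow, aeval_X] at h2
  rw [hd, ln_single, ← h2] at h1
  refine h1.congr fun m => ?_
  have h3 : KT_V k w (m • Finsupp.single () 1) = (V ^ m).1 := by
    have : sys k w (m • Finsupp.single () 1) = V ^ m := by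
      rw [sys, Finsupp.smul_single]
      exact (Finsupp.prod_single_index (h := fun i n => blk k w i ^ n) (pow_zero _)).trans
        (by rw [hw, smul_eq_mul, mul_one])
    ext y
    rw [← this, mem_sys hZ.ne]
    rfl
  rw [KT_hilb hZ, h3]

omit [IsAlgClosed k] [Fg k L] hC in
theorem I2_prod_mem {ι : Type} (s : Finset ι) {V : ι → FD k L} {f : ι → L}
    (h : ∀ i, f i ∈ (V i).1) : ∏ i ∈ s, f i ∈ (∏ i ∈ s, V i).1 := by
  classical
  induction s using Finset.induction_on with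
  | empty => exact Submodule.one_le.1 le_rfl
  | insert j t hj ih =>
    rw [Finset.prod_insert hj, Finset.prod_insert hj]
    exact Submodule.mul_mem_mul (h j) ih

omit [IsAlgClosed k] [Fg k L] hC in
theorem I2_pow_mem (x : L) {e m : ℕ} (h : e ≤ m) : x ^ e ∈ ((FD.sp ![1, x] : FD k L) ^ m).1 := by
  have h8 : ∀ i, ![1, x] i ∈ (FD.sp ![1, x] : FD k L).1 := fun i => by
    rw [FD.sp_val ⟨0, one_ne_zero⟩]
    exact Submodule.subset_span ⟨i, rfl⟩
  have h9 := Submodule.mul_mem_mul (Submodule.pow_mem_pow _ (h8 1) e)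
    (Submodule.pow_mem_pow _ (h8 0) (m - e))
  rw [← pow_add, Nat.add_sub_cancel' h] at h9
  simpa [FD.pow_val] using h9

omit hC in
theorem I2_count : ∃ W : FD k L, ∀ (V G : FD k L) (m : ℕ), 0 < m →
    Module.finrank k V.1 * m ^ td k L ≤ Module.finrank k ((V * (G * W)) ^ m).1 := by
  obtain ⟨s, hs⟩ := Fg.out (k := k) (L := L)
  obtain ⟨r, ν, hr, h1, h2, h3⟩ := exists_val (k := k) (fun i => (s.equivFin.symm i : L)) (by
    rw [← hs]
    congr 1
    ext y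
    exact ⟨fun ⟨i, hi⟩ => hi ▸ (s.equivFin.symm i).2, fun hy => ⟨s.equivFin ⟨y, hy⟩, by simp⟩⟩)
  rw [← td_eq_trdeg, Nat.cast_le] at hr
  choose x hx hν using fun j : Fin r => h2 (Pi.single j 1)
  refine ⟨∏ j, FD.sp ![1, x j], fun V G m hm => ?_⟩
  obtain ⟨g, hg, hg0⟩ := (Submodule.ne_bot_iff _).1 G.ne
  have h0 : ν 1 = 0 := by simpa using h1 1 1 one_ne_zero one_ne_zero
  have hp : ∀ y, y ≠ 0 → ∀ n : ℕ, ν (y ^ n) = n • ν y := fun y hy n => by
    induction n with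
    | zero => simpa using h0
    | succ n ih => rw [pow_succ, h1 _ _ (pow_ne_zero n hy) hy, ih, succ_nsmul]
  have hq : ∀ (e : Fin r → ℕ) (t : Finset (Fin r)), ν (∏ j ∈ t, x j ^ e j) =
      ∑ j ∈ t, Pi.single j (e j : ℤ) := fun e t => by
    induction t using Finset.induction_on with
    | empty => simpa using h0
    | insert j t hj ih =>
      rw [Finset.prod_insert hj, Finset.sum_insert hj, h1 _ _ (pow_ne_zero _ (hx j))
        (Finset.prod_ne_zero_iff.2 fun j _ => pow_ne_zero _ (hx j)), ih, hp _ (hx j), hν,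
        ← Pi.single_smul, nsmul_one]
  have h5 := Set.ncard_le_ncard_of_injOn
    (s := (ν '' ((V.1 : Set L) \ {0})) ×ˢ (Set.univ : Set (Fin r → Fin m)))
    (fun a => m • a.1 + (m • ν g + fun j => ((a.2 j : ℕ) : ℤ))) ?_ ?_
    (h3 ((V * (G * ∏ j, FD.sp ![1, x j])) ^ m).1 inferInstance).1
  · rw [(h3 _ inferInstance).2, Set.ncard_prod, (h3 _ inferInstance).2, Set.ncard_univ,
      Nat.card_fun, Nat.card_fin, Nat.card_fin] at h5
    exact (Nat.mul_le_mul_left _ (Nat.pow_le_pow_right hm hr)).trans h5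
  · rintro ⟨_, e⟩ ⟨⟨f, ⟨hf, hf0⟩, rfl⟩, -⟩
    have h6 : ∏ j, x j ^ (e j : ℕ) ≠ 0 := Finset.prod_ne_zero_iff.2 fun j _ => pow_ne_zero _ (hx j)
    have h7 := mul_ne_zero (pow_ne_zero m hg0) h6
    refine ⟨f ^ m * (g ^ m * ∏ j, x j ^ (e j : ℕ)), ⟨?_, mul_ne_zero (pow_ne_zero m hf0) h7⟩, ?_⟩
    · rw [mul_pow, mul_pow, ← Finset.prod_pow]
      exact Submodule.mul_mem_mul (Submodule.pow_mem_pow _ hf m) (Submodule.mul_mem_mul
        (Submodule.pow_mem_pow _ hg m) (I2_prod_mem _ fun j => I2_pow_mem _ (e j).2.le))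
    · rw [h1 _ _ (pow_ne_zero m hf0) h7, h1 _ _ (pow_ne_zero m hg0) h6, hp _ hf0, hp _ hg0, hq,
        Finset.univ_sum_single]
  · rintro ⟨a, e⟩ - ⟨a', e'⟩ - h6
    have h7 : ∀ j, a j = a' j ∧ e j = e' j := fun j => by
      have h8 := congrFun h6 j
      simp only [Pi.add_apply, Pi.mul_apply, Pi.natCast_apply, nsmul_eq_mul] at h8
      have h9 : (0 : ℤ) < m := by exact_mod_cast hm
      have h10 := (Int.ediv_emod_unique (a := e j + m * a j) (q := a j) (r := e j) h9).2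
        ⟨rfl, by positivity, by exact_mod_cast (e j).2⟩
      have h11 := (Int.ediv_emod_unique (a := e j + m * a j) (q := a' j) (r := e' j) h9).2
        ⟨by linarith, by positivity, by exact_mod_cast (e' j).2⟩
      exact ⟨h10.1.symm.trans h11.1, Fin.ext (by exact_mod_cast h10.2.symm.trans h11.2)⟩
    exact Prod.ext (funext fun j => (h7 j).1) (funext fun j => (h7 j).2)

/-- A bound for the dimension of a linear system. -/
theorem JJ_cube : ∃ V₀ : FD k L, ∀ V : FD k L,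
    ((td k L).factorial * Module.finrank k V.1 : ℚ) ≤ JJ C L ((hh V + hh V₀) ^ td k L) := by
  obtain ⟨W, hW⟩ := I2_count (k := k) (L := L)
  obtain ⟨G, hG⟩ := exists_gen_fd (k := k) (L := L)
  refine ⟨G * W, fun V => ?_⟩
  have h4 := JJ_vol hC (V := V * (G * W)) (eq_top_iff.2 (hG.symm.le.trans
    (IntermediateField.adjoin.mono _ _ _ (rt_dvd ((dvd_mul_right G W).mul_left V)))))
  rw [← hh_mul, ← Rat.cast_le (K := ℝ)]
  refine ge_of_tendsto h4 ((eventually_gt_atTop 0).mono fun m hm => ?_)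
  rw [le_div_iff₀ (by positivity)]
  push_cast
  rw [mul_assoc]
  exact mul_le_mul_of_nonneg_left (by exact_mod_cast hW V G m hm) (by positivity)

omit [IsAlgClosed k] hC in
theorem I2_rn_mul (V W : FD k L) : rn k (rt (V * W)) = rn k (rt V ∪ rt W) :=
  le_antisymm (rn_le_of_mem (rt_mul V W))
    (rn_mono (Set.union_subset (rt_dvd (dvd_mul_right V W)) (rt_dvd (dvd_mul_left W V))))

theorem I2_cut {U A : FD k L} {j : ℕ} {y : N k L} (h : JJ C L (hh U * (hh A ^ j * y)) ≠ 0) :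
    ∃ ν : Dv k L, (∃ f ∈ rt U, ν f ≠ 0) ∧ j ≤ rn k (rt (ν.Res A)) := by
  by_contra h1
  obtain ⟨f, hf, h0⟩ := (Submodule.ne_bot_iff _).1 U.ne
  have h2 : hh U = cl (vD k f - mD U) := by rw [map_sub, cl_vD, cl_mD, zero_sub, neg_neg]
  refine h (h2 ▸ JJ_cyc_zero hC fun ν hν => ?_)
  rw [map_mul, map_pow, ν.rs_hh]
  refine JJ_van2 hC (not_le.1 fun h3 => h1 ⟨ν, ⟨_, ⟨f, hf, _, U.pick_mem ν.toVl, rfl⟩, ?_⟩, h3⟩)
    (Submodule.pow_mem_pow _ (Dat_le_NS subset_rfl (hh_dat dvd_rfl)) j) _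
  rw [ν.div h0 (U.pick_ne _)]
  refine fun h4 => hν (Rat.cast_injective (α := FF) ?_)
  rw [ν.vq_cast, DD.sub_apply, vD_apply, Rat.cast_zero]
  exact h4

omit [Fg k L] in
theorem I2_rn_le (n : ℕ) : ∀ {L : Type u} [Field L] [Algebra k L] [Fg k L] {V W : FD k L},
    td k L = n → EQD V W → rn k (rt V ∪ rt W) ≤ rn k (rt V) + 1 := by
  induction n with
  | zero => exact fun hn _ => (rn_le_td _).trans (hn.le.trans (Nat.zero_le _))
  | succ n ih =>
    intro L _ _ _ V W hn h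
    obtain ⟨G, hG⟩ := exists_gen_fd (k := k) (L := L)
    have hG' := rn_gen hG
    have h1 : ∀ ν : Dv k L, rn k (rt (ν.Res (V * W))) ≤ rn k (rt (ν.Res V)) + 1 := fun ν => by
      rw [map_mul, I2_rn_mul]
      exact ih (by have := ν.dim; omega) (h.res ν)
    have h2 : ∀ ν : Dv k L, rn k (rt (ν.Res V)) ≤
        rn k (ν.res '' (IntermediateField.adjoin k (rt V) : Set L)) := fun ν =>
      rn_mono ((ν.rt_Res V).trans (Set.image_mono (IntermediateField.subset_adjoin _ _)))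
    rw [← I2_rn_mul]
    rcases (rn_le_td (k := k) (rt (V * W))).eq_or_lt with h3 | h3
    · rcases Nat.eq_zero_or_pos (rn k (rt V)) with h4 | h4
      · by_contra h5
        have h6 := rn_union_le (k := k) (rt V) (rt W)
        rw [← I2_rn_mul] at h6
        obtain ⟨l, hl⟩ := Nat.exists_eq_add_of_le (show 2 ≤ td k L by omega)
        refine (JJ_pos2 hC (U := W) (i := 2) (by omega) hG' hl.symm).ne' ?_
        have h7 : ∀ x ∈ Ideal.span (Dat V : Set (N k L)), ∀ y, JJ C L (x * y) = 0 := by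
          intro x hx
          induction hx using Submodule.span_induction with
          | mem x hx =>
            exact JJ_van2 hC (s := rt V) (j := 1) (by omega)
              (by rw [pow_one]; exact Dat_le_NS subset_rfl hx)
          | zero => simp
          | add x x' _ _ hx hx' => exact fun y => by rw [add_mul, map_add, hx, hx', add_zero]
          | smul a x _ hx => exact fun y => by rw [smul_eq_mul, mul_comm a, mul_assoc, hx]
        exact h7 _ (by rw [sq]; exact h) _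
      · have h5 := (JJ_pos2 hC (U := V) (i := 1) (l := n) h4 h3 (by omega)).ne'
        rw [pow_one, ← mul_one (_ ^ n)] at h5
        obtain ⟨ν, ⟨f, hf, h6⟩, h7⟩ := I2_cut hC h5
        have := rn_res_lt ν (IntermediateField.subset_adjoin _ _ hf) h6
        have := h1 ν
        have := h2 ν
        omega
    · obtain ⟨l, hl⟩ := Nat.exists_eq_add_of_lt h3
      have h5 := (JJ_pos2 hC (U := V * W) (l := l + 1) le_rfl hG' hl.symm).ne'
      rw [pow_succ', mul_left_comm] at h5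
      obtain ⟨ν, -, h7⟩ := I2_cut hC h5
      have := rn_res_le ν (rt V)
      have := h1 ν
      have := h2 ν
      omega

/-- The fibres have dimension at most one. -/
theorem EQD.rn_le {V W : FD k L} (h : EQD V W) : rn k (rt V ∪ rt W) ≤ rn k (rt V) + 1 := by
  exact I2_rn_le hC _ rfl h

/-- On a threefold the forms defined by the classes on the model of `V` are bounded by the form
defined by `hh V`. -/
theorem null0 (h3 : td k L = 3) {V : FD k L} (hV : rn k (rt V) = 3) {Λ : N k L} (hΛ : Λ ∈ Dat V) :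
    ∃ c : ℚ, 0 ≤ c ∧ ∀ x ∈ N1 k L, ∀ y ∈ N1 k L, JJ C L (Λ * x * y) ^ 2 ≤
      c * nrm (JJ C L) (hh V) (hh V) x * nrm (JJ C L) (hh V) (hh V) y := by
  have h0 : 0 < JJ C L (hh V * hh V * hh V) := by
    have := JJ_pos1 hC (hV.trans h3.symm)
    rwa [h3, pow_three'] at this
  have hr : ∀ ω, Nef ω → RCS (JJ C L) (N1 k L) ω := fun ω hω => by
    simpa using JJ_rcs hC [ω] (by simpa using hω) h3.symm
  have h1 : ∀ ω, Nef ω → ∃ c : ℚ, 0 ≤ c ∧ ∀ x ∈ N1 k L,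
      JJ C L ((hh V + ω) * x * x) ≤ c * nrm (JJ C L) (hh V) (hh V) x := by
    intro ω hω
    have h2 := (Nef.hh V).add hω
    have h4 : 0 < JJ C L ((hh V + ω) * hh V * hh V) := by
      rw [add_mul, add_mul, map_add]
      exact add_pos_of_pos_of_nonneg h0 (JJ_nonneg3 hC hω (Nef.hh V) (Nef.hh V))
    refine ⟨nrm (JJ C L) (hh V) (hh V) (hh V + ω) / JJ C L ((hh V + ω) * hh V * hh V),
      div_nonneg ((abs_nonneg _).trans (nrm_nonneg (hr _ (Nef.hh V)) (hh_mem V) h0 h2.mem)) h4.le,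
      fun x hx => ?_⟩
    have h5 := nrm_cs (hr _ (Nef.hh V)) (hh_mem V) h0 h2.mem hx
    rw [mul_comm (hh V) (hh V + ω)] at h5
    rw [div_mul_eq_mul_div, le_div_iff₀' h4]
    exact (hr _ h2 _ (hh_mem V) x hx h4).trans h5
  obtain ⟨M, hp, hm⟩ := dat_squeeze hΛ
  obtain ⟨c, hc, h4⟩ := h1 _ hp
  obtain ⟨c', hc', h5⟩ := h1 _ hm
  refine ⟨(c + c' + (M + 1)) ^ 2, sq_nonneg _, fun x hx y hy => I2_polar (fun x hx => ?_) hx hy⟩
  have h6 := nrm_nonneg (hr _ (Nef.hh V)) (hh_mem V) h0 hx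
  have h7 := (abs_nonneg _).trans h6
  have h8 := h4 x hx
  have h9 := h5 x hx
  have h10 := mul_le_mul_of_nonneg_left (abs_le.1 h6).1 (show (0 : ℚ) ≤ M + 1 by positivity)
  simp only [add_mul, sub_mul, smul_mul_assoc, map_add, map_sub, map_nsmul] at h8 h9
  rw [nsmul_eq_mul] at h8 h9
  rw [abs_le]
  constructor <;> nlinarith [mul_nonneg hc h7, mul_nonneg hc' h7]

end Pool.Agent.Work.MP_ffcd14_ag.Uni
end

-- merged part: Pool.Agent.Work.MP_ffcd14_ag.Uni.Fb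
section
/-! # Fibre dimensions and normal models

`Fb_fib`: add a block `g` of coordinates of a generating system (`exists_gen_fd`, `exists_coord`),
`Z'` = closure of `(w, g)`, `sdim Z' = td`; a subvariety `T` of `Z` is the image of some `T' ≤ Z'`
(`exists_over`). Show `sdim (inl.img T') ≤ sdim (β.img (inl.img T')) + 1` by induction on `td k L`
(generalise the field): if `T' = Z'` use `EQD.rn_le`, `rat_subset`, `rt_sys`, `rn_rat`; else take a
cover `T' ≤ T₁ < Z'` (`exists_cover`), `lift_dv`, and pass to the residue field (`rpt_elim`,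
`rpt_comp`, `blk_rpt`, `sys_rpt`, `EQD.res`, `Dv.dim`). If `β` is constant on `T` then `β.img T` is a
point. `Fb_model`: `exists_coords` with one more generating system, `exists_isGen`, `exists_norm`,
new point `Amb.elim b (aeval b G)` (`GC_ne_elim`), `Fb_graph`. -/

open MvPolynomial

namespace Pool.Agent.Work.MP_ffcd14_ag.Uni

universe u v w

variable {k F L : Type u} [Field k] [Field F] [Field L] [Algebra k F] [Algebra k L]
  {K : Type v} [Field K] [CharZero K] {P P' Q : Amb} {C : NT.{u, v, w} k K}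

theorem Fb_graph {Z : Sub k (P.sum Q)} {w : P.V → L} {G : Q.V → MvPolynomial P.V k}
    {d : Q.ι → P.ι →₀ ℕ} (hG : ∀ s, IsForm (G s) (d s.1))
    (h : IsGen (Z : Set ((P.sum Q).Pt k)) (Amb.elim w fun s => aeval w (G s))) :
    OnGraph (Z : Set ((P.sum Q).Pt k)) G := by
  intro j s t
  obtain ⟨b, hb⟩ := minor_form (F := fun s => G ⟨j, s⟩) (a := d j) (fun s => hG ⟨j, s⟩) s t
  refine (h.iff _ b hb).1 ?_
  rw [GC_aeval_minor, I0a_inl]
  exact sub_eq_zero.2 (mul_comm _ _)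

theorem Fb_left {w : P.V → L} {g : Q.V → L} {Z : Sub k (P.sum Q)}
    (hZ : IsGen (Z : Set ((P.sum Q).Pt k)) (Amb.elim w g)) :
    IsGen ((Crd.inl k P Q).img Z : Set (P.Pt k)) w := by
  have := (Crd.inl k P Q).isGen_img hZ
  rwa [I0a_inl] at this

variable [IsAlgClosed k]

theorem Fb_ind (hC : C.Chow) (β : Crd k P P') (a : P.ι →₀ ℕ) (T : Sub k (P'.sum Q)) (n : ℕ) :
    ∀ (L : Type u) [Field L] [Algebra k L] [Fg k L] (w : P'.V → L) (g : Q.V → L)
      (Z : Sub k (P'.sum Q)) (V : FD k L), td k L = n →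
      IsGen (Z : Set ((P'.sum Q).Pt k)) (Amb.elim w g) → sdim Z = td k L → (∀ i, blk k w i ∣ V) →
      EQD (sys k (w ∘ β.ε) a) V → T ≤ Z →
      sdim ((Crd.inl k P' Q).img T) ≤ sdim (β.img ((Crd.inl k P' Q).img T)) + 1 := by
  induction n using Nat.strong_induction_on with
  | _ n ih =>
    intro L _ _ _ w g Z V hn hZ hd hV h hT
    have h1 := Fb_left hZ
    have hw : NZ w := h1.ne
    rcases hT.eq_or_lt with rfl | hlt
    · rw [← rn_rat h1, ← rn_rat (β.isGen_img h1)]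
      exact (rn_mono ((rat_subset hw hV).trans Set.subset_union_right)).trans
        ((h.rn_le hC).trans (Nat.succ_le_succ (rn_le_of_mem (rt_sys _ a))))
    · obtain ⟨T₁, h2, h3, h4⟩ := exists_cover hlt
      obtain ⟨ν, h5⟩ := lift_dv hZ h3 hd (h4.trans hd)
      rw [rpt_elim] at h5
      have h6 := ν.dim
      refine ih (td k ν.κ) (by omega) ν.κ _ _ T₁ (ν.Res V) rfl h5 (by omega) (fun i => ?_) ?_ h2
      · rw [blk_rpt hw]
        exact map_dvd _ (hV i)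
      · rw [← rpt_comp hw, sys_rpt (hw.comp β)]
        exact h.res ν

theorem Fb_fib [Fg k L] (hC : C.Chow) {w : P'.V → L} {Z : Sub k P'}
    (hZ : IsGen (Z : Set (P'.Pt k)) w) (β : Crd k P P') {a : P.ι →₀ ℕ} {V : FD k L}
    (hV : ∀ i, blk k w i ∣ V) (h : EQD (sys k (w ∘ β.ε) a) V) : Fib1 β Z := by
  intro T hT hc
  obtain ⟨Q, g, h1, h2⟩ := I0a_gen (k := k) (L := L)
  obtain ⟨Z', h3⟩ := exists_isGen (k := k) (NZ.elim hZ.ne h1)
  obtain ⟨T', h4, rfl⟩ := MP_ffcd14_ag.exists_over (hT.trans_eq (hZ.unique (Fb_left h3)))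
  have := Fb_ind hC β a T' _ L w g Z' V rfl h3 ((h2.right w).sdim h3) hV h h4
  rwa [Line_sdim_cst β hc] at this

theorem Fb_model [Fg k F] {J : Type} [Finite J] (G : J → FD k F) :
    ∃ (P₀ : Amb) (b : P₀.V → F) (c : Sub k P₀) (e : J → P₀.ι),
      IsGen (c : Set (P₀.Pt k)) b ∧ Gen k b ∧ R1 c ∧ ∀ j, blk k b (e j) = G j := by
  obtain ⟨V, hV⟩ := exists_gen_fd (k := k) (L := F)
  obtain ⟨σ, _, b, h1, h2⟩ := exists_coords fun j : Option J => j.elim V G
  obtain ⟨c, h3⟩ := exists_isGen (k := k) h1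
  obtain ⟨Q, H, d, h4, h5, h6⟩ := exists_norm c
  obtain ⟨c', h7⟩ := exists_isGen (k := k) (GC_ne_elim h4 h5 h3)
  refine ⟨_, _, c', fun j => Sum.inl (some j), h7, Gen.left ?_ _,
    h6 c' ((Fb_left h7).unique h3) (Fb_graph h4 h7), fun j => (blk_inl _ _ _).trans (h2 (some j))⟩
  refine eq_top_iff.2 (hV.ge.trans (IntermediateField.adjoin_le_iff.2 ?_))
  exact (show V = _ from (h2 none).symm) ▸ rt_blk b none

end Pool.Agent.Work.MP_ffcd14_ag.Uni
end

-- merged part: Pool.Agent.Work.MP_ffcd14_ag.Uni.B1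
section
/-! # Good sequences on a threefold -/

open MvPolynomial Filter Topology

namespace Pool.Agent.Work.MP_ffcd14_ag.Uni

universe u v w

variable {k F : Type u} [Field k] [Field F] [Algebra k F]
  {K : Type v} [Field K] [CharZero K] (C : NT.{u, v, w} k K)

/-- The norm of an exceptional divisor. -/
noncomputable def nx (A : FD k F) (X : DD k F) : ℚ := -JJ C F (hh A * cl X * cl X)

/-- A sequence of lifts of one Weil divisor which is asymptotically orthogonal to the exceptional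
divisors. -/
structure Good (A : FD k F) (D : ℕ → DD k F) : Prop where
  exc : ∀ n, D n - D 0 ∈ XC A
  orth : ∀ Λ ∈ Dat A, ∃ ε : ℕ → ℝ, Tendsto ε atTop (𝓝 0) ∧ ∀ n, ∀ X ∈ XC A,
    ((JJ C F (Λ * cl (D n) * cl X) : ℚ) : ℝ) ^ 2 ≤ ε n * nx C A X

/-- The limit intersection numbers. -/
def QSpec (A : FD k F) (Q : N k F →ₗ[ℚ] DD k F →ₗ[ℚ] DD k F →ₗ[ℚ] ℝ) : Prop :=
  ∀ Λ ∈ Dat A, ∀ (D D' : ℕ → DD k F) (G G' : DD k F), Good C A D → Good C A D' →
    D 0 - G ∈ XC A → D' 0 - G' ∈ XC A →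
    Tendsto (fun n => ((JJ C F (Λ * cl (D n) * cl (D' n)) : ℚ) : ℝ)) atTop (𝓝 (Q Λ G G'))

open Classical in
/-- The intersection number of a class on the model of `A` with two Weil divisors. -/
noncomputable def QQ (A : FD k F) : N k F →ₗ[ℚ] DD k F →ₗ[ℚ] DD k F →ₗ[ℚ] ℝ :=
  if h : ∃ Q, QSpec C A Q then h.choose else 0

/-- The functional `θ` is approximated by the classes `W c` on the components of `δ`. -/
def Appr (A : FD k F) (δ : DD k F) (W : ∀ c : Dv k F, N k c.κ) (θ : DD k F →ₗ[ℚ] ℚ) : Prop :=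
  ∀ D₁ Ξ : DD k F, PN A D₁ → PN A (-(D₁ + Ξ)) → Ξ ∈ XC A → ∃ c₀ : ℚ, ∀ D : DD k F, PN A D →
    D₁ ≤ D → D ≤ D₁ + Ξ →
    |θ D - ∑ c ∈ prs A δ, c.vq δ * JJ C c.κ (W c * c.rs (cl D))| ≤ c₀ *
      (JJ C F (cl δ * hh A * cl D) - ∑ c ∈ prs A δ, c.vq δ * JJ C c.κ (c.rs (hh A * cl D)))

/-- The bilinear form defined by a class, with real values. -/
noncomputable def B1b (Λ : N k F) : DD k F →ₗ[ℚ] DD k F →ₗ[ℚ] ℝ :=
  LinearMap.mk₂ ℚ (fun D D' => ((JJ C F (Λ * cl D * cl D') : ℚ) : ℝ))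
    (fun _ _ _ => by rw [map_add, mul_add, add_mul, map_add, Rat.cast_add])
    (fun _ _ _ => by
      rw [map_smul, mul_smul_comm, smul_mul_assoc, map_smul, smul_eq_mul, Rat.cast_mul,
        Rat.smul_def])
    (fun _ _ _ => by rw [map_add, mul_add, map_add, Rat.cast_add])
    (fun _ _ _ => by rw [map_smul, mul_smul_comm, map_smul, smul_eq_mul, Rat.cast_mul, Rat.smul_def])

theorem B1b_apply (Λ : N k F) (D D' : DD k F) :
    B1b C Λ D D' = ((JJ C F (Λ * cl D * cl D') : ℚ) : ℝ) := rfl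

theorem B1b_symm (Λ : N k F) (D D' : DD k F) : B1b C Λ D D' = B1b C Λ D' D := by
  rw [B1b_apply, B1b_apply, mul_right_comm]

theorem B1b_add (Λ Λ' : N k F) (D D' : DD k F) :
    B1b C (Λ + Λ') D D' = B1b C Λ D D' + B1b C Λ' D D' := by
  simp only [B1b_apply, add_mul, map_add, Rat.cast_add]

theorem B1b_smul (q : ℚ) (Λ : N k F) (D D' : DD k F) :
    B1b C (q • Λ) D D' = q • B1b C Λ D D' := by
  simp only [B1b_apply, smul_mul_assoc, map_smul, smul_eq_mul, Rat.cast_mul, Rat.smul_def]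

theorem B1_nx (A : FD k F) (X : DD k F) : (nx C A X : ℝ) = -B1b C (hh A) X X := by
  rw [nx, Rat.cast_neg, B1b_apply]

theorem B1_le_abs {a e : ℝ} (ha : 0 ≤ a) (h : a ^ 2 ≤ e * a) : a ≤ |e| := by
  rcases ha.eq_or_lt with rfl | ha
  · exact abs_nonneg e
  · rw [sq] at h
    exact (le_of_mul_le_mul_right h ha).trans (le_abs_self e)

theorem B1_bound {ε : ℕ → ℝ} (h : Tendsto ε atTop (𝓝 0)) :
    ∃ δ : ℕ → ℝ, Tendsto δ atTop (𝓝 0) ∧ ∀ n m, n ≤ m → |ε m| ≤ δ n := by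
  obtain ⟨b, -, h1, h2⟩ := cauchySeq_iff_le_tendsto_0.1 h.cauchySeq
  refine ⟨fun n => |ε n| + b n, by simpa using h.abs.add h2, fun n m hnm => ?_⟩
  have := h1 m n n hnm le_rfl
  rw [Real.dist_eq] at this
  have h3 := abs_add_le (ε n) (ε m - ε n)
  rw [add_sub_cancel] at h3
  linarith

theorem B1_sq_zero {a b : ℕ → ℝ} (hb : Tendsto b atTop (𝓝 0)) (h : ∀ n, a n ^ 2 ≤ b n) :
    Tendsto a atTop (𝓝 0) := by
  refine squeeze_zero_norm (fun n => Real.abs_le_sqrt (h n)) ?_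
  simpa using hb.sqrt

theorem Good.B1orth {C : NT.{u, v, w} k K} {A : FD k F} {D : ℕ → DD k F} (h : Good C A D)
    {Λ : N k F} (hΛ : Λ ∈ Dat A) : ∃ ε : ℕ → ℝ, Tendsto ε atTop (𝓝 0) ∧ ∀ n, ∀ X ∈ XC A,
      B1b C Λ (D n) X ^ 2 ≤ ε n * nx C A X := h.orth Λ hΛ

theorem Good.B1exc {C : NT.{u, v, w} k K} {A : FD k F} {D : ℕ → DD k F} (h : Good C A D)
    (n m : ℕ) : D n - D m ∈ XC A := by
  rw [← sub_sub_sub_cancel_right (D n) (D m) (D 0)]
  exact sub_mem (h.exc n) (h.exc m)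

theorem B1_pos_part {A : FD k F} {X : DD k F} (hX : ∀ c, Pr A c → c.vq X ≤ 0) :
    X ⊔ 0 ∈ XC A := fun c hc => by
  rw [c.vq_sup, map_zero, max_eq_right (hX c hc)]

variable {C} [IsAlgClosed k] [Fg k F] (hC : C.Chow) (h3 : td k F = 3) {A : FD k F}
  (hA : IntermediateField.adjoin k (rt A) = ⊤)
include hC h3

theorem JJ_fix {A : FD k F} {Λ Λ' : N k F} (hΛ : Λ ∈ Dat A) (hΛ' : Λ' ∈ Dat A) (D : DD k F)
    (s : Finset (Dv k F)) (hs : ∀ c ∈ s, Pr A c) (hs' : ∀ c, Pr A c → c.vq D ≠ 0 → c ∈ s) :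
    JJ C F (Λ * Λ' * cl D) = ∑ c ∈ s, c.vq D * JJ C c.κ (c.rs (Λ * Λ')) := by
  rw [mul_comm]
  refine JJ_cyc hC D _ s fun c hc => ?_
  by_cases h : Pr A c
  · rw [not_not.1 fun h' => hc (hs' c h h'), zero_mul]
  · have h1 := rn_of_not_pr h
    have h2 : c.rs (Λ * Λ') ∈ NS k (rt (c.Res A)) ^ 2 := by
      rw [map_mul, sq]
      exact Submodule.mul_mem_mul (Dat_le_NS subset_rfl (dat_rs c hΛ))
        (Dat_le_NS subset_rfl (dat_rs c hΛ'))
    rw [← mul_one (c.rs _), JJ_van2 hC (by omega) h2, mul_zero]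

theorem JJ_fix_exc {A : FD k F} {Λ Λ' : N k F} (hΛ : Λ ∈ Dat A) (hΛ' : Λ' ∈ Dat A) {X : DD k F}
    (hX : X ∈ XC A) : JJ C F (Λ * Λ' * cl X) = 0 := by
  rw [JJ_fix hC h3 hΛ hΛ' X ∅ (by simp) fun c hc h => (h (hX c hc)).elim, Finset.sum_empty]

theorem Pr.pos {A : FD k F} {c : Dv k F} (h : Pr A c) :
    0 < JJ C c.κ (c.rs (hh A * hh A)) := by
  have h1 := JJ_pos1 hC h.rn_eq
  have h2 : td k c.κ = 2 := by
    have := c.dim
    omega
  rwa [h2, sq, ← c.rs_hh, ← map_mul] at h1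

include hA

omit hA in
theorem B1_rcs : RCS (JJ C F) (N1 k F) (hh A) := by
  simpa using JJ_rcs hC [hh A] (by simp [Nef.hh]) (by simp [h3])

theorem B1_cube : 0 < JJ C F (hh A * hh A * hh A) := by
  have h1 := JJ_pos1 hC (rn_gen hA)
  rwa [h3, pow_three'] at h1

omit hA in
theorem B1_nrm {X : DD k F} (hX : X ∈ XC A) : nrm (JJ C F) (hh A) (hh A) (cl X) = nx C A X := by
  rw [nrm, JJ_fix_exc hC h3 (hh_dat dvd_rfl) (hh_dat dvd_rfl) hX, nx]
  simp

theorem nx_nonneg {X : DD k F} (hX : X ∈ XC A) : 0 ≤ nx C A X := by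
  have h1 := B1_rcs hC h3 _ (hh_mem A) _ (cl_mem X) (B1_cube hC h3 hA)
  rw [JJ_fix_exc hC h3 (hh_dat dvd_rfl) (hh_dat dvd_rfl) hX] at h1
  refine neg_nonneg.2 (le_of_mul_le_mul_left ?_ (B1_cube hC h3 hA))
  simpa using h1

theorem exc_cs {Λ : N k F} (hΛ : Λ ∈ Dat A) : ∃ c : ℚ, 0 ≤ c ∧ ∀ X ∈ XC A, ∀ Y ∈ XC A,
    JJ C F (Λ * cl X * cl Y) ^ 2 ≤ c * nx C A X * nx C A Y := by
  obtain ⟨c, h0, hc⟩ := null0 hC h3 ((rn_gen hA).trans h3) hΛ
  refine ⟨c, h0, fun X hX Y hY => ?_⟩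
  rw [← B1_nrm hC h3 hX, ← B1_nrm hC h3 hY]
  exact hc _ (cl_mem X) _ (cl_mem Y)

theorem B1_nx_nonneg {X : DD k F} (hX : X ∈ XC A) : (0 : ℝ) ≤ nx C A X := by
  exact_mod_cast nx_nonneg hC h3 hA hX

theorem B1_cs {Λ : N k F} (hΛ : Λ ∈ Dat A) : ∃ c : ℝ, 0 ≤ c ∧ ∀ X ∈ XC A, ∀ Y ∈ XC A,
    B1b C Λ X Y ^ 2 ≤ c * nx C A X * nx C A Y := by
  obtain ⟨c, h0, hc⟩ := exc_cs hC h3 hA hΛ
  refine ⟨c, by exact_mod_cast h0, fun X hX Y hY => ?_⟩
  rw [B1b_apply]
  exact_mod_cast hc X hX Y hY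

theorem Good.add {D D' : ℕ → DD k F} (h : Good C A D) (h' : Good C A D') :
    Good C A fun n => D n + D' n := by
  refine ⟨fun n => ?_, fun Λ hΛ => ?_⟩
  · rw [add_sub_add_comm]
    exact add_mem (h.exc n) (h'.exc n)
  · obtain ⟨ε, h1, h2⟩ := h.B1orth hΛ
    obtain ⟨ε', h1', h2'⟩ := h'.B1orth hΛ
    refine ⟨fun n => 2 * (ε n + ε' n), by simpa using (h1.add h1').const_mul 2, fun n X hX => ?_⟩
    rw [← B1b_apply, map_add, LinearMap.add_apply]
    nlinarith [h2 n X hX, h2' n X hX, sq_nonneg (B1b C Λ (D n) X - B1b C Λ (D' n) X)]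

theorem Good.smul {D : ℕ → DD k F} (h : Good C A D) (q : ℚ) : Good C A fun n => q • D n := by
  refine ⟨fun n => ?_, fun Λ hΛ => ?_⟩
  · rw [← smul_sub]
    exact Submodule.smul_mem _ q (h.exc n)
  · obtain ⟨ε, h1, h2⟩ := h.B1orth hΛ
    refine ⟨fun n => (q : ℝ) ^ 2 * ε n, by simpa using h1.const_mul _, fun n X hX => ?_⟩
    rw [← B1b_apply, map_smul, LinearMap.smul_apply, Rat.smul_def, mul_pow, mul_assoc]
    exact mul_le_mul_of_nonneg_left (h2 n X hX) (sq_nonneg _)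

theorem Good.sum {α : Type*} (s : Finset α) {D : α → ℕ → DD k F} (h : ∀ a ∈ s, Good C A (D a)) :
    Good C A fun n => ∑ a ∈ s, D a n := by
  classical
  induction s using Finset.induction_on with
  | empty =>
    exact ⟨fun n => by simp, fun Λ _ => ⟨fun _ => 0, tendsto_const_nhds, fun n X _ => by simp⟩⟩
  | insert a s ha ih =>
    simp only [Finset.sum_insert ha]
    exact (h a (Finset.mem_insert_self a s)).add hC h3 hA
      (ih fun b hb => h b (Finset.mem_insert_of_mem hb))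

theorem good_const {G : DD k F}
    (h : ∀ Λ ∈ Dat A, ∀ X ∈ XC A, JJ C F (Λ * cl G * cl X) = 0) : Good C A fun _ => G := by
  exact ⟨fun n => by simp, fun Λ hΛ =>
    ⟨fun _ => 0, tendsto_const_nhds, fun n X hX => by simp [h Λ hΛ X hX]⟩⟩

theorem good_dat {G : DD k F} (h : cl G ∈ Dat A) : Good C A fun _ => G := by
  exact good_const hC h3 hA fun Λ hΛ X hX => JJ_fix_exc hC h3 hΛ h hX

theorem good_null {X : ℕ → DD k F} (h : ∀ n, X n ∈ XC A)
    (h' : Tendsto (fun n => (nx C A (X n) : ℝ)) atTop (𝓝 0)) : Good C A X := by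
  refine ⟨fun n => sub_mem (h n) (h 0), fun Λ hΛ => ?_⟩
  obtain ⟨c, -, hc⟩ := B1_cs hC h3 hA hΛ
  exact ⟨fun n => c * nx C A (X n), by simpa using h'.const_mul c, fun n Y hY => hc _ (h n) Y hY⟩

theorem Good.null {X : ℕ → DD k F} (h : Good C A X) (h' : X 0 ∈ XC A) :
    Tendsto (fun n => (nx C A (X n) : ℝ)) atTop (𝓝 0) := by
  obtain ⟨ε, h1, h2⟩ := h.B1orth (hh_dat dvd_rfl)
  have hX : ∀ n, X n ∈ XC A := fun n => by simpa using add_mem (h.exc n) h'
  refine squeeze_zero (fun n => B1_nx_nonneg hC h3 hA (hX n))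
    (fun n => B1_le_abs (B1_nx_nonneg hC h3 hA (hX n)) ?_) (by simpa using h1.abs)
  refine le_trans (le_of_eq ?_) (h2 n _ (hX n))
  rw [B1_nx, neg_sq]

theorem Good.cauchy {D : ℕ → DD k F} (h : Good C A D) : ∃ ε : ℕ → ℝ, Tendsto ε atTop (𝓝 0) ∧
    ∀ n m, n ≤ m → (nx C A (D m - D n) : ℝ) ≤ ε n := by
  obtain ⟨ε, h1, h2⟩ := h.B1orth (hh_dat dvd_rfl)
  obtain ⟨δ, h4, h5⟩ := B1_bound h1
  refine ⟨fun n => 4 * δ n, by simpa using h4.const_mul 4, fun n m hnm => ?_⟩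
  have hY := h.B1exc m n
  have h6 : (nx C A (D m - D n) : ℝ) =
      B1b C (hh A) (D n) (D m - D n) - B1b C (hh A) (D m) (D m - D n) := by
    rw [B1_nx, LinearMap.map_sub₂, neg_sub]
  have h7 : (nx C A (D m - D n) : ℝ) ≤ |2 * (ε n + ε m)| := by
    refine B1_le_abs (B1_nx_nonneg hC h3 hA hY) ?_
    have a1 := h2 n _ hY
    have a2 := h2 m _ hY
    nth_rewrite 1 [h6]
    nlinarith [sq_nonneg (B1b C (hh A) (D n) (D m - D n) + B1b C (hh A) (D m) (D m - D n))]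
  rw [abs_mul, abs_two] at h7
  linarith [abs_add_le (ε n) (ε m), h5 n n le_rfl, h5 n m hnm]

theorem Good.shift {D : ℕ → DD k F} (h : Good C A D) {φ : ℕ → ℕ} (hφ : Tendsto φ atTop atTop) :
    Good C A fun n => D (φ n) := by
  refine ⟨fun n => h.B1exc _ _, fun Λ hΛ => ?_⟩
  obtain ⟨ε, h1, h2⟩ := h.orth Λ hΛ
  exact ⟨fun n => ε (φ n), h1.comp hφ, fun n => h2 (φ n)⟩

theorem Good.B1sub {D D' : ℕ → DD k F} (h : Good C A D) (h' : Good C A D') :
    Good C A fun n => D n - D' n := by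
  simpa only [neg_smul, one_smul, ← sub_eq_add_neg] using h.add hC h3 hA (h'.smul hC h3 hA (-1))

theorem Good.B1sup {D : ℕ → DD k F} (h : Good C A D) (h1 : ∀ c, Pr A c → 0 ≤ c.vq (D 0)) :
    Good C A fun n => D n ⊔ 0 := by
  have hN : ∀ n, -D n ⊔ 0 ∈ XC A := fun n => B1_pos_part fun c hc => by
    have := h.exc n c hc
    rw [map_sub, sub_eq_zero] at this
    rw [map_neg, this]
    exact neg_nonpos.2 (h1 c hc)
  have he : ∀ n, D n ⊔ 0 = D n + (-D n ⊔ 0) := fun n => by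
    rw [add_sup, add_neg_cancel, add_zero, sup_comm]
  obtain ⟨ε, h2, h4⟩ := h.B1orth (hh_dat dvd_rfl)
  simp only [he]
  refine h.add hC h3 hA (good_null hC h3 hA hN ?_)
  refine squeeze_zero (fun n => B1_nx_nonneg hC h3 hA (hN n))
    (fun n => B1_le_abs (B1_nx_nonneg hC h3 hA (hN n)) ?_) (by simpa using h2.abs)
  refine le_trans (le_of_eq ?_) (h4 n _ (hN n))
  have h5 : B1b C (hh A) (D n ⊔ 0) (-D n ⊔ 0) = 0 := by
    rw [B1b_apply, mul_assoc, cl_disj (D := D n ⊔ 0) (D' := -D n ⊔ 0)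
      (posPart_inf_negPart_eq_zero (D n)), mul_zero, map_zero, Rat.cast_zero]
  rw [he, LinearMap.map_add₂, add_eq_zero_iff_eq_neg] at h5
  rw [B1_nx, h5]

/-- A good sequence may be truncated. -/
theorem Good.clamp {D : ℕ → DD k F} (h : Good C A D) {δ : DD k F} (hδ : cl δ ∈ Dat A)
    (h1 : ∀ c, Pr A c → 0 ≤ c.vq (D 0)) (h2 : ∀ c, Pr A c → c.vq (D 0) ≤ c.vq δ) :
    (Good C A fun n => (D n ⊔ 0) ⊓ δ) ∧ (D 0 ⊔ 0) ⊓ δ - D 0 ∈ XC A := by
  refine ⟨?_, fun c hc => ?_⟩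
  · have g1 := h.B1sup hC h3 hA h1
    have g0 := good_dat hC h3 hA hδ
    have g2 := (g0.B1sub hC h3 hA g1).B1sup hC h3 hA fun c hc => by
      rw [map_sub, c.vq_sup, map_zero, max_eq_left (h1 c hc)]
      exact sub_nonneg.2 (h2 c hc)
    convert g0.B1sub hC h3 hA g2 using 2 with n
    rw [sub_sup, sub_sub_cancel, sub_zero]
  · rw [map_sub, c.vq_inf, c.vq_sup, map_zero, max_eq_left (h1 c hc), min_eq_left (h2 c hc),
      sub_self]

omit hA in
theorem B1_exc_nonneg {D X : DD k F} (hD : PN A D) (hX : X ∈ XC A) (h : 0 ≤ X) {Λ : N k F}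
    (hΛ : Λ ∈ Dat A) (hΛ' : Nef Λ) : 0 ≤ B1b C Λ D X := by
  obtain ⟨M, hM⟩ := hD
  have h1 := JJ_eff2 hC h hΛ' hM
  have h2 := JJ_fix_exc hC h3 hΛ (nsmul_mem (hh_dat dvd_rfl) M) hX
  rw [mul_comm, mul_add, add_mul, map_add, h2, add_zero] at h1
  rw [B1b_apply]
  exact_mod_cast h1

/-- A criterion for an increasing sequence of relatively nef lifts. -/
theorem good_of_mono {D : ℕ → DD k F} (h1 : ∀ n, D n - D 0 ∈ XC A) (h2 : Monotone D)
    (h3' : ∀ n, PN A (D n)) (h4 : ∀ X ∈ XC A, 0 ≤ X →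
      Tendsto (fun n => ((JJ C F (hh A * cl (D n) * cl X) : ℚ) : ℝ)) atTop (𝓝 0)) :
    Good C A D := by
  have hh1 : hh A ∈ Dat A := hh_dat dvd_rfl
  have hY : ∀ m n, D m - D n ∈ XC A := fun m n => by
    rw [← sub_sub_sub_cancel_right (D m) (D n) (D 0)]
    exact sub_mem (h1 m) (h1 n)
  have hp : ∀ l n m, n ≤ m → 0 ≤ B1b C (hh A) (D l) (D m - D n) := fun l n m hnm =>
    B1_exc_nonneg hC h3 (h3' l) (hY m n) (sub_nonneg.2 (h2 hnm)) hh1 (Nef.hh A)
  obtain ⟨a, ha⟩ : ∃ a : ℕ → ℝ, ∀ n, a n = B1b C (hh A) (D n) (D n) := ⟨_, fun _ => rfl⟩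
  have hd : ∀ n m, a m - a n =
      B1b C (hh A) (D m) (D m - D n) + B1b C (hh A) (D n) (D m - D n) := fun n m => by
    rw [ha, ha, map_sub, map_sub, B1b_symm C _ (D m) (D n)]
    ring
  have hmono : Monotone a := fun n m hnm => by
    linarith [hd n m, hp m n m hnm, hp n n m hnm]
  have hnx : ∀ n m, n ≤ m → (nx C A (D m - D n) : ℝ) ≤ a m - a n := fun n m hnm => by
    rw [B1_nx, LinearMap.map_sub₂, hd]
    linarith [hp m n m hnm]
  have hbd : BddAbove (Set.range a) := by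
    refine ⟨(JJ C F (hh A * hh A * cl (D 0)) ^ 2 / JJ C F (hh A * hh A * hh A) : ℚ), ?_⟩
    rintro _ ⟨n, rfl⟩
    have b1 := B1_rcs hC h3 _ (hh_mem A) _ (cl_mem (D n)) (B1_cube hC h3 hA)
    have b2 := JJ_fix_exc hC h3 hh1 hh1 (h1 n)
    rw [map_sub, mul_sub, map_sub, sub_eq_zero] at b2
    rw [ha, B1b_apply, Rat.cast_le, le_div_iff₀ (B1_cube hC h3 hA), mul_comm, ← b2]
    exact b1
  have hlim := tendsto_atTop_ciSup hmono hbd
  refine ⟨h1, fun Λ hΛ => ?_⟩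
  obtain ⟨c, hc0, hc⟩ := B1_cs hC h3 hA hΛ
  obtain ⟨M, hM1, hM2⟩ := dat_squeeze hΛ
  have hz0 : ∀ X ∈ XC A, 0 ≤ X → Tendsto (fun m => B1b C Λ (D m) X) atTop (𝓝 0) := by
    intro X hX h0
    refine squeeze_zero_norm (a := fun m => M * B1b C (hh A) (D m) X) (fun m => ?_)
      (by simpa only [mul_zero, B1b_apply] using (h4 X hX h0).const_mul (M : ℝ))
    have hM : M • hh A ∈ Dat A := nsmul_mem hh1 M
    have b1 := B1_exc_nonneg hC h3 (h3' m) hX h0 (add_mem hM hΛ) hM1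
    have b2 := B1_exc_nonneg hC h3 (h3' m) hX h0 (sub_mem hM hΛ) hM2
    rw [sub_eq_add_neg, ← neg_one_smul ℚ Λ] at b2
    rw [← Nat.cast_smul_eq_nsmul ℚ, B1b_add, B1b_smul, Rat.smul_def, Rat.cast_natCast] at b1 b2
    rw [B1b_smul, neg_one_smul] at b2
    rw [Real.norm_eq_abs, abs_le]
    constructor <;> linarith
  have hz : ∀ X ∈ XC A, Tendsto (fun m => B1b C Λ (D m) X) atTop (𝓝 0) := fun X hX => by
    have b1 := hz0 _ (B1_pos_part fun c hc => (hX c hc).le) le_sup_right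
    have b2 := hz0 _ (B1_pos_part fun c hc => (neg_mem hX c hc).le) le_sup_right
    have b3 := b1.sub b2
    simp only [← map_sub, sub_zero] at b3
    rwa [show X ⊔ 0 - (-X ⊔ 0) = X from posPart_sub_negPart X] at b3
  refine ⟨fun n => c * ((⨆ i, a i) - a n), ?_, fun n X hX => ?_⟩
  · simpa using (hlim.const_sub (⨆ i, a i)).const_mul c
  · have b1 := ((hz X hX).sub_const (B1b C Λ (D n) X)).pow 2
    rw [zero_sub, neg_sq] at b1
    refine le_of_tendsto b1 (eventually_atTop.2 ⟨n, fun m hm => ?_⟩)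
    rw [← LinearMap.map_sub₂]
    refine (hc _ (hY m n) X hX).trans (mul_le_mul_of_nonneg_right
      (mul_le_mul_of_nonneg_left ?_ hc0) (B1_nx_nonneg hC h3 hA hX))
    exact (hnx n m hm).trans (sub_le_sub_right (le_ciSup hbd m) _)

theorem PN.exc_nonneg {D X : DD k F} (hD : PN A D) (hX : X ∈ XC A) (h : 0 ≤ X) {Λ : N k F}
    (hΛ : Λ ∈ Dat A) (hΛ' : Nef Λ) : 0 ≤ JJ C F (Λ * cl D * cl X) := by
  have h1 := B1_exc_nonneg hC h3 hD hX h hΛ hΛ'
  rw [B1b_apply] at h1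
  exact_mod_cast h1

theorem B1_null {Λ : N k F} (hΛ : Λ ∈ Dat A) {D X : ℕ → DD k F} (hD : Good C A D)
    (hX : Good C A X) (h0 : X 0 ∈ XC A) :
    Tendsto (fun n => B1b C Λ (D n) (X n)) atTop (𝓝 0) := by
  obtain ⟨ε, h1, h2⟩ := hD.B1orth hΛ
  refine B1_sq_zero ?_ fun n => h2 n _ (by simpa using add_mem (hX.exc n) h0)
  simpa using h1.mul (hX.null hC h3 hA h0)

theorem B1_cauchy {Λ : N k F} (hΛ : Λ ∈ Dat A) {D D' : ℕ → DD k F} (hD : Good C A D)
    (hD' : Good C A D') : CauchySeq fun n => B1b C Λ (D n) (D' n) := by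
  have key : ∀ {E E' : ℕ → DD k F}, Good C A E → Good C A E' → ∃ b : ℕ → ℝ,
      Tendsto b atTop (𝓝 0) ∧ ∀ n m l, n ≤ m → n ≤ l → |B1b C Λ (E l) (E' m - E' n)| ≤ b n := by
    intro E E' hE hE'
    obtain ⟨ε, h1, h2⟩ := hE.B1orth hΛ
    obtain ⟨δ, h4, h5⟩ := B1_bound h1
    obtain ⟨η, h6, h7⟩ := hE'.cauchy hC h3 hA
    refine ⟨fun n => √(δ n * η n), by simpa using (h4.mul h6).sqrt, fun n m l hm hl => ?_⟩
    refine Real.abs_le_sqrt ((h2 l _ (hE'.B1exc m n)).trans ?_)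
    exact mul_le_mul ((le_abs_self _).trans (h5 n l hl)) (h7 n m hm)
      (B1_nx_nonneg hC h3 hA (hE'.B1exc m n)) ((abs_nonneg _).trans (h5 n l hl))
  obtain ⟨b, h1, h2⟩ := key hD hD'
  obtain ⟨b', h1', h2'⟩ := key hD' hD
  refine cauchySeq_of_le_tendsto_0' (fun n => b n + b' n) (fun n m hnm => ?_)
    (by simpa using h1.add h1')
  have e : B1b C Λ (D m) (D' m) - B1b C Λ (D n) (D' n) =
      B1b C Λ (D n) (D' m - D' n) + B1b C Λ (D' m) (D m - D n) := by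
    rw [map_sub, map_sub, B1b_symm C _ (D' m) (D m), B1b_symm C _ (D' m) (D n)]
    ring
  rw [dist_comm, Real.dist_eq, e]
  exact (abs_add_le _ _).trans (add_le_add (h2 n m n hnm le_rfl) (h2' n m m hnm hnm))

/-- The limit form exists as soon as every Weil divisor has a good sequence of lifts. -/
theorem exists_QQ (h : ∀ G : DD k F, ∃ D, Good C A D ∧ D 0 - G ∈ XC A) : ∃ Q, QSpec C A Q := by
  choose E hE hE' using h
  have key : ∀ (Λ : Dat A) (G G' : DD k F), ∃ x : ℝ, ∀ D D' : ℕ → DD k F, Good C A D →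
      Good C A D' → D 0 - G ∈ XC A → D' 0 - G' ∈ XC A →
      Tendsto (fun n => B1b C Λ (D n) (D' n)) atTop (𝓝 x) := fun Λ G G' => by
    obtain ⟨x, hx⟩ := cauchySeq_tendsto_of_complete (B1_cauchy hC h3 hA Λ.2 (hE G) (hE G'))
    refine ⟨x, fun D D' hD hD' hG hG' => ?_⟩
    have b1 := B1_null hC h3 hA Λ.2 hD' (hD.B1sub hC h3 hA (hE G)) (by
      rw [← sub_sub_sub_cancel_right _ _ G]
      exact sub_mem hG (hE' G))
    have b2 := B1_null hC h3 hA Λ.2 (hE G) (hD'.B1sub hC h3 hA (hE G')) (by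
      rw [← sub_sub_sub_cancel_right _ _ G']
      exact sub_mem hG' (hE' G'))
    have b3 := (hx.add b1).add b2
    rw [add_zero, add_zero] at b3
    refine b3.congr fun n => ?_
    rw [map_sub, map_sub, B1b_symm C _ (D' n) (D n), B1b_symm C _ (D' n) (E G n)]
    ring
  choose q hq using key
  have hq' := fun Λ G G' => hq Λ G G' _ _ (hE G) (hE G') (hE' G) (hE' G')
  have hadd : ∀ G G', E G 0 + E G' 0 - (G + G') ∈ XC A := fun G G' => by
    rw [add_sub_add_comm]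
    exact add_mem (hE' G) (hE' G')
  have hsm : ∀ (r : ℚ) G, r • E G 0 - r • G ∈ XC A := fun r G => by
    rw [← smul_sub]
    exact Submodule.smul_mem _ r (hE' G)
  have q1 : ∀ Λ G₁ G₂ G', q Λ (G₁ + G₂) G' = q Λ G₁ G' + q Λ G₂ G' := fun Λ G₁ G₂ G' =>
    tendsto_nhds_unique (hq Λ _ _ _ _ ((hE G₁).add hC h3 hA (hE G₂)) (hE G') (hadd _ _) (hE' G'))
      (((hq' Λ G₁ G').add (hq' Λ G₂ G')).congr fun n => (LinearMap.map_add₂ _ _ _ _).symm)
  have q2 : ∀ Λ (r : ℚ) G G', q Λ (r • G) G' = r • q Λ G G' := fun Λ r G G' =>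
    tendsto_nhds_unique (hq Λ _ _ _ _ ((hE G).smul hC h3 hA r) (hE G') (hsm _ _) (hE' G'))
      (((hq' Λ G G').const_smul r).congr fun n => (LinearMap.map_smul₂ _ _ _ _).symm)
  have q3 : ∀ Λ G G₁ G₂, q Λ G (G₁ + G₂) = q Λ G G₁ + q Λ G G₂ := fun Λ G G₁ G₂ =>
    tendsto_nhds_unique (hq Λ _ _ _ _ (hE G) ((hE G₁).add hC h3 hA (hE G₂)) (hE' G) (hadd _ _))
      (((hq' Λ G G₁).add (hq' Λ G G₂)).congr fun n => (map_add _ _ _).symm)
  have q4 : ∀ Λ (r : ℚ) G G', q Λ G (r • G') = r • q Λ G G' := fun Λ r G G' =>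
    tendsto_nhds_unique (hq Λ _ _ _ _ (hE G) ((hE G').smul hC h3 hA r) (hE' G) (hsm _ _))
      (((hq' Λ G G').const_smul r).congr fun n => (map_smul _ _ _).symm)
  let Q₀ : Dat A →ₗ[ℚ] DD k F →ₗ[ℚ] DD k F →ₗ[ℚ] ℝ :=
    { toFun := fun Λ => LinearMap.mk₂ ℚ (q Λ) (q1 Λ) (q2 Λ) (q3 Λ) (q4 Λ)
      map_add' := fun Λ Λ' => LinearMap.ext₂ fun G G' => tendsto_nhds_unique (hq' _ G G')
        (((hq' Λ G G').add (hq' Λ' G G')).congr fun n => (B1b_add C _ _ _ _).symm)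
      map_smul' := fun r Λ => LinearMap.ext₂ fun G G' => tendsto_nhds_unique (hq' _ G G')
        (((hq' Λ G G').const_smul r).congr fun n => (B1b_smul C _ _ _ _).symm) }
  obtain ⟨Q, hQ⟩ := Q₀.exists_extend
  refine ⟨Q, fun Λ hΛ D D' G G' hD hD' hG hG' => ?_⟩
  rw [show Q Λ = Q₀ ⟨Λ, hΛ⟩ from DFunLike.congr_fun hQ ⟨Λ, hΛ⟩]
  exact hq ⟨Λ, hΛ⟩ G G' D D' hD hD' hG hG'

end Pool.Agent.Work.MP_ffcd14_ag.Uni
end

-- merged part: Pool.Agent.Work.MP_ffcd14_ag.Uni.B2a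
section
/-! # Volumes and the inequality of Siu -/

open MvPolynomial Filter Topology

namespace Pool.Agent.Work.MP_ffcd14_ag.Uni

universe u v w

variable {k F : Type u} [Field k] [Field F] [Algebra k F]
  {K : Type v} [Field K] [CharZero K] (C : NT.{u, v, w} k K)

/-- The volume of a Weil divisor on a threefold. -/
noncomputable def vol (A : FD k F) (D : DD k F) : ℝ :=
  sSup {x | ∃ (m : ℕ) (V : FD k F), 0 < m ∧ V.1 ≤ RR A (m • D) ∧
    x = (JJ C F (hh V ^ 3) : ℚ) / (m : ℝ) ^ 3}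

theorem B2a_fg {R : Submodule k F} {n : ℕ}
    (h : ∀ V : FD k F, V.1 ≤ R → Module.finrank k V.1 ≤ n) : R.FG := by
  rw [← Module.Finite.iff_fg, ← Module.rank_lt_aleph0_iff]
  refine (rank_le (n := n) fun s hs => ?_).trans_lt Cardinal.natCast_lt_aleph0
  rcases s.eq_empty_or_nonempty with rfl | hne
  · simp
  have h1 := finrank_span_eq_card (hs.map' R.subtype (Submodule.ker_subtype _))
  rw [Fintype.card_coe] at h1
  rw [← h1]
  refine h ⟨_, fun e => ?_, Submodule.fg_span (Set.finite_range _)⟩ ?_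
  · rw [e, finrank_bot] at h1
    exact hne.card_pos.ne h1
  · refine Submodule.span_le.2 ?_
    rintro _ ⟨i, rfl⟩
    exact i.1.2

theorem B2a_finrank_map (V : Submodule k F) {a : F} (ha : a ≠ 0) :
    Module.finrank k (V.map (LinearMap.mulLeft k a)) = Module.finrank k V :=
  (Submodule.equivMapOfInjective _ (mul_right_injective₀ ha) V).finrank_eq.symm

theorem B2a_vq_mn (c : Dv k F) (V : FD k F) : (c.vq (mD V) : FF) = mn V c.toVl := c.vq_cast _

variable {C} [IsAlgClosed k] [Fg k F] (hC : C.Chow)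
include hC

theorem B2a_mono {D : DD k F} (hD : 0 ≤ D) {x x' y z : N k F} (h : x' = x + cl D) (hy : Nef y)
    (hz : Nef z) : JJ C F (x * y * z) ≤ JJ C F (x' * y * z) := by
  have h1 := JJ_eff2 hC hD hy hz
  rw [h, add_mul, add_mul, map_add, mul_assoc (cl D)]
  linarith

theorem B2a_cube_nonneg {x : N k F} (hx : Nef x) : 0 ≤ JJ C F (x ^ 3) := by
  rw [pow_three']
  exact JJ_nonneg3 hC hx hx hx

theorem B2a_vol_nonneg (A : FD k F) (D : DD k F) : 0 ≤ vol C A D := by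
  refine Real.sSup_nonneg ?_
  rintro _ ⟨m, V, -, -, rfl⟩
  exact div_nonneg (Rat.cast_nonneg.2 (B2a_cube_nonneg hC (Nef.hh V))) (by positivity)

variable (h3 : td k F = 3) {A : FD k F} (hA : IntermediateField.adjoin k (rt A) = ⊤)
include h3 hA

omit hC in
theorem B2a_bound (D : DD k F) : ∃ j : ℕ, ∀ (m : ℕ) (V : FD k F), V.1 ≤ RR A (m • D) →
    ∃ E : DD k F, 0 ≤ E ∧ (m * j) • hh A = hh V + cl E := by
  obtain ⟨j, f, -, h⟩ := RR_bound hA (by omega) D
  refine ⟨j, fun m V hV => ⟨_, sub_nonneg.2 (h m V hV), ?_⟩⟩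
  rw [map_sub, map_nsmul, map_sub, map_nsmul, cl_mD, cl_mD, cl_vD, sub_zero, smul_neg, smul_neg,
    mul_nsmul']
  abel

theorem RR_fg (D : DD k F) : (RR A D).FG := by
  obtain ⟨j, hj⟩ := B2a_bound h3 hA D
  obtain ⟨V₀, hV₀⟩ := JJ_cube hC (L := F)
  obtain ⟨n, hn⟩ := exists_nat_ge (JJ C F (((1 * j) • hh A + hh V₀) ^ td k F))
  refine B2a_fg (n := n) fun V hV => ?_
  obtain ⟨E, h1, h2⟩ := hj 1 V (by rwa [one_nsmul])
  have h4 := JJ_pow_mono hC ((Nef.hh V).add (Nef.hh V₀))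
    (((Nef.hh A).nsmul (1 * j)).add (Nef.hh V₀)) h1 (by rw [h2, add_right_comm]) (td k F)
  have h5 := (hV₀ V).trans (h4.trans hn)
  have h6 : (td k F).factorial * Module.finrank k V.1 ≤ n := by exact_mod_cast h5
  exact (Nat.le_mul_of_pos_left _ (Nat.factorial_pos _)).trans h6

theorem NF.RS_val {D : DD k F} (h : NF A D) : (RS A D).1 = RR A D :=
  FD.of_val (h.ne_bot hA (by omega)) (RR_fg hC h3 hA D)

theorem B2a_vq {D : DD k F} (h : NF A D) {c : Dv k F} (hc : Pr A c) :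
    c.vq (mD (RS A D)) = -c.vq D := by
  have h1 := le_RR.1 (h.RS_val hC h3 hA).le c hc
  rw [map_neg] at h1
  refine le_antisymm ?_ (neg_le.1 h1)
  obtain ⟨f, h2, h4, h5⟩ := h c hc
  rw [← h.RS_val hC h3 hA] at h2
  have h6 := mn_le _ c.toVl h2 h4
  rw [← Rat.cast_le (K := FF), B2a_vq_mn, Rat.cast_neg, c.vq_cast]
  linarith

theorem NF.lift {D : DD k F} (h : NF A D) : -mD (RS A D) - D ∈ XC A := by
  intro c hc
  rw [map_sub, map_neg, B2a_vq hC h3 hA h hc, neg_neg, sub_self]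

theorem le_vol {D : DD k F} {m : ℕ} {V : FD k F} (hm : 0 < m) (hV : V.1 ≤ RR A (m • D)) :
    ((JJ C F (hh V ^ 3) : ℚ) : ℝ) / (m : ℝ) ^ 3 ≤ vol C A D := by
  obtain ⟨j, hj⟩ := B2a_bound h3 hA D
  refine le_csSup ⟨((j ^ 3 * JJ C F (hh A ^ 3) : ℚ) : ℝ), ?_⟩ ⟨m, V, hm, hV, rfl⟩
  rintro _ ⟨m, V, hm, hV, rfl⟩
  obtain ⟨E, h1, h2⟩ := hj m V hV
  have h4 := JJ_pow_mono hC (Nef.hh V) ((Nef.hh A).nsmul (m * j)) h1 h2 3
  rw [smul_pow, map_nsmul, nsmul_eq_mul] at h4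
  rw [div_le_iff₀ (by positivity)]
  have h5 : JJ C F (hh V ^ 3) ≤ j ^ 3 * JJ C F (hh A ^ 3) * m ^ 3 := by
    push_cast at h4
    linarith
  exact_mod_cast h5

theorem finrank_le_vol (D : DD k F) : ∃ c : ℝ, ∀ m : ℕ, 0 < m →
    6 * (Module.finrank k (RR A (m • D)) : ℝ) ≤ vol C A D * m ^ 3 + c * m ^ 2 := by
  obtain ⟨j, hj⟩ := B2a_bound h3 hA D
  obtain ⟨V₀, hV₀⟩ := JJ_cube hC (L := F)
  have n0 := Nef.hh V₀
  have nA := Nef.hh A
  have p1 := JJ_nonneg3 hC nA nA n0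
  have p2 := JJ_nonneg3 hC nA n0 n0
  have p3 := B2a_cube_nonneg hC n0
  refine ⟨((3 * j ^ 2 * JJ C F (hh A * hh A * hh V₀) + 3 * j * JJ C F (hh A * hh V₀ * hh V₀) +
    JJ C F (hh V₀ ^ 3) : ℚ) : ℝ), fun m hm => ?_⟩
  by_cases h0 : RR A (m • D) = ⊥
  · rw [h0, finrank_bot, Nat.cast_zero, mul_zero]
    refine add_nonneg (mul_nonneg (B2a_vol_nonneg hC A D) (by positivity))
      (mul_nonneg (Rat.cast_nonneg.2 ?_) (by positivity))
    positivity
  let V : FD k F := ⟨RR A (m • D), h0, RR_fg hC h3 hA _⟩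
  have nV := Nef.hh V
  obtain ⟨E, h1, h2⟩ := hj m V le_rfl
  have h4 := hV₀ V
  have e : (hh V + hh V₀) ^ 3 = hh V ^ 3 + 3 • (hh V * hh V * hh V₀) +
      3 • (hh V * hh V₀ * hh V₀) + hh V₀ ^ 3 := by ring
  rw [h3, e] at h4
  simp only [map_add, map_nsmul] at h4
  simp only [nsmul_eq_mul] at h4
  have h5 := B2a_mono hC h1 h2 nV n0
  have h6 := B2a_mono hC h1 h2 (nA.nsmul (m * j)) n0
  have h7 := B2a_mono hC h1 h2 n0 n0
  rw [mul_comm (hh V) (_ • _)] at h6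
  simp only [smul_mul_assoc, mul_smul_comm, map_nsmul] at h5 h6 h7
  simp only [nsmul_eq_mul] at h5 h6 h7
  have h8 := le_vol hC h3 hA hm (V := V) le_rfl
  rw [div_le_iff₀ (by positivity)] at h8
  have h9 : (1 : ℚ) ≤ m := by exact_mod_cast hm
  have h10 : 6 * (Module.finrank k V.1 : ℚ) ≤ JJ C F (hh V ^ 3) +
      (3 * j ^ 2 * JJ C F (hh A * hh A * hh V₀) + 3 * j * JJ C F (hh A * hh V₀ * hh V₀) +
        JJ C F (hh V₀ ^ 3)) * m ^ 2 := by
    have q1 : (m : ℚ) ≤ m ^ 2 := by nlinarith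
    have q2 := mul_le_mul_of_nonneg_right q1 (mul_nonneg (Nat.cast_nonneg (α := ℚ) j) p2)
    have q3 := mul_le_mul_of_nonneg_right (h9.trans q1) p3
    norm_num [Nat.factorial] at h4
    push_cast at h5 h6 h7
    nlinarith
  have h11 : 6 * (Module.finrank k V.1 : ℝ) ≤ (JJ C F (hh V ^ 3) : ℚ) +
      ((3 * j ^ 2 * JJ C F (hh A * hh A * hh V₀) + 3 * j * JJ C F (hh A * hh V₀ * hh V₀) +
        JJ C F (hh V₀ ^ 3) : ℚ) : ℝ) * m ^ 2 := by exact_mod_cast h10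
  exact h11.trans (add_le_add_left h8 _)

theorem B2a_siu {W U : FD k F} {D : DD k F} {m : ℕ}
    (h : ∀ c, Pr A c → c.vq (mD U - mD W) ≤ c.vq (m • D)) (r : ℕ) :
    2 * Module.finrank k (W ^ r).1 ≤
      Module.finrank k ((W * U) ^ r).1 + Module.finrank k (RR A ((m * r) • D)) := by
  obtain ⟨u, hu, u', hu', h0, h0', hp⟩ := exists_pair A U
  have a0 := inv_ne_zero (pow_ne_zero r h0)
  have a0' := inv_ne_zero (pow_ne_zero r h0')
  have := Module.Finite.iff_fg.2 (RR_fg hC h3 hA ((m * r) • D))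
  have h1 := Submodule.finrank_sup_add_finrank_inf_eq
    ((W ^ r).1.map (LinearMap.mulLeft k (u ^ r)⁻¹)) ((W ^ r).1.map (LinearMap.mulLeft k (u' ^ r)⁻¹))
  rw [B2a_finrank_map _ a0, B2a_finrank_map _ a0'] at h1
  rw [two_mul, ← h1, ← B2a_finrank_map ((W * U) ^ r).1 (mul_ne_zero a0 a0')]
  have key : ∀ {a b : F}, a ≠ 0 → b ≠ 0 → b ∈ U.1 →
      (W ^ r).1.map (LinearMap.mulLeft k (a ^ r)⁻¹) ≤
        ((W * U) ^ r).1.map (LinearMap.mulLeft k ((a ^ r)⁻¹ * (b ^ r)⁻¹)) := by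
    rintro a b ha hb hU _ ⟨x, hx, rfl⟩
    refine ⟨x * b ^ r, ?_, ?_⟩
    · rw [mul_pow, FD.mul_val]
      exact Submodule.mul_mem_mul hx (Submodule.pow_mem_pow _ hU r)
    · simp only [LinearMap.mulLeft_apply]
      field_simp
  refine add_le_add (Submodule.finrank_mono (sup_le (key h0 h0' hu') ?_))
    (Submodule.finrank_mono ?_)
  · rw [mul_comm (u ^ r)⁻¹]
    exact key h0' h0 hu
  · rintro y ⟨⟨x, hx, h2⟩, ⟨x', hx', h2'⟩⟩
    rcases eq_or_ne y 0 with hy | hy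
    · exact mem_RR.2 (Or.inl hy)
    refine mem_RR.2 (Or.inr fun c hc => ?_)
    have val : ∀ {a x : F}, a ≠ 0 → x ∈ (W ^ r).1 → LinearMap.mulLeft k (a ^ r)⁻¹ x = y →
        r * mn W c.toVl - r * c a ≤ c y := by
      intro a x ha hx e
      rw [LinearMap.mulLeft_apply] at e
      have hx0 : x ≠ 0 := fun h => hy (by rw [← e, h, mul_zero])
      have h4 := mn_le _ c.toVl hx hx0
      rw [mn_pow] at h4
      rw [← e, c.toVl.mul _ _ (inv_ne_zero (pow_ne_zero r ha)) hx0, c.toVl.inv, c.toVl.pow]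
      linarith
    have h4 := val h0 hx h2
    have h5 := val h0' hx' h2'
    have h6 := h c hc
    rw [← Rat.cast_le (K := FF), c.vq_cast, c.vq_cast, DD.sub_apply, mD_apply, mD_apply,
      DD.nsmul_apply] at h6
    have h7 := mul_le_mul_of_nonneg_left h6 (Nat.cast_nonneg (α := FF) r)
    rw [DD.nsmul_apply]
    push_cast
    rcases min_choice (c u) (c u') with h8 | h8
    · rw [← hp c hc, h8] at h7
      linarith
    · rw [← hp c hc, h8] at h7
      linarith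

/-- The inequality of Siu, for the number of sections. -/
theorem siu_finrank {W U : FD k F} (hW : IntermediateField.adjoin k (rt W) = ⊤) {D : DD k F}
    {m : ℕ} (h : ∀ c, Pr A c → c.vq (mD U - mD W) ≤ c.vq (m • D)) {ε : ℝ} (hε : 0 < ε) :
    ∀ᶠ r : ℕ in atTop, ((2 * JJ C F (hh W ^ 3) - JJ C F ((hh W + hh U) ^ 3) : ℚ) - ε) * r ^ 3 ≤
      6 * (Module.finrank k (RR A ((m * r) • D)) : ℝ) := by
  have hWU : IntermediateField.adjoin k (rt (W * U)) = ⊤ :=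
    top_le_iff.1 (hW ▸ IntermediateField.adjoin.mono _ _ _ (rt_dvd (dvd_mul_right W U)))
  have t1 := JJ_vol hC hW
  have t2 := JJ_vol hC hWU
  rw [h3] at t1 t2
  rw [hh_mul] at t2
  have t3 := ((t1.const_mul 2).sub t2).eventually (lt_mem_nhds (sub_lt_self _ hε))
  filter_upwards [t3, eventually_gt_atTop 0] with r h1 hr
  have h2 : 2 * (Module.finrank k (W ^ r).1 : ℝ) ≤
      Module.finrank k ((W * U) ^ r).1 + Module.finrank k (RR A ((m * r) • D)) := by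
    exact_mod_cast B2a_siu hC h3 hA h r
  have h4 : (0 : ℝ) < (r : ℝ) ^ 3 := by positivity
  rw [← mul_div_assoc, ← sub_div, lt_div_iff₀ h4] at h1
  norm_num [Nat.factorial] at h1
  push_cast
  linarith

/-- The inequality of Siu. -/
theorem siu {W U : FD k F} (hW : IntermediateField.adjoin k (rt W) = ⊤) {D : DD k F} {m : ℕ}
    (hm : 0 < m) (h : ∀ c, Pr A c → c.vq (mD U - mD W) ≤ c.vq (m • D)) :
    ((2 * JJ C F (hh W ^ 3) - JJ C F ((hh W + hh U) ^ 3) : ℚ) : ℝ) ≤ vol C A D * m ^ 3 := by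
  obtain ⟨c, hc⟩ := finrank_le_vol hC h3 hA D
  refine le_of_forall_pos_le_add fun ε hε => sub_le_iff_le_add.1 ?_
  have t : Tendsto (fun r : ℕ => vol C A D * m ^ 3 + c * m ^ 2 / (r : ℝ)) atTop
      (𝓝 (vol C A D * m ^ 3 + 0)) :=
    tendsto_const_nhds.add (tendsto_const_div_atTop_nhds_zero_nat _)
  rw [add_zero] at t
  refine ge_of_tendsto t ?_
  filter_upwards [siu_finrank hC h3 hA hW h hε, eventually_gt_atTop 0] with r h1 hr
  have h2 := h1.trans (hc (m * r) (Nat.mul_pos hm hr))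
  have h4 : (0 : ℝ) < r := by exact_mod_cast hr
  refine le_of_mul_le_mul_right (h2.trans_eq ?_) (pow_pos h4 3)
  push_cast
  field_simp

end Pool.Agent.Work.MP_ffcd14_ag.Uni
end
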