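import Pool.Agent.Work.MP_ffcd14_ag.Uni.B0
import Pool.Agent.Work.MP_ffcd14_ag.Cyc.Num2
import Pool.Agent.Work.MP_ffcd14_ag.Cyc.FDefs
import Pool.Agent.Work.MP_ffcd14_ag.Cyc.ChowCyc
import Pool.Agent.Work.MP_ffcd14_ag.Cyc.Fib
import Mathlib
import Pool.Agent.Work.MP_ffcd14_ag.Cyc.VarDim
import Pool.Agent.Work.MP_ffcd14_ag.Cyc.KR
import Pool.Agent.Work.MP_ffcd14_ag.Cyc.GC

-- merged part: Pool.Agent.Work.MP_ffcd14_ag.Uni.I0a
section
/-! # Intersection numbers on function fields: definitions, generating points -/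

open MvPolynomial

namespace Pool.Agent.Work.MP_ffcd14_ag.Uni

universe u v w

variable {k F L : Type u} [Field k] [Field F] [Field L] [Algebra k F] [Algebra k L]
  {K : Type v} [Field K] [CharZero K] {P P' Q : Amb} (C : NT.{u, v, w} k K)

/-- The ratios of the coordinates of `w` generate the field. -/
def Gen (k : Type u) [Field k] [Algebra k L] (w : P.V → L) : Prop :=
  IntermediateField.adjoin k (rat w) = ⊤

/-- `φ` computes the intersection numbers on all models of `L` over the point `w` of `Ω`. -/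
def ISpec (Ω : Var k P) (w : P.V → L) (φ : EE C Ω →ₗ[ℚ] N k L →ₗ[ℚ] ℚ) : Prop :=
  ∀ (Q : Amb) (u : Q.V → L) (Z : Sub k (P.sum Q)),
    IsGen (Z : Set ((P.sum Q).Pt k)) (Amb.elim w u) → Gen k (Amb.elim w u) →
    ∀ (ω : EE C Ω) (p : MvPolynomial Q.ι ℚ), φ ω (aeval (fun j => hh (blk k u j)) p) =
      nm C (Ω.ext Q) Z (pl C (Prj.one Ω Q) ω * aeval (fun j => hy C (Ω.ext Q) (Sum.inr j)) p)

open Classical in
/-- The intersection number of the pull-back of a class of `Ω` by the point `w` with a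
polynomial in Cartier b-divisors. -/
noncomputable def II (Ω : Var k P) (w : P.V → L) : EE C Ω →ₗ[ℚ] N k L →ₗ[ℚ] ℚ :=
  if h : ∃ φ, ISpec C Ω w φ then h.choose else 0

/-- The empty product of projective spaces. -/
def nil : Amb where
  ι := Empty
  σ _ := Empty

/-- The intersection numbers of Cartier b-divisors. -/
noncomputable def JJ (L : Type u) [Field L] [Algebra k L] : N k L →ₗ[ℚ] ℚ :=
  II C (Var.full k nil) (fun s => s.1.elim) 1

/-- At every prime divisor of the model given by `w` the local ring is a valuation ring. -/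
def Nrm (k : Type u) [Field k] [Algebra k L] (w : P.V → L) : Prop :=
  ∀ ν : Dv k L, rn k (rat (rpt ν w)) + 1 = td k L → ∀ x, 0 ≤ ν x →
    ∃ (f g : MvPolynomial P.V k) (a : P.ι →₀ ℕ), IsForm f a ∧ IsForm g a ∧
      aeval (rpt ν w) g ≠ 0 ∧ x * aeval w g = aeval w f

/-- The multidegree `(1, …, 1)`. -/
noncomputable def ones (P : Amb) : P.ι →₀ ℕ := Finsupp.equivFunOnFinite.symm fun _ => 1

theorem ones_pos (i : P.ι) : 0 < ones P i := Nat.one_pos

theorem Gen.mono {w : P.V → L} {u : Q.V → L} (h : Gen k w) (h' : rat w ⊆ rat u) : Gen k u :=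
  eq_top_iff.2 (h.ge.trans (IntermediateField.adjoin.mono k _ _ h'))

theorem Gen.left {w : P.V → L} (h : Gen k w) (u : Q.V → L) : Gen k (Amb.elim w u) :=
  h.mono (by rw [rat_elim]; exact Set.subset_union_left)

theorem Gen.right {u : Q.V → L} (h : Gen k u) (w : P.V → L) : Gen k (Amb.elim w u) :=
  h.mono (by rw [rat_elim]; exact Set.subset_union_right)

theorem Gen.of_comp {w : P'.V → L} (β : Crd k P P') (h : Gen k (w ∘ β.ε)) : Gen k w :=
  h.mono (β.Img_rat w)

theorem Gen.rn [Fg k L] {w : P.V → L} (h : Gen k w) : rn k (rat w) = td k L := rn_gen h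

theorem Gen.sdim [IsAlgClosed k] [Fg k L] {w : P.V → L} (h : Gen k w) {Z : Sub k P}
    (hZ : IsGen (Z : Set (P.Pt k)) w) : sdim Z = td k L := by
  rw [← rn_rat hZ, h.rn]

/-- The normalised coordinates generate the field. -/
theorem Gen.norm {w : P.V → L} (h : Gen k w) {ς : ∀ i, P.σ i} (hς : ∀ i, w ⟨i, ς i⟩ ≠ 0) :
    IntermediateField.adjoin k (Set.range fun s : P.V => (w ⟨s.1, ς s.1⟩)⁻¹ * w s) = ⊤ := by
  refine eq_top_iff.2 (h.ge.trans (IntermediateField.adjoin_le_iff.2 ?_))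
  rintro _ ⟨i, s, t, rfl⟩
  have e : w ⟨i, s⟩ / w ⟨i, t⟩ =
      ((w ⟨i, ς i⟩)⁻¹ * w ⟨i, s⟩) / ((w ⟨i, ς i⟩)⁻¹ * w ⟨i, t⟩) :=
    (mul_div_mul_left _ _ (inv_ne_zero (hς i))).symm
  rw [e]
  exact div_mem (IntermediateField.subset_adjoin _ _ ⟨⟨i, s⟩, rfl⟩)
    (IntermediateField.subset_adjoin _ _ ⟨⟨i, t⟩, rfl⟩)

theorem I0a_gen [Fg k L] : ∃ (Q : Amb) (u : Q.V → L), NZ u ∧ Gen k u := by
  obtain ⟨V, hV⟩ := exists_gen_fd (k := k) (L := L)
  obtain ⟨m, u, hu, e⟩ := exists_coord V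
  refine ⟨_, u, hu, eq_top_iff.2 (hV.ge.trans (IntermediateField.adjoin_le_iff.2 ?_))⟩
  rw [← e]
  exact rt_blk u ()

omit [Field L] [Algebra k L] in
theorem I0a_inl (w : P.V → L) (u : Q.V → L) : Amb.elim w u ∘ (Crd.inl k P Q).ε = w := rfl

omit [Field L] [Algebra k L] in
theorem I0a_inr (w : P.V → L) (u : Q.V → L) : Amb.elim w u ∘ (Crd.inr k P Q).ε = u := rfl

theorem I0a_sys_add (w : P.V → L) (a b : P.ι →₀ ℕ) :
    sys k w (a + b) = sys k w a * sys k w b :=
  Finsupp.prod_add_index' (fun _ => pow_zero _) fun _ _ _ => pow_add _ _ _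

theorem I0a_sys_single (w : P.V → L) (i : P.ι) (n : ℕ) :
    sys k w (Finsupp.single i n) = blk k w i ^ n :=
  Finsupp.prod_single_index (pow_zero _)

theorem I0a_sys_smul (w : P.V → L) (a : P.ι →₀ ℕ) (n : ℕ) : sys k w (n • a) = sys k w a ^ n := by
  induction n with
  | zero => rw [zero_smul, pow_zero]; exact Finsupp.prod_zero_index
  | succ n ih => rw [succ_nsmul, I0a_sys_add, ih, pow_succ]

theorem I0a_sys_comp {w : P'.V → L} (hw : NZ w) (β : Crd k P P') (a : P.ι →₀ ℕ) :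
    sys k (w ∘ β.ε) a = sys k w (a.mapDomain β.ψ) := by
  rw [sys, sys, Finsupp.prod_mapDomain_index (fun _ => pow_zero _) fun _ _ _ => pow_add _ _ _]
  exact Finsupp.prod_congr fun i _ => by rw [blk_comp hw]

/-- The rank of the reduction of a point is the rank of the restricted system. -/
theorem I0a_rn_sys [Fg k L] {w : P.V → L} (hw : NZ w) :
    rn k (rt (sys k w (ones P))) = rn k (rat w) :=
  le_antisymm (rn_le_of_mem (rt_sys w _))
    (rn_mono (rat_subset hw fun i => blk_dvd_sys w (ones_pos i)))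

end Pool.Agent.Work.MP_ffcd14_ag.Uni
end

-- merged part: Pool.Agent.Work.MP_ffcd14_ag.Cyc.Ext
section
/-! # Base change along a rational map of the base -/

open MvPolynomial Topology TopologicalSpace Filter

namespace Pool.Agent.Work.MP_ffcd14_ag

universe u v w w'

variable {k : Type u} [Field k] [IsAlgClosed k] {P P' P₀ P₁ P₂ Q : Amb}

/-- The rational map given by `F` on `c` is regular at `s`. -/
def RegAt (c : Sub k P) (F : Q.V → MvPolynomial P.V k) (s : P.Pt k) : Prop :=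
  ∀ j, ∃ (b : P.ι →₀ ℕ) (e : Q.σ j → MvPolynomial P.V k), (∀ i, IsForm (e i) b) ∧
    (∃ i, ev s (e i) ≠ 0) ∧ ∀ i i', Van (c : Set (P.Pt k)) (F ⟨j, i⟩ * e i' - F ⟨j, i'⟩ * e i)

omit [IsAlgClosed k] in
theorem Ext_ev_minor (β : Crd k P P') {j : Q.ι} (F : Q.σ j → MvPolynomial P.V k) (s t : Q.σ j)
    (x : (P'.sum Q).Pt k) :
    ev ((β.map Q).pr x) (minor F s t) = ev x (minor (fun s => rename β.ε (F s)) s t) := by
  rw [ev_minor, ev_minor, β.ev_rename, β.ev_rename]
  rfl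

omit [IsAlgClosed k] in
theorem Ext_graph_img (β : Crd k P P') {T : Sub k (P'.sum Q)} {F : Q.V → MvPolynomial P.V k}
    {b : Q.ι → P.ι →₀ ℕ} (hF : ∀ s, IsForm (F s) (b s.1))
    (hg : OnGraph (T : Set ((P'.sum Q).Pt k)) fun s => rename β.ε (F s)) :
    OnGraph ((β.map Q).img T : Set ((P.sum Q).Pt k)) F := by
  intro j s t
  obtain ⟨a, ha⟩ := minor_form (F := fun s => F ⟨j, s⟩) (a := b j) (fun s => hF ⟨j, s⟩) s t
  rw [(β.map Q).van_img ha]
  intro x hx
  rw [Crd.ev_rename, Ext_ev_minor]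
  exact hg j s t x hx

omit [IsAlgClosed k] in
theorem Ext_inl_img (β : Crd k P P') (T : Sub k (P'.sum Q)) :
    (Crd.inl k P Q).img ((β.map Q).img T) = β.img ((Crd.inl k P' Q).img T) := by
  rw [← Crd.img_comp, ← Crd.img_comp]
  exact Crd.img_congr _ _ fun _ _ => rfl

omit [IsAlgClosed k] in
theorem Ext_defOn (β : Crd k P P') {E : Sub k P'} {F : Q.V → MvPolynomial P.V k}
    {b : Q.ι → P.ι →₀ ℕ} (hF : ∀ s, IsForm (F s) (b s.1))
    (hd : DefOn (β.img E : Set (P.Pt k)) F) :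
    DefOn (E : Set (P'.Pt k)) fun s => rename β.ε (F s) :=
  fun j => (hd j).imp fun s hs h => hs ((β.van_img (hF ⟨j, s⟩)).2 h)

omit [IsAlgClosed k] in
/-- The image of a graph closure is the graph closure over the image. -/
theorem Ext_img_eq (β : Crd k P P') {T : Sub k (P'.sum Q)} {U : Sub k (P.sum Q)}
    {F : Q.V → MvPolynomial P.V k} {b : Q.ι → P.ι →₀ ℕ} (hF : ∀ s, IsForm (F s) (b s.1))
    (hd : DefOn ((Crd.inl k P Q).img U : Set (P.Pt k)) F)
    (hU : OnGraph (U : Set ((P.sum Q).Pt k)) F)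
    (hg : OnGraph (T : Set ((P'.sum Q).Pt k)) fun s => rename β.ε (F s))
    (he : β.img ((Crd.inl k P' Q).img T) = (Crd.inl k P Q).img U) : (β.map Q).img T = U :=
  (hU.unique hF hd (Ext_graph_img β hF hg) (by rw [Ext_inl_img, he])).symm

omit [IsAlgClosed k] in
theorem Ext_graph_congr {T : Set ((P.sum Q).Pt k)} {F G : Q.V → MvPolynomial P.V k}
    (h : OnGraph T F)
    (he : ∀ x ∈ T, ∀ s, ev ((Crd.inl k P Q).pr x) (F s) = ev ((Crd.inl k P Q).pr x) (G s)) :
    OnGraph T G := by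
  intro j s t x hx
  have h1 := h j s t x hx
  rw [ev_minor] at h1 ⊢
  have e1 := he x hx ⟨j, s⟩
  have e2 := he x hx ⟨j, t⟩
  change ev ((Blk.inl P Q).pr x) _ = ev ((Blk.inl P Q).pr x) _ at e1 e2
  rw [← e1, ← e2]
  exact h1

theorem graph_reg (β : Crd k P₀ P₁) {E : Sub k P₁} {F : Q.V → MvPolynomial P₀.V k}
    {b : Q.ι → P₀.ι →₀ ℕ} (hF : ∀ s, IsForm (F s) (b s.1))
    (hd : DefOn (β.img E : Set (P₀.Pt k)) F) {E' : Sub k (P₁.sum Q)}
    (hi : (Crd.inl k P₁ Q).img E' = E)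
    (hg : OnGraph (E' : Set ((P₁.sum Q).Pt k)) fun s => rename β.ε (F s)) {s : P₀.Pt k}
    (hs : RegAt (β.img E) F s) {T : Sub k (P₁.sum Q)} (hT : T ≤ E')
    (hsT : s ∈ β.img ((Crd.inl k P₁ Q).img T)) : sdim T = sdim ((Crd.inl k P₁ Q).img T) ∧
      ∀ T' ≤ E', (Crd.inl k P₁ Q).img T' = (Crd.inl k P₁ Q).img T → T' = T := by
  choose b' e he hne hv using hs
  have hF1 : ∀ s : Q.V, IsForm (rename β.ε (F s)) ((b s.1).mapDomain β.ψ) :=
    fun s => β.form (hF s)
  have hF2 : ∀ s : Q.V, IsForm (rename β.ε (e s.1 s.2)) ((b' s.1).mapDomain β.ψ) :=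
    fun s => β.form (he s.1 s.2)
  have hg' : OnGraph (E' : Set ((P₁.sum Q).Pt k)) fun s => rename β.ε (e s.1 s.2) := by
    refine hg.change (b := fun j => (b j).mapDomain β.ψ) (b' := fun j => (b' j).mapDomain β.ψ)
      hF1 hF2 (by rw [hi]; exact Ext_defOn β hF hd) fun j i i' => ?_
    rw [hi, ← map_mul, ← map_mul, ← map_sub]
    exact (β.van_img (IsWeightedHomogeneous.sub ((hF ⟨j, i⟩).mul (he j i'))
      ((hF ⟨j, i'⟩).mul (he j i)))).1 (hv j i i')
  have hdT : DefOn ((Crd.inl k P₁ Q).img T : Set (P₁.Pt k)) fun s : Q.V =>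
      rename β.ε (e s.1 s.2) := fun j => (hne j).imp fun i hi0 h =>
    hi0 ((β.van_img (he j i)).2 h s hsT)
  refine ⟨(hg'.mono hT).sdim_eq (b := fun j => (b' j).mapDomain β.ψ) hF2 hdT, fun T' hT' h => ?_⟩
  exact ((hg'.mono hT).unique (b := fun j => (b' j).mapDomain β.ψ) hF2 hdT (hg'.mono hT')
    h.symm).symm

variable {Ω₁ : Var k P₁} {Ω₂ : Var k P₂} {β : Crd k P₀ P₁} {r1 r2 : Prj Ω₂ Ω₁} {J : Type w'}
  {c : Sub k P₀} {E : J → Sub k P₁} {B : J → J → Sub k P₂}

theorem Fam.ext (h : Fam β r1 r2 c E B) {F : Q.V → MvPolynomial P₀.V k} {b : Q.ι → P₀.ι →₀ ℕ}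
    (hF : ∀ s, IsForm (F s) (b s.1)) (hd : DefOn (c : Set (P₀.Pt k)) F) :
    ∃ (c' : Sub k (P₀.sum Q)) (E' : J → Sub k (P₁.sum Q)) (B' : J → J → Sub k (P₂.sum Q)),
      Fam (β.map Q) (r1.map Q) (r2.map Q) c' E' B' ∧ (Crd.inl k P₀ Q).img c' = c ∧
      OnGraph (c' : Set ((P₀.sum Q).Pt k)) F ∧ sdim c' = sdim c ∧
      (∀ j, (Crd.inl k P₁ Q).img (E' j) = E j ∧
        OnGraph (E' j : Set ((P₁.sum Q).Pt k)) fun s => rename β.ε (F s)) ∧
      ∀ j j', (Crd.inl k P₂ Q).img (B' j j') = B j j' := by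
  have hF1 : ∀ s : Q.V, IsForm (rename β.ε (F s)) ((b s.1).mapDomain β.ψ) :=
    fun s => β.form (hF s)
  have hF2 : ∀ s : Q.V, IsForm (rename r1.ε (rename β.ε (F s)))
      (((b s.1).mapDomain β.ψ).mapDomain r1.ψ) := fun s => r1.toCrd.form (hF1 s)
  have hd1 : ∀ j, DefOn (E j : Set (P₁.Pt k)) fun s => rename β.ε (F s) :=
    fun j => Ext_defOn β hF (by rw [h.img j]; exact hd)
  have hd2 : ∀ j j', DefOn (B j j' : Set (P₂.Pt k)) fun s => rename r1.ε (rename β.ε (F s)) :=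
    fun j j' => Ext_defOn r1.toCrd (b := fun j => (b j).mapDomain β.ψ) hF1
      (by rw [(h.sq j j').img1]; exact hd1 j)
  obtain ⟨c', hc, hcg⟩ := exists_gc c hF hd
  choose E' hE hEg using fun j => exists_gc (E j) (b := fun j => (b j).mapDomain β.ψ) hF1 (hd1 j)
  choose B' hB hBg using fun j j' => exists_gc (B j j')
    (b := fun j => ((b j).mapDomain β.ψ).mapDomain r1.ψ) hF2 (hd2 j j')
  have dc : sdim c' = sdim c := by
    rw [hcg.sdim_eq hF (by rw [hc]; exact hd), hc]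
  have dE : ∀ j, sdim (E' j) = sdim (E j) := fun j => by
    rw [(hEg j).sdim_eq (b := fun j => (b j).mapDomain β.ψ) hF1 (by rw [hE]; exact hd1 j), hE]
  have dB : ∀ j j', sdim (B' j j') = sdim (B j j') := fun j j' => by
    rw [(hBg j j').sdim_eq (b := fun j => ((b j).mapDomain β.ψ).mapDomain r1.ψ) hF2
      (by rw [hB]; exact hd2 j j'), hB]
  have mE : ∀ j, ∀ x ∈ E' j, (Crd.inl k P₁ Q).pr x ∈ E j := fun j x hx => by
    rw [← hE]; exact Crd.mem_img _ hx
  have mB : ∀ j j', ∀ x ∈ B' j j', (Crd.inl k P₂ Q).pr x ∈ B j j' := fun j j' x hx => by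
    rw [← hB]; exact Crd.mem_img _ hx
  have himg : ∀ j, (β.map Q).img (E' j) = c' := fun j =>
    Ext_img_eq β hF (by rw [hc]; exact hd) hcg (hEg j) (by rw [hE, hc, h.img])
  refine ⟨c', E', B', ⟨fun j x hx => Var.mem_ext.2 (h.sub1 j (mE j x hx)),
    fun j j' x hx => Var.mem_ext.2 (h.sub2 j j' (mB j j' x hx)), himg, fun j j' => ?_,
    fun j => by rw [dE, dc, h.dim], fun j T hT hC => ?_, fun j => ?_⟩, hc, hcg, dc,
    fun j => ⟨hE j, hEg j⟩, hB⟩
  · have hs := h.sq j j'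
    refine ⟨?_, ?_, fun x hx => ?_, fun x hx y hy h1 h2 => ?_, by rw [dB, dE, hs.dim1],
      by rw [dB, dE, hs.dim2]⟩
    · exact Ext_img_eq r1.toCrd (b := fun j => (b j).mapDomain β.ψ) hF1
        (by rw [hE]; exact hd1 j) (hEg j) (hBg j j') (by rw [hB, hE, hs.img1])
    · refine Ext_img_eq r2.toCrd (b := fun j => (b j).mapDomain β.ψ) hF1
        (by rw [hE]; exact hd1 j') (hEg j') (Ext_graph_congr (hBg j j') fun x hx s => ?_)
        (by rw [hB, hE, hs.img2])
      rw [r1.toCrd.ev_rename, r2.toCrd.ev_rename, β.ev_rename, β.ev_rename,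
        hs.base _ (mB j j' x hx)]
    · exact sum_ext (hs.base _ (mB j j' x hx)) rfl
    · exact sum_ext (hs.inj _ (mB j j' x hx) _ (mB j j' y hy)
        (congrArg (Crd.inl k P₁ Q).pr h1) (congrArg (Crd.inl k P₁ Q).pr h2))
        (congrArg (Crd.inr k P₁ Q).pr h1)
  · rw [← sdim_img_of_inj (Crd.inl k P₁ Q) (U := T) fun x hx y hy h1 =>
      sum_ext h1 (congrArg (Crd.inr k P₀ Q).pr (hC x hx y hy))]
    refine h.fib j _ (by rw [← hE]; exact Crd.img_mono _ hT) fun x hx y hy => ?_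
    obtain ⟨x', hx', rfl⟩ := (Crd.mem_img_iff _).1 hx
    obtain ⟨y', hy', rfl⟩ := (Crd.mem_img_iff _).1 hy
    exact congrArg (Crd.inl k P₀ Q).pr (hC x' hx' y' hy')
  · obtain ⟨g, a, hg, hgv, hu⟩ := h.uq j
    rw [h.img] at hgv
    choose σ hσ using hd
    obtain ⟨G, a', hG, hGv, hGp⟩ := Img_prod c (κ := Option Q.ι)
      (fun o => o.elim g fun i => F ⟨i, σ i⟩)
      (by rintro (_ | i); exacts [⟨a, hg⟩, ⟨_, hF _⟩]) (by rintro (_ | i); exacts [hgv, hσ i])
    have hG' := (Crd.inl k P₀ Q).form hG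
    refine ⟨_, _, hG', by rw [himg, ← Crd.van_img _ hG, hc]; exact hGv,
      fun T hT T' hT' he hv hdT hdT' => ?_⟩
    have key : ∀ U ≤ E' j, ¬ Van ((β.map Q).img U : Set ((P₀.sum Q).Pt k))
        (rename (Crd.inl k P₀ Q).ε G) → sdim U = sdim ((β.map Q).img U) + 1 →
        DefOn ((Crd.inl k P₁ Q).img U : Set (P₁.Pt k)) (fun s => rename β.ε (F s)) ∧
        ¬ Van (β.img ((Crd.inl k P₁ Q).img U) : Set (P₀.Pt k)) g ∧
        sdim ((Crd.inl k P₁ Q).img U) = sdim (β.img ((Crd.inl k P₁ Q).img U)) + 1 := by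
      intro U hU hv hdU
      rw [← Crd.van_img _ hG, Ext_inl_img] at hv
      have hD : DefOn (β.img ((Crd.inl k P₁ Q).img U) : Set (P₀.Pt k)) F :=
        fun i => ⟨σ i, hGp _ hv (some i)⟩
      have hD' := Ext_defOn β hF hD
      have hgU := (hEg j).mono hU
      refine ⟨hD', hGp _ hv none, ?_⟩
      rw [← hgU.sdim_eq (b := fun j => (b j).mapDomain β.ψ) hF1 hD', hdU,
        (Ext_graph_img β hF hgU).sdim_eq hF (by rw [Ext_inl_img]; exact hD), Ext_inl_img]
    obtain ⟨k1, k2, k3⟩ := key T hT hv hdT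
    obtain ⟨-, -, k4⟩ := key T' hT' (he ▸ hv) hdT'
    refine ((hEg j).mono hT).unique (b := fun j => (b j).mapDomain β.ψ) hF1 k1 ((hEg j).mono hT')
      (hu _ (by rw [← hE]; exact Crd.img_mono _ hT) _ (by rw [← hE]; exact Crd.img_mono _ hT')
        ?_ k2 k3 k4)
    rw [← Ext_inl_img, ← Ext_inl_img, he]

end Pool.Agent.Work.MP_ffcd14_ag
end

-- merged part: Pool.Agent.Work.MP_ffcd14_ag.Cyc.Eta
section
/-! # The degree of a regular map on a family of lines -/

open MvPolynomial Topology TopologicalSpace Filter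

namespace Pool.Agent.Work.MP_ffcd14_ag

universe u v w

theorem Eta_map {R S G : Type*} [CommRing R] [CommRing S] [FunLike G R S] [RingHomClass G R S]
    (φ : G) (d : ℕ) (c : Fin (d + 1) → R) (s t : R) :
    φ (binF d c s t) = binF d (fun i => φ (c i)) (φ s) (φ t) := by
  simp only [binF, map_sum, map_mul, map_pow]

theorem Eta_scale {R : Type*} [CommRing R] (d : ℕ) (c : Fin (d + 1) → R) (l s t : R) :
    binF d c (l * s) (-(l * t)) = l ^ d * binF d c s (-t) := by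
  unfold binF
  rw [Finset.mul_sum]
  refine Finset.sum_congr rfl fun i _ => ?_
  have h : l ^ d = l ^ (i : ℕ) * l ^ (d - i) := by
    rw [← pow_add, Nat.add_sub_cancel' (Nat.lt_succ_iff.1 i.2)]
  rw [h, ← mul_neg, mul_pow, mul_pow]
  ring

theorem Eta_zero {R : Type*} [Field R] [Infinite R] {d : ℕ} {c : Fin (d + 1) → R}
    (h : ∀ a b, binF d c a b = 0) (j : Fin (d + 1)) : c j = 0 := by
  have h1 : (∑ i : Fin (d + 1), Polynomial.C (c i) * Polynomial.X ^ (i : ℕ)) = 0 := by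
    refine Polynomial.funext fun a => ?_
    simpa [binF, Polynomial.eval_finsetSum] using h a 1
  have h2 := congrArg (fun p => Polynomial.coeff p j) h1
  simpa [Polynomial.finsetSum_coeff, Polynomial.coeff_C_mul_X_pow, Fin.val_inj] using h2

variable {k : Type u} [Field k] {P P' P₀ P₁ P₂ Q : Amb} {M : ℕ}

theorem Eta_form {d : ℕ} {c : Fin (d + 1) → MvPolynomial P.V k} {s t : MvPolynomial P.V k}
    {a b : P.ι →₀ ℕ} (hc : ∀ i, IsForm (c i) a) (hs : IsForm s b) (ht : IsForm t b) :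
    IsForm (binF d c s (-t)) (d • b + a) := by
  refine IsWeightedHomogeneous.sum _ _ _ fun i _ => ?_
  have h := ((hc i).mul (IsWeightedHomogeneous.pow hs i)).mul
    (IsWeightedHomogeneous.pow (IsWeightedHomogeneous.neg ht) (d - i))
  rwa [add_assoc, ← add_nsmul, Nat.add_sub_cancel' (Nat.lt_succ_iff.1 i.2), add_comm a] at h

theorem Eta_X (γ : Crd k P P') (i : P.ι) (s : P.σ i) :
    IsForm (X (γ.ε ⟨i, s⟩) : MvPolynomial P'.V k) (Finsupp.single (γ.ψ i) 1) := by
  simpa [γ.fst] using IsForm.X (k := k) (γ.ε ⟨i, s⟩)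

theorem Eta_ev (γ : Crd k P P') (x : P'.Pt k) (s : P.V) :
    eval (rp x) (X (γ.ε s) : MvPolynomial P'.V k) = rp (γ.pr x) s := by
  rw [eval_X, γ.rp_pr]

theorem Eta_ne (x : P.Pt k) (i : P.ι) : ∃ s, rp x ⟨i, s⟩ ≠ 0 :=
  Function.ne_iff.1 (x i).rep_nonzero

theorem Eta_den {L : Type u} [Field L] [Algebra k L] {v : P.V → L} {ς : ∀ i, P.σ i}
    (hv : ∀ i, v ⟨i, ς i⟩ = 1) (ht : IntermediateField.adjoin k (Set.range v) = ⊤) {κ : Type}
    [Finite κ] (η : κ → L) : ∃ (g : κ → MvPolynomial P.V k) (a : P.ι →₀ ℕ) (q : L), q ≠ 0 ∧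
      (∀ t, IsForm (g t) a) ∧ ∀ t, aeval v (g t) = q * η t := by
  classical
  cases nonempty_fintype κ
  have h : ∀ t, ∃ r s : MvPolynomial P.V k, aeval v s ≠ 0 ∧ aeval v r = aeval v s * η t := by
    intro t
    obtain ⟨r, s, h⟩ := (IntermediateField.mem_adjoin_range_iff k v (η t)).1
      (ht ▸ IntermediateField.mem_top)
    by_cases h0 : aeval v s = 0
    · exact ⟨0, 1, by simp, by simp [h, h0]⟩
    · exact ⟨r, s, h0, by rw [h, mul_div_cancel₀ _ h0]⟩
  choose r s hs hr using h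
  obtain ⟨g, a, h1, h2⟩ := homog_many ς fun t => (∏ t' ∈ Finset.univ.erase t, s t') * r t
  refine ⟨g, a, ∏ t, aeval v (s t), Finset.prod_ne_zero_iff.2 fun t _ => hs t, h1, fun t => ?_⟩
  rw [h2 L v hv, map_mul, map_prod, hr, ← mul_assoc,
    Finset.prod_erase_mul _ _ (Finset.mem_univ t)]

theorem Eta_lift {L L' : Type u} [Field L] [Algebra k L] [Field L'] [Algebra k L']
    (β : Crd k P P') {T : Sub k P'} {c : Sub k P} {v : P.V → L} {ς : ∀ i, P.σ i}
    (hg : IsGen (c : Set (P.Pt k)) v) (hv : ∀ i, v ⟨i, ς i⟩ = 1)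
    (ht : IntermediateField.adjoin k (Set.range v) = ⊤) (hT : β.img T = c) {u : P'.V → L'}
    (hu : IsGen (T : Set (P'.Pt k)) u) : ∃ (ψ : L →ₐ[k] L') (μ : P.ι → L'), (∀ i, μ i ≠ 0) ∧
      ∀ s, ψ (v s) = μ s.1 * u (β.ε s) := by
  have h1 := β.isGen_img hu
  rw [hT] at h1
  have h2 : ∀ i, u (β.ε ⟨i, ς i⟩) ≠ 0 := fun i h => by
    have := (hg.iff _ _ (IsForm.X ⟨i, ς i⟩)).2 ((h1.iff _ _ (IsForm.X ⟨i, ς i⟩)).1 (by simpa))
    simp [hv] at this
  obtain ⟨ψ, hψ⟩ := hg.lift (h1.scale _ fun i => inv_ne_zero (h2 i)) hv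
    (fun i => inv_mul_cancel₀ (h2 i)) ht
  exact ⟨ψ, _, fun i => inv_ne_zero (h2 i), hψ⟩

theorem Eta_div [IsAlgClosed k] {E : Sub k P} {κ : Type} {f e : κ → MvPolynomial P.V k}
    {a b : P.ι →₀ ℕ} (hf : ∀ s, IsForm (f s) a) (he : ∀ s, IsForm (e s) b)
    (h : ∀ s t, Van (E : Set (P.Pt k)) (f s * e t - f t * e s))
    (h0 : ∃ s, ¬ Van (E : Set (P.Pt k)) (f s)) {x : P.Pt k} (hx : x ∈ E)
    (h1 : ∃ t, ev x (e t) ≠ 0) (h2 : ∀ s, ev x (f s) = 0) :
    ∃ T ≤ E, x ∈ T ∧ sdim T + 1 = sdim E ∧ ∀ s, Van (T : Set (P.Pt k)) (f s) := by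
  obtain ⟨t, h1⟩ := h1
  have key : ∀ T ≤ E, x ∈ T → Van (T : Set (P.Pt k)) (f t) → ∀ s, Van (T : Set (P.Pt k)) (f s) := by
    intro T hT hxT hv s
    refine (Van.mul (hf s) (he t) fun y hy => ?_).resolve_right fun h' => h1 (h' x hxT)
    have h3 := h s t y (hT hy)
    have h4 := hv y hy
    simp only [ev_eq, map_sub, map_mul] at h3 h4 ⊢
    rwa [h4, zero_mul, sub_zero] at h3
  obtain ⟨s, hs⟩ := h0
  obtain ⟨T, h3, h4, h5, h6⟩ := krg (FibA_pt_le hx) (hf t) (fun h' => hs (key E le_rfl hx h' s))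
    (fun y hy => by rw [show y = x from hy]; exact h2 t)
  exact ⟨T, h4, h3 rfl, h6, key T h4 (h3 rfl) h5⟩

theorem Eta_line [IsAlgClosed k] {σ : Type} {d : ℕ} {w : (Amb.pl M).Pt k} (hw : Anti (plm w))
    {H : σ → Fin (M + 1) × Fin (M + 1) → Fin (d + 1) → k}
    (h1 : ∀ s p q (a b : k), plm w p ^ d * binF d (H s q) a b = binF d (H s p)
      (a * plm w (q.1, p.2) + b * plm w (q.2, p.2))
      (-(a * plm w (q.1, p.1) + b * plm w (q.2, p.1))))
    {A : Set ((Amb.proj M).Pt k)} (hA : A.Infinite) (h : ∀ y ∈ A, Inc (plm w) (vec y) ∧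
      ∀ s p, binF d (H s p) (vec y p.2) (-vec y p.1) = 0) (s : σ)
    (q : Fin (M + 1) × Fin (M + 1)) (i : Fin (d + 1)) : H s q i = 0 := by
  have hc : IsClosed {y : (Amb.proj M).Pt k | Inc (plm w) (vec y) ∧
      ∀ s p, binF d (H s p) (vec y p.2) (-vec y p.1) = 0} := by
    have hX : ∀ l : Fin (M + 1), IsForm (X ⟨(), l⟩ : MvPolynomial (Amb.proj M).V k)
      (Finsupp.single () 1) := fun l => IsForm.X _
    simp only [Inc, Set.ofPred_and, Set.ofPred_forall]
    refine IsClosed.inter (isClosed_iInter fun i => isClosed_iInter fun j =>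
      isClosed_iInter fun l => ?_) (isClosed_iInter fun s => isClosed_iInter fun p => ?_)
    · have := isClosed_zero (IsWeightedHomogeneous.add (IsWeightedHomogeneous.add
        (IsWeightedHomogeneous.C_mul (hX l) (plm w (i, j)))
        (IsWeightedHomogeneous.C_mul (hX i) (plm w (j, l))))
        (IsWeightedHomogeneous.C_mul (hX j) (plm w (l, i))))
      simp only [ev_eq, map_add, map_mul, eval_C, eval_X] at this
      exact this
    · have := isClosed_zero (Eta_form (fun i => isWeightedHomogeneous_C _ (H s p i)) (hX p.2)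
        (hX p.1))
      simp only [ev_eq, Eta_map, map_neg, eval_C, eval_X] at this
      exact this
  obtain ⟨y, hy⟩ := hA.nonempty
  have hr := Inc.row hw (y ()).rep_nonzero (h y hy).1
  obtain ⟨p, hp⟩ : ∃ p, plm w p ≠ 0 := Function.ne_iff.1 (w ()).rep_nonzero
  refine Eta_zero (fun a b => ?_) i
  refine (mul_eq_zero.1 ((h1 s p q a b).trans ?_)).resolve_left (pow_ne_zero _ hp)
  obtain ⟨z, l, hz, hl⟩ : ∃ (z : (Amb.proj M).Pt k) (l : k),
      binF d (H s p) (vec z p.2) (-vec z p.1) = 0 ∧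
      ∀ t, a * plm w (q.1, t) + b * plm w (q.2, t) = l * vec z t := by
    by_cases h0 : ∀ t, a * plm w (q.1, t) + b * plm w (q.2, t) = 0
    · exact ⟨y, 0, (h y hy).2 s p, fun t => by rw [h0, zero_mul]⟩
    · obtain ⟨z, μ, hμ, hz⟩ := exists_pt (P := Amb.proj M)
        (fun t => a * plm w (q.1, t.2) + b * plm w (q.2, t.2)) fun _ => not_forall.1 h0
      have h2 : ∀ t, vec z t = μ () * (a * plm w (q.1, t) + b * plm w (q.2, t)) :=
        fun t => congrFun hz ⟨(), t⟩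
      refine ⟨z, (μ ())⁻¹, (line_eq hw hc (fun _ hz => hz.1) (hA.mono h) ?_).2 s p,
        fun t => by rw [h2, inv_mul_cancel_left₀ (hμ ())]⟩
      intro i j l
      rw [h2, h2, h2]
      linear_combination μ () * a * hr q.1 i j l + μ () * b * hr q.2 i j l
  rw [hl, hl, Eta_scale, hz, mul_zero]

variable {β : Crd k P₀ P₁} {yc : Crd k (Amb.proj M) P₁} {pc : Crd k (Amb.pl M) P₀} {E : Sub k P₁}

theorem Eta_gen (L : LFam β yc pc E) {K K' : Type u} [Field K] [Algebra k K] [Field K']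
    [Algebra k K'] {v : P₀.V → K} {ς : ∀ i, P₀.σ i} (hg : IsGen (β.img E : Set (P₀.Pt k)) v)
    (hv : ∀ i, v ⟨i, ς i⟩ = 1) (ht : IntermediateField.adjoin k (Set.range v) = ⊤)
    {T : Sub k P₁} (hT : T ≤ E) (he : β.img T = β.img E) {u : P₁.V → K'}
    (hu : IsGen (T : Set (P₁.Pt k)) u) : ∃ (ψ : K →ₐ[k] K') (μ : P₀.ι → K'), (∀ i, μ i ≠ 0) ∧
      (∀ s, ψ (v s) = μ s.1 * u (β.ε s)) ∧ (Anti fun p => ψ (v (pc.ε ⟨(), p⟩))) ∧
      (Inc (fun p => ψ (v (pc.ε ⟨(), p⟩))) fun l : Fin (M + 1) => u (yc.ε ⟨(), l⟩)) ∧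
      (fun l : Fin (M + 1) => u (yc.ε ⟨(), l⟩)) ≠ 0 := by
  obtain ⟨ψ, μ, hμ, hψ⟩ := Eta_lift β hg hv ht he hu
  have hP := Eta_X (pc.comp β) ()
  have hY := Eta_X yc ()
  have hc : ∀ s, (pc.comp β).ε s = β.ε (pc.ε s) := fun _ => rfl
  refine ⟨ψ, μ, hμ, hψ, fun i j => ?_, fun i j l => ?_, ?_⟩
  · have h := (hu.iff _ _ (IsWeightedHomogeneous.add (hP (i, j)) (hP (j, i)))).2 fun x hx => by
      simp only [ev_eq, map_add, Eta_ev]
      exact add_eq_zero_iff_eq_neg.2 (L.anti x (hT hx) i j)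
    simp only [map_add, aeval_X, hc] at h
    simp only [hψ, pc.fst]
    linear_combination μ (pc.ψ ()) * h
  · have h := (hu.iff _ _ (IsWeightedHomogeneous.add (IsWeightedHomogeneous.add
      ((hP (i, j)).mul (hY l)) ((hP (j, l)).mul (hY i))) ((hP (l, i)).mul (hY j)))).2
      fun x hx => by
        simp only [ev_eq, map_add, map_mul, Eta_ev]
        exact L.inc x (hT hx) i j l
    simp only [map_add, map_mul, aeval_X, hc] at h
    simp only [hψ, pc.fst]
    linear_combination μ (pc.ψ ()) * h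
  · exact Function.ne_iff.2 ((yc.isGen_img hu).ne ())

theorem Eta_nz [IsAlgClosed k] (L : LFam β yc pc E) {σ : Type} {d : ℕ}
    {H : σ → Fin (M + 1) × Fin (M + 1) → Fin (d + 1) → P₀.V} {T : Sub k P₁} (hT : T ≤ E)
    (hd : sdim (β.img T) < sdim T)
    (h1 : ∀ x ∈ T, ∀ s p q (a b : k), plm (pc.pr (β.pr x)) p ^ d *
      binF d (fun i => rp (β.pr x) (H s q i)) a b = binF d (fun i => rp (β.pr x) (H s p i))
      (a * plm (pc.pr (β.pr x)) (q.1, p.2) + b * plm (pc.pr (β.pr x)) (q.2, p.2))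
      (-(a * plm (pc.pr (β.pr x)) (q.1, p.1) + b * plm (pc.pr (β.pr x)) (q.2, p.1))))
    (h2 : ∀ x ∈ T, ∀ s p, binF d (fun i => rp (β.pr x) (H s p i)) (vec (yc.pr x) p.2)
      (-vec (yc.pr x) p.1) = 0) {x : P₁.Pt k} (hx : x ∈ T) (s : σ)
    (q : Fin (M + 1) × Fin (M + 1)) (i : Fin (d + 1)) : rp (β.pr x) (H s q i) = 0 := by
  obtain ⟨U, hU, hxU, hc, h3⟩ := fib_low β hx
  have h4 : (yc.pr '' (U : Set (P₁.Pt k))).Infinite := (infinite_of_sdim (by omega)).image
    fun y hy z hz h => L.inj y (hT (hU hy)) z (hT (hU hz)) h (hc y hy z hz)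
  refine Eta_line (L.anti x (hT hx)) (h1 x hx) h4 ?_ s q i
  rintro _ ⟨y, hy, rfl⟩
  rw [hc x hxU y hy]
  exact ⟨L.inc y (hT (hU hy)), h2 y (hU hy)⟩

theorem Eta_up [IsAlgClosed k] (L : LFam β yc pc E) {K : Type u} [Field K] [Algebra k K]
    {v : P₀.V → K} {ς : ∀ i, P₀.σ i} (hg : IsGen (β.img E : Set (P₀.Pt k)) v)
    (hv : ∀ i, v ⟨i, ς i⟩ = 1) (ht : IntermediateField.adjoin k (Set.range v) = ⊤)
    {F : Q.V → MvPolynomial P₀.V k} {b : Q.ι → P₀.ι →₀ ℕ} (hF : ∀ s, IsForm (F s) (b s.1))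
    (hD : DefOn (β.img E : Set (P₀.Pt k)) F) {θ : Q.V → K} {q : Q.ι → K} (hq : ∀ j, q j ≠ 0)
    (hθ : ∀ s, aeval v (F s) = q s.1 * θ s) {T : Sub k (P₁.sum Q)}
    (hT : (Crd.inl k P₁ Q).img T ≤ E) (he : β.img ((Crd.inl k P₁ Q).img T) = β.img E)
    (hG : OnGraph (T : Set ((P₁.sum Q).Pt k)) fun s => rename β.ε (F s)) :
    ∃ (K' : Type u) (_ : Field K') (_ : Algebra k K') (ψ : K →ₐ[k] K') (u : P₁.V → K') (m : K'),
      m ≠ 0 ∧ (∀ p : Fin (M + 1) × Fin (M + 1),
        ψ (v (pc.ε ⟨(), p⟩)) = m * u (β.ε (pc.ε ⟨(), p⟩))) ∧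
      (Inc (fun p => ψ (v (pc.ε ⟨(), p⟩))) fun l : Fin (M + 1) => u (yc.ε ⟨(), l⟩)) ∧
      (fun l : Fin (M + 1) => u (yc.ε ⟨(), l⟩)) ≠ 0 ∧
      IsGen ((Crd.inl k P₁ Q).img T : Set (P₁.Pt k)) u ∧
      IsGen (T : Set ((P₁.sum Q).Pt k)) (Amb.elim u fun s => ψ (θ s)) := by
  obtain ⟨K', _, _, u, hu⟩ := exists_gen' ((Crd.inl k P₁ Q).img T)
  obtain ⟨ψ, μ, hμ, hψ, -, h1, h2⟩ := Eta_gen L hg hv ht hT he hu
  refine ⟨K', inferInstance, inferInstance, ψ, u, μ (pc.ψ ()), hμ _,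
    fun p => by rw [hψ, pc.fst], h1, h2, hu, ?_⟩
  have h3 := (OnGraph.isGen (b := fun j => (b j).mapDomain β.ψ) (fun s => β.form (hF s))
    (Ext_defOn β hF (he ▸ hD)) hG hu).scale
    (Sum.elim (fun _ => 1) fun j => (ψ (q j))⁻¹ * (b j).prod fun i n => μ i ^ n) (by
      rintro (i | j)
      exacts [one_ne_zero, mul_ne_zero (inv_ne_zero ((map_ne_zero ψ).2 (hq j)))
        (Finset.prod_ne_zero_iff.2 fun i _ => pow_ne_zero _ (hμ i))])
  convert h3 using 1
  funext s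
  rcases s with ⟨i | j, s⟩
  · exact (one_mul _).symm
  · have h4 := (hF ⟨j, s⟩).aeval_scale μ (u ∘ β.ε)
    have h5 : (fun s => μ s.1 * (u ∘ β.ε) s) = fun s => ψ (v s) := funext fun s => (hψ s).symm
    rw [h5, ← MvPolynomial.comp_aeval_apply, hθ, map_mul, ← aeval_rename] at h4
    change ψ (θ ⟨j, s⟩) = ((ψ (q j))⁻¹ * (b j).prod fun i n => μ i ^ n) *
      aeval u (rename β.ε (F ⟨j, s⟩))
    rw [mul_assoc, ← h4, inv_mul_cancel_left₀ ((map_ne_zero ψ).2 (hq j))]

theorem Eta_leq [IsAlgClosed k] (L : LFam β yc pc E) (hd : sdim E = sdim (β.img E) + 1)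
    {K : Type u} [Field K] [Algebra k K]
    {v : P₀.V → K} {ς : ∀ i, P₀.σ i} (hg : IsGen (β.img E : Set (P₀.Pt k)) v)
    (hv : ∀ i, v ⟨i, ς i⟩ = 1) (ht : IntermediateField.adjoin k (Set.range v) = ⊤)
    {F : Q.V → MvPolynomial P₀.V k} {b : Q.ι → P₀.ι →₀ ℕ} (hF : ∀ s, IsForm (F s) (b s.1))
    (hD : DefOn (β.img E : Set (P₀.Pt k)) F) {θ : Q.V → K} {q : Q.ι → K} (hq : ∀ j, q j ≠ 0)
    (hθ : ∀ s, aeval v (F s) = q s.1 * θ s) {E' : Sub k (P₁.sum Q)}
    (hE : (Crd.inl k P₁ Q).img E' = E)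
    (hG : OnGraph (E' : Set ((P₁.sum Q).Pt k)) fun s => rename β.ε (F s)) {xc : Crd k P P₁}
    {j : P.ι} {i : Q.ι} {d : ℕ} {t : P.σ j → Fin (M + 1) × Fin (M + 1) → Fin (d + 1) → Q.σ i}
    (hs : ∀ r, ∃ s p l, t s p l = r) {G : P.σ j → MvPolynomial (Fin (M + 1)) k}
    (h0 : ∀ (K' : Type u) [Field K'] [Algebra k K'] (u : P₁.V → K') (y : Fin (M + 1) → K'),
      IsGen (E : Set (P₁.Pt k)) u → (∀ l, y l = u (yc.ε ⟨(), l⟩)) → (∃ s, aeval y (G s) ≠ 0) ∧
        ∀ s s', u (xc.ε ⟨j, s⟩) * aeval y (G s') = u (xc.ε ⟨j, s'⟩) * aeval y (G s))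
    (h1 : ∀ s (p q : Fin (M + 1) × Fin (M + 1)) (a b : K),
      v (pc.ε ⟨(), p⟩) ^ d * binF d (fun l => θ ⟨i, t s q l⟩) a b =
      binF d (fun l => θ ⟨i, t s p l⟩)
        (a * v (pc.ε ⟨(), (q.1, p.2)⟩) + b * v (pc.ε ⟨(), (q.2, p.2)⟩))
        (-(a * v (pc.ε ⟨(), (q.1, p.1)⟩) + b * v (pc.ε ⟨(), (q.2, p.1)⟩))))
    (h2 : ∀ (K' : Type u) [Field K'] [Algebra k K'] (ψ : K →ₐ[k] K') (y : Fin (M + 1) → K'),
      Inc (fun p => ψ (v (pc.ε ⟨(), p⟩))) y →
      (∀ s s' (p q : Fin (M + 1) × Fin (M + 1)),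
        binF d (fun l => ψ (θ ⟨i, t s p l⟩)) (y p.2) (-y p.1) *
          (aeval y (G s') * ψ (v (pc.ε ⟨(), q⟩)) ^ d) =
        binF d (fun l => ψ (θ ⟨i, t s' q l⟩)) (y q.2) (-y q.1) *
          (aeval y (G s) * ψ (v (pc.ε ⟨(), p⟩)) ^ d)) ∧
      (y ≠ 0 → ∃ s p, binF d (fun l => ψ (θ ⟨i, t s p l⟩)) (y p.2) (-y p.1) ≠ 0)) :
    LEq E' (Finsupp.single (Sum.inl (yc.ψ ())) d + Finsupp.single (Sum.inr i) 1)
      (Finsupp.single (Sum.inl (xc.ψ j)) 1 + Finsupp.single (Sum.inl (β.ψ (pc.ψ ()))) d) := by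
  have hY := Eta_X (yc.comp (Crd.inl k P₁ Q)) ()
  have hP := Eta_X ((pc.comp β).comp (Crd.inl k P₁ Q)) ()
  have hX := Eta_X (xc.comp (Crd.inl k P₁ Q)) j
  have hH := Eta_X (Crd.inr k P₁ Q) i
  obtain ⟨f, hf⟩ : ∃ f : P.σ j × Fin (M + 1) × Fin (M + 1) → MvPolynomial (P₁.sum Q).V k,
    ∀ s, f s = binF d (fun l => X ((Crd.inr k P₁ Q).ε ⟨i, t s.1 s.2 l⟩))
      (X ((yc.comp (Crd.inl k P₁ Q)).ε ⟨(), s.2.2⟩))
      (-X ((yc.comp (Crd.inl k P₁ Q)).ε ⟨(), s.2.1⟩)) := ⟨_, fun _ => rfl⟩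
  obtain ⟨e, he⟩ : ∃ e : P.σ j × Fin (M + 1) × Fin (M + 1) → MvPolynomial (P₁.sum Q).V k,
    ∀ s, e s = X ((xc.comp (Crd.inl k P₁ Q)).ε ⟨j, s.1⟩) *
      X (((pc.comp β).comp (Crd.inl k P₁ Q)).ε ⟨(), s.2⟩) ^ d := ⟨_, fun _ => rfl⟩
  have hf1 : ∀ s, IsForm (f s)
      (Finsupp.single (Sum.inl (yc.ψ ())) d + Finsupp.single (Sum.inr i) 1) := fun s => by
    have := Eta_form (d := d) (fun l => hH (t s.1 s.2 l)) (hY s.2.2) (hY s.2.1)
    rw [Finsupp.smul_single, smul_eq_mul, mul_one] at this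
    exact hf s ▸ this
  have he1 : ∀ s, IsForm (e s) (Finsupp.single (Sum.inl (xc.ψ j)) 1 +
      Finsupp.single (Sum.inl (β.ψ (pc.ψ ()))) d) := fun s => by
    have := (hX s.1).mul (IsWeightedHomogeneous.pow (hP s.2) d)
    rw [Finsupp.smul_single, smul_eq_mul, mul_one] at this
    exact he s ▸ this
  have hf2 : ∀ {K' : Type u} [Field K'] [Algebra k K'] (u : P₁.V → K') (θ' : Q.V → K') s,
      aeval (Amb.elim u θ') (f s) = binF d (fun l => θ' ⟨i, t s.1 s.2 l⟩) (u (yc.ε ⟨(), s.2.2⟩))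
        (-u (yc.ε ⟨(), s.2.1⟩)) := fun u θ' s => by
    simp only [hf, Eta_map, map_neg, aeval_X]
    rfl
  have key : ∀ T ≤ E', β.img ((Crd.inl k P₁ Q).img T) = β.img E →
      ∃ s, ¬ Van (T : Set ((P₁.sum Q).Pt k)) (f s) := fun T hT h => by
    obtain ⟨K', _, _, ψ, u, m, -, -, h3, h4, -, h5⟩ := Eta_up L hg hv ht hF hD hq hθ
      (hE ▸ (Crd.inl k P₁ Q).img_mono hT) h (hG.mono hT)
    obtain ⟨s, p, h6⟩ := (h2 K' ψ _ h3).2 h4
    exact ⟨(s, p), fun h7 => h6 ((hf2 u _ (s, p)).symm.trans ((h5.iff _ _ (hf1 _)).2 h7))⟩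
  obtain ⟨K', _, _, ψ, u, m, hm, hψ, h3, -, hu, hU⟩ := Eta_up L hg hv ht hF hD hq hθ
    hE.le (by rw [hE]) hG
  rw [hE] at hu
  have hp : ∀ s s', Van (E' : Set ((P₁.sum Q).Pt k)) (f s * e s' - f s' * e s) := fun s s' => by
    refine (hU.iff _ _ (IsWeightedHomogeneous.sub ((hf1 s).mul (he1 s'))
      ((hf1 s').mul (he1 s)))).1 ?_
    have he2 : ∀ s, aeval (Amb.elim u fun s => ψ (θ s)) (e s) =
        u (xc.ε ⟨j, s.1⟩) * u (β.ε (pc.ε ⟨(), s.2⟩)) ^ d := fun s => by
      simp only [he, map_mul, map_pow, aeval_X]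
      rfl
    obtain ⟨⟨r, h4⟩, h5⟩ := h0 K' u (fun l => u (yc.ε ⟨(), l⟩)) hu fun _ => rfl
    have h6 := (h2 K' ψ _ h3).1 s.1 s'.1 s.2 s'.2
    rw [map_sub, map_mul, map_mul, hf2, hf2, he2, he2]
    simp only [hψ, mul_pow] at h6
    refine mul_left_cancel₀ (mul_ne_zero h4 (pow_ne_zero d hm)) ?_
    linear_combination u (xc.ε ⟨j, r⟩) * h6 + m ^ d * (binF d (fun l => ψ (θ ⟨i, t s.1 s.2 l⟩))
      (u (yc.ε ⟨(), s.2.2⟩)) (-u (yc.ε ⟨(), s.2.1⟩)) * u (β.ε (pc.ε ⟨(), s'.2⟩)) ^ d * h5 s'.1 r -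
      binF d (fun l => ψ (θ ⟨i, t s'.1 s'.2 l⟩)) (u (yc.ε ⟨(), s'.2.2⟩))
      (-u (yc.ε ⟨(), s'.2.1⟩)) * u (β.ε (pc.ε ⟨(), s.2⟩)) ^ d * h5 s.1 r)
  have hne : ∀ x : (P₁.sum Q).Pt k, ∃ s, ev x (e s) ≠ 0 := fun x => by
    obtain ⟨s, h4⟩ := Eta_ne ((xc.comp (Crd.inl k P₁ Q)).pr x) j
    obtain ⟨p, h5⟩ := Eta_ne (((pc.comp β).comp (Crd.inl k P₁ Q)).pr x) ()
    refine ⟨(s, p), ?_⟩
    simp only [he, ev_eq, map_mul, map_pow, Eta_ev]
    exact mul_ne_zero h4 (pow_ne_zero _ h5)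
  refine ⟨_, f, e, hf1, he1, hp, fun x hx => ⟨?_, hne x⟩⟩
  by_contra hc
  push Not at hc
  obtain ⟨T, hT, hxT, h4, h5⟩ := Eta_div hf1 he1 hp (key E' le_rfl (by rw [hE])) hx (hne x) hc
  have h6 : (β.map Q).img T < (β.map Q).img E' := by
    refine lt_of_le_of_ne ((β.map Q).img_mono hT) fun h => ?_
    obtain ⟨s, h7⟩ := key T hT (by rw [← Ext_inl_img, h, Ext_inl_img, hE])
    exact h7 (h5 s)
  have h7 := sdim_lt h6
  have h8 := OnGraph.sdim_eq hF (by rwa [Ext_inl_img, hE]) (Ext_graph_img β hF hG)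
  have h9 := OnGraph.sdim_eq (b := fun j => (b j).mapDomain β.ψ) (fun s => β.form (hF s))
    (by rw [hE]; exact Ext_defOn β hF hD) hG
  rw [Ext_inl_img, hE] at h8
  rw [hE] at h9
  obtain ⟨r, hr⟩ := Eta_ne ((Crd.inr k P₁ Q).pr x) i
  obtain ⟨s, p, l, rfl⟩ := hs r
  refine hr (Eta_nz (L.ext hE.le) (H := fun s p l => (Crd.inr k P₀ Q).ε ⟨i, t s p l⟩) hT
    (by omega) (fun z hz s p q a b => ?_) (fun z hz s p => ?_) hxT s p l)
  · have hC : ∀ a : k, IsForm (C a : MvPolynomial (P₁.sum Q).V k) 0 :=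
      fun a => isWeightedHomogeneous_C _ a
    have hL := fun r => IsWeightedHomogeneous.add (IsWeightedHomogeneous.C_mul (hP (q.1, r)) a)
      (IsWeightedHomogeneous.C_mul (hP (q.2, r)) b)
    have g1 := IsForm.mul (IsWeightedHomogeneous.pow (hP p) d)
      (Eta_form (d := d) (fun l => hH (t s q l)) (hC a) (hC (-b)))
    rw [smul_zero, zero_add] at g1
    have g2 := (hU.iff _ _ (IsWeightedHomogeneous.sub g1
      (Eta_form (d := d) (fun l => hH (t s p l)) (hL p.2) (hL p.1)))).1 (by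
        have g3 := congrArg ψ (h1 s p q (algebraMap k K a) (algebraMap k K b))
        simp only [map_mul, map_pow, map_add, map_neg, Eta_map, hψ, AlgHom.commutes, mul_pow,
          mul_left_comm _ m, ← mul_add, Eta_scale, mul_assoc] at g3
        simp only [map_sub, map_mul, map_pow, map_add, map_neg, Eta_map, aeval_X, aeval_C, neg_neg]
        exact sub_eq_zero.2 (mul_left_cancel₀ (pow_ne_zero d hm) g3)) z (hT hz)
    simp only [ev_eq, map_sub, map_mul, map_pow, map_add, map_neg, Eta_map, Eta_ev, eval_C,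
      neg_neg] at g2
    exact sub_eq_zero.1 g2
  · have g2 := h5 (s, p) z hz
    simp only [hf, ev_eq, map_neg, Eta_map, Eta_ev] at g2
    exact g2

variable [IsAlgClosed k]

theorem eta (L : LFam β yc pc E) (hd : sdim E = sdim (β.img E) + 1) {xc : Crd k P P₁}
    (h : RatOn E xc yc) : ∃ (Q : Amb) (F : Q.V → MvPolynomial P₀.V k) (b : Q.ι → P₀.ι →₀ ℕ)
      (d : P.ι → ℕ) (ι : P.ι → Q.ι), (∀ s, IsForm (F s) (b s.1)) ∧
      DefOn (β.img E : Set (P₀.Pt k)) F ∧ ∀ E' : Sub k (P₁.sum Q), (Crd.inl k P₁ Q).img E' = E →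
        OnGraph (E' : Set ((P₁.sum Q).Pt k)) (fun s => rename β.ε (F s)) → ∀ j,
          LEq E' (Finsupp.single (Sum.inl (yc.ψ ())) (d j) + Finsupp.single (Sum.inr (ι j)) 1)
            (Finsupp.single (Sum.inl (xc.ψ j)) 1 +
              Finsupp.single (Sum.inl (β.ψ (pc.ψ ()))) (d j)) := by
  obtain ⟨ς, hς⟩ := Dim_chart (β.img E)
  obtain ⟨K, _, _, v, hg, hv, ht⟩ := exists_gen (β.img E) ς hς
  obtain ⟨K₁, _, _, u₁, hu₁⟩ := exists_gen' E
  obtain ⟨ψ₁, -, -, -, hA, hI, hy⟩ := Eta_gen L hg hv ht le_rfl rfl hu₁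
  choose a F hF hF0 hFx using h
  obtain ⟨π, hπ⟩ : ∃ π : (Amb.proj M).V → Fin (M + 1), ∀ l, π l = l.2 := ⟨fun l => l.2, fun _ => rfl⟩
  have h0 : ∀ j (K' : Type u) [Field K'] [Algebra k K'] (u : P₁.V → K') (y : Fin (M + 1) → K'),
      IsGen (E : Set (P₁.Pt k)) u → (∀ l, y l = u (yc.ε ⟨(), l⟩)) →
      (∃ s, aeval y (rename π (F j s)) ≠ 0) ∧
        ∀ s s', u (xc.ε ⟨j, s⟩) * aeval y (rename π (F j s')) =
          u (xc.ε ⟨j, s'⟩) * aeval y (rename π (F j s)) := by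
    intro j K' _ _ u y hu hy
    have h1 : ∀ s, aeval y (rename π (F j s)) =
        aeval u (rename yc.ε (F j s)) := fun s => by
      rw [aeval_rename, aeval_rename]
      exact congrArg (fun w => aeval w (F j s)) (funext fun l => (hy _).trans (by rw [hπ]; rfl))
    simp only [h1]
    refine ⟨(hF0 j).imp fun s hs h => hs ((hu.iff _ _ (yc.form (hF j s))).1 h), fun s s' => ?_⟩
    have h2 := (hu.iff _ _ (IsWeightedHomogeneous.sub ((Eta_X xc j s).mul (yc.form (hF j s')))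
      ((Eta_X xc j s').mul (yc.form (hF j s))))).2 (hFx j s s')
    rwa [map_sub, map_mul, map_mul, aeval_X, aeval_X, sub_eq_zero] at h2
  have h1 := fun j => eta_alg (k := k)
    (fun p : Fin (M + 1) × Fin (M + 1) => v (pc.ε ⟨(), p⟩))
    (fun i l => ψ₁.injective ((hA i l).trans (map_neg ψ₁ _).symm))
    (fun r i l m => ψ₁.injective (by simpa using Inc.row hA hy hI r i l m))
    (Function.ne_iff.2 ((pc.isGen_img hg).ne ()))
    (fun s => rename π (F j s)) (a j ())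
    (fun s => by
      rw [rename_eq_aeval]
      exact wh_aeval (Finsupp.applyAddHom ()) _ (fun l => by
        convert isWeightedHomogeneous_X k (1 : Fin (M + 1) → ℕ) (π l) using 1
        exact Finsupp.single_eq_same) (hF j s))
    K₁ ψ₁ _ hI (h0 j K₁ u₁ _ hu₁ fun _ => rfl).1
  choose d η h1 h2 using h1
  choose g b q hq hg1 hg2 using fun j => Eta_den hv ht
    fun t : P.σ j × (Fin (M + 1) × Fin (M + 1)) × Fin (d j + 1) => η j t.1 t.2.1 t.2.2
  have hD : ∀ j, ∃ t, ¬ Van (β.img E : Set (P₀.Pt k)) (g j t) := fun j => by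
    obtain ⟨s, p, h3⟩ := (h2 j K₁ ψ₁ _ hI).2 hy
    by_contra hc
    push Not at hc
    refine h3 (Finset.sum_eq_zero fun i _ => ?_)
    have h4 := (hg.iff _ _ (hg1 j (s, p, i))).2 (hc _)
    rw [hg2, mul_eq_zero, or_iff_right (hq j)] at h4
    simp [show η j s p i = 0 from h4]
  refine ⟨⟨P.ι, fun j => P.σ j × (Fin (M + 1) × Fin (M + 1)) × Fin (d j + 1)⟩,
    fun s => g s.1 s.2, b, d, id, fun s => hg1 s.1 s.2, hD, fun E' hE hG j => ?_⟩
  exact Eta_leq (Q := ⟨P.ι, fun j => P.σ j × (Fin (M + 1) × Fin (M + 1)) × Fin (d j + 1)⟩) (i := j)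
    L hd hg hv ht (fun s => hg1 s.1 s.2) hD
    (θ := fun s => η s.1 s.2.1 s.2.2.1 s.2.2.2) hq (fun s => hg2 s.1 s.2) hE hG
    (t := fun s p l => (s, p, l)) (fun r => ⟨r.1, r.2.1, r.2.2, rfl⟩) (h0 j) (h1 j) (h2 j)

end Pool.Agent.Work.MP_ffcd14_ag
end

-- merged part: Pool.Agent.Work.MP_ffcd14_ag.Uni.I0b
section
/-! # The degree of a birational map is one -/

open MvPolynomial

namespace Pool.Agent.Work.MP_ffcd14_ag.Uni

universe u v w

section aux

variable {k L : Type u} [Field k] [Field L] [Algebra k L] {P : Amb}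

/-- Multiplication by `c` sends `U` into `V`. -/
def I0b_Dom (c : L) (U V : FD k L) : Prop := ∀ y ∈ U.1, c * y ∈ V.1

theorem I0b_refl (U : FD k L) : I0b_Dom 1 U U := fun y hy => by rwa [one_mul]

theorem I0b_mul {c c' : L} {U U' V V' : FD k L} (h : I0b_Dom c U V) (h' : I0b_Dom c' U' V') :
    I0b_Dom (c * c') (U * U') (V * V') := fun _ hy =>
  Submodule.mul_induction_on hy
    (fun x hx y hy => by
      rw [mul_mul_mul_comm]
      exact Submodule.mul_mem_mul (h x hx) (h' y hy))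
    fun x y hx hy => by
      rw [mul_add]
      exact add_mem hx hy

theorem I0b_pow {c : L} {U V : FD k L} (h : I0b_Dom c U V) (n : ℕ) :
    I0b_Dom (c ^ n) (U ^ n) (V ^ n) := by
  induction n with
  | zero => simpa only [pow_zero] using I0b_refl (1 : FD k L)
  | succ n ih => simpa only [pow_succ] using I0b_mul ih h

theorem I0b_rank {c : L} (hc : c ≠ 0) {U V : FD k L} (h : I0b_Dom c U V) :
    Module.finrank k U.1 ≤ Module.finrank k V.1 :=
  LinearMap.finrank_le_finrank_of_injective (f := (LinearMap.mulLeft k c).restrict h)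
    fun _ _ e => Subtype.ext (mul_left_cancel₀ hc (congrArg Subtype.val e))

theorem I0b_dom {A : FD k L} (hA : IntermediateField.adjoin k (rt A) = ⊤) (B : FD k L) :
    ∃ (M : ℕ) (c : L), c ≠ 0 ∧ I0b_Dom c B (A ^ M) := by
  classical
  obtain ⟨m, η, h0, rfl⟩ := B.exists_sp
  have h : ∀ t, ∃ r ∈ Algebra.adjoin k (rt A), ∃ s ∈ Algebra.adjoin k (rt A), η t = r / s :=
    fun t => IntermediateField.mem_adjoin_iff_div.1 (hA ▸ IntermediateField.mem_top)
  choose r hr s hs e using h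
  have hs0 : ∀ t, s t ≠ 0 := fun t h => h0 t (by rw [e, h, div_zero])
  obtain ⟨j, g, -, h2, h3⟩ := V4a_fracs A Finset.univ (fun t => (∏ t', s t') * η t) fun t => by
    rw [← Finset.prod_erase_mul _ _ (Finset.mem_univ t), mul_assoc, e t,
      mul_div_cancel₀ _ (hs0 t)]
    exact mul_mem (prod_mem fun t _ => hs t) (hr t)
  refine ⟨j, (∏ t', s t') * g, mul_ne_zero (Finset.prod_ne_zero_iff.2 fun t _ => hs0 t) h2,
    fun y hy => ?_⟩
  rw [FD.sp_val ⟨0, h0 0⟩] at hy
  refine (Submodule.span_le (p := (A ^ j).1.comap (LinearMap.mulLeft k _))).2 ?_ hy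
  rintro _ ⟨t, rfl⟩
  change (∏ t', s t') * g * η t ∈ (A ^ j).1
  rw [mul_right_comm]
  exact h3 t (Finset.mem_univ t)

theorem I0b_hilb {Z : Set (P.Pt k)} {w : P.V → L} (hw : IsGen Z w) (a : P.ι →₀ ℕ) :
    hilb Z a = Module.finrank k (sys k w a).1 := by
  rw [KT_hilb hw, show (sys k w a).1 = KT_V k w a from Submodule.ext fun _ => mem_sys hw.ne]

theorem I0b_lim {n M d : ℕ} (h : ∀ N : ℕ, 0 < N → (n : ℚ) * N ^ d ≤ ((N + M : ℕ) : ℚ) ^ d) :
    n ≤ 1 := by
  have t : Filter.Tendsto (fun N : ℕ => (1 + (M : ℝ) / N) ^ d) Filter.atTop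
      (nhds ((1 + 0) ^ d)) :=
    ((tendsto_const_div_atTop_nhds_zero_nat (M : ℝ)).const_add 1).pow _
  have t2 := ge_of_tendsto (b := (n : ℝ)) t ((Filter.eventually_gt_atTop 0).mono fun N hN => by
    have h1 : (0 : ℝ) < N := by exact_mod_cast hN
    have h2 : (n : ℝ) * N ^ d ≤ ((N + M : ℕ) : ℝ) ^ d := by exact_mod_cast h N hN
    have h3 : 1 + (M : ℝ) / N = ((N + M : ℕ) : ℝ) / N := by
      push_cast
      field_simp
    rw [h3, div_pow, le_div_iff₀ (by positivity)]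
    exact h2)
  rw [add_zero, one_pow] at t2
  exact_mod_cast t2

end aux

variable {k F L : Type u} [Field k] [Field F] [Field L] [Algebra k F] [Algebra k L]
  {K : Type v} [Field K] [CharZero K] {P P' Q : Amb} {C : NT.{u, v, w} k K}
  [IsAlgClosed k] [Fg k L] (hC : C.Chow)
include hC

omit [Fg k L] in
theorem I0b_mono (Ω : Var k P) {Z : Sub k P} (hZ : (Z : Set (P.Pt k)) ⊆ Ω.pts)
    (a b : P.ι →₀ ℕ) :
    nm C Ω Z (ln C Ω a ^ sdim Z) ≤ nm C Ω Z (ln C Ω (a + b) ^ sdim Z) := by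
  rw [ln_add, add_pow, map_sum]
  refine le_of_eq_of_le ?_ (Finset.single_le_sum (fun j hj => ?_)
    (Finset.self_mem_range_succ (sdim Z)))
  · simp
  · rw [mul_comm, ← nsmul_eq_mul, map_nsmul, ← num2_lp_rep]
    refine nsmul_nonneg (nm_nonneg hC.cyc Ω hZ _ ?_) _
    have := Finset.mem_range.1 hj
    simp only [List.length_append, List.length_replicate]
    omega

/-- The degree of a birational map is one. -/
theorem push_one {Ω : Var k P'} {X : Var k P} (π : Prj Ω X) {Z : Sub k P'}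
    (hZ : (Z : Set (P'.Pt k)) ⊆ Ω.pts) {w : P'.V → L} (hw : IsGen (Z : Set (P'.Pt k)) w)
    (hg : Gen k (w ∘ π.ε)) (y : EE C X) :
    nm C Ω Z (pl C π y) = nm C X (π.img Z) y := by
  obtain ⟨n, h1, h2⟩ := n_push hC.cyc π hZ
  have hx := π.isGen_img hw
  have hd : sdim Z = sdim (π.img Z) := ((hg.of_comp π.toCrd).sdim hw).trans (hg.sdim hx).symm
  have hZ' := n1_img_sub π hZ
  have hA : IntermediateField.adjoin k (rt (sys k (w ∘ π.ε) (ones P))) = ⊤ :=
    eq_top_iff.2 (hg.ge.trans (IntermediateField.adjoin.mono k _ _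
      (rat_subset hx.ne fun i => blk_dvd_sys _ (ones_pos i))))
  obtain ⟨M, c, hc, hB⟩ := I0b_dom hA (sys k w (ones P'))
  have hV := nm_pos hC.cyc X (Crd.refl k P) (Crd.refl k P) hZ'
    (fun U _ => by rw [Crd.img_refl]) ones_pos ones_pos 0 (sdim (π.img Z)) (Nat.zero_le _)
    (zero_add _)
  rw [pow_zero, one_mul, show (Crd.refl k P).ψ = id from rfl, Finsupp.mapDomain_id] at hV
  have h3 : n ≤ 1 := by
    refine I0b_lim (M := M) (d := sdim (π.img Z)) fun N hN => ?_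
    have t1 := n_vol hC.cyc Ω hZ (a := N • (ones P).mapDomain π.ψ + ones P')
      fun i => Nat.add_pos_right _ (ones_pos i)
    have t2 := n_vol hC.cyc X hZ' (a := (N + M) • ones P)
      fun i => Nat.mul_pos (Nat.add_pos_left hN M) (ones_pos i)
    have t3 := I0b_mono hC Ω hZ (N • (ones P).mapDomain π.ψ) (ones P')
    rw [hd] at t1 t3
    have t4 := le_of_tendsto_of_tendsto' t1 t2 fun m => by
      have h4 := I0b_rank (pow_ne_zero m (mul_ne_zero one_ne_zero hc))
        (I0b_pow (I0b_mul (I0b_refl (sys k (w ∘ π.ε) (ones P) ^ N)) hB) m)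
      have h5 : hilb (Z : Set (P'.Pt k)) (m • (N • (ones P).mapDomain π.ψ + ones P')) ≤
          hilb (π.img Z : Set (P.Pt k)) (m • (N + M) • ones P) := by
        rwa [I0b_hilb hw, I0b_hilb hx, I0a_sys_smul, I0a_sys_smul, I0a_sys_smul, I0a_sys_add,
          I0a_sys_smul, ← I0a_sys_comp hw.ne π.toCrd, pow_add]
      gcongr
    have t5 := t3.trans (Rat.cast_le.1 t4)
    rw [ln_smul, ln_smul, smul_pow, smul_pow, map_smul, map_smul, ← pl_ln, ← map_pow, h2,
      smul_eq_mul, smul_eq_mul, ← mul_assoc, mul_comm _ (n : ℚ)] at t5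
    exact le_of_mul_le_mul_right t5 hV
  rw [h2, show n = 1 from le_antisymm h3 (h1.2 hd), Nat.cast_one, one_mul]

end Pool.Agent.Work.MP_ffcd14_ag.Uni
end

-- merged part: Pool.Agent.Work.MP_ffcd14_ag.Cyc.FIN
section
/-! # Finiteness of the normalisation of an affine variety -/

namespace Pool.Agent.Work.MP_ffcd14_ag

universe u

theorem FIN_of_inj {P D C : Type*} [CommRing P] [CommRing D] [CommRing C] [IsNoetherianRing P]
    (f : P →+* D) (g : D →+* C) (hg : Function.Injective g) (h : (g.comp f).Finite) :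
    f.Finite := by
  algebraize [f, g, g.comp f]
  exact Module.Finite.of_injective (IsScalarTower.toAlgHom P D C).toLinearMap hg

theorem FIN_frob {k : Type*} [Field k] (p : ℕ) [ExpChar k p] [PerfectRing k p] (s e : ℕ) :
    (iterateFrobenius (MvPolynomial (Fin s) k) p e).Finite := by
  have hq : p ^ e ≠ 0 := (expChar_pow_pos k p e).ne'
  refine RingHom.IsIntegral.to_finite ?_ ?_
  · intro x
    refine ⟨Polynomial.X ^ (p ^ e) - Polynomial.C x, Polynomial.monic_X_pow_sub_C x hq, ?_⟩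
    simp [iterateFrobenius_def]
  · have h1 : (iterateFrobenius (MvPolynomial (Fin s) k) p e).comp
        (algebraMap k (MvPolynomial (Fin s) k)) =
        (algebraMap k (MvPolynomial (Fin s) k)).comp (iterateFrobenius k p e) := by
      ext1 x
      simp [iterateFrobenius_def]
    have h2 : ((algebraMap k (MvPolynomial (Fin s) k)).comp (iterateFrobenius k p e)).FiniteType :=
      RingHom.FiniteType.comp (RingHom.finiteType_algebraMap.mpr inferInstance)
        (RingHom.FiniteType.of_surjective _ (bijective_iterateFrobenius k p e).2)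
    rw [← h1] at h2
    exact h2.of_comp_finiteType

theorem FIN_closure {P F L : Type*} [CommRing P] [IsDomain P] [IsNoetherianRing P]
    [IsIntegrallyClosed P] [Field F] [Algebra P F] [IsFractionRing P F] [Field L] [Algebra F L]
    [Algebra P L] [IsScalarTower P F L] [FiniteDimensional F L] (p : ℕ) [ExpChar P p]
    (hP : ∀ e, (iterateFrobenius P p e).Finite) :
    (algebraMap P (integralClosure P L)).Finite := by
  let S := separableClosure F L
  have hF : ExpChar F p := expChar_of_injective_algebraMap (IsFractionRing.injective P F) p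
  have hS : ExpChar S p := expChar_of_injective_algebraMap (algebraMap F S).injective p
  have hT : IsScalarTower P S L := IsScalarTower.of_algebraMap_eq fun _ => rfl
  have hfin : FiniteDimensional S L := Module.Finite.of_restrictScalars_finite F S L
  have hC : Module.Finite P (integralClosure P S) :=
    IsIntegralClosure.finite P F S (integralClosure P S)
  let e := IsPurelyInseparable.exponent S L
  let ψ : L →+* S := IsPurelyInseparable.iterateFrobenius S L p (le_refl e)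
  have hψ : ∀ y : L, algebraMap S L (ψ y) = y ^ p ^ e := fun y =>
    IsPurelyInseparable.algebraMap_iterateFrobenius S p (le_refl e) y
  let ψ0 : integralClosure P L →+* S := ψ.comp (integralClosure P L).val.toRingHom
  have hmem : ∀ y : integralClosure P L, ψ0 y ∈ integralClosure P S := by
    intro y
    have h1 : IsIntegral P (algebraMap S L (ψ y)) := by
      rw [hψ]
      exact IsIntegral.pow y.2 _
    exact (isIntegral_algebraMap_iff (algebraMap S L).injective).1 h1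
  let ψ1 : integralClosure P L →+* integralClosure P S := ψ0.codRestrict _ hmem
  refine FIN_of_inj _ ψ1 ?_ ?_
  · intro a b hab
    have : ψ (a : L) = ψ (b : L) := congrArg Subtype.val hab
    exact Subtype.ext (ψ.injective this)
  · have h1 : ψ1.comp (algebraMap P (integralClosure P L)) =
        (algebraMap P (integralClosure P S)).comp (iterateFrobenius P p e) := by
      ext1 x
      apply Subtype.ext
      apply (algebraMap S L).injective
      change algebraMap S L (ψ (algebraMap P L x)) =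
        algebraMap S L (algebraMap P S (iterateFrobenius P p e x))
      rw [hψ, ← IsScalarTower.algebraMap_apply, iterateFrobenius_def, map_pow]
    rw [h1]
    exact RingHom.Finite.comp (RingHom.finite_algebraMap.mpr hC) (hP e)

theorem finite_normalization {k L : Type u} [Field k] [IsAlgClosed k] [Field L] [Algebra k L]
    {σ : Type} [Finite σ] (v : σ → L) (hv : IntermediateField.adjoin k (Set.range v) = ⊤) :
    Module.Finite (Algebra.adjoin k (Set.range v))
      (integralClosure (Algebra.adjoin k (Set.range v)) L) := by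
  classical
  set A := Algebra.adjoin k (Set.range v) with hA
  have hft : Algebra.FiniteType k A := by
    refine (Subalgebra.fg_iff_finiteType _).1 ?_
    exact ⟨(Set.finite_range v).toFinset, by simp [hA]⟩
  obtain ⟨s, g, hinj, hfin⟩ := exists_finite_inj_algHom_of_fg k A
  obtain ⟨p, hp⟩ := ExpChar.exists k
  let P := MvPolynomial (Fin s) k
  let _ : Algebra P A := g.toRingHom.toAlgebra
  let _ : Algebra P L := ((algebraMap A L).comp g.toRingHom).toAlgebra
  have : IsScalarTower P A L := IsScalarTower.of_algebraMap_eq fun _ => rfl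
  have hPA : Module.Finite P A := hfin
  have hPL : Function.Injective (algebraMap P L) := by
    intro a b hab
    exact hinj (Subtype.ext hab)
  have : FaithfulSMul P L := (faithfulSMul_iff_algebraMap_injective P L).2 hPL
  let _ : Algebra (FractionRing P) L := FractionRing.liftAlgebra P L
  have : IsScalarTower P (FractionRing P) L := FractionRing.isScalarTower_liftAlgebra P L
  have hint : ∀ x ∈ Set.range v, IsIntegral (FractionRing P) x := by
    intro x hx
    have h1 : IsIntegral P (⟨x, Algebra.subset_adjoin hx⟩ : A) := Algebra.IsIntegral.isIntegral _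
    have h2 : IsIntegral P x := h1.algebraMap (B := L)
    exact h2.tower_top
  have htop : IntermediateField.adjoin (FractionRing P) (Set.range v) = ⊤ := by
    rw [eq_top_iff]
    intro x _
    have hx : x ∈ IntermediateField.adjoin k (Set.range v) := by rw [hv]; trivial
    induction hx using IntermediateField.adjoin_induction with
    | mem x hx => exact IntermediateField.subset_adjoin _ _ hx
    | algebraMap c =>
      have : algebraMap k L c =
          algebraMap (FractionRing P) L (algebraMap P (FractionRing P) (MvPolynomial.C c)) := by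
        rw [← IsScalarTower.algebraMap_apply]
        change _ = algebraMap A L (g (algebraMap k P c))
        rw [g.commutes, ← IsScalarTower.algebraMap_apply]
      rw [this]
      exact IntermediateField.algebraMap_mem _ _
    | add x y _ _ hx hy => exact add_mem (hx trivial) (hy trivial)
    | inv x _ hx => exact inv_mem (hx trivial)
    | mul x y _ _ hx hy => exact mul_mem (hx trivial) (hy trivial)
  have : Finite (Set.range v) := (Set.finite_range v).to_subtype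
  have : FiniteDimensional (FractionRing P) L := by
    have h1 := IntermediateField.finiteDimensional_adjoin hint
    rw [htop] at h1
    exact (IntermediateField.topEquiv (F := FractionRing P) (E := L)).toLinearEquiv.finiteDimensional
  have hcl : (algebraMap P (integralClosure P L)).Finite :=
    FIN_closure (F := FractionRing P) p (fun e => FIN_frob p s e)
  have hmem : ∀ y : integralClosure A L,
      (integralClosure A L).val.toRingHom y ∈ integralClosure P L := fun y =>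
    isIntegral_trans (R := P) (A := A) (y : L) y.2
  let ι : integralClosure A L →+* integralClosure P L :=
    (integralClosure A L).val.toRingHom.codRestrict _ hmem
  have h3 : ((algebraMap A (integralClosure A L)).comp g.toRingHom).Finite := by
    refine FIN_of_inj _ ι ?_ ?_
    · intro a b hab
      have : ((ι a : integralClosure P L) : L) = ((ι b : integralClosure P L) : L) := by rw [hab]
      exact Subtype.ext this
    · exact hcl
  exact RingHom.finite_algebraMap.mp h3.of_comp_finite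

end Pool.Agent.Work.MP_ffcd14_ag
end

-- merged part: Pool.Agent.Work.MP_ffcd14_ag.Cyc.NormA
section
/-! # Normalisation: the algebra -/

open MvPolynomial Topology TopologicalSpace Filter

namespace Pool.Agent.Work.MP_ffcd14_ag

universe u v w w'

variable {k : Type u} [Field k] [IsAlgClosed k] {P P' P₀ P₁ P₂ Q : Amb}

section Aux

variable {K : Type u} [Field K] {L : Type u} [Field L] [Algebra K L]

/-- The elements which a power of `u` moves into `A`. -/
def NormA_away (A : Subalgebra K L) {u : L} (hu : u ∈ A) : Subalgebra A L where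
  carrier := {y | ∃ e : ℕ, u ^ e * y ∈ A}
  mul_mem' := by
    rintro x y ⟨e, h⟩ ⟨e', h'⟩
    refine ⟨e + e', ?_⟩
    rw [show u ^ (e + e') * (x * y) = u ^ e * x * (u ^ e' * y) by ring]
    exact mul_mem h h'
  add_mem' := by
    rintro x y ⟨e, h⟩ ⟨e', h'⟩
    refine ⟨e + e', ?_⟩
    rw [show u ^ (e + e') * (x + y) = u ^ e' * (u ^ e * x) + u ^ e * (u ^ e' * y) by ring]
    exact add_mem (mul_mem (pow_mem hu _) h) (mul_mem (pow_mem hu _) h')
  algebraMap_mem' r := ⟨0, by simp⟩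

theorem NormA_loc (A A' : Subalgebra K L) {u : L} (hu : u ∈ A) (u0 : u ≠ 0)
    (h : ∀ y ∈ A', y ∈ NormA_away A hu) {g : L} (hg : IsIntegral A' g) :
    ∃ N : ℕ, ∀ M, N ≤ M → IsIntegral A (u ^ M * g) := by
  let B := NormA_away A hu
  have hl : IsLocalization.Away (⟨u, hu⟩ : A) B := by
    refine IsLocalization.Away.mk _ ?_ ?_ ?_
    · refine IsUnit.of_mul_eq_one ⟨u⁻¹, 1, by simp [u0]⟩ (Subtype.ext ?_)
      exact mul_inv_cancel₀ u0
    · rintro ⟨y, e, hy⟩
      exact ⟨e, ⟨_, hy⟩, Subtype.ext (mul_comm y (u ^ e))⟩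
    · intro a b hab
      have : a = b := Subtype.ext (congrArg (fun y : B => (y : L)) hab)
      exact ⟨0, by rw [this]⟩
  have h1 : IsIntegral B g := hg.map_of_comp_eq
    ((algebraMap A' L).codRestrict B fun y => h y y.2) (RingHom.id L) (by ext; rfl)
  obtain ⟨⟨_, N, rfl⟩, hN⟩ :=
    h1.exists_multiple_integral_of_isLocalization (Submonoid.powers (⟨u, hu⟩ : A)) g
  refine ⟨N, fun M hM => ?_⟩
  obtain ⟨d, rfl⟩ := Nat.exists_eq_add_of_le hM
  rw [show u ^ (N + d) * g = u ^ d * (u ^ N * g) by ring]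
  exact (isIntegral_algebraMap (x := (⟨u ^ d, pow_mem hu d⟩ : A))).mul hN

theorem NormA_frac {σ : Type} (v : σ → L) (hv : IntermediateField.adjoin K (Set.range v) = ⊤) :
    IsFractionRing (Algebra.adjoin K (Set.range v)) L := by
  refine IsFractionRing.of_field _ _ fun z => ?_
  obtain ⟨x, hx, y, hy, e⟩ := IntermediateField.mem_adjoin_iff_div.1
    (show z ∈ IntermediateField.adjoin K (Set.range v) by rw [hv]; trivial)
  exact ⟨⟨x, hx⟩, ⟨y, hy⟩, e⟩

theorem NormA_closed (A : Subalgebra K L) [IsFractionRing A L] {S T : Set L}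
    (hS : A = Algebra.adjoin K S) (hT : ∀ y ∈ T, IsIntegral A y) {n : ℕ}
    (g : Fin n → integralClosure A L) (hg : Submodule.span A (Set.range g) = ⊤)
    (hgT : ∀ i, (g i : L) ∈ T) : IsIntegrallyClosed (Algebra.adjoin K (S ∪ T)) := by
  have hA : A ≤ Algebra.adjoin K (S ∪ T) := hS ▸ Algebra.adjoin_mono Set.subset_union_left
  have e : Algebra.adjoin K (S ∪ T) = (integralClosure A L).restrictScalars K := by
    apply le_antisymm
    · refine Algebra.adjoin_le ?_
      rintro y (hy | hy)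
      · exact isIntegral_algebraMap (x := (⟨y, hS ▸ Algebra.subset_adjoin hy⟩ : A))
      · exact hT y hy
    · intro y hy
      have h1 : (⟨y, hy⟩ : integralClosure A L) ∈ Submodule.span A (Set.range g) := by
        rw [hg]; trivial
      obtain ⟨c, hc⟩ := (Submodule.mem_span_range_iff_exists_fun A).1 h1
      have h2 : y = ∑ i, (c i : L) * g i := by
        have := congrArg Subtype.val hc
        simp only [AddSubmonoidClass.coe_finsetSum, SetLike.val_smul] at this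
        exact this.symm
      rw [h2]
      exact sum_mem fun i _ => mul_mem (hA (c i).2) (Algebra.subset_adjoin (Or.inr (hgT i)))
  rw [e]
  exact integralClosure.isIntegrallyClosedOfFiniteExtension (R := A) L

/-- The normalised vector of a chart. -/
def NormA_nv (v : P.V → L) (ς : ∀ i, P.σ i) : P.V → L := fun s => (v ⟨s.1, ς s.1⟩)⁻¹ * v s

theorem NormA_top {v : P.V → L} {ς₀ ς : ∀ i, P.σ i} (h0 : ∀ i, v ⟨i, ς₀ i⟩ = 1)
    (hv : IntermediateField.adjoin K (Set.range v) = ⊤) (h : ∀ i, v ⟨i, ς i⟩ ≠ 0) :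
    IntermediateField.adjoin K (Set.range (NormA_nv v ς)) = ⊤ := by
  rw [eq_top_iff, ← hv, IntermediateField.adjoin_le_iff]
  rintro _ ⟨s, rfl⟩
  have e : v s = NormA_nv v ς s / NormA_nv v ς ⟨s.1, ς₀ s.1⟩ := by
    have := h s.1
    simp only [NormA_nv, h0]
    field_simp
  rw [e]
  exact div_mem (IntermediateField.subset_adjoin _ _ ⟨_, rfl⟩)
    (IntermediateField.subset_adjoin _ _ ⟨_, rfl⟩)

theorem NormA_chg [Fintype P.ι] {v : P.V → L} {ς ς' : ∀ i, P.σ i} (h : ∀ i, v ⟨i, ς i⟩ ≠ 0)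
    (h' : ∀ i, v ⟨i, ς' i⟩ ≠ 0) {g : L}
    (hg : IsIntegral (Algebra.adjoin K (Set.range (NormA_nv v ς'))) g) :
    ∃ N : ℕ, ∀ M, N ≤ M → IsIntegral (Algebra.adjoin K (Set.range (NormA_nv v ς)))
      (((∏ i, v ⟨i, ς' i⟩) / ∏ i, v ⟨i, ς i⟩) ^ M * g) := by
  classical
  have gen : ∀ s, NormA_nv v ς s ∈ Algebra.adjoin K (Set.range (NormA_nv v ς)) :=
    fun s => Algebra.subset_adjoin ⟨s, rfl⟩
  have e : (∏ i, v ⟨i, ς' i⟩) / ∏ i, v ⟨i, ς i⟩ = ∏ i, NormA_nv v ς ⟨i, ς' i⟩ := by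
    rw [← Finset.prod_div_distrib]
    exact Finset.prod_congr rfl fun i _ => by rw [div_eq_inv_mul]; rfl
  rw [e]
  have hu : ∏ i, NormA_nv v ς ⟨i, ς' i⟩ ∈ Algebra.adjoin K (Set.range (NormA_nv v ς)) :=
    prod_mem fun i _ => gen _
  refine NormA_loc _ _ hu
    (Finset.prod_ne_zero_iff.2 fun i _ => mul_ne_zero (inv_ne_zero (h i)) (h' i)) ?_ hg
  refine fun y hy => Algebra.adjoin_le (S := (NormA_away _ hu).restrictScalars K) ?_ hy
  rintro _ ⟨s, rfl⟩
  refine ⟨1, ?_⟩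
  have e2 : NormA_nv v ς ⟨s.1, ς' s.1⟩ * NormA_nv v ς' s = NormA_nv v ς s := by
    have := h' s.1
    simp only [NormA_nv]
    field_simp
  rw [pow_one, ← Finset.prod_erase_mul _ _ (Finset.mem_univ s.1), mul_assoc, e2]
  exact mul_mem (prod_mem fun i _ => gen _) (gen s)

end Aux

theorem norm_alg (Z : Sub k P) : ∃ (κ : Type) (_ : Finite κ) (F : κ → MvPolynomial P.V k)
    (b : P.ι →₀ ℕ), (∀ s, IsForm (F s) b) ∧ ∀ ς : ∀ i, P.σ i, (∃ x ∈ Z, InCh ς x) →
      ∃ (j : κ) (L : Type u) (_ : Field L) (_ : Algebra k L) (v : P.V → L),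
        IsGen (Z : Set (P.Pt k)) v ∧ (∀ i, v ⟨i, ς i⟩ = 1) ∧ aeval v (F j) ≠ 0 ∧
        (∀ s, IsIntegral (Algebra.adjoin k (Set.range v)) (aeval v (F s) / aeval v (F j))) ∧
        IsIntegrallyClosed (Algebra.adjoin k
          (Set.range v ∪ Set.range fun s => aeval v (F s) / aeval v (F j))) := by
  classical
  let _ := Fintype.ofFinite P.ι
  obtain ⟨ς₀, h0⟩ := Noeth.mono_not_van Z
  obtain ⟨L, _, _, v, hv, hv0, ht⟩ := exists_gen Z ς₀ h0
  let C : Type := {ς : ∀ i, P.σ i // ∃ x ∈ Z, InCh ς x}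
  have hne : ∀ (ς : C) i, v ⟨i, ς.1 i⟩ ≠ 0 := fun ς i h =>
    exists_inCh_iff.1 ς.2 i ((hv.iff _ _ (IsForm.X _)).1 (by simpa using h))
  let A : C → Subalgebra k L := fun ς => Algebra.adjoin k (Set.range (NormA_nv v ς.1))
  have top : ∀ ς : C, IntermediateField.adjoin k (Set.range (NormA_nv v ς.1)) = ⊤ :=
    fun ς => NormA_top hv0 ht (hne ς)
  choose n g hg using fun ς : C =>
    @Module.Finite.exists_fin _ _ _ _ _ (finite_normalization _ (top ς))
  let κ : Type := Σ ς : C, Option (Fin (n ς))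
  let G : κ → L := fun s => s.2.elim 1 fun i => g s.1 i
  have hG : ∀ s : κ, IsIntegral (A s.1) (G s) := by
    rintro ⟨ς, _ | i⟩
    · exact isIntegral_one
    · exact (g ς i).2
  let μ : C → L := fun ς => ∏ i, v ⟨i, ς.1 i⟩
  have hμ : ∀ ς, μ ς ≠ 0 := fun ς => Finset.prod_ne_zero_iff.2 fun i _ => hne ς i
  choose N₀ hN₀ using fun p : C × κ => NormA_chg (hne p.1) (hne p.2.1) (hG p.2)
  obtain ⟨N, hN⟩ := Finite.exists_le N₀
  have := NormA_frac v ht
  obtain ⟨d, hd⟩ := IsLocalization.exist_integer_multiples_of_finite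
    (nonZeroDivisors (Algebra.adjoin k (Set.range v))) fun s : κ => μ s.1 ^ N * G s
  have d0 : ((d : Algebra.adjoin k (Set.range v)) : L) ≠ 0 := fun h =>
    nonZeroDivisors.coe_ne_zero d (Subtype.ext h)
  have hf : ∀ s : κ, ∃ f : MvPolynomial P.V k,
      aeval v f = ((d : Algebra.adjoin k (Set.range v)) : L) * (μ s.1 ^ N * G s) := fun s => by
    obtain ⟨⟨y, hy⟩, e⟩ := hd s
    rw [Algebra.adjoin_range_eq_range_aeval] at hy
    obtain ⟨f, rfl⟩ := hy
    exact ⟨f, e⟩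
  choose f hf using hf
  obtain ⟨F, b, hF, hFf⟩ := homog_many ς₀ f
  refine ⟨κ, inferInstance, F, b, hF, fun ς₁ h₁ => ?_⟩
  let ς : C := ⟨ς₁, h₁⟩
  have c0 : (b.prod fun i m => (v ⟨i, ς₁ i⟩)⁻¹ ^ m) ≠ 0 :=
    Finset.prod_ne_zero_iff.mpr fun i _ => pow_ne_zero _ (inv_ne_zero (hne ς i))
  have val : ∀ s, aeval (NormA_nv v ς₁) (F s) = (b.prod fun i m => (v ⟨i, ς₁ i⟩)⁻¹ ^ m) *
      (((d : Algebra.adjoin k (Set.range v)) : L) * (μ s.1 ^ N * G s)) := fun s => by
    rw [← hf, ← hFf L v hv0]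
    exact (hF s).aeval_scale (fun i => (v ⟨i, ς₁ i⟩)⁻¹) v
  have rat : ∀ s, aeval (NormA_nv v ς₁) (F s) / aeval (NormA_nv v ς₁) (F ⟨ς, none⟩) =
      (μ s.1 / μ ς) ^ N * G s := fun s => by
    have := hμ ς
    rw [val, val, mul_div_mul_left _ _ c0, mul_div_mul_left _ _ d0, div_pow]
    simp only [G, Option.elim]
    field_simp
  have int : ∀ s, IsIntegral (A ς)
      (aeval (NormA_nv v ς₁) (F s) / aeval (NormA_nv v ς₁) (F ⟨ς, none⟩)) := fun s => by
    rw [rat]
    exact hN₀ (ς, s) N (hN _)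
  refine ⟨⟨ς, none⟩, L, inferInstance, inferInstance, NormA_nv v ς₁,
    hv.scale (fun i => (v ⟨i, ς₁ i⟩)⁻¹) fun i => inv_ne_zero (hne ς i),
    fun i => inv_mul_cancel₀ (hne ς i), ?_, int, ?_⟩
  · rw [val]
    exact mul_ne_zero c0 (mul_ne_zero d0 (mul_ne_zero (pow_ne_zero _ (hμ ς)) one_ne_zero))
  · have := NormA_frac _ (top ς)
    refine NormA_closed (A ς) rfl ?_ (g ς) (hg ς) fun i => ⟨⟨ς, some i⟩, ?_⟩
    · rintro _ ⟨s, rfl⟩
      exact int s
    · beta_reduce
      rw [rat, div_self (hμ ς), one_pow, one_mul]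
      rfl

end Pool.Agent.Work.MP_ffcd14_ag
end

-- merged part: Pool.Agent.Work.MP_ffcd14_ag.Cyc.SM1
section
/-! # Derivations of a separably generated field, and minors of independent rows -/

open Module

namespace Pool.Agent.Work.MP_ffcd14_ag.SM

section
variable {k R K W : Type*} [Field k] [CommRing R] [Field K] [Algebra k R] [Algebra k K]
  [AddCommGroup W] [Module K W] [Module k W] [IsScalarTower k K W]

/-- extension of a derivation along a map to a field generated by fractions -/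
theorem extend (φ : R →ₐ[k] K) (hs : ∀ y : K, ∃ a b, φ b ≠ 0 ∧ φ a = y * φ b) (D : R →+ W)
    (hm : ∀ a b, D (a * b) = φ a • D b + φ b • D a) (hk : ∀ c : k, D (algebraMap k R c) = 0)
    (h0 : ∀ a, φ a = 0 → D a = 0) : ∃ δ : Derivation k K W, ∀ a, δ (φ a) = D a := by
  have key : ∀ y : K, ∃ w : W, ∀ a b, φ a = y * φ b → φ b • w = D a - y • D b := by
    intro y
    obtain ⟨a₀, b₀, h1, h2⟩ := hs y
    refine ⟨(φ b₀)⁻¹ • (D a₀ - y • D b₀), fun a b h => ?_⟩
    have h3 := h0 (a * b₀ - a₀ * b) (by rw [map_sub, map_mul, map_mul, h, h2]; ring)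
    rw [map_sub, hm, hm, h, h2, sub_eq_zero] at h3
    refine smul_right_injective W h1 ?_
    simp only
    rw [smul_comm, smul_inv_smul₀ h1]
    linear_combination (norm := module) -h3
  choose d hd using key
  have hadd : ∀ y z, d (y + z) = d y + d z := by
    intro y z
    obtain ⟨a, b, h1, h2⟩ := hs y
    obtain ⟨a', b', h1', h2'⟩ := hs z
    have e1 := hd y (a * b') (b * b') (by rw [map_mul, map_mul, h2]; ring)
    have e2 := hd z (a' * b) (b * b') (by rw [map_mul, map_mul, h2']; ring)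
    have e3 := hd (y + z) (a * b' + a' * b) (b * b') (by
      rw [map_add, map_mul, map_mul, map_mul, h2, h2']; ring)
    refine smul_right_injective W (r := φ (b * b')) (by rw [map_mul]; exact mul_ne_zero h1 h1') ?_
    simp only
    rw [smul_add, e1, e2, e3, map_add, add_smul]
    abel
  have hmul : ∀ y z, d (y * z) = y • d z + z • d y := by
    intro y z
    obtain ⟨a, b, h1, h2⟩ := hs y
    obtain ⟨a', b', h1', h2'⟩ := hs z
    have e1 := hd y a b h2
    have e2 := hd z a' b' h2'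
    have e3 := hd (y * z) (a * a') (b * b') (by rw [map_mul, map_mul, h2, h2']; ring)
    refine smul_right_injective W (mul_ne_zero h1 h1') ?_
    simp only
    rw [map_mul, hm, hm, h2, h2'] at e3
    linear_combination (norm := module) e3 - (y * φ b) • e2 - (z * φ b') • e1
  have h1 : D 1 = 0 := by simpa using hk 1
  have hφ : ∀ a, d (φ a) = D a := fun a => by
    simpa [h1] using hd (φ a) a 1 (by simp)
  have hk' : ∀ c : k, d (algebraMap k K c) = 0 := fun c => by rw [← φ.commutes, hφ, hk]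
  refine ⟨Derivation.mk' ⟨⟨d, hadd⟩, fun c y => ?_⟩ hmul, hφ⟩
  simp only [RingHom.id_apply]
  rw [Algebra.smul_def, hmul, hk', smul_zero, add_zero, algebraMap_smul]

omit [IsScalarTower k K W] in
/-- a derivation which kills a separating set vanishes -/
theorem vanish (s : Set K) [Algebra.IsSeparable (IntermediateField.adjoin k s) K]
    (δ : Derivation k K W) (h : ∀ y ∈ s, δ y = 0) (y : K) : δ y = 0 := by
  have h1 : ∀ c : IntermediateField.adjoin k s, δ (c : K) = 0 := by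
    rintro ⟨c, hc⟩
    obtain ⟨a, ha, b, hb, rfl⟩ := IntermediateField.mem_adjoin_iff_div.1 hc
    have := Derivation.eqOn_adjoin (D1 := δ) (D2 := 0) h
    simp [Derivation.leibniz_div, this ha, this hb]
  have h2 : ∀ P : Polynomial (IntermediateField.adjoin k s),
      δ (Polynomial.aeval y P) = Polynomial.aeval y (Polynomial.derivative P) • δ y := by
    intro P
    induction P using Polynomial.induction_on' with
    | add p q hp hq => simp [hp, hq, add_smul]
    | monomial n c =>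
      rw [Polynomial.derivative_monomial, Polynomial.aeval_monomial, Polynomial.aeval_monomial,
        Derivation.leibniz, Derivation.leibniz_pow, IntermediateField.algebraMap_apply, h1,
        smul_zero, add_zero, map_mul, map_natCast, IntermediateField.algebraMap_apply,
        ← Nat.cast_smul_eq_nsmul K, smul_smul, smul_smul]
  have h3 := h2 (minpoly _ y)
  rw [minpoly.aeval, map_zero] at h3
  exact (smul_eq_zero.1 h3.symm).resolve_left
    ((Algebra.IsSeparable.isSeparable _ y).aeval_derivative_ne_zero (minpoly.aeval _ y))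

theorem finrank_le (s : Finset K) [Algebra.IsSeparable (IntermediateField.adjoin k (s : Set K)) K]
    (δ : Derivation k K W) (h : Submodule.span K (Set.range δ) = ⊤) : finrank K W ≤ s.card := by
  classical
  have h1 : Submodule.span K ((s.image δ : Finset W) : Set W) = ⊤ := by
    rw [eq_top_iff, ← h, Submodule.span_le]
    rintro _ ⟨y, rfl⟩
    have := vanish (s : Set K)
      ((Submodule.span K ((s.image δ : Finset W) : Set W)).mkQ.compDer δ) (fun z hz =>
        (Submodule.Quotient.mk_eq_zero _).2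
          (Submodule.subset_span (Finset.mem_coe.2 (Finset.mem_image_of_mem _ hz)))) y
    exact (Submodule.Quotient.mk_eq_zero _).1 this
  rw [← finrank_top, ← h1]
  exact (finrank_span_finset_le_card _).trans Finset.card_image_le

end

/-- independence of rows spreads out from a fraction field to a principal open set -/
theorem spread {R K σ : Type*} [CommRing R] [Field K] [Finite σ] (φ : R →+* K)
    (hs : ∀ y : K, ∃ a b, φ b ≠ 0 ∧ φ a = y * φ b) {m : ℕ} (M : Fin m → σ → R)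
    (h : LinearIndependent K fun j s => φ (M j s)) :
    ∃ g : R, φ g ≠ 0 ∧ ∀ (k : Type*) [Field k] (ψ : R →+* k), ψ g ≠ 0 →
      LinearIndependent k fun j s => ψ (M j s) := by
  classical
  have := Fintype.ofFinite σ
  obtain ⟨G, hG⟩ := LinearMap.exists_leftInverse_of_injective
    (Fintype.linearCombination K fun j s => φ (M j s))
    (LinearMap.ker_eq_bot.2 (h.fintypeLinearCombination_injective))
  choose a b hb hab using fun x : σ × Fin m => hs (G (Pi.single x.1 1) x.2)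
  set N : Matrix σ (Fin m) R := fun s j => a (s, j) * ∏ x ∈ Finset.univ.erase (s, j), b x with hN
  have hB : φ (∏ x, b x) ≠ 0 := by
    rw [map_prod]; exact Finset.prod_ne_zero_iff.2 fun x _ => hb x
  have hN' : ∀ s j, φ (N s j) = G (Pi.single s 1) j * φ (∏ x, b x) := by
    intro s j
    rw [hN, ← Finset.mul_prod_erase _ _ (Finset.mem_univ (s, j))]
    simp only [map_mul, hab, mul_assoc]
  have h1 : (Matrix.of M * N).map φ = φ (∏ x, b x) • (1 : Matrix (Fin m) (Fin m) K) := by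
    ext i j
    have e1 := congrFun (LinearMap.congr_fun hG (Pi.single i 1)) j
    have e2 : (fun s => φ (M i s)) = ∑ s, φ (M i s) • (Pi.single s 1 : σ → K) := by
      ext t; simp [Finset.sum_apply, Pi.single_apply]
    rw [LinearMap.comp_apply, Fintype.linearCombination_apply_single, one_smul, e2, map_sum,
      Finset.sum_apply] at e1
    simp only [map_smul, Pi.smul_apply, smul_eq_mul, LinearMap.id_apply] at e1
    simp only [Matrix.map_apply, Matrix.mul_apply, Matrix.of_apply, map_sum, map_mul, hN',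
      ← mul_assoc, ← Finset.sum_mul, e1, Matrix.smul_apply, smul_eq_mul, Matrix.one_apply,
      Pi.single_apply]
    rw [mul_comm]
    simp only [eq_comm]
  refine ⟨(Matrix.of M * N).det, ?_, fun k _ ψ hψ => ?_⟩
  · rw [RingHom.map_det, RingHom.mapMatrix_apply, h1, Matrix.det_smul, Matrix.det_one, mul_one]
    exact pow_ne_zero _ hB
  · rw [RingHom.map_det, RingHom.mapMatrix_apply, Matrix.map_mul] at hψ
    refine LinearIndependent.of_comp (N.map ψ).vecMulLinear ?_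
    exact Matrix.linearIndependent_rows_of_det_ne_zero hψ

end Pool.Agent.Work.MP_ffcd14_ag.SM
end

-- merged part: Pool.Agent.Work.MP_ffcd14_ag.Cyc.SM
section
/-! # A normal affine variety is smooth in codimension one -/

open MvPolynomial

namespace Pool.Agent.Work.MP_ffcd14_ag

universe u

variable {k : Type u} [Field k] {σ : Type} [Finite σ]

/-- There are elements of `I` with independent differentials at `x` which cut the tangent space
down to dimension at most `n`. -/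
def JacAt (I : Ideal (MvPolynomial σ k)) (x : σ → k) (n : Cardinal.{u}) : Prop :=
  ∃ (κ : Type) (_ : Finite κ) (f : κ → MvPolynomial σ k), (∀ j, f j ∈ I) ∧
    LinearIndependent k (fun j s => eval x (pderiv s (f j))) ∧
    (Nat.card σ : Cardinal) ≤ (Nat.card κ : Cardinal) + n

theorem SM.aux {K : Type u} [Field K] [Algebra k K] (φ : MvPolynomial σ k →ₐ[k] K)
    (hs : ∀ y : K, ∃ a b, φ b ≠ 0 ∧ φ a = y * φ b) (t : Finset K)
    [Algebra.IsSeparable (IntermediateField.adjoin k (t : Set K)) K]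
    (I : Ideal (MvPolynomial σ k)) (_hI : ∀ f ∈ I, φ f = 0) {e : ℕ}
    (π : Fin e → MvPolynomial σ k) (hπ : ∀ i, φ (π i) = 0)
    (hgen : ∀ f, φ f = 0 → ∃ s, φ s ≠ 0 ∧ s * f ∈ I ⊔ Ideal.span (Set.range π)) :
    ∃ h, φ h ≠ 0 ∧ ∀ x : σ → k, eval x h ≠ 0 → JacAt I x (t.card + e) := by
  classical
  have := Fintype.ofFinite σ
  let row : MvPolynomial σ k →+ (σ → K) :=
    { toFun := fun f s => φ (pderiv s f)
      map_zero' := by ext s; simp
      map_add' := fun a b => by ext s; simp }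
  have hrow : ∀ a b, row (a * b) = φ a • row b + φ b • row a := fun a b => by
    ext s; simp [row]
  set J := Submodule.span K (row '' (I : Set (MvPolynomial σ k))) with hJ
  set U := J ⊔ Submodule.span K (Set.range fun i => row (π i)) with hU
  have h1 : ∀ f ∈ I ⊔ Ideal.span (Set.range π), row f ∈ U := by
    intro f hf
    obtain ⟨a, ha, b, hb, rfl⟩ := Submodule.mem_sup.1 hf
    obtain ⟨c, rfl⟩ := Ideal.mem_span_range_iff_exists_fun.1 hb
    rw [map_add, map_sum]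
    refine Submodule.add_mem_sup (Submodule.subset_span ⟨a, ha, rfl⟩)
      (Submodule.sum_mem _ fun i _ => ?_)
    rw [hrow, hπ, zero_smul, add_zero]
    exact Submodule.smul_mem _ _ (Submodule.subset_span ⟨i, rfl⟩)
  have h2 : ∀ f, φ f = 0 → row f ∈ U := by
    intro f hf
    obtain ⟨s, hs0, hs1⟩ := hgen f hf
    have := h1 _ hs1
    rw [hrow, hf, zero_smul, add_zero] at this
    exact (U.smul_mem_iff hs0).1 this
  obtain ⟨δ, hδ⟩ := SM.extend (W := (σ → K) ⧸ U) φ hs (U.mkQ.toAddMonoidHom.comp row)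
    (fun a b => by simp [hrow]) (fun c => by
      have : row (algebraMap k _ c) = 0 := by ext s; simp [row]
      simp only [AddMonoidHom.comp_apply, this, map_zero])
    (fun a ha => (Submodule.Quotient.mk_eq_zero _).2 (h2 a ha))
  have h3 := SM.finrank_le t δ (by
    rw [eq_top_iff, ← U.range_mkQ, LinearMap.range_eq_map, ← (Pi.basisFun K σ).span_eq,
      Submodule.map_span, Submodule.span_le]
    rintro _ ⟨_, ⟨s, rfl⟩, rfl⟩
    refine Submodule.subset_span ⟨φ (X s), ?_⟩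
    have : row (X s) = Pi.basisFun K σ s := by
      ext s'
      by_cases h : s' = s
      · subst h; simp [row]
      · simp [row, pderiv_X, h, Ne.symm h]
    rw [hδ, ← this]
    rfl)
  have h4 := U.finrank_quotient_add_finrank
  have h5 : Module.finrank K U ≤ Module.finrank K J + e := by
    refine (Submodule.finrank_add_le_finrank_add_finrank _ _).trans (Nat.add_le_add_left ?_ _)
    exact (finrank_range_le_card (R := K) fun i => row (π i)).trans (Fintype.card_fin e).le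
  rw [Module.finrank_fintype_fun_eq_card] at h4
  obtain ⟨v, hv, -, hli⟩ := Submodule.exists_fun_fin_finrank_span_eq K
    (row '' (I : Set (MvPolynomial σ k)))
  choose f hf hfv using hv
  obtain ⟨g, hg, hg'⟩ := SM.spread (φ : MvPolynomial σ k →+* K) hs (fun j s => pderiv s (f j)) (by
    rw [← funext hfv] at hli
    exact hli)
  refine ⟨g, hg, fun x hx => ⟨_, inferInstance, f, hf, hg' k (eval x) hx, ?_⟩⟩
  rw [Nat.card_eq_fintype_card, Nat.card_eq_fintype_card, Fintype.card_fin, ← hJ]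
  norm_cast
  omega

/-- Jacobian criterion near a prime whose maximal ideal has `e` generators. -/
theorem sm [IsAlgClosed k] (I p : Ideal (MvPolynomial σ k)) [p.IsPrime] (hIp : I ≤ p) {e : ℕ}
    (π : Fin e → MvPolynomial σ k) (hπ : ∀ i, π i ∈ p)
    (hgen : ∀ f ∈ p, ∃ s ∉ p, s * f ∈ I ⊔ Ideal.span (Set.range π)) :
    ∃ h ∉ p, ∀ x : σ → k, eval x h ≠ 0 →
      JacAt I x (Algebra.trdeg k (MvPolynomial σ k ⧸ p) + e) := by
  let A := MvPolynomial σ k ⧸ p
  let K := FractionRing A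
  let φ : MvPolynomial σ k →ₐ[k] K := (IsScalarTower.toAlgHom k A K).comp (Ideal.Quotient.mkₐ k p)
  have hφ : ∀ f, φ f = 0 ↔ f ∈ p := fun f =>
    (map_eq_zero_iff _ (IsFractionRing.injective A K)).trans Ideal.Quotient.eq_zero_iff_mem
  have hs : ∀ y : K, ∃ a b, φ b ≠ 0 ∧ φ a = y * φ b := by
    intro y
    obtain ⟨⟨a, b, hb⟩, h⟩ := IsLocalization.surj (nonZeroDivisors A) y
    obtain ⟨a, rfl⟩ := Ideal.Quotient.mk_surjective a
    obtain ⟨b, rfl⟩ := Ideal.Quotient.mk_surjective b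
    exact ⟨a, b, fun c => nonZeroDivisors.ne_zero hb
      (Ideal.Quotient.eq_zero_iff_mem.2 ((hφ b).1 c)), h.symm⟩
  have : Algebra.EssFiniteType A K := .of_isLocalization _ (nonZeroDivisors A)
  have : Algebra.EssFiniteType k K := .comp k A K
  obtain ⟨t, ht, hsep⟩ := exists_isTranscendenceBasis_and_isSeparable_of_perfectField k K
  obtain ⟨h, hh, hh'⟩ := SM.aux φ hs t I (fun f hf => (hφ f).2 (hIp hf)) π
    (fun i => (hφ _).2 (hπ i)) fun f hf => by
      obtain ⟨s, h1, h2⟩ := hgen f ((hφ f).1 hf)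
      exact ⟨s, fun c => h1 ((hφ s).1 c), h2⟩
  have h1 : Algebra.trdeg k A = t.card := by
    have : Algebra.IsAlgebraic A K := IsLocalization.isAlgebraic K (nonZeroDivisors A)
    have h2 := trdeg_add_eq k A (A := K)
    rw [trdeg_eq_zero (R := A) (A := K), add_zero] at h2
    rw [h2, ← ht.cardinalMk_eq_trdeg, Cardinal.mk_coe_finset]
  exact ⟨h, fun c => hh ((hφ h).2 c), fun x hx => h1 ▸ hh' x hx⟩

theorem SM.fin (p : Ideal (MvPolynomial σ k)) :
    ∃ n : ℕ, Algebra.trdeg k (MvPolynomial σ k ⧸ p) = n :=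
  Cardinal.lt_aleph0.1 trdeg_lt_aleph0_of_finiteType

/-- The local ring of a normal variety at a prime divisor has a principal maximal ideal. -/
theorem dvr (I p : Ideal (MvPolynomial σ k)) [I.IsPrime] [p.IsPrime] (hIp : I ≤ p)
    [IsIntegrallyClosed (MvPolynomial σ k ⧸ I)]
    (h : Algebra.trdeg k (MvPolynomial σ k ⧸ p) + 1 = Algebra.trdeg k (MvPolynomial σ k ⧸ I)) :
    ∃ π ∈ p, ∀ f ∈ p, ∃ s ∉ p, s * f ∈ I ⊔ Ideal.span {π} := by
  let B := MvPolynomial σ k ⧸ I
  let q : Ideal B := p.map (Ideal.Quotient.mk I)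
  have hq : q.comap (Ideal.Quotient.mk I) = p := by
    rw [Ideal.comap_map_of_surjective _ Ideal.Quotient.mk_surjective, sup_eq_left,
      ← RingHom.ker_eq_comap_bot, Ideal.mk_ker]
    exact hIp
  have hq' : ∀ f, Ideal.Quotient.mk I f ∈ q ↔ f ∈ p := fun f => by rw [← hq, Ideal.mem_comap]
  have : q.IsPrime := Ideal.map_isPrime_of_surjective Ideal.Quotient.mk_surjective
    (by rwa [Ideal.mk_ker])
  let L := Localization.AtPrime q
  have : IsIntegrallyClosed L :=
    isIntegrallyClosed_of_isLocalization L q.primeCompl q.primeCompl_le_nonZeroDivisors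
  have hinj : Function.Injective (algebraMap B L) :=
    IsLocalization.injective L q.primeCompl_le_nonZeroDivisors
  have h1 : ∀ P : Ideal L, P ≠ ⊥ → P.IsPrime → P = IsLocalRing.maximalIdeal L := by
    intro P hP0 hP
    let r := (P.comap (algebraMap B L)).comap (Ideal.Quotient.mk I)
    have hm : (IsLocalRing.maximalIdeal L).comap (algebraMap B L) = q :=
      Localization.AtPrime.under_maximalIdeal
    have hrp : r ≤ p := by
      rw [← hq, ← hm]
      exact Ideal.comap_mono (Ideal.comap_mono (IsLocalRing.le_maximalIdeal hP.ne_top))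
    have hIr : I < r := by
      refine lt_of_le_of_ne (fun f hf => ?_) fun c => hP0 ?_
      · rw [Ideal.mem_comap, Ideal.Quotient.eq_zero_iff_mem.2 hf]; exact zero_mem _
      · rw [← IsLocalization.map_under q.primeCompl L P, eq_bot_iff, Ideal.map_le_iff_le_comap]
        intro b hb
        obtain ⟨b, rfl⟩ := Ideal.Quotient.mk_surjective b
        have : b ∈ I := c ▸ hb
        rw [Ideal.Quotient.eq_zero_iff_mem.2 this]; exact zero_mem _
    have hr : r = p := by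
      by_contra c
      have a1 := trdeg_drop r p (lt_of_le_of_ne hrp c)
      have a2 := trdeg_drop I r hIr
      obtain ⟨a, ha⟩ := SM.fin p
      obtain ⟨b, hb⟩ := SM.fin r
      rw [← h, ha, hb] at a2
      rw [ha, hb] at a1
      norm_cast at a1 a2
      omega
    rw [← IsLocalization.map_under q.primeCompl L P,
      ← IsLocalization.map_under q.primeCompl L (IsLocalRing.maximalIdeal L)]
    congr 1
    exact (Ideal.comap_injective_of_surjective _ Ideal.Quotient.mk_surjective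
      (hr.trans hq.symm)).trans hm.symm
  obtain ⟨g, hg⟩ : (IsLocalRing.maximalIdeal L).IsPrincipal :=
    ((tfae_of_isNoetherianRing_of_isLocalRing_of_isDomain L).out 3 4).1 (And.intro this h1)
  obtain ⟨⟨a, b⟩, hab⟩ := IsLocalization.surj q.primeCompl g
  obtain ⟨π, rfl⟩ := Ideal.Quotient.mk_surjective a
  refine ⟨π, (hq' π).1 ((IsLocalization.AtPrime.to_map_mem_maximal_iff L q _).1 ?_),
    fun f hf => ?_⟩
  · rw [← hab, hg]
    exact Ideal.mul_mem_right _ _ (Ideal.mem_span_singleton_self g)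
  · have h2 := (IsLocalization.AtPrime.to_map_mem_maximal_iff L q _).2 ((hq' f).2 hf)
    rw [hg] at h2
    obtain ⟨c, hc⟩ := Ideal.mem_span_singleton'.1 h2
    obtain ⟨⟨a', b'⟩, hab'⟩ := IsLocalization.surj q.primeCompl c
    obtain ⟨a', rfl⟩ := Ideal.Quotient.mk_surjective a'
    obtain ⟨s, hs⟩ := Ideal.Quotient.mk_surjective ((b' * b : q.primeCompl) : B)
    refine ⟨s, fun c => (b' * b).2 (hs ▸ (hq' s).2 c), ?_⟩
    have h3 : s * f - a' * π ∈ I := by
      rw [← Ideal.Quotient.eq]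
      refine hinj ?_
      simp only at hab hab'
      rw [map_mul, map_mul, map_mul, map_mul, hs, ← hc, ← hab, ← hab', Submonoid.coe_mul, map_mul]
      ring
    rw [← sub_add_cancel (s * f) (a' * π)]
    exact Submodule.add_mem_sup h3 (Ideal.mul_mem_left _ _ (Ideal.mem_span_singleton_self π))

omit [Finite σ] in
theorem SM.lt_min {p n : Ideal (MvPolynomial σ k)} {h : MvPolynomial σ k} (hp : h ∉ p)
    (hn : n ∈ (p ⊔ Ideal.span {h}).minimalPrimes) : p < n :=
  lt_of_le_of_ne (le_sup_left.trans hn.1.2) fun c =>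
    hp (c ▸ hn.1.2 (Ideal.mem_sup_right (Ideal.mem_span_singleton_self h)))

omit [Finite σ] in
theorem SM.exists_min (p : Ideal (MvPolynomial σ k)) (h : MvPolynomial σ k) (x : σ → k)
    (hp : ∀ f ∈ p, eval x f = 0) (hh : eval x h = 0) :
    ∃ n ∈ (p ⊔ Ideal.span {h}).minimalPrimes, ∀ f ∈ n, eval x f = 0 := by
  have := RingHom.ker_isPrime (eval x)
  exact Ideal.exists_minimalPrimes_le (J := RingHom.ker (eval x))
    (sup_le hp ((Ideal.span_singleton_le_iff_mem _).2 hh))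

/-- A normal affine variety is smooth outside a closed subset of codimension at least two. -/
theorem normal_smooth [IsAlgClosed k] (I : Ideal (MvPolynomial σ k)) [I.IsPrime]
    [IsIntegrallyClosed (MvPolynomial σ k ⧸ I)] :
    ∃ N : Set (Ideal (MvPolynomial σ k)), N.Finite ∧
      (∀ n ∈ N, n.IsPrime ∧ I ≤ n ∧
        Algebra.trdeg k (MvPolynomial σ k ⧸ n) + 2 ≤ Algebra.trdeg k (MvPolynomial σ k ⧸ I)) ∧
      ∀ x : σ → k, (∀ f ∈ I, eval x f = 0) → (∀ n ∈ N, ∃ f ∈ n, eval x f ≠ 0) →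
        JacAt I x (Algebra.trdeg k (MvPolynomial σ k ⧸ I)) := by
  obtain ⟨h₀, hh₀, H₀⟩ := sm I I le_rfl (e := 0) Fin.elim0 (fun i => i.elim0) fun f hf =>
    ⟨1, (Ideal.ne_top_iff_one I).1 Ideal.IsPrime.ne_top', by
      rw [one_mul]; exact Ideal.mem_sup_left hf⟩
  rw [Nat.cast_zero, add_zero] at H₀
  have key : ∀ p ∈ (I ⊔ Ideal.span {h₀}).minimalPrimes,
      ∃ N : Set (Ideal (MvPolynomial σ k)), N.Finite ∧
      (∀ n ∈ N, n.IsPrime ∧ I ≤ n ∧
        Algebra.trdeg k (MvPolynomial σ k ⧸ n) + 2 ≤ Algebra.trdeg k (MvPolynomial σ k ⧸ I)) ∧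
      ∀ x : σ → k, (∀ f ∈ p, eval x f = 0) → (∀ n ∈ N, ∃ f ∈ n, eval x f ≠ 0) →
        JacAt I x (Algebra.trdeg k (MvPolynomial σ k ⧸ I)) := by
    intro p hp
    have hpp : p.IsPrime := hp.1.1
    have hlt := SM.lt_min hh₀ hp
    rcases (trdeg_drop I p hlt).eq_or_lt with c | c
    · obtain ⟨π, hπ, hπ'⟩ := dvr I p hlt.le c
      obtain ⟨h, hh, H⟩ := sm I p hlt.le (e := 1) (fun _ => π) (fun _ => hπ) (by
        rwa [Set.range_const])
      rw [Nat.cast_one, c] at H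
      refine ⟨_, Ideal.finite_minimalPrimes_of_isNoetherianRing _ (p ⊔ Ideal.span {h}),
        fun n hn => ?_, fun x hx hN => H x fun h0 => ?_⟩
      · have : n.IsPrime := hn.1.1
        refine ⟨this, hlt.le.trans (SM.lt_min hh hn).le, ?_⟩
        rw [← c, ← one_add_one_eq_two, ← add_assoc]
        exact add_le_add_left (trdeg_drop p n (SM.lt_min hh hn)) 1
      · obtain ⟨n, hn, hn'⟩ := SM.exists_min p h x hx h0
        obtain ⟨f, hf, hf'⟩ := hN n hn
        exact hf' (hn' f hf)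
    · refine ⟨{p}, Set.finite_singleton p, ?_, fun x hx hN => ?_⟩
      · rintro n rfl
        refine ⟨hpp, hlt.le, ?_⟩
        rw [← one_add_one_eq_two, ← add_assoc]
        exact Cardinal.add_one_le_of_lt c
      · obtain ⟨f, hf, hf'⟩ := hN p rfl
        exact (hf' (hx f hf)).elim
  choose! N hN1 hN2 hN3 using key
  refine ⟨⋃ p ∈ (I ⊔ Ideal.span {h₀}).minimalPrimes, N p,
    (Ideal.finite_minimalPrimes_of_isNoetherianRing _ _).biUnion hN1, fun n hn => ?_,
    fun x hx hN => ?_⟩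
  · obtain ⟨p, hp, hn⟩ := Set.mem_iUnion₂.1 hn
    exact hN2 p hp n hn
  · by_cases h0 : eval x h₀ = 0
    · obtain ⟨p, hp, hp'⟩ := SM.exists_min I h₀ x hx h0
      exact hN3 p hp x hp' fun n hn => hN n (Set.mem_iUnion₂.2 ⟨p, hp, hn⟩)
    · exact H₀ x h0

end Pool.Agent.Work.MP_ffcd14_ag
end

-- merged part: Pool.Agent.Work.MP_ffcd14_ag.Cyc.Norm
section
/-! # A model which is smooth in codimension one -/

open MvPolynomial Topology TopologicalSpace Filter

namespace Pool.Agent.Work.MP_ffcd14_ag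

universe u v w w'

variable {k : Type u} [Field k] [IsAlgClosed k] {P P' P₀ P₁ P₂ Q : Amb}

omit [IsAlgClosed k] in
/-- An integral element whose inverse lies in a subalgebra lies in it. -/
theorem Norm_mem {L : Type u} [Field L] [Algebra k L] {A B : Subalgebra k L} (hAB : A ≤ B) {t : L}
    (ht : IsIntegral A t) (h0 : t ≠ 0) (hB : t⁻¹ ∈ B) : t ∈ B := by
  obtain ⟨p, hp, hpt⟩ := ht
  let _ : Invertible t := invertibleOfNonzero h0
  have h1 := (Polynomial.eval₂_reverse_eq_zero_iff (algebraMap A L) t p).2 hpt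
  rw [invOf_eq_inv, ← Polynomial.divX_mul_X_add p.reverse, Polynomial.coeff_zero_reverse,
    hp.leadingCoeff, Polynomial.eval₂_add, Polynomial.eval₂_mul, Polynomial.eval₂_X,
    Polynomial.eval₂_C, map_one] at h1
  have h2 : Polynomial.eval₂ (algebraMap A L) t⁻¹ p.reverse.divX ∈ B := by
    rw [Polynomial.eval₂_eq_sum_range]
    exact B.sum_mem fun i _ => B.mul_mem (hAB (p.reverse.divX.coeff i).2) (B.pow_mem hB i)
  have h3 : t = -Polynomial.eval₂ (algebraMap A L) t⁻¹ p.reverse.divX := by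
    have h4 := mul_inv_cancel₀ h0
    linear_combination t * h1 - Polynomial.eval₂ (algebraMap A L) t⁻¹ p.reverse.divX * h4
  rw [h3]
  exact B.neg_mem h2

/-- A subvariety which is normal in a chart is smooth in codimension one in this chart. -/
theorem Norm_chart (T : Sub k P) (ς : ∀ i, P.σ i) {L : Type u} [Field L] [Algebra k L]
    {w : P.V → L} (hw : IsGen (T : Set (P.Pt k)) w) (h1 : ∀ i, w ⟨i, ς i⟩ = 1)
    (hn : IsIntegrallyClosed (Algebra.adjoin k (Set.range w))) :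
    ∃ 𝒩 : Set (Sub k P), 𝒩.Finite ∧ (∀ N ∈ 𝒩, sdim N + 2 ≤ sdim T) ∧
      ∀ x ∈ T, InCh ς x → (∀ N ∈ 𝒩, x ∉ N) → SmAt T x := by
  have hT : ∃ x ∈ T, InCh ς x := hw.inCh fun i => by rw [h1]; exact one_ne_zero
  have hI := chI_prime hT
  have hker := hw.ker h1
  have hcl : IsIntegrallyClosed (MvPolynomial P.V k ⧸ chI (T : Set (P.Pt k)) ς) := by
    rw [Algebra.adjoin_range_eq_range_aeval] at hn
    rw [← hker]
    exact IsIntegrallyClosed.of_equiv
      (Ideal.quotientKerEquivRange (aeval w : MvPolynomial P.V k →ₐ[k] L)).symm.toRingEquiv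
  obtain ⟨N, hN, hN1, hN2⟩ := normal_smooth (chI (T : Set (P.Pt k)) ς)
  refine ⟨{U | (∃ x ∈ U, InCh ς x) ∧ chI (U : Set (P.Pt k)) ς ∈ N}, ?_, ?_, ?_⟩
  · refine Set.Finite.of_finite_image (f := fun U : Sub k P => chI (U : Set (P.Pt k)) ς)
      (hN.subset ?_) ?_
    · rintro _ ⟨U, hU, rfl⟩
      exact hU.2
    · intro U hU U' hU' e
      exact le_antisymm (le_of_chI_le hU'.1 hU.1 (le_of_eq e.symm))
        (le_of_chI_le hU.1 hU'.1 (le_of_eq e))
  · rintro U ⟨hU1, hU2⟩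
    have h := (hN1 _ hU2).2.2
    rw [← sdim_eq_trdeg hU1, ← sdim_eq_trdeg hT] at h
    exact_mod_cast h
  · intro x hx hxς hU
    have hJ := hN2 (hat ς x) (fun f hf => hf x hx hxς) (fun n hn' => by
      by_contra hc
      push Not at hc
      obtain ⟨hp, hle, -⟩ := hN1 n hn'
      obtain ⟨U, hU1, hU2⟩ := exists_chI_eq ς n fun i => hle fun y _ hy => by
        rw [map_sub, eval_X, hat_one hy, map_one, sub_self]
      refine hU U ⟨hU1, hU2 ▸ hn'⟩ ?_
      have h : ({x} : Sub k P) ≤ U := by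
        refine le_of_chI_le hU1 ⟨x, rfl, hxς⟩ fun f hf y hy _ => ?_
        obtain rfl : y = x := hy
        exact hc f (hU2 ▸ hf)
      exact h (show x ∈ ({x} : Sub k P) from rfl))
    obtain ⟨κ, hκ, f, hf1, hf2, hf3⟩ := hJ
    refine ⟨ς, hxς, κ, hκ, f, hf1, hf2, ?_⟩
    rw [← sdim_eq_trdeg hT] at hf3
    exact_mod_cast hf3

/-- The chart of a product with one projective space. -/
def Norm_ch {κ : Type} [Finite κ] (ς : ∀ i, P.σ i) (j : κ) : ∀ i, (P.sum (Amb.one κ)).σ i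
  | Sum.inl i => ς i
  | Sum.inr _ => j

omit [IsAlgClosed k] in
theorem Norm_gen {κ : Type} [Finite κ] {T : Set ((P.sum (Amb.one κ)).Pt k)} {L : Type u} [Field L]
    [Algebra k L] {v : P.V → L} {y : κ → L}
    (h : IsGen T (Amb.elim (Q := Amb.one κ) v fun s => y s.2)) {j : κ} (hj : y j ≠ 0) :
    IsGen T (Amb.elim (Q := Amb.one κ) v fun s => y s.2 / y j) := by
  have h1 := h.scale (Sum.elim (fun _ => 1) fun _ => (y j)⁻¹) (by
    rintro (i | i)
    · exact one_ne_zero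
    · exact inv_ne_zero hj)
  convert h1 using 1
  funext s
  rcases s with ⟨i | i, s⟩
  · exact (one_mul _).symm
  · exact div_eq_inv_mul _ _

theorem Norm_range {κ : Type} [Finite κ] {L : Type u} (v : P.V → L) (y : κ → L) :
    Set.range (Amb.elim (Q := Amb.one κ) v fun s => y s.2) = Set.range v ∪ Set.range y := by
  ext z
  constructor
  · rintro ⟨⟨i | i, s⟩, rfl⟩
    · exact Or.inl ⟨⟨i, s⟩, rfl⟩
    · exact Or.inr ⟨s, rfl⟩
  · rintro (⟨⟨i, s⟩, rfl⟩ | ⟨s, rfl⟩)
    · exact ⟨⟨Sum.inl i, s⟩, rfl⟩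
    · exact ⟨⟨Sum.inr (), s⟩, rfl⟩

omit [IsAlgClosed k] in
/-- Integrality forces a point over the chart `ς` into the chart `(ς, j)`. -/
theorem Norm_inCh {κ : Type} [Finite κ] {T : Sub k (P.sum (Amb.one κ))} {L : Type u} [Field L]
    [Algebra k L] {v : P.V → L} {y : κ → L} {ς : ∀ i, P.σ i} (hv : ∀ i, v ⟨i, ς i⟩ = 1)
    (h : IsGen (T : Set ((P.sum (Amb.one κ)).Pt k)) (Amb.elim (Q := Amb.one κ) v fun s => y s.2))
    {j : κ} (hj : y j ≠ 0) (hint : ∀ s, IsIntegral (Algebra.adjoin k (Set.range v)) (y s / y j))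
    {x : (P.sum (Amb.one κ)).Pt k} (hx : x ∈ T) (hς : InCh ς ((Crd.inl k P _).pr x)) :
    InCh (Norm_ch ς j) x := by
  obtain ⟨ς', hς'⟩ := exists_inCh x
  obtain ⟨s, hxs⟩ : ∃ s : κ, InCh (Norm_ch ς s) x := by
    refine ⟨ς' (Sum.inr ()), ?_⟩
    rintro (i | i)
    · exact hς i
    · exact hς' (Sum.inr ())
  have hs : y s ≠ 0 := by
    intro h0
    have h1 := (exists_inCh_iff.1 ⟨x, hx, hxs⟩) (Sum.inr ())
    refine h1 ((h.iff _ _ (IsForm.X _)).1 ?_)
    rw [aeval_X]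
    exact h0
  have hg := Norm_gen h hs
  have hker := hg.ker (ς := Norm_ch ς s) (by
    rintro (i | i)
    · exact hv i
    · exact div_self hs)
  rintro (i | i)
  · exact hς i
  intro h0
  have hmem : y s / y j ∈ Algebra.adjoin k
      (Set.range (Amb.elim (Q := Amb.one κ) v fun t => y t.2 / y s)) := by
    refine Norm_mem (A := Algebra.adjoin k (Set.range v)) (Algebra.adjoin_mono ?_) (hint s)
      (div_ne_zero hs hj) ?_
    · rw [Norm_range v fun t => y t / y s]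
      exact Set.subset_union_left
    · rw [inv_div]
      exact Algebra.subset_adjoin ⟨⟨Sum.inr (), j⟩, rfl⟩
  rw [Algebra.adjoin_range_eq_range_aeval] at hmem
  obtain ⟨G, hG⟩ := hmem
  have h2 : G * X ⟨Sum.inr (), j⟩ - 1 ∈
      chI (T : Set ((P.sum (Amb.one κ)).Pt k)) (Norm_ch ς s) := by
    rw [← hker, RingHom.mem_ker, map_sub, map_mul, map_one, aeval_X]
    change _ * (y j / y s) - 1 = 0
    rw [show aeval (Amb.elim (Q := Amb.one κ) v fun t => y t.2 / y s) G = y s / y j from hG,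
      div_mul_div_cancel₀ hj, div_self hs, sub_self]
  have h3 := h2 x hx hxs
  rw [map_sub, map_mul, map_one, eval_X] at h3
  have h4 : hat (Norm_ch ς s) x ⟨Sum.inr (), j⟩ = 0 := div_eq_zero_iff.2 (Or.inl h0)
  have h5 : eval (hat (Norm_ch ς s) x) G * 0 - 1 = 0 :=
    (congrArg (fun z => eval (hat (Norm_ch ς s) x) G * z - 1) h4).symm.trans h3
  rw [mul_zero, zero_sub, neg_eq_zero] at h5
  exact one_ne_zero h5

theorem exists_norm (Z : Sub k P) : ∃ (Q : Amb) (F : Q.V → MvPolynomial P.V k)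
    (b : Q.ι → P.ι →₀ ℕ), (∀ s, IsForm (F s) (b s.1)) ∧ DefOn (Z : Set (P.Pt k)) F ∧
      ∀ Z' : Sub k (P.sum Q), (Crd.inl k P Q).img Z' = Z →
        OnGraph (Z' : Set ((P.sum Q).Pt k)) F → R1 Z' := by
  obtain ⟨κ, hκ, F, b, hF, H⟩ := norm_alg Z
  have hd : DefOn (Q := Amb.one κ) (Z : Set (P.Pt k)) fun s => F s.2 := by
    obtain ⟨ς, hς⟩ := Dim_chart Z
    obtain ⟨j, L, _, _, v, hv, -, hj, -⟩ := H ς hς
    exact fun _ => ⟨j, fun h => hj ((hv.iff _ _ (hF j)).2 h)⟩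
  refine ⟨Amb.one κ, fun s => F s.2, fun _ => b, fun s => hF s.2, hd, fun Z' hZ' hG => ?_⟩
  have key : ∀ ς : ∀ i, P.σ i, ∃ 𝒩 : Set (Sub k (P.sum (Amb.one κ))), 𝒩.Finite ∧
      (∀ N ∈ 𝒩, sdim N + 2 ≤ sdim Z') ∧ ∀ x ∈ Z', InCh ς ((Crd.inl k P _).pr x) →
        (∀ N ∈ 𝒩, x ∉ N) → SmAt Z' x := by
    intro ς
    by_cases hς : ∃ x ∈ Z, InCh ς x
    · obtain ⟨j, L, _, _, v, hv, hv1, hj, hint, hcl⟩ := H ς hς
      have hg : IsGen (Z' : Set ((P.sum (Amb.one κ)).Pt k))
          (Amb.elim (Q := Amb.one κ) v fun s => aeval v (F s.2)) :=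
        OnGraph.isGen (Q := Amb.one κ) (F := fun s => F s.2) (b := fun _ => b) (fun s => hF s.2)
          (by rw [hZ']; exact hd) hG (by rw [hZ']; exact hv)
      obtain ⟨𝒩, h1, h2, h3⟩ := Norm_chart Z' (Norm_ch ς j)
        (Norm_gen (y := fun s => aeval v (F s)) hg hj) (by
          rintro (i | i)
          · exact hv1 i
          · exact div_self hj) (by
          rw [Norm_range v fun s => aeval v (F s) / aeval v (F j)]
          exact hcl)
      exact ⟨𝒩, h1, h2, fun x hx hxς hN =>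
        h3 x hx (Norm_inCh (y := fun s => aeval v (F s)) hv1 hg hj hint hx hxς) hN⟩
    · refine ⟨∅, Set.finite_empty, fun N hN => absurd hN (Set.notMem_empty N),
        fun x hx hxς _ => absurd ⟨_, ?_, hxς⟩ hς⟩
      rw [← hZ']
      exact Crd.mem_img _ hx
  choose 𝒩 h1 h2 h3 using key
  refine ⟨⋃ ς, 𝒩 ς, Set.finite_iUnion h1, fun N hN => ?_, fun x hx hN => ?_⟩
  · obtain ⟨ς, hς⟩ := Set.mem_iUnion.1 hN
    exact h2 ς N hς
  · obtain ⟨ς, hς⟩ := exists_inCh ((Crd.inl k P _).pr x)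
    exact h3 ς x hx hς fun N hN' => hN N (Set.mem_iUnion.2 ⟨ς, hN'⟩)

end Pool.Agent.Work.MP_ffcd14_ag
end

-- merged part: Pool.Agent.Work.MP_ffcd14_ag.Uni.I0c
section
/-! # Existence of models which are normal in codimension one -/

open MvPolynomial

namespace Pool.Agent.Work.MP_ffcd14_ag.Uni

universe u

variable {k L : Type u} [Field k] [Field L] [Algebra k L] {P Q : Amb} [IsAlgClosed k] [Fg k L]

omit [Fg k L] in
theorem I0c_alg {w : P.V → L} (hg : Gen k w) : ∃ (κ : Type) (_ : Finite κ) (y : κ → L),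
    ∀ ς : ∀ i, P.σ i, (∀ i, w ⟨i, ς i⟩ ≠ 0) → ∃ j, y j ≠ 0 ∧
      (∀ s, IsIntegral (Algebra.adjoin k (Set.range (NormA_nv w ς))) (y s / y j)) ∧
      IsIntegrallyClosed (Algebra.adjoin k
        (Set.range (NormA_nv w ς) ∪ Set.range fun s => y s / y j)) := by
  classical
  let _ := Fintype.ofFinite P.ι
  let C : Type := {ς : ∀ i, P.σ i // ∀ i, w ⟨i, ς i⟩ ≠ 0}
  let A : C → Subalgebra k L := fun ς => Algebra.adjoin k (Set.range (NormA_nv w ς.1))
  have top : ∀ ς : C, IntermediateField.adjoin k (Set.range (NormA_nv w ς.1)) = ⊤ :=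
    fun ς => hg.norm ς.2
  choose n g hg using fun ς : C =>
    @Module.Finite.exists_fin _ _ _ _ _ (finite_normalization _ (top ς))
  let κ : Type := Σ ς : C, Option (Fin (n ς))
  let G : κ → L := fun s => s.2.elim 1 fun i => g s.1 i
  have hG : ∀ s : κ, IsIntegral (A s.1) (G s) := by
    rintro ⟨ς, _ | i⟩
    · exact isIntegral_one
    · exact (g ς i).2
  let μ : C → L := fun ς => ∏ i, w ⟨i, ς.1 i⟩
  have hμ : ∀ ς, μ ς ≠ 0 := fun ς => Finset.prod_ne_zero_iff.2 fun i _ => ς.2 i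
  choose N₀ hN₀ using fun p : C × κ => NormA_chg p.1.2 p.2.1.2 (hG p.2)
  obtain ⟨N, hN⟩ := Finite.exists_le N₀
  refine ⟨κ, inferInstance, fun s => μ s.1 ^ N * G s, fun ς₁ h₁ => ?_⟩
  let ς : C := ⟨ς₁, h₁⟩
  have rat : ∀ s : κ, μ s.1 ^ N * G s / (μ ς ^ N * G ⟨ς, none⟩) = (μ s.1 / μ ς) ^ N * G s :=
    fun s => by
      rw [div_pow, div_mul_eq_mul_div]
      exact congrArg _ (mul_one _)
  have int : ∀ s : κ, IsIntegral (A ς) (μ s.1 ^ N * G s / (μ ς ^ N * G ⟨ς, none⟩)) := fun s => by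
    rw [rat]
    exact hN₀ (ς, s) N (hN _)
  refine ⟨⟨ς, none⟩, mul_ne_zero (pow_ne_zero _ (hμ ς)) one_ne_zero, int, ?_⟩
  have := NormA_frac _ (top ς)
  refine NormA_closed (A ς) rfl ?_ (g ς) (hg ς) fun i => ⟨⟨ς, some i⟩, ?_⟩
  · rintro _ ⟨s, rfl⟩
    exact int s
  · beta_reduce
    rw [rat, div_self (hμ ς), one_pow, one_mul]
    rfl

omit [IsAlgClosed k] [Fg k L] in
theorem I0c_ge {w : P.V → L} (hw : NZ w) (ν : Dv k L) (s : P.V) :
    0 ≤ ν (w s / ν.π ^ ν.mz (blk k w s.1)) := by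
  refine V4a_ge ν ?_
  rw [blk, FD.sp_val (hw s.1)]
  exact Submodule.subset_span ⟨s.2, rfl⟩

omit [IsAlgClosed k] [Fg k L] in
theorem I0c_chart {w : P.V → L} (hw : NZ w) {ν : Dv k L} {i : P.ι} {t : P.σ i}
    (h : rpt ν w ⟨i, t⟩ ≠ 0) : w ⟨i, t⟩ ≠ 0 ∧ ∀ s, 0 ≤ ν ((w ⟨i, t⟩)⁻¹ * w ⟨i, s⟩) := by
  obtain ⟨h1, h2⟩ := not_or.1 (ν.res_eq_zero.not.1 h)
  refine ⟨fun e => h1 (by rw [e, zero_div]), fun s => ?_⟩
  have h3 := zpow_ne_zero (ν.mz (blk k w i)) ν.π_ne
  rw [← div_eq_inv_mul, ← div_div_div_cancel_right₀ h3, div_eq_mul_inv]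
  refine mul_mem (s := ν.O) (I0c_ge hw ν ⟨i, s⟩) ?_
  rw [Vl.mem_O, ν.inv, not_not.1 h2, neg_zero]

omit [IsAlgClosed k] [Fg k L] in
theorem I0c_res {w : P.V → L} (hw : NZ w) (ν : Dv k L) {ς : ∀ i, P.σ i}
    (hς : ∀ i, w ⟨i, ς i⟩ ≠ 0) (h : ∀ s, 0 ≤ ν (NormA_nv w ς s)) :
    ∃ μ : P.ι → ν.κ, (∀ i, μ i ≠ 0) ∧ rpt ν w = fun s => μ s.1 * ν.res (NormA_nv w ς s) := by
  have e : ∀ s : P.V, rpt ν w s = rpt ν w ⟨s.1, ς s.1⟩ * ν.res (NormA_nv w ς s) := fun s => by
    rw [rpt, rpt, ← ν.res_mul (I0c_ge hw ν _) (h s), NormA_nv, div_mul_eq_mul_div,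
      mul_inv_cancel_left₀ (hς s.1)]
  refine ⟨fun i => rpt ν w ⟨i, ς i⟩, fun i => ?_, funext e⟩
  obtain ⟨s, hs⟩ := hw.rpt ν i
  rw [e] at hs
  exact left_ne_zero_of_mul hs

omit [IsAlgClosed k] [Fg k L] in
theorem I0c_frac {σ : Type} (ν : Dv k L) {z : σ → L} (hz : ∀ s, 0 ≤ ν (z s))
    {π : MvPolynomial σ k} (hπ : ν.res (aeval z π) = 0)
    (h : ∀ f : MvPolynomial σ k, ν.res (aeval z f) = 0 → ∃ s c : MvPolynomial σ k,
      ν.res (aeval z s) ≠ 0 ∧ aeval z s * aeval z f = aeval z c * aeval z π)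
    {x : L} (hx : 0 ≤ ν x) (n : ℕ) (a b : MvPolynomial σ k) (hb : aeval z b ≠ 0)
    (hn : ν (aeval z b) ≤ n) (e : x * aeval z b = aeval z a) :
    ∃ f g : MvPolynomial σ k, ν.res (aeval z g) ≠ 0 ∧ x * aeval z g = aeval z f := by
  induction n generalizing a b with
  | zero =>
    exact ⟨a, b, ν.res_eq_zero.not.2 (not_or.2 ⟨hb, not_not.2
      (le_antisymm (hn.trans_eq Nat.cast_zero) (ν.res_aeval hz b).1)⟩), e⟩
  | succ n ih =>
    by_cases h0 : ν.res (aeval z b) = 0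
    swap
    · exact ⟨a, b, h0, e⟩
    obtain ⟨s, a', s1, s2⟩ := h a (by rw [← e, ν.res_mul hx (ν.res_aeval hz b).1, h0, mul_zero])
    obtain ⟨t, b', t1, t2⟩ := h b h0
    obtain ⟨s3, s4⟩ := not_or.1 (ν.res_eq_zero.not.1 s1)
    obtain ⟨t3, t4⟩ := not_or.1 (ν.res_eq_zero.not.1 t1)
    obtain ⟨p1, p2⟩ := mul_ne_zero_iff.1 (t2 ▸ mul_ne_zero t3 hb)
    have p3 := ν.V0_succ (ν.one.trans_lt
      ((ν.res_aeval hz π).1.lt_of_ne' ((ν.res_eq_zero.1 hπ).resolve_left p2)))
    have p4 := congrArg ν t2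
    rw [ν.mul _ _ t3 hb, ν.mul _ _ p1 p2, not_not.1 t4] at p4
    refine ih (a' * t) (b' * s) (by rw [map_mul]; exact mul_ne_zero p1 s3) ?_ ?_
    · rw [map_mul, ν.mul _ _ p1 s3, not_not.1 s4]
      rw [ν.one] at p3
      push_cast at hn
      linarith
    · rw [map_mul, map_mul]
      refine mul_right_cancel₀ p2 ?_
      linear_combination aeval z t * s2 - x * aeval z s * t2 + aeval z s * aeval z t * e

theorem I0c_main {w : P.V → L} (hw : NZ w) (hg : Gen k w) (ν : Dv k L) {ς : ∀ i, P.σ i}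
    (hς : ∀ i, w ⟨i, ς i⟩ ≠ 0) (h : ∀ s, 0 ≤ ν (NormA_nv w ς s))
    (hn : IsIntegrallyClosed (Algebra.adjoin k (Set.range (NormA_nv w ς))))
    (hd : rn k (rat (rpt ν w)) + 1 = td k L) (x : L) (hx : 0 ≤ ν x) :
    ∃ (f g : MvPolynomial P.V k) (a : P.ι →₀ ℕ), IsForm f a ∧ IsForm g a ∧
      aeval (rpt ν w) g ≠ 0 ∧ x * aeval w g = aeval w f := by
  obtain ⟨μ, hμ, e⟩ := I0c_res hw ν hς h
  have top : IntermediateField.adjoin k (Set.range (NormA_nv w ς)) = ⊤ := hg.norm hς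
  have sc : ∀ {f : MvPolynomial P.V k} {a : P.ι →₀ ℕ}, IsForm f a → aeval (NormA_nv w ς) f =
      (a.prod fun i n => (w ⟨i, ς i⟩)⁻¹ ^ n) * aeval w f :=
    fun hf => hf.aeval_scale (fun i => (w ⟨i, ς i⟩)⁻¹) w
  have z1 : ∀ i, NormA_nv w ς ⟨i, ς i⟩ = 1 := fun i => inv_mul_cancel₀ (hς i)
  generalize NormA_nv w ς = z at *
  have r1 : ∀ i, ν.res (z ⟨i, ς i⟩) = 1 := fun i => by rw [z1, ν.res_one]
  let I := RingHom.ker (aeval z : MvPolynomial P.V k →ₐ[k] L)
  let p := RingHom.ker (aeval (fun s => ν.res (z s)) : MvPolynomial P.V k →ₐ[k] ν.κ)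
  have hp : ∀ f, f ∈ p ↔ ν.res (aeval z f) = 0 := fun f => by
    rw [(ν.res_aeval h f).2]
    rfl
  have : I.IsPrime := RingHom.ker_isPrime _
  have : p.IsPrime := RingHom.ker_isPrime _
  have : IsIntegrallyClosed (MvPolynomial P.V k ⧸ I) := by
    rw [Algebra.adjoin_range_eq_range_aeval] at hn
    exact IsIntegrallyClosed.of_equiv
      (Ideal.quotientKerEquivRange (aeval z : MvPolynomial P.V k →ₐ[k] L)).symm.toRingEquiv
  obtain ⟨π, hπ, h1⟩ := dvr I p
    (fun f hf => (hp f).2 (by rw [RingHom.mem_ker.1 hf, ν.res_zero])) (by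
      rw [← rk_range_eq_trdeg, ← rk_range_eq_trdeg, ← rk_rat_norm _ ς r1,
        ← rat_scale _ μ hμ, ← e]
      exact_mod_cast hd.trans (rn_gen top).symm)
  obtain ⟨a, b, h2⟩ := (IntermediateField.mem_adjoin_range_iff k z x).1 (top ▸ trivial)
  obtain ⟨f, g, h3, h4⟩ : ∃ f g : MvPolynomial P.V k, ν.res (aeval z g) ≠ 0 ∧
      x * aeval z g = aeval z f := by
    by_cases hb : aeval z b = 0
    · exact ⟨0, 1, by rw [map_one, ν.res_one]; exact one_ne_zero,
        by rw [h2, hb, div_zero, zero_mul, map_zero]⟩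
    obtain ⟨n, hn⟩ := ν.fin (aeval z b)
    refine I0c_frac ν h ((hp π).1 hπ) (fun f hf => ?_) hx n a b hb (le_of_abs_le hn)
      (by rw [h2, div_mul_cancel₀ _ hb])
    obtain ⟨s, s1, s2⟩ := h1 f ((hp f).2 hf)
    obtain ⟨u, hu, v, hv, e'⟩ := Submodule.mem_sup.1 s2
    obtain ⟨c, rfl⟩ := Ideal.mem_span_singleton'.1 hv
    exact ⟨s, c, (hp s).not.1 s1, by
      rw [← map_mul, ← e', map_add, RingHom.mem_ker.1 hu, zero_add, map_mul]⟩
  obtain ⟨F, d, hF, hF'⟩ := homog_many ς ![f, g]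
  refine ⟨F 0, F 1, d, hF 0, hF 1, ?_, ?_⟩
  · rw [e, (hF 1).aeval_scale μ, hF' _ _ r1]
    refine mul_ne_zero (Finset.prod_ne_zero_iff.2 fun i _ => pow_ne_zero _ (hμ i)) ?_
    rwa [(ν.res_aeval h g).2] at h3
  · refine mul_left_cancel₀ (a := d.prod fun i n => (w ⟨i, ς i⟩)⁻¹ ^ n)
      (Finset.prod_ne_zero_iff.2 fun i _ => pow_ne_zero _ (inv_ne_zero (hς i))) ?_
    rw [mul_left_comm, ← sc (hF 0), ← sc (hF 1), hF' _ _ z1, hF' _ _ z1]
    exact h4

theorem exists_nrm {w : P.V → L} (hw : NZ w) (hg : Gen k w) :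
    ∃ (Q : Amb) (u : Q.V → L), NZ u ∧ Nrm k (Amb.elim w u) := by
  obtain ⟨κ, _, y, hy⟩ := I0c_alg hg
  have hu : NZ (P := Amb.one κ) fun s => y s.2 := fun _ => by
    choose ς hς using hw
    obtain ⟨j, hj, -⟩ := hy ς hς
    exact ⟨j, hj⟩
  refine ⟨Amb.one κ, fun s => y s.2, hu, fun ν => ?_⟩
  choose ς hς using hw.rpt ν
  obtain ⟨j, h1, h2, h3⟩ := hy ς fun i => (I0c_chart hw (hς i)).1
  have e : NormA_nv (Amb.elim (Q := Amb.one κ) w fun s => y s.2) (Norm_ch ς j) =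
      Amb.elim (Q := Amb.one κ) (NormA_nv w ς) fun s => y s.2 / y j := by
    funext s
    rcases s with ⟨i | i, s⟩
    · rfl
    · exact (div_eq_inv_mul _ _).symm
  have h4 : ∀ s, 0 ≤ ν (NormA_nv w ς s) := fun s => (I0c_chart hw (hς s.1)).2 s.2
  refine I0c_main (hw.elim hu) (hg.left _) ν (ς := Norm_ch ς j) ?_ ?_ ?_
  · rintro (i | i)
    exacts [(I0c_chart hw (hς i)).1, h1]
  · rw [e]
    rintro ⟨i | i, s⟩
    · exact h4 ⟨i, s⟩
    · refine ν.of_integral (fun x hx => ?_) (h2 s)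
      rw [Algebra.adjoin_range_eq_range_aeval] at hx
      obtain ⟨f, rfl⟩ := hx
      exact (ν.res_aeval h4 f).1
  · rwa [e, Norm_range (NormA_nv w ς) fun s => y s / y j]

end Pool.Agent.Work.MP_ffcd14_ag.Uni
end
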