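import Pool.Agent.Work.MP_ffcd14_ag.Cyc.Fib
import Pool.Agent.Work.MP_ffcd14_ag.Cyc.HI
import Pool.Agent.Work.MP_ffcd14_ag.Uni.I0c

-- merged part: Pool.Agent.Work.MP_ffcd14_ag.Cyc.SqA
section
/-! # Intersection numbers on fibre squares -/

open MvPolynomial Topology TopologicalSpace Filter

namespace Pool.Agent.Work.MP_ffcd14_ag

universe u v w w'

variable {k : Type u} [Field k] [IsAlgClosed k] {K : Type v} [Field K] [CharZero K]
  {P P' P₀ P₁ P₂ Q : Amb} {C : NT.{u, v, w} k K}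

omit [IsAlgClosed k] in
theorem BS_le_HS (X : Var k P') (β : Crd k P P') : BS C X β ≤ HS C X := by
  refine Submodule.span_mono ?_
  rintro _ ⟨i, rfl⟩
  exact ⟨_, rfl⟩

omit [IsAlgClosed k] in
theorem bA_mem_BS (X : Var k P') (β : Crd k P P') (a : P.ι →₀ ℕ) : bA C X β a ∈ BS C X β := by
  induction a using Finsupp.induction_linear with
  | zero => rw [bA, Finsupp.mapDomain_zero, ln_zero]; exact zero_mem _
  | add a b ha hb => rw [bA, Finsupp.mapDomain_add, ln_add]; exact add_mem ha hb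
  | single i n =>
    rw [bA, Finsupp.mapDomain_single, ← Finsupp.smul_single_one, ln_smul, ln_single]
    exact Submodule.smul_mem _ _ (Submodule.subset_span ⟨i, rfl⟩)

omit [IsAlgClosed k] in
theorem bA_mem_AA (X : Var k P') (β : Crd k P P') (a : P.ι →₀ ℕ) : bA C X β a ∈ AA C X 1 :=
  HS_le_AA C X (ln_mem_HS C X _)

omit [IsAlgClosed k] in
theorem pl_BS {Ω : Var k P₂} {X : Var k P₁} (π : Prj Ω X) (β : Crd k P₀ P₁) {u : EE C X}
    (hu : u ∈ BS C X β) : pl C π u ∈ BS C Ω (β.comp π.toCrd) := by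
  induction hu using Submodule.span_induction with
  | mem x hx =>
    obtain ⟨i, rfl⟩ := hx
    rw [pl_hy]
    exact Submodule.subset_span ⟨i, rfl⟩
  | zero => rw [map_zero]; exact zero_mem _
  | add x y _ _ hx hy => rw [map_add]; exact add_mem hx hy
  | smul q x _ hx => rw [map_smul]; exact Submodule.smul_mem _ _ hx

omit [IsAlgClosed k] in
theorem pl_one_BS (X : Var k P₁) (β : Crd k P₀ P₁) (Q : Amb) {u : EE C X} (hu : u ∈ BS C X β) :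
    pl C (Prj.one X Q) u ∈ BS C (X.ext Q) (β.map Q) := by
  refine Submodule.span_mono ?_ (pl_BS (Prj.one X Q) β hu)
  rintro _ ⟨i, rfl⟩
  exact ⟨Sum.inl i, rfl⟩

omit [IsAlgClosed k] in
theorem pl_one_bA (X : Var k P₁) (β : Crd k P₀ P₁) (Q : Amb) (a : P₀.ι →₀ ℕ) :
    pl C (Prj.one X Q) (bA C X β a) = bA C (X.ext Q) (β.map Q) (a.mapDomain Sum.inl) := by
  rw [bA, bA, pl_ln, ← Finsupp.mapDomain_comp]
  exact congrArg _ (Finsupp.mapDomain_comp (v := a) (f := Sum.inl) (g := (β.map Q).ψ))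

omit [IsAlgClosed k] in
theorem pl_map_one {Ω : Var k P'} {X : Var k P} (π : Prj Ω X) (Q : Amb) (z : EE C X) :
    pl C (π.map Q) (pl C (Prj.one X Q) z) = pl C (Prj.one Ω Q) (pl C π z) :=
  (pl_comp C (π.map Q) (Prj.one X Q) (π.comp (Prj.one Ω Q)) (fun _ => rfl) z).symm.trans
    (pl_comp C _ _ (π.comp (Prj.one Ω Q)) (fun _ => rfl) z)

variable (hC : C.Cyc)
include hC

theorem bA_pow_van (X : Var k P') (β : Crd k P P') {Z : Sub k P'}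
    (hZ : (Z : Set (P'.Pt k)) ⊆ X.pts) (a : P.ι →₀ ℕ) {n : ℕ} (h : sdim (β.img Z) < n) :
    cy C X Z * bA C X β a ^ n = 0 := by
  have := cy_van hC X β hZ (List.replicate n a) (by rwa [List.length_replicate])
  rwa [List.map_replicate, HI_lp] at this

theorem BS_van (X : Var k P') (β : Crd k P P') {Z : Sub k P'}
    (hZ : (Z : Set (P'.Pt k)) ⊆ X.pts) (h : sdim (β.img Z) = 0) {u : EE C X} (hu : u ∈ BS C X β) :
    cy C X Z * u = 0 := by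
  induction hu using Submodule.span_induction with
  | mem x hx =>
    obtain ⟨i, rfl⟩ := hx
    have := bA_pow_van hC X β hZ (Finsupp.single i 1) (n := 1) (by omega)
    rwa [pow_one, bA, Finsupp.mapDomain_single, ln_single] at this
  | zero => exact mul_zero _
  | add x y _ _ hx hy => rw [mul_add, hx, hy, add_zero]
  | smul q x _ hx => rw [mul_smul_comm, hx, smul_zero]

theorem k0 {Ω : Var k P'} {X : Var k P} (π : Prj Ω X) {B : Sub k P'} {E : Sub k P}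
    (hi : π.img B = E) {x : EE C Ω} (hx : x ∈ CS C Ω fun U => U ≤ B ∧ sdim U = sdim E) :
    ∃ κ : ℚ, ∀ z, tau C Ω (x * pl C π z) = κ * nm C X E z := by
  induction hx using Submodule.span_induction with
  | mem x hx =>
    obtain ⟨U, hU, ⟨h1, h2⟩, rfl⟩ := hx
    obtain ⟨n, hn, h⟩ := n_push hC π hU
    rcases Nat.eq_zero_or_pos n with rfl | hn'
    · exact ⟨0, fun z => by rw [← nm_apply, h, Nat.cast_zero, zero_mul, zero_mul]⟩
    · have e : π.img U = E := eq_of_sdim_le (hi ▸ π.img_mono h1) (h2.symm.trans (hn.1 hn')).le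
      exact ⟨n, fun z => by rw [← nm_apply, h, e]⟩
  | zero => exact ⟨0, fun z => by rw [zero_mul, map_zero, zero_mul]⟩
  | add x y _ _ hx hy =>
    obtain ⟨κ, hx⟩ := hx
    obtain ⟨κ', hy⟩ := hy
    exact ⟨κ + κ', fun z => by rw [add_mul, map_add, hx, hy, add_mul]⟩
  | smul q x _ hx =>
    obtain ⟨κ, hx⟩ := hx
    exact ⟨q * κ, fun z => by rw [smul_mul_assoc, map_smul, hx, smul_eq_mul, mul_assoc]⟩

theorem fE_pos {Y : Var k P₁} (β : Crd k P₀ P₁) {E : Sub k P₁} (hE : (E : Set (P₁.Pt k)) ⊆ Y.pts)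
    (hd : sdim E = sdim (β.img E) + 1) {a : P₀.ι →₀ ℕ} (ha : ∀ i, 0 < a i) {b : P₁.ι →₀ ℕ}
    (hb : ∀ i, 0 < b i) : 0 < fE C Y β a E (ln C Y b) := by
  have := nm_pos hC Y β (Crd.refl k P₁) hE (fun U _ => by rw [Crd.img_refl]) ha hb
    (sdim (β.img E)) 1 le_rfl hd.symm
  rwa [pow_one, show b.mapDomain (Crd.refl k P₁).ψ = b from Finsupp.mapDomain_id] at this

theorem nm_diag (X : Var k P) (hX : IsIrreducible X.pts) : ∃ n : ℚ, 0 < n ∧ ∀ z z',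
    BB C (Prj.p1 X X) (Prj.p2 X X) ((Crd.diag k P).img (X.top hX)) z z' = n * tau C X (z * z') := by
  obtain ⟨n, hn, h⟩ := n_push hC (Prj.diag X) (Z := X.top hX) subset_rfl
  have h0 : (0 : ℚ) < n := Nat.cast_pos.2 (hn.2 (sdim_img_of_inj (Crd.diag k P)
    fun x _ y _ e => congrArg (Crd.inl k P P).pr e).symm)
  refine ⟨(n : ℚ)⁻¹, inv_pos.2 h0, fun z z' => ?_⟩
  have h1 : pl C (Prj.diag X) (pl C (Prj.p1 X X) z) = z :=
    (pl_comp C _ _ (Prj.refl X) (fun _ => rfl) z).symm.trans (pl_id C _ (fun _ => rfl) z)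
  have h2 : pl C (Prj.diag X) (pl C (Prj.p2 X X) z') = z' :=
    (pl_comp C _ _ (Prj.refl X) (fun _ => rfl) z').symm.trans (pl_id C _ (fun _ => rfl) z')
  have h3 := h (pl C (Prj.p1 X X) z * pl C (Prj.p2 X X) z')
  rw [map_mul, h1, h2, HI_nm_top] at h3
  rw [h3, inv_mul_cancel_left₀ h0.ne']
  rfl

end Pool.Agent.Work.MP_ffcd14_ag
end

-- merged part: Pool.Agent.Work.MP_ffcd14_ag.Cyc.Gp
section
/-! # Cycles in general position: see `Gp0` -/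
end

-- merged part: Pool.Agent.Work.MP_ffcd14_ag.Cyc.SqN
section
/-! # Intersection numbers on fibre squares -/

open MvPolynomial Topology TopologicalSpace Filter

namespace Pool.Agent.Work.MP_ffcd14_ag

universe u v w w'

variable {k : Type u} [Field k] [IsAlgClosed k] {K : Type v} [Field K] [CharZero K]
  {P P' P₀ P₁ P₂ Q : Amb} {C : NT.{u, v, w} k K}

omit [IsAlgClosed k] in
theorem SqN_ev (β : Crd k P₀ P₁) (r : Crd k P₁ P₂) (x : P₂.Pt k) (s : P₀.V) :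
    ev x (X (r.ε (β.ε s)) : MvPolynomial P₂.V k) = rp (β.pr (r.pr x)) s := by
  rw [β.rp_pr, r.rp_pr, ev_X]
  rfl

omit [IsAlgClosed k] in
theorem SqN_form (β : Crd k P₀ P₁) (r : Crd k P₁ P₂) (i : P₀.ι) (s : P₀.σ i) :
    IsForm (X (r.ε (β.ε ⟨i, s⟩)) : MvPolynomial P₂.V k) (Finsupp.single (r.ψ (β.ψ i)) 1) := by
  have h := IsForm.X (k := k) (r.ε (β.ε ⟨i, s⟩))
  rwa [r.fst, β.fst] at h

omit [IsAlgClosed k] in
theorem SqN_nv (β : Crd k P₀ P₁) (r : Crd k P₁ P₂) (i : P₀.ι) (T : Sub k P₂) :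
    ∃ s : P₀.σ i, ¬ Van (T : Set (P₂.Pt k)) (X (r.ε (β.ε ⟨i, s⟩))) := by
  obtain ⟨x, hx⟩ := T.isIrreducible.nonempty
  obtain ⟨s, hs⟩ := Function.ne_iff.mp (β.pr (r.pr x) i).rep_nonzero
  exact ⟨s, fun h => hs ((SqN_ev β r x ⟨i, s⟩).symm.trans (h x hx))⟩

variable (hC : C.Cyc)
include hC

variable {Ω₁ : Var k P₁} {Ω₂ : Var k P₂} {β : Crd k P₀ P₁} {r1 r2 : Prj Ω₂ Ω₁} {E E' : Sub k P₁}
  {B : Sub k P₂} (hB : (B : Set (P₂.Pt k)) ⊆ Ω₂.pts)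
include hB

theorem sq_base (hb : ∀ x ∈ B, β.pr (r1.pr x) = β.pr (r2.pr x)) {u : EE C Ω₁}
    (hu : u ∈ BS C Ω₁ β) : cy C Ω₂ B * pl C r1 u = cy C Ω₂ B * pl C r2 u := by
  induction hu using Submodule.span_induction with
  | mem y hy =>
    obtain ⟨i, rfl⟩ := hy
    obtain ⟨s, m, hs, -, he⟩ := n_ratio hC Ω₂ hB
      (f := fun s : P₀.σ i => X (r1.ε (β.ε ⟨i, s⟩))) (e := fun s => X (r2.ε (β.ε ⟨i, s⟩)))
      (SqN_form β r1.toCrd i) (SqN_form β r2.toCrd i)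
      (fun s t x hx => by
        rw [ev_eq, map_sub, map_mul, map_mul, ← ev_eq, ← ev_eq, ← ev_eq, ← ev_eq, SqN_ev, SqN_ev,
          SqN_ev, SqN_ev, hb x hx]
        ring)
      (SqN_nv β r1.toCrd i B) (fun T _ => SqN_nv β r2.toCrd i T)
    have h0 : s = ∅ := Finset.eq_empty_of_forall_notMem fun T hT => by
      obtain ⟨t, ht⟩ := SqN_nv β r1.toCrd i T
      exact ht (((hs T).1 hT).2.2 t)
    rw [h0, Finset.sum_empty, ln_single, ln_single, mul_sub, sub_eq_zero] at he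
    rw [pl_hy, pl_hy, he]
  | zero => rw [map_zero, map_zero]
  | add y z _ _ hy hz => rw [map_add, map_add, mul_add, mul_add, hy, hz]
  | smul q y _ hy => rw [map_smul, map_smul, mul_smul_comm, mul_smul_comm, hy]

theorem BB_base (hb : ∀ x ∈ B, β.pr (r1.pr x) = β.pr (r2.pr x)) {u : EE C Ω₁}
    (hu : u ∈ BS C Ω₁ β) (z z' : EE C Ω₁) : BB C r1 r2 B (u * z) z' = BB C r1 r2 B z (u * z') := by
  rw [BB_apply, BB_apply, nm_apply, nm_apply, map_mul (pl C r1), map_mul (pl C r2)]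
  congr 1
  calc cy C Ω₂ B * (pl C r1 u * pl C r1 z * pl C r2 z')
      = cy C Ω₂ B * pl C r1 u * (pl C r1 z * pl C r2 z') := by ring
    _ = _ := by rw [sq_base hC hB hb hu]; ring

theorem BB_base_pow (hb : ∀ x ∈ B, β.pr (r1.pr x) = β.pr (r2.pr x)) {u : EE C Ω₁}
    (hu : u ∈ BS C Ω₁ β) (n : ℕ) (z z' : EE C Ω₁) :
    BB C r1 r2 B (u ^ n * z) z' = BB C r1 r2 B z (u ^ n * z') := by
  induction n generalizing z' with
  | zero => rw [pow_zero, one_mul, one_mul]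
  | succ n ih =>
    rw [pow_succ', mul_assoc, BB_base hC hB hb hu, ih]
    congr 1
    ring

theorem BB_one (hd : sdim (r1.img B) < sdim B) (z : EE C Ω₁) : BB C r1 r2 B z 1 = 0 := by
  obtain ⟨n, h1, h2⟩ := n_push hC r1 hB
  have h0 : n = 0 := Nat.eq_zero_of_not_pos fun h => hd.ne' (h1.1 h)
  rw [BB_apply, map_one, mul_one, h2, h0, Nat.cast_zero, zero_mul]

omit hB in
theorem SqN_kappa (h1 : r1.img B = E) {D : EE C Ω₁}
    (hD : cy C Ω₂ B * pl C r2 D ∈ CS C Ω₂ fun U => U ≤ B ∧ sdim U = sdim E) :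
    ∃ κ : ℚ, ∀ z, BB C r1 r2 B z D = κ * nm C Ω₁ E z := by
  obtain ⟨κ, hκ⟩ := k0 hC r1 h1 hD
  refine ⟨κ, fun z => ?_⟩
  rw [← hκ, BB_apply, nm_apply]
  congr 1
  ring

theorem sq_kappa_HS (h1 : r1.img B = E) (hd : sdim B = sdim E + 1) {D : EE C Ω₁}
    (hD : D ∈ HS C Ω₁) : ∃ κ : ℚ, ∀ z, BB C r1 r2 B z D = κ * nm C Ω₁ E z := by
  refine SqN_kappa hC h1 (num2_CS_mono Ω₂ ?_ (cy_mul_HS hC Ω₂ hB (pl_HS C r2 hD)))
  rintro U ⟨hU, h⟩
  exact ⟨hU, by omega⟩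

theorem sq_kappa_AA (hΩ : IsIrreducible Ω₁.pts) (h1 : r1.img B = E) (hd : sdim B = sdim E + 1)
    {D : EE C Ω₁} (hD : D ∈ AA C Ω₁ 1) : ∃ κ : ℚ, ∀ z, BB C r1 r2 B z D = κ * nm C Ω₁ E z := by
  refine SqN_kappa hC h1 (num2_CS_map Ω₁
    (LinearMap.mulLeft ℚ (cy C Ω₂ B) ∘ₗ (pl C r2).toLinearMap) _ ?_
    (genpos hC hΩ r2 (Set.finite_singleton B) (fun _ h => h ▸ hB) hD))
  rintro T hT ⟨hp, hp'⟩
  refine num2_CS_mono Ω₂ ?_ (n_meet hC r2 hB hT fun U h1 h2 => by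
    have := hp' B rfl U h1 h2
    omega)
  rintro U ⟨hU, -, h⟩
  exact ⟨hU, by omega⟩

theorem sq_pos (h : Sq β r1.toCrd r2.toCrd E E' B) (hd : sdim E = sdim (β.img E) + 1)
    {a : P₀.ι →₀ ℕ} (ha : ∀ i, 0 < a i) {b : P₁.ι →₀ ℕ} (hb : ∀ i, 0 < b i) :
    0 < BB C r1 r2 B (bA C Ω₁ β a ^ sdim (β.img E) * ln C Ω₁ b) (ln C Ω₁ b) := by
  have hγ : ∀ U ≤ B, sdim U ≤ sdim ((r1.toCrd.pair r2.toCrd).img U) := fun U hU =>
    (sdim_img_of_inj (r1.toCrd.pair r2.toCrd) fun x hx y hy e => h.inj x (hU hx) y (hU hy)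
      (congrArg (Crd.inl k P₁ P₁).pr e) (congrArg (Crd.inr k P₁ P₁).pr e)).ge
  have hb' : ∀ i : (P₁.sum P₁).ι,
      0 < (b.mapDomain (Crd.inl k P₁ P₁).ψ + b.mapDomain (Crd.inr k P₁ P₁).ψ) i := by
    rintro (i | i)
    · have e : b.mapDomain (Crd.inl k P₁ P₁).ψ (Sum.inl i) = b i :=
        Finsupp.mapDomain_apply Sum.inl_injective b i
      exact Nat.add_pos_left (e ▸ hb i) _
    · have e : b.mapDomain (Crd.inr k P₁ P₁).ψ (Sum.inr i) = b i :=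
        Finsupp.mapDomain_apply Sum.inr_injective b i
      exact Nat.add_pos_right _ (e ▸ hb i)
  have hp := nm_pos hC Ω₂ (β.comp r1.toCrd) (r1.toCrd.pair r2.toCrd) hB hγ ha hb'
    (sdim (β.img E)) 2 (by rw [Crd.img_comp, h.img1]) (by rw [h.dim1, hd])
  have e1 : ln C Ω₂ (a.mapDomain (β.comp r1.toCrd).ψ) = pl C r1 (bA C Ω₁ β a) := by
    rw [bA, pl_ln, ← Finsupp.mapDomain_comp]
    rfl
  have e2 : ln C Ω₂ ((b.mapDomain (Crd.inl k P₁ P₁).ψ + b.mapDomain (Crd.inr k P₁ P₁).ψ).mapDomain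
      (r1.toCrd.pair r2.toCrd).ψ) = pl C r1 (ln C Ω₁ b) + pl C r2 (ln C Ω₁ b) := by
    rw [Finsupp.mapDomain_add, ln_add, pl_ln, pl_ln, ← Finsupp.mapDomain_comp,
      ← Finsupp.mapDomain_comp]
    rfl
  rw [e1, e2] at hp
  have z1 := BB_one (r2 := r2) hC hB (by rw [h.img1, h.dim1]; omega)
    (bA C Ω₁ β a ^ sdim (β.img E) * ln C Ω₁ b * ln C Ω₁ b)
  have z2 := BB_one (r1 := r2) (r2 := r1) hC hB (by rw [h.img2, h.dim2]; omega)
    (bA C Ω₁ β a ^ sdim (β.img E) * (ln C Ω₁ b * ln C Ω₁ b))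
  rw [← BB_swap, ← BB_base_pow hC hB h.base (bA_mem_BS Ω₁ β a)] at z2
  have e3 : nm C Ω₂ B (pl C r1 (bA C Ω₁ β a) ^ sdim (β.img E) *
      (pl C r1 (ln C Ω₁ b) + pl C r2 (ln C Ω₁ b)) ^ 2) =
      BB C r1 r2 B (bA C Ω₁ β a ^ sdim (β.img E) * ln C Ω₁ b * ln C Ω₁ b) 1 +
      BB C r1 r2 B (bA C Ω₁ β a ^ sdim (β.img E) * 1) (ln C Ω₁ b * ln C Ω₁ b) +
      2 * BB C r1 r2 B (bA C Ω₁ β a ^ sdim (β.img E) * ln C Ω₁ b) (ln C Ω₁ b) := by
    simp only [BB_apply, map_mul, map_pow, map_one, two_mul, ← map_add]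
    congr 1
    ring
  rw [e3, z1, z2] at hp
  linarith

theorem BB_ext {B' : Sub k (P₂.sum Q)} (hi : (Crd.inl k P₂ Q).img B' = B)
    (hd : sdim B' = sdim B) : ∃ n : ℚ, 0 < n ∧ ∀ z z', BB C (r1.map Q) (r2.map Q) B'
      (pl C (Prj.one Ω₁ Q) z) (pl C (Prj.one Ω₁ Q) z') = n * BB C r1 r2 B z z' := by
  have hB' : (B' : Set ((P₂.sum Q).Pt k)) ⊆ (Ω₂.ext Q).pts := fun z hz =>
    Var.mem_ext.2 (hB (hi ▸ (Crd.inl k P₂ Q).mem_img hz))
  obtain ⟨n, h1, h2⟩ := n_push hC (Prj.one Ω₂ Q) hB'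
  have hi' : (Prj.one Ω₂ Q).img B' = B := hi
  rw [hi'] at h1 h2
  refine ⟨n, Nat.cast_pos.2 (h1.2 hd), fun z z' => ?_⟩
  rw [BB_apply, BB_apply, pl_map_one, pl_map_one, ← map_mul, h2]

end Pool.Agent.Work.MP_ffcd14_ag
end

-- merged part: Pool.Agent.Work.MP_ffcd14_ag.Cyc.FL1
section
/-! # Push-forward of a class of codimension two to the base -/

open MvPolynomial Topology TopologicalSpace Filter

namespace Pool.Agent.Work.MP_ffcd14_ag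

universe u v w w'

variable {k : Type u} [Field k] [IsAlgClosed k] {K : Type v} [Field K] [CharZero K]
  {P P' P₀ P₁ P₂ Q : Amb} {C : NT.{u, v, w} k K}

omit [IsAlgClosed k] in
theorem FL1_comps {ι : Type*} [Finite ι] (A : ι → Set (P.Pt k)) (hA : ∀ i, IsClosed (A i)) :
    ∃ s : Set (Sub k P), s.Finite ∧ (∀ Z ∈ s, ∃ i, (Z : Set (P.Pt k)) ⊆ A i) ∧
      ∀ i (U : Sub k P), (U : Set (P.Pt k)) ⊆ A i → ∃ Z ∈ s, U ≤ Z ∧ (Z : Set (P.Pt k)) ⊆ A i := by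
  choose s h1 h2 h3 using fun i => exists_comps (hA i)
  refine ⟨⋃ i, s i, Set.finite_iUnion h1, fun Z hZ => ?_, fun i U hU => ?_⟩
  · obtain ⟨i, hi⟩ := Set.mem_iUnion.1 hZ
    exact ⟨i, h2 i Z hi⟩
  · obtain ⟨Z, hZ, hle⟩ := h3 i U hU
    exact ⟨Z, Set.mem_iUnion.2 ⟨i, hZ⟩, hle, h2 i Z hZ⟩

omit [IsAlgClosed k] in
theorem FL1_fin {X : Var k P} {p : Sub k P → Prop} {y : EE C X} (hy : y ∈ CS C X p) :
    ∃ 𝒮 : Set (Sub k P), 𝒮.Finite ∧ (∀ S ∈ 𝒮, p S) ∧ y ∈ CS C X (· ∈ 𝒮) := by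
  induction hy using Submodule.span_induction with
  | mem y hy =>
    obtain ⟨U, h1, h2, rfl⟩ := hy
    exact ⟨{U}, Set.finite_singleton U, fun S hS => hS ▸ h2, num2_cy_mem X h1 rfl⟩
  | zero => exact ⟨∅, Set.finite_empty, fun S hS => hS.elim, Submodule.zero_mem _⟩
  | add x y _ _ hx hy =>
    obtain ⟨s, a1, a2, a3⟩ := hx
    obtain ⟨t, b1, b2, b3⟩ := hy
    exact ⟨s ∪ t, a1.union b1, fun S hS => hS.elim (a2 S) (b2 S), Submodule.add_mem _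
      (num2_CS_mono X (fun _ h => Or.inl h) a3) (num2_CS_mono X (fun _ h => Or.inr h) b3)⟩
  | smul q x _ hx =>
    obtain ⟨s, a1, a2, a3⟩ := hx
    exact ⟨s, a1, a2, Submodule.smul_mem _ q a3⟩

omit [IsAlgClosed k] in
theorem FL1_solve {X : Var k P} {M N : Submodule ℚ (EE C X)} {x γ : EE C X} (hγ : γ ∈ M)
    {s : Finset (Sub k P)} {m : Sub k P → ℚ} (h : x * γ = ∑ T ∈ s, m T • cy C X T) {T : Sub k P}
    (hT : T ∈ s) (hm : 0 < m T) (hN : ∀ T' ∈ s, T' ≠ T → cy C X T' ∈ N) :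
    cy C X T ∈ M.map (LinearMap.mulLeft ℚ x) ⊔ N := by
  classical
  rw [← Finset.add_sum_erase s _ hT] at h
  have e : cy C X T = (m T)⁻¹ • (x * γ - ∑ T' ∈ s.erase T, m T' • cy C X T') := by
    rw [h, add_sub_cancel_right, smul_smul, inv_mul_cancel₀ hm.ne', one_smul]
  rw [e]
  refine Submodule.smul_mem _ _ (Submodule.sub_mem _
    (Submodule.mem_sup_left ⟨γ, hγ, rfl⟩) (Submodule.mem_sup_right ?_))
  exact Submodule.sum_mem _ fun T' hT' => Submodule.smul_mem _ _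
    (hN T' (Finset.mem_of_mem_erase hT') (Finset.ne_of_mem_erase hT'))

variable (hC : C.Cyc)
include hC

theorem FL1_gp {Ω : Var k P'} {X : Var k P} (hX : IsIrreducible X.pts) (ρ : Prj Ω X)
    {ι : Type*} [Finite ι] (A : ι → Set (P'.Pt k)) (hA : ∀ i, IsClosed (A i))
    (hΩ : ∀ i, A i ⊆ Ω.pts) {n : ℕ} {y : EE C X} (hy : y ∈ AA C X n) :
    ∃ 𝒮 : Set (Sub k P), 𝒮.Finite ∧ y ∈ CS C X (· ∈ 𝒮) ∧ ∀ S ∈ 𝒮, sdim S + n = X.dim ∧
      ∀ i (V : Sub k P'), (V : Set (P'.Pt k)) ⊆ A i → ρ.img V ≤ S →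
        ∃ Z : Sub k P', (Z : Set (P'.Pt k)) ⊆ A i ∧ sdim V + n ≤ sdim Z := by
  obtain ⟨s, h1, h2, h3⟩ := FL1_comps A hA
  obtain ⟨𝒮, a1, a2, a3⟩ := FL1_fin (genpos hC hX ρ h1
    (fun Z hZ => (h2 Z hZ).elim fun i hi => hi.trans (hΩ i)) hy)
  refine ⟨𝒮, a1, a3, fun S hS => ⟨(a2 S hS).1, fun i V hV hVS => ?_⟩⟩
  obtain ⟨Z, b1, b2, b3⟩ := h3 i V hV
  exact ⟨Z, b3, (a2 S hS).2 Z b1 V b2 hVS⟩

variable {Ω₁ : Var k P₁} {Ω₂ : Var k P₂} {β : Crd k P₀ P₁} {r1 r2 : Prj Ω₂ Ω₁} {J : Type w'}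
  {c : Sub k P₀} {E : J → Sub k P₁} {B : J → J → Sub k P₂}

/-- The prime divisors of the base over which the class lives. -/
theorem FL1_base [Finite J] {X : Var k P} (hX : IsIrreducible X.pts) (ρ : Prj Ω₁ X)
    (h : Fam β r1 r2 c E B) {𝒩 : Set (Sub k P₀)} (h𝒩 : 𝒩.Finite)
    (hN : ∀ N ∈ 𝒩, sdim N + 2 ≤ sdim c) {hh : J → MvPolynomial P₀.V k} {a : J → P₀.ι →₀ ℕ}
    (hf : ∀ j, IsForm (hh j) (a j)) (hv : ∀ j, ¬ Van (c : Set (P₀.Pt k)) (hh j))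
    {y : EE C X} (hy : y ∈ AA C X 2) :
    ∃ (𝒮 : Set (Sub k P)) (n : ℕ) (𝒞 : Fin n → Sub k P₀), y ∈ CS C X (· ∈ 𝒮) ∧
      (∀ S ∈ 𝒮, sdim S + 2 = X.dim ∧ ∀ j, ∀ V ≤ E j, ρ.img V ≤ S →
        (∃ i, β.img V = 𝒞 i) ∨ sdim (β.img V) + 2 ≤ sdim c) ∧
      (∀ S ∈ 𝒮, ∀ j, ∀ V ≤ E j, ρ.img V ≤ S → sdim V + 1 ≤ sdim c ∧
        ∀ N ∈ 𝒩, β.img V ≤ N → sdim V + 3 ≤ sdim c) ∧
      ∀ i, 𝒞 i ≤ c ∧ sdim (𝒞 i) + 1 = sdim c ∧
        (∀ N ∈ 𝒩, ∀ b ≤ 𝒞 i, b ≤ N → sdim b + 3 ≤ sdim c) ∧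
        ∀ j, ¬ Van (𝒞 i : Set (P₀.Pt k)) (hh j) := by
  have := h𝒩.to_subtype
  let D : Option (𝒩 ⊕ J) → Set (P₀.Pt k) := fun o => o.elim Set.univ
    (Sum.elim (fun N => (N.1 : Set (P₀.Pt k))) fun j => {x | ev x (hh j) = 0})
  have hD : ∀ o, IsClosed (D o) := by
    rintro (_ | N | j)
    · exact isClosed_univ
    · exact N.1.isClosed
    · exact isClosed_zero (hf j)
  obtain ⟨𝒮, s1, s2, s3⟩ := FL1_gp hC hX ρ
    (fun p : J × Option (𝒩 ⊕ J) => (E p.1 : Set (P₁.Pt k)) ∩ β.pr ⁻¹' D p.2)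
    (fun p => (E p.1).isClosed.inter ((hD p.2).preimage β.continuous))
    (fun p => Set.inter_subset_left.trans (h.sub1 p.1)) hy
  have g : ∀ S ∈ 𝒮, ∀ j o, ∀ V ≤ E j, (β.img V : Set (P₀.Pt k)) ⊆ D o → ρ.img V ≤ S →
      ∃ Z ≤ E j, (β.img Z : Set (P₀.Pt k)) ⊆ D o ∧ sdim V + 2 ≤ sdim Z := by
    intro S hS j o V h1 h2 h3
    obtain ⟨Z, a1, a2⟩ := (s3 S hS).2 (j, o) V (fun x hx => ⟨h1 hx, h2 (β.mem_img hx)⟩) h3
    exact ⟨Z, fun x hx => (a1 hx).1, (β.img_sub (hD o)).2 fun x hx => (a1 hx).2, a2⟩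
  have := s1.to_subtype
  obtain ⟨𝒱, v1, v2, v3⟩ := FL1_comps
    (fun p : J × 𝒮 => (E p.1 : Set (P₁.Pt k)) ∩ ρ.pr ⁻¹' (p.2.1 : Set (P.Pt k)))
    (fun p => (E p.1).isClosed.inter (p.2.1.isClosed.preimage ρ.continuous))
  have v4 : ∀ (V : Sub k P₁) j (S : Sub k P), (V : Set (P₁.Pt k)) ⊆
      (E j : Set (P₁.Pt k)) ∩ ρ.pr ⁻¹' (S : Set (P.Pt k)) → V ≤ E j ∧ ρ.img V ≤ S :=
    fun V j S hV => ⟨fun x hx => (hV hx).1, (ρ.img_sub S.isClosed).2 fun x hx => (hV hx).2⟩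
  obtain ⟨n, 𝒞, -, hr⟩ := ((v1.image β.img).subset
    (t := {b ∈ β.img '' 𝒱 | sdim b + 1 = sdim c}) fun _ hb => hb.1).fin_param
  refine ⟨𝒮, n, 𝒞, s2, fun S hS => ⟨(s3 S hS).1, fun j V h1 h2 => ?_⟩,
    fun S hS j V h1 h2 => ⟨?_, fun N hN' h3 => ?_⟩, fun i => ?_⟩
  rotate_left
  · obtain ⟨Z, b1, -, b2⟩ := g S hS j none V h1 (Set.subset_univ _) h2
    have c1 := sdim_mono b1
    have c2 := h.dim j
    omega
  · obtain ⟨Z, d1, d2, d3⟩ := g S hS j (some (Sum.inl ⟨N, hN'⟩)) V h1 h3 h2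
    have e1 := (h.fib j).le d1
    have e2 : sdim (β.img Z) ≤ sdim N := sdim_mono d2
    have e3 := hN N hN'
    omega
  rotate_left
  · obtain ⟨V', a1, a2, a3⟩ := v3 (j, ⟨S, hS⟩) V fun x hx => ⟨h1 hx, h2 (ρ.mem_img hx)⟩
    obtain ⟨a4, a5⟩ := v4 V' j S a3
    obtain ⟨Z, b1, -, b2⟩ := g S hS j none V' a4 (Set.subset_univ _) a5
    have c1 := sdim_mono b1
    have c2 := h.dim j
    have c3 := β.sdim_img_le V'
    have c4 := sdim_mono (β.img_mono a2)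
    by_cases c5 : sdim (β.img V) + 1 = sdim c
    · have c6 : β.img V = β.img V' := eq_of_sdim_le (β.img_mono a2) (by omega)
      have : β.img V ∈ Set.range 𝒞 := by
        rw [hr]
        exact ⟨⟨V', a1, c6.symm⟩, c5⟩
      exact Or.inl (this.imp fun i hi => hi.symm)
    · exact Or.inr (by omega)
  · have : 𝒞 i ∈ {b ∈ β.img '' 𝒱 | sdim b + 1 = sdim c} := hr ▸ Set.mem_range_self i
    obtain ⟨⟨V, a1, a2⟩, a3⟩ := this
    obtain ⟨⟨j, S, hS⟩, a4⟩ := v2 V a1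
    obtain ⟨a5, a6⟩ := v4 V j S a4
    refine ⟨a2 ▸ h.img j ▸ β.img_mono a5, a3, fun N hN' b b1 b2 => ?_, fun j' hj => ?_⟩
    · obtain ⟨V', c1, c2⟩ := β.exists_over' (a2 ▸ b1 : b ≤ β.img V)
      obtain ⟨Z, d1, d2, d3⟩ := g S hS j (some (Sum.inl ⟨N, hN'⟩)) V' (c1.trans a5)
        (c2 ▸ b2) ((ρ.img_mono c1).trans a6)
      have e1 := (h.fib j).le d1
      have e2 : sdim (β.img Z) ≤ sdim N := sdim_mono d2
      have e3 := hN N hN'
      have e4 := β.sdim_img_le V'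
      rw [c2] at e4
      omega
    · obtain ⟨Z, d1, d2, d3⟩ := g S hS j (some (Sum.inr j')) V a5 (a2 ▸ hj) a6
      have e1 : sdim Z < sdim (E j) := sdim_lt (lt_of_le_of_ne d1 fun e => hv j' (by
        rw [e, h.img j] at d2
        exact d2))
      have e2 := h.dim j
      have e3 := β.sdim_img_le V
      rw [a2] at e3
      omega

theorem fl1 [Finite J] {X : Var k P} (hX : IsIrreducible X.pts) (ρ : Prj Ω₁ X)
    (h : Fam β r1 r2 c E B) (hR : R1 c) (hc3 : sdim c ≤ 3) {y : EE C X} (hy : y ∈ AA C X 2) :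
    ∃ (Q : Amb) (c' : Sub k (P₀.sum Q)) (E' : J → Sub k (P₁.sum Q))
      (B' : J → J → Sub k (P₂.sum Q)), Fam (β.map Q) (r1.map Q) (r2.map Q) c' E' B' ∧
      sdim c' = sdim c ∧ (∀ j, (Crd.inl k P₁ Q).img (E' j) = E j) ∧
      (∀ j j', (Crd.inl k P₂ Q).img (B' j j') = B j j') ∧
      ∀ j j', ∃ γ ∈ BS C (Ω₁.ext Q) (β.map Q), ∃ e ∈ CS C (Ω₁.ext Q) fun T => T ≤ E' j ∧
        sdim T = sdim c ∧ sdim (β.img ((Crd.inl k P₁ Q).img T)) + 3 ≤ sdim c, ∀ z,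
          BB C (r1.map Q) (r2.map Q) (B' j j') z (pl C (Prj.one Ω₁ Q) (pl C ρ y)) =
            nm C (Ω₁.ext Q) (E' j) (z * γ) + tau C (Ω₁.ext Q) (e * z) := by
  obtain ⟨𝒩, n1, n2, n3⟩ := hR
  choose hh a u1 u2 u3 using h.uq
  obtain ⟨𝒮, n, 𝒞, s1, s2, s4, s3⟩ := FL1_base hC hX ρ h n1 n2 u1 (fun j => h.img j ▸ u2 j) hy
  choose κ fκ g d hg using fun i => exists_cuts (𝒞 i : Set (P₀.Pt k))
  let Q : Amb := { ι := Fin n, σ := κ }
  let F : Q.V → MvPolynomial P₀.V k := fun s => g s.1 s.2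
  have hF : ∀ s : Q.V, IsForm (F s) (d s.1) := fun s => (hg s.1).form s.2
  have hle : ∀ i (b : Sub k P₀), (∀ s, Van (b : Set (P₀.Pt k)) (g i s)) → b ≤ 𝒞 i :=
    fun i b hb x hx => (hg i).mem (𝒞 i).isClosed fun s => hb s x hx
  have hd : DefOn (c : Set (P₀.Pt k)) F := fun i => by
    by_contra e
    push Not at e
    have := sdim_mono (hle i c e)
    have := (s3 i).2.1
    omega
  obtain ⟨c', E', B', hfam, hc', -, hdim, hE, hB⟩ := h.ext hF hd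
  refine ⟨Q, c', E', B', hfam, hdim, fun j => (hE j).1, hB, fun j j' => ?_⟩
  have reg : ∀ s ∈ c, ((∀ N ∈ 𝒩, s ∉ N) ∨ ∀ i, s ∉ 𝒞 i) → RegAt (β.img (E j)) F s := by
    intro s hs h1 i
    rw [h.img j]
    exact lpg (s3 i).1 (s3 i).2.1 (hg i) hs (h1.imp (n3 s hs) fun h2 => h2 i)
  have gr := fun s hs T hT hsT => graph_reg β hF (h.img j ▸ hd) (hE j).1 (hE j).2 (s := s) hs
    (T := T) hT hsT
  have hin : ∀ T ≤ E' j, (Crd.inl k P₁ Q).img T ≤ E j := fun T hT =>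
    (hE j).1 ▸ (Crd.inl k P₁ Q).img_mono hT
  have keyA : ∀ T ≤ E' j, sdim T = sdim c → sdim (β.img ((Crd.inl k P₁ Q).img T)) + 2 ≤ sdim c →
      sdim (β.img ((Crd.inl k P₁ Q).img T)) + 3 ≤ sdim c := by
    intro T hT h1 h2
    have hb : β.img ((Crd.inl k P₁ Q).img T) ≤ c := h.img j ▸ β.img_mono (hin T hT)
    have no : ∀ s ∈ β.img ((Crd.inl k P₁ Q).img T),
        ¬ ((∀ N ∈ 𝒩, s ∉ N) ∨ ∀ i, s ∉ 𝒞 i) := fun s hs h3 => by
      have e1 := (gr s (reg s (hb hs) h3) T hT hs).1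
      have e2 := (h.fib j).le (hin T hT)
      omega
    by_contra e
    by_cases h4 : ∀ N ∈ 𝒩, ¬ β.img ((Crd.inl k P₁ Q).img T) ≤ N
    · obtain ⟨s, a1, a2⟩ := exists_pt_avoid _ n1 h4
      exact no s a1 (Or.inl a2)
    · push Not at h4
      obtain ⟨N, hN, h5⟩ := h4
      obtain ⟨s, a1, a2⟩ := exists_pt_avoid (β.img ((Crd.inl k P₁ Q).img T))
        (Set.finite_range 𝒞) (by
          rintro _ ⟨i, rfl⟩ h6
          exact e ((s3 i).2.2.1 N hN _ h6 h5))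
      exact no s a1 (Or.inr fun i => a2 _ ⟨i, rfl⟩)
  have keyB : ∀ i, ∀ T ≤ E' j, ∀ T' ≤ E' j, sdim T = sdim c → sdim T' = sdim c →
      β.img ((Crd.inl k P₁ Q).img T) = 𝒞 i → β.img ((Crd.inl k P₁ Q).img T') = 𝒞 i → T' = T := by
    intro i T hT T' hT' h1 h1' h2 h2'
    have e0 := (s3 i).2.1
    obtain ⟨s, a1, a2⟩ := exists_pt_avoid (𝒞 i) n1 fun N hN h3 => by
      have := sdim_mono h3
      have := n2 N hN
      omega
    have r := reg s ((s3 i).1 a1) (Or.inl a2)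
    obtain ⟨e1, e2⟩ := gr s r T hT (h2 ▸ a1)
    have e3 := (gr s r T' hT' (h2' ▸ a1)).1
    exact e2 T' hT' (u3 j _ (hin T' hT') _ (hin T hT) (h2'.trans h2.symm) (h2' ▸ (s3 i).2.2.2 j)
      (by rw [h2']; omega) (by rw [h2]; omega))
  have dE : sdim (E' j) = sdim c + 1 := by rw [hfam.dim j, hdim]
  set N := CS C (Ω₁.ext Q) fun T => T ≤ E' j ∧
    sdim T = sdim c ∧ sdim (β.img ((Crd.inl k P₁ Q).img T)) + 3 ≤ sdim c with hNdef
  set W := (BS C (Ω₁.ext Q) (β.map Q)).map (LinearMap.mulLeft ℚ (cy C (Ω₁.ext Q) (E' j))) ⊔ N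
    with hW
  have keyN : ∀ T ≤ E' j, sdim T = sdim c → sdim (β.img ((Crd.inl k P₁ Q).img T)) + 2 ≤ sdim c →
      cy C (Ω₁.ext Q) T ∈ N := fun T hT h1 h2 =>
    num2_cy_mem _ (num2_sub hT (hfam.sub1 j)) ⟨hT, h1, keyA T hT h1 h2⟩
  have keyW : ∀ T ≤ E' j, sdim T = sdim c → ((∃ i, β.img ((Crd.inl k P₁ Q).img T) = 𝒞 i) ∨
      sdim (β.img ((Crd.inl k P₁ Q).img T)) + 2 ≤ sdim c) → cy C (Ω₁.ext Q) T ∈ W := by
    rintro T hT h1 (⟨i, hi⟩ | h2)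
    swap
    · exact Submodule.mem_sup_right (keyN T hT h1 h2)
    have hv : ∀ (U : Sub k (P₁.sum Q)) s, Van (U : Set ((P₁.sum Q).Pt k))
        (rename (Crd.inl k P₁ Q).ε (rename β.ε (g i s))) ↔
        Van (β.img ((Crd.inl k P₁ Q).img U) : Set (P₀.Pt k)) (g i s) := fun U s => by
      rw [β.van_img ((hg i).form s), (Crd.inl k P₁ Q).van_img (β.form ((hg i).form s))]
    obtain ⟨s, m, m1, m2, m3⟩ := n_ratio hC (Ω₁.ext Q) (hfam.sub1 j)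
      (f := fun s => rename (Crd.inl k P₁ Q).ε (rename β.ε (g i s)))
      (e := fun s => MvPolynomial.X ((Crd.inr k P₁ Q).ε ⟨i, s⟩))
      (fun s => (Crd.inl k P₁ Q).form (β.form ((hg i).form s)))
      (b := Finsupp.single (Sum.inr i) 1) (fun s => IsForm.X _) (fun s t => (hE j).2 i s t)
      ((hd i).imp fun s hs e => hs (by
        rw [hv, (hE j).1, h.img j] at e
        exact e))
      (fun U _ => by
        obtain ⟨x, hx⟩ := U.isIrreducible.nonempty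
        obtain ⟨s, hs⟩ := Function.ne_iff.1 (x (Sum.inr i)).rep_nonzero
        exact ⟨s, fun e => hs (by
          have := e x hx
          rw [ev_X] at this
          exact this)⟩)
    refine FL1_solve (Submodule.sub_mem _ ?_ ?_) m3 ?_ (m2 T ?_) fun T' hT' hne => ?_
    · have := bA_mem_BS (C := C) (Ω₁.ext Q) (β.map Q) ((d i).mapDomain (Crd.inl k P₀ Q).ψ)
      rw [bA, ← Finsupp.mapDomain_comp] at this
      rw [← Finsupp.mapDomain_comp]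
      exact this
    · exact (ln_single C (Ω₁.ext Q) (Sum.inr i)).symm ▸ Submodule.subset_span ⟨Sum.inr i, rfl⟩
    · exact (m1 T).2 ⟨hT, by omega, fun t => (hv T t).2 (hi ▸ (hg i).van t)⟩
    · exact (m1 T).2 ⟨hT, by omega, fun t => (hv T t).2 (hi ▸ (hg i).van t)⟩
    · obtain ⟨a1, a2, a3⟩ := (m1 T').1 hT'
      have a4 := hle i _ fun t => (hv T' t).1 (a3 t)
      have a5 := sdim_lt (lt_of_le_of_ne a4 fun e =>
        hne (keyB i T hT T' a1 h1 (by omega) hi e))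
      have a6 := (s3 i).2.1
      exact keyN T' a1 (by omega) (by omega)
  let M : Submodule ℚ (EE C (Ω₂.ext Q)) :=
    { carrier := {w | ∃ x ∈ W, ∀ z, tau C (Ω₂.ext Q) (w * pl C (r1.map Q) z) =
        tau C (Ω₁.ext Q) (x * z)}
      add_mem' := by
        rintro _ _ ⟨x, hx, e⟩ ⟨x', hx', e'⟩
        exact ⟨x + x', W.add_mem hx hx', fun z => by rw [add_mul, add_mul, map_add, map_add, e, e']⟩
      zero_mem' := ⟨0, W.zero_mem, fun z => by simp⟩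
      smul_mem' := by
        rintro q _ ⟨x, hx, e⟩
        exact ⟨q • x, W.smul_mem q hx, fun z => by
          rw [smul_mul_assoc, smul_mul_assoc, map_smul, map_smul, e]⟩ }
  let π : Prj (Ω₂.ext Q) X := (ρ.comp (Prj.one Ω₁ Q)).comp (r2.map Q)
  have hπ : pl C π y = pl C (r2.map Q) (pl C (Prj.one Ω₁ Q) (pl C ρ y)) := by
    rw [pl_comp C (r2.map Q) (ρ.comp (Prj.one Ω₁ Q)) π (fun _ => rfl),
      pl_comp C (Prj.one Ω₁ Q) ρ (ρ.comp (Prj.one Ω₁ Q)) fun _ => rfl]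
  have sq := hfam.sq j j'
  have prop : ∀ S ∈ 𝒮, ∀ V ≤ E' j', ρ.img ((Crd.inl k P₁ Q).img V) ≤ S →
      sdim V + 1 ≤ sdim c := by
    intro S hS V h1 h2
    have h3 : (Crd.inl k P₁ Q).img V ≤ E j' := (hE j').1 ▸ (Crd.inl k P₁ Q).img_mono h1
    obtain ⟨a1, a2⟩ := s4 S hS j' _ h3 h2
    by_cases h4 : ∀ N ∈ 𝒩, ¬ β.img ((Crd.inl k P₁ Q).img V) ≤ N
    · obtain ⟨s, b1, b2⟩ := exists_pt_avoid _ n1 h4
      have b3 : s ∈ c := (h.img j' ▸ β.img_mono h3 : _ ≤ c) b1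
      have := (graph_reg β hF (h.img j' ▸ hd) (hE j').1 (hE j').2 (s := s) (fun i => by
        rw [h.img j']
        exact lpg (s3 i).1 (s3 i).2.1 (hg i) b3 (Or.inl (n3 s b3 b2))) h1 b1).1
      omega
    · push Not at h4
      obtain ⟨N, hN, h5⟩ := h4
      have b1 := a2 N hN h5
      have b2 : ∀ x ∈ V, (Crd.inl k P₁ Q).img V = {(Crd.inl k P₁ Q).pr x} := fun x hx =>
        eq_pt_of_sdim (by omega) ((Crd.inl k P₁ Q).mem_img hx)
      have b3 := sdim_img_of_inj (β.map Q) (U := V) fun x hx y hy e => sum_ext (by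
        have := (Crd.inl k P₁ Q).mem_img hx
        rw [b2 y hy] at this
        exact this) (congrArg (Crd.inr k P₀ Q).pr e)
      have b4 : (β.map Q).img V < c' := lt_of_le_of_ne (hfam.img j' ▸ (β.map Q).img_mono h1)
        fun e => by
          have := β.sdim_img_le ((Crd.inl k P₁ Q).img V)
          rw [← Ext_inl_img, e, hc'] at this
          omega
      have := sdim_lt b4
      omega
  have main : cy C (Ω₂.ext Q) (B' j j') * pl C π y ∈ M := by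
    refine num2_CS_map X (LinearMap.mulLeft ℚ (cy C (Ω₂.ext Q) (B' j j')) ∘ₗ
      (pl C π).toLinearMap) M (fun S hS hS' => ?_) s1
    refine num2_CS_map (Ω₂.ext Q) LinearMap.id M (fun U hU ⟨a1, a2, a3⟩ => ?_)
      (n_meet hC π (hfam.sub2 j j') hS fun U h1 h2 => by
        have c1 := prop S hS' _ (sq.img2 ▸ (r2.map Q).img_mono h1) (by
          rw [← Crd.img_comp, ← Crd.img_comp]
          exact h2)
        have c2 : sdim U ≤ sdim ((r2.map Q).img U) + 1 := (sq.symm.fib1 (hfam.fib j)).le h1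
        have c3 := sq.dim1
        have c4 := (s2 S hS').1
        omega)
    obtain ⟨q, q1, q2⟩ := n_push hC (r1.map Q) hU
    rcases q.eq_zero_or_pos with rfl | hq
    · exact ⟨0, W.zero_mem, fun z => by simpa [nm_apply] using q2 z⟩
    refine ⟨(q : ℚ) • cy C (Ω₁.ext Q) ((r1.map Q).img U), W.smul_mem _ ?_, fun z => by
      rw [smul_mul_assoc, map_smul, smul_eq_mul]
      exact q2 z⟩
    have b1 := q1.1 hq
    have b2 := sq.dim1
    have b3 := (s2 S hS').1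
    have b4 : β.img ((Crd.inl k P₁ Q).img ((r1.map Q).img U)) =
        β.img ((Crd.inl k P₁ Q).img ((r2.map Q).img U)) := by
      rw [← Crd.img_comp, ← Crd.img_comp, ← Crd.img_comp, ← Crd.img_comp]
      exact Crd.img_congr _ _ fun x hx => congrArg (Crd.inl k P₀ Q).pr (sq.base x (a1 hx))
    refine keyW _ (sq.img1 ▸ (r1.map Q).img_mono a1) (by omega) ?_
    rw [b4]
    refine (s2 S hS').2 j' _ ((hE j').1 ▸ sq.img2 ▸
      (Crd.inl k P₁ Q).img_mono ((r2.map Q).img_mono a1)) ?_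
    rw [← Crd.img_comp, ← Crd.img_comp]
    exact a2
  obtain ⟨x, hx, e⟩ := main
  obtain ⟨_, ⟨γ, hγ, rfl⟩, e', he', rfl⟩ := Submodule.mem_sup.1 hx
  refine ⟨γ, hγ, e', he', fun z => ?_⟩
  rw [BB_apply, nm_apply, nm_apply, ← hπ, mul_comm (pl C (r1.map Q) z), ← mul_assoc, e,
    add_mul, map_add, LinearMap.mulLeft_apply, mul_comm z, mul_assoc]

end Pool.Agent.Work.MP_ffcd14_ag
end

-- merged part: Pool.Agent.Work.MP_ffcd14_ag.Uni.Fa
section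
/-! # The push-forward of a class of codimension two on models, for one pair of families

This is `fl1` (Cyc/FL1.lean) for one pair `E₁`, `E₂` with fibre square `B`, with weaker hypotheses
and with the graph data as output. Copy the proofs of `FL1_base` (only `E₂` and one form `hh` are
needed) and of `fl1`; put `E₁' = (r1.map Q).img B'`, `E₂' = (r2.map Q).img B'`,
`c' = (β₁.map Q).img E₁'`; their graph properties come from `Ext_graph_img`, `Ext_inl_img`,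
`Ext_graph_congr`, their dimensions from `OnGraph.sdim_eq`, `Ext_defOn`. `Fib1 (r2.map Q) B'` follows
from `Fib1 r2 B` (on a subvariety where `r2.map Q` is constant the first projection is injective,
`sdim_img_of_inj`). -/

open MvPolynomial Topology TopologicalSpace Filter

namespace Pool.Agent.Work.MP_ffcd14_ag.Uni

universe u v w

variable {k : Type u} [Field k] {K : Type v} [Field K] [CharZero K]
  {P P₀ P₁ P₂ P₃ : Amb} {C : NT.{u, v, w} k K}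

/-- Over a general prime divisor of the base there is only one prime divisor of `E`. -/
def UQ1 (β : Crd k P₀ P₁) (E : Sub k P₁) : Prop :=
  ∃ h a, IsForm h a ∧ ¬ Van (β.img E : Set (P₀.Pt k)) h ∧
    ∀ T ≤ E, ∀ T' ≤ E, β.img T = β.img T' → ¬ Van (β.img T : Set (P₀.Pt k)) h →
      (∃ s ∈ β.img T, SmAt (β.img E) s) → sdim T + 1 = sdim E → sdim T' + 1 = sdim E →
      sdim (β.img T) + 2 = sdim E → T = T'

/-- The prime divisors of the base over which the class lives. -/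
theorem Fa_base [IsAlgClosed k] (hC : C.Cyc) {X : Var k P} (hX : IsIrreducible X.pts)
    {Ω : Var k P₁} (ρ : Prj Ω X) (β : Crd k P₀ P₁) {c : Sub k P₀} {E : Sub k P₁}
    (hE : (E : Set (P₁.Pt k)) ⊆ Ω.pts) (hi : β.img E = c) (hdim : sdim E = sdim c + 1)
    (hfib : Fib1 β E) {𝒩 : Set (Sub k P₀)} (h𝒩 : 𝒩.Finite)
    (hN : ∀ N ∈ 𝒩, sdim N + 2 ≤ sdim c) {hh : MvPolynomial P₀.V k} {a : P₀.ι →₀ ℕ}
    (hf : IsForm hh a) (hv : ¬ Van (c : Set (P₀.Pt k)) hh)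
    {y : EE C X} (hy : y ∈ AA C X 2) :
    ∃ (𝒮 : Set (Sub k P)) (n : ℕ) (𝒞 : Fin n → Sub k P₀), y ∈ CS C X (· ∈ 𝒮) ∧
      (∀ S ∈ 𝒮, sdim S + 2 = X.dim ∧ ∀ V ≤ E, ρ.img V ≤ S →
        (∃ i, β.img V = 𝒞 i) ∨ sdim (β.img V) + 2 ≤ sdim c) ∧
      (∀ S ∈ 𝒮, ∀ V ≤ E, ρ.img V ≤ S → sdim V + 1 ≤ sdim c ∧
        ∀ N ∈ 𝒩, β.img V ≤ N → sdim V + 3 ≤ sdim c) ∧
      ∀ i, 𝒞 i ≤ c ∧ sdim (𝒞 i) + 1 = sdim c ∧
        (∀ N ∈ 𝒩, ∀ b ≤ 𝒞 i, b ≤ N → sdim b + 3 ≤ sdim c) ∧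
        ¬ Van (𝒞 i : Set (P₀.Pt k)) hh := by
  have := h𝒩.to_subtype
  let D : Option (Option 𝒩) → Set (P₀.Pt k) := fun o => o.elim Set.univ
    fun o' => o'.elim {x | ev x hh = 0} fun N => (N.1 : Set (P₀.Pt k))
  have hD : ∀ o, IsClosed (D o) := by
    rintro (_ | _ | N)
    · exact isClosed_univ
    · exact isClosed_zero hf
    · exact N.1.isClosed
  obtain ⟨𝒮, s1, s2, s3⟩ := FL1_gp hC hX ρ
    (fun o : Option (Option 𝒩) => (E : Set (P₁.Pt k)) ∩ β.pr ⁻¹' D o)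
    (fun o => E.isClosed.inter ((hD o).preimage β.continuous))
    (fun _ => Set.inter_subset_left.trans hE) hy
  have g : ∀ S ∈ 𝒮, ∀ o, ∀ V ≤ E, (β.img V : Set (P₀.Pt k)) ⊆ D o → ρ.img V ≤ S →
      ∃ Z ≤ E, (β.img Z : Set (P₀.Pt k)) ⊆ D o ∧ sdim V + 2 ≤ sdim Z := by
    intro S hS o V h1 h2 h3
    obtain ⟨Z, a1, a2⟩ := (s3 S hS).2 o V (fun x hx => ⟨h1 hx, h2 (β.mem_img hx)⟩) h3
    exact ⟨Z, fun x hx => (a1 hx).1, (β.img_sub (hD o)).2 fun x hx => (a1 hx).2, a2⟩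
  have := s1.to_subtype
  obtain ⟨𝒱, v1, v2, v3⟩ := FL1_comps
    (fun p : 𝒮 => (E : Set (P₁.Pt k)) ∩ ρ.pr ⁻¹' (p.1 : Set (P.Pt k)))
    (fun p => E.isClosed.inter (p.1.isClosed.preimage ρ.continuous))
  have v4 : ∀ (V : Sub k P₁) (S : Sub k P), (V : Set (P₁.Pt k)) ⊆
      (E : Set (P₁.Pt k)) ∩ ρ.pr ⁻¹' (S : Set (P.Pt k)) → V ≤ E ∧ ρ.img V ≤ S :=
    fun V S hV => ⟨fun x hx => (hV hx).1, (ρ.img_sub S.isClosed).2 fun x hx => (hV hx).2⟩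
  obtain ⟨n, 𝒞, -, hr⟩ := ((v1.image β.img).subset
    (t := {b ∈ β.img '' 𝒱 | sdim b + 1 = sdim c}) fun _ hb => hb.1).fin_param
  refine ⟨𝒮, n, 𝒞, s2, fun S hS => ⟨(s3 S hS).1, fun V h1 h2 => ?_⟩,
    fun S hS V h1 h2 => ⟨?_, fun N hN' h3 => ?_⟩, fun i => ?_⟩
  rotate_left
  · obtain ⟨Z, b1, -, b2⟩ := g S hS none V h1 (Set.subset_univ _) h2
    have c1 := sdim_mono b1
    omega
  · obtain ⟨Z, d1, d2, d3⟩ := g S hS (some (some ⟨N, hN'⟩)) V h1 h3 h2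
    have e1 := hfib.le d1
    have e2 : sdim (β.img Z) ≤ sdim N := sdim_mono d2
    have e3 := hN N hN'
    omega
  rotate_left
  · obtain ⟨V', a1, a2, a3⟩ := v3 ⟨S, hS⟩ V fun x hx => ⟨h1 hx, h2 (ρ.mem_img hx)⟩
    obtain ⟨a4, a5⟩ := v4 V' S a3
    obtain ⟨Z, b1, -, b2⟩ := g S hS none V' a4 (Set.subset_univ _) a5
    have c1 := sdim_mono b1
    have c3 := β.sdim_img_le V'
    have c4 := sdim_mono (β.img_mono a2)
    by_cases c5 : sdim (β.img V) + 1 = sdim c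
    · have c6 : β.img V = β.img V' := eq_of_sdim_le (β.img_mono a2) (by omega)
      have : β.img V ∈ Set.range 𝒞 := by
        rw [hr]
        exact ⟨⟨V', a1, c6.symm⟩, c5⟩
      exact Or.inl (this.imp fun i hi => hi.symm)
    · exact Or.inr (by omega)
  · have : 𝒞 i ∈ {b ∈ β.img '' 𝒱 | sdim b + 1 = sdim c} := hr ▸ Set.mem_range_self i
    obtain ⟨⟨V, a1, a2⟩, a3⟩ := this
    obtain ⟨⟨S, hS⟩, a4⟩ := v2 V a1
    obtain ⟨a5, a6⟩ := v4 V S a4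
    refine ⟨a2 ▸ hi ▸ β.img_mono a5, a3, fun N hN' b b1 b2 => ?_, fun hj => ?_⟩
    · obtain ⟨V', c1, c2⟩ := β.exists_over' (a2 ▸ b1 : b ≤ β.img V)
      obtain ⟨Z, d1, d2, d3⟩ := g S hS (some (some ⟨N, hN'⟩)) V' (c1.trans a5)
        (c2 ▸ b2) ((ρ.img_mono c1).trans a6)
      have e1 := hfib.le d1
      have e2 : sdim (β.img Z) ≤ sdim N := sdim_mono d2
      have e3 := hN N hN'
      have e4 := β.sdim_img_le V'
      rw [c2] at e4
      omega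
    · obtain ⟨Z, d1, d2, d3⟩ := g S hS (some none) V a5 (a2 ▸ hj) a6
      have e1 : sdim Z < sdim E := sdim_lt (lt_of_le_of_ne d1 fun e => hv (by
        rw [e, hi] at d2
        exact d2))
      have e3 := β.sdim_img_le V
      rw [a2] at e3
      omega

theorem Fa_fib [IsAlgClosed k] {Q : Amb} {β : Crd k P₀ P₁} {E : Sub k P₁} {E' : Sub k (P₁.sum Q)}
    (h : Fib1 β E) (hE : (Crd.inl k P₁ Q).img E' = E) : Fib1 (β.map Q) E' := by
  intro T hT hC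
  rw [← sdim_img_of_inj (Crd.inl k P₁ Q) (U := T) fun x hx y hy h1 =>
    sum_ext h1 (congrArg (Crd.inr k P₀ Q).pr (hC x hx y hy))]
  refine h _ (by rw [← hE]; exact Crd.img_mono _ hT) fun x hx y hy => ?_
  obtain ⟨x', hx', rfl⟩ := (Crd.mem_img_iff _).1 hx
  obtain ⟨y', hy', rfl⟩ := (Crd.mem_img_iff _).1 hy
  exact congrArg (Crd.inl k P₀ Q).pr (hC x' hx' y' hy')

theorem Fa_geo [IsAlgClosed k] (hC : C.Cyc) {X : Var k P} (hX : IsIrreducible X.pts)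
    {Ω₁ : Var k P₁} {Ω₂ : Var k P₂} {Ω₃ : Var k P₃} (β₁ : Crd k P₀ P₁) (β₃ : Crd k P₀ P₃)
    (r1 : Prj Ω₂ Ω₁) (r2 : Prj Ω₂ Ω₃) (ρ : Prj Ω₃ X)
    (hb : ∀ x, β₁.pr (r1.pr x) = β₃.pr (r2.pr x)) {c : Sub k P₀} {E₁ : Sub k P₁} {E₂ : Sub k P₃}
    {B : Sub k P₂} (hB : (B : Set (P₂.Pt k)) ⊆ Ω₂.pts) (i1 : r1.img B = E₁) (i2 : r2.img B = E₂)
    (i0 : β₁.img E₁ = c) (d1 : sdim E₁ = sdim c + 1) (d2 : sdim E₂ = sdim c + 1)
    (dB : sdim B = sdim c + 2) (f1 : Fib1 β₁ E₁) (f2 : Fib1 β₃ E₂) (fB : Fib1 r2.toCrd B)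
    (uq : UQ1 β₁ E₁) (hR : R1 c) (hc3 : sdim c ≤ 3) {y : EE C X} (hy : y ∈ AA C X 2) :
    ∃ (Q : Amb) (G : Q.V → MvPolynomial P₀.V k) (d : Q.ι → P₀.ι →₀ ℕ),
      (∀ s, IsForm (G s) (d s.1)) ∧ DefOn (c : Set (P₀.Pt k)) G ∧
      ∀ B' : Sub k (P₂.sum Q), (Crd.inl k P₂ Q).img B' = B →
        OnGraph (B' : Set ((P₂.sum Q).Pt k)) (fun s => rename r1.ε (rename β₁.ε (G s))) →
        ∃ γ ∈ BS C (Ω₁.ext Q) (β₁.map Q), ∃ e ∈ CS C (Ω₁.ext Q) fun T =>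
          (Crd.inl k P₁ Q).img T ≤ E₁ ∧ sdim (β₁.img ((Crd.inl k P₁ Q).img T)) + 3 ≤ sdim c, ∀ z,
          nm C (Ω₂.ext Q) B' (pl C (r1.map Q) z *
            pl C ((ρ.comp r2).comp (Prj.one Ω₂ Q)) y) =
            nm C (Ω₁.ext Q) ((r1.map Q).img B') (z * γ) + tau C (Ω₁.ext Q) (e * z) := by
  obtain ⟨𝒩, n1, n2, n3⟩ := hR
  obtain ⟨hh, a, u1, u2, u3⟩ := uq
  rw [i0] at u2 u3
  have hbi : ∀ U : Sub k P₂, β₁.img (r1.img U) = β₃.img (r2.img U) := fun U => by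
    rw [← Crd.img_comp, ← Crd.img_comp]
    exact Crd.img_congr _ _ fun x _ => hb x
  have i3 : β₃.img E₂ = c := by rw [← i2, ← hbi, i1, i0]
  have hE₂ : (E₂ : Set (P₃.Pt k)) ⊆ Ω₃.pts :=
    i2 ▸ (r2.img_sub Ω₃.closed).2 fun x hx => r2.maps x (hB hx)
  obtain ⟨𝒮, n, 𝒞, s1, s2, s4, s3⟩ := Fa_base hC hX ρ β₃ hE₂ i3 d2 f2 n1 n2 u1 u2 hy
  choose κ fκ g d hg using fun i => exists_cuts (𝒞 i : Set (P₀.Pt k))
  let Q : Amb := { ι := Fin n, σ := κ }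
  let F : Q.V → MvPolynomial P₀.V k := fun s => g s.1 s.2
  have hF : ∀ s : Q.V, IsForm (F s) (d s.1) := fun s => (hg s.1).form s.2
  have hle : ∀ i (b : Sub k P₀), (∀ s, Van (b : Set (P₀.Pt k)) (g i s)) → b ≤ 𝒞 i :=
    fun i b hb x hx => (hg i).mem (𝒞 i).isClosed fun s => hb s x hx
  have hd : DefOn (c : Set (P₀.Pt k)) F := fun i => by
    by_contra e
    push Not at e
    have := sdim_mono (hle i c e)
    have := (s3 i).2.1
    omega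
  refine ⟨Q, F, d, hF, hd, fun B' iB gB => ?_⟩
  have hF1 : ∀ s : Q.V, IsForm (rename β₁.ε (F s)) ((d s.1).mapDomain β₁.ψ) :=
    fun s => β₁.form (hF s)
  have hF3 : ∀ s : Q.V, IsForm (rename β₃.ε (F s)) ((d s.1).mapDomain β₃.ψ) :=
    fun s => β₃.form (hF s)
  have hF2 : ∀ s : Q.V, IsForm (rename r1.ε (rename β₁.ε (F s)))
      (((d s.1).mapDomain β₁.ψ).mapDomain r1.ψ) := fun s => r1.toCrd.form (hF1 s)
  have hd1 : DefOn (E₁ : Set (P₁.Pt k)) fun s => rename β₁.ε (F s) :=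
    Ext_defOn β₁ hF (by rw [i0]; exact hd)
  have hd2 : DefOn (B : Set (P₂.Pt k)) fun s => rename r1.ε (rename β₁.ε (F s)) :=
    Ext_defOn r1.toCrd (b := fun j => (d j).mapDomain β₁.ψ) hF1 (by rw [i1]; exact hd1)
  have sB : (B' : Set ((P₂.sum Q).Pt k)) ⊆ (Ω₂.ext Q).pts := fun x hx =>
    Var.mem_ext.2 (hB (by rw [← iB]; exact Crd.mem_img _ hx))
  have dB' : sdim B' = sdim c + 2 := by
    rw [OnGraph.sdim_eq (P := P₂) (Q := Q) (T := B')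
      (F := fun s => rename r1.ε (rename β₁.ε (F s)))
      (b := fun j => ((d j).mapDomain β₁.ψ).mapDomain r1.ψ) hF2
      (by rw [iB]; exact hd2) gB, iB, dB]
  have fB' : Fib1 (r2.map Q).toCrd B' := Fa_fib fB iB
  obtain ⟨E', q1⟩ : ∃ E', (r1.map Q).img B' = E' := ⟨_, rfl⟩
  obtain ⟨E'', q2⟩ : ∃ E'', (r2.map Q).img B' = E'' := ⟨_, rfl⟩
  have iE : (Crd.inl k P₁ Q).img E' = E₁ := by
    rw [← q1, ← i1, ← iB]
    exact Ext_inl_img r1.toCrd B'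
  have iE' : (Crd.inl k P₃ Q).img E'' = E₂ := by
    rw [← q2, ← i2, ← iB]
    exact Ext_inl_img r2.toCrd B'
  have gE : OnGraph (E' : Set ((P₁.sum Q).Pt k)) fun s => rename β₁.ε (F s) :=
    q1 ▸ Ext_graph_img r1.toCrd (b := fun j => (d j).mapDomain β₁.ψ) hF1 gB
  have gE' : OnGraph (E'' : Set ((P₃.sum Q).Pt k)) fun s => rename β₃.ε (F s) :=
    q2 ▸ Ext_graph_img r2.toCrd (b := fun j => (d j).mapDomain β₃.ψ) hF3
      (Ext_graph_congr gB fun x _ s => by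
        rw [r1.toCrd.ev_rename, r2.toCrd.ev_rename, β₁.ev_rename, β₃.ev_rename, hb])
  have sE : (E' : Set ((P₁.sum Q).Pt k)) ⊆ (Ω₁.ext Q).pts :=
    q1 ▸ ((r1.map Q).img_sub (Ω₁.ext Q).closed).2 fun x hx => (r1.map Q).maps x (sB hx)
  have dE : sdim E' = sdim c + 1 := by
    rw [gE.sdim_eq (b := fun j => (d j).mapDomain β₁.ψ) hF1 (by rw [iE]; exact hd1), iE, d1]
  have hc' : (Crd.inl k P₀ Q).img ((β₃.map Q).img E'') = c := by rw [Ext_inl_img, iE', i3]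
  have hdim : sdim ((β₃.map Q).img E'') = sdim c := by
    rw [(Ext_graph_img β₃ hF gE').sdim_eq hF (by rw [hc']; exact hd), hc']
  rw [q1]
  have reg : ∀ s ∈ c, ((∀ N ∈ 𝒩, s ∉ N) ∨ ∀ i, s ∉ 𝒞 i) → RegAt c F s := fun s hs h1 i =>
    lpg (s3 i).1 (s3 i).2.1 (hg i) hs (h1.imp (n3 s hs) fun h2 => h2 i)
  have gr := fun s (hs : RegAt c F s) T hT hsT =>
    graph_reg β₁ hF (i0 ▸ hd) iE gE (s := s) (i0 ▸ hs) (T := T) hT hsT
  have hin : ∀ T ≤ E', (Crd.inl k P₁ Q).img T ≤ E₁ := fun T hT =>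
    iE ▸ (Crd.inl k P₁ Q).img_mono hT
  have keyA : ∀ T ≤ E', sdim T = sdim c → sdim (β₁.img ((Crd.inl k P₁ Q).img T)) + 2 ≤ sdim c →
      sdim (β₁.img ((Crd.inl k P₁ Q).img T)) + 3 ≤ sdim c := by
    intro T hT h1 h2
    have hb : β₁.img ((Crd.inl k P₁ Q).img T) ≤ c := i0 ▸ β₁.img_mono (hin T hT)
    have no : ∀ s ∈ β₁.img ((Crd.inl k P₁ Q).img T),
        ¬ ((∀ N ∈ 𝒩, s ∉ N) ∨ ∀ i, s ∉ 𝒞 i) := fun s hs h3 => by
      have e1 := (gr s (reg s (hb hs) h3) T hT hs).1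
      have e2 := f1.le (hin T hT)
      omega
    by_contra e
    by_cases h4 : ∀ N ∈ 𝒩, ¬ β₁.img ((Crd.inl k P₁ Q).img T) ≤ N
    · obtain ⟨s, a1, a2⟩ := exists_pt_avoid _ n1 h4
      exact no s a1 (Or.inl a2)
    · push Not at h4
      obtain ⟨N, hN, h5⟩ := h4
      obtain ⟨s, a1, a2⟩ := exists_pt_avoid (β₁.img ((Crd.inl k P₁ Q).img T))
        (Set.finite_range 𝒞) (by
          rintro _ ⟨i, rfl⟩ h6
          exact e ((s3 i).2.2.1 N hN _ h6 h5))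
      exact no s a1 (Or.inr fun i => a2 _ ⟨i, rfl⟩)
  have keyB : ∀ i, ∀ T ≤ E', ∀ T' ≤ E', sdim T = sdim c → sdim T' = sdim c →
      β₁.img ((Crd.inl k P₁ Q).img T) = 𝒞 i → β₁.img ((Crd.inl k P₁ Q).img T') = 𝒞 i →
      T' = T := by
    intro i T hT T' hT' h1 h1' h2 h2'
    have e0 := (s3 i).2.1
    obtain ⟨s, a1, a2⟩ := exists_pt_avoid (𝒞 i) n1 fun N hN h3 => by
      have := sdim_mono h3
      have := n2 N hN
      omega
    have r := reg s ((s3 i).1 a1) (Or.inl a2)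
    obtain ⟨e1, e2⟩ := gr s r T hT (h2 ▸ a1)
    have e3 := (gr s r T' hT' (h2' ▸ a1)).1
    exact e2 T' hT' (u3 _ (hin T' hT') _ (hin T hT) (h2'.trans h2.symm) (h2' ▸ (s3 i).2.2.2)
      ⟨s, h2' ▸ a1, n3 s ((s3 i).1 a1) a2⟩ (by omega) (by omega) (by rw [h2']; omega))
  set N := CS C (Ω₁.ext Q) fun T => (Crd.inl k P₁ Q).img T ≤ E₁ ∧
    sdim (β₁.img ((Crd.inl k P₁ Q).img T)) + 3 ≤ sdim c with hNdef
  set W := (BS C (Ω₁.ext Q) (β₁.map Q)).map (LinearMap.mulLeft ℚ (cy C (Ω₁.ext Q) E')) ⊔ N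
    with hW
  have keyN : ∀ T ≤ E', sdim T = sdim c → sdim (β₁.img ((Crd.inl k P₁ Q).img T)) + 2 ≤ sdim c →
      cy C (Ω₁.ext Q) T ∈ N := fun T hT h1 h2 =>
    num2_cy_mem _ (num2_sub hT sE) ⟨hin T hT, keyA T hT h1 h2⟩
  have keyW : ∀ T ≤ E', sdim T = sdim c → ((∃ i, β₁.img ((Crd.inl k P₁ Q).img T) = 𝒞 i) ∨
      sdim (β₁.img ((Crd.inl k P₁ Q).img T)) + 2 ≤ sdim c) → cy C (Ω₁.ext Q) T ∈ W := by
    rintro T hT h1 (⟨i, hi⟩ | h2)
    swap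
    · exact Submodule.mem_sup_right (keyN T hT h1 h2)
    have hv : ∀ (U : Sub k (P₁.sum Q)) s, Van (U : Set ((P₁.sum Q).Pt k))
        (rename (Crd.inl k P₁ Q).ε (rename β₁.ε (g i s))) ↔
        Van (β₁.img ((Crd.inl k P₁ Q).img U) : Set (P₀.Pt k)) (g i s) := fun U s => by
      rw [β₁.van_img ((hg i).form s), (Crd.inl k P₁ Q).van_img (β₁.form ((hg i).form s))]
    obtain ⟨s, m, m1, m2, m3⟩ := n_ratio hC (Ω₁.ext Q) sE
      (f := fun s => rename (Crd.inl k P₁ Q).ε (rename β₁.ε (g i s)))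
      (e := fun s => MvPolynomial.X ((Crd.inr k P₁ Q).ε ⟨i, s⟩))
      (fun s => (Crd.inl k P₁ Q).form (β₁.form ((hg i).form s)))
      (b := Finsupp.single (Sum.inr i) 1) (fun s => IsForm.X _) (fun s t => gE i s t)
      ((hd i).imp fun s hs e => hs (by
        rw [hv, iE, i0] at e
        exact e))
      (fun U _ => by
        obtain ⟨x, hx⟩ := U.isIrreducible.nonempty
        obtain ⟨s, hs⟩ := Function.ne_iff.1 (x (Sum.inr i)).rep_nonzero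
        exact ⟨s, fun e => hs (by
          have := e x hx
          rw [ev_X] at this
          exact this)⟩)
    refine FL1_solve (Submodule.sub_mem _ ?_ ?_) m3 ?_ (m2 T ?_) fun T' hT' hne => ?_
    · have := bA_mem_BS (C := C) (Ω₁.ext Q) (β₁.map Q) ((d i).mapDomain (Crd.inl k P₀ Q).ψ)
      rw [bA, ← Finsupp.mapDomain_comp] at this
      rw [← Finsupp.mapDomain_comp]
      exact this
    · exact (ln_single C (Ω₁.ext Q) (Sum.inr i)).symm ▸ Submodule.subset_span ⟨Sum.inr i, rfl⟩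
    · exact (m1 T).2 ⟨hT, by omega, fun t => (hv T t).2 (hi ▸ (hg i).van t)⟩
    · exact (m1 T).2 ⟨hT, by omega, fun t => (hv T t).2 (hi ▸ (hg i).van t)⟩
    · obtain ⟨a1, a2, a3⟩ := (m1 T').1 hT'
      have a4 := hle i _ fun t => (hv T' t).1 (a3 t)
      have a5 := sdim_lt (lt_of_le_of_ne a4 fun e =>
        hne (keyB i T hT T' a1 h1 (by omega) hi e))
      have a6 := (s3 i).2.1
      exact keyN T' a1 (by omega) (by omega)
  let M : Submodule ℚ (EE C (Ω₂.ext Q)) :=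
    { carrier := {w | ∃ x ∈ W, ∀ z, tau C (Ω₂.ext Q) (w * pl C (r1.map Q) z) =
        tau C (Ω₁.ext Q) (x * z)}
      add_mem' := by
        rintro _ _ ⟨x, hx, e⟩ ⟨x', hx', e'⟩
        exact ⟨x + x', W.add_mem hx hx', fun z => by rw [add_mul, add_mul, map_add, map_add, e, e']⟩
      zero_mem' := ⟨0, W.zero_mem, fun z => by simp⟩
      smul_mem' := by
        rintro q _ ⟨x, hx, e⟩
        exact ⟨q • x, W.smul_mem q hx, fun z => by
          rw [smul_mul_assoc, smul_mul_assoc, map_smul, map_smul, e]⟩ }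
  let π : Prj (Ω₂.ext Q) X := (ρ.comp r2).comp (Prj.one Ω₂ Q)
  have hπ : ∀ U : Sub k (P₂.sum Q),
      ρ.img ((Crd.inl k P₃ Q).img ((r2.map Q).img U)) = π.img U := fun U => by
    rw [← Crd.img_comp, ← Crd.img_comp]
    exact Crd.img_congr _ _ fun _ _ => rfl
  have prop : ∀ S ∈ 𝒮, ∀ V ≤ E'', ρ.img ((Crd.inl k P₃ Q).img V) ≤ S →
      sdim V + 1 ≤ sdim c := by
    intro S hS V h1 h2
    have h3 : (Crd.inl k P₃ Q).img V ≤ E₂ := iE' ▸ (Crd.inl k P₃ Q).img_mono h1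
    obtain ⟨a1, a2⟩ := s4 S hS _ h3 h2
    by_cases h4 : ∀ N ∈ 𝒩, ¬ β₃.img ((Crd.inl k P₃ Q).img V) ≤ N
    · obtain ⟨s, b1, b2⟩ := exists_pt_avoid _ n1 h4
      have b3 : s ∈ c := (i3 ▸ β₃.img_mono h3 : _ ≤ c) b1
      have := (graph_reg β₃ hF (i3 ▸ hd) iE' gE' (s := s) (i3 ▸ reg s b3 (Or.inl b2)) h1 b1).1
      omega
    · push Not at h4
      obtain ⟨N, hN, h5⟩ := h4
      have b1 := a2 N hN h5
      have b2 : ∀ x ∈ V, (Crd.inl k P₃ Q).img V = {(Crd.inl k P₃ Q).pr x} := fun x hx =>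
        eq_pt_of_sdim (by omega) ((Crd.inl k P₃ Q).mem_img hx)
      have b3 := sdim_img_of_inj (β₃.map Q) (U := V) fun x hx y hy e => sum_ext (by
        have := (Crd.inl k P₃ Q).mem_img hx
        rw [b2 y hy] at this
        exact this) (congrArg (Crd.inr k P₀ Q).pr e)
      have b4 : (β₃.map Q).img V < (β₃.map Q).img E'' := lt_of_le_of_ne ((β₃.map Q).img_mono h1)
        fun e => by
          have := β₃.sdim_img_le ((Crd.inl k P₃ Q).img V)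
          rw [← Ext_inl_img, e, hc'] at this
          omega
      have := sdim_lt b4
      omega
  have main : cy C (Ω₂.ext Q) B' * pl C π y ∈ M := by
    refine num2_CS_map X (LinearMap.mulLeft ℚ (cy C (Ω₂.ext Q) B') ∘ₗ
      (pl C π).toLinearMap) M (fun S hS hS' => ?_) s1
    refine num2_CS_map (Ω₂.ext Q) LinearMap.id M (fun U hU ⟨a1, a2, a3⟩ => ?_)
      (n_meet hC π sB hS fun U h1 h2 => by
        have c1 := prop S hS' _ (q2 ▸ (r2.map Q).img_mono h1) (by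
          rw [hπ]
          exact h2)
        have c2 : sdim U ≤ sdim ((r2.map Q).img U) + 1 := fB'.le h1
        have c4 := (s2 S hS').1
        omega)
    obtain ⟨q, p1, p2⟩ := n_push hC (r1.map Q) hU
    rcases q.eq_zero_or_pos with rfl | hq
    · exact ⟨0, W.zero_mem, fun z => by simpa [nm_apply] using p2 z⟩
    refine ⟨(q : ℚ) • cy C (Ω₁.ext Q) ((r1.map Q).img U), W.smul_mem _ ?_, fun z => by
      rw [smul_mul_assoc, map_smul, smul_eq_mul]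
      exact p2 z⟩
    have b1 := p1.1 hq
    have b3 := (s2 S hS').1
    have b4 : β₁.img ((Crd.inl k P₁ Q).img ((r1.map Q).img U)) =
        β₃.img ((Crd.inl k P₃ Q).img ((r2.map Q).img U)) := by
      rw [← Crd.img_comp, ← Crd.img_comp, ← Crd.img_comp, ← Crd.img_comp]
      exact Crd.img_congr _ _ fun x _ => hb ((Crd.inl k P₂ Q).pr x)
    refine keyW _ (q1 ▸ (r1.map Q).img_mono a1) (by omega) ?_
    rw [b4]
    refine (s2 S hS').2 _ (iE' ▸ q2 ▸ (Crd.inl k P₃ Q).img_mono ((r2.map Q).img_mono a1)) ?_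
    rw [hπ]
    exact a2
  obtain ⟨x, hx, e⟩ := main
  obtain ⟨_, ⟨γ, hγ, rfl⟩, e', he', rfl⟩ := Submodule.mem_sup.1 hx
  refine ⟨γ, hγ, e', he', fun z => ?_⟩
  rw [nm_apply, nm_apply, mul_comm (pl C (r1.map Q) z), ← mul_assoc, e,
    add_mul, map_add, LinearMap.mulLeft_apply, mul_comm z, mul_assoc]

end Pool.Agent.Work.MP_ffcd14_ag.Uni
end
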