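import Pool.Agent.Work.MP_ffcd14_ag.Uni.B2a
import Pool.Agent.Work.MP_ffcd14_ag.Uni.B0
import Pool.Agent.Work.MP_ffcd14_ag.Uni.T2
import Pool.Agent.Work.MP_ffcd14_ag.Uni.Fa
import Pool.Agent.Work.MP_ffcd14_ag.Uni.I0c

-- merged part: Pool.Agent.Work.MP_ffcd14_ag.Uni.I3
section
/-! # Fibre degrees -/

open MvPolynomial

namespace Pool.Agent.Work.MP_ffcd14_ag.Uni

universe u v w

variable {k F L : Type u} [Field k] [Field F] [Field L] [Algebra k F] [Algebra k L]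
  {K : Type v} [Field K] [CharZero K] {P : Amb} (C : NT.{u, v, w} k K)

/-- `r` has degree `d` on the generic fibre of `L` over `F`. -/
structure FDeg (ι : F →ₐ[k] L) (r : N k L) (d : ℚ) : Prop where
  jj : ∀ g, JJ C L (r * pb ι g) = d * JJ C F g
  ii : ∀ {P : Amb} (Ω : Var k P) (w : P.V → F), NZ w → ∀ (ω : EE C Ω) (g : N k F),
    II C Ω (ι ∘ w) ω (r * pb ι g) = d * II C Ω w ω g

variable {C}

theorem FDeg.add {ι : F →ₐ[k] L} {r r' : N k L} {d d' : ℚ} (h : FDeg C ι r d)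
    (h' : FDeg C ι r' d') : FDeg C ι (r + r') (d + d') := by
  refine ⟨fun g => ?_, fun Ω w hw ω g => ?_⟩
  · rw [add_mul, map_add, h.jj, h'.jj, add_mul]
  · rw [add_mul, map_add, h.ii Ω w hw, h'.ii Ω w hw, add_mul]

theorem FDeg.smul {ι : F →ₐ[k] L} {r : N k L} {d : ℚ} (h : FDeg C ι r d) (q : ℚ) :
    FDeg C ι (q • r) (q * d) := by
  refine ⟨fun g => ?_, fun Ω w hw ω g => ?_⟩
  · rw [smul_mul_assoc, map_smul, h.jj, smul_eq_mul, mul_assoc]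
  · rw [smul_mul_assoc, map_smul, h.ii Ω w hw, smul_eq_mul, mul_assoc]

theorem FDeg.sum {ι : F →ₐ[k] L} {α : Type*} (s : Finset α) {r : α → N k L} {d : α → ℚ}
    (h : ∀ a ∈ s, FDeg C ι (r a) (d a)) : FDeg C ι (∑ a ∈ s, r a) (∑ a ∈ s, d a) := by
  classical
  induction s using Finset.induction_on with
  | empty => exact ⟨fun g => by simp, fun Ω w hw ω g => by simp⟩
  | insert a s ha ih =>
    rw [Finset.sum_insert ha, Finset.sum_insert ha]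
    exact (h a (Finset.mem_insert_self a s)).add (ih fun b hb => h b (Finset.mem_insert_of_mem hb))

theorem I3_of_ii {ι : F →ₐ[k] L} {r : N k L} {d : ℚ}
    (h : ∀ {P : Amb} (Ω : Var k P) (w : P.V → F), NZ w → ∀ (ω : EE C Ω) (g : N k F),
      II C Ω (ι ∘ w) ω (r * pb ι g) = d * II C Ω w ω g) : FDeg C ι r d := by
  refine ⟨fun g => ?_, h⟩
  have := h (Var.full k nil) (fun s => s.1.elim) (fun i => i.elim) 1 g
  rwa [show (ι ∘ fun s : nil.V => s.1.elim) = fun s => s.1.elim from funext fun s => s.1.elim]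
    at this

theorem I3_pow {B B' : Type*} [CommRing B] [CommRing B'] [Algebra ℚ B] [Algebra ℚ B']
    (φ : B →ₐ[ℚ] B') {S : Submodule ℚ B} {S' : Submodule ℚ B'} (h : ∀ x ∈ S, φ x ∈ S') {m : ℕ}
    {g : B} (hg : g ∈ S ^ m) : φ g ∈ S' ^ m :=
  pow_le_pow_left' (Submodule.map_le_iff_le_comap.2 h) m
    (Submodule.map_pow S φ m ▸ Submodule.mem_map_of_mem hg)

theorem I3_dat {m : ℕ} {g : N k F} (hg : g ∈ N1 k F ^ m) : ∃ A : FD k F, g ∈ Dat A ^ m := by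
  induction hg using Submodule.pow_induction_on_left' with
  | algebraMap r => exact ⟨1, Submodule.algebraMap_mem r⟩
  | add x y i _ _ hx hy =>
    obtain ⟨A, hA⟩ := hx
    obtain ⟨A', hA'⟩ := hy
    exact ⟨A * A', add_mem (pow_le_pow_left' (Dat_mono (dvd_mul_right A A')) i hA)
      (pow_le_pow_left' (Dat_mono (dvd_mul_left A' A)) i hA')⟩
  | mem_mul x hx i y _ hy =>
    obtain ⟨A, hA⟩ := exists_dat hx
    obtain ⟨A', hA'⟩ := hy
    refine ⟨A * A', ?_⟩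
    rw [pow_succ']
    exact Submodule.mul_mem_mul (Dat_mono (dvd_mul_right A A') hA)
      (pow_le_pow_left' (Dat_mono (dvd_mul_left A' A)) i hA')

variable [IsAlgClosed k] [Fg k F] [Fg k L] (hC : C.Chow)
include hC

theorem FDeg.unique {ι : F →ₐ[k] L} {r : N k L} {d d' : ℚ} (h : FDeg C ι r d)
    (h' : FDeg C ι r d') : d = d' := by
  obtain ⟨G, hG⟩ := exists_gen_fd (k := k) (L := F)
  exact mul_right_cancel₀ (JJ_pos1 hC (rn_gen hG)).ne' ((h.jj _).symm.trans (h'.jj _))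

theorem I3_main (ι : F →ₐ[k] L) (h : td k L = td k F + 1) : ∃ n : Dv k L → ℚ,
    (∀ (ν : Dv k L) (h0 : Tv ι ν.toVl), Function.Bijective h0.tmap → n ν = 1) ∧
    ∀ (D : DD k L) (s : Finset (Dv k L)), (∀ ν ∉ s, Tv ι ν.toVl → ν.vq D = 0) →
      FDeg C ι (cl D) (∑ ν ∈ s, ν.vq D * n ν) := by
  have h1 : ∀ ν : Dv k L, ∃ n : ℚ, (∀ h0 : Tv ι ν.toVl, Function.Bijective h0.tmap → n = 1) ∧
      (¬ Tv ι ν.toVl → n = 0) ∧ ∀ {P : Amb} (Ω : Var k P) (w : P.V → F), NZ w →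
        ∀ (ω : EE C Ω) (g : N k F),
          II C Ω (rpt ν (ι ∘ w)) ω (ν.rs (pb ι g)) = n * II C Ω w ω g := by
    intro ν
    have hd : td k F = td k ν.κ := by have := ν.dim; omega
    by_cases h0 : Tv ι ν.toVl
    · obtain ⟨n, -, h2, -, h3⟩ := II_push hC h0.tmap hd
      refine ⟨n, fun _ hb => by rw [h2 hb, Nat.cast_one], fun h4 => (h4 h0).elim,
        fun Ω w hw ω g => ?_⟩
      rw [rpt_tv h0, rs_pb_tv h0, h3 Ω w hw]
    · refine ⟨0, fun h4 => (h0 h4).elim, fun _ => rfl, fun Ω w hw ω g => ?_⟩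
      rw [zero_mul]
      refine II_van1 hC Ω ((hw.map ι).rpt ν) ?_ ω (rs_adjoin ν (pb_adjoin ι g))
      rw [Set.union_eq_right.2 ((rat_rpt (hw.map ι) ν).trans (Set.image_mono
        (rat_map ι w ▸ Set.image_subset_range _ _))), ← hd]
      exact rn_res_range ν h0
  choose n h2 h3 h4 using h1
  refine ⟨n, h2, fun D s hs => I3_of_ii fun Ω w hw ω g => ?_⟩
  by_cases hΩ : OnS Ω.pts w
  swap
  · rw [II_off hC Ω hw hΩ, II_off hC Ω (hw.map ι) fun h5 => hΩ ⟨hw, fun f a hf hT => ?_⟩]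
    · simp
    · rw [← map_eq_zero_iff ι ι.injective, ← AlgHom.comp_apply, comp_aeval]
      exact h5.van f a hf hT
  rw [II_cyc hC Ω (hΩ.map ι) ω D _ s, Finset.sum_mul]
  · exact Finset.sum_congr rfl fun ν _ => by rw [h4 ν Ω w hw, mul_assoc]
  · intro ν hν
    by_cases h0 : Tv ι ν.toVl
    · rw [hs ν hν h0, zero_mul]
    · rw [h4 ν Ω w hw, h3 ν h0, zero_mul, mul_zero]

theorem exists_fdeg (ι : F →ₐ[k] L) (h : td k L = td k F + 1) {r : N k L} (hr : r ∈ N1 k L) :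
    ∃ d, FDeg C ι r d := by
  obtain ⟨D, rfl⟩ := hr
  obtain ⟨n, -, hn⟩ := I3_main hC ι h
  obtain ⟨G, hG⟩ := exists_gen_fd (k := k) (L := F)
  refine ⟨_, hn D (fin_dv D (FD.map ι G)).toFinset fun ν h1 h2 => ?_⟩
  by_contra h3
  refine h1 ((Set.Finite.mem_toFinset _).2 ⟨h3, ?_⟩)
  rw [Res_map_tv h2, rt_map, rn_image, rn_gen hG, h]

theorem fdeg_vert (ι : F →ₐ[k] L) (h : td k L = td k F + 1) {D : DD k L}
    (hD : ∀ ν : Dv k L, Tv ι ν.toVl → ν.vq D = 0) : FDeg C ι (cl D) 0 := by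
  obtain ⟨n, -, hn⟩ := I3_main hC ι h
  exact hn D ∅ fun ν _ => hD ν

theorem fdeg_pb (ι : F →ₐ[k] L) (h : td k L = td k F + 1) {g : N k F} (hg : g ∈ N1 k F) :
    FDeg C ι (pb ι g) 0 := by
  obtain ⟨D, rfl⟩ := hg
  rw [pb_cl]
  exact fdeg_vert hC ι h fun ν h0 => vq_pD_tv h0 D

/-- Fubini. -/
theorem fdeg_one {ι : F →ₐ[k] L} {t : L} (h : Simp ι t) (g : DD k F) :
    FDeg C ι (-cl (vD k t ⊓ pD ι g)) 1 := by
  obtain ⟨n, h1, hn⟩ := I3_main hC ι h.td_eq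
  obtain ⟨ν, h0, h2, h3, h4⟩ := h.place
  have h5 : ∀ μ : Dv k L, Tv ι μ.toVl →
      μ.vq (vD k t - vD k t ⊓ pD ι g) = μ.z t - min (μ.z t : ℚ) 0 := fun μ hμ => by
    rw [map_sub, μ.vq_inf, μ.vq_vD, vq_pD_tv hμ]
  have h6 := hn (vD k t - vD k t ⊓ pD ι g) {ν} fun μ hμ hμ' => by
    rw [h5 μ hμ', min_eq_left, sub_self]
    by_contra h7
    refine hμ (Finset.mem_singleton.2 (h4 μ hμ' ?_))
    rw [← μ.z_cast]
    exact_mod_cast not_le.1 h7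
  have h7 : ν.z t = 1 := by
    rw [← ν.z_cast] at h2
    exact_mod_cast h2
  rw [Finset.sum_singleton, h5 ν h0, h1 ν h0 h3, h7, map_sub, cl_vD, zero_sub] at h6
  simpa using h6

theorem FDeg.nonneg {ι : F →ₐ[k] L} {r : N k L} {d : ℚ} (h : FDeg C ι r d) (hr : Nef r) :
    0 ≤ d := by
  obtain ⟨G, hG⟩ := exists_gen_fd (k := k) (L := F)
  have h1 := JJ_nonneg hC (r :: List.replicate (td k F) (pb ι (hh G))) (by
    simp only [List.mem_cons, List.mem_replicate]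
    rintro _ (rfl | ⟨-, rfl⟩)
    exacts [hr, (Nef.hh G).pb ι])
  rw [List.prod_cons, List.prod_replicate, ← map_pow, h.jj] at h1
  exact nonneg_of_mul_nonneg_left h1 (JJ_pos1 hC (rn_gen hG))

theorem FDeg.pos_iff {ι : F →ₐ[k] L} (h1 : td k L = td k F + 1) {V : FD k L} {d : ℚ}
    (h : FDeg C ι (hh V) d) : 0 < d ↔ rn k (Set.range ι ∪ rt V) = td k L := by
  obtain ⟨G, hG⟩ := exists_gen_fd (k := k) (L := F)
  rw [← mul_pos_iff_of_pos_right (JJ_pos1 hC (rn_gen hG)), ← h.jj]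
  refine ⟨fun h2 => ?_, fun h2 => ?_⟩
  · by_contra h3
    refine h2.ne' (JJ_van1 hC ((rn_le_td _).lt_of_ne h3) (mul_mem (Algebra.subset_adjoin
      (Dat_le_NS Set.subset_union_right (hh_dat dvd_rfl)))
      (Algebra.adjoin_mono (NS_mono Set.subset_union_left) (pb_adjoin ι _))))
  · have h3 : rn k (rt (V * FD.map ι G)) = td k L := by
      refine le_antisymm (rn_le_td _) (h2 ▸ rn_le_of_mem (Set.union_subset ?_
        ((rt_dvd (dvd_mul_right _ _)).trans (IntermediateField.subset_adjoin _ _))))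
      rintro _ ⟨y, rfl⟩
      refine IntermediateField.adjoin.mono _ _ _ (rt_dvd (dvd_mul_left _ _)) ?_
      rw [rt_map, ← IntermediateField.adjoin_map, hG]
      exact ⟨y, trivial, rfl⟩
    have h4 := JJ_pos2 hC (U := FD.map ι G) (i := td k F) (l := 1)
      (by rw [rt_map, rn_image, rn_gen hG]) h3 h1.symm
    rwa [pow_one, hh_mul, mul_add, ← pow_succ, ← pb_hh, ← map_pow, ← map_pow, map_add,
      JJ_pb_lt hC ι (by omega), add_zero, mul_comm] at h4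

/-- The degree is the sum of the degrees on the components of a special fibre. -/
theorem FDeg.loc {ι : F →ₐ[k] L} (h1 : td k L = td k F + 1) {r : N k L} (hr : r ∈ N1 k L) {d : ℚ}
    (h : FDeg C ι r d) {g : N k F} {m : ℕ} (hm : m + 1 = td k F) (hg : g ∈ N1 k F ^ m)
    (D : DD k F) (p : Dv k F → Prop) [DecidablePred p] (s : Finset (Dv k F))
    (hs : ∀ c ∉ s, c.vq D * JJ C c.κ (c.rs g) = 0) (s' : Finset (Dv k L))
    (hs' : ∀ ν ∉ s', ν.vq (pD ι D) * JJ C ν.κ (ν.rs (r * pb ι g)) = 0)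
    (p' : Dv k L → Prop) [DecidablePred p']
    (hp : ∀ (c : Dv k F) (ν : Dv k L), Ov ι c.toVl ν.toVl → (p' ν ↔ p c)) :
    ∑ ν ∈ s'.filter p', ν.vq (pD ι D) * JJ C ν.κ (ν.rs (r * pb ι g)) =
      d * ∑ c ∈ s.filter p, c.vq D * JJ C c.κ (c.rs g) := by
  classical
  obtain ⟨A, hA⟩ := I3_dat hg
  have h2 : ∀ c : Dv k F, rn k (rt (c.Res A)) + 1 ≠ td k F → rn k (rt (c.Res A)) < m := by
    intro c hc
    have := rn_le_td (k := k) (rt (c.Res A))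
    have := c.dim
    omega
  have h3 : ∀ c : Dv k F, c.rs g ∈ NS k (rt (c.Res A)) ^ m := fun c =>
    I3_pow c.rs (fun x hx => Dat_le_NS subset_rfl (dat_rs c hx)) hA
  choose E _ hE _ hE' using exists_lift A
  obtain ⟨D', hD'⟩ : ∃ D' : DD k F, ∀ c : Dv k F, rn k (rt (c.Res A)) + 1 = td k F →
      c.vq D' = if p c then c.vq D else 0 := by
    refine ⟨∑ c ∈ (fin_dv D A).toFinset.filter p, c.vq D • E c, fun c hc => ?_⟩
    rw [map_sum, ← Finset.sum_subset (Finset.filter_subset (· = c) _) (fun c' h4 h5 => by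
      rw [map_smul, hE' c' c (fun h6 => h5 (Finset.mem_filter.2 ⟨h4, h6.symm⟩)) hc, smul_zero]),
      Finset.sum_filter, Finset.sum_ite_eq', map_smul, hE, smul_eq_mul, mul_one]
    by_cases h4 : c.vq D = 0 <;> simp [h4, hc]
  have h4 : ∀ c : Dv k F, c.vq D' * JJ C c.κ (c.rs g) =
      if p c then c.vq D * JJ C c.κ (c.rs g) else 0 := by
    intro c
    by_cases hc : rn k (rt (c.Res A)) + 1 = td k F
    · rw [hD' c hc, ite_mul, zero_mul]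
    · have := JJ_van2 hC (h2 c hc) (h3 c) 1
      rw [mul_one] at this
      simp [this]
  have h5 : ∀ ν : Dv k L, ν.vq (pD ι D') * JJ C ν.κ (ν.rs (r * pb ι g)) =
      if p' ν then ν.vq (pD ι D) * JJ C ν.κ (ν.rs (r * pb ι g)) else 0 := by
    intro ν
    by_cases h0 : Tv ι ν.toVl
    · simp [vq_pD_tv h0]
    by_cases h6 : JJ C ν.κ (ν.rs (r * pb ι g)) = 0
    · rw [h6, mul_zero, mul_zero, ite_self]
    rw [map_mul, mul_comm (ν.rs r)] at h6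
    obtain ⟨c, hc⟩ := exists_over ν h0 (hm ▸ Nat.succ_le_succ (not_lt.1 fun h7 => h6 (JJ_van2 hC h7
      (I3_pow ν.rs (fun x hx => rs_NS ν hx) (I3_pow (pb ι) (fun x hx => pb_NS ι hx) hg)) _)))
    obtain ⟨e, -, he⟩ := Dv.ov_e hc
    have h7 : rn k (rt (c.Res A)) + 1 = td k F := by
      by_contra h7
      refine h6 (JJ_van2 hC (s := rt (FD.map hc.kmap (c.Res A))) (j := m) ?_ ?_ _)
      · rw [rt_map, rn_image]
        exact h2 c h7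
      · rw [rs_pb_ov hc]
        exact I3_pow (pb hc.kmap) (fun x hx => Dat_le_NS subset_rfl (dat_pb _ hx))
          (I3_pow c.rs (fun x hx => dat_rs c hx) hA)
    rw [vq_pD_ov he, vq_pD_ov he, hD' c h7, mul_ite, mul_zero, ite_mul, zero_mul]
    exact if_congr (hp c ν hc).symm rfl rfl
  have h6 := h.jj (cl D' * g)
  rw [map_mul (pb ι), mul_left_comm, pb_cl, JJ_cyc hC _ _ (s'.filter p'),
    JJ_cyc hC _ _ (s.filter p),
    Finset.sum_congr rfl fun ν hν => (h5 ν).trans (if_pos (Finset.mem_filter.1 hν).2),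
    Finset.sum_congr rfl fun c hc => (h4 c).trans (if_pos (Finset.mem_filter.1 hc).2)] at h6
  · exact h6
  · intro c hc
    rw [h4]
    split_ifs with h7
    exacts [hs c fun h8 => hc (Finset.mem_filter.2 ⟨h8, h7⟩), rfl]
  · intro ν hν
    rw [h5]
    split_ifs with h7
    exacts [hs' ν fun h8 => hν (Finset.mem_filter.2 ⟨h8, h7⟩), rfl]

omit [Fg k F] in
/-- If the point has rank one less than the field, the number is a multiple of a number on the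
closure of the point. -/
theorem II_curve (Ω : Var k P) {w : P.V → L} {U : Sub k P} (hU : IsGen (U : Set (P.Pt k)) w)
    (hd : sdim U + 1 = td k L) {r : N k L} (hr : r ∈ N1 k L) :
    ∃ e : ℚ, ∀ ω, II C Ω w ω r = e * nm C Ω U ω := by
  choose ς hς using hU.ne
  let E := IntermediateField.adjoin k (rat w)
  let w₀ : P.V → E := fun s =>
    ⟨w s / w ⟨s.1, ς s.1⟩, IntermediateField.subset_adjoin _ _ ⟨s.1, s.2, ς s.1, rfl⟩⟩
  have h1 : E.val ∘ w₀ = fun s => (w ⟨s.1, ς s.1⟩)⁻¹ * w s := funext fun s => div_eq_inv_mul _ _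
  have h2 : ∀ i, (w ⟨i, ς i⟩)⁻¹ ≠ 0 := fun i => inv_ne_zero (hς i)
  have h3 : IsGen (U : Set (P.Pt k)) w₀ := by
    refine ⟨fun i => ⟨ς i, fun h4 => div_ne_zero (hς i) (hς i) (congrArg Subtype.val h4)⟩,
      fun f a hf => Iff.trans ?_ ((hU.scale _ h2).iff f a hf)⟩
    rw [← h1, ← map_eq_zero_iff E.val E.val.injective, ← AlgHom.comp_apply, comp_aeval]
    rfl
  have h4 : Gen k w₀ := by
    refine IntermediateField.map_injective E.val ?_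
    rw [IntermediateField.adjoin_map, ← rat_map, h1, rat_scale w _ h2,
      ← AlgHom.fieldRange_eq_map, IntermediateField.fieldRange_val]
  have h5 : (rat w₀).Finite := (Set.finite_range fun x : Σ i, P.σ i × P.σ i =>
    w₀ ⟨x.1, x.2.1⟩ / w₀ ⟨x.1, x.2.2⟩).subset fun _ ⟨i, s, t, e⟩ => ⟨⟨i, s, t⟩, e.symm⟩
  have : Fg k E := ⟨h5.toFinset, by rw [h5.coe_toFinset]; exact h4⟩
  obtain ⟨d, hd'⟩ := exists_fdeg hC E.val (by rw [← rn_gen h4, rn_rat h3, hd]) hr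
  refine ⟨d, fun ω => ?_⟩
  have h6 := hd'.ii Ω w₀ h3.ne ω 1
  have h7 := II_gen hC Ω h3 h4 ω 1
  rw [map_one (aeval _), map_one (aeval _), mul_one] at h7
  rwa [map_one (pb _), mul_one, h1, II_scale hC Ω hU.ne h2, h7] at h6

end Pool.Agent.Work.MP_ffcd14_ag.Uni
end

-- merged part: Pool.Agent.Work.MP_ffcd14_ag.Uni.T1
section
/-! # Intersection numbers on trees of rational curves -/

open MvPolynomial

namespace Pool.Agent.Work.MP_ffcd14_ag.Uni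

universe u v w

section

variable {k F L : Type u} [Field k] [Field F] [Field L] [Algebra k F] [Algebra k L]
  {K : Type v} [Field K] [CharZero K] {C : NT.{u, v, w} k K}

theorem T1_mn_scale {v w : Vl k F} {e : FF} (he : 0 ≤ e) (h : ∀ f, v f = e * w f) (V : FD k F) :
    mn V v = e * mn V w := by
  apply le_antisymm
  · exact (mn_le V v (V.pick_mem w) (V.pick_ne w)).trans (h _).le
  · rw [mn, mn, h]
    exact mul_le_mul_of_nonneg_left (mn_le V w (V.pick_mem v) (V.pick_ne v)) he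

theorem T1_scale {v w : Vl k F} {e : FF} (he : 0 ≤ e) (h : ∀ f, v f = e * w f) (D : DD k F) :
    D v = e * D w := by
  obtain ⟨n, U, U', hn, hD⟩ := D.rep
  have h1 : (n • D) v = (mD U - mD U') v := by rw [hD]
  have h2 : (n • D) w = (mD U - mD U') w := by rw [hD]
  simp only [DD.nsmul_apply, DD.sub_apply, mD_apply] at h1 h2
  rw [T1_mn_scale he h, T1_mn_scale he h U'] at h1
  have h0 : (n : FF) ≠ 0 := Nat.cast_ne_zero.2 hn.ne'
  apply mul_left_cancel₀ h0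
  linear_combination h1 - e * h2

/-- The restriction of a pulled-back b-divisor without the component `c` is vertical. -/
theorem T1_rD_pD {ι : F →ₐ[k] L} {c : Dv k F} {ν : Dv k L} (ho : Ov ι c.toVl ν.toVl) {g : DD k F}
    (hg : g c.toVl = 0) {μ : Vl k ν.κ} (hμ : Tv ho.kmap μ) : ν.rD (pD ι g) μ = 0 := by
  obtain ⟨e, he, h⟩ := Dv.ov_e ho
  have h1 : ∀ f, (ν.comp μ).comap ι f = (ν.comp μ) (ι c.π) * c f := fun f => by
    rw [mul_comm]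
    refine c.V0_mul (w := (ν.comp μ).comap ι) (fun x hx => ?_) f
    rw [Vl.comap_apply, Dv.comp_apply]
    rcases hx.eq_or_lt with h0 | h0
    · have h2 : ν (ι x) = 0 := by rw [h, ← h0, mul_zero]
      rw [ν.lc_of_zero h2, ← ho.kmap_res, hμ, h2, mul_zero, add_zero]
    · have h2 : ν 1 < ν (ι x) := by
        rw [ν.one, h]
        exact mul_pos (Nat.cast_pos.2 he) h0
      have h3 := ν.V0_succ h2
      rw [ν.one] at h3
      linarith [(Dv.V0_half μ (ν.lc (ι x))).1]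
  have h2 : 0 ≤ (ν.comp μ) (ι c.π) := by
    have h3 : (1 : FF) ≤ e := Nat.one_le_cast.2 he
    rw [Dv.comp_apply, h, c.v_π, mul_one]
    linarith [(Dv.V0_half μ (ν.lc (ι c.π))).1]
  have h3 := ν.comp_eq (pD ι g) μ
  rw [pD_apply, pD_apply, T1_scale h2 h1, V4a_scale (v := ν.toVl.comap ι) h, hg, mul_zero, mul_zero,
    zero_add] at h3
  exact (mul_eq_zero.1 h3.symm).resolve_left eps_pos.ne'

theorem T1_neg {ι : F →ₐ[k] L} {r : N k L} {d : ℚ} (h : FDeg C ι r d) : FDeg C ι (-r) (-d) := by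
  simpa using h.smul (-1)

theorem T1_sub {ι : F →ₐ[k] L} {r r' : N k L} {d d' : ℚ} (h : FDeg C ι r d)
    (h' : FDeg C ι r' d') : FDeg C ι (r - r') (d - d') := by
  simpa [sub_eq_add_neg] using h.add (T1_neg h')

theorem T1_sum {ι : F →ₐ[k] L} {α : Type*} (s : Finset α) {r : α → N k L}
    (h : ∀ a ∈ s, FDeg C ι (r a) 0) : FDeg C ι (∑ a ∈ s, r a) 0 := by
  simpa using FDeg.sum s h

theorem T1_smul {ι : F →ₐ[k] L} {r : N k L} (h : FDeg C ι r 0) (q : ℚ) : FDeg C ι (q • r) 0 := by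
  simpa using h.smul q

end

variable {k F L : Type u} [Field k] [Field F] [Field L] [Algebra k F] [Algebra k L]
  {K : Type v} [Field K] [CharZero K] {C : NT.{u, v, w} k K}
  [IsAlgClosed k] [Fg k F] [Fg k L] (hC : C.Chow)
  {ι : F →ₐ[k] L} {t : L} {V : FD k L} (τ : Tree ι t V) (ht : Simp ι t)
include hC ht

namespace Tree

theorem fdeg_xi : FDeg C ι τ.xi 1 := by
  obtain ⟨α⟩ := τ.ne
  have h := ht.affine (τ.s α) one_ne_zero
  rw [map_one, div_one] at h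
  rw [xi, τ.l0_eq ht α]
  exact fdeg_one hC h _

theorem fdeg_TG (S : τ.Cl) {G : DD k F} (hG : 0 ≤ G) : FDeg C ι (cl (τ.TG S G)) 0 := by
  refine fdeg_vert hC ι ht.td_eq fun ν hν => le_antisymm ?_ ?_
  · exact (ν.vq_mono (τ.TG_le S G)).trans_eq (vq_pD_tv hν G)
  · simpa using ν.vq_mono (τ.TG_nonneg S hG)

theorem T1_TT (S : τ.Cl) : FDeg C ι (cl (τ.TT S)) 0 :=
  τ.TG_dl ht S ▸ τ.fdeg_TG hC ht S (τ.dl_nonneg S)

theorem fdeg_hh : FDeg C ι (hh V) τ.d := by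
  have h := T1_sub ((T1_neg (fdeg_pb hC ι ht.td_eq (cl_mem τ.g0))).add
    ((τ.fdeg_xi hC ht).smul τ.d))
    (T1_sum Finset.univ fun S _ => T1_smul (τ.T1_TT hC ht S) (τ.nS S))
  rw [τ.hh_eq]
  simpa using h

theorem T1_pair (S : τ.Cl) {H G : DD k F} (h0 : 0 ≤ H) (h1 : H ≤ G) (h2 : G ≤ τ.dl S) (g : N k F) :
    JJ C L (pb ι g * (cl (τ.TG S H) * cl (τ.TG S G))) = -JJ C F (g * cl H) := by
  have e1 := cl_congr (E := τ.TT S - τ.TG S G) (D := τ.TG S H) (D' := pD ι H) fun v hv => by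
    rw [DD.sub_apply, sub_ne_zero, TG, DD.inf_apply] at hv
    rw [TG, DD.inf_apply]
    refine min_eq_right ((h1 (v.comap ι)).trans (not_lt.1 fun h => hv ?_))
    exact (min_eq_left h.le).symm
  rw [map_sub, ← pb_cl] at e1
  have e2 := τ.TT_TG ht S h0 (h1.trans h2)
  have e3 := (T1_sub (T1_sub ((T1_neg (τ.fdeg_xi hC ht)).add
    (T1_sum (Finset.univ.filter fun S' : τ.Cl => S.1 ⊆ S'.1) fun S' _ => τ.T1_TT hC ht S'))
    (τ.T1_TT hC ht S)) (T1_neg (τ.fdeg_TG hC ht S (h0.trans h1)))).jj (g * cl H)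
  have e4 := (τ.fdeg_TG hC ht S h0).jj (g * cl (τ.oo S))
  have e5 : pb ι g * (cl (τ.TG S H) * cl (τ.TG S G)) =
      (-τ.xi + ∑ S' : τ.Cl with S.1 ⊆ S'.1, cl (τ.TT S') - cl (τ.TT S) - -cl (τ.TG S G)) *
        pb ι (g * cl H) - cl (τ.TG S H) * pb ι (g * cl (τ.oo S)) := by
    rw [map_mul, map_mul]
    linear_combination pb ι g * e2 - pb ι g * e1
  rw [e5, map_sub, e3, e4]
  ring

theorem pair_TG {S S' : τ.Cl} {G G' : DD k F} (h1 : 0 ≤ G) (h2 : G ≤ τ.dl S) (h1' : 0 ≤ G')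
    (h2' : G' ≤ τ.dl S') (g : N k F) : JJ C L (pb ι g * (cl (τ.TG S G) * cl (τ.TG S' G'))) =
      if S = S' then -JJ C F (g * cl (G ⊓ G')) else 0 := by
  have key : ∀ {S S' : τ.Cl} {G G' : DD k F}, S'.1 ⊂ S.1 → G ≤ τ.dl S → 0 ≤ G' →
      JJ C L (pb ι g * (cl (τ.TG S G) * cl (τ.TG S' G'))) = 0 := fun {S S' G G'} a b c => by
    rw [τ.TG_TG_lt ht a b c, ← mul_assoc, ← map_mul, mul_comm, (τ.fdeg_TG hC ht S' c).jj, zero_mul]
  split_ifs with e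
  · subst e
    have h3 : τ.TG S G ⊓ τ.TG S G' = τ.TG S (G ⊓ G') := by
      ext v
      simp only [TG, DD.inf_apply, pD_apply]
      rw [min_min_min_comm, min_self]
    have h0 : 0 ≤ G ⊓ G' := le_inf h1 h1'
    rw [cl_mul_inf, h3, mul_sub, mul_add, mul_sub, mul_add, map_sub, map_add,
      τ.T1_pair hC ht S h0 inf_le_left h2, τ.T1_pair hC ht S h0 inf_le_right h2',
      τ.T1_pair hC ht S h0 le_rfl (inf_le_left.trans h2)]
    ring
  · have e' : S.1 ≠ S'.1 := fun h => e (Subtype.ext h)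
    by_cases a : S.1 ⊆ S'.1
    · rw [mul_comm (cl (τ.TG S G))]
      exact key (Finset.ssubset_iff_subset_ne.2 ⟨a, e'⟩) h2' h1
    by_cases a' : S'.1 ⊆ S.1
    · exact key (Finset.ssubset_iff_subset_ne.2 ⟨a', e'.symm⟩) h2 h1'
    rw [τ.TG_TG_disj ht a a' h1 h1', mul_zero, map_zero]

/-- A valuation over `c` which sees `V` is a vertex. -/
theorem vertex {c : Dv k F} {ν : Dv k L} (ho : Ov ι c.toVl ν.toVl)
    (hr : rn k (Set.range ho.kmap ∪ rt (ν.Res V)) = td k F) : ∃ β, τ.Vx c ν β := by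
  by_contra hn
  rw [not_exists] at hn
  obtain ⟨e, he, h⟩ := Dv.ov_e ho
  have d1 : td k ν.κ = td k F := by
    have := ν.dim
    rw [ht.td_eq] at this
    omega
  have d2 : td k ν.κ = td k c.κ + 1 := d1.trans c.dim.symm
  have p1 : ∀ g : DD k F, FDeg C ho.kmap (cl (ν.rD (pD ι g))) 0 := fun g => by
    rw [← ν.rs_cl, ← pb_cl, rs_pb_ov ho]
    exact fdeg_pb hC _ d2 (c.rs_N1 (cl_mem g))
  have p2 : ∀ β, FDeg C ho.kmap (cl (ν.rD (vD k (t - ι (τ.s β)) ⊓ pD ι (τ.g β)))) 0 := fun β => by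
    rcases lt_trichotomy (ν.vq (vD k (t - ι (τ.s β)))) (ν.vq (pD ι (τ.g β))) with a | a | a
    · rw [ν.rD_inf_lt a, ν.rD_vD, cl_vD]
      simpa using p1 0
    · obtain ⟨ϖ, h0, h1⟩ := τ.T0_unif c β
      have hι : ι ϖ ≠ 0 := (map_ne_zero ι).2 h0
      have a1 : ν (t - ι (τ.s β)) = e * τ.g β c.toVl := by
        rw [← V4a_scale (v := ν.toVl.comap ι) h, ← pD_apply, ← ν.vq_cast, ← a, ν.vq_cast, vD_apply]
      have a2 : ν ((t - ι (τ.s β)) / ι ϖ) = 0 := by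
        rw [ν.toVl.div (ht.sub_ne _) hι, a1, h, h1, sub_self]
      have a3 : IsAlgebraic (Algebra.adjoin k (Set.range ho.kmap))
          (ν.res ((t - ι (τ.s β)) / ι ϖ)) := by
        refine alg_of_rn (t := {ν.res ((t - ι (τ.s β)) / ι ϖ)}) ?_ rfl
        rw [Set.union_singleton]
        have b1 := rn_insert_le (k := k) (Set.range ho.kmap) (ν.res ((t - ι (τ.s β)) / ι ϖ))
        have b2 := mt ((ht.affine (τ.s β) h0).gs_of_tr ho) fun g => hn β ⟨ϖ, h0, h1, g⟩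
        have b3 := c.dim
        rw [rn_range] at b1 ⊢
        omega
      have a4 : (τ.g β - vD k ϖ) c.toVl = 0 := by rw [DD.sub_apply, vD_apply, h1, sub_self]
      have a5 : vD k (t - ι (τ.s β)) ⊓ pD ι (τ.g β) =
          vD k ((t - ι (τ.s β)) / ι ϖ) ⊓ pD ι (τ.g β - vD k ϖ) + vD k (ι ϖ) := by
        ext v
        simp only [DD.inf_apply, DD.add_apply, DD.sub_apply, pD_apply, vD_apply, Vl.comap_apply]
        rw [v.div (ht.sub_ne _) hι, min_sub_sub_right, sub_add_cancel]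
      have a6 : ν.vq (vD k ((t - ι (τ.s β)) / ι ϖ)) = ν.vq (pD ι (τ.g β - vD k ϖ)) := by
        apply Rat.cast_injective (α := FF)
        rw [ν.vq_cast, ν.vq_cast, vD_apply, a2, pD_apply, V4a_scale (v := ν.toVl.comap ι) h, a4,
          mul_zero]
      rw [a5, map_add, map_add, ν.rD_vD, cl_vD, add_zero, ν.rD_inf_eq a6, ν.rD_vD,
        ν.lc_of_zero a2]
      refine fdeg_vert hC _ d2 fun μ hμ => ?_
      apply Rat.cast_injective (α := FF)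
      rw [μ.vq_cast, DD.inf_apply, vD_apply, T1_rD_pD ho a4 hμ, μ.toVl.triv_of_alg ?_ a3, min_self,
        Rat.cast_zero]
      intro x hx
      obtain ⟨y, rfl⟩ : x ∈ ho.kmap.fieldRange :=
        (IntermediateField.adjoin_le_iff (T := ho.kmap.fieldRange)).2 (fun _ h => h) hx
      exact hμ y
    · rw [inf_comm, ν.rD_inf_lt a]
      exact p1 _
  have p3 : FDeg C ho.kmap (hh (ν.Res V)) 0 := by
    have h1 : hh (ν.Res V) = -cl (ν.rD (mD V)) := by rw [ν.rD_mD, cl_mD, neg_neg]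
    rw [h1, τ.rep, map_add, map_add, map_sum, map_sum]
    have h2 := T1_neg ((p1 τ.g0).add (T1_sum Finset.univ fun β _ => T1_smul (p2 β) (τ.n β)))
    simpa [Int.cast_smul_eq_zsmul] using h2
  exact lt_irrefl _ ((p3.pos_iff hC d2).2 (hr.trans d1.symm))

end Tree

end Pool.Agent.Work.MP_ffcd14_ag.Uni
end

-- merged part: Pool.Agent.Work.MP_ffcd14_ag.Uni.Fdef
section
/-! # Families of rational curves over a function field: definitions -/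

open MvPolynomial

namespace Pool.Agent.Work.MP_ffcd14_ag.Uni

universe u v w

variable {k F L L₁ L₂ W : Type u} [Field k] [Field F] [Field L] [Field L₁] [Field L₂] [Field W]
  [Algebra k F] [Algebra k L] [Algebra k L₁] [Algebra k L₂] [Algebra k W]
  {K : Type v} [Field K] [CharZero K] {P : Amb} (C : NT.{u, v, w} k K)

/-- A family of rational curves in `X`, with fibres of dimension at most one over the model
of `A`. -/
structure CF (ι : F →ₐ[k] L) (t : L) (A : FD k F) (Vη : FD k L) (X : Var k P) (x : P.V → L) :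
    Prop where
  simp : Simp ι t
  on : OnS X.pts x
  dvd : ∀ i, blk k x i ∣ Vη
  eqd : EQD (FD.map ι A) Vη

/-- The exterior product. -/
noncomputable def ot (X : Var k P) (y z : EE C X) : EE C (X.prod X) :=
  pl C (Prj.p1 X X) y * pl C (Prj.p2 X X) z

/-- `γ` represents the push-forward of `y`. -/
structure Rep (ι : F →ₐ[k] L) (X : Var k P) (x : P.V → L) (y : EE C X) (γ : N k F) : Prop where
  mem : γ ∈ N1 k F
  eq : ∀ g ∈ N1 k F, II C X x y (pb ι g) = JJ C F (γ * g)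

end Pool.Agent.Work.MP_ffcd14_ag.Uni
end

-- merged part: Pool.Agent.Work.MP_ffcd14_ag.Uni.Fd
section
/-! # Uniqueness of the prime divisor over a general prime divisor of the base

`Fd_centre`: take the chart `ς` of `SmAt c s` and normalise, `b' s = (b ⟨s.1, ς s.1⟩)⁻¹ * b s`
(`IsGen.scale`); the coordinate `X ⟨i, ς i⟩` does not vanish on `T`, so `0 ≤ μ (b' s)` and
`res ∘ b'` is a normalised generic point of `T` (a rescaling of `rpt μ b`); by `IsGen.ker`,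
`res_aeval` a polynomial `f` lies in `chI T ς` iff `res (f (b')) = 0`, and in `chI c ς` iff
`f (b') = 0`. `lp` (see the start of the proof of `lpg` in Cyc/VarDim.lean) gives `g` with
`s f ∈ chI c ς ⊔ span {g}`, `s ∉ chI T ς`, for all `f ∈ chI T ς`. By induction on the integer
`μ (f (b'))` there is `m : ℕ` with `μ (f b') = m * μ (g b')` and `μ' (f b') = m * μ' (g b')`; every
element of `F` is a quotient `f (b') / f' (b')` (`Gen`), so `0 ≤ μ x → 0 ≤ μ' x`; `Dv.ext_le`.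
`Fd_uq`: `V` = product of all blocks of `w`, `Φ` from `Fc_gauss`, each `f ∈ Φ` is a quotient of two
forms of one degree in `b` (`Eta_den` after normalising), `h` from `Img_prod`. For `T` take `ν` from
`lift_dv`; `rpt ν (ι ∘ b)` is generic in `β.img T` (`rpt_comp`, `isGen_img`); `ν` is not `Tv`
(`rpt_tv`, ranks), `exists_over` gives `c₀`, `rpt c₀ b` is generic in `β.img T` (`rpt_ov`,
`exists_isGen`, `IsGen.map`, `IsGen.scale`, `IsGen.unique`); `c₀ f = 0` on `Φ` by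
`aeval_rpt_eq_zero`; `Fd_centre`, `Fc_gauss`, `Gs.unique`, `IsGen.unique`. -/

open MvPolynomial

namespace Pool.Agent.Work.MP_ffcd14_ag.Uni

universe u

variable {k F L : Type u} [Field k] [Field F] [Field L] [Algebra k F] [Algebra k L]
  {P₀ P₁ : Amb} [IsAlgClosed k] [Fg k F]

omit [IsAlgClosed k] [Fg k F] in
theorem Fd_chart {b : P₀.V → F} (hb : NZ b) {T : Sub k P₀} {ς : ∀ i, P₀.σ i}
    (hT : ∃ y ∈ T, InCh ς y) {μ : Dv k F} (h : IsGen (T : Set (P₀.Pt k)) (rpt μ b)) :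
    (∀ i, b ⟨i, ς i⟩ ≠ 0) ∧ (∀ s, 0 ≤ μ (NormA_nv b ς s)) ∧
      ∀ f, μ.res (aeval (NormA_nv b ς) f) = 0 ↔ f ∈ chI (T : Set (P₀.Pt k)) ς := by
  have h1 : ∀ i, rpt μ b ⟨i, ς i⟩ ≠ 0 := fun i e =>
    exists_inCh_iff.1 hT i ((h.iff _ _ (IsForm.X _)).1 (by rwa [aeval_X]))
  have h2 : ∀ i, b ⟨i, ς i⟩ ≠ 0 := fun i => (I0c_chart hb (h1 i)).1
  have h3 : ∀ s, 0 ≤ μ (NormA_nv b ς s) := fun s => (I0c_chart hb (h1 s.1)).2 s.2
  refine ⟨h2, h3, fun f => ?_⟩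
  obtain ⟨m, hm, e⟩ := I0c_res hb μ h2 h3
  have h4 := h.scale (fun i => (m i)⁻¹) fun i => inv_ne_zero (hm i)
  simp only [e, inv_mul_cancel_left₀ (hm _)] at h4
  have h5 := h4.ker (ς := ς) fun i => by
    rw [show NormA_nv b ς ⟨i, ς i⟩ = 1 from inv_mul_cancel₀ (h2 i), μ.res_one]
  rw [(μ.res_aeval h3 f).2, ← h5, RingHom.mem_ker]

theorem Fd_centre {b : P₀.V → F} {c T : Sub k P₀} (hc : IsGen (c : Set (P₀.Pt k)) b)
    (hg : Gen k b) (hT : T ≤ c) (hd : sdim T + 1 = sdim c) {s : P₀.Pt k} (hs : s ∈ T)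
    (hsm : SmAt c s) {μ μ' : Dv k F} (h : IsGen (T : Set (P₀.Pt k)) (rpt μ b))
    (h' : IsGen (T : Set (P₀.Pt k)) (rpt μ' b)) : μ = μ' := by
  obtain ⟨ς, hς, κ', _, f, hf, hli, hcd⟩ := hsm
  have hTς : ∃ y ∈ T, InCh ς y := ⟨s, hs, hς⟩
  have hp := chI_prime hTς
  obtain ⟨g0, h0, h1⟩ := lp (chI (c : Set (P₀.Pt k)) ς) (chI (T : Set (P₀.Pt k)) ς) (chI_anti hT ς)
    (hat ς s) (fun φ hφ => hφ s hs hς) f hf hli (by
      rw [← sdim_eq_trdeg hTς]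
      exact_mod_cast (by omega : Nat.card P₀.V ≤ Nat.card κ' + sdim T + 1))
  obtain ⟨a1, a2, a3⟩ := Fd_chart hc.ne hTς h
  obtain ⟨-, b2, b3⟩ := Fd_chart hc.ne hTς h'
  have top : IntermediateField.adjoin k (Set.range (NormA_nv b ς)) = ⊤ := hg.norm a1
  have hk : RingHom.ker (aeval (NormA_nv b ς) : MvPolynomial P₀.V k →ₐ[k] F) =
      chI (c : Set (P₀.Pt k)) ς :=
    (hc.scale (fun i => (b ⟨i, ς i⟩)⁻¹) fun i => inv_ne_zero (a1 i)).ker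
      fun i => inv_mul_cancel₀ (a1 i)
  generalize NormA_nv b ς = z at *
  refine Dv.ext_le fun x hx => ?_
  by_cases hx0 : x = 0
  · rw [hx0]
    exact μ'.zero.ge
  obtain ⟨p, q, h2⟩ := (IntermediateField.mem_adjoin_range_iff k z x).1 (top ▸ trivial)
  have hq : aeval z q ≠ 0 := fun e => hx0 (by rw [h2, e, div_zero])
  obtain ⟨n, hn⟩ := μ.fin (aeval z q)
  obtain ⟨u, v, h3, h4⟩ := I0c_frac μ a2 ((a3 g0).2 h0) (fun φ hφ => by
    obtain ⟨r, s1, s2⟩ := h1 φ ((a3 φ).1 hφ)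
    obtain ⟨u, hu, v, hv, e'⟩ := Submodule.mem_sup.1 s2
    obtain ⟨d, rfl⟩ := Ideal.mem_span_singleton'.1 hv
    rw [← hk] at hu
    exact ⟨r, d, fun e => s1 ((a3 r).1 e s hs hς), by
      rw [← map_mul, ← e', map_add, RingHom.mem_ker.1 hu, zero_add, map_mul]⟩) hx n p q hq
    (le_of_abs_le hn) (by rw [h2, div_mul_cancel₀ _ hq])
  have h5 : μ'.res (aeval z v) ≠ 0 := fun e => h3 ((a3 v).2 ((b3 v).1 e))
  rw [Ne, μ'.res_eq_zero, not_or, not_not] at h5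
  have h6 := (μ'.res_aeval b2 u).1
  rwa [← h4, μ'.mul _ _ hx0 h5.1, h5.2, add_zero] at h6

omit [IsAlgClosed k] [Fg k F] in
theorem Fd_forms {b : P₀.V → F} {c : Sub k P₀} (hc : IsGen (c : Set (P₀.Pt k)) b) (hg : Gen k b)
    (Φ : Finset F) (hΦ : ∀ f ∈ Φ, f ≠ 0) : ∃ h a, IsForm h a ∧ ¬ Van (c : Set (P₀.Pt k)) h ∧
      ∀ (S : Sub k P₀) (μ : Dv k F), ¬ Van (S : Set (P₀.Pt k)) h →
        IsGen (S : Set (P₀.Pt k)) (rpt μ b) → ∀ f ∈ Φ, μ f = 0 := by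
  choose ς hς using hc.ne
  obtain ⟨g, a, q, hq, hga, e⟩ := Eta_den (v := NormA_nv b ς) (ς := ς)
    (fun i => inv_mul_cancel₀ (hς i)) (hg.norm hς)
    (fun t : Option (Fin Φ.card) => t.elim 1 fun j => (Φ.equivFin.symm j : F))
  have sc : ∀ t, aeval (NormA_nv b ς) (g t) =
      (a.prod fun i n => (b ⟨i, ς i⟩)⁻¹ ^ n) * aeval b (g t) :=
    fun t => (hga t).aeval_scale (fun i => (b ⟨i, ς i⟩)⁻¹) b
  have h0 : ∀ t, ¬ Van (c : Set (P₀.Pt k)) (g t) := by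
    intro t ht
    have h1 := e t
    rw [sc, (hc.iff _ _ (hga t)).2 ht, mul_zero] at h1
    refine mul_ne_zero hq ?_ h1.symm
    cases t with
    | none => exact one_ne_zero
    | some j => exact hΦ _ (Φ.equivFin.symm j).2
  obtain ⟨h, a', h1, h2, h3⟩ := Img_prod c g (fun t => ⟨a, hga t⟩) h0
  refine ⟨h, a', h1, h2, fun S μ hS hμ f hf => ?_⟩
  have h4 : ∀ t, aeval b (g t) ≠ 0 ∧ μ (aeval b (g t)) = mn (sys k b a) μ.toVl := fun t => by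
    rw [← μ.V1_ne, ← aeval_rpt hc.ne μ (hga t)]
    exact fun e' => h3 S hS t ((hμ.iff _ _ (hga t)).1 e')
  have h5 : aeval b (g (some (Φ.equivFin ⟨f, hf⟩))) = aeval b (g none) * f := by
    refine mul_left_cancel₀ (a := a.prod fun i n => (b ⟨i, ς i⟩)⁻¹ ^ n)
      (Finset.prod_ne_zero_iff.2 fun i _ => pow_ne_zero _ (inv_ne_zero (hς i))) ?_
    rw [← mul_assoc, ← sc, ← sc, e, e]
    simp
  have h6 := (h4 (some (Φ.equivFin ⟨f, hf⟩))).2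
  rw [h5, μ.mul _ _ (h4 none).1 (hΦ f hf), (h4 none).2] at h6
  exact add_eq_left.1 h6

theorem Fd_one {ι : F →ₐ[k] L} {t : L} (ht : Simp ι t) {b : P₀.V → F} {c : Sub k P₀}
    (hc : IsGen (c : Set (P₀.Pt k)) b) (hg : Gen k b) {w : P₁.V → L} {E : Sub k P₁}
    (hE : IsGen (E : Set (P₁.Pt k)) w) (hd : sdim E = td k L) (β : Crd k P₀ P₁)
    (hβ : w ∘ β.ε = ι ∘ b) {T : Sub k P₁} (hT : T ≤ E) (h1 : sdim T + 1 = sdim E)
    (h2 : sdim (β.img T) + 2 = sdim E) : ∃ (ν : Dv k L) (μ : Dv k F) (ho : Ov ι μ.toVl ν.toVl),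
      IsGen (T : Set (P₁.Pt k)) (rpt ν w) ∧ IsGen (β.img T : Set (P₀.Pt k)) (rpt μ b) ∧
        rn k (Set.range ho.kmap ∪ rt (ν.Res (sys k w (ones P₁)))) = td k F := by
  have := ht.fg
  have e1 := ht.td_eq
  have e2 := hg.sdim hc
  obtain ⟨ν, hν⟩ := lift_dv hE hT hd (h1.trans hd)
  have h3 : IsGen (β.img T : Set (P₀.Pt k)) (rpt ν (ι ∘ b)) := by
    rw [← hβ, rpt_comp hE.ne]
    exact β.isGen_img hν
  have h4 : ¬ Tv ι ν.toVl := by
    intro h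
    rw [rpt_tv h] at h3
    have := congrArg sdim (h3.unique (hc.map h.tmap))
    omega
  obtain ⟨μ, ho⟩ := exists_over ν h4 (by
    have h5 : rat (rpt ν (ι ∘ b)) ⊆ ν.res '' Set.range ι :=
      (rat_rpt (NZ.map hc.ne ι) ν).trans (Set.image_mono (by
        rw [rat_map]
        exact Set.image_subset_range _ _))
    have h6 := rn_mono (k := k) h5
    rw [rn_rat h3] at h6
    omega)
  refine ⟨ν, μ, ho, hν, ?_, le_antisymm ?_ ?_⟩
  · obtain ⟨m, hm, e⟩ := rpt_ov ho hc.ne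
    obtain ⟨Z, hZ⟩ := exists_isGen (k := k) (NZ.rpt hc.ne μ)
    rw [e] at h3
    rwa [h3.unique ((hZ.map ho.kmap).scale m hm)]
  · have h5 := rn_le_td (k := k) (Set.range ho.kmap ∪ rt (ν.Res (sys k w (ones P₁))))
    have h6 := ν.dim
    omega
  · have h5 := rn_mono (k := k) (Set.subset_union_right (s := Set.range ho.kmap)
      (t := rt (ν.Res (sys k w (ones P₁)))))
    rw [← sys_rpt hE.ne, I0a_rn_sys (NZ.rpt hE.ne ν), rn_rat hν, sys_rpt hE.ne] at h5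
    omega

theorem Fd_uq {ι : F →ₐ[k] L} {t : L} (ht : Simp ι t) {b : P₀.V → F} {c : Sub k P₀}
    (hc : IsGen (c : Set (P₀.Pt k)) b) (hg : Gen k b) {w : P₁.V → L} {E : Sub k P₁}
    (hE : IsGen (E : Set (P₁.Pt k)) w) (hd : sdim E = td k L) (β : Crd k P₀ P₁)
    (hβ : w ∘ β.ε = ι ∘ b) : UQ1 β E := by
  have := ht.fg
  have e1 := ht.td_eq
  have e2 := hg.sdim hc
  have e3 : β.img E = c := by
    have h1 := β.isGen_img hE
    rw [hβ] at h1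
    exact h1.unique (hc.map ι)
  obtain ⟨Φ, h1, h2⟩ := Fc_gauss ht (sys k w (ones P₁))
  obtain ⟨h, a, h3, h4, h5⟩ := Fd_forms hc hg Φ h1
  refine ⟨h, a, h3, e3 ▸ h4, fun T hT T' hT' e hv ⟨s, hs, hsm⟩ d1 d2 d3 => ?_⟩
  obtain ⟨ν, μ, ho, a1, a2, a3⟩ := Fd_one ht hc hg hE hd β hβ hT d1 d3
  obtain ⟨ν', μ', ho', b1, b2, b3⟩ := Fd_one ht hc hg hE hd β hβ hT' d2 (e ▸ d3)
  rw [← e] at b2
  obtain rfl : μ = μ' :=
    Fd_centre hc hg (e3 ▸ β.img_mono hT) (by omega) hs (e3 ▸ hsm) a2 b2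
  obtain rfl : ν = ν' :=
    (h2 μ ν ho (h5 _ μ hv a2) a3).unique ht (h2 μ ν' ho' (h5 _ μ hv a2) b3)
  exact a1.unique b1

end Pool.Agent.Work.MP_ffcd14_ag.Uni
end

-- merged part: Pool.Agent.Work.MP_ffcd14_ag.Uni.Fe
section
/-! # The projection formula for a fibre square, on a model of the base -/

open MvPolynomial

namespace Pool.Agent.Work.MP_ffcd14_ag.Uni

universe u v w

variable {k F L L₁ L₂ W : Type u} [Field k] [Field F] [Field L] [Field L₁] [Field L₂] [Field W]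
  [Algebra k F] [Algebra k L] [Algebra k L₁] [Algebra k L₂] [Algebra k W]
  {K : Type v} [Field K] [CharZero K] {P P' P₀ P₁ : Amb} {C : NT.{u, v, w} k K}

theorem Fe_rn_up [Fg k L] {s t : Set L} (h : s ⊆ t) (h' : rn k t ≤ rn k s) (r : Set L) :
    rn k (t ∪ r) ≤ rn k (s ∪ r) := by
  have := rn_submod (k := k) s t r
  rw [Set.union_eq_self_of_subset_left h] at this
  omega

theorem Fe_rn_pt [Fg k L] (ι : F →ₐ[k] L) {b : P₀.V → F} (hg : Gen k b) (x : P.V → L) :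
    rn k (rat (Amb.elim x (ι ∘ b))) = rn k (Set.range ι ∪ rat x) := by
  rw [rat_elim, rat_map, Set.union_comm]
  refine le_antisymm (rn_mono (Set.union_subset_union_left _ (Set.image_subset_range _ _)))
    (rn_le_of_mem (Set.union_subset ?_ fun y hy =>
      IntermediateField.subset_adjoin _ _ (Or.inr hy)))
  rintro _ ⟨f, rfl⟩
  refine IntermediateField.adjoin.mono _ _ _ Set.subset_union_left ?_
  rw [← IntermediateField.adjoin_map, show IntermediateField.adjoin k (rat b) = ⊤ from hg]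
  exact ⟨f, trivial, rfl⟩

theorem Fe_td [Fg k F] {ι₁ : F →ₐ[k] L₁} {t₁ : L₁} {ι₂ : F →ₐ[k] L₂} {t₂ : L₂} {j₁ : L₁ →ₐ[k] W}
    {j₂ : L₂ →ₐ[k] W} (h : Dbl ι₁ t₁ ι₂ t₂ j₁ j₂) : Fg k L₁ ∧ Fg k L₂ ∧ Fg k W ∧
      td k L₁ = td k F + 1 ∧ td k L₂ = td k F + 1 ∧ td k W = td k F + 2 := by
  have := h.one.fg
  exact ⟨this, h.two.fg, h.s₁.fg, h.one.td_eq, h.two.td_eq, by rw [h.s₁.td_eq, h.one.td_eq]⟩

variable [IsAlgClosed k] (hC : C.Chow)
include hC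

theorem Fe_fib [Fg k L] {w : P'.V → L} {Z : Sub k P'} (hZ : IsGen (Z : Set (P'.Pt k)) w)
    (β : Crd k P P') {V : FD k L} {i₀ : P.ι} (h : EQD (blk k w (β.ψ i₀)) V)
    (hV : ∀ i, blk k w i ∣ V ∨ ∃ j, i = β.ψ j) : Fib1 β Z := by
  have key : ∀ j, blk k w (β.ψ j) ∣ sys k (w ∘ β.ε) (Finsupp.equivFunOnFinite.symm fun _ => 1) :=
    fun j => blk_comp hZ.ne β j ▸ blk_dvd_sys _ (by simp)
  refine Fb_fib hC hZ β (fun i => ?_) (h.mono (key i₀)).mul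
  rcases hV i with h1 | ⟨j, rfl⟩
  · exact h1.mul_right _
  · exact (key j).mul_left _

theorem Fe_tr [Fg k L] (Ω : Var k P') {w : P'.V → L} (hw : NZ w) (β : Crd k P P')
    (ι : F →ₐ[k] L) {b : P.V → F} (e : w ∘ β.ε = ι ∘ b) (ω : EE C Ω) (p : MvPolynomial P.ι ℚ) :
    II C Ω w (ω * aeval (fun i => hy C Ω (β.ψ i)) p) 1 =
      II C Ω w ω (pb ι (aeval (fun i => hh (blk k b i)) p)) := by
  have h1 := II_aeval hC Ω hw ω (rename β.ψ p) 1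
  rw [aeval_rename, aeval_rename, mul_one] at h1
  refine h1.trans (congrArg _ ?_)
  rw [← AlgHom.comp_apply, comp_aeval]
  congr 2
  funext i
  rw [pb_hh, ← blk_map, ← e, blk_comp hw, Function.comp_apply]

theorem Fe_mod [Fg k L] (Ω : Var k P') {w : P'.V → L} {Z : Sub k P'}
    (hZ : IsGen (Z : Set (P'.Pt k)) w) (hd : td k L ≤ rn k (rat w)) :
    ∃ n : ℚ, 0 < n ∧ ∀ ω, II C Ω w ω 1 = n * nm C Ω Z ω := by
  obtain ⟨n, h0, h⟩ := II_model hC Ω hZ (by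
    rw [← rn_rat hZ]
    exact le_antisymm (rn_le_td _) hd)
  exact ⟨n, by exact_mod_cast h0, fun ω => by simpa using h ω 1⟩

variable [Fg k F] {X : Var k P} (hX : IsIrreducible X.pts) {y : EE C X} (hy' : y ∈ AA C X 2)
include hX hy'

theorem Fe_main (h3 : td k F ≤ 3) {b : P₀.V → F} {c : Sub k P₀}
    (hc : IsGen (c : Set (P₀.Pt k)) b) (hg : Gen k b) (hR : R1 c) {i₀ : P₀.ι} {X₁ : Var k P₁}
    {ι₁ : F →ₐ[k] L₁} {t₁ : L₁} {ι₂ : F →ₐ[k] L₂} {t₂ : L₂} {V₁ : FD k L₁} {V₂ : FD k L₂}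
    {x₁ : P₁.V → L₁} {x₂ : P.V → L₂} (h₁ : CF ι₁ t₁ (blk k b i₀) V₁ X₁ x₁)
    (h₂ : CF ι₂ t₂ (blk k b i₀) V₂ X x₂) {j₁ : L₁ →ₐ[k] W} {j₂ : L₂ →ₐ[k] W}
    (h : Dbl ι₁ t₁ ι₂ t₂ j₁ j₂) (f₁ : rn k (Set.range ι₁ ∪ rat x₁) = td k F + 1)
    (f₂ : rn k (Set.range ι₂ ∪ rat x₂) = td k F + 1) :
    ∃ S : Submodule ℚ (N k F), S ≤ N1 k F ∧ (∀ i, hh (blk k b i) ∈ S) ∧ ∃ γ ∈ S,
      ∀ g ∈ Algebra.adjoin ℚ (S : Set (N k F)), ∀ (ω : EE C X₁) (g' : N k F),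
        (g' = g ∧ (td k F ≤ 2 ∨ ∃ σ : Prj X₁ X, ∃ u ∈ HA C X₁, ω = pl C σ y * u)) ∨
          (∃ i, g' = hh (blk k b i) * g) →
        II C (X₁.prod X) (Amb.elim (j₁ ∘ x₁) (j₂ ∘ x₂))
          (pl C (Prj.p1 X₁ X) ω * pl C (Prj.p2 X₁ X) y) (pb (j₁.comp ι₁) g') =
          II C X₁ x₁ ω (pb ι₁ (γ * g')) := by
  obtain ⟨_, _, _, t1, t2, tW⟩ := Fe_td h
  have cm : ∀ f, j₁ (ι₁ f) = j₂ (ι₂ f) := fun f => AlgHom.congr_fun h.comm f
  have nb : NZ b := hc.ne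
  have o1 := h₁.on.ext (X := X₁) (nb.map ι₁)
  have o3 := h₂.on.ext (X := X) (nb.map ι₂)
  have o2 := ((h₁.on.map j₁).prod (h₂.on.map j₂)).ext (nb.map (j₁.comp ι₁))
  set w₁ := Amb.elim x₁ (ι₁ ∘ b) with hw₁
  set w₃ := Amb.elim x₂ (ι₂ ∘ b) with hw₃
  set w₂ := Amb.elim (Amb.elim (j₁ ∘ x₁) (j₂ ∘ x₂)) (j₁.comp ι₁ ∘ b) with hw₂
  obtain ⟨E₁, g1⟩ := exists_isGen (k := k) o1.nz
  obtain ⟨E₂, g3⟩ := exists_isGen (k := k) o3.nz
  obtain ⟨B, g2⟩ := exists_isGen (k := k) o2.nz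
  let r1 := (Prj.p1 X₁ X).map P₀
  let r2 := (Prj.p2 X₁ X).map P₀
  let β₁ := Crd.inr k P₁ P₀
  let β₃ := Crd.inr k P P₀
  have e1 : w₂ ∘ r1.ε = j₁ ∘ w₁ := by
    funext s
    rcases s with ⟨i | i, s⟩ <;> rfl
  have e2 : w₂ ∘ r2.ε = j₂ ∘ w₃ := by
    funext s
    rcases s with ⟨i | i, s⟩
    · rfl
    · exact cm _
  have dc : sdim c = td k F := by rw [← rn_rat hc, rn_gen hg]
  have q1 : rn k (rat w₁) = td k F + 1 := by rw [hw₁, Fe_rn_pt ι₁ hg, f₁]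
  have q3 : rn k (rat w₃) = td k F + 1 := by rw [hw₃, Fe_rn_pt ι₂ hg, f₂]
  have q2 : td k W ≤ rn k (rat w₂) := by
    have a1 := Fe_rn_up (Set.image_subset_range j₁ (rat w₁))
      (by rw [rn_range, rn_image, q1, t1]) (j₂ '' rat w₃)
    have a2 := Fe_rn_up (Set.image_subset_range j₂ (rat w₃))
      (by rw [rn_range, rn_image, q3, t2]) (Set.range j₁)
    have a3 : rn k (j₁ '' rat w₁ ∪ j₂ '' rat w₃) ≤ rn k (rat w₂) := by
      rw [← rat_map, ← rat_map, ← e1, ← e2]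
      exact rn_mono (Set.union_subset (Crd.Img_rat _ _) (Crd.Img_rat _ _))
    have a4 : td k W ≤ rn k (Set.range j₂ ∪ Set.range j₁) := by
      rw [← rn_gen h.s₁.adjoin_eq]
      exact rn_mono (Set.insert_subset (Or.inl ⟨_, rfl⟩) Set.subset_union_right)
    rw [Set.union_comm (j₂ '' rat w₃)] at a2
    omega
  have i1 : r1.img B = E₁ := IsGen.unique
    (by have := r1.isGen_img g2; rw [e1] at this; exact this) (g1.map j₁)
  have i2 : r2.img B = E₂ := IsGen.unique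
    (by have := r2.isGen_img g2; rw [e2] at this; exact this) (g3.map j₂)
  have i0 : β₁.img E₁ = c := IsGen.unique (β₁.isGen_img g1) (hc.map ι₁)
  have d1 : sdim E₁ = sdim c + 1 := by rw [← rn_rat g1, q1, dc]
  have fib1 : Fib1 β₁ E₁ := Fe_fib hC g1 β₁ (i₀ := i₀) (V := V₁)
    (by have := h₁.eqd; rwa [← blk_map] at this) (by
      rintro (i | i)
      · exact Or.inl (h₁.dvd i)
      · exact Or.inr ⟨i, rfl⟩)
  obtain ⟨Q, G, d, hG, hD, H⟩ := Fa_geo hC.cyc hX β₁ β₃ r1 r2 (Prj.one X P₀) (fun _ => rfl)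
    ((onS_iff g2 (Var.closed _)).1 o2) i1 i2 i0 d1 (by rw [← rn_rat g3, q3, dc])
    (by rw [← rn_rat g2, dc, ← tW]; exact le_antisymm (rn_le_td _) q2) fib1
    (Fe_fib hC g3 β₃ (i₀ := i₀) (V := V₂) (by have := h₂.eqd; rwa [← blk_map] at this) (by
      rintro (i | i)
      · exact Or.inl (h₂.dvd i)
      · exact Or.inr ⟨i, rfl⟩))
    (Fe_fib hC g2 r2.toCrd (i₀ := Sum.inr i₀) (V := FD.map j₁ V₁) (by
      have := h₁.eqd.map j₁
      rwa [← FD.map_comp, ← blk_map] at this) (by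
      rintro ((i | i) | i)
      · refine Or.inl ?_
        have := map_dvd (FD.map j₁) (h₁.dvd i)
        rwa [← blk_map] at this
      · exact Or.inr ⟨Sum.inl i, rfl⟩
      · exact Or.inr ⟨Sum.inr i, rfl⟩))
    (Fd_uq h₁.simp hc hg g1 (by rw [d1, dc, t1]) β₁ rfl) hR (dc ▸ h3) hy'
  set u : Q.V → F := fun s => aeval b (G s) with hu
  have nu : NZ u := GC_ne hG hD hc
  have o1' := o1.ext (nu.map ι₁)
  have o2' := o2.ext (nu.map (j₁.comp ι₁))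
  set w₁' := Amb.elim w₁ (ι₁ ∘ u) with hw₁'
  set w₂' := Amb.elim w₂ (j₁.comp ι₁ ∘ u) with hw₂'
  obtain ⟨E₁', g1'⟩ := exists_isGen (k := k) o1'.nz
  obtain ⟨B', g2'⟩ := exists_isGen (k := k) o2'.nz
  have e1' : w₂' ∘ (r1.map Q).ε = j₁ ∘ w₁' := by
    funext s
    rcases s with ⟨(i | i) | i, s⟩ <;> rfl
  have i1' : (r1.map Q).img B' = E₁' :=
    IsGen.unique (by have := (r1.map Q).isGen_img g2'; rw [e1'] at this; exact this) (g1'.map j₁)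
  obtain ⟨γ, hγ, e, he, H'⟩ := H B' (IsGen.unique ((Crd.inl k _ Q).isGen_img g2') g2)
    (Fb_graph (w := w₂) (d := fun j => ((d j).mapDomain β₁.ψ).mapDomain r1.ψ)
      (fun s => r1.form (β₁.form (hG s))) (by
        convert g2' using 2
        funext s
        rw [aeval_rename, aeval_rename, Function.comp_apply, hu, ← AlgHom.comp_apply, comp_aeval]
        rfl))
  rw [i1'] at H'
  obtain ⟨n₁, p1, m1⟩ := Fe_mod hC ((X₁.ext P₀).ext Q) g1' (by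
    rw [t1, ← q1, hw₁', rat_elim w₁]
    exact rn_mono Set.subset_union_left)
  obtain ⟨n₂, p2, m2⟩ := Fe_mod hC (((X₁.prod X).ext P₀).ext Q) g2' (by
    rw [hw₂', rat_elim]
    exact q2.trans (rn_mono Set.subset_union_left))
  set b' := Amb.elim b u with hb'
  set hb : (P₀.sum Q).ι → N k F := fun i => hh (blk k b' i) with hhb
  set hz : (P₀.sum Q).ι → EE C ((X₁.ext P₀).ext Q) := fun i => hy C _ ((β₁.map Q).ψ i) with hhz
  obtain ⟨pγ, c1, c2⟩ : ∃ p : MvPolynomial (P₀.sum Q).ι ℚ, aeval hz p = γ ∧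
      aeval hb p ∈ Submodule.span ℚ (Set.range hb) := by
    clear H'
    induction hγ using Submodule.span_induction with
    | mem _ h =>
      obtain ⟨i, rfl⟩ := h
      exact ⟨MvPolynomial.X i, aeval_X _ _, by rw [aeval_X]; exact Submodule.subset_span ⟨i, rfl⟩⟩
    | zero => exact ⟨0, map_zero _, by rw [map_zero]; exact zero_mem _⟩
    | add _ _ _ _ a1 a2 =>
      obtain ⟨p, rfl, a⟩ := a1
      obtain ⟨p', rfl, a'⟩ := a2
      exact ⟨p + p', map_add _ _ _, by rw [map_add]; exact add_mem a a'⟩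
    | smul q _ _ a1 =>
      obtain ⟨p, rfl, a⟩ := a1
      exact ⟨q • p, map_smul _ _ _, by rw [map_smul]; exact Submodule.smul_mem _ _ a⟩
  let σ₁ := (Prj.one X₁ P₀).comp (Prj.one (X₁.ext P₀) Q)
  let π₂ := (Prj.one (X₁.prod X) P₀).comp (Prj.one ((X₁.prod X).ext P₀) Q)
  have core : ∀ (ω : EE C X₁) (p : MvPolynomial (P₀.sum Q).ι ℚ),
      (∀ T : Sub k ((P₁.sum P₀).sum Q), (T : Set _) ⊆ ((X₁.ext P₀).ext Q).pts →
        (Crd.inl k _ Q).img T ≤ E₁ → sdim (β₁.img ((Crd.inl k _ Q).img T)) + 3 ≤ sdim c →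
        nm C _ T (pl C σ₁ ω * aeval hz p) = 0) →
      II C (X₁.prod X) (Amb.elim (j₁ ∘ x₁) (j₂ ∘ x₂))
        (pl C (Prj.p1 X₁ X) ω * pl C (Prj.p2 X₁ X) y) (pb (j₁.comp ι₁) (aeval hb p)) =
        II C X₁ x₁ ω (pb ι₁ ((n₂ / n₁) • aeval hb pγ * aeval hb p)) := by
    intro ω p hT
    have a1 := II_prj hC π₂ o2' (pl C (Prj.p1 X₁ X) ω * pl C (Prj.p2 X₁ X) y)
      (pb (j₁.comp ι₁) (aeval hb p))
    have a2 := Fe_tr hC (((X₁.prod X).ext P₀).ext Q) o2'.nz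
      ((β₁.map Q).comp (r1.map Q).toCrd) (j₁.comp ι₁) (b := b') (by
        funext s
        rcases s with ⟨i | i, s⟩ <;> rfl)
      (pl C π₂ (pl C (Prj.p1 X₁ X) ω * pl C (Prj.p2 X₁ X) y)) p
    have a3 := II_prj hC σ₁ o1' ω (pb ι₁ (aeval hb (pγ * p)))
    have a4 := Fe_tr hC ((X₁.ext P₀).ext Q) o1'.nz (β₁.map Q) ι₁ (b := b') (by
      funext s
      rcases s with ⟨i | i, s⟩ <;> rfl) (pl C σ₁ ω) (pγ * p)
    have a5 := H' (pl C σ₁ ω * aeval hz p)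
    have a6 : tau C _ (e * (pl C σ₁ ω * aeval hz p)) = 0 :=
      Desc_CS _ (tau C _ ∘ₗ LinearMap.mulRight ℚ (pl C σ₁ ω * aeval hz p))
        (fun U b1 b2 => hT U b1 b2.1 b2.2) he
    have a7 : pl C π₂ (pl C (Prj.p1 X₁ X) ω * pl C (Prj.p2 X₁ X) y) *
        aeval (fun i => hy C _ (((β₁.map Q).comp (r1.map Q).toCrd).ψ i)) p =
        pl C (r1.map Q) (pl C σ₁ ω * aeval hz p) *
          pl C (((Prj.one X P₀).comp r2).comp (Prj.one _ Q)) y := by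
      rw [map_mul, map_mul, mul_right_comm, ← pl_comp C π₂ _ ((Prj.p1 X₁ X).comp π₂)
        (fun _ => rfl), ← pl_comp C (r1.map Q) _ ((Prj.p1 X₁ X).comp π₂) (fun _ => rfl),
        ← pl_comp C π₂ _ (((Prj.one X P₀).comp r2).comp (Prj.one _ Q)) (fun _ => rfl),
        ← AlgHom.comp_apply (pl C (r1.map Q)), comp_aeval]
      congr 4
      funext i
      rw [hhz, pl_hy]
      rfl
    refine a1.trans (a2.symm.trans ?_)
    rw [a7, m2, a5, a6, add_zero, smul_mul_assoc, map_smul, map_smul, ← map_mul]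
    erw [a3]
    rw [← a4, m1, ← hhz, map_mul (aeval hz), c1, smul_eq_mul, mul_assoc, mul_comm (aeval hz p)]
    field_simp
  refine ⟨Submodule.span ℚ (Set.range hb), Submodule.span_le.2 ?_,
    fun i => Submodule.subset_span ⟨Sum.inl i, rfl⟩, _, Submodule.smul_mem _ (n₂ / n₁) c2,
    fun g hg' ω g' hc => ?_⟩
  · rintro _ ⟨i, rfl⟩
    exact hh_mem _
  rw [Algebra.adjoin_span, Algebra.adjoin_range_eq_range_aeval] at hg'
  obtain ⟨p, rfl⟩ := hg'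
  rcases hc with ⟨rfl, h2 | ⟨σ, u', hu', rfl⟩⟩ | ⟨i, rfl⟩
  · exact core ω p fun T _ _ a => by omega
  · refine core _ p fun T a1 a2 a3 => ?_
    rw [map_mul (pl C σ₁), mul_assoc, ← pl_comp C σ₁ σ (σ.comp σ₁) fun _ => rfl]
    refine nm_kill hC.cyc hX _ a1 hy' ?_ (mul_mem (pl_HA C σ₁ hu') ?_)
    · have b1 := fib1.le a2
      have b2 : sdim ((σ.comp σ₁).img T) ≤ sdim ((Crd.inl k _ Q).img T) := by
        have := (σ.toCrd.comp (Crd.inl k P₁ P₀)).sdim_img_le ((Crd.inl k _ Q).img T)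
        rwa [← Crd.img_comp] at this
      omega
    · induction p using MvPolynomial.induction_on with
      | C q => rw [aeval_C]; exact Subalgebra.algebraMap_mem _ q
      | add p q b1 b2 => rw [map_add]; exact add_mem b1 b2
      | mul_X p i b1 =>
        rw [map_mul, aeval_X]
        exact mul_mem b1 (Algebra.subset_adjoin ⟨_, rfl⟩)
  · let i' : (P₀.sum Q).ι := Sum.inl i
    have := core ω (MvPolynomial.X i' * p) fun T a1 _ a3 => by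
      have b1 := cy_van hC.cyc _ (β₁.comp (Crd.inl k _ Q)) a1 [Finsupp.single i 1] (by
        rw [Crd.img_comp, List.length_singleton]
        omega)
      rw [List.map_singleton, Finsupp.mapDomain_single, num2_lp_cons, ln_single] at b1
      rw [nm_apply, map_mul (aeval hz), aeval_X, mul_left_comm, ← mul_assoc (cy C _ T),
        show cy C _ T * hz i' = 0 from (mul_one (hz i')) ▸ b1]
      simp
    rw [map_mul (aeval hb), aeval_X] at this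
    exact this

end Pool.Agent.Work.MP_ffcd14_ag.Uni
end

-- merged part: Pool.Agent.Work.MP_ffcd14_ag.Uni.Ff
section
/-! # The projection formula for a fibre square, for finitely many classes of the base -/

open MvPolynomial

namespace Pool.Agent.Work.MP_ffcd14_ag.Uni

universe u v w

variable {k F L L₁ L₂ W : Type u} [Field k] [Field F] [Field L] [Field L₁] [Field L₂] [Field W]
  [Algebra k F] [Algebra k L] [Algebra k L₁] [Algebra k L₂] [Algebra k W]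
  {K : Type v} [Field K] [CharZero K] {P P' : Amb} {C : NT.{u, v, w} k K}

theorem Ff_deg [Fg k F] {ι₁ : F →ₐ[k] L₁} {t₁ : L₁} {ι₂ : F →ₐ[k] L₂} {t₂ : L₂}
    {j₁ : L₁ →ₐ[k] W} {j₂ : L₂ →ₐ[k] W} (h : Dbl ι₁ t₁ ι₂ t₂ j₁ j₂) {s : Set L₁}
    (hs : rn k (Set.range ι₁ ∪ s) ≠ td k F + 1) : rn k (j₁ '' s ∪ Set.range j₂) < td k W := by
  obtain ⟨_, _, _, t1, t2, tW⟩ := Fe_td h
  have a0 := rn_le_td (k := k) (Set.range ι₁ ∪ s)
  have a1 := Fe_rn_up (Set.image_mono (f := j₁) (Set.subset_union_left (s := Set.range ι₁) (t := s)))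
    (by rw [rn_image, rn_image, rn_range]; omega) (Set.range j₂)
  have a2 : rn k (j₁ '' Set.range ι₁ ∪ Set.range j₂) ≤ rn k (Set.range j₂) := by
    refine rn_mono (Set.union_subset ?_ subset_rfl)
    rintro _ ⟨_, ⟨f, rfl⟩, rfl⟩
    exact ⟨ι₂ f, (AlgHom.congr_fun h.comm f).symm⟩
  have a3 : rn k (j₁ '' s ∪ Set.range j₂) ≤ rn k (j₁ '' (Set.range ι₁ ∪ s) ∪ Set.range j₂) :=
    rn_mono (Set.union_subset_union_left _ (Set.image_mono Set.subset_union_right))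
  rw [rn_range] at a2
  omega

theorem Ff_big [Fg k F] (A : FD k F) : ∃ G, A ∣ G ∧ rn k (rt G) = td k F := by
  obtain ⟨G, hG⟩ := exists_gen_fd (k := k) (L := F)
  exact ⟨A * G, dvd_mul_right _ _, le_antisymm (rn_le_td _)
    (rn_gen hG ▸ rn_mono (rt_dvd (dvd_mul_left _ _)))⟩

theorem Ff_poly {V : FD k L} {r : N k L} (hr : r ∈ Dat V) : ∃ (Q : Amb) (η : Q.V → L) (i : Q.ι)
    (p : MvPolynomial Q.ι ℚ), NZ η ∧ (∀ j, blk k η j ∣ V) ∧ blk k η i = V ∧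
      aeval (fun j => hh (blk k η j)) p = r := by
  obtain ⟨n, f, g, rfl⟩ := Submodule.mem_span_set'.1 hr
  choose U h1 h2 using fun i => (g i).2
  obtain ⟨σ, _, η, nη, hη⟩ := exists_coords (k := k) fun o : Option (Fin n) => o.elim V U
  refine ⟨_, η, none, ∑ i, f i • MvPolynomial.X (some i), nη, fun j => ?_, hη _, ?_⟩
  · rw [hη]
    cases j
    exacts [dvd_rfl, h1 _]
  · simp only [map_sum, map_smul, aeval_X, hη, h2, Option.elim]

variable [IsAlgClosed k] (hC : C.Chow)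
include hC

theorem Ff_tr [Fg k L] {Ω : Var k P'} {X : Var k P} (π : Prj Ω X) {w : P'.V → L} (hw : NZ w)
    (ι : F →ₐ[k] L) {b : P.V → F} (e : w ∘ π.ε = ι ∘ b) (ω : EE C Ω) (p : MvPolynomial P.ι ℚ)
    (ρ : N k L) : II C Ω w (ω * pl C π (aeval (hy C X) p)) ρ =
      II C Ω w ω (pb ι (aeval (fun i => hh (blk k b i)) p) * ρ) := by
  have h1 := II_aeval hC Ω hw ω (rename π.ψ p) ρ
  rw [aeval_rename, aeval_rename] at h1
  rw [← AlgHom.comp_apply, comp_aeval, ← AlgHom.comp_apply, comp_aeval]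
  simp only [pl_hy, pb_hh, ← blk_map, ← e, blk_comp hw]
  exact h1

variable [Fg k F]

theorem Ff_bc {ι₁ : F →ₐ[k] L₁} {t₁ : L₁} {ι₂ : F →ₐ[k] L₂} {t₂ : L₂} {j₁ : L₁ →ₐ[k] W}
    {j₂ : L₂ →ₐ[k] W} (h : Dbl ι₁ t₁ ι₂ t₂ j₁ j₂) {r : N k L₁} (hr : r ∈ N1 k L₁) {d : ℚ}
    (hd : FDeg C ι₁ r d) : FDeg C j₂ (pb j₁ r) d := by
  obtain ⟨_, _, _, t1, t2, tW⟩ := Fe_td h
  obtain ⟨d', hd'⟩ := exists_fdeg hC j₂ (by omega) (pb_N1 j₁ hr)
  obtain ⟨G, -, hG⟩ := Ff_big (1 : FD k F)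
  have a1 := hd'.jj (-cl (vD k t₂ ⊓ pD ι₂ 0) * pb ι₂ (hh G ^ td k F))
  have a2 := (fdeg_one hC h.s₁ 0).jj (r * pb ι₁ (hh G ^ td k F))
  have a3 : pD j₂ (vD k t₂ ⊓ pD ι₂ 0) = vD k (j₂ t₂) ⊓ pD j₁ 0 := DD.ext fun v => by simp
  rw [(fdeg_one hC h.two 0).jj, map_mul (pb j₂), map_neg (pb j₂), pb_cl, a3, ← pb_comp, ← h.comm,
    pb_comp, mul_left_comm, ← map_mul, a2, hd.jj, one_mul, one_mul] at a1
  rwa [mul_right_cancel₀ (JJ_pos1 hC hG).ne' a1]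

variable {X : Var k P} (hX : IsIrreducible X.pts) {y : EE C X} (hy' : y ∈ AA C X 2)
include hX hy'

theorem Ff_pack (h3 : td k F ≤ 3) {ι₁ : F →ₐ[k] L₁} {t₁ : L₁} {ι₂ : F →ₐ[k] L₂} {t₂ : L₂}
    {A : FD k F} {V₁ : FD k L₁} {V₂ : FD k L₂} {x₁ : P.V → L₁} {x₂ : P.V → L₂}
    (h₁ : CF ι₁ t₁ A V₁ X x₁) (h₂ : CF ι₂ t₂ A V₂ X x₂) {j₁ : L₁ →ₐ[k] W} {j₂ : L₂ →ₐ[k] W}
    (h : Dbl ι₁ t₁ ι₂ t₂ j₁ j₂) (f₁ : rn k (Set.range ι₁ ∪ rat x₁) = td k F + 1)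
    (f₂ : rn k (Set.range ι₂ ∪ rat x₂) = td k F + 1) {r : N k L₁} (hr : r ∈ Dat V₁) {J : Type}
    [Finite J] {g : J → N k F} (hg : ∀ j, g j ∈ N1 k F) :
    ∃ S : Subalgebra ℚ (N k F), (∀ j, g j ∈ S) ∧ ∃ γ ∈ N1 k F, γ ∈ S ∧
      (∀ z ∈ S, II C (X.prod X) (Amb.elim (j₁ ∘ x₁) (j₂ ∘ x₂)) (ot C X y y) (pb (j₁.comp ι₁) z) =
        II C X x₁ y (pb ι₁ (γ * z))) ∧
      II C (X.prod X) (Amb.elim (j₁ ∘ x₁) (j₂ ∘ x₂)) (ot C X y y) (pb j₁ r) =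
        II C X x₁ y (r * pb ι₁ γ) ∧
      (td k F ≤ 2 → ∀ z ∈ S, II C X x₂ y (pb ι₂ z) = JJ C F (γ * z)) ∧
      ∀ j, ∀ z ∈ S, II C X x₂ y (pb ι₂ (g j * z)) = JJ C F (γ * (g j * z)) := by
  obtain ⟨_, _, _, t1, t2, tW⟩ := Fe_td h
  choose a a' ha ha' ea using fun j => exists_nef_sub (hg j)
  choose q U _ eq using ha
  choose q' U' _ eq' using ha'
  obtain ⟨P₀, b, c, e, hc, hb, hR, he⟩ :=
    Fb_model (k := k) fun o : Option (J ⊕ J) => o.elim A (Sum.elim U U')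
  have eg : ∀ j, g j = q j • hh (blk k b (e (some (.inl j)))) -
      q' j • hh (blk k b (e (some (.inr j)))) := fun j => by
    rw [he, he, ea, eq, eq']
    rfl
  obtain rfl : A = blk k b (e none) := (he none).symm
  obtain ⟨Q, η, i₁, p, nη, d1, d2, rfl⟩ := Ff_poly hr
  have o1 := h₁.on.ext (X := X) nη
  set x' := Amb.elim x₁ η with hx'
  obtain ⟨S, s1, s2, γ, hγ, H⟩ := Fe_main hC hX hy' h3 hc hb hR (X₁ := X.ext Q) (x₁ := x')
    ⟨h₁.simp, o1, by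
      rintro (i | i)
      · exact h₁.dvd i
      · exact d1 i, h₁.eqd⟩ h₂ h (le_antisymm (t1 ▸ rn_le_td _) (f₁ ▸ rn_mono
        (Set.union_subset_union_right _ (by rw [hx', rat_elim]; exact Set.subset_union_left)))) f₂
  have oW := (o1.map j₁).prod (h₂.on.map j₂)
  set w := Amb.elim (j₁ ∘ x') (j₂ ∘ x₂) with hw
  let π : Prj ((X.ext Q).prod X) (X.prod X) :=
    ⟨((Crd.inl k P Q).comp (Crd.inl k _ P)).pair (Crd.inr k _ P), fun _ hz => ⟨hz.1.1, hz.2⟩⟩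
  have eπ : w ∘ π.ε = Amb.elim (j₁ ∘ x₁) (j₂ ∘ x₂) := by
    funext s
    rcases s with ⟨i | i, s⟩ <;> rfl
  have SS : ∀ (p : MvPolynomial (P.sum Q).ι ℚ), ∀ z ∈ Algebra.adjoin ℚ (S : Set (N k F)),
      II C (X.prod X) (Amb.elim (j₁ ∘ x₁) (j₂ ∘ x₂)) (ot C X y y)
        (pb j₁ (aeval (fun i => hh (blk k x' i)) p) * pb (j₁.comp ι₁) z) =
      II C X x₁ y (aeval (fun i => hh (blk k x' i)) p * pb ι₁ (γ * z)) := fun p z hz => by
    have a1 := H z hz (pl C (Prj.one X Q) y * aeval (hy C _) p) z (Or.inl ⟨rfl, Or.inr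
      ⟨_, _, by
        rw [HA, Algebra.adjoin_range_eq_range_aeval]
        exact ⟨p, rfl⟩, rfl⟩⟩)
    rw [II_aeval hC _ o1.nz, ← II_prj hC _ o1, map_mul (pl C _), mul_right_comm,
      Ff_tr hC (Prj.p1 _ X) oW.nz j₁ (b := x') rfl] at a1
    refine Eq.trans ?_ a1
    rw [← eπ, II_prj hC π oW, ot, map_mul (pl C _),
      ← pl_comp C π _ ((Prj.one X Q).comp (Prj.p1 _ X)) fun _ => rfl,
      ← pl_comp C π _ (Prj.p2 _ X) fun _ => rfl,
      pl_comp C (Prj.p1 _ X) (Prj.one X Q) _ fun _ => rfl]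
  obtain ⟨d, hd⟩ := exists_fdeg hC ι₁ t1 (hh_mem V₁)
  have d0 : 0 < d := (hd.pos_iff hC t1).2 (le_antisymm (rn_le_td _) (by
    rw [t1, ← f₁]
    exact rn_mono (Set.union_subset_union_right _ (rat_subset h₁.on.nz h₁.dvd))))
  have R : ∀ z ∈ Algebra.adjoin ℚ (S : Set (N k F)), ∀ z', (z' = z ∧ td k F ≤ 2) ∨
      (∃ i, z' = hh (blk k b i) * z) → II C X x₂ y (pb ι₂ z') = JJ C F (γ * z') := by
    intro z hz z' hz'
    let i' : (P.sum Q).ι := Sum.inr i₁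
    have a1 := H z hz (aeval (hy C _) (MvPolynomial.X i' : MvPolynomial _ ℚ)) z'
      (hz'.imp_left fun a => ⟨a.1, Or.inl a.2⟩)
    have a2 : aeval (fun i => hh (blk k x' i)) (MvPolynomial.X i' : MvPolynomial _ ℚ) = hh V₁ := by
      rw [aeval_X, ← d2]
      rfl
    rw [mul_comm, Ff_tr hC (Prj.p1 _ X) oW.nz j₁ (b := x') rfl, ← II_prj hC _ oW, a2,
      ← one_mul (aeval _ _), II_aeval hC _ o1.nz, a2, II_one hC _ o1, hd.jj, h.comm, pb_comp] at a1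
    exact mul_left_cancel₀ d0.ne'
      (((Ff_bc hC h (hh_mem V₁) hd).ii X x₂ h₂.on.nz y _).symm.trans a1)
  refine ⟨Algebra.adjoin ℚ (S : Set (N k F)), fun j => Algebra.subset_adjoin ?_, γ, s1 hγ,
    Algebra.subset_adjoin hγ, fun z hz => by simpa using SS 1 z hz, ?_,
    fun h2 z hz => R z hz z (Or.inl ⟨rfl, h2⟩), fun j z hz => ?_⟩
  · rw [eg]
    exact sub_mem (S.smul_mem _ (s2 _)) (S.smul_mem _ (s2 _))
  · have := SS (rename (Crd.inr k P Q).ψ p) 1 (one_mem _)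
    rw [aeval_rename, map_one, mul_one, mul_one] at this
    exact this
  · simp only [eg, sub_mul, mul_sub, smul_mul_assoc, mul_smul_comm, map_sub, map_smul,
      R z hz _ (Or.inr ⟨_, rfl⟩)]

end Pool.Agent.Work.MP_ffcd14_ag.Uni
end

-- merged part: Pool.Agent.Work.MP_ffcd14_ag.Uni.F0
section
/-! # The push-forward of a class of codimension two along a family of rational curves -/

open MvPolynomial

namespace Pool.Agent.Work.MP_ffcd14_ag.Uni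

universe u v w

variable {k F L L₁ L₂ W : Type u} [Field k] [Field F] [Field L] [Field L₁] [Field L₂] [Field W]
  [Algebra k F] [Algebra k L] [Algebra k L₁] [Algebra k L₂] [Algebra k W]
  {K : Type v} [Field K] [CharZero K] {P : Amb} {C : NT.{u, v, w} k K}
  [IsAlgClosed k] [Fg k F] (hC : C.Chow) {X : Var k P}
include hC

theorem F0_van {ι : F →ₐ[k] L} {t : L} {A : FD k F} {Vη : FD k L} {x : P.V → L}
    (h : CF ι t A Vη X x) (f : rn k (Set.range ι ∪ rat x) ≠ td k F + 1) (y : EE C X) (g : N k F) :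
    II C X x y (pb ι g) = 0 := by
  have := h.simp.fg
  refine II_van1 hC X h.on.nz ?_ y (pb_adjoin ι g)
  have := rn_le_td (k := k) (Set.range ι ∪ rat x)
  rw [Set.union_comm, h.simp.td_eq] at this ⊢
  rw [Set.union_comm] at this
  omega

theorem F0_van2 {ι₁ : F →ₐ[k] L₁} {t₁ : L₁} {ι₂ : F →ₐ[k] L₂} {t₂ : L₂} {x₁ : P.V → L₁}
    {x₂ : P.V → L₂} (n₁ : NZ x₁) (n₂ : NZ x₂) {j₁ : L₁ →ₐ[k] W} {j₂ : L₂ →ₐ[k] W}
    (h : Dbl ι₁ t₁ ι₂ t₂ j₁ j₂) (ω : EE C (X.prod X)) :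
    (rn k (Set.range ι₁ ∪ rat x₁) ≠ td k F + 1 → ∀ r,
      II C (X.prod X) (Amb.elim (j₁ ∘ x₁) (j₂ ∘ x₂)) ω (pb j₂ r) = 0) ∧
    (rn k (Set.range ι₂ ∪ rat x₂) ≠ td k F + 1 → ∀ r,
      II C (X.prod X) (Amb.elim (j₁ ∘ x₁) (j₂ ∘ x₂)) ω (pb j₁ r) = 0) := by
  have := (Fe_td h).2.2.1
  have n := (n₁.map j₁).elim (n₂.map j₂)
  refine ⟨fun f r => II_van1 hC _ n ((rn_mono ?_).trans_lt (Ff_deg h f)) ω (pb_adjoin j₂ r),
    fun f r => II_van1 hC _ n ((rn_mono ?_).trans_lt (Ff_deg h.symm f)) ω (pb_adjoin j₁ r)⟩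
  all_goals
    rw [rat_elim, rat_map, rat_map]
    rintro z ((⟨a, b, rfl⟩ | ⟨a, b, rfl⟩) | a)
  exacts [Or.inl ⟨a, b, rfl⟩, Or.inr ⟨a, rfl⟩, Or.inr a, Or.inr ⟨a, rfl⟩, Or.inl ⟨a, b, rfl⟩,
    Or.inr a]

variable (hX : IsIrreducible X.pts) {y : EE C X} (hy : y ∈ AA C X 2)
include hX hy

theorem fl2a (h2 : td k F = 2) {ι : F →ₐ[k] L} {t : L} {A : FD k F} {Vη : FD k L} {x : P.V → L}
    (h : CF ι t A Vη X x) : ∃ γ, Rep C ι X x y γ := by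
  by_cases f : rn k (Set.range ι ∪ rat x) = td k F + 1
  swap
  · exact ⟨0, zero_mem _, fun g _ => by rw [F0_van hC h f, zero_mul, map_zero]⟩
  obtain ⟨W, _, _, j₁, j₂, hW⟩ := exists_dbl h.simp h.simp
  obtain ⟨G, -, hG⟩ := Ff_big (1 : FD k F)
  obtain ⟨S₀, m₀, γ₀, n₀, s₀, a₀, -, b₀, -⟩ := Ff_pack hC hX hy (by omega) h h hW f f (zero_mem _)
    (g := fun _ : Unit => hh G) fun _ => hh_mem G
  refine ⟨γ₀, n₀, fun g hg => ?_⟩
  obtain ⟨S₁, m₁, γ₁, n₁, s₁, a₁, -, b₁, -⟩ := Ff_pack hC hX hy (by omega) h h hW f f (zero_mem _)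
    (g := ![hh G, γ₀, g]) fun j => by fin_cases j <;> simp [hh_mem, *]
  have c₀ := b₀ h2.le
  have c₁ := b₁ h2.le
  have e1 : JJ C F (γ₁ * hh G) = JJ C F (γ₀ * hh G) := (c₁ _ (m₁ 0)).symm.trans (c₀ _ (m₀ ()))
  have e2 : JJ C F (γ₁ * γ₀) = JJ C F (γ₀ * γ₀) := (c₁ _ (m₁ 1)).symm.trans (c₀ _ s₀)
  have e3 : JJ C F (γ₁ * γ₁) = JJ C F (γ₀ * γ₀) := by
    rw [← c₁ _ s₁, ← c₀ _ s₀, ← mul_one γ₁, ← a₁ _ (one_mem _), a₀ _ (one_mem _), mul_one]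
  have := (JJ_rcs hC [] (by simp) (by simp [h2])).null (hh_mem G) (sub_mem n₁ n₀)
    (by simpa [h2, pow_two] using JJ_pos1 hC hG)
    (by rw [List.prod_nil, one_mul, mul_comm, sub_mul, map_sub, e1, sub_self])
    (by rw [List.prod_nil, one_mul, mul_sub, sub_mul, sub_mul, mul_comm γ₀ γ₁]
        simp only [map_sub, e2, e3, sub_self]) hg
  rw [List.prod_nil, one_mul, sub_mul, map_sub, sub_eq_zero] at this
  exact (c₁ _ (m₁ 2)).trans this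

theorem fl2b (h2 : td k F = 2) {ι₁ : F →ₐ[k] L₁} {t₁ : L₁} {ι₂ : F →ₐ[k] L₂} {t₂ : L₂}
    {A : FD k F} {V₁ : FD k L₁} {V₂ : FD k L₂} {x₁ : P.V → L₁} {x₂ : P.V → L₂}
    (h₁ : CF ι₁ t₁ A V₁ X x₁) (h₂ : CF ι₂ t₂ A V₂ X x₂) {j₁ : L₁ →ₐ[k] W} {j₂ : L₂ →ₐ[k] W}
    (h : Dbl ι₁ t₁ ι₂ t₂ j₁ j₂) {γ₁ γ₂ : N k F} (r₁ : Rep C ι₁ X x₁ y γ₁)
    (r₂ : Rep C ι₂ X x₂ y γ₂) :
    II C (X.prod X) (Amb.elim (j₁ ∘ x₁) (j₂ ∘ x₂)) (ot C X y y) 1 = JJ C F (γ₁ * γ₂) := by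
  obtain ⟨v₁, v₂⟩ := F0_van2 hC h₁.on.nz h₂.on.nz h (ot C X y y)
  by_cases f₁ : rn k (Set.range ι₁ ∪ rat x₁) = td k F + 1
  swap
  · rw [← r₁.eq _ r₂.mem, F0_van hC h₁ f₁, ← v₁ f₁ 1, map_one (pb j₂)]
  by_cases f₂ : rn k (Set.range ι₂ ∪ rat x₂) = td k F + 1
  swap
  · rw [mul_comm, ← r₂.eq _ r₁.mem, F0_van hC h₂ f₂, ← v₂ f₂ 1, map_one (pb j₁)]
  obtain ⟨S, m, γ, n, -, a, -, b, -⟩ := Ff_pack hC hX hy (by omega) h₁ h₂ h f₁ f₂ (zero_mem _)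
    (g := fun _ : Unit => γ₁) fun _ => r₁.mem
  have := a _ (one_mem _)
  rw [map_one, mul_one, r₁.eq _ n, mul_comm, ← b h2.le _ (m ()), r₂.eq _ r₁.mem, mul_comm] at this
  exact this

theorem fl3 (h3 : td k F = 3) {ι : F →ₐ[k] L} {t : L} {A : FD k F} {Vη : FD k L} {x : P.V → L}
    (h : CF ι t A Vη X x) {j₁ j₂ : L →ₐ[k] W} (hW : Dbl ι t ι t j₁ j₂) {r : N k L}
    (hr : r ∈ Dat Vη) : ∃ γ ∈ N1 k F,
      (∀ Λ ∈ Dat A, ∀ g ∈ N1 k F, II C X x y (pb ι (Λ * g)) = JJ C F (Λ * γ * g)) ∧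
      II C (X.prod X) (Amb.elim (j₁ ∘ x) (j₂ ∘ x)) (ot C X y y) (pb j₁ r) =
        II C X x y (r * pb ι γ) ∧
      ∀ Λ ∈ Dat A, II C (X.prod X) (Amb.elim (j₁ ∘ x) (j₂ ∘ x)) (ot C X y y)
        (pb (j₁.comp ι) Λ) = JJ C F (Λ * γ * γ) := by
  by_cases f : rn k (Set.range ι ∪ rat x) = td k F + 1
  swap
  · have v := (F0_van2 hC h.on.nz h.on.nz hW (ot C X y y)).2 f
    exact ⟨0, zero_mem _, fun Λ _ g _ => by simp [F0_van hC h f, -map_mul], by simp [v],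
      fun Λ _ => by simp [pb_comp, v]⟩
  obtain ⟨G, hA, hG⟩ := Ff_big A
  obtain ⟨S₀, m₀, γ₀, n₀, s₀, a₀, b₀, -, c₀⟩ := Ff_pack hC hX hy h3.le h h hW f f hr
    (g := fun _ : Unit => hh G) fun _ => hh_mem G
  have key : ∀ Λ ∈ Dat A, ∀ g ∈ N1 k F, ∃ γ₁ ∈ N1 k F,
      II C X x y (pb ι (Λ * g)) = JJ C F (Λ * γ₁ * g) ∧
      II C (X.prod X) (Amb.elim (j₁ ∘ x) (j₂ ∘ x)) (ot C X y y) (pb (j₁.comp ι) Λ) =
        II C X x y (pb ι (Λ * γ₁)) ∧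
      ∀ z ∈ N1 k F, JJ C F (Λ * γ₁ * z) = JJ C F (Λ * γ₀ * z) := by
    intro Λ hΛ g hg
    obtain ⟨S₁, m₁, γ₁, n₁, s₁, a₁, -, -, c₁⟩ := Ff_pack hC hX hy h3.le h h hW f f hr
      (g := ![hh G, γ₀, g, Λ]) fun j => by fin_cases j <;> simp [hh_mem, Dat_le_N1 _ hΛ, *]
    refine ⟨γ₁, n₁, (c₁ 3 _ (m₁ 2)).trans (by rw [← mul_assoc, mul_comm γ₁]; rfl),
      (a₁ _ (m₁ 3)).trans (by rw [mul_comm]; rfl), fun z hz => ?_⟩
    have e1 : JJ C F (γ₁ * (hh G * hh G)) = JJ C F (γ₀ * (hh G * hh G)) :=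
      (c₁ 0 _ (m₁ 0)).symm.trans (c₀ () _ (m₀ ()))
    have e2 : JJ C F (γ₁ * (hh G * γ₀)) = JJ C F (γ₀ * (hh G * γ₀)) :=
      (c₁ 0 _ (m₁ 1)).symm.trans (c₀ () _ s₀)
    have e3 : JJ C F (γ₁ * (hh G * γ₁)) = JJ C F (γ₀ * (hh G * γ₀)) := by
      refine (c₁ 0 _ s₁).symm.trans (Eq.trans ?_ (c₀ () _ s₀))
      rw [mul_comm _ γ₁, mul_comm _ γ₀, ← a₁ _ (m₁ 0), ← a₀ _ (m₀ ())]
      rfl
    obtain ⟨c, -, hc⟩ := null0 hC h3 (hG.trans h3) (Dat_mono hA hΛ)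
    have := hc _ (sub_mem n₁ n₀) z hz
    have e4 : nrm (JJ C F) (hh G) (hh G) (γ₁ - γ₀) = 0 := by
      rw [nrm, show hh G * hh G * (γ₁ - γ₀) = γ₁ * (hh G * hh G) - γ₀ * (hh G * hh G) by ring,
        show hh G * (γ₁ - γ₀) * (γ₁ - γ₀) = γ₁ * (hh G * γ₁) - γ₁ * (hh G * γ₀) -
          (γ₁ * (hh G * γ₀) - γ₀ * (hh G * γ₀)) by ring]
      simp only [map_sub, e1, e2, e3]
      simp
    rw [e4, mul_zero, zero_mul, mul_sub, sub_mul, map_sub] at this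
    exact sub_eq_zero.1 (pow_eq_zero_iff two_ne_zero |>.1 (le_antisymm this (sq_nonneg _)))
  have k1 : ∀ Λ ∈ Dat A, ∀ g ∈ N1 k F, II C X x y (pb ι (Λ * g)) = JJ C F (Λ * γ₀ * g) :=
    fun Λ hΛ g hg => by
      obtain ⟨_, -, a, -, b⟩ := key Λ hΛ g hg
      exact a.trans (b g hg)
  refine ⟨γ₀, n₀, k1, b₀, fun Λ hΛ => ?_⟩
  obtain ⟨γ₁, n₁, -, a, b⟩ := key Λ hΛ γ₀ n₀
  rw [a, k1 Λ hΛ _ n₁, mul_right_comm, b _ n₀]

end Pool.Agent.Work.MP_ffcd14_ag.Uni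
end

-- merged part: Pool.Agent.Work.MP_ffcd14_ag.Uni.S0a
section
/-! # The classes on the vertices of a tree and the expansion along a tail -/

open MvPolynomial

namespace Pool.Agent.Work.MP_ffcd14_ag.Uni

universe u v w

variable {k F L : Type u} [Field k] [Field F] [Field L] [Algebra k F] [Algebra k L]
  {K : Type v} [Field K] [CharZero K] {P : Amb} (C : NT.{u, v, w} k K)
  {ι : F →ₐ[k] L} {t : L}

theorem S0a_pr_dvd {a : L} (ha : a ≠ 0) (U : FD k L) : FD.pr a * U ∣ U := by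
  have h1 : (FD.pr (1 : L) : FD k L) = 1 :=
    FD.ext (by rw [FD.pr_val one_ne_zero, FD.one_val, Submodule.one_eq_span])
  refine ⟨FD.pr a⁻¹, ?_⟩
  rw [mul_right_comm, ← FD.pr_mul ha (inv_ne_zero ha), mul_inv_cancel₀ ha, h1, one_mul]

theorem S0a_rat {x : P.V → L} (hx : NZ x) {V : FD k L} (h : ∀ i, blk k x i ∣ V) (ν : Dv k L) :
    rat (rpt ν x) ⊆ rt (ν.Res V) :=
  rat_subset (hx.rpt ν) fun i => by rw [blk_rpt hx]; exact map_dvd _ (h i)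

theorem S0a_cf {A : FD k F} {Vη : FD k L} {X : Var k P} {x : P.V → L} (h : CF ι t A Vη X x)
    {u : L} {c : Dv k F} {ν : Dv k L} (g : Gs ι u c ν) :
    CF g.ov.kmap (ν.res u) (c.Res A) (ν.Res Vη) X (rpt ν x) where
  simp := g.simp
  on := h.on.rpt ν
  dvd i := by rw [blk_rpt h.on.nz]; exact map_dvd _ (h.dvd i)
  eqd := by
    obtain ⟨a, ha, e⟩ := Res_map_ov g.ov A
    have := h.eqd.res ν
    rw [e] at this
    exact this.mono (S0a_pr_dvd ha _)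

theorem S0a_vq_pD {c : Dv k F} {ν : Dv k L} (h : ∀ f, ν (ι f) = c f) (D : DD k F) :
    ν.vq (pD ι D) = c.vq D := by
  simpa using vq_pD_ov (e := 1) (by simpa using h) D

theorem S0a_vq_nonneg (ν : Dv k L) {D : DD k L} (h : 0 ≤ D) : 0 ≤ ν.vq D := by
  simpa using ν.vq_mono h

open Classical in
/-- The vertices over `c`. -/
noncomputable def S0a_Vs {V : FD k L} (τ : Tree ι t V) (c : Dv k F) : Finset (Dv k L) :=
  if h : {ν | ∃ β, τ.Vx c ν β}.Finite then h.toFinset else ∅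

theorem S0a_mem_Vs {V : FD k L} (τ : Tree ι t V) (ht : Simp ι t) {c : Dv k F} {ν : Dv k L} :
    ν ∈ S0a_Vs τ c ↔ ∃ β, τ.Vx c ν β := by
  have h : {ν | ∃ β, τ.Vx c ν β}.Finite := by
    rw [Set.ofPred_exists]
    exact Set.finite_iUnion fun β =>
      Set.Subsingleton.finite fun _ h _ h' => Tree.Vx.unique τ ht h h'
  rw [S0a_Vs, dif_pos h, Set.Finite.mem_toFinset, Set.mem_ofPred_eq]

theorem S0a_Vs_ov {V : FD k L} (τ : Tree ι t V) (ht : Simp ι t) {c : Dv k F} {ν : Dv k L}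
    (h : ν ∈ S0a_Vs τ c) : Ov ι c.toVl ν.toVl := by
  obtain ⟨β, ϖ, -, -, g⟩ := (S0a_mem_Vs τ ht).1 h
  exact g.ov

open Classical in
/-- The push-forward of `y` along the family of curves given by `ν`. -/
noncomputable def S0a_gam (ι : F →ₐ[k] L) (X : Var k P) (x : P.V → L) (y : EE C X) (c : Dv k F)
    (ν : Dv k L) : N k c.κ :=
  if h : ∃ γ, ∃ ho : Ov ι c.toVl ν.toVl, Rep C ho.kmap X (rpt ν x) y γ then h.choose else 0

theorem S0a_gam_mem (X : Var k P) (x : P.V → L) (y : EE C X) (c : Dv k F) (ν : Dv k L) :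
    S0a_gam C ι X x y c ν ∈ N1 k c.κ := by
  unfold S0a_gam
  split_ifs with h
  · exact h.choose_spec.2.mem
  · exact zero_mem _

/-- The indicator function of the support of a tail. -/
noncomputable def S0a_eps {V : FD k L} (τ : Tree ι t V) (S : τ.Cl) (ν : Dv k L) : ℚ :=
  if ν.vq (τ.TT S) = 0 then 0 else 1

/-- The degree of `y` on a tail. -/
noncomputable def S0a_W {V : FD k L} (τ : Tree ι t V) (X : Var k P) (x : P.V → L) (y : EE C X)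
    (S : τ.Cl) (c : Dv k F) : N k c.κ :=
  ∑ ν ∈ S0a_Vs τ c, S0a_eps τ S ν • S0a_gam C ι X x y c ν

theorem S0a_W_mem {V : FD k L} (τ : Tree ι t V) (X : Var k P) (x : P.V → L) (y : EE C X)
    (S : τ.Cl) (c : Dv k F) : S0a_W C τ X x y S c ∈ N1 k c.κ :=
  Submodule.sum_mem _ fun ν _ => Submodule.smul_mem _ _ (S0a_gam_mem C X x y c ν)

theorem S0a_vq_TT {V : FD k L} (τ : Tree ι t V) (ht : Simp ι t) {c : Dv k F} {ν : Dv k L}
    (h : ν ∈ S0a_Vs τ c) (S : τ.Cl) : ν.vq (τ.TT S) = S0a_eps τ S ν * c.vq (τ.dl S) := by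
  obtain ⟨β, h⟩ := (S0a_mem_Vs τ ht).1 h
  unfold S0a_eps
  split_ifs with h0
  · rw [h0, zero_mul]
  · rw [Tree.Vx.vq_TT τ ht h] at h0 ⊢
    split_ifs at h0 ⊢ with h1
    · rw [one_mul]
    · exact absurd rfl h0

theorem S0a_vq_TG {V : FD k L} (τ : Tree ι t V) (ht : Simp ι t) {c : Dv k F} {ν : Dv k L}
    (h : ν ∈ S0a_Vs τ c) (S : τ.Cl) {G : DD k F} (hG : 0 ≤ G) (hG' : G ≤ τ.dl S) :
    ν.vq (τ.TG S G) = S0a_eps τ S ν * c.vq G := by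
  rw [Tree.TG, ν.vq_inf, S0a_vq_TT τ ht h]
  obtain ⟨β, ϖ, -, -, g⟩ := (S0a_mem_Vs τ ht).1 h
  rw [S0a_vq_pD g.val]
  unfold S0a_eps
  split_ifs
  · rw [zero_mul, zero_mul, min_eq_left (S0a_vq_nonneg c hG)]
  · rw [one_mul, one_mul, min_eq_right (c.vq_mono hG')]

/-- A valuation in the support of a tail is not trivial on the base. -/
theorem S0a_not_tv {ν : Dv k L} {D : DD k L} {G : DD k F} (h0 : 0 ≤ D) (h : D ≤ pD ι G)
    (hν : ν.vq D ≠ 0) : ¬ Tv ι ν.toVl := fun h1 =>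
  hν (le_antisymm ((ν.vq_mono h).trans (vq_pD_tv h1 G).le) (S0a_vq_nonneg ν h0))

theorem S0a_vq_ne {c : Dv k F} {ν : Dv k L} (ho : Ov ι c.toVl ν.toVl) {D : DD k L} {G : DD k F}
    (h0 : 0 ≤ D) (h : D ≤ pD ι G) (hν : ν.vq D ≠ 0) : c.vq G ≠ 0 := fun h1 => by
  obtain ⟨e, -, he⟩ := Dv.ov_e ho
  refine hν (le_antisymm ((ν.vq_mono h).trans ?_) (S0a_vq_nonneg ν h0))
  rw [vq_pD_ov he, h1, mul_zero]

variable {C} [IsAlgClosed k] [Fg k F] [Fg k L] (hC : C.Chow) (h3 : td k F = 3)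
include h3

theorem S0a_rk {A : FD k F} {ν : Dv k L} (h : ¬ Tv ι ν.toVl)
    (h' : ¬ ∃ c, Pr A c ∧ Ov ι c.toVl ν.toVl) : rn k (rt (ν.Res (FD.map ι A))) ≤ 1 := by
  by_contra h1
  exact h' (exists_over_pr h (by omega))

include hC

variable {A : FD k F} {Vη : FD k L} {X : Var k P} {x : P.V → L}

/-- A valuation with a small centre on the base does not contribute. -/
theorem S0a_van (h : CF ι t A Vη X x) {ν : Dv k L} (hν : rn k (rt (ν.Res (FD.map ι A))) ≤ 1)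
    (ω : EE C X) {r : N k L} (hr : r ∈ Dat (FD.map ι A) ∨ r ∈ Dat Vη) :
    II C X (rpt ν x) ω (ν.rs r) = 0 := by
  have h1 := (h.eqd.res ν).rn_le hC
  have h2 := ν.dim
  have h4 := h.simp.td_eq
  refine II_van1 hC X (h.on.nz.rpt ν) (s := rt (ν.Res (FD.map ι A)) ∪ rt (ν.Res Vη)) ?_ ω
    (Algebra.subset_adjoin ?_)
  · rw [Set.union_eq_self_of_subset_left
      ((S0a_rat h.on.nz h.dvd ν).trans Set.subset_union_right)]
    omega
  · rcases hr with hr | hr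
    · exact Dat_le_NS Set.subset_union_left (dat_rs ν hr)
    · exact Dat_le_NS Set.subset_union_right (dat_rs ν hr)

theorem S0a_exc (h : CF ι t A Vη X x) (y : EE C X) {D : DD k F} (hD : D ∈ XC A) {r : N k L}
    (hr : r ∈ Dat (FD.map ι A) ∨ r ∈ Dat Vη) : II C X x y (cl (pD ι D) * r) = 0 :=
  II_cyc_zero hC X h.on.nz y fun ν hν => S0a_van hC h3 h (by have := rn_exc hD hν; omega) y hr

variable {a : P.ι →₀ ℕ} (ha : ∀ i, 0 < a i) (τ : Tree ι t (sys k x a))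

include ha in
/-- A valuation over a prime divisor which is not a vertex does not contribute. -/
theorem S0a_nv (h : CF ι t A Vη X x) {c : Dv k F} {ν : Dv k L} (ho : Ov ι c.toVl ν.toVl)
    (hv : ν ∉ S0a_Vs τ c) (ω : EE C X) (g : N k F) :
    II C X (rpt ν x) ω (ν.rs (pb ι g)) = 0 := by
  rw [rs_pb_ov ho]
  refine II_van1 hC X (h.on.nz.rpt ν) ?_ ω (pb_adjoin _ _)
  have h1 : rn k (rat (rpt ν x) ∪ Set.range ho.kmap) ≤
      rn k (Set.range ho.kmap ∪ rt (ν.Res (sys k x a))) := by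
    rw [Set.union_comm]
    exact rn_mono (Set.union_subset_union_right _
      (S0a_rat h.on.nz (fun i => blk_dvd_sys x (ha i)) ν))
  have h2 := ν.dim
  have h4 := h.simp.td_eq
  have h5 := rn_le_td (k := k) (Set.range ho.kmap ∪ rt (ν.Res (sys k x a)))
  have h6 : rn k (Set.range ho.kmap ∪ rt (ν.Res (sys k x a))) ≠ td k F := fun e =>
    hv ((S0a_mem_Vs τ h.simp).2 (τ.vertex hC h.simp ho e))
  omega

variable (hX : IsIrreducible X.pts) {y : EE C X} (hy : y ∈ AA C X 2)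
include hX hy

omit [Fg k L] in
theorem S0a_rep (h : CF ι t A Vη X x) {u : L} {c : Dv k F} {ν : Dv k L} (g : Gs ι u c ν) :
    Rep C g.ov.kmap X (rpt ν x) y (S0a_gam C ι X x y c ν) := by
  have h1 : ∃ γ, ∃ ho : Ov ι c.toVl ν.toVl, Rep C ho.kmap X (rpt ν x) y γ := by
    obtain ⟨γ, hγ⟩ := fl2a hC hX hy (by have := c.dim; omega) (S0a_cf h g)
    exact ⟨γ, g.ov, hγ⟩
  rw [S0a_gam, dif_pos h1]
  exact h1.choose_spec.2

include ha in
/-- The expansion along a truncated tail. -/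
theorem S0a_exp (h : CF ι t A Vη X x) (S : τ.Cl) {G : DD k F} (hG : 0 ≤ G) (hG' : G ≤ τ.dl S)
    {g : N k F} (hg : g ∈ N1 k F) (s : Finset (Dv k L))
    (h1 : ∀ ν ∈ s, ¬ ∃ c, Pr A c ∧ Ov ι c.toVl ν.toVl)
    (h2 : ∀ ν ∉ s, (¬ ∃ c, Pr A c ∧ Ov ι c.toVl ν.toVl) →
      ν.vq (τ.TG S G) * II C X (rpt ν x) y (ν.rs (pb ι g)) = 0) :
    II C X x y (cl (τ.TG S G) * pb ι g) =
      ∑ c ∈ prs A (τ.dl S), c.vq G * JJ C c.κ (S0a_W C τ X x y S c * c.rs g) +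
        ∑ ν ∈ s, ν.vq (τ.TG S G) * II C X (rpt ν x) y (ν.rs (pb ι g)) := by
  classical
  rw [II_cyc hC X h.on y _ _ ((prs A (τ.dl S)).biUnion (S0a_Vs τ) ∪ s), Finset.sum_union,
    Finset.sum_biUnion]
  · congr 1
    refine Finset.sum_congr rfl fun c _ => ?_
    rw [S0a_W, Finset.sum_mul, map_sum, Finset.mul_sum]
    refine Finset.sum_congr rfl fun ν hν => ?_
    rw [S0a_vq_TG τ h.simp hν S hG hG']
    obtain ⟨β, ϖ, -, -, g'⟩ := (S0a_mem_Vs τ h.simp).1 hν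
    rw [rs_pb_ov g'.ov, (S0a_rep hC h3 hX hy h g').eq _ (c.rs_N1 hg), smul_mul_assoc, map_smul,
      smul_eq_mul]
    ring
  · intro c _ c' _ hcc
    exact Finset.disjoint_left.2 fun ν h1 h2 =>
      hcc (Dv.ov_unique (S0a_Vs_ov τ h.simp h1) (S0a_Vs_ov τ h.simp h2))
  · refine Finset.disjoint_left.2 fun ν h3 h4 => ?_
    obtain ⟨c, hc, hν⟩ := Finset.mem_biUnion.1 h3
    exact h1 ν h4 ⟨c, (mem_prs.1 hc).1, S0a_Vs_ov τ h.simp hν⟩
  · intro ν hν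
    rw [Finset.mem_union, not_or] at hν
    by_cases hp : ∃ c, Pr A c ∧ Ov ι c.toVl ν.toVl
    · obtain ⟨c, hc, ho⟩ := hp
      refine mul_eq_zero.2 (or_iff_not_imp_left.2 fun h0 => S0a_nv hC h3 ha τ h ho (fun hv => ?_) y g)
      refine hν.1 (Finset.mem_biUnion.2 ⟨c, mem_prs.2 ⟨hc, ?_⟩, hv⟩)
      exact S0a_vq_ne ho (τ.TG_nonneg S hG) (inf_le_left.trans (τ.TT_le h.simp S)) h0
    · exact h2 ν hν.2 hp

include ha in
theorem S0a_tail (h : CF ι t A Vη X x) (S : τ.Cl) {Λ : N k F} (hΛ : Λ ∈ Dat A) {G : DD k F}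
    (hG : 0 ≤ G) (hG' : G ≤ τ.dl S) : II C X x y (pb ι Λ * cl (τ.TG S G)) =
      ∑ c ∈ prs A (τ.dl S), c.vq G * JJ C c.κ (S0a_W C τ X x y S c * c.rs Λ) := by
  rw [mul_comm, S0a_exp hC h3 ha τ hX hy h S hG hG' (Dat_le_N1 A hΛ) ∅ (by simp), Finset.sum_empty,
    add_zero]
  intro ν _ hp
  refine mul_eq_zero.2 (or_iff_not_imp_left.2 fun h0 => S0a_van hC h3 h ?_ y (Or.inl (dat_pb ι hΛ)))
  exact S0a_rk h3 (S0a_not_tv (τ.TG_nonneg S hG) (τ.TG_le S G) h0) hp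

end Pool.Agent.Work.MP_ffcd14_ag.Uni
end

-- merged part: Pool.Agent.Work.MP_ffcd14_ag.Uni.S0b
section
/-! # The contribution of the valuations with small centre on the base -/

open MvPolynomial

namespace Pool.Agent.Work.MP_ffcd14_ag.Uni

universe u v w

variable {k F L : Type u} [Field k] [Field F] [Field L] [Algebra k F] [Algebra k L]
  {K : Type v} [Field K] [CharZero K] {P P' Q : Amb} {C : NT.{u, v, w} k K}
  {ι : F →ₐ[k] L} {t : L}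

theorem S0b_pD_mono {D D' : DD k F} (h : D ≤ D') : pD ι D ≤ pD ι D' := fun v => h (v.comap ι)

theorem S0b_coord (V : FD k L) : ∃ (Q : Amb) (u : Q.V → L), NZ u ∧ sys k u (ones Q) = V := by
  obtain ⟨m, u, hu, h⟩ := exists_coord V
  have e (i : (Amb.one (Fin m)).ι) : ones _ = Finsupp.single i 1 :=
    Finsupp.ext fun j => (Finsupp.single_eq_same (a := i) (b := 1)).symm
  exact ⟨_, u, hu, by rw [e (), ← h]; exact (I0a_sys_single u () 1).trans (pow_one _)⟩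

variable [IsAlgClosed k] (hC : C.Chow)
include hC

theorem S0b_pos (Ω : Var k P') {U : Sub k P'} (hU : (U : Set (P'.Pt k)) ⊆ Ω.pts) (h2 : sdim U = 2)
    (β : Crd k P P') (γ : Crd k Q P') {a : P.ι →₀ ℕ} (ha : ∀ i, 0 < a i) {b : Q.ι →₀ ℕ}
    (hb : ∀ i, 0 < b i) (hβ : 2 ≤ sdim (β.img U)) (hγ : 1 ≤ sdim (γ.img U)) :
    0 < nm C Ω U (ln C Ω (b.mapDomain γ.ψ) * ln C Ω (a.mapDomain β.ψ)) := by
  obtain ⟨z, hz⟩ := U.isIrreducible.1
  obtain ⟨ς, hς⟩ := exists_inCh z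
  obtain ⟨E, _, _, v, hv, h1, hg⟩ := exists_gen U ς ⟨z, hz, hς⟩
  have : Fg k E := ⟨(Set.finite_range v).toFinset, by simpa using hg⟩
  have hG : Gen k v := by
    refine eq_top_iff.2 (hg.ge.trans (IntermediateField.adjoin.mono k _ _ ?_))
    rintro _ ⟨⟨i, s⟩, rfl⟩
    exact ⟨i, s, ς i, by rw [h1, div_one]⟩
  have hd := hG.sdim hv
  have hn := hv.onS.nz
  have e := II_gen hC Ω hv hG (ln C Ω (b.mapDomain γ.ψ) * ln C Ω (a.mapDomain β.ψ)) 1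
  rw [map_one (aeval _), map_one (aeval _), mul_one] at e
  rw [← e, II_ln hC Ω hn, ← one_mul (ln C Ω _), II_ln hC Ω hn, II_one hC Ω (hv.onS.mono hU),
    ← I0a_sys_comp hn, ← I0a_sys_comp hn, mul_one]
  have r1 := rn_mono (k := k) (rat_subset (k := k) (hn.comp β) fun i => blk_dvd_sys _ (ha i))
  have r2 := rn_mono (k := k) (rat_subset (k := k) (hn.comp γ) fun i => blk_dvd_sys _ (hb i))
  rw [rn_rat (β.isGen_img hv)] at r1
  rw [rn_rat (γ.isGen_img hv)] at r2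
  have r3 := rn_le_td (k := k) (rt (sys k (v ∘ β.ε) a))
  simpa using JJ_pos2 hC (U := sys k (v ∘ γ.ε) b) (W := sys k (v ∘ β.ε) a) (i := 1) (l := 1)
    (by omega) (by omega) (by omega)

variable [Fg k L]

theorem S0b_nonneg (V : FD k L) {A : FD k F} {ν : Dv k L}
    (hν : rn k (rt (ν.Res (FD.map ι A))) ≤ 1) {D : DD k F} (hD : PN A D) :
    0 ≤ JJ C ν.κ (ν.rs (hh V * pb ι (hh A * cl D))) := by
  obtain ⟨M, hM⟩ := hD
  have h1 := JJ_nonneg3 hC ((Nef.hh V).rs ν) (((Nef.hh A).pb ι).rs ν) ((hM.pb ι).rs ν)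
  have h2 : ν.rs (pb ι (hh A)) ∈ NS k (rt (ν.Res (FD.map ι A))) :=
    Dat_le_NS subset_rfl (dat_rs ν (dat_pb ι (hh_dat dvd_rfl)))
  have h3 := JJ_van2 hC (j := 2) (by omega : rn k (rt (ν.Res (FD.map ι A))) < 2)
    (by rw [pow_two]; exact Submodule.mul_mem_mul h2 h2) (M • ν.rs (hh V))
  refine h1.trans_eq ?_
  rw [← add_zero (JJ C ν.κ (ν.rs (hh V * _))), ← h3, ← map_add]
  congr 1
  simp only [map_add, map_mul, nsmul_eq_mul, map_natCast]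
  ring

theorem S0b_mono (V : FD k L) (A : FD k F) (ν : Dv k L) {D D' : DD k F} (h : D ≤ D')
    (h' : ν.vq (pD ι D) = ν.vq (pD ι D')) :
    JJ C ν.κ (ν.rs (hh V * pb ι (hh A * cl D))) ≤ JJ C ν.κ (ν.rs (hh V * pb ι (hh A * cl D'))) := by
  have h1 := JJ_eff2 hC (sub_nonneg.2 (ν.rD_mono (S0b_pD_mono (ι := ι) h) h'))
    ((Nef.hh V).rs ν) (((Nef.hh A).pb ι).rs ν)
  rw [map_sub, ← ν.rs_cl, ← ν.rs_cl, ← pb_cl, ← pb_cl] at h1
  rw [← sub_nonneg, ← map_sub]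
  refine h1.trans_eq ?_
  congr 1
  simp only [map_mul]
  ring

variable {A : FD k F} {Vη : FD k L} {X : Var k P} {x : P.V → L} (h : CF ι t A Vη X x)
  {u : Q.V → L} (hu : NZ u) (hA : sys k u (ones Q) = FD.map ι A)
include h hu hA

theorem S0b_rk {ν : Dv k L} (hν : rn k (rt (ν.Res (FD.map ι A))) ≤ 1) :
    rn k (rat (rpt ν (Amb.elim x u))) ≤ 2 := by
  have h1 := (h.eqd.res ν).rn_le hC
  have h2 : rat (rpt ν (Amb.elim x u)) ⊆ rt (ν.Res (FD.map ι A)) ∪ rt (ν.Res Vη) := by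
    rw [rpt_elim, rat_elim, Set.union_comm]
    exact Set.union_subset_union (S0a_rat hu (fun i => hA ▸ blk_dvd_sys u (ones_pos i)) ν)
      (S0a_rat h.on.nz h.dvd ν)
  have := rn_mono (k := k) h2
  omega

variable [Fg k F] (h3 : td k F = 3) {a : P.ι →₀ ℕ} (ha : ∀ i, 0 < a i)
  (hX : IsIrreducible X.pts) {y : EE C X} (hy : y ∈ AA C X 2)
include h3 ha hX hy

/-- Both numbers are computed on the same surface. -/
theorem S0b_curve {ν : Dv k L} (hν : rn k (rt (ν.Res (FD.map ι A))) ≤ 1) {r : N k ν.κ}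
    (hr : r ∈ N1 k ν.κ) (h0 : II C X (rpt ν x) y r ≠ 0) {U : Sub k (P.sum Q)}
    (hU : OnS (U : Set (Amb.Pt _ k)) (rpt ν (Amb.elim x u))) (hd : sdim U ≤ 2) : ∃ e p : ℚ, 0 < p ∧
      p = nm C (X.ext Q) U (ln C _ ((ones Q).mapDomain (Crd.inr k P Q).ψ) *
        ln C _ (a.mapDomain (Crd.inl k P Q).ψ)) ∧
      II C X (rpt ν x) y r = e * nm C (X.ext Q) U (pl C (Prj.one X Q) y) ∧
      JJ C ν.κ (ν.rs (hh (sys k x a)) * (ν.rs (pb ι (hh A)) * r)) = e * p := by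
  have hx := h.on.nz
  have h1 : 2 ≤ rn k (rat (rpt ν x)) := by
    by_contra h1
    exact h0 (II_kill hC hX (hx.rpt ν) hy (by omega) r)
  have h2 := S0b_rk hC h hu hA hν
  rw [rpt_elim] at hU h2
  have h4 : rn k (rat (rpt ν x)) ≤ rn k (rat (Amb.elim (rpt ν x) (rpt ν u))) :=
    rn_mono (by rw [rat_elim]; exact Set.subset_union_left)
  have hG := hU.isGen (by omega)
  have h5 := rn_rat hG
  have h6 := ν.dim
  have h7 := h.simp.td_eq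
  have hO : OnS (X.ext Q).pts (Amb.elim (rpt ν x) (rpt ν u)) := (h.on.rpt ν).ext (hu.rpt ν)
  have hn := hO.nz
  obtain ⟨e, he⟩ := II_curve hC (X.ext Q) hG (by omega) hr
  refine ⟨e, _, S0b_pos hC _ ((onS_iff hG (X.ext Q).closed).1 hO) (by omega) _ _ ha
    ones_pos ?_ ?_, rfl, ?_, ?_⟩
  · rw [← rn_rat ((Crd.inl k P Q).isGen_img hG)]
    exact h1
  · rw [← rn_rat ((Crd.inr k P Q).isGen_img hG), I0a_inr]
    have h8 := (h.eqd.res ν).rn_le hC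
    have h9 := rn_mono (k := k) ((S0a_rat hx h.dvd ν).trans
      (Set.subset_union_right (s := rt (ν.Res (FD.map ι A)))))
    have h10 := rn_le_of_mem (rt_sys (k := k) (rpt ν u) (ones Q))
    rw [sys_rpt hu, hA] at h10
    omega
  · rw [← he, ← II_prj hC (Prj.one X Q) hO]
    rfl
  · rw [← he, II_ln hC _ hn, ← one_mul (ln C _ _), II_ln hC _ hn, II_one hC _ hO,
      ← I0a_sys_comp hn, ← I0a_sys_comp hn, I0a_inl, I0a_inr, sys_rpt hu, hA, sys_rpt hx,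
      pb_hh, ν.rs_hh, ν.rs_hh, mul_left_comm]

omit hu hA in
theorem S0b_bound {D₁ Ξ : DD k F} (h1 : PN A (-(D₁ + Ξ))) (hΞ : Ξ ∈ XC A) : ∃ c₁ : ℚ, 0 ≤ c₁ ∧
    ∀ D, PN A D → D₁ ≤ D → D ≤ D₁ + Ξ → ∀ ν : Dv k L, rn k (rt (ν.Res (FD.map ι A))) ≤ 1 →
      |II C X (rpt ν x) y (ν.rs (pb ι (cl D)))| ≤
        c₁ * JJ C ν.κ (ν.rs (hh (sys k x a) * pb ι (hh A * cl D))) := by
  obtain ⟨Q, u, hu, hA⟩ := S0b_coord (FD.map ι A)
  have hw := h.on.nz.elim hu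
  obtain ⟨Z, hZ⟩ := exists_isGen (k := k) hw
  have h4 := h.simp.td_eq
  obtain ⟨𝒴, hf, h5, h6⟩ := supp_dv hZ (pD ι Ξ) fun ν hν => by
    have := rn_exc hΞ hν
    have := S0b_rk hC h hu hA (ν := ν) (by omega)
    omega
  refine ⟨∑ Y ∈ hf.toFinset, |nm C (X.ext Q) Y (pl C (Prj.one X Q) y) /
    nm C (X.ext Q) Y (ln C _ ((ones Q).mapDomain (Crd.inr k P Q).ψ) *
      ln C _ (a.mapDomain (Crd.inl k P Q).ψ))|, Finset.sum_nonneg fun _ _ => abs_nonneg _,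
    fun D hD l1 l2 ν hν => ?_⟩
  have hJ := S0b_nonneg hC (sys k x a) hν hD
  by_cases h0 : II C X (rpt ν x) y (ν.rs (pb ι (cl D))) = 0
  · rw [h0, abs_zero]
    exact mul_nonneg (Finset.sum_nonneg fun _ _ => abs_nonneg _) hJ
  have hr := ν.rs_N1 (pb_N1 ι (cl_mem D))
  have e0 : ν.rs (hh (sys k x a) * pb ι (hh A * cl D)) =
      ν.rs (hh (sys k x a)) * (ν.rs (pb ι (hh A)) * ν.rs (pb ι (cl D))) := by
    simp only [map_mul]
  by_cases hv : ν.vq (pD ι Ξ) = 0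
  · obtain ⟨U, hU⟩ := exists_isGen (k := k) (hw.rpt ν)
    obtain ⟨e, p, hp, -, e1, e2⟩ := S0b_curve hC h hu hA h3 ha hX hy hν hr h0 hU.onS
      (by rw [← rn_rat hU]; exact S0b_rk hC h hu hA hν)
    have m1 := ν.vq_mono (S0b_pD_mono (ι := ι) l1)
    have m2 := ν.vq_mono (S0b_pD_mono (ι := ι) l2)
    have m3 : ν.vq (pD ι (D₁ + Ξ)) = ν.vq (pD ι D₁) := by rw [map_add, map_add, hv, add_zero]
    have m4 := S0b_mono hC (sys k x a) A ν l2 (by linarith)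
    have m5 := S0b_nonneg hC (sys k x a) hν h1
    simp only [map_neg, mul_neg, Left.nonneg_neg_iff] at m5
    rw [← e0, le_antisymm (m4.trans m5) hJ] at e2
    exact absurd (by rw [e1, (mul_eq_zero.1 e2.symm).resolve_right hp.ne', zero_mul]) h0
  · obtain ⟨Y, hY, hY'⟩ := h6 ν hv
    obtain ⟨e, p, hp, e3, e1, e2⟩ := S0b_curve hC h hu hA h3 ha hX hy hν hr h0 hY'
      (by have := (h5 Y hY).2; omega)
    rw [← e0] at e2
    refine le_trans ?_ (mul_le_mul_of_nonneg_right (Finset.single_le_sum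
      (fun _ _ => abs_nonneg _) (hf.mem_toFinset.2 hY)) hJ)
    rw [← abs_of_nonneg hJ, ← abs_mul, e1, e2, ← e3]
    refine le_of_eq (congrArg _ ?_)
    field_simp

omit hu hA in
theorem S0b_appr (τ : Tree ι t (sys k x a)) (S : τ.Cl) {θ : DD k F →ₗ[ℚ] ℚ}
    (hθ : ∀ D, θ D = II C X x y (cl (τ.TT S) * pb ι (cl D))) :
    Appr C A (τ.dl S) (S0a_W C τ X x y S) θ := by
  classical
  intro D₁ Ξ _ h1 hΞ
  obtain ⟨c₁, hc, hb⟩ := S0b_bound hC h h3 ha hX hy h1 hΞ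
  refine ⟨c₁ * τ.d, fun D hD l1 l2 => ?_⟩
  obtain ⟨s₁, -, hs₁⟩ := II_cyc_ex hC X h.on.nz (τ.TT S) (pb ι (cl D))
  obtain ⟨s₂, -, hs₂⟩ := JJ_cyc_ex hC (pD ι (τ.dl S)) (hh (sys k x a) * pb ι (hh A * cl D))
  obtain ⟨s₃, -, hs₃⟩ := JJ_cyc_ex hC (τ.dl S) (hh A * cl D)
  have hs₃' : ∀ c ∉ s₃ ∪ prs A (τ.dl S), c.vq (τ.dl S) * JJ C c.κ (c.rs (hh A * cl D)) = 0 :=
    fun c hc => hs₃ c fun h => hc (Finset.mem_union_left _ h)
  have e1 := (τ.fdeg_hh hC h.simp).loc hC h.simp.td_eq (hh_mem _) (g := hh A * cl D) (m := 2)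
    (by omega) (by rw [pow_two]; exact Submodule.mul_mem_mul (hh_mem A) (cl_mem D)) (τ.dl S)
    (fun c => ¬ Pr A c) _ hs₃' (s₁ ∪ s₂) (fun ν hν => hs₂ ν fun h => hν (Finset.mem_union_right _ h))
    (fun ν => ¬ ∃ c, Pr A c ∧ Ov ι c.toVl ν.toVl) fun c ν ho => not_congr
      ⟨fun ⟨c', h1, h2⟩ => Dv.ov_unique h2 ho ▸ h1, fun h1 => ⟨c, h1, ho⟩⟩
  have e2 := JJ_cyc hC (τ.dl S) _ _ hs₃'
  have e3 : ∑ c ∈ (s₃ ∪ prs A (τ.dl S)).filter (Pr A),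
      c.vq (τ.dl S) * JJ C c.κ (c.rs (hh A * cl D)) =
      ∑ c ∈ prs A (τ.dl S), c.vq (τ.dl S) * JJ C c.κ (c.rs (hh A * cl D)) := by
    refine (Finset.sum_subset (fun c hc => Finset.mem_filter.2
      ⟨Finset.mem_union_right _ hc, (mem_prs.1 hc).1⟩) fun c h1 h2 => ?_).symm
    rw [not_not.1 fun h => h2 (mem_prs.2 ⟨(Finset.mem_filter.1 h1).2, h⟩), zero_mul]
  rw [← Finset.sum_filter_add_sum_filter_not _ (Pr A), e3] at e2
  have e4 := S0a_exp hC h3 ha τ hX hy h S (τ.dl_nonneg S) le_rfl (cl_mem D)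
    ((s₁ ∪ s₂).filter fun ν => ¬ ∃ c, Pr A c ∧ Ov ι c.toVl ν.toVl)
    (fun ν hν => (Finset.mem_filter.1 hν).2) fun ν hν hp => by
      rw [τ.TG_dl h.simp]
      exact hs₁ y ν fun h => hν (Finset.mem_filter.2 ⟨Finset.mem_union_left _ h, hp⟩)
  rw [τ.TG_dl h.simp] at e4
  rw [hθ, e4, add_sub_cancel_left, mul_assoc (cl _), e2, add_sub_cancel_left, mul_assoc, ← e1,
    Finset.mul_sum]
  refine (Finset.abs_sum_le_sum_abs _ _).trans (Finset.sum_le_sum fun ν hν => ?_)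
  have l3 := ν.vq_mono (τ.TT_le h.simp S)
  have l4 := S0a_vq_nonneg ν (τ.TT_nonneg S)
  by_cases ht : Tv ι ν.toVl
  · rw [vq_pD_tv ht] at l3 ⊢
    simp [le_antisymm l3 l4]
  · have hν' := S0a_rk h3 ht (Finset.mem_filter.1 hν).2
    rw [abs_mul, abs_of_nonneg l4, mul_left_comm]
    exact mul_le_mul l3 (hb D hD l1 l2 ν hν') (abs_nonneg _) (l4.trans l3)

end Pool.Agent.Work.MP_ffcd14_ag.Uni
end

-- merged part: Pool.Agent.Work.MP_ffcd14_ag.Uni.S0c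
section
/-! # The divisorial valuations of the fibre square which see the product -/

open MvPolynomial

namespace Pool.Agent.Work.MP_ffcd14_ag.Uni

universe u v w

variable {k F L W : Type u} [Field k] [Field F] [Field L] [Field W] [Algebra k F] [Algebra k L]
  [Algebra k W] {K : Type v} [Field K] [CharZero K] {P : Amb} {C : NT.{u, v, w} k K}
  {ι : F →ₐ[k] L} {t : L} {j j₁ j₂ : L →ₐ[k] W}

/-- `ν` lies over `ν₁` and `ν₂`, and the residue field is algebraic over the compositum. -/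
structure S0c_Tri (j₁ j₂ : L →ₐ[k] W) (ν₁ ν₂ : Dv k L) (ν : Dv k W) : Prop where
  o₁ : Ov j₁ ν₁.toVl ν.toVl
  o₂ : Ov j₂ ν₂.toVl ν.toVl
  rk : td k L ≤ rn k (ν.res '' Set.range j₁ ∪ ν.res '' Set.range j₂)

theorem S0c_comm {u₁ u₂ : L} (hW : Dbl ι u₁ ι u₂ j₁ j₂) (f : F) : j₁ (ι f) = j₂ (ι f) :=
  AlgHom.congr_fun hW.comm f

theorem S0c_rat {x : P.V → L} (hx : NZ x) (ν : Dv k W) :
    rat (rpt ν (j ∘ x)) ⊆ ν.res '' Set.range j :=
  (rat_rpt (hx.map j) ν).trans (Set.image_mono (by rw [rat_map]; exact Set.image_subset_range _ _))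

theorem S0c_res (ν : Dv k W) (ι : F →ₐ[k] L) :
    ν.res '' Set.range (j.comp ι) ⊆ ν.res '' Set.range j :=
  Set.image_mono (by rintro _ ⟨f, rfl⟩; exact ⟨_, rfl⟩)

theorem S0c_rat' {x : P.V → L} (hx : NZ x) {V : FD k L} (h : ∀ i, blk k x i ∣ V) (ν : Dv k W) :
    rat (rpt ν (j ∘ x)) ⊆ rt (ν.Res (FD.map j V)) :=
  S0a_rat (hx.map j) (fun i => by rw [blk_map]; exact map_dvd _ (h i)) ν

theorem S0c_dbl [Fg k F] (hW : Dbl ι t ι t j₁ j₂) (s₁ s₂ : F) {ϖ₁ ϖ₂ : F} (h₁ : ϖ₁ ≠ 0)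
    (h₂ : ϖ₂ ≠ 0) : Dbl ι ((t - ι s₁) / ι ϖ₁) ι ((t - ι s₂) / ι ϖ₂) j₁ j₂ := by
  refine Dbl.of_simp (hW.one.affine s₁ h₁) (hW.one.affine s₂ h₂) hW.comm ?_
  have := hW.s₁.affine (ι s₂) ((map_ne_zero ι).2 h₂)
  rwa [S0c_comm hW, S0c_comm hW, ← map_sub, ← map_div₀] at this

variable [Fg k L] [Fg k W]

theorem S0c_tv (hW : Dbl ι t ι t j₁ j₂) {ν : Dv k W} (h : Tv j₁ ν.toVl)
    (h0 : 0 < ν (j₁ t - j₂ t)) : ∃ h' : Tv j₂ ν.toVl, h'.tmap = h.tmap := by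
  have e : ν.res (j₂ t) = ν.res (j₁ t) := by
    have := ν.res_sub (h t).ge h0.le
    rwa [sub_sub_cancel, (ν.res_eq_zero (x := j₁ t - j₂ t)).2 (Or.inr h0.ne'), sub_zero] at this
  have h' : Tv j₂ ν.toVl := by
    by_contra h'
    have h1 := rn_res_range ν h'
    have h2 : h.tmap '' insert t (Set.range ι) ⊆ ν.res '' Set.range j₂ := by
      rintro _ ⟨_, rfl | ⟨f, rfl⟩, rfl⟩
      · exact ⟨_, ⟨_, rfl⟩, by rw [e, h.tmap_apply]⟩
      · exact ⟨_, ⟨_, rfl⟩, by rw [h.tmap_apply, S0c_comm hW]⟩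
    have h3 := rn_mono (k := k) h2
    rw [rn_image, rn_gen hW.one.adjoin_eq] at h3
    omega
  exact ⟨h', hW.one.hom_ext (fun f => by rw [h.tmap_apply, h'.tmap_apply, S0c_comm hW])
    (by rw [h.tmap_apply, h'.tmap_apply, e])⟩

/-- The diagonal. -/
theorem S0c_place (hW : Dbl ι t ι t j₁ j₂) : ∃ (ν : Dv k W) (h₁ : Tv j₁ ν.toVl)
    (h₂ : Tv j₂ ν.toVl), ν (j₁ t - j₂ t) = 1 ∧ Function.Bijective h₁.tmap ∧ h₂.tmap = h₁.tmap ∧
      ∀ μ : Dv k W, Tv j₁ μ.toVl ∨ Tv j₂ μ.toVl → 0 < μ (j₁ t - j₂ t) → μ = ν := by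
  have hs := hW.s₁.affine t (neg_ne_zero.2 (one_ne_zero (α := L)))
  rw [map_neg, map_one, div_neg, div_one, neg_sub] at hs
  obtain ⟨ν, h₁, h1, hb, hu⟩ := hs.place
  obtain ⟨h₂, e⟩ := S0c_tv hW h₁ (h1 ▸ one_pos)
  refine ⟨ν, h₁, h₂, h1, hb, e, fun μ hμ h0 => hu μ (hμ.elim id fun h => ?_) h0⟩
  exact (S0c_tv hW.symm h (by rwa [← neg_sub, μ.neg])).1

theorem S0c_gs {u₁ u₂ : L} (hW : Dbl ι u₁ ι u₂ j₁ j₂) {c : Dv k F} {ν₁ ν₂ : Dv k L} {ν : Dv k W}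
    (g : Gs ι u₂ c ν₂) (h : S0c_Tri j₁ j₂ ν₁ ν₂ ν) : Gs j₁ (j₂ u₂) ν₁ ν := by
  refine hW.s₁.gs_of_tr h.o₁ (le_antisymm ?_ (h.rk.trans (rn_le_of_mem ?_)))
  · have h1 := rn_le_td (k := k) (insert (ν.res (j₂ u₂)) (Set.range h.o₁.kmap))
    have h2 := ν.dim
    have h3 := hW.s₁.td_eq
    omega
  · rw [← h.o₁.range_kmap, ← h.o₂.range_kmap]
    refine Set.union_subset ((Set.subset_insert _ _).trans (IntermediateField.subset_adjoin _ _)) ?_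
    rintro _ ⟨z, rfl⟩
    have h1 : h.o₂.kmap z ∈ (IntermediateField.adjoin k
        (insert (ν₂.res u₂) (Set.range g.ov.kmap))).map h.o₂.kmap :=
      ⟨z, by rw [g.simp.adjoin_eq]; trivial, rfl⟩
    rw [IntermediateField.adjoin_map] at h1
    refine IntermediateField.adjoin.mono k _ _ ?_ h1
    rintro _ ⟨_, rfl | ⟨z, rfl⟩, rfl⟩
    · exact Or.inl (h.o₂.kmap_res _)
    · obtain ⟨f, -, rfl⟩ := c.res_surj z
      exact Or.inr ⟨ν₁.res (ι f), by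
        rw [h.o₁.kmap_res, g.ov.kmap_res, h.o₂.kmap_res, S0c_comm hW]⟩

variable [Fg k F]

theorem S0c_ex {u₁ u₂ : L} (hW : Dbl ι u₁ ι u₂ j₁ j₂) {c : Dv k F} {ν₁ ν₂ : Dv k L}
    (g₁ : Gs ι u₁ c ν₁) (g₂ : Gs ι u₂ c ν₂) : ∃ ν, S0c_Tri j₁ j₂ ν₁ ν₂ ν := by
  obtain ⟨ν, f₁, f₂, h⟩ := hW.gauss g₁ g₂
  refine ⟨ν, f₁.ov, f₂.ov, ?_⟩
  have h1 := rn_gen h.s₁.adjoin_eq
  have h2 : insert (f₂.ov.kmap (ν₂.res u₂)) (Set.range f₁.ov.kmap) ⊆
      ν.res '' Set.range j₁ ∪ ν.res '' Set.range j₂ := by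
    rw [← f₁.ov.range_kmap, ← f₂.ov.range_kmap]
    exact Set.insert_subset (Or.inr ⟨_, rfl⟩) Set.subset_union_left
  have h3 := rn_mono (k := k) h2
  have h4 := ν.dim
  have h5 := hW.s₁.td_eq
  omega

theorem S0c_data {u₁ u₂ : L} (hW : Dbl ι u₁ ι u₂ j₁ j₂) {c : Dv k F} {ν₁ ν₂ : Dv k L}
    (g₁ : Gs ι u₁ c ν₁) (g₂ : Gs ι u₂ c ν₂) {ν : Dv k W} (h : S0c_Tri j₁ j₂ ν₁ ν₂ ν) :
    ∃ (f₁ : Gs j₁ (j₂ u₂) ν₁ ν) (f₂ : Gs j₂ (j₁ u₁) ν₂ ν),
      Dbl g₁.ov.kmap (ν₁.res u₁) g₂.ov.kmap (ν₂.res u₂) f₁.ov.kmap f₂.ov.kmap := by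
  obtain ⟨ν', f₁, f₂, h'⟩ := hW.gauss g₁ g₂
  obtain rfl := f₁.unique hW.s₁ (S0c_gs hW g₂ h)
  exact ⟨f₁, f₂, h'⟩

variable [IsAlgClosed k] (hC : C.Chow) (h3 : td k F = 3) {A : FD k F} {Vη : FD k L} {X : Var k P}
  {x : P.V → L} (h : CF ι t A Vη X x) {a : P.ι →₀ ℕ} (ha : ∀ i, 0 < a i)
  (τ : Tree ι t (sys k x a))
include hC h3 h ha

theorem S0c_side {c : Dv k F} {ν : Dv k W} (h1 : ¬ Tv j ν.toVl)
    (ho : Ov (j.comp ι) c.toVl ν.toVl) (hr : 3 ≤ rn k (Set.range ho.kmap ∪ rat (rpt ν (j ∘ x)))) :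
    ∃ ν₁ ∈ S0a_Vs τ c, Ov j ν₁.toVl ν.toVl := by
  have h4 := h.simp.td_eq
  have h2 := rn_mono (k := k) (Set.union_subset (ho.range_kmap.le.trans (S0c_res ν ι))
    (S0c_rat (j := j) h.on.nz ν))
  obtain ⟨ν₁, o₁⟩ := exists_over ν h1 (by omega)
  have o : Ov ι c.toVl ν₁.toVl := fun f => (o₁ (ι f)).symm.trans (ho f)
  refine ⟨ν₁, (S0a_mem_Vs τ h.simp).2 (τ.vertex hC h.simp o ?_), o₁⟩
  have h5 := rn_le_td (k := k) (Set.range o.kmap ∪ rt (ν₁.Res (sys k x a)))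
  have h6 := ν₁.dim
  have h7 : Set.range ho.kmap ∪ rat (rpt ν (j ∘ x)) ⊆
      o₁.kmap '' (Set.range o.kmap ∪ rt (ν₁.Res (sys k x a))) := by
    rw [Set.image_union, ← rt_Res_map_ov o₁, o.kmap_trans o₁ ho, AlgHom.coe_comp, Set.range_comp]
    exact Set.union_subset_union_right _ (S0c_rat' h.on.nz (fun i => blk_dvd_sys x (ha i)) ν)
  have h8 := rn_mono (k := k) h7
  rw [rn_image] at h8
  omega

/-- The classification. -/
theorem S0c_cls (hW : Dbl ι t ι t j₁ j₂) {ν : Dv k W} (h1 : ¬ Tv j₁ ν.toVl) (h2 : ¬ Tv j₂ ν.toVl)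
    (hr : 4 ≤ rn k (rat (rpt ν (j₁ ∘ x)) ∪ rat (rpt ν (j₂ ∘ x)))) :
    ∃ c ν₁ ν₂, Pr A c ∧ ν₁ ∈ S0a_Vs τ c ∧ ν₂ ∈ S0a_Vs τ c ∧ S0c_Tri j₁ j₂ ν₁ ν₂ ν := by
  have h4 := h.simp.td_eq
  have hx := h.on.nz
  have key (s : Set ν.κ) : 4 + rn k s ≤
      rn k (s ∪ rat (rpt ν (j₁ ∘ x))) + rn k (s ∪ rat (rpt ν (j₂ ∘ x))) := by
    have a1 := rn_submod (k := k) s (rat (rpt ν (j₁ ∘ x))) (rat (rpt ν (j₂ ∘ x)))
    have a2 := rn_mono (k := k) (Set.subset_union_right (s := s)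
      (t := rat (rpt ν (j₁ ∘ x)) ∪ rat (rpt ν (j₂ ∘ x))))
    rw [Set.union_assoc] at a1
    omega
  have b1 := rn_res_range ν h1
  have b2 := rn_res_range ν h2
  have c1 := rn_mono (k := k) (Set.union_subset (S0c_res (j := j₁) ν ι) (S0c_rat hx ν))
  have c2 := rn_mono (k := k) (Set.union_subset (S0c_res (j := j₂) ν ι) (S0c_rat hx ν))
  rw [← hW.comm] at c2
  have c3 := key (ν.res '' Set.range (j₁.comp ι))
  have h0 : ¬ Tv (j₁.comp ι) ν.toVl := fun h0 => by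
    rw [← h0.range_tmap, rn_range, h0.range_tmap] at c3
    omega
  have d (j : L →ₐ[k] W) : rn k (rt (ν.Res (FD.map (j.comp ι) A)) ∪ rat (rpt ν (j ∘ x))) ≤
      rn k (rt (ν.Res (FD.map (j.comp ι) A))) + 1 := by
    rw [FD.map_comp]
    exact (rn_mono (Set.union_subset_union_right _ (S0c_rat' hx h.dvd ν))).trans
      (((h.eqd.map j).res ν).rn_le hC)
  have d1 := d j₁
  have d2 := d j₂
  rw [← hW.comm] at d2
  have d3 := key (rt (ν.Res (FD.map (j₁.comp ι) A)))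
  obtain ⟨c, hc, ho⟩ := exists_over_pr (A := A) h0 (by omega)
  have ho' : Ov (j₂.comp ι) c.toVl ν.toVl := hW.comm ▸ ho
  have e1 := c.dim
  have e2 := rn_range ho.kmap
  rw [ho.range_kmap] at e2
  obtain ⟨ν₁, m₁, o₁⟩ := S0c_side hC h3 h ha τ h1 ho (by rw [ho.range_kmap]; omega)
  obtain ⟨ν₂, m₂, o₂⟩ := S0c_side hC h3 h ha τ h2 ho' (by rw [ho'.range_kmap, ← hW.comm]; omega)
  have e3 := rn_mono (k := k) (Set.union_subset_union (S0c_rat (j := j₁) hx ν)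
    (S0c_rat (j := j₂) hx ν))
  exact ⟨c, ν₁, ν₂, hc, m₁, m₂, o₁, o₂, by omega⟩

end Pool.Agent.Work.MP_ffcd14_ag.Uni
end

-- merged part: Pool.Agent.Work.MP_ffcd14_ag.Uni.S0d
section
/-! # The self-intersection computed with the diagonal -/

open MvPolynomial

namespace Pool.Agent.Work.MP_ffcd14_ag.Uni

universe u v w

variable {k F L W : Type u} [Field k] [Field F] [Field L] [Field W] [Algebra k F] [Algebra k L]
  [Algebra k W] {K : Type v} [Field K] [CharZero K] {P : Amb} {C : NT.{u, v, w} k K}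
  {ι : F →ₐ[k] L} {t : L} {j₁ j₂ : L →ₐ[k] W}

theorem S0d_diag (X : Var k P) (y z : EE C X) : pl C (Prj.diag X) (ot C X y z) = y * z := by
  rw [ot, map_mul, ← pl_comp C _ _ (Prj.refl X) fun _ => rfl,
    ← pl_comp C _ _ (Prj.refl X) fun _ => rfl, pl_id C _ fun _ => rfl, pl_id C _ fun _ => rfl]

theorem S0d_swap (X : Var k P) (y z : EE C X) :
    pl C (Prj.swap X X) (ot C X y z) = ot C X z y := by
  rw [ot, ot, map_mul, ← pl_comp C _ _ (Prj.p2 X X) fun _ => rfl,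
    ← pl_comp C _ _ (Prj.p1 X X) fun _ => rfl, mul_comm]

variable [IsAlgClosed k] [Fg k F] [Fg k L] [Fg k W] (hC : C.Chow) (hW : Dbl ι t ι t j₁ j₂)
  {X : Var k P} {x : P.V → L}
include hC hW

omit [Fg k F] [Fg k L] in
theorem S0d_sym (hx : OnS X.pts x) (y : EE C X) (r : N k L) :
    II C (X.prod X) (Amb.elim (j₁ ∘ x) (j₂ ∘ x)) (ot C X y y) (pb j₂ r) =
      II C (X.prod X) (Amb.elim (j₁ ∘ x) (j₂ ∘ x)) (ot C X y y) (pb j₁ r) := by
  obtain ⟨σ, hb, e1, e2⟩ := hW.swap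
  obtain ⟨n, -, hn, -, h⟩ := II_push hC σ rfl
  have hO := (hx.map j₁).prod (hx.map j₂)
  have h1 := h (X.prod X) _ hO.nz (ot C X y y) (pb j₁ r)
  have e : σ ∘ Amb.elim (j₁ ∘ x) (j₂ ∘ x) = Amb.elim (j₁ ∘ x) (j₂ ∘ x) ∘ (Prj.swap X X).ε := by
    funext ⟨i, s⟩
    rcases i with i | i
    · exact AlgHom.congr_fun e1 _
    · exact AlgHom.congr_fun e2 _
  rwa [hn hb, Nat.cast_one, one_mul, ← pb_comp, e1, e, II_prj hC _ hO, S0d_swap] at h1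

variable (h3 : td k F = 3) {A : FD k F} {Vη : FD k L} (h : CF ι t A Vη X x)
include h3 h

theorem S0d_rk {ν : Dv k W} {ω : EE C (X.prod X)}
    (h0 : II C (X.prod X) (rpt ν (Amb.elim (j₁ ∘ x) (j₂ ∘ x))) ω (ν.rs 1) ≠ 0) :
    4 ≤ rn k (rat (rpt ν (j₁ ∘ x)) ∪ rat (rpt ν (j₂ ∘ x))) := by
  by_contra h1
  refine h0 (II_van1 hC _ (((h.on.nz.map j₁).elim (h.on.nz.map j₂)).rpt ν) (s := ∅) ?_ ω
    (by rw [map_one]; exact one_mem _))
  have h4 := h.simp.td_eq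
  have h5 := hW.s₁.td_eq
  have h6 := ν.dim
  rw [Set.union_empty, rpt_elim, rat_elim]
  omega

variable {a : P.ι →₀ ℕ} (ha : ∀ i, 0 < a i) (τ : Tree ι t (sys k x a))
include ha

theorem S0d_Dh (y : EE C X) : II C (X.prod X) (Amb.elim (j₁ ∘ x) (j₂ ∘ x)) (ot C X y y)
    (cl (τ.Dh j₁ j₂)) = II C X x (y * y) 1 := by
  obtain ⟨ν, h₁, h₂, h1, hb, e, hu⟩ := S0c_place hW
  rw [← mul_one (cl _), II_cyc hC _ ((h.on.map j₁).prod (h.on.map j₂)) _ _ _ {ν},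
    Finset.sum_singleton]
  · obtain ⟨n, -, hn, -, h2⟩ := II_push hC h₁.tmap
      (by have := ν.dim; have := hW.s₁.td_eq; omega)
    have h4 := h2 (X.prod X) _ (h.on.nz.elim h.on.nz) (ot C X y y) 1
    have e1 : h₁.tmap ∘ Amb.elim x x = Amb.elim (h₁.tmap ∘ x) (h₁.tmap ∘ x) := by
      funext ⟨i, s⟩
      rcases i with i | i <;> rfl
    have e2 : Amb.elim x x = x ∘ (Prj.diag X).ε := by
      funext ⟨i, s⟩
      rcases i with i | i <;> rfl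
    rw [hn hb, Nat.cast_one, one_mul, map_one, e1, e2, II_prj hC _ h.on, S0d_diag] at h4
    rw [τ.Dh_tv hW (Or.inl h₁), ν.V0_z (n := 1) (by rw [h1, Int.cast_one]), rpt_elim, rpt_tv h₁,
      rpt_tv h₂, e, map_one, h4]
    simp
  · intro μ hμ
    refine mul_eq_zero.2 (or_iff_not_imp_right.2 fun h0 => ?_)
    by_cases ht : Tv j₁ μ.toVl ∨ Tv j₂ μ.toVl
    · have h2 : μ.z (j₁ t - j₂ t) ≤ 0 := by
        by_contra h2
        refine hμ (Finset.mem_singleton.2 (hu μ ht ?_))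
        rw [← μ.z_cast]
        exact_mod_cast not_le.1 h2
      rw [τ.Dh_tv hW ht]
      exact_mod_cast max_eq_right h2
    · rw [not_or] at ht
      obtain ⟨c, ν₁, ν₂, -, m₁, m₂, hT⟩ :=
        S0c_cls hC h3 h ha τ hW ht.1 ht.2 (S0d_rk hC hW h3 h h0)
      obtain ⟨β₁, v₁⟩ := (S0a_mem_Vs τ h.simp).1 m₁
      obtain ⟨β₂, v₂⟩ := (S0a_mem_Vs τ h.simp).1 m₂
      obtain ⟨ϖ₁, n₁, -, g₁⟩ := id v₁
      obtain ⟨ϖ₂, n₂, p₂, g₂⟩ := id v₂
      obtain ⟨f₁, f₂, -⟩ := S0c_data (S0c_dbl hW _ _ n₁ n₂) g₁ g₂ hT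
      exact τ.Dh_vx hW v₁ v₂ n₂ p₂ f₁ f₂.val

variable (hX : IsIrreducible X.pts) {y : EE C X} (hy : y ∈ AA C X 2)
include hX hy

omit ha in
theorem S0d_term (S : τ.Cl) {c : Dv k F} {ν₁ ν₂ : Dv k L} (m₁ : ν₁ ∈ S0a_Vs τ c)
    (m₂ : ν₂ ∈ S0a_Vs τ c) {ν : Dv k W} (hT : S0c_Tri j₁ j₂ ν₁ ν₂ ν) :
    ν.vq (pD j₁ (τ.TT S) ⊓ pD j₂ (τ.TT S)) =
        S0a_eps τ S ν₁ * S0a_eps τ S ν₂ * c.vq (τ.dl S) ∧
      II C (X.prod X) (rpt ν (Amb.elim (j₁ ∘ x) (j₂ ∘ x))) (ot C X y y) (ν.rs 1) =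
        JJ C c.κ (S0a_gam C ι X x y c ν₁ * S0a_gam C ι X x y c ν₂) := by
  obtain ⟨β₁, ϖ₁, n₁, -, g₁⟩ := (S0a_mem_Vs τ h.simp).1 m₁
  obtain ⟨β₂, ϖ₂, n₂, -, g₂⟩ := (S0a_mem_Vs τ h.simp).1 m₂
  obtain ⟨f₁, f₂, hD⟩ := S0c_data (S0c_dbl hW _ _ n₁ n₂) g₁ g₂ hT
  constructor
  · rw [ν.vq_inf, S0a_vq_pD f₁.val, S0a_vq_pD f₂.val, S0a_vq_TT τ h.simp m₁,
      S0a_vq_TT τ h.simp m₂]
    have := S0a_vq_nonneg c (τ.dl_nonneg S)
    unfold S0a_eps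
    split_ifs <;> simp [this]
  · obtain ⟨μ₁, p₁, e₁⟩ := rpt_ov f₁.ov h.on.nz
    obtain ⟨μ₂, p₂, e₂⟩ := rpt_ov f₂.ov h.on.nz
    have e : rpt ν (Amb.elim (j₁ ∘ x) (j₂ ∘ x)) = fun s : (P.sum P).V => Sum.elim μ₁ μ₂ s.1 *
        Amb.elim (f₁.ov.kmap ∘ rpt ν₁ x) (f₂.ov.kmap ∘ rpt ν₂ x) s := by
      rw [rpt_elim, e₁, e₂]
      funext ⟨i, s⟩
      rcases i with i | i <;> rfl
    have e' := II_scale hC (X.prod X) (μ := Sum.elim μ₁ μ₂)
      (((h.on.nz.rpt ν₁).map f₁.ov.kmap).elim ((h.on.nz.rpt ν₂).map f₂.ov.kmap))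
      (by rintro (i | i); exacts [p₁ i, p₂ i])
    rw [e, map_one]
    refine (LinearMap.congr_fun (LinearMap.congr_fun e' _) _).trans ?_
    exact fl2b hC hX hy (by have := c.dim; omega) (S0a_cf h g₁) (S0a_cf h g₂) hD
      (S0a_rep hC h3 hX hy h g₁) (S0a_rep hC h3 hX hy h g₂)

theorem S0d_TT (S : τ.Cl) : II C (X.prod X) (Amb.elim (j₁ ∘ x) (j₂ ∘ x)) (ot C X y y)
    (cl (pD j₁ (τ.TT S) ⊓ pD j₂ (τ.TT S))) = ∑ c ∈ prs A (τ.dl S), c.vq (τ.dl S) *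
      JJ C c.κ (S0a_W C τ X x y S c * S0a_W C τ X x y S c) := by
  classical
  have hex (p : Σ _ : Dv k F, Dv k L × Dv k L) : ∃ ν : Dv k W, p.2.1 ∈ S0a_Vs τ p.1 →
      p.2.2 ∈ S0a_Vs τ p.1 → S0c_Tri j₁ j₂ p.2.1 p.2.2 ν := by
    by_cases hp : p.2.1 ∈ S0a_Vs τ p.1 ∧ p.2.2 ∈ S0a_Vs τ p.1
    · obtain ⟨β₁, ϖ₁, n₁, -, g₁⟩ := (S0a_mem_Vs τ h.simp).1 hp.1
      obtain ⟨β₂, ϖ₂, n₂, -, g₂⟩ := (S0a_mem_Vs τ h.simp).1 hp.2
      exact (S0c_ex (S0c_dbl hW _ _ n₁ n₂) g₁ g₂).imp fun _ h _ _ => h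
    · exact ⟨(S0c_place hW).choose, fun h1 h2 => absurd ⟨h1, h2⟩ hp⟩
  choose Γ hΓ using hex
  rw [← mul_one (cl _), II_cyc hC _ ((h.on.map j₁).prod (h.on.map j₂)) _ _ _
    (((prs A (τ.dl S)).sigma fun c => S0a_Vs τ c ×ˢ S0a_Vs τ c).image Γ), Finset.sum_image,
    Finset.sum_sigma]
  · refine Finset.sum_congr rfl fun c _ => ?_
    rw [Finset.sum_product, S0a_W, Finset.sum_mul_sum, map_sum, Finset.mul_sum]
    refine Finset.sum_congr rfl fun ν₁ m₁ => ?_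
    rw [map_sum, Finset.mul_sum]
    refine Finset.sum_congr rfl fun ν₂ m₂ => ?_
    obtain ⟨e1, e2⟩ := S0d_term hC hW h3 h τ hX hy S m₁ m₂ (hΓ ⟨c, ν₁, ν₂⟩ m₁ m₂)
    rw [e1, e2, smul_mul_smul_comm, map_smul, smul_eq_mul]
    ring
  · rintro ⟨c, ν₁, ν₂⟩ hp ⟨c', ν₁', ν₂'⟩ hp' e
    obtain ⟨m₁, m₂⟩ := Finset.mem_product.1 (Finset.mem_sigma.1 hp).2
    obtain ⟨m₁', m₂'⟩ := Finset.mem_product.1 (Finset.mem_sigma.1 hp').2
    have T := hΓ _ m₁ m₂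
    rw [e] at T
    obtain rfl : ν₁ = ν₁' := Dv.ov_unique T.o₁ (hΓ _ m₁' m₂').o₁
    obtain rfl : ν₂ = ν₂' := Dv.ov_unique T.o₂ (hΓ _ m₁' m₂').o₂
    obtain rfl : c = c' := Dv.ov_unique (S0a_Vs_ov τ h.simp m₁) (S0a_Vs_ov τ h.simp m₁')
    rfl
  · intro ν hν
    by_contra h0
    obtain ⟨h1, h2⟩ := mul_ne_zero_iff.1 h0
    have l0 : 0 ≤ pD j₁ (τ.TT S) ⊓ pD j₂ (τ.TT S) :=
      le_inf (fun v => τ.TT_nonneg S (v.comap j₁)) fun v => τ.TT_nonneg S (v.comap j₂)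
    obtain ⟨c, ν₁, ν₂, hc, m₁, m₂, hT⟩ := S0c_cls hC h3 h ha τ hW (S0a_not_tv l0 inf_le_left h1)
      (S0a_not_tv l0 inf_le_right h1) (S0d_rk hC hW h3 h h2)
    rw [(S0d_term hC hW h3 h τ hX hy S m₁ m₂ hT).1] at h1
    refine hν (Finset.mem_image.2 ⟨⟨c, ν₁, ν₂⟩, Finset.mem_sigma.2 ⟨mem_prs.2
      ⟨hc, right_ne_zero_of_mul h1⟩, Finset.mem_product.2 ⟨m₁, m₂⟩⟩, ?_⟩)
    obtain ⟨β₁, ϖ₁, n₁, -, g₁⟩ := (S0a_mem_Vs τ h.simp).1 m₁
    obtain ⟨β₂, ϖ₂, n₂, -, g₂⟩ := (S0a_mem_Vs τ h.simp).1 m₂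
    have hD := S0c_dbl hW (τ.s β₁) (τ.s β₂) n₁ n₂
    exact (S0c_gs hD g₂ (hΓ ⟨c, ν₁, ν₂⟩ m₁ m₂)).unique hD.s₁ (S0c_gs hD g₂ hT)

theorem S0d_sq : II C X x (y * y) 1 =
    2 * II C (X.prod X) (Amb.elim (j₁ ∘ x) (j₂ ∘ x)) (ot C X y y) (pb j₁ τ.xi) -
      II C (X.prod X) (Amb.elim (j₁ ∘ x) (j₂ ∘ x)) (ot C X y y) (pb (j₁.comp ι) τ.ka) -
      ∑ S, ∑ c ∈ prs A (τ.dl S), c.vq (τ.dl S) *
        JJ C c.κ (S0a_W C τ X x y S c * S0a_W C τ X x y S c) := by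
  have e : cl (τ.Dh j₁ j₂) = pb j₁ τ.xi + pb j₂ τ.xi - pb (j₁.comp ι) τ.ka -
      ∑ S, cl (pD j₁ (τ.TT S) ⊓ pD j₂ (τ.TT S)) := by
    simp only [Tree.Dh, Tree.xi, Tree.ka, map_sub, map_add, map_neg, map_sum, pb_cl, cl_vD]
    ring
  rw [← S0d_Dh hC hW h3 h ha τ y, e, map_sub, map_sub, map_add, map_sum, S0d_sym hC hW h.on,
    two_mul]
  congr 1
  exact Finset.sum_congr rfl fun S _ => S0d_TT hC hW h3 h ha τ hX hy S

end Pool.Agent.Work.MP_ffcd14_ag.Uni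
end

-- merged part: Pool.Agent.Work.MP_ffcd14_ag.Uni.S0
section
/-! # A class of codimension two on a tree of rational curves -/

open MvPolynomial

namespace Pool.Agent.Work.MP_ffcd14_ag.Uni

universe u v w

variable {k F L : Type u} [Field k] [Field F] [Field L] [Algebra k F] [Algebra k L]
  {K : Type v} [Field K] [CharZero K] {P : Amb} (C : NT.{u, v, w} k K)

/-- The functional defined by `y` and a divisor class `r`. -/
noncomputable def th (ι : F →ₐ[k] L) (X : Var k P) (x : P.V → L) (y : EE C X) (r : N k L) :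
    DD k F →ₗ[ℚ] ℚ :=
  II C X x y ∘ₗ LinearMap.mulLeft ℚ r ∘ₗ (pb ι).toLinearMap ∘ₗ cl

theorem th_apply (ι : F →ₐ[k] L) (X : Var k P) (x : P.V → L) (y : EE C X) (r : N k L)
    (D : DD k F) : th C ι X x y r D = II C X x y (r * pb ι (cl D)) := rfl

/-- The push-forward `v` of `y` and its degrees `W` on the tails. -/
structure Star {ι : F →ₐ[k] L} {t : L} {V : FD k L} (τ : Tree ι t V) (A : FD k F) (X : Var k P)
    (x : P.V → L) (y : EE C X) (v : DD k F) (W : τ.Cl → ∀ c : Dv k F, N k c.κ) : Prop where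
  exact : ∀ Λ ∈ Dat A, ∀ g ∈ N1 k F, II C X x y (pb ι (Λ * g)) = JJ C F (Λ * cl v * g)
  good : Good C A fun _ => v
  sq : II C X x (y * y) 1 = 2 * II C X x y (τ.xi * pb ι (cl v)) - JJ C F (τ.ka * cl v * cl v) -
    ∑ S, ∑ c ∈ prs A (τ.dl S), c.vq (τ.dl S) * JJ C c.κ (W S c * W S c)
  mem : ∀ S c, W S c ∈ N1 k c.κ
  tail : ∀ S, ∀ Λ ∈ Dat A, ∀ G, 0 ≤ G → G ≤ τ.dl S → II C X x y (pb ι Λ * cl (τ.TG S G)) =
    ∑ c ∈ prs A (τ.dl S), c.vq G * JJ C c.κ (W S c * c.rs Λ)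
  exc : ∀ S, ∀ D ∈ XC A, th C ι X x y (cl (τ.TT S)) D = 0
  appr : ∀ S, Appr C A (τ.dl S) (W S) (th C ι X x y (cl (τ.TT S)))

variable {C} [IsAlgClosed k] [Fg k F] (hC : C.Chow)
include hC

theorem exists_star {X : Var k P} (hX : IsIrreducible X.pts) {y : EE C X} (hy : y ∈ AA C X 2)
    (h3 : td k F = 3) {ι : F →ₐ[k] L} {t : L} (ht : Simp ι t) {x : P.V → L} (hx : OnS X.pts x)
    {a : P.ι →₀ ℕ} (ha : ∀ i, 0 < a i) (τ : Tree ι t (sys k x a)) {A : FD k F} {Vη : FD k L}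
    {Λ : τ.Cl → N k F} {m : τ.Cl → τ.Cl → ℚ} (M : τ.Mod A Vη Λ m) :
    ∃ v W, Star C τ A X x y v W := by
  have : Fg k L := ht.fg
  have h : CF ι t A Vη X x := ⟨ht, hx, fun i => (blk_dvd_sys x (ha i)).trans M.dvd, M.eqd⟩
  obtain ⟨E, _, _, j₁, j₂, hW⟩ := exists_dbl ht ht
  have : Fg k E := hW.s₁.fg
  obtain ⟨_, ⟨v, rfl⟩, e1, e2, e3⟩ := fl3 hC hX hy h3 h hW M.xi
  refine ⟨v, S0a_W C τ X x y, e1, good_const hC h3 M.gen fun Λ hΛ D hD => ?_, ?_,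
    S0a_W_mem C τ X x y, fun S Λ hΛ G hG hG' => S0a_tail hC h3 ha τ hX hy h S hΛ hG hG',
    fun S D hD => ?_, fun S => S0b_appr hC h h3 ha hX hy τ S (th_apply C ι X x y _)⟩
  · rw [← e1 Λ hΛ _ (cl_mem D), map_mul, pb_cl, mul_comm]
    exact S0a_exc hC h3 h y hD (Or.inl (dat_pb ι hΛ))
  · rw [S0d_sq hC hW h3 h ha τ hX hy, e2, e3 _ M.ka]
  · rw [th_apply, pb_cl, mul_comm]
    exact S0a_exc hC h3 h y hD (Or.inr (M.tt S))

end Pool.Agent.Work.MP_ffcd14_ag.Uni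
end
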