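import Pool.Agent.Work.MP_ffcd14_ag.Cyc.Rk
import Pool.Agent.Work.MP_ffcd14_ag.Cyc.NDefs

-- merged part: Pool.Agent.Work.MP_ffcd14_ag.Uni.V0
section
/-! # Valuations of function fields, residue fields, divisorial valuations -/

open MvPolynomial

namespace Pool.Agent.Work.MP_ffcd14_ag.Uni

universe u

/-- The ordered field in which all valuations take their values. -/
abbrev FF : Type := Hyperreal

/-- A positive infinitesimal. -/
noncomputable def eps : FF := Hyperreal.epsilon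

theorem eps_pos : 0 < eps := Hyperreal.epsilon_pos

theorem eps_small {q : ℚ} (hq : 0 < q) {x : FF} {n : ℕ} (hx : |x| ≤ n) : |eps * x| < q := by
  have h1 := Hyperreal.epsilon_lt_of_pos (r := ((q / (n + 1) : ℚ) : ℝ)) (by positivity)
  have h2 : ((((q / (n + 1) : ℚ) : ℝ)) : FF) = (q / (n + 1) : ℚ) :=
    map_ratCast Hyperreal.coeRingHom.toRingHom _
  rw [h2] at h1
  push_cast at h1
  rw [lt_div_iff₀ (by positivity)] at h1
  rw [abs_mul, abs_of_pos eps_pos]
  exact (mul_le_mul_of_nonneg_left (hx.trans (le_add_of_nonneg_right zero_le_one))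
    eps_pos.le).trans_lt h1

/-- `L` is a finitely generated field extension of `k`. -/
class Fg (k L : Type u) [Field k] [Field L] [Algebra k L] : Prop where
  out : ∃ s : Finset L, IntermediateField.adjoin k (s : Set L) = ⊤

/-- The transcendence degree of a set, as a natural number. -/
noncomputable def rn (k : Type u) [Field k] {L : Type u} [Field L] [Algebra k L] (s : Set L) : ℕ :=
  (rk k s).toNat

/-- The transcendence degree. -/
noncomputable def td (k L : Type u) [Field k] [Field L] [Algebra k L] : ℕ :=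
  rn k (Set.univ : Set L)

/-- A valuation of `L`, trivial on `k`, with finite values in `FF`; the value at `0` is `0` by
convention. -/
structure Vl (k L : Type u) [Field k] [Field L] [Algebra k L] where
  v : L → FF
  zero : v 0 = 0
  mul : ∀ x y, x ≠ 0 → y ≠ 0 → v (x * y) = v x + v y
  add : ∀ x y, x ≠ 0 → y ≠ 0 → x + y ≠ 0 → min (v x) (v y) ≤ v (x + y)
  triv : ∀ c : k, v (algebraMap k L c) = 0
  fin : ∀ x, ∃ n : ℕ, |v x| ≤ n

variable {k F L L' : Type u} [Field k] [Field F] [Field L] [Field L'] [Algebra k F] [Algebra k L]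
  [Algebra k L']

instance : CoeFun (Vl k L) fun _ => L → FF := ⟨Vl.v⟩

namespace Vl

variable (v : Vl k L)

theorem ext' {v w : Vl k L} (h : ∀ x, v x = w x) : v = w := by
  cases v; cases w; congr; exact funext h

theorem one : v 1 = 0 := by simpa using v.triv 1

theorem neg (x : L) : v (-x) = v x := by
  rcases eq_or_ne x 0 with rfl | hx
  · rw [neg_zero]
  · have h : v (-1) = 0 := by simpa using v.triv (-1)
    rw [← neg_one_mul, v.mul _ _ (by simp) hx, h, zero_add]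

theorem inv (x : L) : v x⁻¹ = -v x := by
  rcases eq_or_ne x 0 with rfl | hx
  · rw [inv_zero, v.zero, neg_zero]
  · have h := v.mul x x⁻¹ hx (inv_ne_zero hx)
    rw [mul_inv_cancel₀ hx, v.one] at h
    linarith

theorem div {x y : L} (hx : x ≠ 0) (hy : y ≠ 0) : v (x / y) = v x - v y := by
  rw [div_eq_mul_inv, v.mul _ _ hx (inv_ne_zero hy), v.inv, sub_eq_add_neg]

theorem pow (x : L) (n : ℕ) : v (x ^ n) = n * v x := by
  rcases eq_or_ne x 0 with rfl | hx
  · rcases n with _ | n <;> simp [v.zero, v.one]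
  induction n with
  | zero => simp [v.one]
  | succ n ih => rw [pow_succ, v.mul _ _ (pow_ne_zero n hx) hx, ih, Nat.cast_succ, add_mul, one_mul]

theorem zpow (x : L) (n : ℤ) : v (x ^ n) = n * v x := by
  obtain ⟨n, rfl | rfl⟩ := n.eq_nat_or_neg <;> simp [v.pow, v.inv]

theorem smul {c : k} (hc : c ≠ 0) (x : L) : v (c • x) = v x := by
  rcases eq_or_ne x 0 with rfl | hx
  · rw [smul_zero]
  rw [Algebra.smul_def, v.mul _ _ ((map_ne_zero _).2 hc) hx, v.triv, zero_add]

theorem prod {ι : Type*} (s : Finset ι) {f : ι → L} (h : ∀ i ∈ s, f i ≠ 0) :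
    v (∏ i ∈ s, f i) = ∑ i ∈ s, v (f i) := by
  classical
  induction s using Finset.induction_on with
  | empty => simp [v.one]
  | insert a s ha ih =>
    have h' : ∀ i ∈ s, f i ≠ 0 := fun i hi => h i (Finset.mem_insert_of_mem hi)
    rw [Finset.prod_insert ha, Finset.sum_insert ha,
      v.mul _ _ (h a (Finset.mem_insert_self _ _)) (Finset.prod_ne_zero_iff.2 h'), ih h']

theorem add_eq {x y : L} (hx : x ≠ 0) (h : y = 0 ∨ v x < v y) :
    x + y ≠ 0 ∧ v (x + y) = v x := by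
  rcases eq_or_ne y 0 with rfl | hy
  · simpa using hx
  have h := h.resolve_left hy
  have h0 : x + y ≠ 0 := fun e => h.ne (by rw [eq_neg_of_add_eq_zero_left e, v.neg])
  have h1 := v.add x y hx hy h0
  have h2 := v.add (x + y) (-y) h0 (neg_ne_zero.2 hy) (by simpa using hx)
  rw [add_neg_cancel_right, v.neg] at h2
  rw [min_eq_left h.le] at h1
  exact ⟨h0, le_antisymm ((min_le_iff.1 h2).resolve_right h.not_ge) h1⟩

/-- The elements of value at least `m`. -/
def ge (m : FF) : Submodule k L where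
  carrier := {x | x = 0 ∨ m ≤ v x}
  zero_mem' := Or.inl rfl
  add_mem' := by
    intro x y hx hy
    by_cases h1 : x = 0
    · simpa [h1] using hy
    by_cases h2 : y = 0
    · simpa [h2] using hx
    exact or_iff_not_imp_left.2 fun h3 =>
      (le_min (hx.resolve_left h1) (hy.resolve_left h2)).trans (v.add x y h1 h2 h3)
  smul_mem' := by
    intro c x hx
    by_cases hc : c = 0
    · exact Or.inl (by simp [hc])
    exact hx.imp (fun e => by simp [e]) fun e => e.trans_eq (v.smul hc x).symm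

/-- The elements of value greater than `m`. -/
def gt (m : FF) : Submodule k L where
  carrier := {x | x = 0 ∨ m < v x}
  zero_mem' := Or.inl rfl
  add_mem' := by
    intro x y hx hy
    by_cases h1 : x = 0
    · simpa [h1] using hy
    by_cases h2 : y = 0
    · simpa [h2] using hx
    exact or_iff_not_imp_left.2 fun h3 =>
      (lt_min (hx.resolve_left h1) (hy.resolve_left h2)).trans_le (v.add x y h1 h2 h3)
  smul_mem' := by
    intro c x hx
    by_cases hc : c = 0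
    · exact Or.inl (by simp [hc])
    exact hx.imp (fun e => by simp [e]) fun e => e.trans_eq (v.smul hc x).symm

theorem mem_ge {m : FF} {x : L} : x ∈ v.ge m ↔ x = 0 ∨ m ≤ v x := Iff.rfl

theorem mem_gt {m : FF} {x : L} : x ∈ v.gt m ↔ x = 0 ∨ m < v x := Iff.rfl

/-- The valuation ring. -/
def O : ValuationSubring L where
  carrier := {x | 0 ≤ v x}
  mul_mem' := by
    intro x y (hx : 0 ≤ v x) (hy : 0 ≤ v y)
    change 0 ≤ v (x * y)
    by_cases h1 : x = 0
    · simp [h1, v.zero]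
    by_cases h2 : y = 0
    · simp [h2, v.zero]
    rw [v.mul x y h1 h2]
    exact add_nonneg hx hy
  one_mem' := v.one.ge
  add_mem' := by
    intro x y hx hy
    exact ((v.ge 0).add_mem (Or.inr hx) (Or.inr hy)).elim (fun e => (e ▸ v.zero.ge :)) id
  zero_mem' := v.zero.ge
  neg_mem' := by
    intro x (hx : 0 ≤ v x)
    exact hx.trans_eq (v.neg x).symm
  mem_or_inv_mem' := by
    intro x
    change 0 ≤ v x ∨ 0 ≤ v x⁻¹
    rw [v.inv, neg_nonneg]
    exact le_total _ _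

theorem mem_O {x : L} : x ∈ v.O ↔ 0 ≤ v x := Iff.rfl

noncomputable instance : Algebra k v.O :=
  ((algebraMap k L).codRestrict v.O fun c => (v.triv c).ge).toAlgebra

/-- The residue field. -/
def κ : Type u := IsLocalRing.ResidueField v.O

noncomputable instance : Field v.κ := inferInstanceAs (Field (IsLocalRing.ResidueField v.O))

noncomputable instance : Algebra k v.κ :=
  inferInstanceAs (Algebra k (IsLocalRing.ResidueField v.O))

open Classical in
/-- The residue; `0` outside the valuation ring. -/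
noncomputable def res (x : L) : v.κ :=
  if h : x ∈ v.O then IsLocalRing.residue v.O ⟨x, h⟩ else 0

theorem V0_res {x : L} (h : x ∈ v.O) : v.res x = IsLocalRing.residue v.O ⟨x, h⟩ := dif_pos h

theorem res_zero : v.res 0 = 0 := by
  rw [v.V0_res (zero_mem _)]
  exact map_zero (IsLocalRing.residue v.O)

theorem res_one : v.res 1 = 1 := by
  rw [v.V0_res (one_mem _)]
  exact map_one (IsLocalRing.residue v.O)

theorem res_of_neg {x : L} (hx : v x < 0) : v.res x = 0 := by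
  exact dif_neg hx.not_ge

theorem res_eq_zero {x : L} : v.res x = 0 ↔ x = 0 ∨ v x ≠ 0 := by
  rcases lt_or_ge (v x) 0 with h | h
  · exact iff_of_true (v.res_of_neg h) (Or.inr h.ne)
  rw [v.V0_res h]
  refine (IsLocalRing.residue_eq_zero_iff _).trans ?_
  rw [← ValuationSubring.coe_mem_nonunits_iff, ValuationSubring.mem_nonunits_iff_or, mem_O, v.inv,
    neg_nonneg, not_le, h.lt_iff_ne']

theorem res_add {x y : L} (hx : 0 ≤ v x) (hy : 0 ≤ v y) : v.res (x + y) = v.res x + v.res y := by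
  rw [v.V0_res hx, v.V0_res hy, v.V0_res (add_mem (s := v.O) hx hy)]
  exact map_add (IsLocalRing.residue v.O) ⟨x, hx⟩ ⟨y, hy⟩

theorem res_neg (x : L) : v.res (-x) = -v.res x := by
  rcases lt_or_ge (v x) 0 with h | h
  · rw [v.res_of_neg h, v.res_of_neg ((v.neg x).trans_lt h), neg_zero]
  rw [v.V0_res h, v.V0_res (neg_mem (s := v.O) h)]
  exact map_neg (IsLocalRing.residue v.O) ⟨x, h⟩

theorem res_sub {x y : L} (hx : 0 ≤ v x) (hy : 0 ≤ v y) : v.res (x - y) = v.res x - v.res y := by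
  rw [sub_eq_add_neg, v.res_add hx (hy.trans_eq (v.neg y).symm), v.res_neg, sub_eq_add_neg]

theorem res_mul {x y : L} (hx : 0 ≤ v x) (hy : 0 ≤ v y) : v.res (x * y) = v.res x * v.res y := by
  rw [v.V0_res hx, v.V0_res hy, v.V0_res (mul_mem (s := v.O) hx hy)]
  exact map_mul (IsLocalRing.residue v.O) ⟨x, hx⟩ ⟨y, hy⟩

theorem res_inv (x : L) : v.res x⁻¹ = (v.res x)⁻¹ := by
  by_cases h : v.res x = 0
  · rw [h, inv_zero, res_eq_zero, v.inv, inv_eq_zero, neg_ne_zero]
    exact v.res_eq_zero.1 h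
  rw [res_eq_zero, not_or, not_not] at h
  refine eq_inv_of_mul_eq_one_left ?_
  rw [← v.res_mul (by rw [v.inv, h.2, neg_zero]) h.2.ge, inv_mul_cancel₀ h.1, v.res_one]

theorem res_div (x : L) {y : L} (hy : v y = 0) : v.res (x / y) = v.res x / v.res y := by
  by_cases h0 : y = 0
  · simp [h0, v.res_zero]
  rcases lt_or_ge (v x) 0 with h | h
  · rw [v.res_of_neg h, zero_div, v.res_of_neg]
    rwa [v.div (x := x) (fun e => h.ne (e ▸ v.zero)) h0, hy, sub_zero]
  rw [div_eq_mul_inv, v.res_mul h (by rw [v.inv, hy, neg_zero]), v.res_inv, div_eq_mul_inv]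

theorem res_pow {x : L} (hx : 0 ≤ v x) (n : ℕ) : v.res (x ^ n) = v.res x ^ n := by
  rw [v.V0_res hx, v.V0_res (pow_mem (S := v.O) hx n)]
  exact map_pow (IsLocalRing.residue v.O) ⟨x, hx⟩ n

theorem res_algebraMap (c : k) : v.res (algebraMap k L c) = algebraMap k v.κ c := by
  exact v.V0_res (v.triv c).ge

theorem res_smul (c : k) (x : L) : v.res (c • x) = c • v.res x := by
  by_cases hc : c = 0
  · simp [hc, v.res_zero]
  rcases lt_or_ge (v x) 0 with h | h
  · rw [v.res_of_neg h, smul_zero, v.res_of_neg ((v.smul hc x).trans_lt h)]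
  rw [Algebra.smul_def, v.res_mul (v.triv c).ge h, v.res_algebraMap, Algebra.smul_def]

theorem res_surj (y : v.κ) : ∃ x, 0 ≤ v x ∧ v.res x = y := by
  obtain ⟨x, rfl⟩ := IsLocalRing.residue_surjective (R := v.O) y
  exact ⟨x, x.2, v.V0_res x.2⟩

theorem res_aeval {σ : Type*} {z : σ → L} (hz : ∀ s, 0 ≤ v (z s)) (p : MvPolynomial σ k) :
    0 ≤ v (aeval z p) ∧ v.res (aeval z p) = aeval (fun s => v.res (z s)) p := by
  induction p using MvPolynomial.induction_on with
  | C c => exact ⟨by rw [aeval_C, v.triv], by rw [aeval_C, aeval_C, v.res_algebraMap]⟩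
  | add p q hp hq =>
    rw [map_add, map_add, v.res_add hp.1 hq.1, hp.2, hq.2]
    exact ⟨add_mem (s := v.O) hp.1 hq.1, rfl⟩
  | mul_X p s hp =>
    rw [map_mul, map_mul, aeval_X, aeval_X, v.res_mul hp.1 (hz s), hp.2]
    exact ⟨mul_mem (s := v.O) hp.1 (hz s), rfl⟩

/-- An element which is integral over a subring of the valuation ring lies in it. -/
theorem of_integral {A : Subalgebra k L} (hA : ∀ x ∈ A, 0 ≤ v x) {x : L} (hx : IsIntegral A x) :
    0 ≤ v x := by
  obtain ⟨y, rfl⟩ := (IsIntegrallyClosed.isIntegral_iff (R := v.O) (K := L)).1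
    (hx.map_of_comp_eq (A.val.toRingHom.codRestrict v.O fun a => hA a a.2) (RingHom.id L) rfl)
  exact y.2

/-- A valuation which is trivial on `s` is trivial on elements algebraic over `k(s)`. -/
theorem triv_of_alg {s : Set L} (h : ∀ x ∈ IntermediateField.adjoin k s, v x = 0) {y : L}
    (hy : IsAlgebraic (Algebra.adjoin k s) y) : v y = 0 := by
  have h1 : IsAlgebraic (IntermediateField.adjoin k s) y :=
    IntermediateField.isAlgebraic_adjoin_iff.2 hy
  have h2 := v.of_integral (A := (IntermediateField.adjoin k s).toSubalgebra)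
    (fun x hx => (h x hx).ge) h1.isIntegral
  have h3 := v.of_integral (A := (IntermediateField.adjoin k s).toSubalgebra)
    (fun x hx => (h x hx).ge) h1.inv.isIntegral
  rw [v.inv, neg_nonneg] at h3
  exact le_antisymm h3 h2

/-- Restriction to a subfield. -/
def comap (ι : F →ₐ[k] L) : Vl k F where
  v x := v (ι x)
  zero := by rw [map_zero, v.zero]
  mul x y hx hy := by rw [map_mul, v.mul _ _ (by simpa) (by simpa)]
  add x y hx hy h := by
    rw [map_add]
    exact v.add _ _ (by simpa) (by simpa) (by rw [← map_add]; exact (map_ne_zero ι).2 h)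
  triv c := by rw [AlgHom.commutes, v.triv]
  fin x := v.fin _

@[simp] theorem comap_apply (ι : F →ₐ[k] L) (x : F) : v.comap ι x = v (ι x) := rfl

theorem comap_comp (ι : F →ₐ[k] L) (j : L →ₐ[k] L') (v : Vl k L') :
    v.comap (j.comp ι) = (v.comap j).comap ι := rfl

end Vl

/-- `v` lies over `c`. -/
def Ov (ι : F →ₐ[k] L) (c : Vl k F) (v : Vl k L) : Prop := ∀ f, 0 ≤ v (ι f) ↔ 0 ≤ c f

/-- `v` is trivial on `F`. -/
def Tv (ι : F →ₐ[k] L) (v : Vl k L) : Prop := ∀ f, v (ι f) = 0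

theorem Ov.exists_kmap {ι : F →ₐ[k] L} {c : Vl k F} {v : Vl k L} (h : Ov ι c v) :
    ∃ φ : c.κ →ₐ[k] v.κ, ∀ f, φ (c.res f) = v.res (ι f) := by
  let g : c.O →+* v.O :=
    ((ι : F →+* L).comp c.O.subtype).codRestrict v.O fun x => (h x).2 x.2
  have : IsLocalHom g := ⟨fun x hx => by
    rw [← IsLocalRing.residue_ne_zero_iff_isUnit] at hx ⊢
    have h1 := (v.res_eq_zero (x := ι x)).not.1 ((v.V0_res (g x).2).trans_ne hx)
    rw [not_or, not_not, map_eq_zero] at h1
    have h2 := (h x⁻¹).1 (by rw [map_inv₀, v.inv, h1.2, neg_zero])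
    rw [c.inv, neg_nonneg] at h2
    exact (c.V0_res x.2).symm.trans_ne
      (c.res_eq_zero.not.2 (not_or.2 ⟨h1.1, not_not.2 (le_antisymm h2 x.2)⟩))⟩
  have key : ∀ f, IsLocalRing.ResidueField.map g (c.res f) = v.res (ι f) := fun f => by
    rcases lt_or_ge (c f) 0 with h1 | h1
    · rw [c.res_of_neg h1, v.res_of_neg (not_le.1 (mt (h f).1 h1.not_ge))]
      exact map_zero _
    · rw [c.V0_res h1, v.V0_res ((h f).2 h1)]
      rfl
  exact ⟨{ (IsLocalRing.ResidueField.map g : c.κ →+* v.κ) with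
    commutes' := fun a => by
      rw [← c.res_algebraMap, ← v.res_algebraMap, ← ι.commutes]
      exact key _ }, key⟩

theorem Tv.exists_tmap {ι : F →ₐ[k] L} {v : Vl k L} (h : Tv ι v) :
    ∃ φ : F →ₐ[k] v.κ, ∀ f, φ f = v.res (ι f) := by
  exact ⟨{ toFun := fun f => v.res (ι f)
           map_one' := by rw [map_one, v.res_one]
           map_mul' := fun x y => by rw [map_mul, v.res_mul (h x).ge (h y).ge]
           map_zero' := by rw [map_zero, v.res_zero]
           map_add' := fun x y => by rw [map_add, v.res_add (h x).ge (h y).ge]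
           commutes' := fun a => by rw [ι.commutes, v.res_algebraMap] }, fun _ => rfl⟩

/-- The map of residue fields. -/
noncomputable def Ov.kmap {ι : F →ₐ[k] L} {c : Vl k F} {v : Vl k L} (h : Ov ι c v) :
    c.κ →ₐ[k] v.κ := h.exists_kmap.choose

/-- The map of `F` to the residue field of a valuation trivial on `F`. -/
noncomputable def Tv.tmap {ι : F →ₐ[k] L} {v : Vl k L} (h : Tv ι v) : F →ₐ[k] v.κ :=
  h.exists_tmap.choose

theorem Ov.kmap_res {ι : F →ₐ[k] L} {c : Vl k F} {v : Vl k L} (h : Ov ι c v) (f : F) :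
    h.kmap (c.res f) = v.res (ι f) := h.exists_kmap.choose_spec f

theorem Tv.tmap_apply {ι : F →ₐ[k] L} {v : Vl k L} (h : Tv ι v) (f : F) :
    h.tmap f = v.res (ι f) := h.exists_tmap.choose_spec f

theorem Ov.range_kmap {ι : F →ₐ[k] L} {c : Vl k F} {v : Vl k L} (h : Ov ι c v) :
    Set.range h.kmap = v.res '' Set.range ι := by
  ext y
  constructor
  · rintro ⟨x, rfl⟩
    obtain ⟨f, -, rfl⟩ := c.res_surj x
    exact ⟨_, ⟨f, rfl⟩, (h.kmap_res f).symm⟩
  · rintro ⟨_, ⟨f, rfl⟩, rfl⟩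
    exact ⟨_, h.kmap_res f⟩

theorem Tv.range_tmap {ι : F →ₐ[k] L} {v : Vl k L} (h : Tv ι v) :
    Set.range h.tmap = v.res '' Set.range ι := by
  rw [← Set.range_comp]
  exact congrArg Set.range (funext h.tmap_apply)

theorem Ov.trans {ι : F →ₐ[k] L} {j : L →ₐ[k] L'} {c : Vl k F} {v : Vl k L} {w : Vl k L'}
    (h : Ov ι c v) (h' : Ov j v w) : Ov (j.comp ι) c w := fun f => (h' (ι f)).trans (h f)

theorem Ov.kmap_trans {ι : F →ₐ[k] L} {j : L →ₐ[k] L'} {c : Vl k F} {v : Vl k L} {w : Vl k L'}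
    (h : Ov ι c v) (h' : Ov j v w) (h'' : Ov (j.comp ι) c w) :
    h''.kmap = h'.kmap.comp h.kmap := by
  refine AlgHom.ext fun x => ?_
  obtain ⟨f, -, rfl⟩ := c.res_surj x
  rw [AlgHom.comp_apply, h.kmap_res, h'.kmap_res, h''.kmap_res, AlgHom.comp_apply]

/-- A divisorial valuation: normalised discrete, with a residue field of transcendence degree
one less. -/
structure Dv (k L : Type u) [Field k] [Field L] [Algebra k L] extends Vl k L where
  int : ∀ x, ∃ z : ℤ, v x = z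
  unif : ∃ π, π ≠ 0 ∧ v π = 1
  dim : td k toVl.κ + 1 = td k L

instance : CoeFun (Dv k L) fun _ => L → FF := ⟨fun ν => ν.toVl.v⟩

namespace Dv

variable (ν : Dv k L)

/-- The integral value. -/
noncomputable def z (x : L) : ℤ := (ν.int x).choose

theorem z_cast (x : L) : (ν.z x : FF) = ν x := (ν.int x).choose_spec.symm

/-- A uniformiser. -/
noncomputable def π : L := ν.unif.choose

theorem π_ne : ν.π ≠ 0 := ν.unif.choose_spec.1

theorem v_π : ν ν.π = 1 := ν.unif.choose_spec.2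

/-- The leading coefficient. -/
noncomputable def lc (x : L) : ν.κ := ν.res (x / ν.π ^ ν.z x)

theorem V0_z {x : L} {n : ℤ} (h : ν x = n) : ν.z x = n := Int.cast_injective ((ν.z_cast x).trans h)

theorem V0_div {x : L} (hx : x ≠ 0) (n : ℤ) : ν (x / ν.π ^ n) = ν x - n := by
  rw [ν.div hx (zpow_ne_zero n ν.π_ne), ν.zpow, ν.v_π, mul_one]

theorem V0_unit (x : L) : ν (x / ν.π ^ ν.z x) = 0 := by
  rcases eq_or_ne x 0 with rfl | hx
  · rw [zero_div, ν.zero]
  · rw [ν.V0_div hx, z_cast, sub_self]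

theorem V0_succ {x y : L} (h : ν x < ν y) : ν x + 1 ≤ ν y := by
  rw [← ν.z_cast, ← ν.z_cast] at h ⊢
  exact_mod_cast h

theorem lc_zero : ν.lc 0 = 0 := by
  rw [lc, zero_div, ν.res_zero]

theorem lc_ne {x : L} (hx : x ≠ 0) : ν.lc x ≠ 0 := by
  exact ν.res_eq_zero.not.2
    (not_or.2 ⟨div_ne_zero hx (zpow_ne_zero _ ν.π_ne), not_not.2 (ν.V0_unit x)⟩)

theorem lc_mul (x y : L) : ν.lc (x * y) = ν.lc x * ν.lc y := by
  by_cases hx : x = 0
  · simp [hx, ν.lc_zero]
  by_cases hy : y = 0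
  · simp [hy, ν.lc_zero]
  rw [lc, lc, lc, ← ν.res_mul (ν.V0_unit x).ge (ν.V0_unit y).ge,
    ν.V0_z (n := ν.z x + ν.z y) (by rw [ν.mul x y hx hy, Int.cast_add, z_cast, z_cast]),
    zpow_add₀ ν.π_ne, mul_div_mul_comm]

theorem lc_of_zero {x : L} (hx : ν x = 0) : ν.lc x = ν.res x := by
  rw [lc, ν.V0_z (n := 0) (by rw [hx, Int.cast_zero]), zpow_zero, div_one]

theorem V0_lc_add {x y : L} (hy : y ≠ 0) (h : ν x ≤ ν y) (h' : ν (x + y) = ν x) :
    ν.lc (x + y) = ν.lc x + ν.res (y / ν.π ^ ν.z x) := by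
  rw [lc, lc, ν.V0_z (h'.trans (ν.z_cast x).symm), add_div, ν.res_add (ν.V0_unit x).ge]
  rwa [ν.V0_div hy, z_cast, sub_nonneg]

theorem V0_lc_lt {x y : L} (hx : x ≠ 0) (hy : y ≠ 0) (h : ν x < ν y) :
    ν (x + y) = ν x ∧ ν.lc (x + y) = ν.lc x := by
  have h1 := (ν.add_eq hx (Or.inr h)).2
  refine ⟨h1, ?_⟩
  rw [ν.V0_lc_add hy h.le h1, ν.res_eq_zero.2 (Or.inr ?_), add_zero]
  rw [ν.V0_div hy, z_cast]
  exact (sub_pos.2 h).ne'

theorem V0_half {K : Type u} [Field K] [Algebra k K] (w : Vl k K) (x : K) :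
    -(1 / 2) < eps * w x ∧ eps * w x < 1 / 2 := by
  obtain ⟨n, hn⟩ := w.fin x
  simpa using abs_lt.1 (eps_small (q := 1 / 2) (by norm_num) hn)

/-- The composite valuation. -/
noncomputable def comp (w : Vl k ν.κ) : Vl k L where
  v x := ν x + eps * w (ν.lc x)
  zero := by rw [ν.zero, ν.lc_zero, w.zero, mul_zero, add_zero]
  mul := by
    intro x y hx hy
    rw [ν.mul x y hx hy, ν.lc_mul, w.mul _ _ (ν.lc_ne hx) (ν.lc_ne hy)]
    ring
  add := by
    intro x y hx hy h0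
    rcases lt_trichotomy (ν x) (ν y) with h | h | h
    · rw [(ν.V0_lc_lt hx hy h).1, (ν.V0_lc_lt hx hy h).2]
      exact min_le_left _ _
    · have h1 := ν.add x y hx hy h0
      rw [← h, min_self] at h1
      rcases h1.lt_or_eq with h2 | h2
      · refine (min_le_left _ _).trans ?_
        linarith [ν.V0_succ h2, (V0_half w (ν.lc x)).2, (V0_half w (ν.lc (x + y))).1]
      · have h3 : ν.lc (x + y) = ν.lc x + ν.lc y := by
          rw [ν.V0_lc_add hy h.le h2.symm, ν.V0_z (h.trans (ν.z_cast y).symm)]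
          rfl
        rw [← h2, ← h, min_add_add_left, ← mul_min_of_nonneg _ _ eps_pos.le, h3]
        exact add_le_add_right (mul_le_mul_of_nonneg_left
          (w.add _ _ (ν.lc_ne hx) (ν.lc_ne hy) (h3 ▸ ν.lc_ne h0)) eps_pos.le) _
    · rw [add_comm x y, (ν.V0_lc_lt hy hx h).1, (ν.V0_lc_lt hy hx h).2]
      exact min_le_right _ _
  triv := by
    intro c
    rw [ν.lc_of_zero (ν.triv c), ν.res_algebraMap, ν.triv, w.triv, mul_zero, add_zero]
  fin := by
    intro x
    obtain ⟨n, hn⟩ := ν.fin x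
    refine ⟨n + 1, ?_⟩
    rw [abs_le] at hn ⊢
    push_cast
    constructor <;> linarith [hn.1, hn.2, (V0_half w (ν.lc x)).1, (V0_half w (ν.lc x)).2]

theorem comp_apply (w : Vl k ν.κ) (x : L) : ν.comp w x = ν x + eps * w (ν.lc x) := rfl

theorem ext' {ν μ : Dv k L} (h : ∀ x, ν x = μ x) : ν = μ := by
  cases ν; cases μ; congr; exact Vl.ext' h

theorem V0_mul {w : Vl k L} (h : ∀ x, 0 ≤ ν x → 0 ≤ w x) (x : L) : w x = ν x * w ν.π := by
  rcases eq_or_ne x 0 with rfl | hx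
  · rw [w.zero, ν.zero, zero_mul]
  have h1 := h _ (ν.V0_unit x).ge
  have h2 := h (x / ν.π ^ ν.z x)⁻¹ (by rw [ν.inv, ν.V0_unit, neg_zero])
  rw [w.inv] at h2
  rw [w.div hx (zpow_ne_zero _ ν.π_ne), w.zpow, z_cast] at h1 h2
  linarith

/-- A discrete valuation ring is a maximal proper subring. -/
theorem ext_le {ν μ : Dv k L} (h : ∀ x, 0 ≤ ν x → 0 ≤ μ x) : ν = μ := by
  have h1 := ν.V0_mul h μ.π
  have h2 := h ν.π (ν.v_π ▸ zero_le_one)
  rw [μ.v_π, ← ν.z_cast, ← μ.z_cast] at h1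
  rw [← μ.z_cast] at h2
  have h3 : μ.z ν.π = 1 :=
    Int.eq_one_of_mul_eq_one_left (by exact_mod_cast h2) (by exact_mod_cast h1.symm)
  refine ext' fun x => ?_
  rw [ν.V0_mul h x, ← μ.z_cast ν.π, h3, Int.cast_one, mul_one]

/-- The ramification index. -/
theorem ov_e {ι : F →ₐ[k] L} {c : Dv k F} {ν : Dv k L} (h : Ov ι c.toVl ν.toVl) :
    ∃ e : ℕ, 0 < e ∧ ∀ f, ν (ι f) = e * c f := by
  have h1 : 0 < ν.z (ι c.π) := by
    have := mt (h c.π⁻¹).1 (by rw [c.inv, c.v_π]; norm_num)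
    rw [map_inv₀, ν.inv, ← ν.z_cast, neg_nonneg, not_le] at this
    exact_mod_cast this
  obtain ⟨e, he⟩ := Int.eq_ofNat_of_zero_le h1.le
  refine ⟨e, by omega, fun f => ?_⟩
  rw [← Int.cast_natCast, ← he, z_cast, mul_comm]
  exact c.V0_mul (w := ν.comap ι) (fun x hx => (h x).2 hx) f

theorem ov_unique {ι : F →ₐ[k] L} {c c' : Dv k F} {v : Vl k L} (h : Ov ι c.toVl v)
    (h' : Ov ι c'.toVl v) : c = c' :=
  ext_le fun x hx => (h' x).1 ((h x).2 hx)

theorem V0_bound (s : Finset (Dv k L)) (y : L) : ∃ r : ℕ, 2 ≤ r ∧ ∀ μ ∈ s, -(r : FF) < μ y := by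
  refine ⟨(s.sup fun μ => (μ.z y).natAbs) + 2, by omega, fun μ hμ => ?_⟩
  have h1 := Finset.le_sup (f := fun μ : Dv k L => (μ.z y).natAbs) hμ
  rw [← μ.z_cast, ← Int.cast_natCast, ← Int.cast_neg, Int.cast_lt]
  omega

theorem V0_pow_le {x : L} (h : ν x < 0) (r : ℕ) : ν (x ^ r) ≤ -r := by
  have h1 := ν.V0_succ (h.trans_eq ν.one.symm)
  rw [ν.one] at h1
  rw [ν.pow, ← mul_neg_one]
  exact mul_le_mul_of_nonneg_left (by linarith) r.cast_nonneg

theorem V0_sep (s : Finset (Dv k L)) (hs : ν ∉ s) : ∃ f, 0 < ν f ∧ ∀ μ ∈ s, μ f < 0 := by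
  classical
  induction s using Finset.induction_on with
  | empty => exact ⟨ν.π, ν.v_π ▸ zero_lt_one, by simp⟩
  | insert μ₀ s _ ih =>
    rw [Finset.mem_insert, not_or] at hs
    obtain ⟨y, h1, h2⟩ := ih hs.2
    obtain ⟨a, a1, a2⟩ : ∃ a, 0 ≤ ν a ∧ μ₀ a < 0 := by simpa using mt ext_le hs.1
    obtain ⟨b, b1, b2⟩ : ∃ b, 0 ≤ μ₀ b ∧ ν b < 0 := by simpa using mt ext_le (Ne.symm hs.1)
    have ha : a ≠ 0 := fun e => a2.ne (e ▸ μ₀.zero)
    have hb : b ≠ 0 := fun e => b2.ne (e ▸ ν.zero)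
    have h3 : 0 < ν (a / b) := by rw [ν.div ha hb]; linarith
    have h4 : μ₀ (a / b) < 0 := by rw [μ₀.div ha hb]; linarith
    have h5 := div_ne_zero ha hb
    generalize a / b = z at h3 h4 h5
    obtain ⟨r, hr, h6⟩ := V0_bound (insert μ₀ s) y
    have key : ∀ μ ∈ insert μ₀ s, μ z < 0 → μ (y + z ^ r) < 0 := fun μ hμ h => by
      have h7 := μ.V0_pow_le h r
      rw [add_comm, (μ.add_eq (pow_ne_zero r h5) (Or.inr (h7.trans_lt (h6 μ hμ)))).2]
      exact h7.trans_lt (neg_lt_zero.2 (Nat.cast_pos.2 (by omega)))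
    refine ⟨y + z ^ r, ?_, fun μ hμ => ?_⟩
    · refine ((ν.gt 0).add_mem (Or.inr h1) (Or.inr ?_)).resolve_left fun e =>
        (key μ₀ (Finset.mem_insert_self _ _) h4).ne (e ▸ μ₀.zero)
      rw [ν.pow]
      exact mul_pos (Nat.cast_pos.2 (by omega)) h3
    · rcases lt_or_ge (μ z) 0 with h | h
      · exact key μ hμ h
      · have h7 := h2 μ ((Finset.mem_insert.1 hμ).resolve_left fun e => h4.not_ge (e ▸ h))
        rwa [(μ.add_eq (x := y) (fun e => h1.ne' (e ▸ ν.zero))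
          (Or.inr (h7.trans_le (pow_mem (S := μ.O) h r)))).2]

/-- Approximation: finitely many divisorial valuations are independent. -/
theorem approx (s : Finset (Dv k L)) (a : Dv k L → ℤ) : ∃ g, g ≠ 0 ∧ ∀ μ ∈ s, μ g = a μ := by
  classical
  induction s using Finset.induction_on with
  | empty => exact ⟨1, one_ne_zero, by simp⟩
  | insert ν s hs ih =>
    obtain ⟨g, hg, h1⟩ := ih
    obtain ⟨f, h2, h3⟩ := ν.V0_sep s hs
    obtain ⟨r, hr, h4⟩ := V0_bound s ν.π
    have hf : f ^ r ≠ 0 := pow_ne_zero r fun e => h2.ne' (e ▸ ν.zero)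
    have h5 : 1 < ν (f ^ r) := by
      have h6 := ν.V0_succ (ν.one.trans_lt h2)
      have h7 : (2 : FF) ≤ r := by exact_mod_cast hr
      rw [ν.one, zero_add] at h6
      rw [ν.pow]
      nlinarith
    obtain ⟨a1, a2⟩ := ν.add_eq ν.π_ne (Or.inr (ν.v_π.trans_lt h5))
    obtain ⟨b1, b2⟩ := ν.add_eq one_ne_zero (Or.inr ((ν.one.trans_lt zero_lt_one).trans h5))
    have h6 := div_ne_zero a1 b1
    refine ⟨g * ((ν.π + f ^ r) / (1 + f ^ r)) ^ (a ν - ν.z g), mul_ne_zero hg (zpow_ne_zero _ h6),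
      fun μ hμ => ?_⟩
    rw [μ.mul _ _ hg (zpow_ne_zero _ h6), μ.zpow, μ.div a1 b1]
    rcases Finset.mem_insert.1 hμ with rfl | hμ
    · rw [a2, b2, μ.v_π, μ.one, Int.cast_sub, z_cast]
      ring
    · have h7 := μ.V0_pow_le (h3 μ hμ) r
      rw [add_comm ν.π, add_comm 1, (μ.add_eq hf (Or.inr (h7.trans_lt (h4 μ hμ)))).2,
        (μ.add_eq hf (Or.inr ((h7.trans_lt
          (neg_lt_zero.2 (Nat.cast_pos.2 (by omega)))).trans_eq μ.one.symm))).2, h1 μ hμ, sub_self,
        mul_zero, add_zero]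

end Dv

end Pool.Agent.Work.MP_ffcd14_ag.Uni
end

-- merged part: Pool.Agent.Work.MP_ffcd14_ag.Uni.V1
section
/-! # Linear systems, piecewise linear functions on valuations, the ring of classes -/

open MvPolynomial

namespace Pool.Agent.Work.MP_ffcd14_ag.Uni

universe u

/-- Non-zero finite-dimensional subspaces of `L`. -/
def FDs (k L : Type u) [Field k] [Field L] [Algebra k L] : Submonoid (Submodule k L) where
  carrier := {V | V ≠ ⊥ ∧ V.FG}
  mul_mem' hV hW := ⟨fun h => (Submodule.mul_eq_bot.1 h).elim hV.1 hW.1, hV.2.mul hW.2⟩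
  one_mem' := by
    rw [Submodule.one_eq_span]
    exact ⟨by simp, Submodule.fg_span_singleton _⟩

/-- Linear systems: non-zero finite-dimensional subspaces of `L`, a monoid for the product. -/
def FD (k L : Type u) [Field k] [Field L] [Algebra k L] : Type u := FDs k L

variable {k F L L' : Type u} [Field k] [Field F] [Field L] [Field L'] [Algebra k F] [Algebra k L]
  [Algebra k L']

noncomputable instance : CommMonoid (FD k L) := inferInstanceAs (CommMonoid (FDs k L))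

namespace FD

theorem ext {V W : FD k L} (h : V.1 = W.1) : V = W := Subtype.ext h

theorem mul_val (V W : FD k L) : (V * W).1 = V.1 * W.1 := rfl

theorem one_val : (1 : FD k L).1 = 1 := rfl

theorem pow_val (V : FD k L) (n : ℕ) : (V ^ n).1 = V.1 ^ n := rfl

theorem ne (V : FD k L) : V.1 ≠ ⊥ := V.2.1

instance (V : FD k L) : FiniteDimensional k V.1 := Module.Finite.iff_fg.2 V.2.2

open Classical in
/-- A subspace as a linear system (`1` if it is zero or of infinite dimension). -/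
noncomputable def of (V : Submodule k L) : FD k L := if h : V ∈ FDs k L then ⟨V, h⟩ else 1

theorem of_val {V : Submodule k L} (h : V ≠ ⊥) (h' : V.FG) : (of V).1 = V := by
  rw [of, dif_pos (show V ∈ FDs k L from ⟨h, h'⟩)]

theorem of_self (V : FD k L) : of V.1 = V := by
  rw [of, dif_pos V.2]
  rfl

/-- The system spanned by one element. -/
noncomputable def pr (f : L) : FD k L := of (Submodule.span k {f})

/-- The system spanned by a finite family. -/
noncomputable def sp {σ : Type*} (u : σ → L) : FD k L := of (Submodule.span k (Set.range u))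

theorem pr_val {f : L} (hf : f ≠ 0) : (pr f : FD k L).1 = Submodule.span k {f} := by
  exact of_val (by simpa using hf) (Submodule.fg_span_singleton f)

theorem sp_val {σ : Type*} [Finite σ] {u : σ → L} (hu : ∃ s, u s ≠ 0) :
    (sp u : FD k L).1 = Submodule.span k (Set.range u) := by
  exact of_val (by simpa using hu) (Submodule.fg_span (Set.finite_range u))

theorem pr_mul {f g : L} (hf : f ≠ 0) (hg : g ≠ 0) : (pr (f * g) : FD k L) = pr f * pr g := by
  refine ext ?_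
  rw [mul_val, pr_val hf, pr_val hg, pr_val (mul_ne_zero hf hg), Submodule.span_mul_span,
    Set.singleton_mul_singleton]

theorem exists_sp (V : FD k L) : ∃ (m : ℕ) (u : Fin (m + 1) → L), (∀ s, u s ≠ 0) ∧ sp u = V := by
  obtain ⟨m, hm⟩ := Nat.exists_eq_succ_of_ne_zero (mt Submodule.finrank_eq_zero.1 V.ne)
  let b := Module.finBasisOfFinrankEq k V.1 hm
  have h : ∀ s, (b s : L) ≠ 0 := fun s e => b.ne_zero s (Subtype.ext e)
  refine ⟨m, fun s => b s, h, ext ?_⟩
  refine (sp_val ⟨0, h 0⟩).trans (Eq.trans ?_ V.1.map_subtype_top)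
  rw [← b.span_eq, Submodule.map_span, ← Set.range_comp]
  rfl

/-- The sum of two systems. -/
def sup (V W : FD k L) : FD k L :=
  ⟨V.1 ⊔ W.1, fun h => V.ne (eq_bot_iff.2 (le_sup_left.trans h.le)), V.2.2.sup W.2.2⟩

theorem V1_ex (V : FD k L) : ∃ f ∈ V.1, f ≠ 0 := Submodule.exists_mem_ne_zero_of_ne_bot V.ne

theorem V1_map (ι : F →ₐ[k] L) (V : FD k F) :
    (of (V.1.map ι.toLinearMap)).1 = V.1.map ι.toLinearMap := by
  obtain ⟨f, hf, h0⟩ := V.V1_ex
  exact of_val ((Submodule.ne_bot_iff _).2 ⟨ι f, ⟨f, hf, rfl⟩, (map_ne_zero ι).2 h0⟩) (V.2.2.map _)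

theorem V1_bot : of (⊥ : Submodule k L) = 1 := dif_neg fun h => h.1 rfl

theorem V1_sp {σ : Type*} {u : σ → L} (hu : ¬ ∃ s, u s ≠ 0) : (sp u : FD k L) = 1 := by
  rw [sp, Submodule.span_eq_bot.2 (by simpa using hu), V1_bot]

/-- The image in a larger field. -/
noncomputable def map (ι : F →ₐ[k] L) : FD k F →* FD k L where
  toFun V := of (V.1.map ι.toLinearMap)
  map_one' := by exact ext ((V1_map ι 1).trans (Submodule.map_one ι))
  map_mul' := by
    intro V W
    exact ext ((V1_map ι (V * W)).trans ((Submodule.map_mul V.1 W.1 ι).trans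
      (congrArg₂ (· * ·) (V1_map ι V).symm (V1_map ι W).symm)))

theorem map_val (ι : F →ₐ[k] L) (V : FD k F) : (map ι V).1 = V.1.map ι.toLinearMap := by
  exact V1_map ι V

theorem map_comp (ι : F →ₐ[k] L) (j : L →ₐ[k] L') (V : FD k F) :
    map (j.comp ι) V = map j (map ι V) := by
  refine ext ?_
  rw [map_val, map_val, map_val, ← Submodule.map_comp]
  rfl

theorem map_sp (ι : F →ₐ[k] L) {σ : Type*} [Finite σ] (u : σ → F) :
    map ι (sp u) = sp fun s => ι (u s) := by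
  by_cases hu : ∃ s, u s ≠ 0
  · refine ext ?_
    rw [map_val, sp_val hu, sp_val (by simpa using hu), Submodule.map_span, ← Set.range_comp]
    rfl
  · rw [V1_sp hu, V1_sp (by simpa using hu), map_one]

theorem exists_pick (V : FD k L) (v : Vl k L) :
    ∃ f ∈ V.1, f ≠ 0 ∧ ∀ g ∈ V.1, g ≠ 0 → v f ≤ v g := by
  obtain ⟨m, u, hu, rfl⟩ := V.exists_sp
  obtain ⟨s, hs⟩ := Finite.exists_min fun s => v (u s)
  rw [sp_val ⟨0, hu 0⟩]
  refine ⟨u s, Submodule.subset_span ⟨s, rfl⟩, hu s, fun g hg h0 => ?_⟩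
  refine (Submodule.span_le (p := v.ge (v (u s))).2 ?_ hg).resolve_left h0
  rintro _ ⟨t, rfl⟩
  exact Or.inr (hs t)

/-- An element of least value. -/
noncomputable def pick (V : FD k L) (v : Vl k L) : L := (V.exists_pick v).choose

theorem pick_mem (V : FD k L) (v : Vl k L) : V.pick v ∈ V.1 := (V.exists_pick v).choose_spec.1

theorem pick_ne (V : FD k L) (v : Vl k L) : V.pick v ≠ 0 := (V.exists_pick v).choose_spec.2.1

end FD

/-- The least value on a linear system. -/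
noncomputable def mn (V : FD k L) (v : Vl k L) : FF := v (V.pick v)

theorem mn_le (V : FD k L) (v : Vl k L) {g : L} (hg : g ∈ V.1) (h0 : g ≠ 0) : mn V v ≤ v g :=
  (V.exists_pick v).choose_spec.2.2 g hg h0

theorem le_mn {V : FD k L} {v : Vl k L} {m : FF} : m ≤ mn V v ↔ V.1 ≤ v.ge m := by
  exact ⟨fun h g hg => or_iff_not_imp_left.2 fun h0 => h.trans (mn_le V v hg h0),
    fun h => (h (V.pick_mem v)).resolve_left (V.pick_ne v)⟩

theorem mn_anti {V W : FD k L} (h : V.1 ≤ W.1) (v : Vl k L) : mn W v ≤ mn V v := by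
  exact mn_le W v (h (V.pick_mem v)) (V.pick_ne v)

theorem V1_mn {V : FD k L} {v : Vl k L} {f : L} (hf : f ∈ V.1) (h0 : f ≠ 0)
    (h : V.1 ≤ v.ge (v f)) : mn V v = v f := le_antisymm (mn_le V v hf h0) (le_mn.2 h)

theorem mn_mul (V W : FD k L) (v : Vl k L) : mn (V * W) v = mn V v + mn W v := by
  refine le_antisymm ((mn_le _ v (Submodule.mul_mem_mul (V.pick_mem v) (W.pick_mem v))
    (mul_ne_zero (V.pick_ne v) (W.pick_ne v))).trans_eq (v.mul _ _ (V.pick_ne v) (W.pick_ne v)))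
    (le_mn.2 (Submodule.mul_le.2 fun a ha b hb => or_iff_not_imp_left.2 fun h => ?_))
  rw [v.mul a b (left_ne_zero_of_mul h) (right_ne_zero_of_mul h)]
  exact add_le_add (mn_le V v ha (left_ne_zero_of_mul h)) (mn_le W v hb (right_ne_zero_of_mul h))

theorem mn_one (v : Vl k L) : mn (1 : FD k L) v = 0 := by
  have := mn_mul (1 : FD k L) 1 v
  rw [mul_one] at this
  linarith

theorem mn_pow (V : FD k L) (n : ℕ) (v : Vl k L) : mn (V ^ n) v = n * mn V v := by
  induction n with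
  | zero => simp [mn_one]
  | succ n ih => rw [pow_succ, mn_mul, ih, Nat.cast_succ, add_mul, one_mul]

theorem mn_sup (V W : FD k L) (v : Vl k L) : mn (V.sup W) v = min (mn V v) (mn W v) := by
  exact eq_of_forall_le_iff fun m => by rw [le_min_iff, le_mn, le_mn, le_mn, ← sup_le_iff]; rfl

theorem mn_pr (f : L) (v : Vl k L) : mn (FD.pr f : FD k L) v = v f := by
  by_cases hf : f = 0
  · rw [hf, FD.pr, Submodule.span_zero_singleton, FD.V1_bot, mn_one, v.zero]
  refine V1_mn ?_ hf ?_ <;> rw [FD.pr_val hf]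
  · exact Submodule.mem_span_singleton_self f
  · exact (Submodule.span_singleton_le_iff_mem _ _).2 (Or.inr le_rfl)

theorem mn_sp {σ : Type*} [Finite σ] {u : σ → L} (hu : ∃ s, u s ≠ 0) (v : Vl k L) :
    ∃ s, u s ≠ 0 ∧ mn (FD.sp u) v = v (u s) := by
  obtain ⟨s, hs, h⟩ := Set.exists_min_image {s | u s ≠ 0} (fun s => v (u s)) (Set.toFinite _) hu
  refine ⟨s, hs, V1_mn ?_ hs ?_⟩ <;> rw [FD.sp_val hu]
  · exact Submodule.subset_span ⟨s, rfl⟩
  · refine Submodule.span_le.2 ?_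
    rintro _ ⟨t, rfl⟩
    exact or_iff_not_imp_left.2 (h t)

theorem mn_map (ι : F →ₐ[k] L) (V : FD k F) (v : Vl k L) :
    mn (FD.map ι V) v = mn V (v.comap ι) := by
  refine V1_mn (f := ι (V.pick (v.comap ι))) ?_ ((map_ne_zero ι).2 (V.pick_ne _)) ?_ <;>
    rw [FD.map_val]
  · exact ⟨_, V.pick_mem _, rfl⟩
  · rintro _ ⟨g, hg, rfl⟩
    exact or_iff_not_imp_left.2 fun h => mn_le V (v.comap ι) hg ((map_ne_zero ι).1 h)

/-- The ratios of elements of a linear system. -/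
def rt (V : FD k L) : Set L := {x | ∃ f ∈ V.1, ∃ g ∈ V.1, x = f / g}

theorem rt_dvd {U V : FD k L} (h : U ∣ V) : rt U ⊆ rt V := by
  obtain ⟨W, rfl⟩ := h
  obtain ⟨w, hw, h0⟩ := W.V1_ex
  rintro _ ⟨f, hf, g, hg, rfl⟩
  exact ⟨_, Submodule.mul_mem_mul hf hw, _, Submodule.mul_mem_mul hg hw,
    (mul_div_mul_right f g h0).symm⟩

theorem rt_mul (U V : FD k L) :
    rt (U * V) ⊆ IntermediateField.adjoin k (rt U ∪ rt V) := by
  obtain ⟨a, ha, ha0⟩ := U.V1_ex
  obtain ⟨b, hb, hb0⟩ := V.V1_ex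
  have key : ∀ f ∈ (U * V).1, f / (a * b) ∈ IntermediateField.adjoin k (rt U ∪ rt V) := fun f hf =>
    Submodule.mul_induction_on hf (fun x hx y hy => by
      rw [mul_div_mul_comm]
      exact mul_mem (IntermediateField.subset_adjoin _ _ (Or.inl ⟨x, hx, a, ha, rfl⟩))
        (IntermediateField.subset_adjoin _ _ (Or.inr ⟨y, hy, b, hb, rfl⟩)))
      fun x y hx hy => by rw [add_div]; exact add_mem hx hy
  rintro _ ⟨f, hf, g, hg, rfl⟩
  rw [← div_div_div_cancel_right₀ (mul_ne_zero ha0 hb0)]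
  exact div_mem (key f hf) (key g hg)

theorem rt_map (ι : F →ₐ[k] L) (V : FD k F) : rt (FD.map ι V) = ι '' rt V := by
  ext x
  rw [rt, FD.map_val]
  constructor
  · rintro ⟨_, ⟨f, hf, rfl⟩, _, ⟨g, hg, rfl⟩, rfl⟩
    exact ⟨_, ⟨f, hf, g, hg, rfl⟩, map_div₀ ι f g⟩
  · rintro ⟨_, ⟨f, hf, g, hg, rfl⟩, rfl⟩
    exact ⟨_, ⟨f, hf, rfl⟩, _, ⟨g, hg, rfl⟩, map_div₀ ι f g⟩

theorem rt_mono {U V : FD k L} (h : U.1 ≤ V.1) : rt U ⊆ rt V := by
  rintro _ ⟨f, hf, g, hg, rfl⟩
  exact ⟨f, h hf, g, h hg, rfl⟩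

theorem exists_gen_fd [Fg k L] : ∃ V : FD k L, IntermediateField.adjoin k (rt V) = ⊤ := by
  obtain ⟨s, hs⟩ := Fg.out (k := k) (L := L)
  have h1 : (1 : L) ∈ Submodule.span k (insert (1 : L) s : Set L) :=
    Submodule.subset_span (Set.mem_insert _ _)
  refine ⟨⟨Submodule.span k (insert (1 : L) s : Set L),
    (Submodule.ne_bot_iff _).2 ⟨1, h1, one_ne_zero⟩, Submodule.fg_span (s.finite_toSet.insert 1)⟩,
    top_unique (hs.ge.trans (IntermediateField.adjoin.mono _ _ _ fun x hx => ?_))⟩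
  exact ⟨x, Submodule.subset_span (Set.mem_insert_of_mem _ hx), 1, h1, (div_one x).symm⟩

namespace Dv

variable (ν : Dv k L)

/-- The least value on a linear system, as an integer. -/
noncomputable def mz (V : FD k L) : ℤ := ν.z (V.pick ν.toVl)

theorem mz_cast (V : FD k L) : (ν.mz V : FF) = mn V ν.toVl := ν.z_cast _

theorem V1_ge {V : FD k L} {f : L} (hf : f ∈ V.1) : 0 ≤ ν (f / ν.π ^ ν.mz V) := by
  by_cases h0 : f = 0
  · rw [h0, zero_div, ν.zero]
  · rw [ν.V0_div h0, mz_cast, sub_nonneg]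
    exact mn_le V _ hf h0

theorem V1_ne {V : FD k L} {f : L} :
    ν.res (f / ν.π ^ ν.mz V) ≠ 0 ↔ f ≠ 0 ∧ ν f = mn V ν.toVl := by
  by_cases h0 : f = 0
  · simp [h0, ν.res_zero]
  · simp [ν.res_eq_zero, ν.V0_div h0, mz_cast, h0, zpow_ne_zero _ ν.π_ne, sub_eq_zero]

theorem V1_lc {V : FD k L} {f : L} (h : ν f = mn V ν.toVl) :
    ν.lc f = ν.res (f / ν.π ^ ν.mz V) := by
  rw [lc, ν.V0_z (h.trans (ν.mz_cast V).symm)]

/-- The restriction map. -/
noncomputable def V1_lin (V : FD k L) : V.1 →ₗ[k] ν.κ where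
  toFun f := ν.res (f / ν.π ^ ν.mz V)
  map_add' f g := by rw [Submodule.coe_add, add_div, ν.res_add (ν.V1_ge f.2) (ν.V1_ge g.2)]
  map_smul' c f := by rw [Submodule.coe_smul, smul_div_assoc, ν.res_smul, RingHom.id_apply]

theorem V1_val (V : FD k L) :
    (FD.of (Submodule.span k ((fun f => ν.res (f / ν.π ^ ν.mz V)) '' V.1))).1 =
      LinearMap.range (ν.V1_lin V) := by
  have h : (fun f => ν.res (f / ν.π ^ ν.mz V)) '' V.1 = LinearMap.range (ν.V1_lin V) :=
    Set.image_eq_range _ _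
  rw [h, Submodule.span_eq]
  exact FD.of_val ((Submodule.ne_bot_iff _).2 ⟨_, ⟨⟨_, V.pick_mem ν.toVl⟩, rfl⟩,
    ν.V1_ne.2 ⟨V.pick_ne _, rfl⟩⟩) (Module.Finite.iff_fg.1 inferInstance)

theorem V1_mz (V W : FD k L) : ν.mz (V * W) = ν.mz V + ν.mz W :=
  ν.V0_z (by rw [Int.cast_add, mz_cast, mz_cast, ← mn_mul]; rfl)

theorem V1_mul {V W : FD k L} {f g : L} (hf : f ∈ V.1) (hg : g ∈ W.1) :
    ν.res (f * g / ν.π ^ ν.mz (V * W)) = ν.res (f / ν.π ^ ν.mz V) * ν.res (g / ν.π ^ ν.mz W) := by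
  rw [V1_mz, zpow_add₀ ν.π_ne, mul_div_mul_comm, ν.res_mul (ν.V1_ge hf) (ν.V1_ge hg)]

/-- The restricted linear system. -/
noncomputable def Res : FD k L →* FD k ν.κ where
  toFun V := FD.of (Submodule.span k ((fun f => ν.res (f / ν.π ^ ν.mz V)) '' V.1))
  map_one' := by
    have h : ν.mz 1 = 0 := ν.V0_z ((mn_one _).trans Int.cast_zero.symm)
    have h1 : ∀ c, ν.res (algebraMap k L c / ν.π ^ ν.mz 1) = algebraMap k ν.κ c := fun c => by
      rw [h, zpow_zero, div_one, ν.res_algebraMap]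
    refine FD.ext ((ν.V1_val 1).trans (Submodule.ext fun y => ?_))
    refine Iff.trans ?_ Submodule.mem_one.symm
    constructor
    · rintro ⟨⟨f, hf⟩, rfl⟩
      obtain ⟨c, rfl⟩ := Submodule.mem_one.1 hf
      exact ⟨c, (h1 c).symm⟩
    · rintro ⟨c, rfl⟩
      exact ⟨⟨_, Submodule.mem_one.2 ⟨c, rfl⟩⟩, h1 c⟩
  map_mul' := by
    intro V W
    refine FD.ext ((ν.V1_val (V * W)).trans
      (Eq.trans ?_ (congrArg₂ (· * ·) (ν.V1_val V).symm (ν.V1_val W).symm)))
    refine le_antisymm ?_ (Submodule.mul_le.2 ?_)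
    · rintro _ ⟨⟨f, hf⟩, rfl⟩
      induction hf using Submodule.mul_induction_on' with
      | mem_mul_mem a ha b hb =>
        exact (congrArg (· ∈ _) (ν.V1_mul ha hb)).mpr
          (Submodule.mul_mem_mul ⟨⟨a, ha⟩, rfl⟩ ⟨⟨b, hb⟩, rfl⟩)
      | add x hx y hy h1 h2 =>
        exact ((ν.V1_lin (V * W)).map_add ⟨x, hx⟩ ⟨y, hy⟩).symm ▸ add_mem h1 h2
    · rintro _ ⟨a, rfl⟩ _ ⟨b, rfl⟩
      exact ⟨⟨_, Submodule.mul_mem_mul a.2 b.2⟩, ν.V1_mul a.2 b.2⟩

theorem mem_Res {V : FD k L} {y : ν.κ} :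
    y ∈ (ν.Res V).1 ↔ ∃ f ∈ V.1, ν.res (f / ν.π ^ ν.mz V) = y := by
  exact (ν.V1_val V ▸ Iff.rfl : _ ↔ y ∈ LinearMap.range (ν.V1_lin V)).trans
    ⟨fun ⟨f, hf⟩ => ⟨f, f.2, hf⟩, fun ⟨f, hf, e⟩ => ⟨⟨f, hf⟩, e⟩⟩

theorem mn_comp (V : FD k L) (w : Vl k ν.κ) :
    mn V (ν.comp w) = mn V ν.toVl + eps * mn (ν.Res V) w := by
  obtain ⟨f, hf, e⟩ := ν.mem_Res.1 ((ν.Res V).pick_mem w)
  obtain ⟨h0, h1⟩ := ν.V1_ne.1 (e ▸ (ν.Res V).pick_ne w)
  have h2 : ν.comp w f = mn V ν.toVl + eps * mn (ν.Res V) w := by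
    rw [comp_apply, ν.V1_lc h1, h1, e]
    rfl
  rw [← h2]
  refine V1_mn hf h0 fun g hg => or_iff_not_imp_left.2 fun g0 => ?_
  rw [h2, comp_apply]
  rcases (mn_le V ν.toVl hg g0).lt_or_eq with h | h
  · have h3 : mn V ν.toVl + 1 ≤ ν g := ν.V0_succ h
    have h4 : eps * mn (ν.Res V) w < 1 / 2 := (V0_half w _).2
    linarith [(V0_half w (ν.lc g)).1]
  · exact add_le_add h.le (mul_le_mul_of_nonneg_left (mn_le _ w
      (ν.mem_Res.2 ⟨g, hg, (ν.V1_lc h.symm).symm⟩) (ν.lc_ne g0)) eps_pos.le)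

theorem V1_div {V : FD k L} (f : L) {g : L} (h0 : g ≠ 0) (h : ν g = mn V ν.toVl) :
    ν.res (f / g) = ν.res (f / ν.π ^ ν.mz V) / ν.res (g / ν.π ^ ν.mz V) := by
  rw [← ν.res_div _ (by rw [ν.V0_div h0, mz_cast, h, sub_self]),
    div_div_div_cancel_right₀ (zpow_ne_zero _ ν.π_ne)]

theorem rt_Res (V : FD k L) : rt (ν.Res V) ⊆ ν.res '' rt V := by
  rintro _ ⟨a, ha, b, hb, rfl⟩
  obtain ⟨f, hf, rfl⟩ := ν.mem_Res.1 ha
  obtain ⟨g, hg, rfl⟩ := ν.mem_Res.1 hb
  by_cases h : ν.res (g / ν.π ^ ν.mz V) = 0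
  · exact ⟨0, ⟨0, zero_mem _, 0, zero_mem _, (div_zero _).symm⟩, by rw [h, div_zero, ν.res_zero]⟩
  · exact ⟨_, ⟨f, hf, g, hg, rfl⟩, ν.V1_div f (ν.V1_ne.1 h).1 (ν.V1_ne.1 h).2⟩

theorem res_mem_rt {V : FD k L} {f g : L} (hf : f ∈ V.1) (hg : g ∈ V.1) (h0 : g ≠ 0)
    (h : ν g = mn V ν.toVl) : ν.res (f / g) ∈ rt (ν.Res V) := by
  exact ⟨_, ν.mem_Res.2 ⟨f, hf, rfl⟩, _, ν.mem_Res.2 ⟨g, hg, rfl⟩, ν.V1_div f h0 h⟩

/-- The elements with zero leading coefficient form the kernel of the restriction. -/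
theorem finrank_Res (V : FD k L) : Module.finrank k V.1 =
    Module.finrank k (ν.Res V).1 + Module.finrank k ↥(V.1 ⊓ ν.gt (mn V ν.toVl)) := by
  have h1 : LinearMap.ker (ν.V1_lin V) = (V.1 ⊓ ν.gt (mn V ν.toVl)).comap V.1.subtype := by
    ext f
    refine (not_not.symm.trans ν.V1_ne.not).trans ?_
    rw [Submodule.mem_comap, Submodule.mem_inf, Vl.mem_gt, not_and_or, not_not]
    refine ⟨fun h => ⟨f.2, or_iff_not_imp_left.2 fun h0 =>
      (mn_le V _ f.2 h0).lt_of_ne' (h.resolve_left h0)⟩, fun h => h.2.imp id fun h => h.ne'⟩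
  rw [← (ν.V1_lin V).finrank_range_add_finrank_ker, h1,
    (Submodule.comapSubtypeEquivOfLe inf_le_left).finrank_eq, ← ν.V1_val]
  rfl

end Dv

/-- The span of the functions `mn V`. -/
noncomputable def DDs (k L : Type u) [Field k] [Field L] [Algebra k L] :
    Submodule ℚ (Vl k L → FF) :=
  Submodule.span ℚ (Set.range fun V : FD k L => mn V)

theorem DDs_rep {D : Vl k L → FF} (h : D ∈ DDs k L) :
    ∃ (n : ℕ) (U U' : FD k L), 0 < n ∧ ∀ v, n * D v = mn U v - mn U' v := by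
  induction h using Submodule.span_induction with
  | mem _ h =>
    obtain ⟨V, rfl⟩ := h
    exact ⟨1, V, 1, one_pos, fun v => by simp [mn_one]⟩
  | zero => exact ⟨1, 1, 1, one_pos, fun v => by simp⟩
  | add D D' _ _ h h' =>
    obtain ⟨n, U, U', hn, h⟩ := h
    obtain ⟨m, W, W', hm, h'⟩ := h'
    refine ⟨n * m, U ^ m * W ^ n, U' ^ m * W' ^ n, Nat.mul_pos hn hm, fun v => ?_⟩
    simp only [mn_mul, mn_pow, Nat.cast_mul, Pi.add_apply]
    linear_combination m * h v + n * h' v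
  | smul q D _ h =>
    obtain ⟨n, U, U', hn, h⟩ := h
    have e : (q.den : FF) * q = q.num := by exact_mod_cast q.den_mul_eq_num
    obtain ⟨a, ha | ha⟩ := q.num.eq_nat_or_neg
    · refine ⟨n * q.den, U ^ a, U' ^ a, Nat.mul_pos hn q.pos, fun v => ?_⟩
      rw [ha, Int.cast_natCast] at e
      simp only [mn_pow, Nat.cast_mul, Pi.smul_apply, Rat.smul_def]
      linear_combination a * h v + n * D v * e
    · refine ⟨n * q.den, U' ^ a, U ^ a, Nat.mul_pos hn q.pos, fun v => ?_⟩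
      rw [ha, Int.cast_neg, Int.cast_natCast] at e
      simp only [mn_pow, Nat.cast_mul, Pi.smul_apply, Rat.smul_def]
      linear_combination -a * h v + n * D v * e

theorem DDs_inf {D D' : Vl k L → FF} (h : D ∈ DDs k L) (h' : D' ∈ DDs k L) :
    D ⊓ D' ∈ DDs k L := by
  obtain ⟨n, U, U', hn, h⟩ := DDs_rep h
  obtain ⟨m, W, W', hm, h'⟩ := DDs_rep h'
  have h0 : (0 : FF) < n * m := by positivity
  have e : D ⊓ D' = ((n * m : ℚ)⁻¹) • (mn ((U ^ m * W' ^ n).sup (W ^ n * U' ^ m)) -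
      mn (U' ^ m * W' ^ n)) := funext fun v => by
    simp only [mn_mul, mn_pow, mn_sup, Pi.smul_apply, Pi.sub_apply, Pi.inf_apply, Rat.smul_def]
    push_cast
    rw [eq_inv_mul_iff_mul_eq₀ h0.ne', mul_min_of_nonneg _ _ h0.le, ← min_sub_sub_right]
    congr 1
    · linear_combination m * h v
    · linear_combination n * h' v
  rw [e]
  exact Submodule.smul_mem _ _
    (sub_mem (Submodule.subset_span ⟨_, rfl⟩) (Submodule.subset_span ⟨_, rfl⟩))

theorem DDs_sup {D D' : Vl k L → FF} (h : D ∈ DDs k L) (h' : D' ∈ DDs k L) :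
    D ⊔ D' ∈ DDs k L := by
  rw [show D ⊔ D' = D + D' - D ⊓ D' from eq_sub_of_add_eq' (inf_add_sup D D')]
  exact sub_mem (add_mem h h') (DDs_inf h h')

/-- Piecewise linear functions on the valuations (Cartier b-divisors with rational
coefficients). -/
def DD (k L : Type u) [Field k] [Field L] [Algebra k L] : Type u := DDs k L

noncomputable instance : AddCommGroup (DD k L) := inferInstanceAs (AddCommGroup (DDs k L))

noncomputable instance : Module ℚ (DD k L) := inferInstanceAs (Module ℚ (DDs k L))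

noncomputable instance : Lattice (DD k L) :=
  Subtype.lattice (P := (· ∈ DDs k L)) (fun _ _ => DDs_sup) fun _ _ => DDs_inf

instance : CoeFun (DD k L) fun _ => Vl k L → FF := ⟨fun D => D.1⟩

namespace DD

@[ext] theorem ext {D D' : DD k L} (h : ∀ v, D v = D' v) : D = D' := Subtype.ext (funext h)

theorem le_def {D D' : DD k L} : D ≤ D' ↔ ∀ v, D v ≤ D' v := Iff.rfl

@[simp] theorem zero_apply (v : Vl k L) : (0 : DD k L) v = 0 := rfl

@[simp] theorem add_apply (D D' : DD k L) (v : Vl k L) : (D + D') v = D v + D' v := rfl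

@[simp] theorem sub_apply (D D' : DD k L) (v : Vl k L) : (D - D') v = D v - D' v := rfl

@[simp] theorem neg_apply (D : DD k L) (v : Vl k L) : (-D) v = -D v := rfl

@[simp] theorem smul_apply (q : ℚ) (D : DD k L) (v : Vl k L) : (q • D) v = q * D v :=
  Rat.smul_def q (D v)

@[simp] theorem nsmul_apply (n : ℕ) (D : DD k L) (v : Vl k L) : (n • D) v = n * D v :=
  nsmul_eq_mul n (D v)

@[simp] theorem zsmul_apply (n : ℤ) (D : DD k L) (v : Vl k L) : (n • D) v = n * D v :=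
  zsmul_eq_mul (D v) n

@[simp] theorem inf_apply (D D' : DD k L) (v : Vl k L) : (D ⊓ D') v = min (D v) (D' v) := rfl

@[simp] theorem sup_apply (D D' : DD k L) (v : Vl k L) : (D ⊔ D') v = max (D v) (D' v) := rfl

instance : IsOrderedAddMonoid (DD k L) where
  add_le_add_left _ _ h c := fun v => add_le_add_left (h v) (c v)

/-- Evaluation at a valuation. -/
noncomputable def ev (v : Vl k L) : DD k L →ₗ[ℚ] FF where
  toFun D := D v
  map_add' _ _ := rfl
  map_smul' _ _ := rfl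

@[simp] theorem sum_apply {ι : Type*} (s : Finset ι) (D : ι → DD k L) (v : Vl k L) :
    (∑ i ∈ s, D i) v = ∑ i ∈ s, D i v := map_sum (ev v) D s

theorem inf'_apply {ι : Type*} {s : Finset ι} (h : s.Nonempty) (D : ι → DD k L) (v : Vl k L) :
    (s.inf' h D) v = s.inf' h fun i => D i v :=
  Finset.apply_inf'_eq_inf'_comp h (fun D : DD k L => D v) fun _ _ => rfl

theorem sup'_apply {ι : Type*} {s : Finset ι} (h : s.Nonempty) (D : ι → DD k L) (v : Vl k L) :
    (s.sup' h D) v = s.sup' h fun i => D i v :=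
  Finset.apply_sup'_eq_sup'_comp h (fun D : DD k L => D v) fun _ _ => rfl

theorem fin (D : DD k L) (v : Vl k L) : ∃ n : ℕ, |D v| ≤ n := by
  obtain ⟨n, U, U', hn, h⟩ := DDs_rep D.2
  obtain ⟨a, ha⟩ := v.fin (U.pick v)
  obtain ⟨b, hb⟩ := v.fin (U'.pick v)
  refine ⟨a + b, (le_mul_of_one_le_left (abs_nonneg _) (Nat.one_le_cast.2 hn)).trans ?_⟩
  rw [← Nat.abs_cast n, ← abs_mul, h, Nat.cast_add]
  exact (abs_sub _ _).trans (add_le_add ha hb)

end DD

/-- The function `mn V`. -/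
noncomputable def mD (V : FD k L) : DD k L := ⟨mn V, Submodule.subset_span ⟨V, rfl⟩⟩

/-- The function `v ↦ v f` (a principal divisor). -/
noncomputable def vD (k : Type u) [Field k] [Algebra k L] (f : L) : DD k L := mD (FD.pr f)

@[simp] theorem mD_apply (V : FD k L) (v : Vl k L) : mD V v = mn V v := rfl

@[simp] theorem vD_apply (f : L) (v : Vl k L) : vD k f v = v f := mn_pr f v

theorem mD_mul (V W : FD k L) : mD (V * W) = mD V + mD W := DD.ext (mn_mul V W)

theorem mD_pow (V : FD k L) (n : ℕ) : mD (V ^ n) = n • mD V :=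
  DD.ext fun v => by rw [mD_apply, mn_pow, DD.nsmul_apply, mD_apply]

theorem mD_sup (V W : FD k L) : mD (V.sup W) = mD V ⊓ mD W := DD.ext (mn_sup V W)

theorem DD.rep (D : DD k L) : ∃ (n : ℕ) (U U' : FD k L), 0 < n ∧ n • D = mD U - mD U' := by
  obtain ⟨n, U, U', hn, h⟩ := DDs_rep D.2
  exact ⟨n, U, U', hn, DD.ext fun v => by simpa using h v⟩

theorem span_mD : Submodule.span ℚ (Set.range (mD : FD k L → DD k L)) = ⊤ := by
  refine top_unique fun D _ => ?_
  obtain ⟨n, U, U', hn, h⟩ := D.rep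
  rw [← Submodule.smul_mem_iff _ (Nat.cast_ne_zero.2 hn.ne' : (n : ℚ) ≠ 0), Nat.cast_smul_eq_nsmul, h]
  exact sub_mem (Submodule.subset_span ⟨_, rfl⟩) (Submodule.subset_span ⟨_, rfl⟩)

theorem V1_mem {P : Submodule ℚ (DD k L)} (h : ∀ V, mD V ∈ P) (D : DD k L) : D ∈ P :=
  (span_mD.ge.trans (Submodule.span_le.2 (Set.range_subset_iff.2 h))) Submodule.mem_top

/-- Pull-back to a larger field. -/
noncomputable def pD (ι : F →ₐ[k] L) : DD k F →ₗ[ℚ] DD k L where
  toFun D := ⟨fun v => D (v.comap ι), by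
    refine Submodule.span_le (p := (DDs k L).comap
      (LinearMap.funLeft ℚ FF fun v : Vl k L => v.comap ι)).2 ?_ D.2
    rintro _ ⟨V, rfl⟩
    exact Submodule.subset_span ⟨FD.map ι V, funext (mn_map ι V)⟩⟩
  map_add' _ _ := rfl
  map_smul' _ _ := rfl

@[simp] theorem pD_apply (ι : F →ₐ[k] L) (D : DD k F) (v : Vl k L) :
    pD ι D v = D (v.comap ι) := rfl

theorem pD_mD (ι : F →ₐ[k] L) (V : FD k F) : pD ι (mD V) = mD (FD.map ι V) :=
  DD.ext fun v => (mn_map ι V v).symm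

theorem pD_comp (ι : F →ₐ[k] L) (j : L →ₐ[k] L') (D : DD k F) :
    pD (j.comp ι) D = pD j (pD ι D) := rfl

namespace Dv

variable (ν : Dv k L)

/-- The coefficient of a b-divisor at a divisorial valuation. -/
noncomputable def vq : DD k L →ₗ[ℚ] ℚ := rho FF ∘ₗ DD.ev ν.toVl

theorem vq_cast (D : DD k L) : (ν.vq D : FF) = D ν.toVl := by
  obtain ⟨n, U, U', hn, h⟩ := DDs_rep D.2
  have h1 : D ν.toVl = (((ν.mz U - ν.mz U') / n : ℚ) : FF) := by
    push_cast
    rw [eq_div_iff (Nat.cast_ne_zero.2 hn.ne'), mz_cast, mz_cast, ← h, mul_comm]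
  change (rho FF (D ν.toVl) : FF) = _
  rw [h1, rho_cast]

theorem vq_mD (V : FD k L) : ν.vq (mD V) = ν.mz V := by
  exact Rat.cast_injective (α := FF) (by rw [vq_cast, Rat.cast_intCast, mz_cast, mD_apply])

theorem vq_vD (f : L) : ν.vq (vD k f) = ν.z f := by
  exact Rat.cast_injective (α := FF) (by rw [vq_cast, Rat.cast_intCast, z_cast, vD_apply])

theorem vq_mono {D D' : DD k L} (h : D ≤ D') : ν.vq D ≤ ν.vq D' := by
  exact (Rat.cast_le (K := FF)).1 (by rw [vq_cast, vq_cast]; exact h _)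

theorem vq_inf (D D' : DD k L) : ν.vq (D ⊓ D') = min (ν.vq D) (ν.vq D') := by
  exact Rat.cast_injective (α := FF) (by rw [Rat.cast_min, vq_cast, vq_cast, vq_cast, DD.inf_apply])

theorem vq_sup (D D' : DD k L) : ν.vq (D ⊔ D') = max (ν.vq D) (ν.vq D') := by
  exact Rat.cast_injective (α := FF) (by rw [Rat.cast_max, vq_cast, vq_cast, vq_cast, DD.sup_apply])

/-- Restriction to the residue field. -/
noncomputable def rD : DD k L →ₗ[ℚ] DD k ν.κ where
  toFun D := ⟨fun w => (D (ν.comp w) - D ν.toVl) / eps, by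
    obtain ⟨D, hD⟩ := D
    induction hD using Submodule.span_induction with
    | mem _ h =>
      obtain ⟨V, rfl⟩ := h
      exact Submodule.subset_span ⟨ν.Res V, funext fun w => by
        simp only [mn_comp, add_sub_cancel_left, mul_div_cancel_left₀ _ eps_pos.ne']⟩
    | zero =>
      convert (DDs k ν.κ).zero_mem using 1
      exact funext fun w => by simp
    | add D D' _ _ h h' =>
      convert add_mem h h' using 1
      exact funext fun w => by simp only [Pi.add_apply]; ring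
    | smul q D _ h =>
      convert Submodule.smul_mem _ q h using 1
      exact funext fun w => by simp only [Pi.smul_apply, Rat.smul_def]; ring⟩
  map_add' := by
    intro D D'
    refine DD.ext fun w => ?_
    change ((D + D') _ - (D + D') _) / eps = (D _ - D _) / eps + (D' _ - D' _) / eps
    simp only [DD.add_apply]
    ring
  map_smul' := by
    intro q D
    refine DD.ext fun w => ?_
    refine Eq.trans ?_ (DD.smul_apply q _ w).symm
    change ((q • D) _ - (q • D) _) / eps = q * ((D _ - D _) / eps)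
    simp only [DD.smul_apply]
    ring

theorem comp_eq (D : DD k L) (w : Vl k ν.κ) : D (ν.comp w) = D ν.toVl + eps * ν.rD D w := by
  change _ = _ + eps * ((D _ - D _) / eps)
  rw [mul_div_cancel₀ _ eps_pos.ne', add_sub_cancel]

theorem V1_rD {D : DD k L} {E : DD k ν.κ} (h : ∀ w, D (ν.comp w) = D ν.toVl + eps * E w) :
    ν.rD D = E :=
  DD.ext fun w => mul_left_cancel₀ eps_pos.ne' (add_left_cancel ((ν.comp_eq D w).symm.trans (h w)))

theorem V1_vq {D D' : DD k L} (h : ν.vq D = ν.vq D') : D ν.toVl = D' ν.toVl := by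
  rw [← vq_cast, ← vq_cast, h]

theorem rD_mD (V : FD k L) : ν.rD (mD V) = mD (ν.Res V) := by
  exact ν.V1_rD (ν.mn_comp V)

theorem rD_mono {D D' : DD k L} (h : D ≤ D') (h' : ν.vq D = ν.vq D') : ν.rD D ≤ ν.rD D' := by
  intro w
  have h1 : D (ν.comp w) ≤ D' (ν.comp w) := h _
  rw [comp_eq, comp_eq, ν.V1_vq h'] at h1
  exact le_of_mul_le_mul_left (le_of_add_le_add_left h1) eps_pos

theorem rD_inf_eq {D D' : DD k L} (h : ν.vq D = ν.vq D') :
    ν.rD (D ⊓ D') = ν.rD D ⊓ ν.rD D' := by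
  refine ν.V1_rD fun w => ?_
  rw [DD.inf_apply, DD.inf_apply, DD.inf_apply, comp_eq, comp_eq, ν.V1_vq h, min_self,
    min_add_add_left, mul_min_of_nonneg _ _ eps_pos.le]

theorem rD_inf_lt {D D' : DD k L} (h : ν.vq D < ν.vq D') : ν.rD (D ⊓ D') = ν.rD D := by
  refine ν.V1_rD fun w => ?_
  obtain ⟨n, hn⟩ := (ν.rD (D' - D)).fin w
  have h1 := (abs_lt.1 (eps_small (sub_pos.2 h) hn)).1
  have h2 := ν.comp_eq (D' - D) w
  have h3 : D ν.toVl < D' ν.toVl := by
    rw [← vq_cast, ← vq_cast]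
    exact Rat.cast_lt.2 h
  rw [Rat.cast_sub, vq_cast, vq_cast] at h1
  rw [DD.sub_apply, DD.sub_apply] at h2
  rw [DD.inf_apply, DD.inf_apply, min_eq_left h3.le, min_eq_left (by linarith), comp_eq]

theorem rD_vD (f : L) : ν.rD (vD k f) = vD k (ν.lc f) := by
  exact ν.V1_rD fun w => by rw [vD_apply, vD_apply, vD_apply, comp_apply]

end Dv

/-- The relations: linear relations between the functions `mn V`, principal divisors, and
products of effective divisors with disjoint supports. -/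
noncomputable def rel (k L : Type u) [Field k] [Field L] [Algebra k L] :
    Ideal (MvPolynomial (FD k L) ℚ) :=
  Ideal.span ({p | ∃ c : FD k L →₀ ℚ, Finsupp.linearCombination ℚ mD c = 0 ∧
      p = Finsupp.linearCombination ℚ X c} ∪ {p | ∃ f : L, p = X (FD.pr f)} ∪
    {p | ∃ c c' : FD k L →₀ ℚ, Finsupp.linearCombination ℚ mD c ⊓
      Finsupp.linearCombination ℚ mD c' = 0 ∧
      p = Finsupp.linearCombination ℚ X c * Finsupp.linearCombination ℚ X c'})

/-- The ring generated by the classes of Cartier b-divisors. -/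
def N (k L : Type u) [Field k] [Field L] [Algebra k L] : Type u :=
  MvPolynomial (FD k L) ℚ ⧸ rel k L

noncomputable instance : CommRing (N k L) :=
  inferInstanceAs (CommRing (MvPolynomial (FD k L) ℚ ⧸ rel k L))

noncomputable instance : Algebra ℚ (N k L) :=
  inferInstanceAs (Algebra ℚ (MvPolynomial (FD k L) ℚ ⧸ rel k L))

/-- The quotient map. -/
noncomputable def mkN : MvPolynomial (FD k L) ℚ →ₐ[ℚ] N k L := Ideal.Quotient.mkₐ ℚ (rel k L)

/-- The hyperplane class of a linear system. -/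
noncomputable def hh (V : FD k L) : N k L := mkN (X V)

theorem mkN_eq (p : MvPolynomial (FD k L) ℚ) : mkN p = aeval hh p := by
  exact DFunLike.congr_fun (aeval_unique mkN) p

theorem mkN_surj : Function.Surjective (mkN : MvPolynomial (FD k L) ℚ → N k L) :=
  Ideal.Quotient.mkₐ_surjective ℚ _

theorem mkN_eq_zero {p : MvPolynomial (FD k L) ℚ} : mkN p = 0 ↔ p ∈ rel k L :=
  Ideal.Quotient.eq_zero_iff_mem

theorem V1_surj :
    Function.Surjective (Finsupp.linearCombination ℚ (mD : FD k L → DD k L)) :=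
  LinearMap.range_eq_top.1 ((Finsupp.range_linearCombination ℚ).trans span_mD)

theorem exists_cl : ∃ c : DD k L →ₗ[ℚ] N k L, ∀ V, c (mD V) = -hh V := by
  obtain ⟨r, hr⟩ := (Finsupp.linearCombination ℚ (mD : FD k L → DD k L)).exists_rightInverse_of_surjective
    (LinearMap.range_eq_top.2 V1_surj)
  refine ⟨-(mkN.toLinearMap ∘ₗ Finsupp.linearCombination ℚ X ∘ₗ r), fun V => ?_⟩
  have h1 : mkN (Finsupp.linearCombination ℚ X (r (mD V) - Finsupp.single V 1)) = 0 :=
    mkN_eq_zero.2 (Ideal.subset_span (Or.inl (Or.inl ⟨_, by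
      rw [map_sub, Finsupp.linearCombination_single, one_smul, sub_eq_zero]
      exact LinearMap.congr_fun hr _, rfl⟩)))
  rw [map_sub, map_sub, Finsupp.linearCombination_single, one_smul, sub_eq_zero] at h1
  exact congrArg Neg.neg h1

/-- The class of a b-divisor. -/
noncomputable def cl : DD k L →ₗ[ℚ] N k L := exists_cl.choose

theorem cl_mD (V : FD k L) : cl (mD V) = -hh V := exists_cl.choose_spec V

theorem hh_pr (f : L) : hh (FD.pr f : FD k L) = 0 := by
  exact mkN_eq_zero.2 (Ideal.subset_span (Or.inl (Or.inr ⟨f, rfl⟩)))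

theorem cl_vD (f : L) : cl (vD k f) = 0 := by rw [vD, cl_mD, hh_pr, neg_zero]

theorem hh_mul (V W : FD k L) : hh (V * W) = hh V + hh W := by
  rw [← neg_inj, neg_add, ← cl_mD, ← cl_mD, ← cl_mD, mD_mul, map_add]

theorem hh_one : hh (1 : FD k L) = 0 := by
  simpa using hh_mul (1 : FD k L) 1

theorem hh_pow (V : FD k L) (n : ℕ) : hh (V ^ n) = n • hh V := by
  rw [← neg_inj, ← smul_neg, ← cl_mD, ← cl_mD, mD_pow, map_nsmul]

theorem hh_prod {ι : Type*} (s : Finset ι) (V : ι → FD k L) :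
    hh (∏ i ∈ s, V i) = ∑ i ∈ s, hh (V i) := by
  classical
  induction s using Finset.induction_on with
  | empty => simp [hh_one]
  | insert a s ha ih => rw [Finset.prod_insert ha, Finset.sum_insert ha, hh_mul, ih]

theorem V1_comb {B : Type*} [CommRing B] [Algebra ℚ B] (φ : MvPolynomial (FD k L) ℚ →ₐ[ℚ] B)
    (c : DD k L →ₗ[ℚ] B) (h : ∀ V, φ (X V) = -c (mD V)) (a : FD k L →₀ ℚ) :
    φ (Finsupp.linearCombination ℚ X a) = -c (Finsupp.linearCombination ℚ mD a) := by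
  induction a using Finsupp.induction_linear with
  | zero => simp
  | add a b ha hb => simp only [map_add, ha, hb, neg_add]
  | single V q => simp [h]

theorem cl_disj {D D' : DD k L} (h : D ⊓ D' = 0) : cl D * cl D' = 0 := by
  obtain ⟨a, rfl⟩ := V1_surj D
  obtain ⟨b, rfl⟩ := V1_surj D'
  have h1 := V1_comb (k := k) (L := L) mkN cl fun V => by rw [cl_mD, neg_neg, hh]
  rw [← neg_mul_neg, ← h1, ← h1, ← map_mul]
  exact mkN_eq_zero.2 (Ideal.subset_span (Or.inr ⟨a, b, h, rfl⟩))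

theorem cl_supp {D D' : DD k L} (h : ∀ v, D v = 0 ∨ D' v = 0) : cl D * cl D' = 0 := by
  have key : ∀ {A B : DD k L}, (∀ v, A v = 0 ∨ B v = 0) → cl (A ⊔ 0) * cl (B ⊔ 0) = 0 :=
    fun h => cl_disj (DD.ext fun v => by rcases h v with e | e <;> simp [e])
  have e : ∀ A : DD k L, cl A = cl (A ⊔ 0) - cl (-A ⊔ 0) := fun A =>
    (congrArg cl (posPart_sub_negPart A).symm).trans (map_sub _ _ _)
  rw [e D, e D', sub_mul, mul_sub, mul_sub, key h, key (by simpa using h), key (by simpa using h),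
    key (by simpa using h)]
  simp

/-- If `D` and `D'` agree on the support of `E`, then `E D = E D'`. -/
theorem cl_congr {E D D' : DD k L} (h : ∀ v, E v ≠ 0 → D v = D' v) :
    cl E * cl D = cl E * cl D' := by
  rw [← sub_eq_zero, ← mul_sub, ← map_sub]
  exact cl_supp fun v => or_iff_not_imp_left.2 fun h0 => by rw [DD.sub_apply, h v h0, sub_self]

theorem cl_mul_inf (D D' : DD k L) :
    cl D * cl D' = cl (D ⊓ D') * (cl D + cl D' - cl (D ⊓ D')) := by
  have h := cl_supp (D := D - D ⊓ D') (D' := D' - D ⊓ D') fun v => by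
    rcases le_total (D v) (D' v) with h | h <;> simp [h]
  rw [map_sub, map_sub] at h
  linear_combination h

theorem adjoin_hh : Algebra.adjoin ℚ (Set.range (hh : FD k L → N k L)) = ⊤ := by
  rw [Algebra.adjoin_range_eq_range_aeval]
  refine top_unique fun x _ => ?_
  obtain ⟨p, rfl⟩ := mkN_surj x
  exact ⟨p, (mkN_eq p).symm⟩

theorem N.hom_ext {B : Type*} [CommRing B] [Algebra ℚ B] {φ ψ : N k L →ₐ[ℚ] B}
    (h : ∀ V, φ (hh V) = ψ (hh V)) : φ = ψ := by
  exact AlgHom.ext_of_adjoin_eq_top adjoin_hh (Set.forall_mem_range.2 h)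

theorem V1_lift {B : Type*} [CommRing B] [Algebra ℚ B] (c : DD k L →ₗ[ℚ] B)
    (h1 : ∀ f, c (vD k f) = 0) (h2 : ∀ D D', D ⊓ D' = 0 → c D * c D' = 0) :
    ∃ φ : N k L →ₐ[ℚ] B, ∀ V, φ (hh V) = -c (mD V) := by
  have h := V1_comb (aeval fun V => -c (mD V)) c fun V => aeval_X _ V
  refine ⟨Ideal.Quotient.liftₐ (rel k L) (aeval fun V => -c (mD V)) fun p hp =>
    Ideal.span_le (I := RingHom.ker (aeval fun V => -c (mD V))).2 ?_ hp, fun V => aeval_X _ V⟩
  rintro _ ((⟨a, ha, rfl⟩ | ⟨f, rfl⟩) | ⟨a, b, hab, rfl⟩) <;> refine RingHom.mem_ker.2 ?_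
  · rw [h, ha, map_zero, neg_zero]
  · rw [aeval_X, neg_eq_zero]
    exact h1 f
  · rw [map_mul, h, h, neg_mul_neg, h2 _ _ hab]

theorem exists_pb (ι : F →ₐ[k] L) : ∃ φ : N k F →ₐ[ℚ] N k L, ∀ V, φ (hh V) = hh (FD.map ι V) := by
  obtain ⟨φ, h⟩ := V1_lift (cl ∘ₗ pD ι)
    (fun f => (congrArg cl (DD.ext fun v => by simp)).trans (cl_vD (ι f)))
    fun D D' h => cl_disj ((congrArg (pD ι) h).trans (map_zero _))
  exact ⟨φ, fun V => by rw [h, LinearMap.comp_apply, pD_mD, cl_mD, neg_neg]⟩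

theorem Dv.exists_rs (ν : Dv k L) : ∃ φ : N k L →ₐ[ℚ] N k ν.κ, ∀ V, φ (hh V) = hh (ν.Res V) := by
  obtain ⟨φ, h⟩ := V1_lift (cl ∘ₗ ν.rD) (fun f => by rw [LinearMap.comp_apply, ν.rD_vD, cl_vD])
    fun D D' h => by
      rw [LinearMap.comp_apply, LinearMap.comp_apply]
      rcases lt_trichotomy (ν.vq D) (ν.vq D') with e | e | e
      · rw [← ν.rD_inf_lt e, h, map_zero, map_zero, zero_mul]
      · exact cl_disj (by rw [← ν.rD_inf_eq e, h, map_zero])
      · rw [← ν.rD_inf_lt e, inf_comm, h, map_zero, map_zero, mul_zero]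
  exact ⟨φ, fun V => by rw [h, LinearMap.comp_apply, ν.rD_mD, cl_mD, neg_neg]⟩

/-- Pull-back of classes. -/
noncomputable def pb (ι : F →ₐ[k] L) : N k F →ₐ[ℚ] N k L := (exists_pb ι).choose

/-- Restriction of classes to a prime divisor. -/
noncomputable def Dv.rs (ν : Dv k L) : N k L →ₐ[ℚ] N k ν.κ := ν.exists_rs.choose

theorem pb_hh (ι : F →ₐ[k] L) (V : FD k F) : pb ι (hh V) = hh (FD.map ι V) :=
  (exists_pb ι).choose_spec V

theorem Dv.rs_hh (ν : Dv k L) (V : FD k L) : ν.rs (hh V) = hh (ν.Res V) :=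
  ν.exists_rs.choose_spec V

theorem pb_cl (ι : F →ₐ[k] L) (D : DD k F) : pb ι (cl D) = cl (pD ι D) := by
  exact V1_mem (P := LinearMap.eqLocus ((pb ι).toLinearMap ∘ₗ cl) (cl ∘ₗ pD ι))
    (fun V => by simp [cl_mD, pD_mD, pb_hh]) D

theorem Dv.rs_cl (ν : Dv k L) (D : DD k L) : ν.rs (cl D) = cl (ν.rD D) := by
  exact V1_mem (P := LinearMap.eqLocus (ν.rs.toLinearMap ∘ₗ cl) (cl ∘ₗ ν.rD))
    (fun V => by simp [cl_mD, ν.rD_mD, ν.rs_hh]) D

theorem pb_comp (ι : F →ₐ[k] L) (j : L →ₐ[k] L') (x : N k F) :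
    pb (j.comp ι) x = pb j (pb ι x) := by
  exact DFunLike.congr_fun (N.hom_ext (ψ := (pb j).comp (pb ι)) fun V => by
    rw [AlgHom.comp_apply, pb_hh, pb_hh, pb_hh, FD.map_comp]) x

/-- The classes of degree one. -/
noncomputable def N1 (k L : Type u) [Field k] [Field L] [Algebra k L] : Submodule ℚ (N k L) :=
  LinearMap.range cl

theorem cl_mem (D : DD k L) : cl D ∈ N1 k L := ⟨D, rfl⟩

theorem hh_mem (V : FD k L) : hh V ∈ N1 k L := ⟨-mD V, by rw [map_neg, cl_mD, neg_neg]⟩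

theorem N1_eq : N1 k L = Submodule.span ℚ (Set.range hh) := by
  refine le_antisymm ?_ (Submodule.span_le.2 (Set.range_subset_iff.2 hh_mem))
  rintro _ ⟨D, rfl⟩
  exact V1_mem (P := (Submodule.span ℚ (Set.range hh)).comap cl)
    (fun V => by rw [Submodule.mem_comap, cl_mD]; exact neg_mem (Submodule.subset_span ⟨V, rfl⟩)) D

theorem pb_N1 (ι : F →ₐ[k] L) {x : N k F} (h : x ∈ N1 k F) : pb ι x ∈ N1 k L := by
  obtain ⟨D, rfl⟩ := h
  exact ⟨_, (pb_cl ι D).symm⟩

theorem Dv.rs_N1 (ν : Dv k L) {x : N k L} (h : x ∈ N1 k L) : ν.rs x ∈ N1 k ν.κ := by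
  obtain ⟨D, rfl⟩ := h
  exact ⟨_, (ν.rs_cl D).symm⟩

/-- Multiples of hyperplane classes. -/
def Nef (x : N k L) : Prop := ∃ (q : ℚ) (V : FD k L), 0 ≤ q ∧ x = q • hh V

theorem Nef.hh (V : FD k L) : Nef (hh V) := ⟨1, V, zero_le_one, (one_smul _ _).symm⟩

theorem Nef.zero : Nef (0 : N k L) := ⟨0, 1, le_rfl, (zero_smul _ _).symm⟩

theorem Nef.add {x y : N k L} (hx : Nef x) (hy : Nef y) : Nef (x + y) := by
  obtain ⟨q, V, hq, rfl⟩ := hx
  obtain ⟨r, W, hr, rfl⟩ := hy
  obtain ⟨a, ha⟩ := Int.eq_ofNat_of_zero_le (Rat.num_nonneg.2 hq)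
  obtain ⟨b, hb⟩ := Int.eq_ofNat_of_zero_le (Rat.num_nonneg.2 hr)
  have e1 : q = a / q.den := by rw [← Int.cast_natCast a, ← ha, Rat.num_div_den]
  have e2 : r = b / r.den := by rw [← Int.cast_natCast b, ← hb, Rat.num_div_den]
  refine ⟨(q.den * r.den : ℚ)⁻¹, V ^ (a * r.den) * W ^ (b * q.den), by positivity, ?_⟩
  rw [hh_mul, hh_pow, hh_pow, smul_add, ← Nat.cast_smul_eq_nsmul ℚ, ← Nat.cast_smul_eq_nsmul ℚ,
    smul_smul, smul_smul]
  congr 2
  · conv_lhs => rw [e1]
    push_cast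
    field_simp
  · conv_lhs => rw [e2]
    push_cast
    field_simp

theorem Nef.smul {x : N k L} (hx : Nef x) {q : ℚ} (hq : 0 ≤ q) : Nef (q • x) := by
  obtain ⟨r, V, hr, rfl⟩ := hx
  exact ⟨q * r, V, mul_nonneg hq hr, smul_smul _ _ _⟩

theorem Nef.nsmul {x : N k L} (hx : Nef x) (n : ℕ) : Nef (n • x) := by
  exact Nat.cast_smul_eq_nsmul ℚ n x ▸ hx.smul n.cast_nonneg

theorem Nef.mem {x : N k L} (hx : Nef x) : x ∈ N1 k L := by
  obtain ⟨r, V, -, rfl⟩ := hx
  exact Submodule.smul_mem _ _ (hh_mem V)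

theorem Nef.pb {x : N k F} (hx : Nef x) (ι : F →ₐ[k] L) : Nef (pb ι x) := by
  obtain ⟨r, V, hr, rfl⟩ := hx
  exact ⟨r, _, hr, by rw [map_smul, pb_hh]⟩

theorem Nef.rs {x : N k L} (hx : Nef x) (ν : Dv k L) : Nef (ν.rs x) := by
  obtain ⟨r, V, hr, rfl⟩ := hx
  exact ⟨r, _, hr, by rw [map_smul, ν.rs_hh]⟩

theorem exists_nef_sub {x : N k L} (hx : x ∈ N1 k L) : ∃ y z, Nef y ∧ Nef z ∧ x = y - z := by
  obtain ⟨D, rfl⟩ := hx
  obtain ⟨n, U, U', hn, h⟩ := D.rep
  refine ⟨_, _, ⟨(n : ℚ)⁻¹, U', by positivity, rfl⟩, ⟨(n : ℚ)⁻¹, U, by positivity, rfl⟩, ?_⟩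
  rw [← smul_sub, eq_inv_smul_iff₀ (Nat.cast_ne_zero.2 hn.ne'), Nat.cast_smul_eq_nsmul, ← map_nsmul,
    h, map_sub, cl_mD, cl_mD, neg_sub_neg]

/-- The classes defined on the model given by `V`: the span of the classes of its factors. -/
noncomputable def Dat (V : FD k L) : Submodule ℚ (N k L) :=
  Submodule.span ℚ {x | ∃ U, U ∣ V ∧ x = hh U}

/-- The classes defined by linear systems with ratios in `s`. -/
noncomputable def NS (k : Type u) [Field k] [Algebra k L] (s : Set L) : Submodule ℚ (N k L) :=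
  Submodule.span ℚ {x | ∃ U : FD k L, rt U ⊆ s ∧ x = hh U}

theorem hh_dat {U V : FD k L} (h : U ∣ V) : hh U ∈ Dat V := Submodule.subset_span ⟨U, h, rfl⟩

theorem Dat_mono {U V : FD k L} (h : U ∣ V) : Dat U ≤ Dat V :=
  Submodule.span_mono fun _ ⟨W, hW, e⟩ => ⟨W, hW.trans h, e⟩

theorem Dat_le_N1 (V : FD k L) : Dat V ≤ N1 k L := by
  exact Submodule.span_le.2 fun _ ⟨U, _, e⟩ => e ▸ hh_mem U

theorem Dat_le_NS {V : FD k L} {s : Set L} (h : rt V ⊆ s) : Dat V ≤ NS k s := by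
  exact Submodule.span_mono fun _ ⟨U, hU, e⟩ => ⟨U, (rt_dvd hU).trans h, e⟩

theorem NS_mono {s t : Set L} (h : s ⊆ t) : NS k s ≤ NS k t := by
  exact Submodule.span_mono fun _ ⟨U, hU, e⟩ => ⟨U, hU.trans h, e⟩

theorem NS_le_N1 (s : Set L) : NS k s ≤ N1 k L := by
  exact Submodule.span_le.2 fun _ ⟨U, _, e⟩ => e ▸ hh_mem U

theorem exists_dat {x : N k L} (hx : x ∈ N1 k L) : ∃ V, x ∈ Dat V := by
  obtain ⟨_, _, ⟨q, V, -, rfl⟩, ⟨r, W, -, rfl⟩, rfl⟩ := exists_nef_sub hx
  exact ⟨V * W, sub_mem (Submodule.smul_mem _ _ (hh_dat (dvd_mul_right _ _)))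
    (Submodule.smul_mem _ _ (hh_dat (dvd_mul_left _ _)))⟩

theorem exists_dat_fin {ι : Type*} [Finite ι] {x : ι → N k L} (hx : ∀ i, x i ∈ N1 k L) :
    ∃ V, ∀ i, x i ∈ Dat V := by
  have := Fintype.ofFinite ι
  choose V hV using fun i => exists_dat (hx i)
  exact ⟨∏ i, V i, fun i => Dat_mono (Finset.dvd_prod_of_mem V (Finset.mem_univ i)) (hV i)⟩

theorem exists_dat_adjoin (x : N k L) :
    ∃ V : FD k L, x ∈ Algebra.adjoin ℚ (Dat V : Set (N k L)) := by
  have hx : x ∈ Algebra.adjoin ℚ (Set.range hh) := adjoin_hh.ge Algebra.mem_top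
  induction hx using Algebra.adjoin_induction with
  | mem _ h =>
    obtain ⟨V, rfl⟩ := h
    exact ⟨V, Algebra.subset_adjoin (hh_dat dvd_rfl)⟩
  | algebraMap c => exact ⟨1, Subalgebra.algebraMap_mem _ c⟩
  | add x y _ _ h h' =>
    obtain ⟨V, h⟩ := h
    obtain ⟨W, h'⟩ := h'
    exact ⟨V * W, add_mem (Algebra.adjoin_mono (Dat_mono (dvd_mul_right _ _)) h)
      (Algebra.adjoin_mono (Dat_mono (dvd_mul_left _ _)) h')⟩
  | mul x y _ _ h h' =>
    obtain ⟨V, h⟩ := h
    obtain ⟨W, h'⟩ := h'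
    exact ⟨V * W, mul_mem (Algebra.adjoin_mono (Dat_mono (dvd_mul_right _ _)) h)
      (Algebra.adjoin_mono (Dat_mono (dvd_mul_left _ _)) h')⟩

theorem dat_pb (ι : F →ₐ[k] L) {V : FD k F} {x : N k F} (h : x ∈ Dat V) :
    pb ι x ∈ Dat (FD.map ι V) := by
  refine Submodule.span_le (p := (Dat (FD.map ι V)).comap (pb ι).toLinearMap).2 ?_ h
  rintro _ ⟨U, hU, rfl⟩
  exact (congrArg (· ∈ Dat _) (pb_hh ι U)).mpr (hh_dat (map_dvd _ hU))

theorem dat_rs (ν : Dv k L) {V : FD k L} {x : N k L} (h : x ∈ Dat V) :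
    ν.rs x ∈ Dat (ν.Res V) := by
  refine Submodule.span_le (p := (Dat (ν.Res V)).comap ν.rs.toLinearMap).2 ?_ h
  rintro _ ⟨U, hU, rfl⟩
  exact (congrArg (· ∈ Dat _) (ν.rs_hh U)).mpr (hh_dat (map_dvd _ hU))

theorem pb_NS (ι : F →ₐ[k] L) {x : N k F} (h : x ∈ N1 k F) : pb ι x ∈ NS k (Set.range ι) := by
  obtain ⟨V, hV⟩ := exists_dat h
  exact Dat_le_NS (rt_map ι V ▸ Set.image_subset_range _ _) (dat_pb ι hV)

theorem pb_adjoin (ι : F →ₐ[k] L) (x : N k F) :
    pb ι x ∈ Algebra.adjoin ℚ (NS k (Set.range ι) : Set (N k L)) := by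
  obtain ⟨V, hV⟩ := exists_dat_adjoin x
  exact Algebra.adjoin_le (S := (Algebra.adjoin ℚ (NS k (Set.range ι) : Set (N k L))).comap (pb ι))
    (fun y hy => Algebra.subset_adjoin (pb_NS ι (Dat_le_N1 V hy))) hV

theorem rs_NS (ν : Dv k L) {s : Set L} {x : N k L} (h : x ∈ NS k s) :
    ν.rs x ∈ NS k (ν.res '' s) := by
  refine Submodule.span_le (p := (NS k (ν.res '' s)).comap ν.rs.toLinearMap).2 ?_ h
  rintro _ ⟨U, hU, rfl⟩
  exact Submodule.subset_span ⟨ν.Res U, (ν.rt_Res U).trans (Set.image_mono hU), ν.rs_hh U⟩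

theorem rs_adjoin (ν : Dv k L) {s : Set L} {x : N k L}
    (h : x ∈ Algebra.adjoin ℚ (NS k s : Set (N k L))) :
    ν.rs x ∈ Algebra.adjoin ℚ (NS k (ν.res '' s) : Set (N k ν.κ)) := by
  exact Algebra.adjoin_le
    (S := (Algebra.adjoin ℚ (NS k (ν.res '' s) : Set (N k ν.κ))).comap ν.rs)
    (fun y hy => Algebra.subset_adjoin (rs_NS ν hy)) h

/-- The classes on the model of `V` are squeezed by multiples of `hh V`. -/
theorem dat_squeeze {V : FD k L} {x : N k L} (h : x ∈ Dat V) :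
    ∃ M : ℕ, Nef (M • hh V + x) ∧ Nef (M • hh V - x) := by
  induction h using Submodule.span_induction with
  | mem _ h =>
    obtain ⟨U, ⟨W, rfl⟩, rfl⟩ := h
    refine ⟨1, ((Nef.hh _).nsmul 1).add (Nef.hh U), ?_⟩
    rw [one_smul, hh_mul, add_sub_cancel_left]
    exact Nef.hh W
  | zero => exact ⟨0, by simpa using Nef.zero⟩
  | add x y _ _ h h' =>
    obtain ⟨M, h1, h2⟩ := h
    obtain ⟨M', h3, h4⟩ := h'
    refine ⟨M + M', ?_, ?_⟩
    · convert h1.add h3 using 1
      module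
    · convert h2.add h4 using 1
      module
  | smul q x _ h =>
    obtain ⟨M, h1, h2⟩ := h
    obtain ⟨n, hn⟩ := exists_nat_ge |q|
    obtain ⟨h3, h4⟩ := abs_le.1 hn
    have h5 : 0 ≤ (n + q) / 2 := by linarith
    have h6 : 0 ≤ (n - q) / 2 := by linarith
    refine ⟨n * M, ?_, ?_⟩
    · convert (h1.smul h5).add (h2.smul h6) using 1
      module
    · convert (h1.smul h6).add (h2.smul h5) using 1
      module

/-- The square of `hh W` lies in the ideal generated by the classes on the model of `V`: this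
forces the fibres of the model of `V W` over the model of `V` to have dimension at most one. -/
def EQD (V W : FD k L) : Prop := hh W * hh W ∈ Ideal.span (Dat V : Set (N k L))

theorem EQD.mono {V V' W : FD k L} (h : EQD V W) (h' : V ∣ V') : EQD V' W := by
  exact Ideal.span_mono (Dat_mono h') h

theorem EQD.mul {V W : FD k L} (h : EQD V W) : EQD V (W * V) := by
  rw [EQD, hh_mul, show (hh W + hh V) * (hh W + hh V) = hh W * hh W + (2 * hh W + hh V) * hh V by ring]
  exact add_mem h (Ideal.mul_mem_left _ _ (Ideal.subset_span (hh_dat dvd_rfl)))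

theorem EQD.res {V W : FD k L} (h : EQD V W) (ν : Dv k L) : EQD (ν.Res V) (ν.Res W) := by
  rw [EQD, ← ν.rs_hh, ← map_mul]
  exact Ideal.span_le (I := (Ideal.span (Dat (ν.Res V) : Set (N k ν.κ))).comap ν.rs).2
    (fun x hx => Ideal.subset_span (dat_rs ν hx)) h

theorem EQD.map {V W : FD k F} (h : EQD V W) (ι : F →ₐ[k] L) :
    EQD (FD.map ι V) (FD.map ι W) := by
  rw [EQD, ← pb_hh, ← map_mul]
  exact Ideal.span_le (I := (Ideal.span (Dat (FD.map ι V) : Set (N k L))).comap (pb ι)).2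
    (fun x hx => Ideal.subset_span (dat_pb ι hx)) h

end Pool.Agent.Work.MP_ffcd14_ag.Uni
end
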